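import Mathlib

/-!
# Differential operators over a commutative algebra with commuting derivations

`C` is a commutative `ℂ`-algebra, `d : ι → Derivation ℂ C C` a family of derivations.
`OL d m P`: `P` is a differential operator of order `< m` (a sum of `f d_{i_1} ⋯ d_{i_r}`, `r < m`).
-/

set_option autoImplicit false

noncomputable section

namespace H99.EQ

variable {C : Type*} [CommRing C] [Algebra ℂ C]

/-- multiplication operator -/
def mo (f : C) : Module.End ℂ C := LinearMap.mulLeft ℂ f

/-- a derivation as an operator -/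
def dv (D : Derivation ℂ C C) : Module.End ℂ C := (D : C →ₗ[ℂ] C)

@[simp] theorem mo_apply (f g : C) : mo f g = f * g := rfl

@[simp] theorem dv_apply (D : Derivation ℂ C C) (g : C) : dv D g = D g := rfl

theorem mo_mul (f g : C) : mo (f * g) = mo f * mo g := by
  ext x; simp [mul_assoc]

theorem mo_add (f g : C) : mo (f + g) = mo f + mo g := by
  ext x; simp [add_mul]

theorem mo_sub (f g : C) : mo (f - g) = mo f - mo g := by
  ext x; simp [sub_mul]

theorem mo_neg (f : C) : mo (-f) = -mo f := by
  ext x; simp

theorem mo_zero : mo (0 : C) = 0 := by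
  ext x; simp

theorem mo_one : mo (1 : C) = 1 := by
  ext x; simp

theorem mo_smul (c : ℂ) (f : C) : mo (c • f) = c • mo f := by
  ext x; simp

theorem mo_comm (f g : C) : mo f * mo g = mo g * mo f := by
  rw [← mo_mul, ← mo_mul, mul_comm]

theorem mo_inj {f g : C} (h : mo f = mo g) : f = g := by
  have := congrArg (fun P : Module.End ℂ C => P 1) h
  simpa using this

/-- Leibniz rule -/
theorem dv_mo (D : Derivation ℂ C C) (f : C) : dv D * mo f = mo f * dv D + mo (D f) := by
  ext x; simp [mul_comm]

/-- differential operators of order `< m` -/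
inductive OL {ι : Type*} (d : ι → Derivation ℂ C C) : ℕ → Module.End ℂ C → Prop
  | zero (m : ℕ) : OL d m 0
  | mo (f : C) : OL d 1 (mo f)
  | add {m : ℕ} {P Q : Module.End ℂ C} : OL d m P → OL d m Q → OL d m (P + Q)
  | up {m : ℕ} {P : Module.End ℂ C} : OL d m P → OL d (m + 1) P
  | comp {m : ℕ} {P : Module.End ℂ C} (i : ι) : OL d (m + 1) P → OL d (m + 2) (P * dv (d i))

end H99.EQ
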