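import Pool.Agent.H99.EQ.Defs
import Pool.Agent.H99.EQ.Op

/-!
# Block A (Toeplitz operators and graded differential operators): definitions
-/

set_option autoImplicit false

open MeasureTheory Complex
open scoped ContDiff

noncomputable section

namespace H99.EQ

/-- one-dimensional theta function
`ϑ_l(x, ξ) = ∑_{m ∈ ℤ} exp (2πi (l+km) ξ - πk (x - m - l/k)²)` -/
def th (k : ℕ) (l : ℤ) (x ξ : ℝ) : ℂ :=
  ∑' m : ℤ, exp (2 * Real.pi * I * ((l : ℂ) + k * m) * ξ -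
    Real.pi * k * ((x : ℂ) - m - (l : ℂ) / k) ^ 2)

/-- the theta basis of `H⁰(M, L^k)` -/
def eb {n : ℕ} (k : ℕ) (l : Fin n → ℤ) (q : Ph n) : ℂ := ∏ j, th k (l j) (q.1 j) (q.2 j)

/-- the characters `exp (2πi (a·x + b·ξ))` of `M` -/
def EE {n : ℕ} (a b : Fin n → ℤ) (q : Ph n) : ℂ :=
  exp (2 * Real.pi * I * ∑ j, ((a j : ℂ) * (q.1 j : ℂ) + (b j : ℂ) * (q.2 j : ℂ)))

/-- Fourier coefficients of a function on `M` -/
def fc {n : ℕ} (f : Ph n → ℂ) (a b : Fin n → ℤ) : ℂ := ip f (EE a b)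

/-- `|a|² + |b|²` -/
def sq {n : ℕ} (a b : Fin n → ℤ) : ℝ := ∑ j, ((a j : ℝ) ^ 2 + (b j : ℝ) ^ 2)

/-- `a·b` -/
def dt {n : ℕ} (a b : Fin n → ℤ) : ℝ := ∑ j, (a j : ℝ) * (b j : ℝ)

/-- the section `∑_l u(l/k) e_l` attached to a function `u` on `ℝⁿ/ℤⁿ` -/
def su {n : ℕ} (k : ℕ) (u : V n → ℂ) (q : Ph n) : ℂ :=
  ∑ l : Fin n → Fin k, u (fun j => ((l j : ℕ) : ℝ) / k) * eb k (fun j => ((l j : ℕ) : ℤ)) q

/-- the function `Φ_κ(f, u)(x) = ∑ f^(a,b) e^{-πκ(|a|²+|b|²)/2} e^{2πi a·(x-κb/2)} u(x-κb)` -/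
def Phi {n : ℕ} (κ : ℝ) (f : Ph n → ℂ) (u : V n → ℂ) (x : V n) : ℂ :=
  ∑' ab : (Fin n → ℤ) × (Fin n → ℤ), fc f ab.1 ab.2 *
    exp (-(Real.pi * κ / 2) * sq ab.1 ab.2 - Real.pi * I * κ * dt ab.1 ab.2) *
    exp (2 * Real.pi * I * ∑ j, (ab.1 j : ℂ) * (x j : ℂ)) * u (x - κ • ivec ab.2)

/-- the normalising factor `((2k)^{-n/2} k^n)^{1/2}` of the norms of the sections `su k u` -/
def nk (n k : ℕ) : ℝ := Real.sqrt ((Real.sqrt (2 * k) ^ n)⁻¹ * (k : ℝ) ^ n)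

/-- smooth functions on `ℝⁿ/ℤⁿ` -/
def CP (n : ℕ) : Subalgebra ℂ (V n → ℂ) where
  carrier := {u | ContDiff ℝ ∞ u ∧ ∀ (a : Fin n → ℤ) (x : V n), u (x + ivec a) = u x}
  mul_mem' := by
    rintro u v ⟨h1, h2⟩ ⟨h3, h4⟩
    exact ⟨h1.mul h3, fun a x => by simp [h2, h4]⟩
  add_mem' := by
    rintro u v ⟨h1, h2⟩ ⟨h3, h4⟩
    exact ⟨h1.add h3, fun a x => by simp [h2, h4]⟩
  algebraMap_mem' := fun c => ⟨contDiff_const, fun a x => rfl⟩

theorem contDiff_fderiv_apply {E F : Type*} [NormedAddCommGroup E] [NormedSpace ℝ E]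
    [NormedAddCommGroup F] [NormedSpace ℝ F] {f : E → F} (hf : ContDiff ℝ ∞ f) (v : E) :
    ContDiff ℝ ∞ fun x => fderiv ℝ f x v :=
  (hf.fderiv_right (m := ∞) (by simp)).clm_apply contDiff_const

/-- partial derivatives on `CP n` -/
def pdx {n : ℕ} (j : Fin n) : Derivation ℂ (CP n) (CP n) where
  toFun u := ⟨fun x => fderiv ℝ (u : V n → ℂ) x (Pi.single j 1), by
    refine ⟨contDiff_fderiv_apply u.2.1 _, fun a x => ?_⟩
    have h : (fun y => (u : V n → ℂ) (y + ivec a)) = (u : V n → ℂ) := funext fun y => u.2.2 a y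
    have h2 : fderiv ℝ (fun y => (u : V n → ℂ) (y + ivec a)) x =
        fderiv ℝ (u : V n → ℂ) (x + ivec a) := fderiv_comp_add_right (ivec a)
    change fderiv ℝ (u : V n → ℂ) (x + ivec a) (Pi.single j 1) =
      fderiv ℝ (u : V n → ℂ) x (Pi.single j 1)
    rw [← h2, h]⟩
  map_add' u v := by
    ext x
    have : fderiv ℝ (fun y => (u : V n → ℂ) y + (v : V n → ℂ) y) x =
        fderiv ℝ (u : V n → ℂ) x + fderiv ℝ (v : V n → ℂ) x :=
      fderiv_fun_add (u.2.1.differentiable (by simp) x) (v.2.1.differentiable (by simp) x)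
    change fderiv ℝ (fun y => (u : V n → ℂ) y + (v : V n → ℂ) y) x (Pi.single j 1) = _
    rw [this]; rfl
  map_smul' c u := by
    ext x
    change fderiv ℝ (fun y => c * (u : V n → ℂ) y) x (Pi.single j 1) =
      c * fderiv ℝ (u : V n → ℂ) x (Pi.single j 1)
    rw [fderiv_const_mul (u.2.1.differentiable (by simp) x)]; rfl
  map_one_eq_zero' := by
    ext x
    change fderiv ℝ (fun _ => (1 : ℂ)) x (Pi.single j 1) = 0
    simp
  leibniz' u v := by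
    ext x
    change fderiv ℝ (fun y => (u : V n → ℂ) y * (v : V n → ℂ) y) x (Pi.single j 1) =
      (u : V n → ℂ) x * fderiv ℝ (v : V n → ℂ) x (Pi.single j 1) +
      (v : V n → ℂ) x * fderiv ℝ (u : V n → ℂ) x (Pi.single j 1)
    rw [fderiv_fun_mul (u.2.1.differentiable (by simp) x) (v.2.1.differentiable (by simp) x)]
    rfl

/-- the exponentials `exp (2πi b·x)` in `CP n` -/
def eP {n : ℕ} (b : Fin n → ℤ) : CP n :=
  ⟨fun x => exp (2 * Real.pi * I * ∑ j, (b j : ℂ) * (x j : ℂ)), by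
    refine ⟨?_, fun a x => ?_⟩
    · refine Complex.contDiff_exp.comp (contDiff_const.mul (ContDiff.sum fun j _ => ?_))
      exact contDiff_const.mul (Complex.ofRealCLM.contDiff.comp (contDiff_apply ℝ ℝ j))
    · have : (2 * Real.pi * I * ∑ j, (b j : ℂ) * (((x + ivec a) j : ℝ) : ℂ)) =
          2 * Real.pi * I * ∑ j, (b j : ℂ) * (x j : ℂ) +
            ((∑ j, b j * a j : ℤ) : ℂ) * (2 * Real.pi * I) := by
        simp only [Pi.add_apply, ivec]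
        push_cast
        simp only [mul_add, Finset.sum_add_distrib]
        ring
      change exp (2 * Real.pi * I * ∑ j, (b j : ℂ) * (((x + ivec a) j : ℝ) : ℂ)) =
        exp (2 * Real.pi * I * ∑ j, (b j : ℂ) * (x j : ℂ))
      rw [this, exp_add, exp_int_mul_two_pi_mul_I, mul_one]⟩

section opS

variable {C : Type*} [CommRing C] [Algebra ℂ C]

/-- the monomial `∏_j d_j^{β_j}` in the operators `d_j` -/
def dmon {n : ℕ} (d : Fin n → Derivation ℂ C C) (β : Fin n →₀ ℕ) : Module.End ℂ C :=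
  (List.ofFn fun j => dv (d j) ^ β j).prod

/-- the differential operator `∑_β c_β d^β` with symbol the polynomial `∑_β c_β X^β` -/
def opS {n : ℕ} (d : Fin n → Derivation ℂ C C) (σ : MvPolynomial (Fin n) C) : Module.End ℂ C :=
  ∑ β ∈ σ.support, mo (σ.coeff β) * dmon d β

end opS

/-- evaluation of an element of `CP n` at a point -/
def evP {n : ℕ} (x : V n) : CP n →+* ℂ where
  toFun u := (u : V n → ℂ) x
  map_one' := rfl
  map_mul' _ _ := rfl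
  map_zero' := rfl
  map_add' _ _ := rfl

/-- `i/(2π)` -/
def nu : ℂ := I / (2 * Real.pi)

/-- The symbols `σ_w` (`w = 0, 1, 2, …`, polynomials with coefficients in `CP n`) are the graded
symbols of the sequence `P_k`: `P_k su(u) = ∑_{w<N} k^{-w} su(σ_w(x, ∂) u) + O(k^{-N})`. -/
def HasExp {n : ℕ} (P : ∀ k : ℕ, Hol n k →ₗ[ℂ] Hol n k)
    (σ : ℕ → MvPolynomial (Fin n) (CP n)) : Prop :=
  ∀ (N : ℕ) (u : CP n), ∃ C : ℝ, ∀ k : ℕ, 1 ≤ k → ∀ s : Hol n k,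
    (s : Ph n → ℂ) = su k (u : V n → ℂ) →
    nrm (fun q => (P k s : Ph n → ℂ) q -
      ∑ w ∈ Finset.range N, ((k : ℂ) ^ w)⁻¹ * su k (opS pdx (σ w) u : V n → ℂ) q)
      ≤ C / (k : ℝ) ^ N * nk n k

/-- uniform boundedness -/
def BddOp {n : ℕ} (P : ∀ k : ℕ, Hol n k →ₗ[ℂ] Hol n k) : Prop :=
  ∃ C : ℝ, ∀ k : ℕ, 1 ≤ k → ∀ s : Hol n k, nrm (P k s : Ph n → ℂ) ≤ C * nrm (s : Ph n → ℂ)

end H99.EQ
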