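import Pool.Agent.H99.EQ.ADefs
import Pool.Agent.H72.BT.Main

/-!
# Target of block A: graded symbols of commuting Berezin-Toeplitz operators

This is the only statement of the Berezin-Toeplitz half (`Pool/Agent/H72/BT`) that the
algebraic half uses.
-/

set_option autoImplicit false

open MeasureTheory Complex
open scoped ContDiff

noncomputable section

namespace H99.EQ

/-- the graded symbols of commuting Berezin-Toeplitz operators with principal symbols `p_j`:
differential operators `opS pdx (σ j w)` of order `≤ w` on `ℝⁿ/ℤⁿ` with top order part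
`ν^w (∂_ξ^w p_j)(x, 0) / w!`, which commute in the graded sense. -/
def ASymb {n : ℕ} (p : Fin n → Ph n → ℝ) (σ : Fin n → ℕ → MvPolynomial (Fin n) (CP n)) : Prop :=
  (∀ j w, (σ j w).totalDegree ≤ w) ∧
  (∀ (j : Fin n) (w : ℕ) (x t : V n),
    MvPolynomial.eval (fun i => (t i : ℂ))
      (MvPolynomial.map (evP x) (MvPolynomial.homogeneousComponent w (σ j w))) =
        nu ^ w * ((w.factorial : ℂ)⁻¹ *
          ((iteratedDeriv w (fun s : ℝ => p j (x, s • t)) 0 : ℝ) : ℂ))) ∧
  (∀ i j W, ∑ vw ∈ Finset.HasAntidiagonal.antidiagonal W,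
    (opS pdx (σ i vw.1) * opS pdx (σ j vw.2) - opS pdx (σ j vw.2) * opS pdx (σ i vw.1)) = 0)

/-- the graded symbols of an exact quantisation -/
theorem exists_symbols {n : ℕ} {p : Fin n → Ph n → ℝ} (h : IsQuantised p) :
    ∃ σ : Fin n → ℕ → MvPolynomial (Fin n) (CP n), ASymb p σ :=
  H72BT.symbols_core h

end H99.EQ
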