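import Pool.Agent.H99.EQ.O1

/-!
# EQ-O2: commutators lower the order

Job EQ-O2. `[P, f]` for `P` of order `≤ m` has order `≤ m - 1`; `[P, Q]` has order `≤ m + k - 1`
for operators of order `≤ m`, `≤ k` when the derivations commute. Inductions on `OL`, use the
facts of `O1.lean` (cite them, they are proved in job EQ-O1).
* `OL_comm_mo`: generalised statement `OL d k P → ∀ m, k = m + 1 → …` or: for all `k`,
  `OL d k P → OL d (k - 1) (P * mo f - mo f * P)`; for `comp` use
  `P dv mo f - mo f P dv = (P mo f - mo f P) dv + P mo (d i f)`.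
* `OL_comm_dv`: `[P, d_i]` has order `≤` order of `P` (needs commuting `d`'s): induction,
  `[P dv_j, dv_i] = [P, dv_i] dv_j`, `[mo f, dv_i] = - mo (d_i f)`.
* `OL_comm`: induction on `Q` with `[P, Q dv_i] = [P, Q] dv_i + Q [P, dv_i]`.
* `OL_conj`: `u P u⁻¹ - P = [u, P] u⁻¹`.
-/

set_option autoImplicit false

noncomputable section

namespace H99.EQ

variable {C : Type*} [CommRing C] [Algebra ℂ C] {ι : Type*} {d : ι → Derivation ℂ C C}

theorem O2_comm_mo_aux (f : C) {k : ℕ} {P : Module.End ℂ C} (hP : OL d k P) :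
    OL d (k - 1) (P * mo f - mo f * P) := by
  induction hP with
  | zero m => simpa using OL.zero (d := d) (m - 1)
  | mo g =>
    rw [mo_comm g f, sub_self]
    exact OL.zero _
  | @add m P Q _ _ ih1 ih2 =>
    have e : (P + Q) * mo f - mo f * (P + Q) = (P * mo f - mo f * P) + (Q * mo f - mo f * Q) := by
      rw [add_mul, mul_add]; abel
    rw [e]
    exact ih1.add ih2
  | @up m P _ ih => exact OL_mono (by omega) ih
  | @comp m P i hP ih =>
    have e : P * dv (d i) * mo f - mo f * (P * dv (d i)) =
        (P * mo f - mo f * P) * dv (d i) + P * mo (d i f) := by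
      rw [mul_assoc, dv_mo, mul_add, sub_mul, mul_assoc, mul_assoc]
      abel
    rw [e]
    have h1 : OL d (m + 1) ((P * mo f - mo f * P) * dv (d i)) := OL_rdv i ih
    exact h1.add (OL_rmo _ hP)

theorem OL_comm_mo {m : ℕ} (f : C) {P : Module.End ℂ C} (hP : OL d (m + 1) P) :
    OL d m (P * mo f - mo f * P) := O2_comm_mo_aux f hP

theorem OL_comm_dv (hc : ∀ i j, dv (d i) * dv (d j) = dv (d j) * dv (d i)) {m : ℕ} (i : ι)
    {P : Module.End ℂ C} (hP : OL d m P) :
    OL d m (P * dv (d i) - dv (d i) * P) := by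
  induction hP with
  | zero m => simpa using OL.zero (d := d) m
  | mo g =>
    have e : mo g * dv (d i) - dv (d i) * mo g = -mo (d i g) := by
      rw [dv_mo]; abel
    rw [e]
    exact OL_neg (OL.mo _)
  | @add m P Q _ _ ih1 ih2 =>
    have e : (P + Q) * dv (d i) - dv (d i) * (P + Q) =
        (P * dv (d i) - dv (d i) * P) + (Q * dv (d i) - dv (d i) * Q) := by
      rw [add_mul, mul_add]; abel
    rw [e]
    exact ih1.add ih2
  | @up m P _ ih => exact ih.up
  | @comp m P j hP ih =>
    have e : P * dv (d j) * dv (d i) - dv (d i) * (P * dv (d j)) =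
        (P * dv (d i) - dv (d i) * P) * dv (d j) := by
      rw [mul_assoc, hc j i, sub_mul, mul_assoc, mul_assoc]
    rw [e]
    exact OL.comp j ih

theorem O2_comm_aux (hc : ∀ i j, dv (d i) * dv (d j) = dv (d j) * dv (d i)) {m k : ℕ}
    {P Q : Module.End ℂ C} (hP : OL d (m + 1) P) (hQ : OL d k Q) :
    OL d (m + (k - 1)) (P * Q - Q * P) := by
  induction hQ with
  | zero k => simpa using OL.zero (d := d) (m + (k - 1))
  | mo f => exact OL_comm_mo f hP
  | @add k Q R _ _ ih1 ih2 =>
    have e : P * (Q + R) - (Q + R) * P = (P * Q - Q * P) + (P * R - R * P) := by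
      rw [add_mul, mul_add]; abel
    rw [e]
    exact ih1.add ih2
  | @up k Q _ ih => exact OL_mono (by omega) ih
  | @comp k Q i hQ ih =>
    have e : P * (Q * dv (d i)) - Q * dv (d i) * P =
        (P * Q - Q * P) * dv (d i) + Q * (P * dv (d i) - dv (d i) * P) := by
      rw [sub_mul, mul_sub, mul_assoc, mul_assoc, mul_assoc]
      abel
    rw [e]
    have h1 : OL d (m + k + 1) ((P * Q - Q * P) * dv (d i)) := OL_rdv i ih
    have h2 : OL d (k + 1 + m) (Q * (P * dv (d i) - dv (d i) * P)) :=
      OL_mul hQ (OL_comm_dv hc i hP)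
    have h3 : OL d (m + k + 1) (Q * (P * dv (d i) - dv (d i) * P)) := OL_mono (by omega) h2
    exact h1.add h3

/-- orders `≤ m`, `≤ k`: the commutator has order `≤ m + k - 1` -/
theorem OL_comm (hc : ∀ i j, dv (d i) * dv (d j) = dv (d j) * dv (d i)) {m k : ℕ}
    {P Q : Module.End ℂ C} (hP : OL d (m + 1) P) (hQ : OL d (k + 1) Q) :
    OL d (m + k) (P * Q - Q * P) := O2_comm_aux hc hP hQ

/-- conjugation by a unit function does not change the top order part -/
theorem OL_conj {m : ℕ} {u v : C} (huv : u * v = 1) {P : Module.End ℂ C}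
    (hP : OL d (m + 1) P) : OL d m (mo u * P * mo v - P) := by
  have e : mo u * P * mo v - P = -((P * mo u - mo u * P) * mo v) := by
    rw [sub_mul, mul_assoc P, ← mo_mul, huv, mo_one, mul_one]
    abel
  rw [e]
  exact OL_neg (OL_rmo _ (OL_comm_mo u hP))

/-- change of frame: if the `d' j` are combinations of the `d i` then operators in the `d'` are
operators in the `d` of the same order -/
theorem OL_frame {κ : Type*} [Fintype ι] {d' : κ → Derivation ℂ C C} (a : κ → ι → C)
    (h : ∀ j g, d' j g = ∑ i, a j i * d i g) {m : ℕ} {P : Module.End ℂ C} (hP : OL d' m P) :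
    OL d m P := by
  induction hP with
  | zero m => exact OL.zero _
  | mo f => exact OL.mo f
  | add _ _ ih1 ih2 => exact ih1.add ih2
  | up _ ih => exact ih.up
  | @comp m P j hP ih =>
    have e1 : dv (d' j) = ∑ i, mo (a j i) * dv (d i) := by
      ext g
      rw [dv_apply, h, LinearMap.sum_apply]
      exact Finset.sum_congr rfl fun i _ => rfl
    rw [e1, Finset.mul_sum]
    refine OL_sum _ fun i _ => ?_
    rw [← mul_assoc]
    exact OL.comp i (OL_rmo _ ih)

end H99.EQ
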