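import Pool.Agent.H99.EQ.ADefs
import Pool.Agent.H99.EQ.O2

/-!
# EQ-O6: operators `opS d σ` with polynomial symbol

Job EQ-O6. `opS d σ = ∑_{β ∈ supp σ} mo (coeff β σ) * dmon d β`, `dmon d β = ∏_j (dv (d j))^{β j}`
(product of the list `List.ofFn`). If the `d j` commute then `dmon d (β + γ) = dmon d β * dmon d γ`
(e.g. `List.prod_ofFn`, `Finset.noncommProd`, or first prove that `β ↦ dmon d β` is the image of
the monomial under the algebra hom from `MvPolynomial (Fin n) ℂ`; another way: work in the
commutative subalgebra `Algebra.adjoin` of the `dv (d j)`; or write `n`-independent: prove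
`dmon d (β + single i 1) = dmon d β * dv (d i)` directly by splitting the list).
* `opS_add`, `opS_zero`, `opS_C_mul`: `Finsupp` sums.
* `opS_X`: `opS d (X i) = dv (d i)`, `opS_C : opS d (C f) = mo f`.
* `opS_mul_X`: `opS d (σ * X i) = opS d σ * dv (d i)`.
* `OL_opS`: `totalDegree σ ≤ m → OL d (m+1) (opS d σ)`.
* `OL_opS_mul`: `σ`, `τ` of degrees `≤ a`, `≤ b`: `opS (σ τ) - opS σ * opS τ` has order
  `< a + b` (`OL d (a + b)`): reduce to monomials, `mo c dmon β mo e dmon γ =
  mo (c e) dmon (β+γ) + mo c [dmon β, mo e] dmon γ` and `OL_comm_mo`.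
-/

set_option autoImplicit false

noncomputable section

namespace H99.EQ

variable {C : Type*} [CommRing C] [Algebra ℂ C] {n : ℕ} {d : Fin n → Derivation ℂ C C}

section o6list

variable {M : Type*} [Monoid M]

theorem o6_one : ∀ (k : ℕ), (List.ofFn (fun _ : Fin k => (1 : M))).prod = 1 := by
  intro k
  induction k with
  | zero => simp
  | succ k ih => rw [List.ofFn_succ, List.prod_cons, ih, one_mul]

theorem o6_single (x : M) : ∀ (k : ℕ) (i : Fin k),
    (List.ofFn (fun j : Fin k => if j = i then x else 1)).prod = x := by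
  intro k
  induction k with
  | zero => intro i; exact i.elim0
  | succ k ih =>
    intro i
    rw [List.ofFn_succ, List.prod_cons]
    refine Fin.cases ?_ (fun i' => ?_) i
    · have h1 : (fun j : Fin k => if j.succ = (0 : Fin (k + 1)) then x else 1) = fun _ => 1 := by
        funext j
        rw [if_neg (Fin.succ_ne_zero j)]
      rw [h1, o6_one, if_pos rfl, mul_one]
    · have h1 : (fun j : Fin k => if j.succ = i'.succ then x else 1) =
          fun j => if j = i' then x else 1 := by
        funext j
        simp only [Fin.succ_inj]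
      rw [h1, ih, if_neg (Fin.succ_ne_zero i').symm, one_mul]

theorem o6_mul (x : M) : ∀ (k : ℕ) (i : Fin k) (a : Fin k → M), (∀ j, a j * x = x * a j) →
    (List.ofFn (fun j : Fin k => a j * if j = i then x else 1)).prod =
      (List.ofFn a).prod * x := by
  intro k
  induction k with
  | zero => intro i; exact i.elim0
  | succ k ih =>
    intro i a ha
    rw [List.ofFn_succ, List.prod_cons, List.ofFn_succ, List.prod_cons]
    revert i
    refine Fin.cases ?_ (fun i' => ?_)
    · have h1 : (fun j : Fin k => a j.succ * if j.succ = (0 : Fin (k + 1)) then x else 1) =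
          fun j => a j.succ := by
        funext j
        rw [if_neg (Fin.succ_ne_zero j), mul_one]
      have h2 : Commute x (List.ofFn (fun j : Fin k => a j.succ)).prod := by
        refine Commute.list_prod_right _ _ fun y hy => ?_
        obtain ⟨j, rfl⟩ := (List.mem_ofFn).1 hy
        exact (ha _).symm
      rw [h1, if_pos rfl, mul_assoc, mul_assoc, h2.eq]
    · have h1 : (fun j : Fin k => a j.succ * if j.succ = i'.succ then x else 1) =
          fun j => a j.succ * if j = i' then x else 1 := by
        funext j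
        simp only [Fin.succ_inj]
      rw [h1, ih i' (fun j => a j.succ) (fun j => ha j.succ), if_neg (Fin.succ_ne_zero i').symm,
        mul_one, mul_assoc]

end o6list

theorem dmon_zero : dmon d 0 = 1 := by
  unfold dmon
  have h1 : (fun j : Fin n => dv (d j) ^ (0 : Fin n →₀ ℕ) j) = fun _ => 1 := by
    funext j
    simp
  rw [h1, o6_one]

theorem dmon_single (i : Fin n) : dmon d (Finsupp.single i 1) = dv (d i) := by
  unfold dmon
  have h1 : (fun j : Fin n => dv (d j) ^ (Finsupp.single i 1 : Fin n →₀ ℕ) j) =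
      fun j => if j = i then dv (d i) else 1 := by
    funext j
    by_cases h : j = i
    · subst h
      simp
    · rw [if_neg h, Finsupp.single_eq_of_ne (by tauto), pow_zero]
  rw [h1, o6_single]

theorem dmon_add_single (hc : ∀ i j, dv (d i) * dv (d j) = dv (d j) * dv (d i))
    (β : Fin n →₀ ℕ) (i : Fin n) :
    dmon d (β + Finsupp.single i 1) = dmon d β * dv (d i) := by
  unfold dmon
  have h1 : (fun j : Fin n => dv (d j) ^ (β + Finsupp.single i 1 : Fin n →₀ ℕ) j) =
      fun j => dv (d j) ^ β j * if j = i then dv (d i) else 1 := by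
    funext j
    rw [Finsupp.add_apply, pow_add]
    by_cases h : j = i
    · subst h
      simp
    · rw [if_neg h, Finsupp.single_eq_of_ne (by tauto), pow_zero]
  rw [h1, o6_mul]
  intro j
  have h2 : Commute (dv (d j)) (dv (d i)) := hc j i
  exact (h2.pow_left _).eq

theorem dmon_add (hc : ∀ i j, dv (d i) * dv (d j) = dv (d j) * dv (d i))
    (β γ : Fin n →₀ ℕ) : dmon d (β + γ) = dmon d β * dmon d γ := by
  revert β
  induction γ using Finsupp.induction_linear with
  | zero => intro β; rw [add_zero, dmon_zero, mul_one]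
  | add γ δ h1 h2 =>
    intro β
    rw [← add_assoc, h2, h1, h2 γ, mul_assoc]
  | single i k =>
    induction k with
    | zero => intro β; rw [Finsupp.single_zero, add_zero, dmon_zero, mul_one]
    | succ k ih =>
      intro β
      rw [Finsupp.single_add, ← add_assoc, dmon_add_single hc, dmon_add_single hc, ih, mul_assoc]

theorem opS_eq_sum {σ : MvPolynomial (Fin n) C} {S : Finset (Fin n →₀ ℕ)} (h : σ.support ⊆ S) :
    opS d σ = ∑ β ∈ S, mo (σ.coeff β) * dmon d β := by
  unfold opS
  refine Finset.sum_subset h fun β _ hβ => ?_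
  rw [MvPolynomial.notMem_support_iff.1 hβ, mo_zero, zero_mul]

theorem opS_zero : opS d 0 = 0 := by
  unfold opS
  simp

theorem opS_add (σ τ : MvPolynomial (Fin n) C) : opS d (σ + τ) = opS d σ + opS d τ := by
  classical
  rw [opS_eq_sum (σ := σ + τ) (S := σ.support ∪ τ.support) MvPolynomial.support_add,
    opS_eq_sum (σ := σ) (S := σ.support ∪ τ.support) Finset.subset_union_left,
    opS_eq_sum (σ := τ) (S := σ.support ∪ τ.support) Finset.subset_union_right,
    ← Finset.sum_add_distrib]
  refine Finset.sum_congr rfl fun β _ => ?_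
  rw [MvPolynomial.coeff_add, mo_add, add_mul]

theorem opS_monomial (β : Fin n →₀ ℕ) (c : C) :
    opS d (MvPolynomial.monomial β c) = mo c * dmon d β := by
  classical
  rw [opS_eq_sum (S := {β}) MvPolynomial.support_monomial_subset, Finset.sum_singleton,
    MvPolynomial.coeff_monomial, if_pos rfl]

theorem opS_sum {κ : Type*} (s : Finset κ) (σ : κ → MvPolynomial (Fin n) C) :
    opS d (∑ i ∈ s, σ i) = ∑ i ∈ s, opS d (σ i) := by
  let F : MvPolynomial (Fin n) C →+ Module.End ℂ C :=
    { toFun := opS d
      map_zero' := opS_zero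
      map_add' := opS_add }
  exact map_sum F σ s

theorem opS_C (f : C) : opS d (MvPolynomial.C f) = mo f := by
  rw [MvPolynomial.C_apply, opS_monomial, dmon_zero, mul_one]

theorem opS_C_mul (f : C) (σ : MvPolynomial (Fin n) C) :
    opS d (MvPolynomial.C f * σ) = mo f * opS d σ := by
  induction σ using MvPolynomial.induction_on' with
  | monomial β c =>
    rw [MvPolynomial.C_mul_monomial, opS_monomial, opS_monomial, mo_mul, mul_assoc]
  | add p q hp hq => rw [mul_add, opS_add, opS_add, hp, hq, mul_add]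

theorem opS_X (i : Fin n) : opS d (MvPolynomial.X i) = dv (d i) := by
  unfold MvPolynomial.X
  rw [opS_monomial, dmon_single, mo_one, one_mul]

theorem opS_mul_X (hc : ∀ i j, dv (d i) * dv (d j) = dv (d j) * dv (d i))
    (σ : MvPolynomial (Fin n) C) (i : Fin n) :
    opS d (σ * MvPolynomial.X i) = opS d σ * dv (d i) := by
  induction σ using MvPolynomial.induction_on' with
  | monomial β c =>
    unfold MvPolynomial.X
    rw [MvPolynomial.monomial_mul, mul_one, opS_monomial, opS_monomial, dmon_add_single hc,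
      mul_assoc]
  | add p q hp hq => rw [add_mul, opS_add, opS_add, hp, hq, add_mul]

theorem OL_one : OL d 1 (1 : Module.End ℂ C) := by
  rw [← mo_one]
  exact OL.mo 1

theorem OL_dv_pow (i : Fin n) (k : ℕ) : OL d (k + 1) (dv (d i) ^ k) := by
  induction k with
  | zero => rw [pow_zero]; exact OL_one
  | succ k ih =>
    rw [pow_succ]
    exact OL_rdv i ih

theorem OL_list (k : ℕ) : ∀ (e : Fin k → Fin n) (b : Fin k → ℕ),
    OL d ((∑ j, b j) + 1) (List.ofFn fun j => dv (d (e j)) ^ (b j)).prod := by
  induction k with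
  | zero =>
    intro e b
    simpa using (OL_one (d := d))
  | succ k ih =>
    intro e b
    rw [List.ofFn_succ, List.prod_cons, Fin.sum_univ_succ]
    have h1 := OL_mul (OL_dv_pow (d := d) (e 0) (b 0)) (ih (fun j => e j.succ) (fun j => b j.succ))
    exact OL_mono (by omega) h1

theorem OL_dmon (β : Fin n →₀ ℕ) : OL d ((∑ j, β j) + 1) (dmon d β) :=
  OL_list n id β

theorem o6_deg {m : ℕ} {σ : MvPolynomial (Fin n) C} (h : σ.totalDegree ≤ m) {β : Fin n →₀ ℕ}
    (hβ : β ∈ σ.support) : ∑ j, β j ≤ m := by
  have h1 := MvPolynomial.le_totalDegree hβ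
  rw [Finsupp.sum_fintype _ _ (fun _ => rfl)] at h1
  exact h1.trans h

theorem OL_opS {m : ℕ} {σ : MvPolynomial (Fin n) C} (h : σ.totalDegree ≤ m) :
    OL d (m + 1) (opS d σ) := by
  unfold opS
  refine OL_sum _ fun β hβ => OL_lmo _ ?_
  exact OL_mono (Nat.succ_le_succ (o6_deg h hβ)) (OL_dmon β)

theorem OL_opS_mul (hc : ∀ i j, dv (d i) * dv (d j) = dv (d j) * dv (d i)) {a b : ℕ}
    {σ τ : MvPolynomial (Fin n) C} (hσ : σ.totalDegree ≤ a) (hτ : τ.totalDegree ≤ b) :
    OL d (a + b) (opS d (σ * τ) - opS d σ * opS d τ) := by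
  have h1 : opS d (σ * τ) = ∑ β ∈ σ.support, ∑ γ ∈ τ.support,
      mo (σ.coeff β * τ.coeff γ) * dmon d (β + γ) := by
    conv_lhs => rw [σ.as_sum, τ.as_sum]
    rw [Finset.sum_mul_sum, opS_sum]
    refine Finset.sum_congr rfl fun β _ => ?_
    rw [opS_sum]
    refine Finset.sum_congr rfl fun γ _ => ?_
    rw [MvPolynomial.monomial_mul, opS_monomial]
  have h2 : opS d σ * opS d τ = ∑ β ∈ σ.support, ∑ γ ∈ τ.support,
      (mo (σ.coeff β) * dmon d β) * (mo (τ.coeff γ) * dmon d γ) := by
    unfold opS
    rw [Finset.sum_mul_sum]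
  rw [h1, h2, ← Finset.sum_sub_distrib]
  refine OL_sum _ fun β hβ => ?_
  rw [← Finset.sum_sub_distrib]
  refine OL_sum _ fun γ hγ => ?_
  have h3 : mo (σ.coeff β * τ.coeff γ) * dmon d (β + γ) -
      (mo (σ.coeff β) * dmon d β) * (mo (τ.coeff γ) * dmon d γ) =
      -(mo (σ.coeff β) * ((dmon d β * mo (τ.coeff γ) - mo (τ.coeff γ) * dmon d β) *
        dmon d γ)) := by
    rw [dmon_add hc, mo_mul]
    simp only [sub_mul, mul_sub, mul_assoc, neg_sub]
  rw [h3]
  refine OL_neg (OL_lmo _ ?_)
  have h4 := OL_mul (OL_comm_mo (τ.coeff γ) (OL_dmon (d := d) β)) (OL_dmon (d := d) γ)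
  exact OL_mono (Nat.add_le_add (o6_deg hσ hβ) (o6_deg hτ hγ)) h4

/-- every differential operator of order `≤ m` is `opS d σ` with a symbol of degree `≤ m` -/
theorem OL_exists_opS (hc : ∀ i j, dv (d i) * dv (d j) = dv (d j) * dv (d i)) {m : ℕ}
    {P : Module.End ℂ C} (hP : OL d (m + 1) P) :
    ∃ σ : MvPolynomial (Fin n) C, σ.totalDegree ≤ m ∧ P = opS d σ := by
  induction m generalizing P with
  | zero =>
    refine ⟨MvPolynomial.C (P 1), (MvPolynomial.totalDegree_C _).le, ?_⟩
    rw [opS_C]
    exact OL_mo_of_one hP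
  | succ m ih =>
    obtain ⟨f, Q, hQ, hPQ⟩ := OL_succ hP
    choose σ hσ hσQ using fun i => ih (hQ i)
    refine ⟨MvPolynomial.C f + ∑ i, σ i * MvPolynomial.X i, ?_, ?_⟩
    · refine (MvPolynomial.totalDegree_add _ _).trans (max_le ?_ ?_)
      · rw [MvPolynomial.totalDegree_C]
        exact Nat.zero_le _
      · refine (MvPolynomial.totalDegree_finsetSum _ _).trans ?_
        refine Finset.sup_le fun i _ => ?_
        refine (MvPolynomial.totalDegree_mul _ _).trans ?_
        refine Nat.add_le_add (hσ i) ?_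
        unfold MvPolynomial.X
        refine (MvPolynomial.totalDegree_monomial_le _ _).trans ?_
        simp
    · rw [opS_add, opS_C, opS_sum, hPQ]
      congr 1
      refine Finset.sum_congr rfl fun i _ => ?_
      rw [opS_mul_X hc, ← hσQ i]

end H99.EQ
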