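import Pool.Agent.H99.EQ.R4
import Pool.Agent.H99.EQ.O6
import Pool.Agent.H99.EQ.ATarget

/-!
# The bridge from the torus to the local variables: definitions
-/

set_option autoImplicit false

open Complex
open scoped ContDiff

noncomputable section

namespace H99.EQ

theorem Phi3_cd : ContDiff ℝ ∞ Phi3 := by
  have h1 : ContDiff ℝ ∞ fun c : (ℝ × ℝ) × ℝ => Rr c.1.1 := by
    unfold Rr
    exact contDiff_const.add (contDiff_const.mul (tt_cd.comp (contDiff_fst.comp contDiff_fst)))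
  have hu : ContDiff ℝ ∞ fun c : (ℝ × ℝ) × ℝ => u1 c.1.2 :=
    u1_cd.comp (contDiff_snd.comp contDiff_fst)
  rw [contDiff_pi]
  intro k
  unfold Phi3
  refine contDiff_const.add (h1.mul ?_)
  unfold om
  fin_cases k
  · exact (Real.contDiff_cos.comp contDiff_snd).div hu fun c => (u1_pos _).ne'
  · exact (Real.contDiff_sin.comp contDiff_snd).div hu fun c => (u1_pos _).ne'
  · exact tt_cd.comp (contDiff_snd.comp contDiff_fst)

theorem Phi3_per (e : ℝ × ℝ) (y : ℝ) : Phi3 (e, y + 2 * Real.pi) = Phi3 (e, y) := by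
  funext k
  simp [Phi3, om]

/-- pull back of functions on the torus `ℝ³/ℤ³` to functions of `((σ, τ), y)` -/
def pull : CP 3 →ₐ[ℂ] C3 where
  toFun u := ⟨fun c => (u : V 3 → ℂ) (Phi3 c), u.2.1.comp Phi3_cd, fun e y => by
    simp only [Phi3_per]⟩
  map_one' := rfl
  map_mul' _ _ := rfl
  map_zero' := rfl
  map_add' _ _ := rfl
  commutes' _ := rfl

theorem pull_apply (u : CP 3) (c : (ℝ × ℝ) × ℝ) :
    (pull u : (ℝ × ℝ) × ℝ → ℂ) c = (u : V 3 → ℂ) (Phi3 c) := rfl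

/-- evaluation of an element of `C3` -/
def evC (c : (ℝ × ℝ) × ℝ) : C3 →+* ℂ where
  toFun u := (u : (ℝ × ℝ) × ℝ → ℂ) c
  map_one' := rfl
  map_mul' _ _ := rfl
  map_zero' := rfl
  map_add' _ _ := rfl

/-- the coordinate functions `Φ_k` -/
def phiK (k : Fin 3) : C3 := mkCy fun c => ((Phi3 c k : ℝ) : ℂ)

/-- the matrix of the frame -/
def aF (f k : Fin 3) : C3 := fr3 f (phiK k)

/-- the orthonormal frame `ω, θ_t, θ_y` -/
def bF (k f : Fin 3) : C3 :=
  mkCy fun c => ((![om c.1.2 c.2 k * (deriv sg c.1.1 / deriv Rr c.1.1),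
    ![-(c.1.2 * Real.cos c.2), -(c.1.2 * Real.sin c.2), 1] k / u1 c.1.2 /
      (Rr c.1.1 * (rfac (zz c.1.2) * (8 / 3)) * u1 c.1.2),
    ![-Real.sin c.2, Real.cos c.2, 0] k * (u1 c.1.2 / Rr c.1.1)] f : ℝ) : ℂ)

/-- the derivations `∂_k` of the torus in the local variables -/
def dtl (k : Fin 3) : Derivation ℂ C3 C3 := bF k 0 • S3 + bF k 1 • X3 + bF k 2 • Y3

end H99.EQ
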