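import Pool.Agent.H99.EQ.B0

/-!
# EQ-B1: the frame and the torus derivations

Job EQ-B1. `S = (1/sg') ∂_σ`, `X = gx ∂_τ` (`gx = rfac (8/3) u1³`), `Y = ∂_y` applied to
`Φ_k = 1/2 + R ω_k`: `S Φ = (R'/sg') ω`, `X Φ = R rfac (8/3) (-τ cos y, -τ sin y, 1)`,
`Y Φ = (R/u1) (-sin y, cos y, 0)`. The vectors `ω`, `θ_t = (-τ cos y, -τ sin y, 1)/u1`,
`θ_y = (-sin y, cos y, 0)` are orthonormal (`u1² = 1 + τ²`), so the matrices `aF`, `bF` are inverse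
to each other. `aF_eval`: `∑_k (X Φ_k) t_k = Px c t`, `∑_k (Y Φ_k) t_k = Py c t`.
`chain`: chain rule for `u ∘ Φ`. Smoothness in `bF`: all denominators are nonzero
(`sg_deriv_pos`, `Rr_deriv`, `Rr_mem`, `rfac_pos`, `zz_mem`, `u1_pos`).
-/

set_option autoImplicit false

open Complex
open scoped ContDiff

noncomputable section

namespace H99.EQ

theorem B1_ext {g h : C3} (H : ∀ c, evC c g = evC c h) : g = h :=
  Subtype.ext (funext fun c => H c)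

theorem B1_Rr_cd : ContDiff ℝ ∞ Rr :=
  contDiff_const.add (contDiff_const.mul tt_cd)

theorem B1_sg'_cd : ContDiff ℝ ∞ (deriv sg) := (contDiff_infty_iff_deriv.1 sg_cd).2

theorem B1_Rr'_cd : ContDiff ℝ ∞ (deriv Rr) := (contDiff_infty_iff_deriv.1 B1_Rr_cd).2

theorem B1_Rr'_eq (σ : ℝ) : deriv Rr σ = 1 / 32 * (1 / u1 σ ^ 3) := (Rr_deriv σ).deriv

theorem B1_Rr'_pos (σ : ℝ) : 0 < deriv Rr σ := by
  rw [B1_Rr'_eq]
  have := u1_pos σ
  positivity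

theorem B1_Rr_pos (σ : ℝ) : 0 < Rr σ := by
  have := (Rr_mem σ).1
  linarith

/-- the directions of the frame -/
def B1_v : Fin 3 → (ℝ × ℝ) × ℝ := ![((1, 0), 0), ((0, 1), 0), ((0, 0), 1)]

/-- the factors of the frame -/
def B1_w (c : (ℝ × ℝ) × ℝ) : Fin 3 → ℝ := ![1 / deriv sg c.1.1, gx c.1.2, 1]

theorem B1_S3_coef (c : (ℝ × ℝ) × ℝ) :
    evC c (mkCy fun p => ((1 / deriv sg p.1.1 : ℝ) : ℂ) : C3) = ((1 / deriv sg c.1.1 : ℝ) : ℂ) := by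
  have h : ContDiff ℝ ∞ fun p : (ℝ × ℝ) × ℝ => ((1 / deriv sg p.1.1 : ℝ) : ℂ) := by
    have h1 : ContDiff ℝ ∞ fun σ : ℝ => 1 / deriv sg σ :=
      contDiff_const.div B1_sg'_cd fun σ => (sg_deriv_pos σ).ne'
    exact Complex.ofRealCLM.contDiff.comp (h1.comp (contDiff_fst.comp contDiff_fst))
  change (mkCy (fun p : (ℝ × ℝ) × ℝ => ((1 / deriv sg p.1.1 : ℝ) : ℂ)) : (ℝ × ℝ) × ℝ → ℂ) c = _
  rw [mkCy_coe h fun _ _ => rfl]

theorem B1_fr3 (f : Fin 3) (g : C3) (c : (ℝ × ℝ) × ℝ) :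
    evC c (fr3 f g) = (B1_w c f : ℂ) * fderiv ℝ (g : (ℝ × ℝ) × ℝ → ℂ) c (B1_v f) := by
  fin_cases f
  · change evC c (mkCy fun p => ((1 / deriv sg p.1.1 : ℝ) : ℂ) : C3) *
      fderiv ℝ (g : (ℝ × ℝ) × ℝ → ℂ) c ((1, 0), 0) = _
    rw [B1_S3_coef]
    rfl
  · change (gxS : ℝ → ℂ) c.1.2 * fderiv ℝ (g : (ℝ × ℝ) × ℝ → ℂ) c ((0, 1), 0) = _
    rw [R3_gxS_coe]
    rfl
  · change fderiv ℝ (g : (ℝ × ℝ) × ℝ → ℂ) c ((0, 0), 1) = ((1 : ℝ) : ℂ) *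
      fderiv ℝ (g : (ℝ × ℝ) × ℝ → ℂ) c ((0, 0), 1)
    simp

theorem B1_Phik_cd (k : Fin 3) : ContDiff ℝ ∞ fun c => Phi3 c k := contDiff_pi.1 Phi3_cd k

theorem B1_phiK_coe (k : Fin 3) :
    (phiK k : (ℝ × ℝ) × ℝ → ℂ) = fun c => ((Phi3 c k : ℝ) : ℂ) := by
  have h : ContDiff ℝ ∞ fun c => ((Phi3 c k : ℝ) : ℂ) :=
    Complex.ofRealCLM.contDiff.comp (B1_Phik_cd k)
  unfold phiK
  exact mkCy_coe h fun e y => by rw [Phi3_per]

theorem B1_fd_phiK (k : Fin 3) (c v : (ℝ × ℝ) × ℝ) :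
    fderiv ℝ (phiK k : (ℝ × ℝ) × ℝ → ℂ) c v = ((fderiv ℝ (fun c => Phi3 c k) c v : ℝ) : ℂ) := by
  rw [B1_phiK_coe]
  have h1 : HasFDerivAt (fun c => Phi3 c k) (fderiv ℝ (fun c => Phi3 c k) c) c :=
    ((B1_Phik_cd k).differentiable (by simp) c).hasFDerivAt
  have h2 := Complex.ofRealCLM.hasFDerivAt.comp c h1
  have h3 : fderiv ℝ (fun c => ((Phi3 c k : ℝ) : ℂ)) c =
      Complex.ofRealCLM.comp (fderiv ℝ (fun c => Phi3 c k) c) := h2.fderiv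
  rw [h3]
  rfl

/-- the vector fields `T`, `N` -/
def B1_T (c : (ℝ × ℝ) × ℝ) : Fin 3 → ℝ :=
  ![-(c.1.2 * Real.cos c.2), -(c.1.2 * Real.sin c.2), 1]

def B1_N (c : (ℝ × ℝ) × ℝ) : Fin 3 → ℝ := ![-Real.sin c.2, Real.cos c.2, 0]

/-- real version of `aF` -/
def B1_A (c : (ℝ × ℝ) × ℝ) (f k : Fin 3) : ℝ :=
  ![deriv Rr c.1.1 / deriv sg c.1.1 * om c.1.2 c.2 k,
    Rr c.1.1 * (rfac (zz c.1.2) * (8 / 3)) * B1_T c k,
    Rr c.1.1 / u1 c.1.2 * B1_N c k] f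

/-- real version of `bF` -/
def B1_B (c : (ℝ × ℝ) × ℝ) (k f : Fin 3) : ℝ :=
  ![om c.1.2 c.2 k * (deriv sg c.1.1 / deriv Rr c.1.1),
    B1_T c k / u1 c.1.2 / (Rr c.1.1 * (rfac (zz c.1.2) * (8 / 3)) * u1 c.1.2),
    B1_N c k * (u1 c.1.2 / Rr c.1.1)] f

theorem B1_fd0 (k : Fin 3) (c : (ℝ × ℝ) × ℝ) :
    fderiv ℝ (fun c => Phi3 c k) c ((1, 0), 0) = deriv Rr c.1.1 * om c.1.2 c.2 k := by
  obtain ⟨⟨σ, τ⟩, y⟩ := c
  have h1 : HasFDerivAt (fun c => Phi3 c k) (fderiv ℝ (fun c => Phi3 c k) ((σ, τ), y))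
      ((σ, τ), y) := ((B1_Phik_cd k).differentiable (by simp) _).hasFDerivAt
  have h2 : HasDerivAt (fun x : ℝ => (((x, τ), y) : (ℝ × ℝ) × ℝ)) ((1, 0), 0) σ :=
    ((hasDerivAt_id σ).prodMk (hasDerivAt_const σ τ)).prodMk (hasDerivAt_const σ y)
  have h3 := h1.comp_hasDerivAt σ h2
  have h4 : HasDerivAt (fun x : ℝ => 1 / 2 + Rr x * om τ y k) (deriv Rr σ * om τ y k) σ := by
    have := ((Rr_deriv σ).mul_const (om τ y k)).const_add (1 / 2)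
    rw [B1_Rr'_eq]
    exact this
  exact h3.unique h4

theorem B1_om_dt (k : Fin 3) (τ y : ℝ) :
    HasDerivAt (fun x : ℝ => om x y k) (B1_T ((0, τ), y) k / u1 τ ^ 3) τ := by
  have hu := (u1_pos τ).ne'
  fin_cases k
  · have h := (hasDerivAt_const τ (Real.cos y)).div (u1_deriv τ) hu
    refine HasDerivAt.congr_deriv (f := fun x : ℝ => Real.cos y / u1 x) h ?_
    simp only [B1_T]
    simp
    field_simp
  · have h := (hasDerivAt_const τ (Real.sin y)).div (u1_deriv τ) hu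
    refine HasDerivAt.congr_deriv (f := fun x : ℝ => Real.sin y / u1 x) h ?_
    simp only [B1_T]
    simp
    field_simp
  · exact tt_deriv τ

theorem B1_fd1 (k : Fin 3) (c : (ℝ × ℝ) × ℝ) :
    fderiv ℝ (fun c => Phi3 c k) c ((0, 1), 0) = Rr c.1.1 * (B1_T c k / u1 c.1.2 ^ 3) := by
  obtain ⟨⟨σ, τ⟩, y⟩ := c
  have h1 : HasFDerivAt (fun c => Phi3 c k) (fderiv ℝ (fun c => Phi3 c k) ((σ, τ), y))
      ((σ, τ), y) := ((B1_Phik_cd k).differentiable (by simp) _).hasFDerivAt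
  have h2 : HasDerivAt (fun x : ℝ => (((σ, x), y) : (ℝ × ℝ) × ℝ)) ((0, 1), 0) τ :=
    ((hasDerivAt_const τ σ).prodMk (hasDerivAt_id τ)).prodMk (hasDerivAt_const τ y)
  have h3 := h1.comp_hasDerivAt τ h2
  have h4 : HasDerivAt (fun x : ℝ => 1 / 2 + Rr σ * om x y k)
      (Rr σ * (B1_T ((0, τ), y) k / u1 τ ^ 3)) τ :=
    ((B1_om_dt k τ y).const_mul (Rr σ)).const_add (1 / 2)
  exact h3.unique h4

theorem B1_om_dy (k : Fin 3) (τ y : ℝ) :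
    HasDerivAt (fun x : ℝ => om τ x k) (B1_N ((0, τ), y) k / u1 τ) y := by
  fin_cases k
  · exact (Real.hasDerivAt_cos y).div_const (u1 τ)
  · exact (Real.hasDerivAt_sin y).div_const (u1 τ)
  · have h : HasDerivAt (fun _ : ℝ => tt τ) 0 y := hasDerivAt_const y (tt τ)
    refine HasDerivAt.congr_deriv (f := fun _ : ℝ => tt τ) h ?_
    simp [B1_N]

theorem B1_fd2 (k : Fin 3) (c : (ℝ × ℝ) × ℝ) :
    fderiv ℝ (fun c => Phi3 c k) c ((0, 0), 1) = Rr c.1.1 * (B1_N c k / u1 c.1.2) := by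
  obtain ⟨⟨σ, τ⟩, y⟩ := c
  have h1 : HasFDerivAt (fun c => Phi3 c k) (fderiv ℝ (fun c => Phi3 c k) ((σ, τ), y))
      ((σ, τ), y) := ((B1_Phik_cd k).differentiable (by simp) _).hasFDerivAt
  have h2 : HasDerivAt (fun x : ℝ => (((σ, τ), x) : (ℝ × ℝ) × ℝ)) ((0, 0), 1) y :=
    ((hasDerivAt_const y σ).prodMk (hasDerivAt_const y τ)).prodMk (hasDerivAt_id y)
  have h3 := h1.comp_hasDerivAt y h2
  have h4 : HasDerivAt (fun x : ℝ => 1 / 2 + Rr σ * om τ x k)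
      (Rr σ * (B1_N ((0, τ), y) k / u1 τ)) y :=
    ((B1_om_dy k τ y).const_mul (Rr σ)).const_add (1 / 2)
  exact h3.unique h4

theorem B1_A_eq (c : (ℝ × ℝ) × ℝ) (f k : Fin 3) :
    B1_w c f * fderiv ℝ (fun c => Phi3 c k) c (B1_v f) = B1_A c f k := by
  have hu := (u1_pos c.1.2).ne'
  have hs := (sg_deriv_pos c.1.1).ne'
  fin_cases f
  · change 1 / deriv sg c.1.1 * fderiv ℝ (fun c => Phi3 c k) c ((1, 0), 0) =
      deriv Rr c.1.1 / deriv sg c.1.1 * om c.1.2 c.2 k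
    rw [B1_fd0]
    field_simp
  · change gx c.1.2 * fderiv ℝ (fun c => Phi3 c k) c ((0, 1), 0) =
      Rr c.1.1 * (rfac (zz c.1.2) * (8 / 3)) * B1_T c k
    rw [B1_fd1, gx]
    field_simp
  · change 1 * fderiv ℝ (fun c => Phi3 c k) c ((0, 0), 1) = Rr c.1.1 / u1 c.1.2 * B1_N c k
    rw [B1_fd2]
    field_simp

theorem B1_aF (c : (ℝ × ℝ) × ℝ) (f k : Fin 3) : evC c (aF f k) = ((B1_A c f k : ℝ) : ℂ) := by
  unfold aF
  rw [B1_fr3, B1_fd_phiK, ← B1_A_eq]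
  push_cast
  rfl

theorem B1_om_cd (k : Fin 3) : ContDiff ℝ ∞ fun c : (ℝ × ℝ) × ℝ => om c.1.2 c.2 k := by
  have hu : ContDiff ℝ ∞ fun c : (ℝ × ℝ) × ℝ => u1 c.1.2 :=
    u1_cd.comp (contDiff_snd.comp contDiff_fst)
  fin_cases k
  · exact (Real.contDiff_cos.comp contDiff_snd).div hu fun c => (u1_pos _).ne'
  · exact (Real.contDiff_sin.comp contDiff_snd).div hu fun c => (u1_pos _).ne'
  · exact tt_cd.comp (contDiff_snd.comp contDiff_fst)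

theorem B1_T_cd (k : Fin 3) : ContDiff ℝ ∞ fun c : (ℝ × ℝ) × ℝ => B1_T c k := by
  fin_cases k
  · exact ((contDiff_snd.comp contDiff_fst).mul (Real.contDiff_cos.comp contDiff_snd)).neg
  · exact ((contDiff_snd.comp contDiff_fst).mul (Real.contDiff_sin.comp contDiff_snd)).neg
  · exact contDiff_const

theorem B1_N_cd (k : Fin 3) : ContDiff ℝ ∞ fun c : (ℝ × ℝ) × ℝ => B1_N c k := by
  fin_cases k
  · exact (Real.contDiff_sin.comp contDiff_snd).neg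
  · exact Real.contDiff_cos.comp contDiff_snd
  · exact contDiff_const

theorem B1_B_cd (k f : Fin 3) : ContDiff ℝ ∞ fun c : (ℝ × ℝ) × ℝ => B1_B c k f := by
  have hu : ContDiff ℝ ∞ fun c : (ℝ × ℝ) × ℝ => u1 c.1.2 :=
    u1_cd.comp (contDiff_snd.comp contDiff_fst)
  have hR : ContDiff ℝ ∞ fun c : (ℝ × ℝ) × ℝ => Rr c.1.1 :=
    B1_Rr_cd.comp (contDiff_fst.comp contDiff_fst)
  have hR' : ContDiff ℝ ∞ fun c : (ℝ × ℝ) × ℝ => deriv Rr c.1.1 :=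
    B1_Rr'_cd.comp (contDiff_fst.comp contDiff_fst)
  have hs : ContDiff ℝ ∞ fun c : (ℝ × ℝ) × ℝ => deriv sg c.1.1 :=
    B1_sg'_cd.comp (contDiff_fst.comp contDiff_fst)
  have hf : ContDiff ℝ ∞ fun c : (ℝ × ℝ) × ℝ => rfac (zz c.1.2) :=
    (rfac_cd.comp_contDiff zz_cd zz_mem).comp (contDiff_snd.comp contDiff_fst)
  have hu0 : ∀ c : (ℝ × ℝ) × ℝ, u1 c.1.2 ≠ 0 := fun c => (u1_pos _).ne'
  have hR0 : ∀ c : (ℝ × ℝ) × ℝ, Rr c.1.1 ≠ 0 := fun c => (B1_Rr_pos _).ne'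
  have hR'0 : ∀ c : (ℝ × ℝ) × ℝ, deriv Rr c.1.1 ≠ 0 := fun c => (B1_Rr'_pos _).ne'
  fin_cases f
  · exact (B1_om_cd k).mul (hs.div hR' hR'0)
  · refine ((B1_T_cd k).div hu hu0).div ((hR.mul (hf.mul contDiff_const)).mul hu) fun c => ?_
    have h1 := rfac_pos (zz_mem c.1.2)
    have h2 := u1_pos c.1.2
    have h3 := B1_Rr_pos c.1.1
    exact ne_of_gt (by positivity)
  · exact (B1_N_cd k).mul (hu.div hR hR0)

theorem B1_B_per (k f : Fin 3) (e : ℝ × ℝ) (y : ℝ) :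
    B1_B (e, y + 2 * Real.pi) k f = B1_B (e, y) k f := by
  simp only [B1_B, B1_T, B1_N, om, Real.cos_add_two_pi, Real.sin_add_two_pi]

theorem B1_bF (c : (ℝ × ℝ) × ℝ) (k f : Fin 3) : evC c (bF k f) = ((B1_B c k f : ℝ) : ℂ) := by
  have h : ContDiff ℝ ∞ fun c => ((B1_B c k f : ℝ) : ℂ) :=
    Complex.ofRealCLM.contDiff.comp (B1_B_cd k f)
  have h2 : (mkCy (fun c => ((B1_B c k f : ℝ) : ℂ)) : (ℝ × ℝ) × ℝ → ℂ) =
      fun c => ((B1_B c k f : ℝ) : ℂ) := mkCy_coe h fun e y => by rw [B1_B_per]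
  exact congrFun h2 c

theorem evC_aF1 (c : (ℝ × ℝ) × ℝ) (t : V 3) :
    ∑ k, evC c (aF 1 k) * (t k : ℂ) = ((Px c t : ℝ) : ℂ) := by
  simp only [B1_aF, Fin.sum_univ_three]
  have h : Px c t = B1_A c 1 0 * t 0 + B1_A c 1 1 * t 1 + B1_A c 1 2 * t 2 := by
    simp [B1_A, B1_T, Px]
    ring
  rw [h]
  push_cast
  rfl

theorem evC_aF2 (c : (ℝ × ℝ) × ℝ) (t : V 3) :
    ∑ k, evC c (aF 2 k) * (t k : ℂ) = ((Py c t : ℝ) : ℂ) := by
  simp only [B1_aF, Fin.sum_univ_three]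
  have h : Py c t = B1_A c 2 0 * t 0 + B1_A c 2 1 * t 1 + B1_A c 2 2 * t 2 := by
    simp [B1_A, B1_N, Py]
    ring
  rw [h]
  push_cast
  rfl

theorem B1_AB (c : (ℝ × ℝ) × ℝ) (f g : Fin 3) :
    B1_A c f 0 * B1_B c 0 g + B1_A c f 1 * B1_B c 1 g + B1_A c f 2 * B1_B c 2 g =
      if f = g then 1 else 0 := by
  obtain ⟨⟨σ, τ⟩, y⟩ := c
  have hu := (u1_pos τ).ne'
  have hu2 := u1_sq τ
  have hs := (sg_deriv_pos σ).ne'
  have hR := (B1_Rr_pos σ).ne'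
  have hR' := (B1_Rr'_pos σ).ne'
  have hf := (rfac_pos (zz_mem τ)).ne'
  have hcs := Real.sin_sq_add_cos_sq y
  have hc : Real.cos y ^ 2 = 1 - Real.sin y ^ 2 := by linarith
  have hu2' : u1 τ ^ 2 = 1 + τ ^ 2 := hu2
  fin_cases f <;> fin_cases g <;>
    simp only [B1_A, B1_B, B1_T, B1_N, om, tt, Fin.zero_eta, Fin.mk_one, Fin.reduceFinMk,
      Matrix.cons_val_zero, Matrix.cons_val_one, Matrix.cons_val, Fin.isValue, if_true,
      Fin.reduceEq, if_false] <;>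
    field_simp <;> ring_nf <;> (try simp only [hc, hu2']) <;> ring_nf

theorem aF_bF (f g : Fin 3) : ∑ k, aF f k * bF k g = if f = g then 1 else 0 := by
  apply B1_ext
  intro c
  rw [Fin.sum_univ_three]
  simp only [map_add, map_mul, B1_aF, B1_bF]
  have h := B1_AB c f g
  have h2 : evC c (if f = g then 1 else 0 : C3) = (((if f = g then 1 else 0 : ℝ)) : ℂ) := by
    split_ifs <;> simp
  rw [h2, ← h]
  push_cast
  rfl

theorem bF_aF (k l : Fin 3) : ∑ f, bF k f * aF f l = if k = l then 1 else 0 := by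
  have h1 : (Matrix.of aF : Matrix (Fin 3) (Fin 3) C3) * Matrix.of bF = 1 := by
    ext i j
    rw [Matrix.mul_apply, Matrix.one_apply]
    exact congrArg (fun g : C3 => (g : (ℝ × ℝ) × ℝ → ℂ) _) (aF_bF i j)
  have h2 := mul_eq_one_comm.1 h1
  have h3 := congrFun (congrFun h2 k) l
  rw [Matrix.mul_apply, Matrix.one_apply] at h3
  exact h3

/-- chain rule -/
theorem chain (f : Fin 3) (u : CP 3) : fr3 f (pull u) = ∑ k, aF f k * pull (pdx k u) := by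
  apply B1_ext
  intro c
  rw [map_sum]
  simp only [map_mul, B1_aF, B1_fr3]
  have h1 : HasFDerivAt Phi3 (fderiv ℝ Phi3 c) c := (Phi3_cd.differentiable (by simp) c).hasFDerivAt
  have h2 : HasFDerivAt (u : V 3 → ℂ) (fderiv ℝ (u : V 3 → ℂ) (Phi3 c)) (Phi3 c) :=
    (u.2.1.differentiable (by simp) _).hasFDerivAt
  have h3 : fderiv ℝ (pull u : (ℝ × ℝ) × ℝ → ℂ) c =
      (fderiv ℝ (u : V 3 → ℂ) (Phi3 c)).comp (fderiv ℝ Phi3 c) := (h2.comp c h1).fderiv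
  rw [h3]
  have h4 : ∀ k, fderiv ℝ (fun c => Phi3 c k) c (B1_v f) = fderiv ℝ Phi3 c (B1_v f) k := by
    intro k
    have h5 : HasFDerivAt (fun c => Phi3 c k)
      ((ContinuousLinearMap.proj k : V 3 →L[ℝ] ℝ).comp (fderiv ℝ Phi3 c)) c :=
      (ContinuousLinearMap.proj k : V 3 →L[ℝ] ℝ).hasFDerivAt.comp c h1
    rw [h5.fderiv]
    rfl
  have h6 : fderiv ℝ Phi3 c (B1_v f) = ∑ k, fderiv ℝ Phi3 c (B1_v f) k • Pi.single k (1 : ℝ) := by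
    funext j
    rw [Finset.sum_apply]
    simp [Pi.single_apply]
  rw [ContinuousLinearMap.comp_apply, h6, map_sum, Finset.mul_sum]
  refine Finset.sum_congr rfl fun k _ => ?_
  rw [map_smul, ← B1_A_eq, h4]
  change _ = _ * fderiv ℝ (u : V 3 → ℂ) (Phi3 c) (Pi.single k 1)
  rw [Complex.real_smul]
  push_cast
  ring

theorem dtl_fr3 (k : Fin 3) (g : C3) : dtl k g = ∑ f, bF k f * fr3 f g := by
  rw [Fin.sum_univ_three]
  rfl

theorem fr3_dtl (f : Fin 3) (g : C3) : fr3 f g = ∑ k, aF f k * dtl k g := by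
  simp only [dtl_fr3, Finset.mul_sum]
  rw [Finset.sum_comm]
  have : ∀ j, ∑ k, aF f k * (bF k j * fr3 j g) = (if f = j then 1 else 0) * fr3 j g := by
    intro j
    rw [← aF_bF, Finset.sum_mul]
    exact Finset.sum_congr rfl fun k _ => by ring
  simp [this]

theorem pull_pdx (i : Fin 3) (u : CP 3) : pull (pdx i u) = dtl i (pull u) := by
  rw [dtl_fr3]
  simp only [chain, Finset.mul_sum]
  rw [Finset.sum_comm]
  have : ∀ j, ∑ k, bF i k * (aF k j * pull (pdx j u)) = (if i = j then 1 else 0) * pull (pdx j u) := by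
    intro j
    rw [← bF_aF, Finset.sum_mul]
    exact Finset.sum_congr rfl fun k _ => by ring
  simp [this]

theorem pdx_eP (i : Fin 3) (b : Fin 3 → ℤ) : pdx i (eP b) = (2 * Real.pi * I * (b i : ℂ)) • eP b := by
  apply Subtype.ext
  funext x
  let L : V 3 →L[ℝ] ℂ := (2 * Real.pi * I : ℂ) •
    ∑ j, (b j : ℂ) • (Complex.ofRealCLM.comp (ContinuousLinearMap.proj j : V 3 →L[ℝ] ℝ))
  have hL : ∀ x : V 3, L x = 2 * Real.pi * I * ∑ j, (b j : ℂ) * (x j : ℂ) := by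
    intro x
    simp [L]
  have h1 : HasFDerivAt (fun x => cexp (L x)) (cexp (L x) • L) x := L.hasFDerivAt.cexp
  have h2 : (eP b : V 3 → ℂ) = fun x => cexp (L x) := by
    funext x
    rw [hL]
    rfl
  change fderiv ℝ (eP b : V 3 → ℂ) x (Pi.single i 1) = (2 * Real.pi * I * (b i : ℂ)) * (eP b : V 3 → ℂ) x
  rw [h2, h1.fderiv]
  change cexp (L x) * L (Pi.single i 1) = _
  rw [hL (Pi.single i 1)]
  have h3 : ∑ j, (b j : ℂ) * (((Pi.single i (1 : ℝ) : V 3) j : ℝ) : ℂ) = (b i : ℂ) := by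
    rw [Finset.sum_eq_single i]
    · simp
    · intro j _ hj
      simp [hj]
    · simp
  rw [h3]
  ring

theorem dtl_eP (i : Fin 3) (b : Fin 3 → ℤ) :
    dtl i (pull (eP b)) = (2 * Real.pi * I * (b i : ℂ)) • pull (eP b) := by
  rw [← pull_pdx, pdx_eP, map_smul]

theorem B1_eP_unit (b : Fin 3 → ℤ) : IsUnit (eP b : CP 3) := by
  refine IsUnit.of_mul_eq_one (eP (-b)) ?_
  apply Subtype.ext
  funext x
  change cexp (2 * Real.pi * I * ∑ j, (b j : ℂ) * (x j : ℂ)) *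
    cexp (2 * Real.pi * I * ∑ j, (((-b) j : ℤ) : ℂ) * (x j : ℂ)) = 1
  rw [← Complex.exp_add]
  have : (2 * Real.pi * I * ∑ j, (b j : ℂ) * (x j : ℂ)) +
    (2 * Real.pi * I * ∑ j, (((-b) j : ℤ) : ℂ) * (x j : ℂ)) = 0 := by
    rw [← mul_add, ← Finset.sum_add_distrib]
    simp
  rw [this, Complex.exp_zero]

theorem pull_eP_unit (b : Fin 3 → ℤ) : IsUnit (pull (eP b)) := (B1_eP_unit b).map pull

end H99.EQ
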