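import Pool.Agent.H99.EQ.B1

/-!
# EQ-B2: the torus derivations commute; uniqueness

Job EQ-B2.
* `dtl_comm`: `E_b = pull (eP b)` is an eigenvector of all `dtl i` (`dtl_eP`), so
  `[dtl i, dtl j] E_b = 0`. The commutator derivation is `g ↦ ∑_f h_f fr3 f g` for some `h_f`
  (expand with `dtl_fr3` and `fr3_comm`), so `= ∑_k e_k dtl k g` (`fr3_dtl`); on `E_b` it is
  `2πi (∑ e_k b_k) E_b`; `b` = unit vectors and `pull_eP_unit` give `e_k = 0`.
* `OL_dtl_iff`: `OL_frame` in both directions.
* `opS_eP`: `opS dtl σ E_b = (∑_β coeff β σ ∏ (2πi b_j)^β_j) E_b`.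
* `uniq`: `P = opS dtl σ` (`OL_exists_opS`), `P E_b = 0` for all `b : Fin 3 → ℤ`; at a point `c` the
  complex polynomial `map (evC c) σ` vanishes at all `(2πi b_j)`; a polynomial vanishing on
  `S × S × S`, `S` infinite, is zero (`MvPolynomial.funext_set` or induction on the number of
  variables / `MvPolynomial.finSuccEquiv`); so all coefficients of `σ` vanish at all `c`.
* `pull_opS`: `pull (dmon pdx β u) = dmon dtl β (pull u)` from `pull_pdx`.
-/

set_option autoImplicit false

open Complex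
open scoped ContDiff

noncomputable section

namespace H99.EQ

theorem B2_swap (i j : Fin 3) (g : C3) :
    ∑ f, ∑ f', bF j f * (bF i f' * fr3 f' (fr3 f g)) =
      ∑ f, ∑ f', bF i f * (bF j f' * fr3 f' (fr3 f g)) := by
  rw [Finset.sum_comm]
  refine Finset.sum_congr rfl fun f _ => Finset.sum_congr rfl fun f' _ => ?_
  have h : fr3 f (fr3 f' g) = fr3 f' (fr3 f g) :=
    congrArg (fun P : Module.End ℂ C3 => P g) (fr3_comm f f')
  rw [h]
  ring

theorem B2_exp (i j : Fin 3) (g : C3) :
    dtl i (dtl j g) = ∑ f, dtl i (bF j f) * fr3 f g +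
      ∑ f, ∑ f', bF j f * (bF i f' * fr3 f' (fr3 f g)) := by
  rw [dtl_fr3 j g, map_sum, ← Finset.sum_add_distrib]
  refine Finset.sum_congr rfl fun f _ => ?_
  rw [Derivation.leibniz, smul_eq_mul, smul_eq_mul, dtl_fr3 i (fr3 f g), Finset.mul_sum]
  ring

theorem B2_br (i j : Fin 3) (g : C3) :
    dtl i (dtl j g) - dtl j (dtl i g) =
      ∑ k, (∑ f, (dtl i (bF j f) - dtl j (bF i f)) * aF f k) * dtl k g := by
  rw [B2_exp i j g, B2_exp j i g, B2_swap i j g]
  have h : ∀ f, (dtl i (bF j f) - dtl j (bF i f)) * fr3 f g =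
      ∑ k, ((dtl i (bF j f) - dtl j (bF i f)) * aF f k) * dtl k g := by
    intro f
    rw [fr3_dtl f g, Finset.mul_sum]
    exact Finset.sum_congr rfl fun k _ => by ring
  have h2 : ∑ f, dtl i (bF j f) * fr3 f g - ∑ f, dtl j (bF i f) * fr3 f g =
      ∑ k, (∑ f, (dtl i (bF j f) - dtl j (bF i f)) * aF f k) * dtl k g := by
    rw [← Finset.sum_sub_distrib]
    simp only [← sub_mul]
    rw [Finset.sum_congr rfl fun f _ => h f, Finset.sum_comm]
    exact Finset.sum_congr rfl fun k _ => by rw [Finset.sum_mul]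
  rw [← h2]
  abel

theorem dtl_comm (i j : Fin 3) : dv (dtl i) * dv (dtl j) = dv (dtl j) * dv (dtl i) := by
  have hpi : (2 * Real.pi * I : ℂ) ≠ 0 := by
    have : (Real.pi : ℂ) ≠ 0 := by exact_mod_cast Real.pi_ne_zero
    simp [this]
  have he : ∀ k, (∑ f, (dtl i (bF j f) - dtl j (bF i f)) * aF f k) = 0 := by
    intro k
    have h1 := B2_br i j (pull (eP (Pi.single k 1)))
    have h2 : dtl i (dtl j (pull (eP (Pi.single k 1)))) -
        dtl j (dtl i (pull (eP (Pi.single k 1)))) = 0 := by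
      rw [dtl_eP, dtl_eP, Derivation.map_smul, Derivation.map_smul, dtl_eP, dtl_eP, smul_smul,
        smul_smul, mul_comm,
        sub_self]
    rw [h2, Finset.sum_eq_single k] at h1
    · rw [dtl_eP, Pi.single_eq_same, Int.cast_one, mul_one, mul_smul_comm] at h1
      have h3 := (smul_eq_zero.1 h1.symm).resolve_left hpi
      exact ((pull_eP_unit _).mul_left_eq_zero).1 h3
    · intro l _ hl
      rw [dtl_eP, Pi.single_eq_of_ne hl, Int.cast_zero, mul_zero, zero_smul, mul_zero]
    · intro h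
      exact absurd (Finset.mem_univ _) h
  refine LinearMap.ext fun g => ?_
  show dtl i (dtl j g) = dtl j (dtl i g)
  have h := B2_br i j g
  simp only [he, zero_mul, Finset.sum_const_zero] at h
  exact sub_eq_zero.1 h

theorem OL_dtl_iff {m : ℕ} {P : Module.End ℂ C3} : OL dtl m P ↔ OL fr3 m P :=
  ⟨fun h => OL_frame bF dtl_fr3 h, fun h => OL_frame aF fr3_dtl h⟩

theorem B2_ext {σ : MvPolynomial (Fin 3) C3}
    (h : ∀ c : (ℝ × ℝ) × ℝ, MvPolynomial.map (evC c) σ = 0) : σ = 0 := by
  refine MvPolynomial.ext _ _ fun β => ?_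
  rw [MvPolynomial.coeff_zero]
  apply Subtype.ext
  funext c
  have h1 := congrArg (MvPolynomial.coeff β) (h c)
  rw [MvPolynomial.coeff_map, MvPolynomial.coeff_zero] at h1
  exact h1

/-- a polynomial over `C3` which vanishes at all integer multiples of `2πi` is zero -/
theorem poly_int_zero {σ : MvPolynomial (Fin 3) C3}
    (h : ∀ (c : (ℝ × ℝ) × ℝ) (b : Fin 3 → ℤ),
      MvPolynomial.eval (fun j => 2 * Real.pi * I * (b j : ℂ)) (MvPolynomial.map (evC c) σ) = 0) :
    σ = 0 := by
  have hpi : (2 * Real.pi * I : ℂ) ≠ 0 := by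
    have : (Real.pi : ℂ) ≠ 0 := by exact_mod_cast Real.pi_ne_zero
    simp [this]
  refine B2_ext fun c => ?_
  refine MvPolynomial.funext_set (fun _ : Fin 3 => Set.range fun b : ℤ => 2 * Real.pi * I * (b : ℂ))
    (fun _ => ?_) fun x hx => ?_
  · refine Set.infinite_range_of_injective fun b b' hb => ?_
    have h1 := mul_left_cancel₀ hpi hb
    exact_mod_cast h1
  · rw [map_zero]
    choose b hb using fun j : Fin 3 => hx j (Set.mem_univ j)
    have h2 := h c b
    have h3 : (fun j => 2 * Real.pi * I * (b j : ℂ)) = x := funext hb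
    rw [h3] at h2
    exact h2

/-- a polynomial over `C3` which vanishes at all real points is zero -/
theorem poly_real_zero {σ : MvPolynomial (Fin 3) C3}
    (h : ∀ (c : (ℝ × ℝ) × ℝ) (t : V 3),
      MvPolynomial.eval (fun j => (t j : ℂ)) (MvPolynomial.map (evC c) σ) = 0) :
    σ = 0 := by
  refine B2_ext fun c => ?_
  refine MvPolynomial.funext_set (fun _ : Fin 3 => Set.range fun b : ℝ => (b : ℂ))
    (fun _ => ?_) fun x hx => ?_
  · exact Set.infinite_range_of_injective Complex.ofReal_injective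
  · rw [map_zero]
    choose b hb using fun j : Fin 3 => hx j (Set.mem_univ j)
    have h2 := h c b
    have h3 : (fun j => (b j : ℂ)) = x := funext hb
    rw [h3] at h2
    exact h2

theorem B2_list {n : ℕ} (f : Fin n → Module.End ℂ C3) (ν : Fin n → ℂ) (E : C3)
    (h : ∀ j, f j E = ν j • E) : (List.ofFn f).prod E = (∏ j, ν j) • E := by
  induction n with
  | zero => simp
  | succ n ih =>
    rw [List.ofFn_succ, List.prod_cons, Fin.prod_univ_succ, Module.End.mul_apply,
      ih (fun j => f j.succ) (fun j => ν j.succ) (fun j => h j.succ), map_smul, h 0, smul_smul,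
      mul_comm]

theorem B2_pow (D : Derivation ℂ C3 C3) (μ : ℂ) (E : C3) (h : D E = μ • E) (k : ℕ) :
    (dv D ^ k) E = μ ^ k • E := by
  induction k with
  | zero => simp
  | succ k ih =>
    rw [pow_succ', Module.End.mul_apply, ih, map_smul, dv_apply, h, smul_smul, pow_succ]

theorem opS_eP (σ : MvPolynomial (Fin 3) C3) (b : Fin 3 → ℤ) (c : (ℝ × ℝ) × ℝ) :
    evC c (opS dtl σ (pull (eP b))) =
      MvPolynomial.eval (fun j => 2 * Real.pi * I * (b j : ℂ)) (MvPolynomial.map (evC c) σ) *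
        evC c (pull (eP b)) := by
  have h1 : ∀ β : Fin 3 →₀ ℕ, dmon dtl β (pull (eP b)) =
      (∏ j, (2 * Real.pi * I * (b j : ℂ)) ^ β j) • pull (eP b) := by
    intro β
    refine B2_list _ _ _ fun j => ?_
    exact B2_pow (dtl j) _ _ (dtl_eP j b) (β j)
  rw [opS, LinearMap.sum_apply, map_sum, MvPolynomial.eval_map, MvPolynomial.eval₂_eq',
    Finset.sum_mul]
  refine Finset.sum_congr rfl fun β _ => ?_
  rw [Module.End.mul_apply, mo_apply, h1, map_mul]
  have h2 : evC c ((∏ j, (2 * Real.pi * I * (b j : ℂ)) ^ β j) • pull (eP b)) =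
      (∏ j, (2 * Real.pi * I * (b j : ℂ)) ^ β j) * evC c (pull (eP b)) := rfl
  rw [h2]
  ring

theorem uniq {m : ℕ} {P : Module.End ℂ C3} (hP : OL fr3 m P)
    (h : ∀ u : CP 3, P (pull u) = 0) : P = 0 := by
  have h1 : OL dtl (m + 1) P := (OL_dtl_iff.2 hP).up
  obtain ⟨σ, _, hσ⟩ := OL_exists_opS dtl_comm h1
  have h2 : σ = 0 := by
    refine poly_int_zero fun c b => ?_
    have h3 := opS_eP σ b c
    rw [← hσ, h, map_zero] at h3
    have h4 : evC c (pull (eP b)) ≠ 0 := ((pull_eP_unit b).map (evC c)).ne_zero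
    exact (mul_eq_zero.1 h3.symm).resolve_right h4
  rw [hσ, h2, opS_zero]

theorem B2_plist {n : ℕ} (f : Fin n → Module.End ℂ (CP 3)) (g : Fin n → Module.End ℂ C3)
    (h : ∀ j u, pull (f j u) = g j (pull u)) (u : CP 3) :
    pull ((List.ofFn f).prod u) = (List.ofFn g).prod (pull u) := by
  induction n with
  | zero => simp
  | succ n ih =>
    rw [List.ofFn_succ, List.prod_cons, List.ofFn_succ, List.prod_cons, Module.End.mul_apply,
      Module.End.mul_apply, h 0, ih (fun j => f j.succ) (fun j => g j.succ) fun j => h j.succ]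

theorem B2_ppow (i : Fin 3) (k : ℕ) (u : CP 3) :
    pull ((dv (pdx i) ^ k) u) = (dv (dtl i) ^ k) (pull u) := by
  induction k with
  | zero => simp
  | succ k ih =>
    rw [pow_succ', pow_succ', Module.End.mul_apply, Module.End.mul_apply, dv_apply, dv_apply,
      pull_pdx, ih]

theorem pull_opS (σ : MvPolynomial (Fin 3) (CP 3)) (u : CP 3) :
    pull (opS pdx σ u) = opS dtl (MvPolynomial.map (pull : CP 3 →+* C3) σ) (pull u) := by
  rw [opS_eq_sum (σ := MvPolynomial.map (pull : CP 3 →+* C3) σ) (S := σ.support)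
    (MvPolynomial.support_map_subset _ _), opS, LinearMap.sum_apply, LinearMap.sum_apply, map_sum]
  refine Finset.sum_congr rfl fun β _ => ?_
  rw [Module.End.mul_apply, Module.End.mul_apply, mo_apply, mo_apply, map_mul,
    MvPolynomial.coeff_map]
  have h1 : pull (dmon pdx β u) = dmon dtl β (pull u) :=
    B2_plist _ _ (fun j v => B2_ppow j (β j) v) u
  rw [h1]
  rfl

end H99.EQ
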