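import Pool.Agent.H99.EQ.B2

/-!
# EQ-B3: principal parts

Job EQ-B3. `PX = ∑_k C (aF 1 k) X_k`, `PY = ∑_k C (aF 2 k) X_k`: `opS dtl PX = dv X3`,
`opS dtl PY = dv Y3` (`fr3_dtl`, `opS_C_mul`, `opS_X`). By `OL_opS_mul` (O6) products of symbols
are products of operators modulo lower order:
`opS dtl (C f * (PX² + PY²)) - mo f (X3² + Y3²)` is `OL dtl 2`, etc.
-/

set_option autoImplicit false

open Complex
open scoped ContDiff

noncomputable section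

namespace H99.EQ

def PX : MvPolynomial (Fin 3) C3 := ∑ k, MvPolynomial.C (aF 1 k) * MvPolynomial.X k

def PY : MvPolynomial (Fin 3) C3 := ∑ k, MvPolynomial.C (aF 2 k) * MvPolynomial.X k

theorem B3_deg (a : Fin 3 → C3) :
    (∑ k, MvPolynomial.C (a k) * MvPolynomial.X k : MvPolynomial (Fin 3) C3).totalDegree ≤ 1 := by
  refine (MvPolynomial.totalDegree_finsetSum _ _).trans (Finset.sup_le fun i _ => ?_)
  refine (MvPolynomial.totalDegree_mul _ _).trans ?_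
  rw [MvPolynomial.totalDegree_C, zero_add]
  unfold MvPolynomial.X
  refine (MvPolynomial.totalDegree_monomial_le _ _).trans ?_
  simp

theorem B3_opS (a : Fin 3 → C3) (D : Derivation ℂ C3 C3)
    (h : ∀ g, D g = ∑ k, a k * dtl k g) :
    opS dtl (∑ k, MvPolynomial.C (a k) * MvPolynomial.X k) = dv D := by
  rw [opS_sum]
  ext1 g
  rw [dv_apply, h, LinearMap.sum_apply]
  refine Finset.sum_congr rfl fun k _ => ?_
  rw [opS_C_mul, opS_X]
  rfl

theorem B3_eval (a : Fin 3 → C3) (c : (ℝ × ℝ) × ℝ) (t : V 3) :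
    MvPolynomial.eval (fun j => (t j : ℂ)) (MvPolynomial.map (evC c)
      (∑ k, MvPolynomial.C (a k) * MvPolynomial.X k)) = ∑ k, evC c (a k) * (t k : ℂ) := by
  rw [map_sum, map_sum]
  refine Finset.sum_congr rfl fun k _ => ?_
  rw [map_mul, map_mul, MvPolynomial.map_C, MvPolynomial.map_X, MvPolynomial.eval_C,
    MvPolynomial.eval_X]

theorem B3_s3 (c : (ℝ × ℝ) × ℝ) : evC c s3 = ((sg c.1.1 : ℝ) : ℂ) := by
  have h : (s3 : (ℝ × ℝ) × ℝ → ℂ) = fun p => ((sg p.1.1 : ℝ) : ℂ) := by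
    unfold s3
    apply mkCy_coe
    · exact Complex.ofRealCLM.contDiff.comp (sg_cd.comp (contDiff_fst.comp contDiff_fst))
    · intro e y
      rfl
  change (s3 : (ℝ × ℝ) × ℝ → ℂ) c = _
  rw [h]

theorem B3_io (f : Sm) (c : (ℝ × ℝ) × ℝ) : evC c (io3 (io f)) = (f : ℝ → ℂ) c.1.2 := rfl

theorem B3_alg (a : ℂ) (c : (ℝ × ℝ) × ℝ) : evC c (algebraMap ℂ C3 a) = a := rfl

theorem B3_cC (a : ℂ) (c : (ℝ × ℝ) × ℝ) : evC c (io3 (cC a)) = a := rfl

theorem B3_cos (c : (ℝ × ℝ) × ℝ) : evC c (io3 cosY) = ((Real.cos c.2 : ℝ) : ℂ) := by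
  change (cosY : ℝ × ℝ → ℂ) (c.1.2, c.2) = _
  rw [cosY_apply]

theorem B3_sin (c : (ℝ × ℝ) × ℝ) : evC c (io3 sinY) = ((Real.sin c.2 : ℝ) : ℂ) := by
  change (sinY : ℝ × ℝ → ℂ) (c.1.2, c.2) = _
  rw [R4_sinY]

theorem B3_la (c : (ℝ × ℝ) × ℝ) : evC c (io3 (io laS)) = ((rla (zz c.1.2) : ℝ) : ℂ) := by
  rw [B3_io, laS, ofZ_apply rla_cd]

theorem B3_hd (c : (ℝ × ℝ) × ℝ) : evC c (io3 (io hdS)) = ((rhd (zz c.1.2) : ℝ) : ℂ) := by
  rw [B3_io, hdS, ofZ_apply rhd_cd]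

theorem B3_hh (c : (ℝ × ℝ) × ℝ) : evC c (io3 (io hhS)) = ((rhh (zz c.1.2) : ℝ) : ℂ) := by
  rw [B3_io, hhS, ofZ_apply rhh_cd]

theorem B3_z (c : (ℝ × ℝ) × ℝ) : evC c (io3 (io zS)) = ((zz c.1.2 : ℝ) : ℂ) := by
  rw [B3_io, zS, ofZ_apply R3_id_cd]
  rfl

theorem PX_deg : PX.totalDegree ≤ 1 := B3_deg _

theorem PY_deg : PY.totalDegree ≤ 1 := B3_deg _

theorem opS_PX : opS dtl PX = dv X3 := B3_opS _ _ (fr3_dtl 1)

theorem opS_PY : opS dtl PY = dv Y3 := B3_opS _ _ (fr3_dtl 2)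

theorem eval_PX (c : (ℝ × ℝ) × ℝ) (t : V 3) :
    MvPolynomial.eval (fun j => (t j : ℂ)) (MvPolynomial.map (evC c) PX) = ((Px c t : ℝ) : ℂ) := by
  unfold PX
  rw [B3_eval, evC_aF1]

theorem eval_PY (c : (ℝ × ℝ) × ℝ) (t : V 3) :
    MvPolynomial.eval (fun j => (t j : ℂ)) (MvPolynomial.map (evC c) PY) = ((Py c t : ℝ) : ℂ) := by
  unfold PY
  rw [B3_eval, evC_aF2]

/-- the symbol of `s ν² λ (X² + Y²)` -/
def symH : MvPolynomial (Fin 3) C3 :=
  MvPolynomial.C (s3 * io3 (cC (nu ^ 2) * io laS)) * (PX * PX + PY * PY)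

/-- the symbol of `s (s - s₁) ν Y` -/
def symL : MvPolynomial (Fin 3) C3 :=
  MvPolynomial.C (s3 * ((s3 - algebraMap ℂ C3 ((sg 0 : ℝ) : ℂ)) * algebraMap ℂ C3 nu)) * PY

/-- the symbol of `s ν³ S(X, Y)` -/
def symS : MvPolynomial (Fin 3) C3 :=
  MvPolynomial.C (s3 * io3 (cC (nu ^ 3) * (io hdS * cosY))) *
    (MvPolynomial.C (io3 (io laS)) * (PX * PX * PX) +
      MvPolynomial.C (io3 (io (laS + zS))) * (PX * PY * PY)) +
  MvPolynomial.C (s3 * io3 (cC (nu ^ 3) * (io hdS * sinY))) *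
    (MvPolynomial.C (io3 (io (hhS * laS))) * (PX * PX * PY) +
      MvPolynomial.C (io3 (io (hhS * laS - zS))) * (PY * PY * PY))

section gen

variable {C : Type*} [CommRing C] [Algebra ℂ C]

theorem B3_g1 (A B D F : Module.End ℂ C) : A - D * F = (A - B * F) + (B - D) * F := by
  rw [sub_mul]
  abel

theorem B3_g2 (s m A B A' B' : Module.End ℂ C) :
    s * (m * (A + B)) - s * m * (A' + B') = s * (m * ((A - A') + (B - B'))) := by
  simp only [mul_add, mul_sub, mul_assoc]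
  abel

theorem B3_g3 (a b c d e f g x y z w x' y' z' w' : Module.End ℂ C) :
    (a * (b * (c * x + d * y)) + a * (e * (f * z + g * w))) -
        a * (b * (c * x' + d * y') + e * (f * z' + g * w')) =
      a * (b * (c * (x - x') + d * (y - y')) + e * (f * (z - z') + g * (w - w'))) := by
  simp only [mul_add, mul_sub]
  abel

end gen

theorem B3_two {P Q : MvPolynomial (Fin 3) C3} {D E : Derivation ℂ C3 C3}
    (hP : P.totalDegree ≤ 1) (hQ : Q.totalDegree ≤ 1) (h1 : opS dtl P = dv D)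
    (h2 : opS dtl Q = dv E) : OL fr3 2 (opS dtl (P * Q) - dv D * dv E) := by
  rw [← h1, ← h2]
  exact OL_dtl_iff.1 (OL_opS_mul dtl_comm hP hQ)

theorem B3_three {P Q R : MvPolynomial (Fin 3) C3} {D E F : Derivation ℂ C3 C3}
    (hP : P.totalDegree ≤ 1) (hQ : Q.totalDegree ≤ 1) (hR : R.totalDegree ≤ 1)
    (h1 : opS dtl P = dv D) (h2 : opS dtl Q = dv E) (h3 : opS dtl R = dv F) :
    OL fr3 3 (opS dtl (P * Q * R) - dv D * dv E * dv F) := by
  have hPQ : (P * Q).totalDegree ≤ 2 := (MvPolynomial.totalDegree_mul _ _).trans (by omega)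
  have e : opS dtl (P * Q * R) - dv D * dv E * dv F =
      (opS dtl (P * Q * R) - opS dtl (P * Q) * opS dtl R) +
        (opS dtl (P * Q) - dv D * dv E) * opS dtl R := by
    rw [h3]
    exact B3_g1 _ _ _ _
  rw [e]
  refine OL.add (OL_dtl_iff.1 (OL_opS_mul dtl_comm hPQ hR)) ?_
  have h4 : OL fr3 2 (opS dtl R) := OL_dtl_iff.1 (OL_opS hR)
  exact OL_mul (k := 1) (B3_two hP hQ h1 h2) h4

theorem opS_symH : OL fr3 2 (opS dtl symH - mo s3 * Dpr3) := by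
  have h0 : opS dtl symH = mo s3 * (mo (io3 (cC (nu ^ 2) * io laS)) *
      (opS dtl (PX * PX) + opS dtl (PY * PY))) := by
    unfold symH
    rw [opS_C_mul, opS_add, mo_mul, mul_assoc]
  have e : opS dtl symH - mo s3 * Dpr3 = mo s3 * (mo (io3 (cC (nu ^ 2) * io laS)) *
      ((opS dtl (PX * PX) - dv X3 * dv X3) + (opS dtl (PY * PY) - dv Y3 * dv Y3))) := by
    rw [h0, Dpr3, ← mul_assoc (mo s3) (mo _) (dv X3 * dv X3 + dv Y3 * dv Y3)]
    exact B3_g2 _ _ _ _ _ _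
  rw [e]
  exact OL_lmo _ (OL_lmo _
    (OL.add (B3_two PX_deg PX_deg opS_PX opS_PX) (B3_two PY_deg PY_deg opS_PY opS_PY)))

theorem opS_symL : opS dtl symL = mo s3 * Lpr3 := by
  unfold symL Lpr3
  rw [opS_C_mul, opS_PY, mo_mul s3, mul_assoc]

theorem opS_symS : OL fr3 3 (opS dtl symS - mo s3 * Spr3) := by
  have h1 := B3_three PX_deg PX_deg PX_deg opS_PX opS_PX opS_PX
  have h2 := B3_three PX_deg PY_deg PY_deg opS_PX opS_PY opS_PY
  have h3 := B3_three PX_deg PX_deg PY_deg opS_PX opS_PX opS_PY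
  have h4 := B3_three PY_deg PY_deg PY_deg opS_PY opS_PY opS_PY
  have h0 : opS dtl symS = mo s3 * (mo (io3 (cC (nu ^ 3) * (io hdS * cosY))) *
      (mo (io3 (io laS)) * opS dtl (PX * PX * PX) +
        mo (io3 (io (laS + zS))) * opS dtl (PX * PY * PY))) +
      mo s3 * (mo (io3 (cC (nu ^ 3) * (io hdS * sinY))) *
      (mo (io3 (io (hhS * laS))) * opS dtl (PX * PX * PY) +
        mo (io3 (io (hhS * laS - zS))) * opS dtl (PY * PY * PY))) := by
    unfold symS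
    rw [opS_add, opS_C_mul, opS_C_mul, opS_add, opS_add, opS_C_mul, opS_C_mul, opS_C_mul,
      opS_C_mul, mo_mul s3, mo_mul s3,
      mul_assoc (mo s3) (mo (io3 (cC (nu ^ 3) * (io hdS * cosY)))),
      mul_assoc (mo s3) (mo (io3 (cC (nu ^ 3) * (io hdS * sinY))))]
  have e := B3_g3 (mo s3) (mo (io3 (cC (nu ^ 3) * (io hdS * cosY)))) (mo (io3 (io laS)))
    (mo (io3 (io (laS + zS)))) (mo (io3 (cC (nu ^ 3) * (io hdS * sinY))))
    (mo (io3 (io (hhS * laS)))) (mo (io3 (io (hhS * laS - zS))))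
    (opS dtl (PX * PX * PX)) (opS dtl (PX * PY * PY)) (opS dtl (PX * PX * PY))
    (opS dtl (PY * PY * PY)) (dv X3 * dv X3 * dv X3) (dv X3 * dv Y3 * dv Y3)
    (dv X3 * dv X3 * dv Y3) (dv Y3 * dv Y3 * dv Y3)
  rw [h0, Spr3]
  refine Eq.mpr (congrArg (OL fr3 3) e) ?_
  exact OL_lmo _ (OL.add (OL_lmo _ (OL.add (OL_lmo _ h1) (OL_lmo _ h2)))
    (OL_lmo _ (OL.add (OL_lmo _ h3) (OL_lmo _ h4))))

theorem eval_symH (c : (ℝ × ℝ) × ℝ) (t : V 3) :
    MvPolynomial.eval (fun j => (t j : ℂ)) (MvPolynomial.map (evC c) symH) =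
      nu ^ 2 * ((sg c.1.1 * Hxy c.1.2 (Px c t) (Py c t) : ℝ) : ℂ) := by
  unfold symH Hxy
  simp only [map_mul, map_add, MvPolynomial.map_C, MvPolynomial.eval_C, eval_PX, eval_PY, B3_s3,
    B3_cC, B3_la]
  push_cast
  ring

theorem eval_symL (c : (ℝ × ℝ) × ℝ) (t : V 3) :
    MvPolynomial.eval (fun j => (t j : ℂ)) (MvPolynomial.map (evC c) symL) =
      nu * ((sg c.1.1 * ((sg c.1.1 - sg 0) * Py c t) : ℝ) : ℂ) := by
  unfold symL
  simp only [map_mul, map_sub, MvPolynomial.map_C, MvPolynomial.eval_C, eval_PY, B3_s3, B3_alg]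
  push_cast
  ring

theorem eval_symS (c : (ℝ × ℝ) × ℝ) (t : V 3) :
    MvPolynomial.eval (fun j => (t j : ℂ)) (MvPolynomial.map (evC c) symS) =
      nu ^ 3 * ((sg c.1.1 * Sxy c.1.2 c.2 (Px c t) (Py c t) : ℝ) : ℂ) := by
  unfold symS Sxy
  simp only [map_mul, map_add, map_sub, MvPolynomial.map_C, MvPolynomial.eval_C, eval_PX, eval_PY,
    B3_s3, B3_cC, B3_la, B3_hd, B3_hh, B3_z, B3_cos, B3_sin]
  push_cast
  ring

end H99.EQ
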