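import Pool.Agent.H99.EQ.B3

/-!
# EQ-B4: derivatives of the classical system along rays

Job EQ-B4. From `NearForm p`: near `s = 0` the function `s ↦ p j (Phi3 c, s • t)` is a polynomial
in `s`, so its iterated derivatives at `0` (`Filter.EventuallyEq.iteratedDeriv_eq`) are those of
the polynomial: `w! *` the coefficient.
-/

set_option autoImplicit false

open Complex
open scoped ContDiff

noncomputable section

namespace H99.EQ

variable {p : Fin 3 → Ph 3 → ℝ}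

private theorem b4_pow (a : ℝ) (m w : ℕ) :
    iteratedDeriv w (fun s : ℝ => a * s ^ m) 0 = if w = m then a * (m.factorial : ℝ) else 0 := by
  rw [iteratedDeriv_const_mul_field a (fun s : ℝ => s ^ m), iteratedDeriv_fun_pow_zero]
  split_ifs <;> simp

private theorem b4_fac (w : ℕ) (a : ℝ) :
    (w.factorial : ℂ)⁻¹ * ((a * (w.factorial : ℝ) : ℝ) : ℂ) = (a : ℂ) := by
  have h : (w.factorial : ℂ) ≠ 0 := by exact_mod_cast w.factorial_ne_zero
  push_cast
  field_simp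

theorem near0 (h : NearForm p) (c : (ℝ × ℝ) × ℝ) (t : V 3) (w : ℕ) :
    ((w.factorial : ℂ)⁻¹ *
      ((iteratedDeriv w (fun s : ℝ => p 0 (Phi3 c, s • t)) 0 : ℝ) : ℂ)) =
    if w = 2 then ((sg c.1.1 * Hxy c.1.2 (Px c t) (Py c t) : ℝ) : ℂ) else 0 := by
  have he : (fun s : ℝ => p 0 (Phi3 c, s • t)) =ᶠ[nhds 0]
      fun s : ℝ => (sg c.1.1 * Hxy c.1.2 (Px c t) (Py c t)) * s ^ 2 := by
    filter_upwards [h c t] with s hs
    rw [hs.1]; ring
  rw [he.iteratedDeriv_eq w, b4_pow]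
  split_ifs with hw
  · subst hw; exact b4_fac 2 _
  · simp

theorem near1 (h : NearForm p) (c : (ℝ × ℝ) × ℝ) (t : V 3) (w : ℕ) :
    ((w.factorial : ℂ)⁻¹ *
      ((iteratedDeriv w (fun s : ℝ => p 1 (Phi3 c, s • t)) 0 : ℝ) : ℂ)) =
    if w = 0 then ((sg c.1.1 : ℝ) : ℂ) else 0 := by
  have he : (fun s : ℝ => p 1 (Phi3 c, s • t)) =ᶠ[nhds 0]
      fun s : ℝ => sg c.1.1 * s ^ 0 := by
    filter_upwards [h c t] with s hs
    rw [hs.2.1]; ring
  rw [he.iteratedDeriv_eq w, b4_pow]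
  split_ifs with hw
  · subst hw; exact b4_fac 0 _
  · simp

theorem near2 (h : NearForm p) (c : (ℝ × ℝ) × ℝ) (t : V 3) (w : ℕ) :
    ((w.factorial : ℂ)⁻¹ *
      ((iteratedDeriv w (fun s : ℝ => p 2 (Phi3 c, s • t)) 0 : ℝ) : ℂ)) =
    if w = 1 then ((sg c.1.1 * ((sg c.1.1 - sg 0) * Py c t) : ℝ) : ℂ) else
    if w = 3 then ((sg c.1.1 * Sxy c.1.2 c.2 (Px c t) (Py c t) : ℝ) : ℂ) else 0 := by
  have he : (fun s : ℝ => p 2 (Phi3 c, s • t)) =ᶠ[nhds 0]
      fun s : ℝ => (sg c.1.1 * ((sg c.1.1 - sg 0) * Py c t)) * s ^ 1 +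
        (sg c.1.1 * Sxy c.1.2 c.2 (Px c t) (Py c t)) * s ^ 3 := by
    filter_upwards [h c t] with s hs
    rw [hs.2.2]; ring
  rw [he.iteratedDeriv_eq w, iteratedDeriv_fun_add (by fun_prop) (by fun_prop), b4_pow, b4_pow]
  by_cases h1 : w = 1
  · subst h1
    rw [if_pos rfl, if_neg (by norm_num), if_pos rfl, add_zero]
    exact b4_fac 1 _
  · rw [if_neg h1, if_neg h1]
    by_cases h3 : w = 3
    · subst h3
      rw [if_pos rfl, if_pos rfl, zero_add]
      exact b4_fac 3 _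
    · rw [if_neg h3, if_neg h3]
      simp

end H99.EQ
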