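import Pool.Agent.H99.EQ.O4

/-!
# EQ-O5: conjugation by a power series of operators

Job EQ-O5. Work in `PowerSeries (Module.End ℂ C)` (a noncommutative ring; multiplication has
`PowerSeries.coeff_mul`). `PV = PowerSeries.mk V` has constant coefficient `1`, so it has a
two-sided inverse `PW = PowerSeries.invOfUnit PV 1` (`PowerSeries.mul_invOfUnit`,
`PowerSeries.invOfUnit_mul` hold for every ring). Put `A' w = coeff w (PV * mk A * PW)`,
`C' w = coeff w (PV * mk Cc * PW)`. From `PV * mk B = C (mo s) * PV` we get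
`PV * mk B * PW = C (mo s)`; graded commutation of `A, B` says `mk A * mk B = mk B * mk A`, so
`PV A PW` commutes with `C (mo s)`: coefficientwise this is `A' w * mo s = mo s * A' w`.
Orders: `mk A' * PV = PV * mk A` gives
`A' w - A w = ∑_{i+j=w, i ≥ 1} (V i * A j - A' j * V i)`
`= ∑_{i ≥ 1} ((V i * A j - A j * V i) - (A' j - A j) * V i)`; by strong induction on `w`
(`A' j - A j` is `OL d j` for `j < w`, `OL_comm` with orders `≤ i`, `≤ j`, `OL_mul`).
-/

set_option autoImplicit false

noncomputable section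

namespace H99.EQ

variable {C : Type*} [CommRing C] [Algebra ℂ C] {ι : Type*} {d : ι → Derivation ℂ C C}

/-- graded commutation of two sequences of operators -/
def GComm (A B : ℕ → Module.End ℂ C) : Prop :=
  ∀ W, ∑ vw ∈ Finset.HasAntidiagonal.antidiagonal W, (A vw.1 * B vw.2 - B vw.2 * A vw.1) = 0

theorem GComm_iff (A B : ℕ → Module.End ℂ C) :
    GComm A B ↔ PowerSeries.mk A * PowerSeries.mk B = PowerSeries.mk B * PowerSeries.mk A := by
  have key : ∀ W, ∑ vw ∈ Finset.HasAntidiagonal.antidiagonal W, (A vw.1 * B vw.2 - B vw.2 * A vw.1)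
      = PowerSeries.coeff W (PowerSeries.mk A * PowerSeries.mk B) -
        PowerSeries.coeff W (PowerSeries.mk B * PowerSeries.mk A) := by
    intro W
    rw [Finset.sum_sub_distrib, PowerSeries.coeff_mul, PowerSeries.coeff_mul]
    congr 1
    · simp
    · rw [← Finset.Nat.sum_antidiagonal_swap]
      simp
  constructor
  · intro h
    ext1 W
    have h1 := key W
    rw [h W] at h1
    exact (sub_eq_zero.mp h1.symm)
  · intro h W
    rw [key W, h, sub_self]

theorem conj_order (hc : ∀ i j, dv (d i) * dv (d j) = dv (d j) * dv (d i))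
    {V A A' : ℕ → Module.End ℂ C} (hV0 : V 0 = 1) (hV : ∀ w, OL d (w + 1) (V w))
    (hA : ∀ w, OL d (w + 1) (A w))
    (h : PowerSeries.mk A' * PowerSeries.mk V = PowerSeries.mk V * PowerSeries.mk A) :
    ∀ w, OL d w (A' w - A w) := by
  intro w
  induction w using Nat.strong_induction_on with
  | _ w ih =>
    have h1 : PowerSeries.coeff w (PowerSeries.mk A' * PowerSeries.mk V) =
        PowerSeries.coeff w (PowerSeries.mk V * PowerSeries.mk A) := by rw [h]
    rw [PowerSeries.coeff_mul, PowerSeries.coeff_mul, ← Finset.Nat.sum_antidiagonal_swap] at h1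
    simp only [PowerSeries.coeff_mk, Prod.fst_swap, Prod.snd_swap] at h1
    have h2 : ∑ p ∈ Finset.HasAntidiagonal.antidiagonal w, (V p.1 * A p.2 - A' p.2 * V p.1) = 0 := by
      rw [Finset.sum_sub_distrib, h1, sub_self]
    rw [Finset.Nat.sum_antidiagonal_eq_sum_range_succ_mk, Finset.sum_range_succ'] at h2
    simp only [hV0, one_mul, mul_one, Nat.sub_zero] at h2
    have h3 : A' w - A w = ∑ i ∈ Finset.range w,
        (V (i + 1) * A (w - (i + 1)) - A' (w - (i + 1)) * V (i + 1)) := by
      rw [← sub_eq_zero, ← neg_eq_zero, ← h2]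
      abel
    rw [h3]
    refine OL_sum _ ?_
    intro i hi
    have hi' : i < w := Finset.mem_range.mp hi
    have hw : w - (i + 1) < w := by omega
    have e1 : V (i + 1) * A (w - (i + 1)) - A' (w - (i + 1)) * V (i + 1) =
        (V (i + 1) * A (w - (i + 1)) - A (w - (i + 1)) * V (i + 1)) -
          (A' (w - (i + 1)) - A (w - (i + 1))) * V (i + 1) := by
      rw [sub_mul]; abel
    rw [e1]
    refine OL_sub ?_ ?_
    · have := OL_comm hc (hV (i + 1)) (hA (w - (i + 1)))
      have e : i + 1 + (w - (i + 1)) = w := by omega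
      rwa [e] at this
    · have := OL_mul (ih _ hw) (hV (i + 1))
      have e : w - (i + 1) + (i + 1) = w := by omega
      rwa [e] at this

theorem exists_normal (hc : ∀ i j, dv (d i) * dv (d j) = dv (d j) * dv (d i))
    {s : C} {i₀ : ι} (hs : d i₀ s = 1) {A B K : ℕ → Module.End ℂ C}
    (hA : ∀ w, OL d (w + 1) (A w)) (hK : ∀ w, OL d (w + 1) (K w))
    (hB0 : B 0 = mo s) (hB : ∀ w, 1 ≤ w → OL d w (B w))
    (hAB : GComm A B) (hKB : GComm K B) (hAK : GComm A K) :
    ∃ A' K' : ℕ → Module.End ℂ C,
      (∀ w, A' w * mo s = mo s * A' w) ∧ (∀ w, K' w * mo s = mo s * K' w) ∧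
      (∀ w, OL d w (A' w - A w)) ∧ (∀ w, OL d w (K' w - K w)) ∧ GComm A' K' := by
  obtain ⟨V, hV0, hV, hVB⟩ := exists_V hs hB0 hB
  rw [GComm_iff] at hAB hKB hAK
  set PV : PowerSeries (Module.End ℂ C) := PowerSeries.mk V with hPV
  set PA : PowerSeries (Module.End ℂ C) := PowerSeries.mk A with hPA
  set PB : PowerSeries (Module.End ℂ C) := PowerSeries.mk B with hPB
  set PK : PowerSeries (Module.End ℂ C) := PowerSeries.mk K with hPK
  have hc0 : PowerSeries.constantCoeff PV = ((1 : (Module.End ℂ C)ˣ) : Module.End ℂ C) := by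
    rw [← PowerSeries.coeff_zero_eq_constantCoeff_apply, hPV, PowerSeries.coeff_mk, hV0]
    rfl
  have hVW : PV * PowerSeries.invOfUnit PV 1 = 1 := PowerSeries.mul_invOfUnit PV 1 hc0
  have hWV : PowerSeries.invOfUnit PV 1 * PV = 1 := PowerSeries.invOfUnit_mul PV 1 hc0
  set PW := PowerSeries.invOfUnit PV 1 with hPW
  have hs' : PV * PB = PowerSeries.C (mo s) * PV := by
    ext1 w
    rw [PowerSeries.coeff_mul, PowerSeries.coeff_C_mul]
    simp only [hPV, hPB, PowerSeries.coeff_mk]
    exact hVB w
  -- conjugates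
  have hcomm : ∀ X : PowerSeries (Module.End ℂ C), X * PB = PB * X →
      ∀ w, PowerSeries.coeff w (PV * X * PW) * mo s = mo s * PowerSeries.coeff w (PV * X * PW) := by
    intro X hX w
    have e1 : (PV * X * PW) * PowerSeries.C (mo s) = PowerSeries.C (mo s) * (PV * X * PW) := by
      have e2 : PowerSeries.C (mo s) = PV * PB * PW := by
        rw [hs', mul_assoc, hVW, mul_one]
      rw [e2]
      calc PV * X * PW * (PV * PB * PW) = PV * X * (PW * PV) * PB * PW := by
            simp only [mul_assoc]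
        _ = PV * (X * PB) * PW := by rw [hWV]; simp only [mul_assoc, mul_one]
        _ = PV * (PB * X) * PW := by rw [hX]
        _ = PV * PB * (PW * PV) * X * PW := by rw [hWV]; simp only [mul_assoc, mul_one]
        _ = PV * PB * PW * (PV * X * PW) := by simp only [mul_assoc]
    have e3 := congrArg (PowerSeries.coeff w) e1
    rwa [PowerSeries.coeff_mul_C, PowerSeries.coeff_C_mul] at e3
  have hmk : ∀ X : PowerSeries (Module.End ℂ C),
      PowerSeries.mk (fun w => PowerSeries.coeff w X) = X := by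
    intro X; ext1 w; rw [PowerSeries.coeff_mk]
  refine ⟨fun w => PowerSeries.coeff w (PV * PA * PW), fun w => PowerSeries.coeff w (PV * PK * PW),
    hcomm PA hAB, hcomm PK hKB, ?_, ?_, ?_⟩
  · refine conj_order hc hV0 hV hA ?_
    rw [hmk, mul_assoc, hWV, mul_one]
  · refine conj_order hc hV0 hV hK ?_
    rw [hmk, mul_assoc, hWV, mul_one]
  · rw [GComm_iff, hmk, hmk]
    calc PV * PA * PW * (PV * PK * PW) = PV * PA * (PW * PV) * PK * PW := by
          simp only [mul_assoc]
      _ = PV * (PA * PK) * PW := by rw [hWV]; simp only [mul_assoc, mul_one]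
      _ = PV * (PK * PA) * PW := by rw [hAK]
      _ = PV * PK * (PW * PV) * PA * PW := by rw [hWV]; simp only [mul_assoc, mul_one]
      _ = PV * PK * PW * (PV * PA * PW) := by simp only [mul_assoc]

end H99.EQ
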