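import Pool.Agent.H99.EQ.B4
import Pool.Agent.H99.EQ.O5

/-!
# EQ-B5: the pulled back operators

Job EQ-B5. `Op σ j w = opS dtl (map pull (σ j w))`. `map pull (σ j w)` has total degree `≤ w`, and its
homogeneous component of degree `w` is `map pull` of that of `σ j w`; evaluated at
`evC c`, `t` it is (by `ASymb`, at `x = Phi3 c`; `(evC c).comp pull = evP (Phi3 c)`) the value in
`near0/1/2` times `ν^w`, so by `poly_real_zero` it is equal to `symH`, `symL`, `symS`,
`C s3` or `0`. The rest `σ - homogeneousComponent w σ` has total degree `≤ w - 1` (`w ≥ 1`), resp. is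
`0` (`w = 0`), so its operator is `OL fr3 w` (`OL_opS`, `OL_dtl_iff`).
`Op_comm`: `∑ [Op i v, Op j w]` is an operator in some `OL fr3 m`, and it kills all `pull u`
(`pull_opS`, third part of `ASymb`), so it is `0` by `uniq`.
-/

set_option autoImplicit false

open Complex
open scoped ContDiff

noncomputable section

namespace H99.EQ

section B5g

variable {C : Type*} [CommRing C] [Algebra ℂ C] {n : ℕ} {d : Fin n → Derivation ℂ C C}

theorem B5g_opS_sub (P Q : MvPolynomial (Fin n) C) : opS d (P - Q) = opS d P - opS d Q := by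
  have h := opS_add (d := d) (P - Q) Q
  rw [sub_add_cancel] at h
  rw [h, add_sub_cancel_right]

theorem B5g_self (m : ℕ) {P Q : Module.End ℂ C} (h : P = Q) : OL d m (P - Q) := by
  rw [h, sub_self]; exact OL.zero m

theorem B5g_trans {m : ℕ} {P Q R : Module.End ℂ C} (h1 : OL d m (P - Q)) (h2 : OL d m (Q - R)) :
    OL d m (P - R) := by
  have h := OL.add h1 h2
  rwa [sub_add_sub_cancel] at h

theorem B5g_comm_OL {A B : ℕ → Module.End ℂ C} (hA : ∀ w, OL d (w + 1) (A w))
    (hB : ∀ w, OL d (w + 1) (B w)) (W : ℕ) :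
    OL d (W + 1) (∑ vw ∈ Finset.HasAntidiagonal.antidiagonal W,
      (A vw.1 * B vw.2 - B vw.2 * A vw.1)) := by
  refine OL_sum _ fun vw hvw => ?_
  have hs := Finset.HasAntidiagonal.mem_antidiagonal.1 hvw
  refine OL_sub ?_ ?_
  · exact OL_mono (by omega) (OL_mul (hA vw.1) (hB vw.2))
  · exact OL_mono (by omega) (OL_mul (hB vw.2) (hA vw.1))

theorem B5g_comm_app {C' : Type*} [CommRing C'] [Algebra ℂ C'] (f : C' →ₗ[ℂ] C)
    {A B : ℕ → Module.End ℂ C} {A' B' : ℕ → Module.End ℂ C'}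
    (hA : ∀ w u, A w (f u) = f (A' w u)) (hB : ∀ w u, B w (f u) = f (B' w u)) (W : ℕ)
    (h : ∑ vw ∈ Finset.HasAntidiagonal.antidiagonal W,
      (A' vw.1 * B' vw.2 - B' vw.2 * A' vw.1) = 0) (u : C') :
    (∑ vw ∈ Finset.HasAntidiagonal.antidiagonal W,
      (A vw.1 * B vw.2 - B vw.2 * A vw.1)) (f u) = 0 := by
  have h2 : f ((∑ vw ∈ Finset.HasAntidiagonal.antidiagonal W,
      (A' vw.1 * B' vw.2 - B' vw.2 * A' vw.1)) u) = 0 := by
    rw [h, LinearMap.zero_apply, map_zero]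
  rw [← h2, LinearMap.sum_apply, LinearMap.sum_apply, map_sum]
  refine Finset.sum_congr rfl fun vw _ => ?_
  simp only [LinearMap.sub_apply, Module.End.mul_apply, hA, hB, map_sub]

end B5g

variable {p : Fin 3 → Ph 3 → ℝ} {σ : Fin 3 → ℕ → MvPolynomial (Fin 3) (CP 3)}

/-- the pulled back operators -/
def Op (σ : Fin 3 → ℕ → MvPolynomial (Fin 3) (CP 3)) (j : Fin 3) (w : ℕ) : Module.End ℂ C3 :=
  opS dtl (MvPolynomial.map (pull : CP 3 →+* C3) (σ j w))

theorem B5_deg (h : ASymb p σ) (j : Fin 3) (w : ℕ) :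
    (MvPolynomial.map (pull : CP 3 →+* C3) (σ j w)).totalDegree ≤ w := by
  refine le_trans ?_ (h.1 j w)
  exact Finset.sup_mono (MvPolynomial.support_map_subset _ _)

theorem OL_Op (h : ASymb p σ) (j : Fin 3) (w : ℕ) : OL fr3 (w + 1) (Op σ j w) :=
  OL_dtl_iff.1 (OL_opS (B5_deg h j w))

/-- the homogeneous component of top degree -/
def B5t (σ : Fin 3 → ℕ → MvPolynomial (Fin 3) (CP 3)) (j : Fin 3) (w : ℕ) :
    MvPolynomial (Fin 3) C3 :=
  MvPolynomial.homogeneousComponent w (MvPolynomial.map (pull : CP 3 →+* C3) (σ j w))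

theorem B5t_eq (j : Fin 3) (w : ℕ) : B5t σ j w =
    MvPolynomial.map (pull : CP 3 →+* C3) (MvPolynomial.homogeneousComponent w (σ j w)) := by
  classical
  unfold B5t
  ext1 β
  rw [MvPolynomial.coeff_homogeneousComponent, MvPolynomial.coeff_map, MvPolynomial.coeff_map,
    MvPolynomial.coeff_homogeneousComponent]
  split_ifs
  · rfl
  · rw [map_zero]

theorem B5_eval (h : ASymb p σ) (j : Fin 3) (w : ℕ) (c : (ℝ × ℝ) × ℝ) (t : V 3) :
    MvPolynomial.eval (fun i => (t i : ℂ)) (MvPolynomial.map (evC c) (B5t σ j w)) =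
      nu ^ w * ((w.factorial : ℂ)⁻¹ *
        ((iteratedDeriv w (fun s : ℝ => p j (Phi3 c, s • t)) 0 : ℝ) : ℂ)) := by
  rw [← h.2.1 j w (Phi3 c) t, B5t_eq, MvPolynomial.map_map]
  rfl

theorem B5_OL (h : ASymb p σ) (j : Fin 3) (w : ℕ) : OL fr3 w (Op σ j w - opS dtl (B5t σ j w)) := by
  classical
  unfold Op
  rw [← B5g_opS_sub]
  have hdeg := B5_deg h j w
  have hco : ∀ β, MvPolynomial.coeff β (MvPolynomial.map (pull : CP 3 →+* C3) (σ j w) -
      B5t σ j w) ≠ 0 → (β.sum fun _ e => e) < w := by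
    intro β hβ
    rw [MvPolynomial.coeff_sub, B5t, MvPolynomial.coeff_homogeneousComponent] at hβ
    have h2 : MvPolynomial.coeff β (MvPolynomial.map (pull : CP 3 →+* C3) (σ j w)) ≠ 0 := by
      intro h0
      apply hβ
      rw [h0]
      simp
    have h3 : (β.sum fun _ e => e) ≤ w :=
      (MvPolynomial.le_totalDegree (MvPolynomial.mem_support_iff.2 h2)).trans hdeg
    refine lt_of_le_of_ne h3 fun h4 => hβ ?_
    rw [if_pos, sub_self]
    rw [Finsupp.degree_eq_sum]
    rw [← h4, Finsupp.sum_fintype]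
    simp
  rcases w with _ | w
  · have h0 : MvPolynomial.map (pull : CP 3 →+* C3) (σ j 0) - B5t σ j 0 = 0 := by
      ext1 β
      rw [MvPolynomial.coeff_zero]
      by_contra hne
      exact absurd (hco β hne) (Nat.not_lt_zero _)
    rw [h0, opS_zero]
    exact OL.zero 0
  · refine OL_dtl_iff.1 (OL_opS ?_)
    refine Finset.sup_le fun β hβ => ?_
    exact Nat.lt_succ_iff.1 (hco β (MvPolynomial.mem_support_iff.1 hβ))

theorem B5_eq (h : ASymb p σ) (j : Fin 3) (w : ℕ) (T : MvPolynomial (Fin 3) C3)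
    (hT : ∀ (c : (ℝ × ℝ) × ℝ) (t : V 3),
      MvPolynomial.eval (fun i => (t i : ℂ)) (MvPolynomial.map (evC c) T) =
        nu ^ w * ((w.factorial : ℂ)⁻¹ *
          ((iteratedDeriv w (fun s : ℝ => p j (Phi3 c, s • t)) 0 : ℝ) : ℂ))) :
    B5t σ j w = T := by
  rw [← sub_eq_zero]
  apply poly_real_zero
  intro c t
  rw [map_sub, map_sub, B5_eval h, hT, sub_self]

theorem B5_fin (h : ASymb p σ) (j : Fin 3) (w : ℕ) (T : MvPolynomial (Fin 3) C3)
    (hT : ∀ (c : (ℝ × ℝ) × ℝ) (t : V 3),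
      MvPolynomial.eval (fun i => (t i : ℂ)) (MvPolynomial.map (evC c) T) =
        nu ^ w * ((w.factorial : ℂ)⁻¹ *
          ((iteratedDeriv w (fun s : ℝ => p j (Phi3 c, s • t)) 0 : ℝ) : ℂ)))
    (Q : Module.End ℂ C3) (hQ : OL fr3 w (opS dtl T - Q)) : OL fr3 w (Op σ j w - Q) := by
  have h1 := B5_OL h j w
  rw [B5_eq h j w T hT] at h1
  exact B5g_trans h1 hQ

theorem B5_zero (m : ℕ) : OL fr3 m (opS dtl 0 - (0 : Module.End ℂ C3)) :=
  B5g_self m opS_zero

theorem Op0 (h : ASymb p σ) (hN : NearForm p) (w : ℕ) :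
    OL fr3 w (Op σ 0 w - if w = 2 then mo s3 * Dpr3 else 0) := by
  by_cases hw : w = 2
  · subst hw
    rw [if_pos rfl]
    refine B5_fin h 0 2 symH (fun c t => ?_) _ opS_symH
    rw [eval_symH, near0 hN, if_pos rfl]
  · rw [if_neg hw]
    refine B5_fin h 0 w 0 (fun c t => ?_) _ (B5_zero w)
    rw [near0 hN, if_neg hw]
    simp

theorem Op1 (h : ASymb p σ) (hN : NearForm p) (w : ℕ) :
    OL fr3 w (Op σ 1 w - if w = 0 then mo s3 else 0) := by
  by_cases hw : w = 0
  · subst hw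
    rw [if_pos rfl]
    refine B5_fin h 1 0 (MvPolynomial.C s3) (fun c t => ?_) _ ?_
    · rw [near1 hN, if_pos rfl, MvPolynomial.map_C, MvPolynomial.eval_C, pow_zero, one_mul]
      exact s3_apply c
    · exact B5g_self 0 (opS_C s3)
  · rw [if_neg hw]
    refine B5_fin h 1 w 0 (fun c t => ?_) _ (B5_zero w)
    rw [near1 hN, if_neg hw]
    simp

theorem Op2 (h : ASymb p σ) (hN : NearForm p) (w : ℕ) :
    OL fr3 w (Op σ 2 w - if w = 1 then mo s3 * Lpr3 else
      if w = 3 then mo s3 * Spr3 else 0) := by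
  by_cases hw : w = 1
  · subst hw
    rw [if_pos rfl]
    refine B5_fin h 2 1 symL (fun c t => ?_) _ ?_
    · rw [eval_symL, near2 hN, if_pos rfl, pow_one]
    · exact B5g_self 1 opS_symL
  · rw [if_neg hw]
    by_cases hw3 : w = 3
    · subst hw3
      rw [if_pos rfl]
      refine B5_fin h 2 3 symS (fun c t => ?_) _ opS_symS
      rw [eval_symS, near2 hN, if_neg hw, if_pos rfl]
    · rw [if_neg hw3]
      refine B5_fin h 2 w 0 (fun c t => ?_) _ (B5_zero w)
      rw [near2 hN, if_neg hw, if_neg hw3]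
      simp

theorem B5_pull (j : Fin 3) (w : ℕ) (u : CP 3) :
    Op σ j w (pull u) = pull (opS pdx (σ j w) u) := (pull_opS (σ j w) u).symm

theorem Op_comm (h : ASymb p σ) (i j : Fin 3) : GComm (Op σ i) (Op σ j) := by
  intro W
  refine uniq (m := W + 1) (B5g_comm_OL (OL_Op h i) (OL_Op h j) W) fun u => ?_
  exact B5g_comm_app pull.toLinearMap (A' := fun w => opS pdx (σ i w))
    (B' := fun w => opS pdx (σ j w)) (B5_pull i) (B5_pull j) W (h.2.2 i j W) u

end H99.EQ
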