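import Pool.Agent.H99.EQ.R5

/-!
# EQ-CL1: top order parts of commutators with the Laplacian

Job EQ-CL1. `Dpr2 = mo (ν² λ) (X² + Y²)`. Leibniz: `X² f = f X² + 2 (Xf) X + (X²f)` as operators,
so `[Dpr2, c] = 2 ν² λ (Xc X + Yc Y) + function`.
`topDK`: `K = vx X + vy Y + v0`:
`[λ (X²+Y²), K] = λ [X²+Y², K] + [λ, K] (X²+Y²)`, `[λ, K] = - vx λ'` (`Y2 (io _) = 0`,
`X1_laS : X1 laS = 2 ρ λ`), `[X², vx X] = 2 (X vx) X² + ...`.
All the lower order terms are `OL fr2 2` (`OL.add`, `OL_lmo`, `OL_dv`, `OL_mono`, ...).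
-/

set_option autoImplicit false

open Complex
open scoped ContDiff

noncomputable section

namespace H99.EQ

section General

variable {C : Type*} [CommRing C] [Algebra ℂ C]

theorem cl1_genA (X Y : Derivation ℂ C C) (L c : C) :
    mo L * (dv X * dv X + dv Y * dv Y) * mo c - mo c * (mo L * (dv X * dv X + dv Y * dv Y)) -
      (mo (2 * L * X c) * dv X + mo (2 * L * Y c) * dv Y) =
    mo (L * (X (X c) + Y (Y c))) := by
  apply LinearMap.ext
  intro g
  simp only [LinearMap.sub_apply, LinearMap.add_apply, Module.End.mul_apply, mo_apply, dv_apply,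
    Derivation.leibniz, map_add, smul_eq_mul]
  ring

theorem cl1_genB (X Y : Derivation ℂ C C) (hXY : ∀ g, Y (X g) = X (Y g)) (L r vx vy v0 : C)
    (hX : X L = 2 * r * L) (hY : Y L = 0) :
    mo L * (dv X * dv X + dv Y * dv Y) * (mo vx * dv X + mo vy * dv Y + mo v0) -
      (mo vx * dv X + mo vy * dv Y + mo v0) * (mo L * (dv X * dv X + dv Y * dv Y)) -
      (mo (2 * L * (X vx - r * vx)) * (dv X * dv X) +
        mo (2 * L * (X vy + Y vx)) * (dv X * dv Y) +
        mo (2 * L * (Y vy - r * vx)) * (dv Y * dv Y)) =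
    mo (L * (X (X vx) + Y (Y vx) + 2 * X v0)) * dv X +
      mo (L * (X (X vy) + Y (Y vy) + 2 * Y v0)) * dv Y +
      mo (L * (X (X v0) + Y (Y v0))) := by
  apply LinearMap.ext
  intro g
  simp only [LinearMap.sub_apply, LinearMap.add_apply, Module.End.mul_apply, mo_apply, dv_apply,
    Derivation.leibniz, map_add, smul_eq_mul, hX, hY, hXY]
  ring

end General

theorem cl1_cC : cC (2 * nu ^ 2) = 2 * cC (nu ^ 2) := by
  change algebraMap ℂ C2 (2 * nu ^ 2) = 2 * algebraMap ℂ C2 (nu ^ 2)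
  rw [map_mul, map_ofNat]

theorem cl1_X : X2 (cC (nu ^ 2) * io laS) = 2 * io rhoS * (cC (nu ^ 2) * io laS) := by
  rw [Derivation.leibniz, Derivation.map_algebraMap, smul_zero, add_zero, smul_eq_mul, X2_io,
    X1_laS, map_mul, map_mul, map_ofNat]
  ring

theorem cl1_Y : Y2 (cC (nu ^ 2) * io laS) = 0 := by
  rw [Derivation.leibniz, Derivation.map_algebraMap, smul_zero, add_zero, smul_eq_mul, Y2_io,
    mul_zero]

theorem topDc (c : C2) : OL fr2 1 (Dpr2 * mo c - mo c * Dpr2 -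
    (mo (cC (2 * nu ^ 2) * io laS * X2 c) * dv X2 +
      mo (cC (2 * nu ^ 2) * io laS * Y2 c) * dv Y2)) := by
  have h := cl1_genA X2 Y2 (cC (nu ^ 2) * io laS) c
  have e : ∀ z : C2, cC (2 * nu ^ 2) * io laS * z = 2 * (cC (nu ^ 2) * io laS) * z := by
    intro z
    rw [cl1_cC]
    ring
  rw [e, e]
  unfold Dpr2
  rw [h]
  exact OL.mo _

theorem topDK (vx vy v0 : C2) :
    OL fr2 2 (Dpr2 * (mo vx * dv X2 + mo vy * dv Y2 + mo v0) -
      (mo vx * dv X2 + mo vy * dv Y2 + mo v0) * Dpr2 -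
      (mo (cC (2 * nu ^ 2) * io laS * (X2 vx - io rhoS * vx)) * (dv X2 * dv X2) +
        mo (cC (2 * nu ^ 2) * io laS * (X2 vy + Y2 vx)) * (dv X2 * dv Y2) +
        mo (cC (2 * nu ^ 2) * io laS * (Y2 vy - io rhoS * vx)) * (dv Y2 * dv Y2))) := by
  have hXY : ∀ g, Y2 (X2 g) = X2 (Y2 g) := by
    intro g
    have := congrArg (fun P : Module.End ℂ C2 => P g) XY_comm
    exact this.symm
  have h := cl1_genB X2 Y2 hXY (cC (nu ^ 2) * io laS) (io rhoS) vx vy v0 cl1_X cl1_Y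
  have e : ∀ z : C2, cC (2 * nu ^ 2) * io laS * z = 2 * (cC (nu ^ 2) * io laS) * z := by
    intro z
    rw [cl1_cC]
    ring
  rw [e, e, e]
  unfold Dpr2
  rw [h]
  exact ((OL.comp (d := fr2) 0 (OL.mo _)).add (OL.comp (d := fr2) 1 (OL.mo _))).add
    (OL.mo _).up

end H99.EQ
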