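import Pool.Agent.H99.EQ.R5

/-!
# EQ-CL2: top order part of `[S(X,Y), a]`

Job EQ-CL2. `Y2 a = 0`, `a' = X2 a`. Modulo order `≤ 1`:
`[X³, a] = 3 a' X²`, `[X Y², a] = a' Y²`, `[X² Y, a] = 2 a' X Y`, `[Y³, a] = 0`.
-/

set_option autoImplicit false

open Complex
open scoped ContDiff

noncomputable section

namespace H99.EQ

section General

variable {C : Type*} [CommRing C] [Algebra ℂ C]

theorem cl2_gen (X Y : Derivation ℂ C C) (A B l m n p a : C) (ha : Y a = 0) :
    (mo A * (mo l * (dv X * dv X * dv X) + mo m * (dv X * dv Y * dv Y)) +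
        mo B * (mo n * (dv X * dv X * dv Y) + mo p * (dv Y * dv Y * dv Y))) * mo a -
      mo a * (mo A * (mo l * (dv X * dv X * dv X) + mo m * (dv X * dv Y * dv Y)) +
        mo B * (mo n * (dv X * dv X * dv Y) + mo p * (dv Y * dv Y * dv Y))) -
      (mo (A * (l * (3 * X a))) * (dv X * dv X) + mo (B * n * (2 * X a)) * (dv X * dv Y) +
        mo (A * (m * X a)) * (dv Y * dv Y)) =
    mo (3 * A * l * X (X a)) * dv X + mo (B * n * X (X a)) * dv Y +
      mo (A * l * X (X (X a))) := by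
  apply LinearMap.ext
  intro g
  simp only [LinearMap.sub_apply, LinearMap.add_apply, Module.End.mul_apply, mo_apply, dv_apply,
    Derivation.leibniz, map_add, smul_eq_mul, ha, mul_zero, add_zero]
  ring

end General

theorem topSa {a : C2} (ha : Y2 a = 0) :
    OL fr2 2 (Spr2 * mo a - mo a * Spr2 -
      (mo (cC (nu ^ 3) * (io hdS * cosY) * (io laS * (3 * X2 a))) * (dv X2 * dv X2) +
        mo (cC (nu ^ 3) * (io hdS * sinY) * (io (hhS * laS) * (2 * X2 a))) * (dv X2 * dv Y2) +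
        mo (cC (nu ^ 3) * (io hdS * cosY) * (io (laS + zS) * X2 a)) * (dv Y2 * dv Y2))) := by
  have h := cl2_gen X2 Y2 (cC (nu ^ 3) * (io hdS * cosY)) (cC (nu ^ 3) * (io hdS * sinY))
    (io laS) (io (laS + zS)) (io (hhS * laS)) (io (hhS * laS - zS)) a ha
  have e : cC (nu ^ 3) * (io hdS * sinY) * (io (hhS * laS) * (2 * X2 a)) =
      cC (nu ^ 3) * (io hdS * sinY) * io (hhS * laS) * (2 * X2 a) := by ring
  rw [e]
  unfold Spr2
  rw [h]
  exact ((OL.comp (d := fr2) 0 (OL.mo _)).add (OL.comp (d := fr2) 1 (OL.mo _))).add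
    (OL.mo _).up

end H99.EQ
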