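import Pool.Agent.H99.EQ.CL0
import Pool.Agent.H99.EQ.CL1
import Pool.Agent.H99.EQ.CL2

/-!
# EQ-CL4: the equation (E4): `a` is constant at `s = s₁`

Job EQ-CL4. `K = vx X + vy Y + v0` (`OL2_form`). `h3 : [a, K] = 0` gives `vx * X2 a = 0`
(`Y2 a = 0`; apply to `1`, or `mo_inj`).
(E4) `h4`: `[D, K] = [C3, a]`; with `D = Dpr2 + OL 2` (`[OL 2, K]` is `OL 2` by `OL_comm` with
orders `≤ 1, ≤ 1`) and `C3 = Spr2 + OL 3` (`[OL 3, a]` is `OL 2`), `topDK`, `topSa` and
`top2_zero` the coefficient of `X²` gives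
(X²): `2ν²λ (X vx - ρ vx) = 3 ν³ ḣ cos(y) λ a'`, i.e. `2 (X vx - ρ vx) = 3 ν ḣ cosY a'`.
Multiply by `a'²`: `a' vx = 0` kills `ρ vx`, and `X (vx a') = 0` gives `a'² X vx = - a' a'' vx
= 0`. So `ḣ cosY a'³ = 0`. `a = io g` (`C2_io`), `a' = io (X1 g)`; at `(τ, 0)`, `cos 0 = 1`:
`(X1 g)(τ)³ = 0`. Hence `X2 a = 0`, `C2_const`.
-/

set_option autoImplicit false

open Complex
open scoped ContDiff

noncomputable section

namespace H99.EQ

section General

variable {C : Type*} [CommRing C] [Algebra ℂ C]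

theorem cl4_g1 {A S T D0 D K DK Sa : Module.End ℂ C}
    (h4 : (A * T - T * A) + (D * K - K * D) = 0) :
    DK - Sa = (S * A - A * S - Sa) + ((T - S) * A - A * (T - S)) +
      (-(D0 * K - K * D0 - DK)) + (-((D - D0) * K - K * (D - D0))) := by
  have e : (S * A - A * S - Sa) + ((T - S) * A - A * (T - S)) +
      (-(D0 * K - K * D0 - DK)) + (-((D - D0) * K - K * (D - D0))) =
      DK - Sa - ((A * T - T * A) + (D * K - K * D)) := by
    simp only [sub_mul, mul_sub]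
    abel
  rw [e, h4, sub_zero]

theorem cl4_g2 (p1 p2 p3 q1 q2 q3 : C) (A B E : Module.End ℂ C) :
    (mo p1 * A + mo p2 * B + mo p3 * E) - (mo q1 * A + mo q2 * B + mo q3 * E) =
      mo (p1 - q1) * A + mo (p2 - q2) * B + mo (p3 - q3) * E := by
  simp only [mo_sub, sub_mul]
  abel

theorem cl4_g3 (X Y : Derivation ℂ C C) {a vx vy v0 : C} (ha : Y a = 0)
    (h : mo a * (mo vx * dv X + mo vy * dv Y + mo v0) =
      (mo vx * dv X + mo vy * dv Y + mo v0) * mo a) : vx * X a = 0 := by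
  have h1 := congrArg (fun P : Module.End ℂ C => P 1) h
  simp only [LinearMap.add_apply, Module.End.mul_apply, mo_apply, dv_apply, mul_one,
    Derivation.map_one_eq_zero, mul_zero, zero_add, ha, add_zero] at h1
  linear_combination -h1

/-- the algebraic consequence -/
theorem cl4_g4 (X : Derivation ℂ C C) {a vx r c1 c2 : C} (h1 : vx * X a = 0)
    (h2 : c1 * (X vx - r * vx) - c2 * X a = 0) : c2 * X a ^ 3 = 0 := by
  have h3 : X vx * X a + vx * X (X a) = 0 := by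
    have := congrArg X h1
    rw [Derivation.leibniz, map_zero, smul_eq_mul, smul_eq_mul] at this
    linear_combination this
  linear_combination (-X a ^ 2) * h2 + c1 * X a * h3 - (c1 * X (X a) + c1 * r * X a) * h1

end General

theorem cl4_alg {c : ℂ} (hc : c ≠ 0) : IsUnit (cC c) :=
  (isUnit_iff_ne_zero.2 hc).map (algebraMap ℂ C2)

theorem cl4_nu : nu ≠ 0 := by
  unfold nu
  refine div_ne_zero I_ne_zero ?_
  exact mul_ne_zero two_ne_zero (by exact_mod_cast Real.pi_ne_zero)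

theorem clB {a : C2} {K D T : Module.End ℂ C2} (ha : Y2 a = 0) (hD : OL fr2 2 (D - Dpr2))
    (hK : OL fr2 2 K) (hT : OL fr2 3 (T - Spr2)) (h3 : mo a * K = K * mo a)
    (h4 : (mo a * T - T * mo a) + (D * K - K * D) = 0) : ∃ a0 : ℂ, a = cC a0 := by
  obtain ⟨vx, vy, v0, rfl⟩ := OL2_form hK
  have hva : vx * X2 a = 0 := cl4_g3 X2 Y2 ha h3
  have hS := topSa ha
  have hDK := topDK vx vy v0
  have e := cl4_g1 (S := Spr2) (D0 := Dpr2)
    (DK := mo (cC (2 * nu ^ 2) * io laS * (X2 vx - io rhoS * vx)) * (dv X2 * dv X2) +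
        mo (cC (2 * nu ^ 2) * io laS * (X2 vy + Y2 vx)) * (dv X2 * dv Y2) +
        mo (cC (2 * nu ^ 2) * io laS * (Y2 vy - io rhoS * vx)) * (dv Y2 * dv Y2))
    (Sa := mo (cC (nu ^ 3) * (io hdS * cosY) * (io laS * (3 * X2 a))) * (dv X2 * dv X2) +
        mo (cC (nu ^ 3) * (io hdS * sinY) * (io (hhS * laS) * (2 * X2 a))) * (dv X2 * dv Y2) +
        mo (cC (nu ^ 3) * (io hdS * cosY) * (io (laS + zS) * X2 a)) * (dv Y2 * dv Y2)) h4
  have hOL := (((hS.add (OL_comm_mo a hT)).add (OL_neg hDK)).add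
    (OL_neg (OL_comm (m := 1) (k := 1) fr2_comm hD hK)))
  rw [← e, cl4_g2] at hOL
  have h5 := (top2_zero hOL).1
  have h6 := cl4_g4 X2 (r := io rhoS) (c1 := cC (2 * nu ^ 2) * io laS)
    (c2 := cC (nu ^ 3) * (io hdS * cosY) * (io laS * 3)) hva (by
      linear_combination h5)
  have h7 : cosY * X2 a ^ 3 = 0 := by
    have hu : IsUnit (cC (nu ^ 3) * io hdS * (io laS * 3)) := by
      refine ((cl4_alg (pow_ne_zero 3 cl4_nu)).mul (hdS_unit.map io)).mul
        ((laS_unit.map io).mul ?_)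
      have h8 := cl4_alg (c := 3) (by norm_num)
      have h9 : cC 3 = 3 := by
        change algebraMap ℂ C2 3 = 3
        rw [map_ofNat]
      rwa [h9] at h8
    refine hu.mul_right_eq_zero.1 ?_
    linear_combination h6
  obtain ⟨g, rfl⟩ := C2_io ha
  rw [X2_io] at h7
  have h8 : X1 g = 0 := by
    apply r5_Sm_ext
    intro τ
    have h9 := congrArg (fun f : C2 => (f : ℝ × ℝ → ℂ) (τ, 0)) h7
    have h10 : (cosY : ℝ × ℝ → ℂ) (τ, 0) * ((X1 g : ℝ → ℂ) τ) ^ 3 = 0 := h9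
    rw [cosY_apply] at h10
    simp only [Real.cos_zero, ofReal_one, one_mul] at h10
    exact pow_eq_zero_iff (by norm_num) |>.1 h10
  exact C2_const (by rw [X2_io, h8, map_zero]) ha

end H99.EQ
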