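import Pool.Agent.H99.EQ.CL0
import Pool.Agent.H99.EQ.CL1

/-!
# EQ-CL5: Killing fields of the metric

Job EQ-CL5. `rho2_nonconst`: if `X1 (X1 rhoS + rhoS * rhoS) = 0` then `X1 rhoS + rhoS²` is constant
(`Sm_const`), but by `X1_ofZ`, `rrho_cd` its value at `τ` is the rational function
`rfac z * rrho'(z) + rrho z ^ 2` of `z = zz τ` (`rrho z = -1 - 2 (z+3/4)(z+8/9) rW z / rQ z`),
which takes different values at `z = -1/2` and `z = -1/4` (use `zz_surj`; compute both values as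
explicit rational numbers, e.g. write the derivative by the quotient rule and `norm_num`).
`clC`: `K = vx X + vy Y + v0`; `topDK`, `top2_zero` (`[D - Dpr2, K]` is `OL fr2 2`) give
`X vx = ρ vx`, `X vy = - Y vx`, `Y vy = ρ vx`. So `-Y²vx = Y (X vy) = X (Y vy) = X (ρ vx) =
(ρ' + ρ²) vx =: r vx` (`r = io r₂`); apply `X`: `-Y²(ρ vx) = X(r) vx + r ρ vx`, and
`-Y² (ρ vx) = ρ r vx`, so `X(r) * vx = 0`. `w := vx / ḣ` has `X2 w = 0` (`X1_hdS`), so
`w(τ, y)` does not depend on `τ` and vanishes for the `τ₀` with `X1 r₂ (τ₀) ≠ 0`: `vx = 0`.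
Then `X vy = 0 = Y vy`, `vy` is constant.
-/

set_option autoImplicit false

open Complex
open scoped ContDiff

noncomputable section

namespace H99.EQ

/-- the derivative of `rrho` as a rational function -/
theorem cl5_rrho_deriv {z : ℝ} (h : z ∈ Set.Ioo (-(3 / 4) : ℝ) 0) :
    HasDerivAt rrho (-(((2 * (z + 8 / 9) * (2 / 3 - z ^ 2) + 2 * (z + 3 / 4) * (2 / 3 - z ^ 2) +
      2 * (z + 3 / 4) * (z + 8 / 9) * (-(2 * z))) * rQ z -
      2 * (z + 3 / 4) * (z + 8 / 9) * (2 / 3 - z ^ 2) *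
        (rq z + (z + 1) * ((81 * z ^ 2 + 64 * z + 4) / 9))) / rQ z ^ 2)) z := by
  have hP : HasDerivAt (fun z : ℝ => 2 * (z + 3 / 4) * (z + 8 / 9) * (2 / 3 - z ^ 2))
      (2 * (z + 8 / 9) * (2 / 3 - z ^ 2) + 2 * (z + 3 / 4) * (2 / 3 - z ^ 2) +
      2 * (z + 3 / 4) * (z + 8 / 9) * (-(2 * z))) z := by
    have h1 := ((((hasDerivAt_id z).add_const (3 / 4)).const_mul 2).mul
      ((hasDerivAt_id z).add_const (8 / 9))).mul
      ((hasDerivAt_const z (2 / 3 : ℝ)).sub ((hasDerivAt_id z).pow 2))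
    refine h1.congr_deriv ?_
    simp only [id, Pi.mul_apply, Pi.sub_apply, Pi.pow_apply, Nat.cast_ofNat]
    ring
  have hQ : HasDerivAt rQ (rq z + (z + 1) * ((81 * z ^ 2 + 64 * z + 4) / 9)) z := by
    have h1 := ((hasDerivAt_id z).add_const 1).mul
      (((((((hasDerivAt_id z).pow 3).const_mul 27).add (((hasDerivAt_id z).pow 2).const_mul 32)).add
        ((hasDerivAt_id z).const_mul 4)).sub_const 4).div_const 9)
    refine (h1.congr_deriv ?_)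
    simp only [id, Pi.add_apply, Pi.pow_apply, Nat.cast_ofNat]
    unfold rq
    ring
  have h2 : HasDerivAt (fun z : ℝ => -1 - (2 * (z + 3 / 4) * (z + 8 / 9) * (2 / 3 - z ^ 2)) / rQ z)
      (-(((2 * (z + 8 / 9) * (2 / 3 - z ^ 2) + 2 * (z + 3 / 4) * (2 / 3 - z ^ 2) +
      2 * (z + 3 / 4) * (z + 8 / 9) * (-(2 * z))) * rQ z -
      2 * (z + 3 / 4) * (z + 8 / 9) * (2 / 3 - z ^ 2) *
        (rq z + (z + 1) * ((81 * z ^ 2 + 64 * z + 4) / 9))) / rQ z ^ 2)) z :=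
    (hP.div hQ (rQ_neg h).ne).const_sub (-1)
  refine h2.congr_of_eventuallyEq ?_
  filter_upwards [isOpen_Ioo.mem_nhds h] with x hx
  have hx0 : x ≠ 0 := hx.2.ne
  have hxQ : rQ x ≠ 0 := (rQ_neg hx).ne
  unfold rrho rfac rN rW
  field_simp

theorem cl5_val (τ : ℝ) : (X1 rhoS + rhoS * rhoS : Sm).1 τ =
    ((rfac (zz τ) * deriv rrho (zz τ) + rrho (zz τ) * rrho (zz τ) : ℝ) : ℂ) := by
  change (X1 rhoS : ℝ → ℂ) τ + (rhoS : ℝ → ℂ) τ * (rhoS : ℝ → ℂ) τ = _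
  unfold rhoS
  rw [X1_ofZ rrho_cd, ofZ_apply rrho_cd]
  push_cast
  rfl

theorem rho2_nonconst : ∃ τ₀ : ℝ, (X1 (X1 rhoS + rhoS * rhoS) : ℝ → ℂ) τ₀ ≠ 0 := by
  by_contra hcon
  push Not at hcon
  have h0 : X1 (X1 rhoS + rhoS * rhoS) = 0 := Subtype.ext (funext hcon)
  obtain ⟨c, hc⟩ := Sm_const h0
  have h1 : ∀ τ, ((rfac (zz τ) * deriv rrho (zz τ) + rrho (zz τ) * rrho (zz τ) : ℝ) : ℂ) = c := by
    intro τ
    rw [← cl5_val τ, hc]
    rfl
  have m1 : (-(1 / 2) : ℝ) ∈ Set.Ioo (-(3 / 4) : ℝ) 0 := by constructor <;> norm_num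
  have m2 : (-(1 / 4) : ℝ) ∈ Set.Ioo (-(3 / 4) : ℝ) 0 := by constructor <;> norm_num
  obtain ⟨τ₁, hτ₁⟩ := zz_surj m1
  obtain ⟨τ₂, hτ₂⟩ := zz_surj m2
  have e1 := h1 τ₁
  have e2 := h1 τ₂
  rw [hτ₁, (cl5_rrho_deriv m1).deriv] at e1
  rw [hτ₂, (cl5_rrho_deriv m2).deriv] at e2
  rw [← e2] at e1
  have e3 := Complex.ofReal_injective e1
  unfold rrho rfac rQ rq rW rN at e3
  norm_num at e3

theorem cl5_X2w {w : C2} (h : X2 w = 0) (τ τ' y : ℝ) :
    (w : ℝ × ℝ → ℂ) (τ, y) = (w : ℝ × ℝ → ℂ) (τ', y) := by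
  have h1 : ∀ t : ℝ, HasDerivAt (fun t : ℝ => (w : ℝ × ℝ → ℂ) (t, y)) 0 t := by
    intro t
    have h2 : HasFDerivAt (w : ℝ × ℝ → ℂ) (fderiv ℝ (w : ℝ × ℝ → ℂ) (t, y)) (t, y) :=
      (w.2.1.differentiable (by simp) (t, y)).hasFDerivAt
    have h3 : HasDerivAt (fun t : ℝ => ((t, y) : ℝ × ℝ)) (1, 0) t :=
      (hasDerivAt_id t).prodMk (hasDerivAt_const t y)
    have h4 := h2.comp_hasDerivAt t h3
    have h5 : fderiv ℝ (w : ℝ × ℝ → ℂ) (t, y) (1, 0) = 0 := by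
      have h6 := X2_apply w (t, y)
      rw [h] at h6
      have h7 : (0 : ℂ) = (gx t : ℂ) * fderiv ℝ (w : ℝ × ℝ → ℂ) (t, y) (1, 0) := h6
      have h8 : (gx t : ℂ) ≠ 0 := by
        exact_mod_cast (gx_pos t).ne'
      rcases mul_eq_zero.1 h7.symm with h9 | h9
      · exact absurd h9 h8
      · exact h9
    rw [h5] at h4
    exact h4
  exact is_const_of_deriv_eq_zero (fun t => (h1 t).differentiableAt) (fun t => (h1 t).deriv) τ τ'

theorem cl5_comm (f : C2) : X2 (Y2 f) = Y2 (X2 f) := by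
  have h := congrArg (fun P : Module.End ℂ C2 => P f) XY_comm
  exact h

theorem clC {K D : Module.End ℂ C2} (hD : OL fr2 2 (D - Dpr2)) (hK : OL fr2 2 K)
    (h : D * K = K * D) : ∃ (κ : ℂ) (v : C2), K = κ • dv Y2 + mo v := by
  obtain ⟨vx, vy, v0, rfl⟩ := OL2_form hK
  -- the equations of order two
  have hE : OL fr2 2 ((D - Dpr2) * (mo vx * dv X2 + mo vy * dv Y2 + mo v0) -
      (mo vx * dv X2 + mo vy * dv Y2 + mo v0) * (D - Dpr2)) :=
    OL_comm (m := 1) (k := 1) fr2_comm hD hK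
  have htop := topDK vx vy v0
  have h2 : OL fr2 2 (mo (cC (2 * nu ^ 2) * io laS * (X2 vx - io rhoS * vx)) * (dv X2 * dv X2) +
        mo (cC (2 * nu ^ 2) * io laS * (X2 vy + Y2 vx)) * (dv X2 * dv Y2) +
        mo (cC (2 * nu ^ 2) * io laS * (Y2 vy - io rhoS * vx)) * (dv Y2 * dv Y2)) := by
    have h3 := OL_neg (OL.add hE htop)
    refine (congrArg (OL fr2 2) ?_).mp h3
    have s1 : (D - Dpr2) * (mo vx * dv X2 + mo vy * dv Y2 + mo v0) =
      D * (mo vx * dv X2 + mo vy * dv Y2 + mo v0) -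
        Dpr2 * (mo vx * dv X2 + mo vy * dv Y2 + mo v0) := LinearMap.ext fun f => rfl
    have s2 : (mo vx * dv X2 + mo vy * dv Y2 + mo v0) * (D - Dpr2) =
      (mo vx * dv X2 + mo vy * dv Y2 + mo v0) * D -
        (mo vx * dv X2 + mo vy * dv Y2 + mo v0) * Dpr2 :=
      LinearMap.ext fun f => map_sub (mo vx * dv X2 + mo vy * dv Y2 + mo v0) (D f) (Dpr2 f)
    rw [s1, s2, h]
    abel
  obtain ⟨e1, e2, e3⟩ := top2_zero h2
  have hu : IsUnit (cC (2 * nu ^ 2) * io laS) := by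
    have hnu : nu ≠ 0 := by
      unfold nu
      have := Real.pi_ne_zero
      simp [this]
    refine IsUnit.mul ?_ (laS_unit.map io)
    exact (isUnit_iff_ne_zero.2 (mul_ne_zero two_ne_zero (pow_ne_zero 2 hnu))).map
      (algebraMap ℂ C2)
  have a1 : X2 vx = io rhoS * vx := sub_eq_zero.1 ((hu.mul_right_eq_zero).1 e1)
  have a2 : X2 vy = -Y2 vx := eq_neg_of_add_eq_zero_left ((hu.mul_right_eq_zero).1 e2)
  have a3 : Y2 vy = io rhoS * vx := sub_eq_zero.1 ((hu.mul_right_eq_zero).1 e3)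
  -- consequences
  have b1 : -Y2 (Y2 vx) = io (X1 rhoS + rhoS * rhoS) * vx := by
    have c1 := cl5_comm vy
    rw [a2, a3, map_neg, Derivation.leibniz, X2_io, a1] at c1
    simp only [smul_eq_mul] at c1
    rw [← c1, map_add, map_mul]
    ring
  have b2 : io (X1 (X1 rhoS + rhoS * rhoS)) * vx = 0 := by
    have c1 := congrArg X2 b1
    rw [map_neg, cl5_comm, cl5_comm, a1, Derivation.leibniz, Derivation.leibniz, Y2_io, X2_io,
      a1] at c1
    simp only [smul_eq_mul, mul_zero, add_zero] at c1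
    rw [Derivation.leibniz, Y2_io] at c1
    simp only [smul_eq_mul, mul_zero, add_zero] at c1
    linear_combination (-1 : C2) * c1 + io rhoS * b1
  -- vx vanishes on one circle
  obtain ⟨τ₀, hτ₀⟩ := rho2_nonconst
  have b3 : ∀ y : ℝ, (vx : ℝ × ℝ → ℂ) (τ₀, y) = 0 := by
    intro y
    have c1 := congrArg (fun f : C2 => (f : ℝ × ℝ → ℂ) (τ₀, y)) b2
    have c2 : (X1 (X1 rhoS + rhoS * rhoS) : ℝ → ℂ) τ₀ * (vx : ℝ × ℝ → ℂ) (τ₀, y) = 0 := c1
    rcases mul_eq_zero.1 c2 with c3 | c3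
    · exact absurd c3 hτ₀
    · exact c3
  -- w = vx / hd
  obtain ⟨hv, hhv⟩ := hdS_unit.exists_right_inv
  obtain ⟨w, hw⟩ : ∃ w : C2, w = io hv * vx := ⟨_, rfl⟩
  have b4 : io hdS * w = vx := by
    rw [hw, ← mul_assoc, ← map_mul, hhv, map_one, one_mul]
  have b5 : X2 w = 0 := by
    have c1 := congrArg X2 b4
    rw [Derivation.leibniz, X2_io, X1_hdS, a1, map_mul io] at c1
    simp only [smul_eq_mul] at c1
    have c2 : io hdS * X2 w = 0 := by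
      linear_combination c1 - io rhoS * b4
    exact ((hdS_unit.map io).mul_right_eq_zero).1 c2
  have b6 : vx = 0 := by
    refine Subtype.ext (funext fun q => ?_)
    obtain ⟨τ, y⟩ := q
    have c1 := cl5_X2w b5 τ τ₀ y
    have c2 : (w : ℝ × ℝ → ℂ) (τ₀, y) = 0 := by
      rw [hw]
      change (hv : ℝ → ℂ) τ₀ * (vx : ℝ × ℝ → ℂ) (τ₀, y) = 0
      rw [b3 y, mul_zero]
    have c3 := congrArg (fun f : C2 => (f : ℝ × ℝ → ℂ) (τ, y)) b4
    have c4 : (hdS : ℝ → ℂ) τ * (w : ℝ × ℝ → ℂ) (τ, y) = (vx : ℝ × ℝ → ℂ) (τ, y) := c3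
    rw [← c4, c1, c2, mul_zero]
    rfl
  subst b6
  rw [map_zero, neg_zero] at a2
  rw [mul_zero] at a3
  obtain ⟨κ, hκ⟩ := C2_const a2 a3
  refine ⟨κ, v0, ?_⟩
  rw [hκ, mo_zero, zero_mul, zero_add]
  congr 1

end H99.EQ
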