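import Pool.Agent.H99.EQ.R6

/-!
# EQ-R7: restriction of operators to `σ = 0`

Job EQ-R7. `Rs P f = res (P (io3 f))`. By `hadamard` (R6) every `g : C3` is
`g = io3 (res g) + (s3 - s₁) * k`, so if `P` commutes with `mo s3` then
`res (P g) = res (P (io3 (res g))) = Rs P (res g)`; this gives `Rs (P * Q) = Rs P * Rs Q`.
`OL_Rs`: induction on `OL fr3 m P`: `Rs (P * dv S3) = 0` (`S3_io3`),
`Rs (P * dv X3) = Rs P * dv X2` (`X3_io3`), `Rs (P * dv Y3) = Rs P * dv Y2`, `Rs (mo f) =
mo (res f)`.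
`adS P = dv S3 * P - P * dv S3` commutes with `mo s3` if `P` does (`S3_s3`).
-/

set_option autoImplicit false

open Complex
open scoped ContDiff

noncomputable section

namespace H99.EQ

section GeneralRing

variable {R : Type*} [Ring R]

theorem adr_mul (D P Q : R) :
    D * (P * Q) - (P * Q) * D = (D * P - P * D) * Q + P * (D * Q - Q * D) := by
  noncomm_ring

theorem adr_add (D P Q : R) :
    D * (P + Q) - (P + Q) * D = (D * P - P * D) + (D * Q - Q * D) := by
  noncomm_ring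

theorem adr_zero (D : R) : D * 0 - 0 * D = 0 := by
  rw [mul_zero, zero_mul, sub_self]

theorem adr_of_comm {D P : R} (h : D * P = P * D) : D * P - P * D = 0 := by
  rw [h, sub_self]

theorem adr_comm {D P m : R} (hP : P * m = m * P) (h1 : D * m = m * D + 1) :
    (D * P - P * D) * m = m * (D * P - P * D) := by
  calc (D * P - P * D) * m
      = D * (P * m) - P * (D * m) := by noncomm_ring
    _ = D * (m * P) - P * (m * D + 1) := by rw [hP, h1]
    _ = (D * m) * P - (P * m) * D - P := by noncomm_ring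
    _ = (m * D + 1) * P - (m * P) * D - P := by rw [h1, hP]
    _ = m * (D * P - P * D) := by noncomm_ring

end GeneralRing

section General

variable {C : Type*} [CommRing C] [Algebra ℂ C]

theorem adg_mul (D P Q : Module.End ℂ C) :
    D * (P * Q) - (P * Q) * D = (D * P - P * D) * Q + P * (D * Q - Q * D) :=
  adr_mul D P Q

theorem adg_add (D P Q : Module.End ℂ C) :
    D * (P + Q) - (P + Q) * D = (D * P - P * D) + (D * Q - Q * D) :=
  adr_add D P Q

theorem adg_zero (D : Module.End ℂ C) : D * 0 - 0 * D = 0 :=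
  adr_zero D

theorem adg_of_comm {D P : Module.End ℂ C} (h : D * P = P * D) : D * P - P * D = 0 :=
  adr_of_comm h

theorem adg_mo (D : Derivation ℂ C C) (f : C) : dv D * mo f - mo f * dv D = mo (D f) := by
  rw [dv_mo, add_sub_cancel_left]

theorem adg_comm {D P m : Module.End ℂ C} (hP : P * m = m * P) (h1 : D * m = m * D + 1) :
    (D * P - P * D) * m = m * (D * P - P * D) :=
  adr_comm hP h1

end General

/-- an operator commuting with `mo s3` is compatible with the restriction -/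
theorem res_of_comm {P : Module.End ℂ C3} (hP : P * mo s3 = mo s3 * P) (g : C3) :
    res (P g) = res (P (io3 (res g))) := by
  have h0 : res (g - io3 (res g)) = 0 := by
    rw [map_sub, res_io3, sub_self]
  obtain ⟨k, hk⟩ := hadamard h0
  have h1 : g = io3 (res g) + (s3 - algebraMap ℂ C3 ((sg 0 : ℝ) : ℂ)) * k := by
    rw [← hk]; ring
  have h2 : P (s3 * k) = s3 * P k := by
    have := congrArg (fun R : Module.End ℂ C3 => R k) hP
    simpa using this
  have h3 : (s3 - algebraMap ℂ C3 ((sg 0 : ℝ) : ℂ)) * k =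
      s3 * k - ((sg 0 : ℝ) : ℂ) • k := by
    rw [sub_mul, Algebra.smul_def]
  have h4 : P g = P (io3 (res g)) + (s3 * P k - ((sg 0 : ℝ) : ℂ) • P k) := by
    conv_lhs => rw [h1]
    rw [map_add, h3, map_sub, h2, map_smul]
  rw [h4, map_add, map_sub, map_mul, res_s3, map_smul, Algebra.smul_def, sub_self, add_zero]

theorem Rs_mul {P Q : Module.End ℂ C3} (hP : P * mo s3 = mo s3 * P) :
    Rs (P * Q) = Rs P * Rs Q := by
  apply LinearMap.ext
  intro f
  rw [Module.End.mul_apply, Rs_apply, Rs_apply, Rs_apply, Module.End.mul_apply]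
  exact res_of_comm hP (Q (io3 f))

theorem Rs_mo (f : C3) : Rs (mo f) = mo (res f) := by
  apply LinearMap.ext
  intro g
  rw [Rs_apply, mo_apply, mo_apply, map_mul, res_io3]

theorem Rs_mo_mul (f : C3) (P : Module.End ℂ C3) : Rs (mo f * P) = mo (res f) * Rs P := by
  apply LinearMap.ext
  intro g
  rw [Module.End.mul_apply, Rs_apply, Rs_apply, Module.End.mul_apply, mo_apply, mo_apply, map_mul]

theorem Rs_X3 (P : Module.End ℂ C3) : Rs (P * dv X3) = Rs P * dv X2 := by
  apply LinearMap.ext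
  intro g
  rw [Module.End.mul_apply, Rs_apply, Rs_apply, Module.End.mul_apply, dv_apply, dv_apply, X3_io3]

theorem Rs_Y3 (P : Module.End ℂ C3) : Rs (P * dv Y3) = Rs P * dv Y2 := by
  apply LinearMap.ext
  intro g
  rw [Module.End.mul_apply, Rs_apply, Rs_apply, Module.End.mul_apply, dv_apply, dv_apply, Y3_io3]

theorem Rs_S3 (P : Module.End ℂ C3) : Rs (P * dv S3) = 0 := by
  apply LinearMap.ext
  intro g
  rw [Rs_apply, Module.End.mul_apply, dv_apply, S3_io3, map_zero, map_zero, LinearMap.zero_apply]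

theorem OL_Rs {m : ℕ} {P : Module.End ℂ C3} (hP : OL fr3 m P) : OL fr2 m (Rs P) := by
  induction hP with
  | zero m => rw [map_zero]; exact OL.zero m
  | mo f => rw [Rs_mo]; exact OL.mo _
  | add _ _ ih1 ih2 => rw [map_add]; exact OL.add ih1 ih2
  | up _ ih => exact OL.up ih
  | @comp m P i _ ih =>
    fin_cases i
    · have h : Rs (P * dv (fr3 0)) = 0 := Rs_S3 P
      change OL fr2 (m + 2) (Rs (P * dv (fr3 0)))
      rw [h]; exact OL.zero _
    · have h : Rs (P * dv (fr3 1)) = Rs P * dv (fr2 0) := Rs_X3 P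
      change OL fr2 (m + 2) (Rs (P * dv (fr3 1)))
      rw [h]; exact OL.comp 0 ih
    · have h : Rs (P * dv (fr3 2)) = Rs P * dv (fr2 1) := Rs_Y3 P
      change OL fr2 (m + 2) (Rs (P * dv (fr3 2)))
      rw [h]; exact OL.comp 1 ih

theorem Rs_vX : Rs (dv X3) = dv X2 := by
  have h := Rs_X3 1
  have h1 : Rs (1 : Module.End ℂ C3) = 1 := by
    apply LinearMap.ext
    intro g
    rfl
  rwa [one_mul, h1, one_mul] at h

theorem Rs_vY : Rs (dv Y3) = dv Y2 := by
  have h := Rs_Y3 1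
  have h1 : Rs (1 : Module.End ℂ C3) = 1 := by
    apply LinearMap.ext
    intro g
    rfl
  rwa [one_mul, h1, one_mul] at h

theorem Rs_Dpr3 : Rs Dpr3 = Dpr2 := by
  rw [Dpr3, Dpr2, Rs_mo_mul, res_io3, map_add, Rs_X3, Rs_Y3, Rs_vX, Rs_vY]

theorem Rs_Spr3 : Rs Spr3 = Spr2 := by
  have h1 : Rs (mo (io3 (io laS)) * (dv X3 * dv X3 * dv X3) +
      mo (io3 (io (laS + zS))) * (dv X3 * dv Y3 * dv Y3)) =
      mo (io laS) * (dv X2 * dv X2 * dv X2) + mo (io (laS + zS)) * (dv X2 * dv Y2 * dv Y2) := by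
    rw [map_add Rs, Rs_mo_mul (io3 (io laS)), Rs_mo_mul (io3 (io (laS + zS))), res_io3, res_io3,
      Rs_X3, Rs_X3, Rs_Y3, Rs_Y3, Rs_vX]
  have h2 : Rs (mo (io3 (io (hhS * laS))) * (dv X3 * dv X3 * dv Y3) +
      mo (io3 (io (hhS * laS - zS))) * (dv Y3 * dv Y3 * dv Y3)) =
      mo (io (hhS * laS)) * (dv X2 * dv X2 * dv Y2) +
        mo (io (hhS * laS - zS)) * (dv Y2 * dv Y2 * dv Y2) := by
    rw [map_add Rs, Rs_mo_mul (io3 (io (hhS * laS))), Rs_mo_mul (io3 (io (hhS * laS - zS))),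
      res_io3, res_io3, Rs_Y3, Rs_X3, Rs_vX, Rs_Y3, Rs_Y3, Rs_vY]
  rw [Spr3, Spr2, map_add Rs, Rs_mo_mul (io3 (cC (nu ^ 3) * (io hdS * cosY))),
    Rs_mo_mul (io3 (cC (nu ^ 3) * (io hdS * sinY))), res_io3, res_io3, h1, h2]

theorem Rs_Lpr3 : Rs Lpr3 = 0 := by
  have h : res ((s3 - algebraMap ℂ C3 ((sg 0 : ℝ) : ℂ)) * algebraMap ℂ C3 nu) = 0 := by
    rw [map_mul, map_sub, res_s3]
    have : res (algebraMap ℂ C3 ((sg 0 : ℝ) : ℂ)) = algebraMap ℂ C2 ((sg 0 : ℝ) : ℂ) :=
      res.commutes _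
    rw [this, sub_self, zero_mul]
  rw [Lpr3, Rs_mo_mul, h, mo_zero, zero_mul]

/-- the derivative of a family of operators with respect to the parameter `s` -/
def adS (P : Module.End ℂ C3) : Module.End ℂ C3 := dv S3 * P - P * dv S3

theorem adS_comm {P : Module.End ℂ C3} (hP : P * mo s3 = mo s3 * P) :
    adS P * mo s3 = mo s3 * adS P := by
  have h1 : dv S3 * mo s3 = mo s3 * dv S3 + 1 := by
    rw [dv_mo, S3_s3, mo_one]
  exact adg_comm hP h1

theorem adS_mul (P Q : Module.End ℂ C3) : adS (P * Q) = adS P * Q + P * adS Q :=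
  adg_mul (dv S3) P Q

theorem adS_mo (f : C3) : adS (mo f) = mo (S3 f) :=
  adg_mo S3 f

theorem adS_add (P Q : Module.End ℂ C3) : adS (P + Q) = adS P + adS Q :=
  adg_add (dv S3) P Q

theorem adS_zero : adS 0 = 0 :=
  adg_zero (dv S3)

theorem adS_X3 : adS (dv X3) = 0 :=
  adg_of_comm (fr3_comm 0 1)

theorem adS_Y3 : adS (dv Y3) = 0 :=
  adg_of_comm (fr3_comm 0 2)

theorem adS_Dpr3 : adS Dpr3 = 0 := by
  rw [Dpr3, adS_mul, adS_mo, S3_io3, mo_zero, zero_mul, adS_add, adS_mul, adS_mul, adS_X3, adS_Y3]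
  simp

theorem adS_Lpr3 : adS Lpr3 = nu • dv Y3 := by
  have h : S3 ((s3 - algebraMap ℂ C3 ((sg 0 : ℝ) : ℂ)) * algebraMap ℂ C3 nu) =
      algebraMap ℂ C3 nu := by
    rw [Derivation.leibniz, Derivation.map_algebraMap, smul_zero, zero_add, map_sub, S3_s3,
      Derivation.map_algebraMap, sub_zero, smul_eq_mul, mul_one]
  have h2 : mo (algebraMap ℂ C3 nu) = nu • (1 : Module.End ℂ C3) := by
    apply LinearMap.ext
    intro g
    rw [mo_apply, ← Algebra.smul_def]
    rfl
  rw [Lpr3, adS_mul, adS_mo, h, adS_Y3, mul_zero, add_zero, h2, smul_mul_assoc, one_mul]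

theorem adS_fr3 (i : Fin 3) : adS (dv (fr3 i)) = 0 :=
  adg_of_comm (fr3_comm 0 i)

theorem OL_adS {m : ℕ} {P : Module.End ℂ C3} (hP : OL fr3 m P) : OL fr3 m (adS P) := by
  induction hP with
  | zero m => rw [adS_zero]; exact OL.zero m
  | mo f => rw [adS_mo]; exact OL.mo _
  | add _ _ ih1 ih2 => rw [adS_add]; exact OL.add ih1 ih2
  | up _ ih => exact OL.up ih
  | comp i _ ih =>
    rw [adS_mul, adS_fr3, mul_zero, add_zero]
    exact OL.comp i ih

end H99.EQ
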