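import Pool.Agent.H99.EQ.CL3
import Pool.Agent.H99.EQ.CL4
import Pool.Agent.H99.EQ.CL5
import Pool.Agent.H99.EQ.R7
import Pool.Agent.H99.EQ.O5

/-!
# EQ-CL6: the closure argument (paper proof section 3.2)

Job EQ-CL6. `A, K : ℕ → End C3` commute with `mo s3`; so `Rs` is multiplicative on all products of
the `A i`, `K j`, `adS (A i)`, ... (`Rs_mul`, `adS_comm`). `hcomm W` is the equation (E_W):
(E2) `[A₁,K₁] = 0`; (E3) `[A₁,K₂]+[A₂,K₁] = 0`; (E4) `[A₁,K₃]+[A₂,K₂]+[A₃,K₁] = 0`;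
(E5) `[A₁,K₄]+[A₂,K₃]+[A₃,K₂]+[A₄,K₁] = 0` (`A₀ = K₀ = 0`).
Write `A₁ = mo α`, `K₁ = Lpr3 + mo β`. (E2): `(s3 - s₁) ν Y3 α = 0`, so `Y3 α = 0` (`s3 - s₁`
vanishes only at `σ = 0`; continuity; or cancel using evaluation at `σ ≠ 0`).
`a := res α`, `b := res (S3 α)`, `b' := res (S3 (S3 α))` satisfy `Y2 _ = 0`
(`res_Y3`, `S3` and `Y3` commute). `D := Rs A₂`, `K2 := Rs K₂`, `K3 := Rs K₃`,
`c := res β`, `e := res (S3 β)`, `c₂ := res (S3 (S3 β))`; `Rs K₁ = mo c`,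
`Rs (adS K₁) = ν • dv Y2 + mo e =: L`, `Rs (adS (adS K₁)) = mo c₂`, `Rs (adS A₁) = mo b`.
1. `Rs` of (E3): `[a, K2] + [D, c] = 0`, `clA`: `c` constant; hence `[a, K2] = 0`.
2. `Rs` of (E4): `[a, K3] + [D, K2] = 0` (`[A₃, c] = 0`), `clB`: `a` constant, so `[D, K2] = 0`,
   `clC`: `K2 = κ₀ • dv Y2 + mo v`.
3. `Rs (adS (E3))`: `[b, K2] + [a, _] + [_, c] + [D, L] = 0`, `[b, K2] = 0` (`Y2 b = 0`), so
   `D L = L D`. Put `κ := κ₀/ν`; `K2 - κ L = mo (v - κ e)` commutes with `D`, by `clA` (with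
   `a = 0`) it is a constant: `K2 = κ L + c'`.
4. `Rs (adS (E4))`: `[b, K3] + κ [D', L] + [D, K2'] + κ·0 + [A3, L] = 0` with
   `D' = Rs (adS A₂)`, `K2' = Rs (adS K₂)`, `A3 = Rs A₃`.
   `Rs (adS (adS (E3)))`: `[b', K2] + 2 [b, K2'] + 2 [D', L] + [D, c₂] = 0`, `[b', K2] = 0`.
   `Rs (E5)`: `[D, K3] + κ [A3, L] = 0`.
   (E5) `- κ` (first) `+ κ²/2` (second): `[D - κ b, K3 - κ K2' + (κ²/2) c₂] = 0`.
Result: `D := D - κ b`, `T := K3 - κ K2' + (κ²/2) c₂`, `e`. (`OL_Rs`, `OL_adS`, `Rs_Dpr3`,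
`Rs_Spr3`.)
-/

set_option autoImplicit false

open Complex
open scoped ContDiff

noncomputable section

namespace H99.EQ

/-! ### generic ring lemmas (used through `exact`, the instances on `End` are only defeq) -/

section cl6gen

variable {R : Type*} [Ring R]

theorem cl6_g1 (s p q : R) : s * (p - q) - (p - q) * s = (s * p - p * s) - (s * q - q * s) := by
  noncomm_ring

theorem cl6_g2 (s p q : R) : s * (p + q) - (p + q) * s = (s * p - p * s) + (s * q - q * s) := by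
  noncomm_ring

theorem cl6_g3 (s : R) : s * 0 - 0 * s = 0 := by simp

theorem cl6_g4 {z : R} (k : R) (h : z = 0) : z * k - k * z = 0 := by rw [h]; simp

theorem cl6_g5 {z : R} (k : R) (h : z = 0) : k * z - z * k = 0 := by rw [h]; simp

theorem cl6_g6 {x l m : R} (h : x - l = m) : x = l + m := by rw [← h]; abel

theorem cl6_sum2 {f : ℕ → ℕ → R} (h0 : ∀ j, f 0 j = 0) (h1 : ∀ j, f j 0 = 0)
    (h : ∑ vw ∈ Finset.HasAntidiagonal.antidiagonal 2, f vw.1 vw.2 = 0) : f 1 1 = 0 := by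
  rw [Finset.Nat.sum_antidiagonal_eq_sum_range_succ_mk] at h
  simpa [Finset.sum_range_succ, h0, h1] using h

theorem cl6_sum3 {f : ℕ → ℕ → R} (h0 : ∀ j, f 0 j = 0) (h1 : ∀ j, f j 0 = 0)
    (h : ∑ vw ∈ Finset.HasAntidiagonal.antidiagonal 3, f vw.1 vw.2 = 0) :
    f 1 2 + f 2 1 = 0 := by
  rw [Finset.Nat.sum_antidiagonal_eq_sum_range_succ_mk] at h
  simpa [Finset.sum_range_succ, h0, h1] using h

theorem cl6_sum4 {f : ℕ → ℕ → R} (h0 : ∀ j, f 0 j = 0) (h1 : ∀ j, f j 0 = 0)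
    (h : ∑ vw ∈ Finset.HasAntidiagonal.antidiagonal 4, f vw.1 vw.2 = 0) :
    f 1 3 + f 2 2 + f 3 1 = 0 := by
  rw [Finset.Nat.sum_antidiagonal_eq_sum_range_succ_mk] at h
  simpa [Finset.sum_range_succ, h0, h1] using h

theorem cl6_sum5 {f : ℕ → ℕ → R} (h0 : ∀ j, f 0 j = 0) (h1 : ∀ j, f j 0 = 0)
    (h : ∑ vw ∈ Finset.HasAntidiagonal.antidiagonal 5, f vw.1 vw.2 = 0) :
    f 1 4 + f 2 3 + f 3 2 + f 4 1 = 0 := by
  rw [Finset.Nat.sum_antidiagonal_eq_sum_range_succ_mk] at h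
  simpa [Finset.sum_range_succ, h0, h1] using h

theorem cl6_E2 (a g y b ya : R) (hag : a * g = g * a) (hab : a * b = b * a)
    (hy : y * a = a * y + ya) (h : a * (g * y + b) - (g * y + b) * a = 0) : g * ya = 0 := by
  have h1 : a * (g * y + b) - (g * y + b) * a = -(g * ya) := by
    rw [mul_add, add_mul, mul_assoc g y a, hy, hab, ← mul_assoc a g y, hag]
    noncomm_ring
  rw [h1] at h
  exact neg_eq_zero.mp h

theorem cl6_g7 (p q r t : R) : (p * q + r * t) - (t * r + q * p) =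
    (p * q - q * p) + (r * t - t * r) := by
  noncomm_ring

theorem cl6_d1 {a K D c : R} (hc : ∀ X, c * X = X * c)
    (h : (a * K - K * a) + (D * c - c * D) = 0) : a * K = K * a := by
  rw [← hc D, sub_self, add_zero] at h
  exact sub_eq_zero.mp h

theorem cl6_d2 {a K3 D K2 A3 c : R} (hc : ∀ X, c * X = X * c)
    (h : (a * K3 - K3 * a) + (D * K2 - K2 * D) + (A3 * c - c * A3) = 0) :
    (a * K3 - K3 * a) + (D * K2 - K2 * D) = 0 := by
  rw [← hc A3, sub_self, add_zero] at h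
  exact h

theorem cl6_d3 {a K3 D K2 : R} (ha : ∀ X, a * X = X * a)
    (h : (a * K3 - K3 * a) + (D * K2 - K2 * D) = 0) : D * K2 = K2 * D := by
  rw [ha K3, sub_self, zero_add] at h
  exact sub_eq_zero.mp h

theorem cl6_d4 {a b c K2 K2' D D' L : R} (ha : ∀ X, a * X = X * a) (hc : ∀ X, c * X = X * c)
    (hb : b * K2 = K2 * b)
    (h : ((b * K2 - K2 * b) + (a * K2' - K2' * a)) + ((D' * c - c * D') + (D * L - L * D)) = 0) :
    D * L = L * D := by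
  rw [hb, sub_self, ha, sub_self, ← hc D', sub_self, zero_add, zero_add, zero_add] at h
  exact sub_eq_zero.mp h

end cl6gen

section cl6genC

variable {R : Type*} [Ring R] [Algebra ℂ R]

theorem cl6_alg (D D' K3 K2' L A3 b c2 : R) (κ : ℂ)
    (h1 : (b * K3 - K3 * b) + κ • (D' * L - L * D') + (D * K2' - K2' * D) +
      (A3 * L - L * A3) = 0)
    (h2 : (2 : ℂ) • (b * K2' - K2' * b) + (2 : ℂ) • (D' * L - L * D') + (D * c2 - c2 * D) = 0)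
    (h3 : (D * K3 - K3 * D) + κ • (A3 * L - L * A3) = 0) (h4 : b * c2 = c2 * b) :
    (D - κ • b) * (K3 - κ • K2' + (κ ^ 2 / 2) • c2) =
      (K3 - κ • K2' + (κ ^ 2 / 2) • c2) * (D - κ • b) := by
  rw [← sub_eq_zero]
  have key : (D - κ • b) * (K3 - κ • K2' + (κ ^ 2 / 2) • c2) -
      (K3 - κ • K2' + (κ ^ 2 / 2) • c2) * (D - κ • b) =
      ((D * K3 - K3 * D) + κ • (A3 * L - L * A3)) -
      κ • ((b * K3 - K3 * b) + κ • (D' * L - L * D') + (D * K2' - K2' * D) +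
        (A3 * L - L * A3)) +
      (κ ^ 2 / 2) • ((2 : ℂ) • (b * K2' - K2' * b) + (2 : ℂ) • (D' * L - L * D') +
        (D * c2 - c2 * D)) - (κ ^ 3 / 2) • (b * c2 - c2 * b) := by
    simp only [mul_add, mul_sub, add_mul, sub_mul, smul_mul_assoc, mul_smul_comm]
    module
  rw [key, h1, h2, h3, h4, sub_self]
  simp

theorem cl6_fin (a b b2 c c2 D D' D'' K2 K2' K2'' K3 K3' K4 L A3 A3' A4 m : R) (κ : ℂ)
    (ha : ∀ X, a * X = X * a) (hc : ∀ X, c * X = X * c) (hb2 : b2 * K2 = K2 * b2)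
    (hm : ∀ X, m * X = X * m) (hK : K2 = κ • L + m)
    (F5 : (a * K4 - K4 * a) + (D * K3 - K3 * D) + (A3 * K2 - K2 * A3) + (A4 * c - c * A4) = 0)
    (G4 : ((b * K3 - K3 * b) + (a * K3' - K3' * a)) + ((D' * K2 - K2 * D') +
      (D * K2' - K2' * D)) + ((A3' * c - c * A3') + (A3 * L - L * A3)) = 0)
    (H3 : (((b2 * K2 - K2 * b2) + (b * K2' - K2' * b)) +
        ((b * K2' - K2' * b) + (a * K2'' - K2'' * a))) +
      (((D'' * c - c * D'') + (D' * L - L * D')) +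
        ((D' * L - L * D') + (D * c2 - c2 * D))) = 0)
    (hbc : b * c2 = c2 * b) :
    (D - κ • b) * (K3 - κ • K2' + (κ ^ 2 / 2) • c2) =
      (K3 - κ • K2' + (κ ^ 2 / 2) • c2) * (D - κ • b) := by
  have hX : ∀ X, X * K2 - K2 * X = κ • (X * L - L * X) := fun X => by
    rw [hK, mul_add, add_mul, hm, mul_smul_comm, smul_mul_assoc, smul_sub]
    abel
  rw [ha, sub_self, zero_add, hX, ← hc A4, sub_self, add_zero] at F5
  rw [ha, sub_self, add_zero, hX, ← hc A3', sub_self, zero_add, ← add_assoc] at G4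
  rw [hb2, sub_self, zero_add, ha, sub_self, add_zero, ← hc D'', sub_self, zero_add] at H3
  refine cl6_alg D D' K3 K2' L A3 b c2 κ G4 ?_ F5 hbc
  rw [← H3, two_smul, two_smul]
  abel

theorem cl6_d5 {b K v : R} {κ : ℂ} {Y : R} (hbY : b * Y = Y * b) (hbv : b * v = v * b)
    (hK : K = κ • Y + v) : b * K = K * b := by
  rw [hK, mul_add, add_mul, mul_smul_comm, smul_mul_assoc, hbY, hbv]

/-- `K₂ = κ₀ Y + v`, `L = ν Y + e`, `κ ν = κ₀`: `K₂ = κ L + (v - κ e)` -/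
theorem cl6_d6 {K Y v e : R} {κ₀ κ n : ℂ} (hκ : κ * n = κ₀) (hK : K = κ₀ • Y + v) :
    K = κ • (n • Y + e) + (v - κ • e) := by
  rw [hK, smul_add, smul_smul, hκ]; abel

theorem cl6_d7 {D K L x z : R} {κ : ℂ} (hDK : D * K = K * D) (hDL : D * L = L * D)
    (hK : K = κ • L + x) (hz : ∀ X, z * X = X * z) : (z * K - K * z) + (D * x - x * D) = 0 := by
  have hx : x = K - κ • L := by rw [hK]; abel
  rw [hz, sub_self, zero_add, hx, mul_sub, sub_mul, mul_smul_comm, smul_mul_assoc, hDK, hDL,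
    sub_self]

theorem cl6_d8 {D L b : R} {κ : ℂ} (hDL : D * L = L * D) (hb : b * L = L * b) :
    (D - κ • b) * L = L * (D - κ • b) := by
  rw [sub_mul, mul_sub, hDL, smul_mul_assoc, mul_smul_comm, hb]

theorem cl6_d9 (D b P : R) (κ : ℂ) : D - κ • b - P = (D - P) - κ • b := by abel

theorem cl6_d10 (K K' c P : R) (κ μ : ℂ) :
    K - κ • K' + μ • c - P = (K - P) - κ • K' + μ • c := by abel

theorem cl6_d11 {x y : R} (h : x * y = y * x) : x * (nu • y) - (nu • y) * x = 0 := by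
  rw [smul_mul_assoc, mul_smul_comm, h, sub_self]

end cl6genC

/-! ### the operators -/

theorem cl6_moC (c : ℂ) (P : Module.End ℂ C2) : mo (cC c) * P = P * mo (cC c) := by
  apply LinearMap.ext
  intro x
  simp only [Module.End.mul_apply, mo_apply]
  rw [← Algebra.smul_def, ← Algebra.smul_def, map_smul]

theorem cl6_adS_add (P Q : Module.End ℂ C3) : adS (P + Q) = adS P + adS Q :=
  cl6_g2 (dv S3) P Q

theorem cl6_adS_sub (P Q : Module.End ℂ C3) : adS (P - Q) = adS P - adS Q :=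
  cl6_g1 (dv S3) P Q

theorem cl6_adS_zero : adS (0 : Module.End ℂ C3) = 0 :=
  cl6_g3 (dv S3)

theorem cl6_Rs_sub (P Q : Module.End ℂ C3) : Rs (P - Q) = Rs P - Rs Q := by
  apply LinearMap.ext
  intro x
  rw [Rs_apply, LinearMap.sub_apply, LinearMap.sub_apply, map_sub, Rs_apply, Rs_apply]

theorem cl6_adS_comm (P Q : Module.End ℂ C3) :
    adS (P * Q - Q * P) = (adS P * Q - Q * adS P) + (P * adS Q - adS Q * P) := by
  rw [cl6_adS_sub, adS_mul, adS_mul]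
  exact cl6_g7 (R := Module.End ℂ C3) _ _ _ _

theorem cl6_Rs_comm {P Q : Module.End ℂ C3} (hP : P * mo s3 = mo s3 * P)
    (hQ : Q * mo s3 = mo s3 * Q) :
    Rs (P * Q - Q * P) = Rs P * Rs Q - Rs Q * Rs P := by
  rw [cl6_Rs_sub, Rs_mul hP, Rs_mul hQ]

theorem cl6_Rs_one : Rs (1 : Module.End ℂ C3) = 1 := by
  apply LinearMap.ext
  intro x
  rw [Rs_apply]
  exact res_io3 x

/-- a function `b` with `Y2 b = 0` commutes with `Y` -/
theorem cl6_bY {b : C2} (hb : Y2 b = 0) : mo b * dv Y2 = dv Y2 * mo b := by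
  rw [dv_mo, hb, mo_zero, add_zero]

/-- consequences of `(s - s₁) ν Y α = 0` -/
theorem cl6_Yres {g : C3} (h : (s3 - algebraMap ℂ C3 ((sg 0 : ℝ) : ℂ)) * g = 0) :
    res g = 0 ∧ (s3 - algebraMap ℂ C3 ((sg 0 : ℝ) : ℂ)) * S3 g + g = 0 := by
  have h1 : S3 ((s3 - algebraMap ℂ C3 ((sg 0 : ℝ) : ℂ)) * g) = 0 := by rw [h, map_zero]
  rw [Derivation.leibniz, map_sub, S3_s3, Derivation.map_algebraMap, sub_zero, smul_eq_mul,
    smul_eq_mul, mul_one] at h1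
  refine ⟨?_, h1⟩
  have h2 : res ((s3 - algebraMap ℂ C3 ((sg 0 : ℝ) : ℂ)) * S3 g + g) = 0 := by rw [h1, map_zero]
  rw [map_add, map_mul, map_sub, res_s3, AlgHom.commutes, sub_self, zero_mul, zero_add] at h2
  exact h2

/-- differentiate once more -/
theorem cl6_step {g : C3} {m : ℂ}
    (h : (s3 - algebraMap ℂ C3 ((sg 0 : ℝ) : ℂ)) * S3 g + m • g = 0) :
    (m • res g = 0) ∧
      (s3 - algebraMap ℂ C3 ((sg 0 : ℝ) : ℂ)) * S3 (S3 g) + (m + 1) • S3 g = 0 := by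
  constructor
  · have h2 : res ((s3 - algebraMap ℂ C3 ((sg 0 : ℝ) : ℂ)) * S3 g + m • g) = 0 := by
      rw [h, map_zero]
    rw [map_add, map_mul, map_sub, res_s3, AlgHom.commutes, sub_self, zero_mul, zero_add,
      map_smul] at h2
    exact h2
  · have h1 : S3 ((s3 - algebraMap ℂ C3 ((sg 0 : ℝ) : ℂ)) * S3 g + m • g) = 0 := by
      rw [h, map_zero]
    rw [map_add, Derivation.leibniz, map_sub, S3_s3, Derivation.map_algebraMap, sub_zero,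
      smul_eq_mul, smul_eq_mul, mul_one, Derivation.map_smul] at h1
    rw [add_smul, one_smul, ← h1]
    abel

theorem cl6_S3Y3' : dv S3 * dv Y3 = dv Y3 * dv S3 := fr3_comm 0 2

theorem cl6_S3Y3 (f : C3) : S3 (Y3 f) = Y3 (S3 f) :=
  congrArg (fun P : Module.End ℂ C3 => P f) cl6_S3Y3'

/-- `(s - s₁) Y α = 0` implies that `α, S α, S S α` are rotation invariant at `σ = 0` -/
theorem cl6_Yinv {α : C3}
    (h : (s3 - algebraMap ℂ C3 ((sg 0 : ℝ) : ℂ)) * Y3 α = 0) :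
    Y2 (res α) = 0 ∧ Y2 (res (S3 α)) = 0 ∧ Y2 (res (S3 (S3 α))) = 0 := by
  obtain ⟨h0, h1⟩ := cl6_Yres h
  have h1' : (s3 - algebraMap ℂ C3 ((sg 0 : ℝ) : ℂ)) * S3 (Y3 α) + (1 : ℂ) • Y3 α = 0 := by
    rw [one_smul]; exact h1
  obtain ⟨-, h2⟩ := cl6_step h1'
  obtain ⟨h3, h4⟩ := cl6_step h2
  obtain ⟨h5, -⟩ := cl6_step h4
  have e1 : (1 : ℂ) + 1 ≠ 0 := by norm_num
  have e2 : (1 : ℂ) + 1 + 1 ≠ 0 := by norm_num
  have h3' := (smul_eq_zero.mp h3).resolve_left e1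
  have h5' := (smul_eq_zero.mp h5).resolve_left e2
  refine ⟨?_, ?_, ?_⟩
  · rw [← res_Y3]; exact h0
  · rw [← res_Y3, ← cl6_S3Y3]; exact h3'
  · rw [← res_Y3, ← cl6_S3Y3, ← cl6_S3Y3]; exact h5'

/-- the normalised data: sequences commuting with `s`, with the principal parts of
`H` and `(s - s₁) L + S` -/
structure NData (A K : ℕ → Module.End ℂ C3) : Prop where
  hAs : ∀ w, A w * mo s3 = mo s3 * A w
  hKs : ∀ w, K w * mo s3 = mo s3 * K w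
  hcomm : GComm A K
  hA0 : A 0 = 0
  hA1 : OL fr3 1 (A 1)
  hA2 : OL fr3 2 (A 2 - Dpr3)
  hK0 : K 0 = 0
  hK1 : OL fr3 1 (K 1 - Lpr3)
  hK2 : OL fr3 2 (K 2)
  hK3 : OL fr3 3 (K 3 - Spr3)

theorem cl6_Rs_Y3 : Rs (nu • dv Y3) = nu • dv Y2 := by
  rw [map_smul]
  have := Rs_Y3 (1 : Module.End ℂ C3)
  rw [one_mul, cl6_Rs_one, one_mul] at this
  rw [this]

theorem cl6_adS_Y3 : adS (nu • dv Y3) = 0 :=
  cl6_d11 (R := Module.End ℂ C3) (x := dv S3) (y := dv Y3) cl6_S3Y3'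

theorem closure {A K : ℕ → Module.End ℂ C3} (h : NData A K) :
    ∃ (D T : Module.End ℂ C2) (e : C2), OL fr2 2 (D - Dpr2) ∧ OL fr2 3 (T - Spr2) ∧
      D * T = T * D ∧ D * (nu • dv Y2 + mo e) = (nu • dv Y2 + mo e) * D := by
  have hnu : nu ≠ 0 := by
    unfold nu
    simp [Real.pi_ne_zero]
  obtain ⟨hAs, hKs, hcomm, hA0, hA1, hA2, hK0, hK1, hK2, hK3⟩ := h
  -- the functions `α`, `β`
  obtain ⟨α, hα⟩ : ∃ α : C3, A 1 = mo α := ⟨A 1 1, OL_mo_of_one hA1⟩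
  obtain ⟨β, hβ⟩ : ∃ β : C3, K 1 = Lpr3 + mo β :=
    ⟨(K 1 - Lpr3) 1, cl6_g6 (R := Module.End ℂ C3) (OL_mo_of_one hK1)⟩
  -- the graded equations
  have z0 : ∀ j, A 0 * K j - K j * A 0 = 0 := fun j =>
    cl6_g4 (R := Module.End ℂ C3) (K j) hA0
  have z1 : ∀ j, A j * K 0 - K 0 * A j = 0 := fun j =>
    cl6_g5 (R := Module.End ℂ C3) (A j) hK0
  have E2 : A 1 * K 1 - K 1 * A 1 = 0 :=
    cl6_sum2 (R := Module.End ℂ C3) (f := fun i j => A i * K j - K j * A i) z0 z1 (hcomm 2)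
  have E3 : (A 1 * K 2 - K 2 * A 1) + (A 2 * K 1 - K 1 * A 2) = 0 :=
    cl6_sum3 (R := Module.End ℂ C3) (f := fun i j => A i * K j - K j * A i) z0 z1 (hcomm 3)
  have E4 : (A 1 * K 3 - K 3 * A 1) + (A 2 * K 2 - K 2 * A 2) + (A 3 * K 1 - K 1 * A 3) = 0 :=
    cl6_sum4 (R := Module.End ℂ C3) (f := fun i j => A i * K j - K j * A i) z0 z1 (hcomm 4)
  have E5 : (A 1 * K 4 - K 4 * A 1) + (A 2 * K 3 - K 3 * A 2) + (A 3 * K 2 - K 2 * A 3) +
      (A 4 * K 1 - K 1 * A 4) = 0 :=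
    cl6_sum5 (R := Module.End ℂ C3) (f := fun i j => A i * K j - K j * A i) z0 z1 (hcomm 5)
  -- rotation invariance
  have hY : (s3 - algebraMap ℂ C3 ((sg 0 : ℝ) : ℂ)) * Y3 α = 0 := by
    have h2 := E2
    rw [hα, hβ] at h2
    unfold Lpr3 at h2
    have h3 := cl6_E2 (R := Module.End ℂ C3) (mo α)
      (mo ((s3 - algebraMap ℂ C3 ((sg 0 : ℝ) : ℂ)) * algebraMap ℂ C3 nu)) (dv Y3) (mo β)
      (mo (Y3 α)) (mo_comm _ _) (mo_comm _ _) (dv_mo _ _) h2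
    rw [← mo_mul] at h3
    have h4 := mo_inj (h3.trans mo_zero.symm)
    have h5 : nu • ((s3 - algebraMap ℂ C3 ((sg 0 : ℝ) : ℂ)) * Y3 α) = 0 := by
      rw [← h4, Algebra.smul_def]; ring
    exact (smul_eq_zero.mp h5).resolve_left hnu
  obtain ⟨ha, hb, hb2⟩ := cl6_Yinv hY
  have rA1 : Rs (A 1) = mo (res α) := by rw [hα, Rs_mo]
  have rK1 : Rs (K 1) = mo (res β) := by rw [hβ, map_add, Rs_Lpr3, Rs_mo, zero_add]
  have dA1 : adS (A 1) = mo (S3 α) := by rw [hα, adS_mo]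
  have dK1 : adS (K 1) = nu • dv Y3 + mo (S3 β) := by
    rw [hβ, cl6_adS_add, adS_Lpr3, adS_mo]
  have rdA1 : Rs (adS (A 1)) = mo (res (S3 α)) := by rw [dA1, Rs_mo]
  have rdK1 : Rs (adS (K 1)) = nu • dv Y2 + mo (res (S3 β)) := by
    rw [dK1, map_add, cl6_Rs_Y3, Rs_mo]
  have ddA1 : Rs (adS (adS (A 1))) = mo (res (S3 (S3 α))) := by rw [dA1, adS_mo, Rs_mo]
  have ddK1 : Rs (adS (adS (K 1))) = mo (res (S3 (S3 β))) := by
    rw [dK1, cl6_adS_add, cl6_adS_Y3, zero_add, adS_mo, Rs_mo]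
  have dAs : ∀ w, adS (A w) * mo s3 = mo s3 * adS (A w) := fun w => adS_comm (hAs w)
  have dKs : ∀ w, adS (K w) * mo s3 = mo s3 * adS (K w) := fun w => adS_comm (hKs w)
  have ddAs : ∀ w, adS (adS (A w)) * mo s3 = mo s3 * adS (adS (A w)) :=
    fun w => adS_comm (dAs w)
  have ddKs : ∀ w, adS (adS (K w)) * mo s3 = mo s3 * adS (adS (K w)) :=
    fun w => adS_comm (dKs w)
  have F3 := congrArg Rs E3
  rw [map_zero, map_add, cl6_Rs_comm (hAs 1) (hKs 2), cl6_Rs_comm (hAs 2) (hKs 1), rA1,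
    rK1] at F3
  have F4 := congrArg Rs E4
  rw [map_zero, map_add, map_add, cl6_Rs_comm (hAs 1) (hKs 3), cl6_Rs_comm (hAs 2) (hKs 2),
    cl6_Rs_comm (hAs 3) (hKs 1), rA1, rK1] at F4
  have F5 := congrArg Rs E5
  rw [map_zero, map_add, map_add, map_add, cl6_Rs_comm (hAs 1) (hKs 4),
    cl6_Rs_comm (hAs 2) (hKs 3), cl6_Rs_comm (hAs 3) (hKs 2), cl6_Rs_comm (hAs 4) (hKs 1),
    rA1, rK1] at F5
  have G3 := congrArg (fun P => Rs (adS P)) E3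
  simp only [cl6_adS_zero, map_zero, cl6_adS_add, cl6_adS_comm, map_add] at G3
  rw [cl6_Rs_comm (dAs 1) (hKs 2), cl6_Rs_comm (hAs 1) (dKs 2), cl6_Rs_comm (dAs 2) (hKs 1),
    cl6_Rs_comm (hAs 2) (dKs 1), rdA1, rA1, rK1, rdK1] at G3
  have G4 := congrArg (fun P => Rs (adS P)) E4
  simp only [cl6_adS_zero, map_zero, cl6_adS_add, cl6_adS_comm, map_add] at G4
  rw [cl6_Rs_comm (dAs 1) (hKs 3), cl6_Rs_comm (hAs 1) (dKs 3), cl6_Rs_comm (dAs 2) (hKs 2),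
    cl6_Rs_comm (hAs 2) (dKs 2), cl6_Rs_comm (dAs 3) (hKs 1), cl6_Rs_comm (hAs 3) (dKs 1),
    rdA1, rA1, rK1, rdK1] at G4
  have H3 := congrArg (fun P => Rs (adS (adS P))) E3
  simp only [cl6_adS_zero, map_zero, cl6_adS_add, cl6_adS_comm, map_add] at H3
  rw [cl6_Rs_comm (ddAs 1) (hKs 2), cl6_Rs_comm (dAs 1) (dKs 2), cl6_Rs_comm (hAs 1) (ddKs 2),
    cl6_Rs_comm (ddAs 2) (hKs 1), cl6_Rs_comm (dAs 2) (dKs 1), cl6_Rs_comm (hAs 2) (ddKs 1),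
    ddA1, rdA1, rA1, rK1, rdK1, ddK1] at H3
  have hD : OL fr2 2 (Rs (A 2) - Dpr2) := by
    have := OL_Rs hA2
    rwa [cl6_Rs_sub, Rs_Dpr3] at this
  have hK2' : OL fr2 2 (Rs (K 2)) := OL_Rs hK2
  have hK3' : OL fr2 3 (Rs (K 3) - Spr2) := by
    have := OL_Rs hK3
    rwa [cl6_Rs_sub, Rs_Spr3] at this
  obtain ⟨c0, hc0⟩ := clA hD hK2' F3
  have hcc : ∀ P : Module.End ℂ C2, mo (res β) * P = P * mo (res β) := fun P => by
    rw [hc0, cl6_moC]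
  have F3' : mo (res α) * Rs (K 2) = Rs (K 2) * mo (res α) :=
    cl6_d1 (R := Module.End ℂ C2) hcc F3
  have F4' := cl6_d2 (R := Module.End ℂ C2) hcc F4
  obtain ⟨a0, ha0⟩ := clB ha hD hK2' hK3' F3' F4'
  have haa : ∀ P : Module.End ℂ C2, mo (res α) * P = P * mo (res α) := fun P => by
    rw [ha0, cl6_moC]
  have F4'' : Rs (A 2) * Rs (K 2) = Rs (K 2) * Rs (A 2) :=
    cl6_d3 (R := Module.End ℂ C2) haa F4'
  obtain ⟨κ₀, v, hK2v⟩ := clC hD hK2' F4''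
  have hbK : mo (res (S3 α)) * Rs (K 2) = Rs (K 2) * mo (res (S3 α)) :=
    cl6_d5 (R := Module.End ℂ C2) (cl6_bY hb) (mo_comm _ _) hK2v
  have hb2K : mo (res (S3 (S3 α))) * Rs (K 2) = Rs (K 2) * mo (res (S3 (S3 α))) :=
    cl6_d5 (R := Module.End ℂ C2) (cl6_bY hb2) (mo_comm _ _) hK2v
  have G3' := cl6_d4 (R := Module.End ℂ C2) haa hcc hbK G3
  have hκ : κ₀ / nu * nu = κ₀ := div_mul_cancel₀ _ hnu
  have hK2L := cl6_d6 (R := Module.End ℂ C2) (e := mo (res (S3 β))) hκ hK2v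
  have hme : mo v - (κ₀ / nu) • mo (res (S3 β)) = mo (v - (κ₀ / nu) • res (S3 β)) := by
    rw [mo_sub, mo_smul]
  rw [hme] at hK2L
  obtain ⟨c1, hc1⟩ : ∃ c1 : ℂ, v - (κ₀ / nu) • res (S3 β) = cC c1 := by
    refine clA (a := 0) hD hK2' ?_
    refine cl6_d7 (R := Module.End ℂ C2) F4'' G3' hK2L (fun X => ?_)
    rw [mo_zero, zero_mul, mul_zero]
  rw [hc1] at hK2L
  refine ⟨Rs (A 2) - (κ₀ / nu) • mo (res (S3 α)),
    Rs (K 3) - (κ₀ / nu) • Rs (adS (K 2)) + ((κ₀ / nu) ^ 2 / 2) • mo (res (S3 (S3 β))),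
    res (S3 β), ?_, ?_, ?_, ?_⟩
  · have e1 := cl6_d9 (R := Module.End ℂ C2) (Rs (A 2)) (mo (res (S3 α))) Dpr2 (κ₀ / nu)
    have e2 : OL fr2 2 ((Rs (A 2) - Dpr2) - (κ₀ / nu) • mo (res (S3 α))) :=
      OL_sub hD (OL_smul _ (OL.up (OL.mo _)))
    exact e1 ▸ e2
  · have e1 := cl6_d10 (R := Module.End ℂ C2) (Rs (K 3)) (Rs (adS (K 2)))
      (mo (res (S3 (S3 β)))) Spr2 (κ₀ / nu) ((κ₀ / nu) ^ 2 / 2)
    have e2 : OL fr2 3 ((Rs (K 3) - Spr2) - (κ₀ / nu) • Rs (adS (K 2)) +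
        ((κ₀ / nu) ^ 2 / 2) • mo (res (S3 (S3 β)))) :=
      OL.add (OL_sub hK3' (OL_smul _ (OL.up (OL_Rs (OL_adS hK2)))))
        (OL_smul _ (OL.up (OL.up (OL.mo _))))
    exact e1 ▸ e2
  · exact cl6_fin (R := Module.End ℂ C2) _ _ _ _ _ _ _ _ _ _ _ _ _ _ _ _ _ _ _ _ haa hcc
      hb2K (cl6_moC c1) hK2L F5 G4 H3 (mo_comm _ _)
  · refine cl6_d8 (R := Module.End ℂ C2) G3' ?_
    exact cl6_d5 (R := Module.End ℂ C2) (κ := nu) (cl6_bY hb) (mo_comm _ _) rfl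

end H99.EQ
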