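import Pool.Agent.H99.EQ.B5
import Pool.Agent.H99.EQ.CL6

/-!
# EQ-B6: the normalised data

Job EQ-B6. `exists_normal` (O5) with `s = s3`, `i₀ = 0` (`fr3 0 = S3`, `S3_s3`), `A = Op σ 0`,
`B = Op σ 1`, `K = Op σ 2` (`OL_Op`, `Op1`, `Op_comm`, `fr3_comm`): `A'`, `K'` commuting with
`mo s3`, `A' w - Op σ 0 w` of order `< w`. With `r * s3 = 1` (`s3_unit`) put `A w = mo r * A' w`,
`K w = mo r * K' w`; `mo r` commutes with everything that commutes with `mo s3`, so `GComm A K`,
and the principal parts follow from `Op0`, `Op2` (`mo r * (mo s3 * P) = P`, `OL_lmo`;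
`OL_zero_eq` for `w = 0`).
-/

set_option autoImplicit false

open Complex
open scoped ContDiff

noncomputable section

namespace H99.EQ

section gen

variable {C : Type*} [CommRing C] [Algebra ℂ C] {ι : Type*} {d : ι → Derivation ℂ C C}

theorem B6_sub_zero {P : Module.End ℂ C} {w : ℕ} (h : OL d w (P - 0)) : OL d w P := by
  rwa [sub_zero] at h

theorem B6_eq {P Q : Module.End ℂ C} (h : OL d 0 (P - Q)) : P = Q := sub_eq_zero.1 (OL_zero_eq h)

/-- multiplication by the inverse of `s` -/
theorem B6_low {r s : C} (hr : mo r * mo s = 1) {X X' P : Module.End ℂ C} {w : ℕ}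
    (h1 : OL d w (X' - X)) (h2 : OL d w (X - mo s * P)) : OL d w (mo r * X' - P) := by
  have e : mo r * X' - P = mo r * ((X' - X) + (X - mo s * P)) := by
    have e1 : mo r * (mo s * P) = P := by rw [← mul_assoc, hr, one_mul]
    have e2 : (X' - X) + (X - mo s * P) = X' - mo s * P := by abel
    rw [e2, mul_sub, e1]
  rw [e]
  exact OL_lmo r (OL.add h1 h2)

theorem B6_low_zero {r s : C} (hr : mo r * mo s = 1) {X X' : Module.End ℂ C} {w : ℕ}
    (h1 : OL d w (X' - X)) (h2 : OL d w (X - 0)) : OL d w (mo r * X') := by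
  have h3 := B6_low (P := 0) hr h1 (by rwa [mul_zero])
  rwa [sub_zero] at h3

theorem B6_cr {r s : C} (hmr : mo r * mo s = 1) {P : Module.End ℂ C}
    (hP : P * mo s = mo s * P) : P * mo r = mo r * P := by
  have hms : mo s * mo r = 1 := by rw [mo_comm, hmr]
  calc P * mo r = mo r * mo s * (P * mo r) := by rw [hmr, one_mul]
    _ = mo r * (mo s * P) * mo r := by simp only [mul_assoc]
    _ = mo r * (P * mo s) * mo r := by rw [hP]
    _ = mo r * P * (mo s * mo r) := by simp only [mul_assoc]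
    _ = mo r * P := by rw [hms, mul_one]

theorem B6_cs {r s : C} {P : Module.End ℂ C} (hP : P * mo s = mo s * P) :
    (mo r * P) * mo s = mo s * (mo r * P) := by
  rw [mul_assoc, hP, ← mul_assoc, ← mul_assoc, mo_comm]

theorem B6_GComm {r : C} {A K : ℕ → Module.End ℂ C} (hA : ∀ w, A w * mo r = mo r * A w)
    (hK : ∀ w, K w * mo r = mo r * K w) (h : GComm A K) :
    GComm (fun w => mo r * A w) (fun w => mo r * K w) := by
  intro W
  have h1 := congrArg (fun P => mo r * mo r * P) (h W)
  simp only [Finset.mul_sum, mul_zero] at h1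
  rw [← h1]
  refine Finset.sum_congr rfl fun vw _ => ?_
  have e1 := hA vw.1
  have e2 := hK vw.2
  rw [mul_sub]
  congr 1
  · calc mo r * A vw.1 * (mo r * K vw.2) = mo r * (A vw.1 * mo r) * K vw.2 := by
          simp only [mul_assoc]
      _ = mo r * mo r * (A vw.1 * K vw.2) := by
          rw [e1]
          simp only [mul_assoc]
  · calc mo r * K vw.2 * (mo r * A vw.1) = mo r * (K vw.2 * mo r) * A vw.1 := by
          simp only [mul_assoc]
      _ = mo r * mo r * (K vw.2 * A vw.1) := by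
          rw [e2]
          simp only [mul_assoc]

end gen

theorem ndata {p : Fin 3 → Ph 3 → ℝ} {σ : Fin 3 → ℕ → MvPolynomial (Fin 3) (CP 3)}
    (h : ASymb p σ) (hN : NearForm p) : ∃ A K : ℕ → Module.End ℂ C3, NData A K := by
  have hs : fr3 0 s3 = 1 := S3_s3
  have hB0 : Op σ 1 0 = mo s3 := by
    have h1 := Op1 h hN 0
    rw [if_pos rfl] at h1
    exact B6_eq h1
  have hB : ∀ w, 1 ≤ w → OL fr3 w (Op σ 1 w) := by
    intro w hw
    have h1 := Op1 h hN w
    rw [if_neg (by omega)] at h1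
    exact B6_sub_zero h1
  obtain ⟨A', K', hA', hK', hA, hK, hAK⟩ := exists_normal fr3_comm hs (OL_Op h 0) (OL_Op h 2)
    hB0 hB (Op_comm h 0 1) (Op_comm h 2 1) (Op_comm h 0 2)
  obtain ⟨r, hr⟩ : ∃ r : C3, r * s3 = 1 := s3_unit.exists_left_inv
  have hmr : mo r * mo s3 = 1 := by rw [← mo_mul, hr, mo_one]
  refine ⟨fun w => mo r * A' w, fun w => mo r * K' w, ?_⟩
  constructor
  · exact fun w => B6_cs (hA' w)
  · exact fun w => B6_cs (hK' w)
  · exact B6_GComm (fun w => B6_cr hmr (hA' w)) (fun w => B6_cr hmr (hK' w)) hAK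
  · have h1 := Op0 h hN 0
    rw [if_neg (by omega)] at h1
    exact OL_zero_eq (B6_low_zero hmr (hA 0) h1)
  · have h1 := Op0 h hN 1
    rw [if_neg (by omega)] at h1
    exact B6_low_zero hmr (hA 1) h1
  · have h1 := Op0 h hN 2
    rw [if_pos rfl] at h1
    exact B6_low hmr (hA 2) h1
  · have h1 := Op2 h hN 0
    rw [if_neg (by omega), if_neg (by omega)] at h1
    exact OL_zero_eq (B6_low_zero hmr (hK 0) h1)
  · have h1 := Op2 h hN 1
    rw [if_pos rfl] at h1
    exact B6_low hmr (hK 1) h1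
  · have h1 := Op2 h hN 2
    rw [if_neg (by omega), if_neg (by omega)] at h1
    exact B6_low_zero hmr (hK 2) h1
  · have h1 := Op2 h hN 3
    rw [if_neg (by omega), if_pos rfl] at h1
    exact B6_low hmr (hK 3) h1

end H99.EQ
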