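import Pool.Agent.H99.EQ.Struct

/-!
# EQ-R1: the rational structure functions on `(-3/4, 0)`

Job EQ-R1. Pure calculus on `z ∈ (-3/4, 0)`. `9 rq z = 27z³+32z²+4z-4 < 0` there (e.g. with
`u = -z ∈ (0, 3/4)`: `-27u³+32u²-4u-4 < 0`: `32u² ≤ 4 + ...`; it has the maximum on `[0, 3/4]` at
`u ≈ 0.72`, value `≈ -0.4`; use `nlinarith` or split). `rhd² = rla` from `Real.sq_sqrt`.
Identities by `field_simp; ring` using `rQ ≠ 0, rW ≠ 0, rN ≠ 0, z ≠ 0`. Note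
`rN' = rN1`, `rN1' = -6z - 59/18`, `2 rN rN1' - rN1² = rQ`, `rW² + 4 z rN + rQ = 0`,
`rhd' = rW'/(2√rN) - rW rN1/(4 rN √rN)`, so `rfac * rhd' / rhd = rfac (rW'/rW - rN1/(2 rN)) =
-1 - rfac/z` (identity of rational functions).
`h = rhd * rhh`: `rfac * h' = rhd`; `p = rhd * z`: `rfac * p' = -p`.
-/

set_option autoImplicit false

open Complex
open scoped ContDiff

noncomputable section

namespace H99.EQ

variable {z : ℝ}

theorem rN_pos (h : z ∈ Set.Ioo (-(3 / 4) : ℝ) 0) : 0 < rN z := by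
  obtain ⟨h1, h2⟩ := h
  unfold rN
  have h3 : 0 < -z := by linarith
  have h4 : 0 < z + 3 / 4 := by linarith
  have h5 : 0 < z + 8 / 9 := by linarith
  positivity

theorem rW_pos (h : z ∈ Set.Ioo (-(3 / 4) : ℝ) 0) : 0 < rW z := by
  obtain ⟨h1, h2⟩ := h
  unfold rW
  nlinarith

theorem rq_neg (h : z ∈ Set.Ioo (-(3 / 4) : ℝ) 0) : rq z < 0 := by
  obtain ⟨h1, h2⟩ := h
  unfold rq
  have h3 : 0 ≤ (-27 * z + 688 / 100) * (z + 72 / 100) ^ 2 :=
    mul_nonneg (by linarith) (sq_nonneg _)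
  have h4 : 27 * z ^ 3 + 32 * z ^ 2 + 4 * z - 4 < 0 := by nlinarith
  linarith

theorem rQ_neg (h : z ∈ Set.Ioo (-(3 / 4) : ℝ) 0) : rQ z < 0 := by
  have h1 := rq_neg h
  unfold rQ
  have h2 : 0 < z + 1 := by linarith [h.1]
  exact mul_neg_of_pos_of_neg h2 h1

theorem rfac_pos (h : z ∈ Set.Ioo (-(3 / 4) : ℝ) 0) : 0 < rfac z := by
  have h1 := rN_pos h
  have h2 := rW_pos h
  have h3 := rQ_neg h
  unfold rfac
  apply div_pos_of_neg_of_neg _ h3
  have := mul_pos h1 h2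
  nlinarith

theorem rla_pos (h : z ∈ Set.Ioo (-(3 / 4) : ℝ) 0) : 0 < rla z := by
  have h1 := rN_pos h
  have h2 := rW_pos h
  unfold rla
  positivity

theorem rhd_pos (h : z ∈ Set.Ioo (-(3 / 4) : ℝ) 0) : 0 < rhd z := by
  have h1 := rN_pos h
  have h2 := rW_pos h
  unfold rhd
  have h3 := Real.sqrt_pos.2 h1
  positivity

theorem rhd_sq (h : z ∈ Set.Ioo (-(3 / 4) : ℝ) 0) : rhd z * rhd z = rla z := by
  have h1 := rN_pos h
  unfold rhd rla
  have h3 := Real.sqrt_pos.2 h1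
  have h4 : Real.sqrt (rN z) ^ 2 = rN z := Real.sq_sqrt h1.le
  rw [div_mul_div_comm]
  congr 1
  · ring
  · rw [← h4, Real.sqrt_sq h3.le]
    ring

theorem rla_rU (h : z ∈ Set.Ioo (-(3 / 4) : ℝ) 0) : rla z * rU z = 1 := by
  have h1 := (rN_pos h).ne'
  have h2 := (rW_pos h).ne'
  unfold rla rU
  field_simp

theorem rW_id (z : ℝ) : rW z ^ 2 + 4 * z * rN z + rQ z = 0 := by
  unfold rW rN rQ rq
  ring

/-- `1 + ĥ = 2 (z + 3/4) (z + 8/9) / w` -/
theorem rhh_id (h : z ∈ Set.Ioo (-(3 / 4) : ℝ) 0) :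
    1 + rhh z = 2 * (z + 3 / 4) * (z + 8 / 9) / rW z := by
  have h2 := (rW_pos h).ne'
  unfold rhh
  rw [eq_div_iff h2, add_mul, div_mul_cancel₀ _ h2]
  unfold rW rN1
  ring

theorem rN_cd : ContDiffOn ℝ ∞ rN (Set.Ioo (-(3 / 4)) 0) := by
  unfold rN
  apply ContDiff.contDiffOn
  fun_prop

theorem rW_cd : ContDiffOn ℝ ∞ rW (Set.Ioo (-(3 / 4)) 0) := by
  unfold rW
  apply ContDiff.contDiffOn
  fun_prop

theorem R1_rN1_cd : ContDiffOn ℝ ∞ rN1 (Set.Ioo (-(3 / 4)) 0) := by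
  unfold rN1
  apply ContDiff.contDiffOn
  fun_prop

theorem R1_rQ_cd : ContDiffOn ℝ ∞ rQ (Set.Ioo (-(3 / 4)) 0) := by
  unfold rQ rq
  apply ContDiff.contDiffOn
  fun_prop

theorem rfac_cd : ContDiffOn ℝ ∞ rfac (Set.Ioo (-(3 / 4)) 0) := by
  unfold rfac
  exact ((contDiffOn_const.mul rN_cd).mul rW_cd).div R1_rQ_cd (fun z hz => (rQ_neg hz).ne)

theorem rla_cd : ContDiffOn ℝ ∞ rla (Set.Ioo (-(3 / 4)) 0) := by
  unfold rla
  exact (rW_cd.pow 2).div (contDiffOn_const.mul rN_cd)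
    (fun z hz => (mul_pos (by norm_num) (rN_pos hz)).ne')

theorem rU_cd : ContDiffOn ℝ ∞ rU (Set.Ioo (-(3 / 4)) 0) := by
  unfold rU
  exact (contDiffOn_const.mul rN_cd).div (rW_cd.pow 2) (fun z hz => (pow_pos (rW_pos hz) 2).ne')

theorem rhh_cd : ContDiffOn ℝ ∞ rhh (Set.Ioo (-(3 / 4)) 0) := by
  unfold rhh
  exact (R1_rN1_cd.neg).div rW_cd (fun z hz => (rW_pos hz).ne')

theorem rrho_cd : ContDiffOn ℝ ∞ rrho (Set.Ioo (-(3 / 4)) 0) := by
  unfold rrho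
  exact contDiffOn_const.sub (rfac_cd.div contDiffOn_id (fun z hz => ne_of_lt hz.2))

theorem rhd_cd : ContDiffOn ℝ ∞ rhd (Set.Ioo (-(3 / 4)) 0) := by
  unfold rhd
  exact rW_cd.div (contDiffOn_const.mul (rN_cd.sqrt (fun z hz => (rN_pos hz).ne')))
    (fun z hz => (mul_pos (by norm_num) (Real.sqrt_pos.2 (rN_pos hz))).ne')

theorem R1_rN_hd (z : ℝ) : HasDerivAt rN (rN1 z) z := by
  have h1 : HasDerivAt (fun z : ℝ => -z) (-1) z := (hasDerivAt_id z).neg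
  have h2 : HasDerivAt (fun z : ℝ => z + 3 / 4) 1 z := (hasDerivAt_id z).add_const _
  have h3 : HasDerivAt (fun z : ℝ => z + 8 / 9) 1 z := (hasDerivAt_id z).add_const _
  have h4 := (h1.mul h2).mul h3
  refine HasDerivAt.congr_deriv (f := rN) h4 ?_
  simp only [rN1, Pi.mul_apply]
  ring

theorem R1_rW_hd (z : ℝ) : HasDerivAt rW (-2 * z) z := by
  have h1 : HasDerivAt (fun z : ℝ => z ^ 2) (2 * z) z := by
    simpa using hasDerivAt_pow 2 z
  have h2 := h1.const_sub (2 / 3)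
  refine HasDerivAt.congr_deriv (f := rW) h2 ?_
  ring

theorem R1_rN1_hd (z : ℝ) : HasDerivAt rN1 (-6 * z - 59 / 18) z := by
  have h1 : HasDerivAt (fun z : ℝ => z ^ 2) (2 * z) z := by
    simpa using hasDerivAt_pow 2 z
  have h2 := ((h1.const_mul (-3)).sub ((hasDerivAt_id z).const_mul (59 / 18))).sub_const (2 / 3)
  refine HasDerivAt.congr_deriv (f := rN1) h2 ?_
  ring

theorem rhd_deriv (h : z ∈ Set.Ioo (-(3 / 4) : ℝ) 0) :
    rfac z * deriv rhd z = rrho z * rhd z := by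
  have hN := rN_pos h
  have hW := rW_pos h
  have hQ := rQ_neg h
  have hs := Real.sqrt_pos.2 hN
  have hz : z ≠ 0 := ne_of_lt h.2
  have hsq : Real.sqrt (rN z) ^ 2 = rN z := Real.sq_sqrt hN.le
  have h1 : HasDerivAt (fun z => Real.sqrt (rN z)) (rN1 z / (2 * Real.sqrt (rN z))) z :=
    (R1_rN_hd z).sqrt hN.ne'
  have h2 := (R1_rW_hd z).div (h1.const_mul 2) (by positivity)
  have h3 : deriv rhd z = _ := HasDerivAt.deriv (f := rhd) h2
  rw [h3]
  unfold rfac rrho rhd rfac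
  have hQ' := hQ.ne
  have hW' := hW.ne'
  have hs' := hs.ne'
  set s := Real.sqrt (rN z) with hsdef
  rw [← hsq]
  have hid := rW_id z
  rw [← hsq] at hid
  have hid2 : z * (rN1 z - rW z) = 2 * s ^ 2 := by
    rw [hsq]
    unfold rN1 rW rN
    ring
  field_simp
  have e1 : rQ z = -(rW z ^ 2) - 4 * z * s ^ 2 := by linarith
  have e2 : z * rN1 z = z * rW z + 2 * s ^ 2 := by linarith
  rw [e1]
  linear_combination (rW z) * e2

theorem rhh_deriv (h : z ∈ Set.Ioo (-(3 / 4) : ℝ) 0) :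
    rfac z * deriv rhh z = 1 - rrho z * rhh z := by
  have hW := (rW_pos h).ne'
  have hQ := (rQ_neg h).ne
  have hz : z ≠ 0 := ne_of_lt h.2
  have h2 := ((R1_rN1_hd z).neg).div (R1_rW_hd z) hW
  have h3 : deriv rhh z = _ := HasDerivAt.deriv (f := rhh) h2
  rw [h3]
  unfold rrho rhh rfac
  field_simp
  simp only [rQ, rq, rW, rN, rN1, Pi.neg_apply]
  ring

end H99.EQ
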