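import Pool.Agent.H99.EQ.Struct

/-!
# EQ-R2: the functions `u1, tt, zz` of `τ` and the radial profile

Job EQ-R2. `u1 τ = √(1+τ²) > 0`, `tt = τ/u1`, `tt' = 1/u1³`, `zz = 3/8 (tt - 1)`.
Surjectivity of `zz` onto `(-3/4, 0)`: `t = 8z/3 + 1 ∈ (-1, 1)`, `τ = t/√(1-t²)`.
Profile: `ga u = expNegInvGlue (u-1/64) * expNegInvGlue (9/64-u)`; for `u ∈ (1/64, 9/64)` near
`u` it is `exp (-(u-1/64)⁻¹) * exp (-(9/64-u)⁻¹)`, so
`ga' u = ga u * (1/(u-1/64)² - 1/(9/64-u)²)`, which is `> 0` for `u < 5/64` and `≠ 0` for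
`u ≠ 5/64`. `Rr σ ∈ (5/32, 7/32)`, so `Rr σ ^ 2 ∈ (25/1024, 49/1024) ⊆ (1/64, 5/64)`.
-/

set_option autoImplicit false

open Complex
open scoped ContDiff

noncomputable section

namespace H99.EQ

theorem u1_pos (τ : ℝ) : 0 < u1 τ := Real.sqrt_pos.2 (by positivity)

theorem u1_sq (τ : ℝ) : u1 τ ^ 2 = 1 + τ ^ 2 := Real.sq_sqrt (by positivity)

theorem u1_cd : ContDiff ℝ ∞ u1 :=
  (contDiff_const.add (contDiff_id.pow 2)).sqrt (fun x => by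
    have : (0 : ℝ) < 1 + x ^ 2 := by positivity
    exact this.ne')

theorem tt_cd : ContDiff ℝ ∞ tt := contDiff_id.div u1_cd (fun x => (u1_pos x).ne')

theorem zz_cd : ContDiff ℝ ∞ zz := contDiff_const.mul (tt_cd.sub contDiff_const)

theorem u1_deriv (τ : ℝ) : HasDerivAt u1 (τ / u1 τ) τ := by
  have h0 : (1 : ℝ) + τ ^ 2 ≠ 0 := by positivity
  have h1 : HasDerivAt (fun y : ℝ => 1 + y ^ 2) (2 * τ) τ := by
    have := ((hasDerivAt_id τ).pow 2).const_add 1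
    have e : (2 : ℝ) * τ = ((2 : ℕ) : ℝ) * id τ ^ (2 - 1) * 1 := by
      simp
    rw [e]
    exact this
  have h2 := h1.sqrt h0
  have e : τ / u1 τ = 2 * τ / (2 * Real.sqrt (1 + τ ^ 2)) := by
    rw [mul_div_mul_left _ _ (two_ne_zero)]
    rfl
  rw [e]
  exact h2

theorem tt_deriv (τ : ℝ) : HasDerivAt tt (1 / u1 τ ^ 3) τ := by
  have h1 := (hasDerivAt_id τ).div (u1_deriv τ) (u1_pos τ).ne'
  have h2 := u1_sq τ
  have h3 := (u1_pos τ).ne'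
  have e : 1 / u1 τ ^ 3 = (1 * u1 τ - id τ * (τ / u1 τ)) / u1 τ ^ 2 := by
    simp only [id]
    field_simp
    rw [h2]
    ring
  rw [e]
  exact h1

theorem zz_deriv (τ : ℝ) : HasDerivAt zz (3 / 8 * (1 / u1 τ ^ 3)) τ :=
  ((tt_deriv τ).sub_const 1).const_mul (3 / 8)

theorem tt_mem (τ : ℝ) : tt τ ∈ Set.Ioo (-1 : ℝ) 1 := by
  have h1 : τ ^ 2 < u1 τ ^ 2 := by rw [u1_sq]; linarith
  obtain ⟨h2, h3⟩ := abs_lt_of_sq_lt_sq' h1 (u1_pos τ).le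
  constructor
  · rw [tt, lt_div_iff₀ (u1_pos τ)]
    linarith
  · rw [tt, div_lt_iff₀ (u1_pos τ)]
    linarith

theorem zz_mem (τ : ℝ) : zz τ ∈ Set.Ioo (-(3 / 4) : ℝ) 0 := by
  obtain ⟨h1, h2⟩ := tt_mem τ
  rw [zz]
  constructor <;> linarith

theorem zz_surj {z : ℝ} (h : z ∈ Set.Ioo (-(3 / 4) : ℝ) 0) : ∃ τ, zz τ = z := by
  obtain ⟨h1, h2⟩ := h
  set t : ℝ := 8 / 3 * z + 1 with ht
  have h3 : -1 < t := by linarith
  have h4 : t < 1 := by linarith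
  have h5 : 0 < 1 - t ^ 2 := by nlinarith
  have h6 : 0 < Real.sqrt (1 - t ^ 2) := Real.sqrt_pos.2 h5
  have h7 : Real.sqrt (1 - t ^ 2) ^ 2 = 1 - t ^ 2 := Real.sq_sqrt h5.le
  refine ⟨t / Real.sqrt (1 - t ^ 2), ?_⟩
  have h8 : u1 (t / Real.sqrt (1 - t ^ 2)) = 1 / Real.sqrt (1 - t ^ 2) := by
    rw [u1, Real.sqrt_eq_iff_mul_self_eq (by positivity) (by positivity), ← pow_two, div_pow,
      div_pow, h7]
    field_simp
    ring
  rw [zz, tt, h8]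
  have h9 : t / Real.sqrt (1 - t ^ 2) / (1 / Real.sqrt (1 - t ^ 2)) = t := by
    field_simp
  rw [h9, ht]
  ring

/-- `1 - t² = 1/u1²` -/
theorem one_sub_tt (τ : ℝ) : 1 - tt τ ^ 2 = 1 / u1 τ ^ 2 := by
  have h2 := u1_sq τ
  have h3 := (u1_pos τ).ne'
  rw [tt, div_pow, eq_div_iff (pow_ne_zero 2 h3), sub_mul, div_mul_cancel₀ _ (pow_ne_zero 2 h3), h2]
  ring

theorem ga_cd : ContDiff ℝ ∞ ga :=
  (expNegInvGlue.contDiff.comp (contDiff_id.sub contDiff_const)).mul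
    (expNegInvGlue.contDiff.comp (contDiff_const.sub contDiff_id))

theorem ga_pos {u : ℝ} (h : u ∈ Set.Ioo (1 / 64 : ℝ) (9 / 64)) : 0 < ga u :=
  mul_pos (expNegInvGlue.pos_of_pos (by linarith [h.1])) (expNegInvGlue.pos_of_pos (by linarith [h.2]))

theorem ga_zero {u : ℝ} (h : u ∉ Set.Ioo (1 / 64 : ℝ) (9 / 64)) : ga u = 0 := by
  rw [ga]
  by_cases h1 : 1 / 64 < u
  · have h2 : 9 / 64 ≤ u := by
      by_contra h3
      exact h ⟨h1, not_le.1 h3⟩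
    rw [expNegInvGlue.zero_of_nonpos (x := 9 / 64 - u) (by linarith), mul_zero]
  · rw [expNegInvGlue.zero_of_nonpos (x := u - 1 / 64) (by linarith), zero_mul]

theorem ga_nonneg (u : ℝ) : 0 ≤ ga u :=
  mul_nonneg (expNegInvGlue.nonneg _) (expNegInvGlue.nonneg _)

theorem eg_deriv (x : ℝ) : HasDerivAt expNegInvGlue (x⁻¹ ^ 2 * expNegInvGlue x) x := by
  have h := expNegInvGlue.hasDerivAt_polynomial_eval_inv_mul 1 x
  simpa using h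

theorem ga_hasDeriv (u : ℝ) : HasDerivAt ga
    (ga u * ((u - 1 / 64)⁻¹ ^ 2 - (9 / 64 - u)⁻¹ ^ 2)) u := by
  have h1 : HasDerivAt (fun y : ℝ => y - 1 / 64) 1 u := (hasDerivAt_id u).sub_const _
  have h2 : HasDerivAt (fun y : ℝ => 9 / 64 - y) (-1) u := by
    simpa using (hasDerivAt_id u).const_sub (9 / 64 : ℝ)
  have h3 := (eg_deriv (u - 1 / 64)).comp u h1
  have h4 := (eg_deriv (9 / 64 - u)).comp u h2
  have h5 := h3.mul h4
  have e : ga u * ((u - 1 / 64)⁻¹ ^ 2 - (9 / 64 - u)⁻¹ ^ 2) =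
      (u - 1 / 64)⁻¹ ^ 2 * expNegInvGlue (u - 1 / 64) * 1 * expNegInvGlue (9 / 64 - u) +
      expNegInvGlue (u - 1 / 64) *
        ((9 / 64 - u)⁻¹ ^ 2 * expNegInvGlue (9 / 64 - u) * (-1)) := by
    unfold ga
    ring
  rw [e]
  exact h5

theorem ga_deriv_ne {u : ℝ} (h : u ∈ Set.Ioo (1 / 64 : ℝ) (9 / 64)) (h' : u ≠ 5 / 64) :
    deriv ga u ≠ 0 := by
  rw [(ga_hasDeriv u).deriv]
  refine mul_ne_zero (ga_pos h).ne' ?_
  intro h0
  have ha : 0 < (u - 1 / 64)⁻¹ := inv_pos.2 (by linarith [h.1])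
  have hb : 0 < (9 / 64 - u)⁻¹ := inv_pos.2 (by linarith [h.2])
  have h1 : (u - 1 / 64)⁻¹ = (9 / 64 - u)⁻¹ := by
    rw [sub_eq_zero] at h0
    exact (pow_left_inj₀ ha.le hb.le (by norm_num)).1 h0
  have h2 := inv_injective h1
  apply h'
  linarith

theorem ga_deriv_pos {u : ℝ} (h : u ∈ Set.Ioo (1 / 64 : ℝ) (5 / 64)) : 0 < deriv ga u := by
  rw [(ga_hasDeriv u).deriv]
  refine mul_pos (ga_pos ⟨h.1, by linarith [h.2]⟩) ?_
  have ha : 0 < u - 1 / 64 := by linarith [h.1]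
  have hab : u - 1 / 64 < 9 / 64 - u := by linarith [h.2]
  have h1 : (9 / 64 - u)⁻¹ < (u - 1 / 64)⁻¹ := inv_strictAnti₀ ha hab
  have hb : 0 < (9 / 64 - u)⁻¹ := inv_pos.2 (by linarith)
  have h2 := pow_lt_pow_left₀ h1 hb.le (n := 2) (by norm_num)
  linarith

theorem Rr_mem (σ : ℝ) : Rr σ ∈ Set.Ioo (5 / 32 : ℝ) (7 / 32) := by
  obtain ⟨h1, h2⟩ := tt_mem σ
  rw [Rr]
  constructor <;> linarith

theorem Rr_deriv (σ : ℝ) : HasDerivAt Rr (1 / 32 * (1 / u1 σ ^ 3)) σ :=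
  ((tt_deriv σ).const_mul (1 / 32)).const_add (3 / 16)

theorem Rr_sq_mem (σ : ℝ) : Rr σ ^ 2 ∈ Set.Ioo (1 / 64 : ℝ) (5 / 64) := by
  obtain ⟨h1, h2⟩ := Rr_mem σ
  constructor <;> nlinarith

theorem sg_cd : ContDiff ℝ ∞ sg :=
  ga_cd.comp ((contDiff_const.add (contDiff_const.mul tt_cd)).pow 2)

theorem sg_pos (σ : ℝ) : 0 < sg σ := by
  obtain ⟨h1, h2⟩ := Rr_sq_mem σ
  exact ga_pos ⟨h1, by linarith⟩

theorem sg_deriv_pos (σ : ℝ) : 0 < deriv sg σ := by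
  have h1 := (Rr_deriv σ).pow 2
  have h2 : HasDerivAt sg (deriv ga (Rr σ ^ 2) * (2 * Rr σ * (1 / 32 * (1 / u1 σ ^ 3)))) σ := by
    have h3 := ((ga_cd.differentiable (by simp)).differentiableAt (x := Rr σ ^ 2)).hasDerivAt
    have h4 : HasDerivAt (fun σ => Rr σ ^ 2) (2 * Rr σ * (1 / 32 * (1 / u1 σ ^ 3))) σ := by
      have e : 2 * Rr σ * (1 / 32 * (1 / u1 σ ^ 3)) =
          ((2 : ℕ) : ℝ) * Rr σ ^ (2 - 1) * (1 / 32 * (1 / u1 σ ^ 3)) := by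
        simp
      rw [e]
      exact h1
    exact h3.comp σ h4
  rw [h2.deriv]
  have h5 := (Rr_mem σ).1
  have h6 := u1_pos σ
  exact mul_pos (ga_deriv_pos (Rr_sq_mem σ)) (by positivity)

end H99.EQ
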