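import Pool.Agent.H99.EQ.CDefs
import Pool.Agent.H99.EQ.R1
import Pool.Agent.H99.EQ.R2

/-!
# EQ-C1: the coefficient functions on `[-1, 1]`

Job EQ-C1. One variable real algebra. `pA ≥ 20`, `27t+37 ≥ 10`, `3t+5 ≥ 2`,
`729t³+117t²-1653t-1241 < 0` on `[-1,1]` (value `-200` at `-1`, `-2048` at `1`, e.g. for
`s = t + 1 ∈ [0,2]` it is `729s³ - 2070s² + 300 s - 200`; check `< 0`).
`ze t = 3(t-1)/8 ∈ (-3/4, 0)` for `t ∈ (-1,1)`. Identities (for `t ∈ (-1, 1)`), by `field_simp`: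
`rN (ze t) = (1-t²)(27t+37)/512`, `rW (ze t) = pA t/192`, `rQ (ze t) = pB t/36864`,
`phi t * (1 - t²) = (8/3) rfac (ze t)`, `rla (ze t) = c2 t/(1-t²)`,
`phi1 t * (1 - t²) = phi t - 1`, `rhd (ze t) = c3 t/√(1-t²)`,
`rhh (ze t) = -rN1/rW` with `1 + rhh (ze t) = ...`.
`phi ≥ 1/2` on `[-1,1]`: `phi = 1 + phi1 (1-t²)`.
-/

set_option autoImplicit false

open scoped ContDiff

noncomputable section

namespace H99.EQ

variable {t : ℝ}

theorem C1_cub_neg (h : t ∈ Set.Icc (-1 : ℝ) 1) :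
    729 * t ^ 3 + 117 * t ^ 2 - 1653 * t - 1241 < 0 := by
  obtain ⟨h1, h2⟩ := h
  have h3 : 0 ≤ (t + 1) ^ 2 * (2070 - 612 - 729 * (t + 1)) :=
    mul_nonneg (sq_nonneg _) (by linarith)
  nlinarith [sq_nonneg (612 * (t + 1) - 150)]

theorem pA_pos (h : t ∈ Set.Icc (-1 : ℝ) 1) : 20 ≤ pA t := by
  obtain ⟨h1, h2⟩ := h
  unfold pA
  have h3 : 0 ≤ (t + 1) * (3 - t) := mul_nonneg (by linarith) (by linarith)
  nlinarith

theorem pB_neg (h : t ∈ Set.Icc (-1 : ℝ) 1) : pB t < 0 := by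
  have h1 := C1_cub_neg h
  unfold pB
  exact mul_neg_of_pos_of_neg (by linarith [h.1]) h1

theorem den_pos (h : t ∈ Set.Icc (-1 : ℝ) 1) : 0 < 27 * t + 37 := by
  linarith [h.1]

theorem ze_mem (h : t ∈ Set.Ioo (-1 : ℝ) 1) : ze t ∈ Set.Ioo (-(3 / 4) : ℝ) 0 := by
  obtain ⟨h1, h2⟩ := h
  unfold ze
  constructor <;> linarith

theorem rN_ze (t : ℝ) : rN (ze t) = (1 - t ^ 2) * (27 * t + 37) / 512 := by
  unfold rN ze
  ring

theorem rW_ze (t : ℝ) : rW (ze t) = pA t / 192 := by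
  unfold rW ze pA
  ring

theorem rQ_ze (t : ℝ) : rQ (ze t) = pB t / 36864 := by
  unfold rQ rq ze pB
  ring

theorem C1_one_sub (h : t ∈ Set.Ioo (-1 : ℝ) 1) : 0 < 1 - t ^ 2 := by
  have := mul_pos (sub_pos.2 h.2) (neg_lt_iff_pos_add.1 h.1)
  nlinarith

theorem phi_F (h : t ∈ Set.Ioo (-1 : ℝ) 1) : phi t * (1 - t ^ 2) = 8 / 3 * rfac (ze t) := by
  have h1 := (pB_neg (Set.Ioo_subset_Icc_self h)).ne
  unfold phi rfac
  rw [rN_ze, rW_ze, rQ_ze]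
  field_simp
  ring

theorem rla_ze (h : t ∈ Set.Ioo (-1 : ℝ) 1) : rla (ze t) = c2 t / (1 - t ^ 2) := by
  have h1 := (den_pos (Set.Ioo_subset_Icc_self h)).ne'
  have h2 := (C1_one_sub h).ne'
  unfold rla c2
  rw [rN_ze, rW_ze]
  field_simp
  ring

theorem phi1_phi (h : t ∈ Set.Icc (-1 : ℝ) 1) : phi1 t * (1 - t ^ 2) = phi t - 1 := by
  have h1 := (pB_neg h).ne
  unfold phi1 phi
  field_simp
  unfold pB pA
  ring

theorem rhd_ze (h : t ∈ Set.Ioo (-1 : ℝ) 1) : rhd (ze t) = c3 t / Real.sqrt (1 - t ^ 2) := by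
  have h1 := den_pos (Set.Ioo_subset_Icc_self h)
  have h2 := C1_one_sub h
  have h3 := Real.sqrt_pos.2 h1
  have h4 := Real.sqrt_pos.2 h2
  unfold rhd c3
  rw [rN_ze, rW_ze]
  have h5 : Real.sqrt ((1 - t ^ 2) * (27 * t + 37) / 512) =
      Real.sqrt (1 - t ^ 2) * Real.sqrt (27 * t + 37) * Real.sqrt 2 / 32 := by
    rw [Real.sqrt_eq_iff_mul_self_eq_of_pos (by positivity)]
    have e1 := Real.mul_self_sqrt h1.le
    have e2 := Real.mul_self_sqrt h2.le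
    have e3 := Real.mul_self_sqrt (show (0 : ℝ) ≤ 2 by norm_num)
    calc Real.sqrt (1 - t ^ 2) * Real.sqrt (27 * t + 37) * Real.sqrt 2 / 32 *
        (Real.sqrt (1 - t ^ 2) * Real.sqrt (27 * t + 37) * Real.sqrt 2 / 32) =
        (Real.sqrt (1 - t ^ 2) * Real.sqrt (1 - t ^ 2)) *
          (Real.sqrt (27 * t + 37) * Real.sqrt (27 * t + 37)) *
          (Real.sqrt 2 * Real.sqrt 2) / 1024 := by ring
      _ = _ := by
        rw [e1, e2, e3]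
        ring
  rw [h5]
  have e3 : Real.sqrt 2 ^ 2 = 2 := Real.sq_sqrt (by norm_num)
  have h6 : (0 : ℝ) < Real.sqrt 2 := Real.sqrt_pos.2 (by norm_num)
  generalize Real.sqrt (27 * t + 37) = u at *
  generalize Real.sqrt (1 - t ^ 2) = v at *
  generalize Real.sqrt 2 = w at *
  have e4 : pA t / 192 / (2 * (v * u * w / 32)) = pA t / (12 * (v * u * w)) := by
    field_simp
    ring
  have e5 : w / 24 * pA t / u / v = w ^ 2 * pA t / (24 * (v * u * w)) := by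
    field_simp
  rw [e4, e5, e3]
  field_simp
  ring

theorem phi_ge (h : t ∈ Set.Icc (-1 : ℝ) 1) : 1 / 2 ≤ phi t := by
  have h1 := pB_neg h
  have h2 : phi t = 2 * (27 * t + 37) * pA t / (-pB t) := by
    unfold phi
    rw [div_neg, ← neg_div]
    congr 1
    ring
  rw [h2, le_div_iff₀ (by linarith)]
  obtain ⟨h3, h4⟩ := h
  unfold pA pB
  have h5 : 0 ≤ 1 + t := by linarith
  have h6 : 0 ≤ 1 - t := by linarith
  nlinarith [mul_nonneg h5 h6, mul_nonneg (mul_nonneg h5 h6) h5, mul_nonneg (mul_nonneg h5 h6) h6,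
    mul_nonneg (mul_nonneg h5 h6) (mul_nonneg h5 h6), sq_nonneg t, sq_nonneg (t ^ 2),
    mul_nonneg (mul_nonneg h5 h5) (mul_nonneg h5 h5)]

theorem c2_ge (h : t ∈ Set.Icc (-1 : ℝ) 1) : 1 / 50 ≤ c2 t := by
  have h1 := den_pos h
  have h2 := pA_pos h
  unfold c2
  rw [le_div_iff₀ (by positivity)]
  have h3 : 20 * pA t ≤ pA t ^ 2 := by nlinarith
  refine le_trans ?_ h3
  obtain ⟨h4, h5⟩ := h
  unfold pA
  have h6 : 0 ≤ (t + 1) * (1 - t) := mul_nonneg (by linarith) (by linarith)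
  nlinarith

theorem C1_pA_cd : ContDiff ℝ ∞ pA := by
  unfold pA
  fun_prop

theorem C1_pB_cd : ContDiff ℝ ∞ pB := by
  unfold pB
  fun_prop

theorem C1_den_cd : ContDiff ℝ ∞ fun t : ℝ => 27 * t + 37 := by
  fun_prop

theorem c2_cd : ContDiffOn ℝ ∞ c2 (Set.Ioo (-(11 / 10)) (11 / 10)) := by
  unfold c2
  refine (C1_pA_cd.pow 2).contDiffOn.div (contDiff_const.mul C1_den_cd).contDiffOn ?_
  intro t ht
  have h1 : (0 : ℝ) < 27 * t + 37 := by linarith [ht.1]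
  positivity

theorem phi_cdAt (h : t ∈ Set.Icc (-1 : ℝ) 1) : ContDiffAt ℝ ∞ phi t := by
  unfold phi
  exact ((contDiff_const.mul C1_den_cd).mul C1_pA_cd).contDiffAt.div C1_pB_cd.contDiffAt
    (pB_neg h).ne

theorem phi1_cdAt (h : t ∈ Set.Icc (-1 : ℝ) 1) : ContDiffAt ℝ ∞ phi1 t := by
  have h1 : ContDiff ℝ ∞ fun t : ℝ => 27 * (81 * t ^ 2 + 94 * t - 47) := by fun_prop
  exact h1.contDiffAt.div C1_pB_cd.contDiffAt (pB_neg h).ne

theorem nu0_cdAt (h : t ∈ Set.Icc (-1 : ℝ) 1) : ContDiffAt ℝ ∞ nu0 t := by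
  have h1 : ContDiff ℝ ∞ fun t : ℝ => 27 * (1 + t) := by fun_prop
  have h2 := pA_pos h
  exact h1.contDiffAt.div C1_pA_cd.contDiffAt (by linarith)

theorem c2_cdAt (h : t ∈ Set.Icc (-1 : ℝ) 1) : ContDiffAt ℝ ∞ c2 t :=
  c2_cd.contDiffAt (isOpen_Ioo.mem_nhds ⟨by linarith [h.1], by linarith [h.2]⟩)

theorem c3_cdAt (h : t ∈ Set.Icc (-1 : ℝ) 1) : ContDiffAt ℝ ∞ c3 t := by
  have h1 := den_pos h
  exact ((contDiff_const.mul C1_pA_cd).contDiffAt).div (C1_den_cd.contDiffAt.sqrt h1.ne')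
    (Real.sqrt_pos.2 h1).ne'

end H99.EQ
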