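import Pool.Agent.H99.EQ.C5

/-!
# EQ-C10: the exceptional sets are null

Job EQ-C10. `ae_line`: `MeasureTheory.ae_mem_of_ae_add_linearMap_mem` with the linear map
`u ↦ u • v` from `ℝ`. (For countable/finite exceptional sets of `u`: `Set.Countable.ae_notMem`,
`Set.Finite`.)
* `ae_X`: direction `(Pi.single k 1, 0)`.
* `ae_r`: direction `(Pi.single 0 1, 0)`, quadratic equation in `u` with leading coefficient `1`.
Along `v = (0, Pi.single 2 1)` the position `X` (so `wf`, `E1`, `E2`), and `Lf 2` are constant,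
`Zf (q + u v) = Zf q + u |X| (1 - T²)` (`Zf = |X| Ξ_3 - D T`; `T = wf 2`), `Df (q+uv) = Df q + u X_2`.
* `ae_D`: if `X_2 ≠ 0` the equation `Df ^ 2 = c` has at most two solutions `u`; the set
  `{q | X_2 ≠ 0 → Df q ^ 2 ≠ c}` is measurable; combine with `ae_X 2`.
* `ae_H`: off the axis `H = λ (φ² Z² + L²)` with `λ φ² ≠ 0`: `H = c` is a quadratic equation for `Z`.
* `ae_S`: off the axis and `X_1 ≠ 0` the expression (pb_L_S)
  `E1 B1h - E2 B2h` is a polynomial of degree 3 in `Z` with leading coefficient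
  `- E2 ḣ λ φ³ ≠ 0`. Measurability: of the explicit expression
  (`wf`, `E1`, `phi`, ... are measurable functions), on the set of `q` with `X_1 ≠ 0`.
-/

set_option autoImplicit false

open MeasureTheory
open scoped ContDiff

noncomputable section

namespace H99.EQ

theorem ae_line {s : Set (Ph 3)} (hs : MeasurableSet s) (v : Ph 3)
    (h : ∀ q, ∀ᵐ u : ℝ, q + u • v ∈ s) : ∀ᵐ q : Ph 3, q ∈ s := by
  let L : ℝ →L[ℝ] Ph 3 := ContinuousLinearMap.smulRight (1 : ℝ →L[ℝ] ℝ) v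
  have : (volume : Measure (Ph 3)).IsAddHaarMeasure := Measure.prod.instIsAddHaarMeasure _ _
  exact ae_mem_of_ae_add_linearMap_mem L.toLinearMap volume volume hs h

/-! ### cubic equations -/

theorem C10_cubic_fin {a b c d : ℝ} (h : a ≠ 0 ∨ b ≠ 0 ∨ c ≠ 0) :
    Set.Finite {x : ℝ | a * x ^ 3 + b * x ^ 2 + c * x + d = 0} := by
  let P : Polynomial ℝ := Polynomial.C a * Polynomial.X ^ 3 + Polynomial.C b * Polynomial.X ^ 2 +
    Polynomial.C c * Polynomial.X + Polynomial.C d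
  have hP : P ≠ 0 := by
    intro h0
    have h1 : P.coeff 3 = 0 := by rw [h0]; simp
    have h2 : P.coeff 2 = 0 := by rw [h0]; simp
    have h3 : P.coeff 1 = 0 := by rw [h0]; simp
    simp [P, Polynomial.coeff_C, Polynomial.coeff_X_pow] at h1 h2 h3
    rcases h with h | h | h
    · exact h h1
    · exact h h2
    · exact h h3
  refine (Polynomial.finite_setOfPred_isRoot hP).subset fun x hx => ?_
  simp only [Set.mem_ofPred_eq] at hx ⊢
  simp [P, Polynomial.IsRoot, hx]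

theorem C10_cubic_ae {a b c d m k : ℝ} (hk : k ≠ 0) (h : a ≠ 0 ∨ b ≠ 0 ∨ c ≠ 0) :
    ∀ᵐ u : ℝ, a * (m + u * k) ^ 3 + b * (m + u * k) ^ 2 + c * (m + u * k) + d ≠ 0 := by
  have h1 : Set.Finite {u : ℝ | a * (m + u * k) ^ 3 + b * (m + u * k) ^ 2 +
      c * (m + u * k) + d = 0} := by
    refine Set.Finite.preimage (f := fun u : ℝ => m + u * k) ?_ (C10_cubic_fin (d := d) h)
    intro x _ y _ hxy
    simpa [hk] using hxy
  exact h1.countable.ae_notMem volume

/-! ### the direction `Ξ_2` -/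

def C10_v : Ph 3 := (0, Pi.single 2 1)

theorem C10_cx (q : Ph 3) (u : ℝ) (k : Fin 3) : cx (q + u • C10_v) k = cx q k := by
  simp [cx, C10_v]

theorem C10_r2 (q : Ph 3) (u : ℝ) : r2 (q + u • C10_v) = r2 q := by
  simp only [r2, C10_cx]

theorem C10_nX (q : Ph 3) (u : ℝ) : nX (q + u • C10_v) = nX q := by
  simp only [nX, C10_r2]

theorem C10_wf (q : Ph 3) (u : ℝ) (k : Fin 3) : wf k (q + u • C10_v) = wf k q := by
  simp only [wf, C10_cx, C10_nX]

theorem C10_rho2 (q : Ph 3) (u : ℝ) : rho2 (q + u • C10_v) = rho2 q := by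
  simp only [rho2, C10_cx]

theorem C10_E1 (q : Ph 3) (u : ℝ) : E1 (q + u • C10_v) = E1 q := by
  simp only [E1, C10_cx, C10_rho2]

theorem C10_E2 (q : Ph 3) (u : ℝ) : E2 (q + u • C10_v) = E2 q := by
  simp only [E2, C10_cx, C10_rho2]

theorem C10_xi (q : Ph 3) (u : ℝ) :
    (q + u • C10_v).2 0 = q.2 0 ∧ (q + u • C10_v).2 1 = q.2 1 ∧
      (q + u • C10_v).2 2 = q.2 2 + u := by
  simp [C10_v]

theorem C10_L2 (q : Ph 3) (u : ℝ) : Lf 2 (q + u • C10_v) = Lf 2 q := by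
  obtain ⟨h0, h1, h2⟩ := C10_xi q u
  simp only [Lf, C10_cx, h0, h1]
  simp

theorem C10_Df (q : Ph 3) (u : ℝ) : Df (q + u • C10_v) = Df q + u * cx q 2 := by
  obtain ⟨h0, h1, h2⟩ := C10_xi q u
  simp only [Df, C10_cx, h0, h1, h2]
  ring

/-- the slope of `Z` -/
def C10_k (q : Ph 3) : ℝ := cx q 1 * wf 1 q + cx q 0 * wf 0 q

theorem C10_Zf (q : Ph 3) (u : ℝ) : Zf (q + u • C10_v) = Zf q + u * C10_k q := by
  obtain ⟨h0, h1, h2⟩ := C10_xi q u
  have e0 : Lf 0 (q + u • C10_v) = Lf 0 q + u * cx q 1 := by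
    simp only [Lf, C10_cx, h0, h1, h2]
    simp
    ring
  have e1 : Lf 1 (q + u • C10_v) = Lf 1 q - u * cx q 0 := by
    simp only [Lf, C10_cx, h0, h1, h2]
    simp
    ring
  simp only [Zf, e0, e1, C10_wf, C10_k]
  ring

theorem C10_k_pos {q : Ph 3} (h : q ∈ OffA) : 0 < C10_k q := by
  have h1 : 0 < r2 q := OffA_sub h
  have h2 : 0 < nX q := Real.sqrt_pos.2 h1
  have h3 : C10_k q = (cx q 0 ^ 2 + cx q 1 ^ 2) / nX q := by
    unfold C10_k wf
    field_simp
    ring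
  rw [h3]
  refine div_pos ?_ h2
  by_contra h4
  have h5 := sq_nonneg (cx q 0)
  have h6 := sq_nonneg (cx q 1)
  refine h ⟨?_, ?_⟩ <;> nlinarith

theorem C10_OffA {q : Ph 3} (h : cx q 1 ≠ 0) : q ∈ OffA := fun h1 => h h1.2

theorem C10_OffA_add {q : Ph 3} (h : cx q 1 ≠ 0) (u : ℝ) : q + u • C10_v ∈ OffA := by
  apply C10_OffA
  rwa [C10_cx]

/-! ### measurability -/

theorem C10_cx_m (k : Fin 3) : Measurable fun q : Ph 3 => cx q k :=
  (cx_cd k).continuous.measurable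

theorem C10_r2_m : Measurable r2 := r2_cd.continuous.measurable

theorem C10_Df_m : Measurable Df := Df_cd.continuous.measurable

theorem C10_Lf_m (k : Fin 3) : Measurable (Lf k) := (Lf_cd k).continuous.measurable

theorem C10_nX_m : Measurable nX := C10_r2_m.sqrt

theorem C10_wf_m (k : Fin 3) : Measurable (wf k) := (C10_cx_m k).div C10_nX_m

theorem C10_rho2_m : Measurable rho2 :=
  (((C10_cx_m 0).pow_const 2).add ((C10_cx_m 1).pow_const 2)).sqrt

theorem C10_E1_m : Measurable E1 := (C10_cx_m 0).div C10_rho2_m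

theorem C10_E2_m : Measurable E2 := (C10_cx_m 1).div C10_rho2_m

theorem C10_Zf_m : Measurable Zf :=
  ((C10_Lf_m 0).mul (C10_wf_m 1)).sub ((C10_Lf_m 1).mul (C10_wf_m 0))

theorem C10_Lsq_m : Measurable Lsq :=
  (((C10_Lf_m 0).pow_const 2).add ((C10_Lf_m 1).pow_const 2)).add ((C10_Lf_m 2).pow_const 2)

theorem C10_pA_m : Measurable pA := by unfold pA; fun_prop

theorem C10_pB_m : Measurable pB := by unfold pB; fun_prop

theorem C10_c2_m : Measurable c2 := by
  have := C10_pA_m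
  unfold c2
  fun_prop

theorem C10_phi_m : Measurable phi := by
  have := C10_pA_m
  have := C10_pB_m
  unfold phi
  fun_prop

theorem C10_phi1_m : Measurable phi1 := by
  have := C10_pB_m
  unfold phi1
  fun_prop

theorem C10_ze_m : Measurable ze := by unfold ze; fun_prop

theorem C10_rN_m : Measurable rN := by unfold rN; fun_prop

theorem C10_rN1_m : Measurable rN1 := by unfold rN1; fun_prop

theorem C10_rW_m : Measurable rW := by unfold rW; fun_prop

theorem C10_rla_m : Measurable rla := by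
  have := C10_rN_m
  have := C10_rW_m
  unfold rla
  fun_prop

theorem C10_rhh_m : Measurable rhh := by
  have := C10_rN1_m
  have := C10_rW_m
  unfold rhh
  fun_prop

theorem C10_rhd_m : Measurable rhd := by
  have := C10_rN_m
  have := C10_rW_m
  unfold rhd
  fun_prop

theorem C10_Hf_m : Measurable Hf := by
  have h1 := C10_c2_m.comp (C10_wf_m 2)
  have h2 := C10_phi1_m.comp (C10_wf_m 2)
  have h3 := C10_phi_m.comp (C10_wf_m 2)
  exact h1.mul (C10_Lsq_m.add ((h2.mul (h3.add measurable_const)).mul (C10_Zf_m.pow_const 2)))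

theorem C10_pxf_m : Measurable pxf := (C10_phi_m.comp (C10_wf_m 2)).mul C10_Zf_m

theorem C10_expr_m : Measurable fun q : Ph 3 =>
    E1 q * B1h (wf 2 q) (pxf q) (Lf 2 q) - E2 q * B2h (wf 2 q) (pxf q) (Lf 2 q) := by
  have hT := C10_wf_m 2
  have hz := C10_ze_m.comp hT
  have hrl := C10_rla_m.comp hz
  have hrd := C10_rhd_m.comp hz
  have hrh := C10_rhh_m.comp hz
  have hL := C10_Lf_m 2
  have hp := C10_pxf_m
  have hH : Measurable fun q : Ph 3 => Hh (wf 2 q) (pxf q) (Lf 2 q) :=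
    hrl.mul ((hp.pow_const 2).add (hL.pow_const 2))
  have h1 : Measurable fun q : Ph 3 => B1h (wf 2 q) (pxf q) (Lf 2 q) :=
    (hrd.mul hL).mul ((hrh.mul hH).sub (hz.mul (hL.pow_const 2)))
  have h2 : Measurable fun q : Ph 3 => B2h (wf 2 q) (pxf q) (Lf 2 q) :=
    (hrd.mul hp).mul (hH.add (hz.mul (hL.pow_const 2)))
  exact (C10_E1_m.mul h1).sub (C10_E2_m.mul h2)

theorem C10_imp {f g : Ph 3 → ℝ} (hf : Measurable f) (hg : Measurable g) (c : ℝ) :
    MeasurableSet {q : Ph 3 | f q ≠ 0 → g q ≠ c} := by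
  have h1 : MeasurableSet {q : Ph 3 | f q = 0} := hf (measurableSet_singleton 0)
  have h2 : MeasurableSet {q : Ph 3 | g q = c} := hg (measurableSet_singleton c)
  have h3 : {q : Ph 3 | f q ≠ 0 → g q ≠ c} = {q : Ph 3 | f q = 0} ∪ {q : Ph 3 | g q = c}ᶜ := by
    ext q
    simp only [Set.mem_ofPred_eq, Set.mem_union, Set.mem_compl_iff]
    tauto
  rw [h3]
  exact h1.union h2.compl

/-! ### the results -/

theorem ae_X (k : Fin 3) : ∀ᵐ q : Ph 3, cx q k ≠ 0 := by
  have hm : MeasurableSet {q : Ph 3 | cx q k = 0} := (C10_cx_m k) (measurableSet_singleton 0)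
  refine ae_line (s := {q : Ph 3 | cx q k = 0}ᶜ) hm.compl (Pi.single k 1, 0) fun q => ?_
  have h1 := C10_cubic_ae (a := 0) (b := 0) (c := 1) (d := 0) (m := cx q k) (k := 1) one_ne_zero
    (Or.inr (Or.inr one_ne_zero))
  filter_upwards [h1] with u hu
  simp only [Set.mem_compl_iff, Set.mem_ofPred_eq]
  intro h2
  apply hu
  simp only [cx, Prod.fst_add, Prod.smul_fst, Pi.add_apply, Pi.smul_apply, Pi.single_eq_same,
    smul_eq_mul] at h2 ⊢
  linarith

theorem ae_r (c : ℝ) : ∀ᵐ q : Ph 3, r2 q ≠ c := by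
  have hm : MeasurableSet {q : Ph 3 | r2 q = c} := C10_r2_m (measurableSet_singleton c)
  refine ae_line (s := {q : Ph 3 | r2 q = c}ᶜ) hm.compl (Pi.single 0 1, 0) fun q => ?_
  have h1 := C10_cubic_ae (a := 0) (b := 1) (c := 0) (d := cx q 1 ^ 2 + cx q 2 ^ 2 - c)
    (m := cx q 0) (k := 1) one_ne_zero (Or.inr (Or.inl one_ne_zero))
  filter_upwards [h1] with u hu
  simp only [Set.mem_compl_iff, Set.mem_ofPred_eq]
  intro h2
  apply hu
  have e0 : cx (q + u • ((Pi.single 0 1, 0) : Ph 3)) 0 = cx q 0 + u := by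
    simp [cx]
    ring
  have e1 : cx (q + u • ((Pi.single 0 1, 0) : Ph 3)) 1 = cx q 1 := by
    simp [cx]
  have e2 : cx (q + u • ((Pi.single 0 1, 0) : Ph 3)) 2 = cx q 2 := by
    simp [cx]
  unfold r2 at h2
  rw [e0, e1, e2] at h2
  linear_combination h2

theorem ae_D (c : ℝ) : ∀ᵐ q : Ph 3, 10 ^ 4 * Df q ^ 2 ≠ c := by
  have h : ∀ᵐ q : Ph 3, cx q 2 ≠ 0 → 10 ^ 4 * Df q ^ 2 ≠ c := by
    refine ae_line (s := {q : Ph 3 | cx q 2 ≠ 0 → 10 ^ 4 * Df q ^ 2 ≠ c})
      (C10_imp (C10_cx_m 2) ((C10_Df_m.pow_const 2).const_mul (10 ^ 4)) c) C10_v fun q => ?_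
    by_cases h0 : cx q 2 = 0
    · refine Filter.Eventually.of_forall fun u => ?_
      simp only [Set.mem_ofPred_eq, C10_cx]
      intro h1
      exact absurd h0 h1
    have h1 := C10_cubic_ae (a := 0) (b := 10 ^ 4) (c := 0) (d := - c)
      (m := Df q) (k := cx q 2) h0 (Or.inr (Or.inl (by norm_num)))
    filter_upwards [h1] with u hu
    rw [C10_Df]
    intro _ h2
    apply hu
    linear_combination h2
  filter_upwards [h, ae_X 2] with q h1 h2
  exact h1 h2

theorem ae_H (c : ℝ) : ∀ᵐ q : Ph 3, 10 ^ 6 * Hf q ≠ c := by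
  have h : ∀ᵐ q : Ph 3, cx q 1 ≠ 0 → 10 ^ 6 * Hf q ≠ c := by
    refine ae_line (s := {q : Ph 3 | cx q 1 ≠ 0 → 10 ^ 6 * Hf q ≠ c})
      (C10_imp (C10_cx_m 1) (C10_Hf_m.const_mul (10 ^ 6)) c) C10_v fun q => ?_
    by_cases h0 : cx q 1 = 0
    · refine Filter.Eventually.of_forall fun u => ?_
      simp only [Set.mem_ofPred_eq, C10_cx]
      intro h1
      exact absurd h0 h1
    have hA := C10_OffA h0
    have hT := wf_Ioo hA
    have hl := rla_pos (ze_mem hT)
    have hp := phi_ge (Set.Ioo_subset_Icc_self hT)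
    have h1 := C10_cubic_ae (a := 0) (b := 10 ^ 6 * (rla (ze (wf 2 q)) * phi (wf 2 q) ^ 2))
      (c := 0) (d := 10 ^ 6 * (rla (ze (wf 2 q)) * Lf 2 q ^ 2) - c)
      (m := Zf q) (k := C10_k q) (C10_k_pos hA).ne' (Or.inr (Or.inl (by positivity)))
    filter_upwards [h1] with u hu
    intro _ h2
    apply hu
    rw [Hf_off (C10_OffA_add h0 u)] at h2
    simp only [Hh, pxf, C10_wf, C10_L2, C10_Zf] at h2
    linear_combination h2
  filter_upwards [h, ae_X 1] with q h1 h2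
  exact h1 h2

theorem ae_S : ∀ᵐ q : Ph 3, pb (Lf 2) Sf q ≠ 0 := by
  have h : ∀ᵐ q : Ph 3, cx q 1 ≠ 0 →
      E1 q * B1h (wf 2 q) (pxf q) (Lf 2 q) - E2 q * B2h (wf 2 q) (pxf q) (Lf 2 q) ≠ 0 := by
    refine ae_line (s := {q : Ph 3 | cx q 1 ≠ 0 →
      E1 q * B1h (wf 2 q) (pxf q) (Lf 2 q) - E2 q * B2h (wf 2 q) (pxf q) (Lf 2 q) ≠ 0})
      (C10_imp (C10_cx_m 1) C10_expr_m 0) C10_v fun q => ?_
    by_cases h0 : cx q 1 = 0
    · refine Filter.Eventually.of_forall fun u => ?_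
      simp only [Set.mem_ofPred_eq, C10_cx]
      intro h1
      exact absurd h0 h1
    have hA := C10_OffA h0
    have hT := wf_Ioo hA
    have hl := rla_pos (ze_mem hT)
    have hd := rhd_pos (ze_mem hT)
    have hp := phi_ge (Set.Ioo_subset_Icc_self hT)
    have hp0 : 0 < phi (wf 2 q) := by linarith
    have hE : E2 q ≠ 0 := by
      unfold E2 rho2
      refine div_ne_zero h0 (Real.sqrt_pos.2 ?_).ne'
      have := sq_nonneg (cx q 0)
      positivity
    have ha : -(E2 q * rhd (ze (wf 2 q)) * rla (ze (wf 2 q)) * phi (wf 2 q) ^ 3) ≠ 0 := by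
      apply neg_ne_zero.2
      positivity
    have h1 := C10_cubic_ae
      (a := -(E2 q * rhd (ze (wf 2 q)) * rla (ze (wf 2 q)) * phi (wf 2 q) ^ 3))
      (b := E1 q * rhd (ze (wf 2 q)) * Lf 2 q * rhh (ze (wf 2 q)) * rla (ze (wf 2 q)) *
        phi (wf 2 q) ^ 2)
      (c := -(E2 q * rhd (ze (wf 2 q)) * phi (wf 2 q) *
        (rla (ze (wf 2 q)) * Lf 2 q ^ 2 + ze (wf 2 q) * Lf 2 q ^ 2)))
      (d := E1 q * rhd (ze (wf 2 q)) * Lf 2 q *
        (rhh (ze (wf 2 q)) * rla (ze (wf 2 q)) * Lf 2 q ^ 2 - ze (wf 2 q) * Lf 2 q ^ 2))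
      (m := Zf q) (k := C10_k q) (C10_k_pos hA).ne' (Or.inl ha)
    filter_upwards [h1] with u hu
    intro _ h2
    apply hu
    simp only [B1h, B2h, Hh, pxf, C10_wf, C10_L2, C10_Zf, C10_E1, C10_E2] at h2
    linear_combination h2
  filter_upwards [h, ae_X 1] with q h1 h2
  rw [pb_L_S (C10_OffA h2)]
  exact h1 h2

end H99.EQ
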