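import Pool.Agent.H99.EQ.C3

/-!
# EQ-C8: the support of the core system

Job EQ-C8. `WC_open`: `r2`, `Df` continuous; where `r2 > 1/64` also `Hf` is continuous (C3), so
`WC` is a neighbourhood of each of its points.
`WC_box`: `r2 q < 9/64` gives `|X_k| < 3/8`; Lagrange identity `r2 * |Ξ|² = Lsq + D²`,
`Lsq ≤ 200 H < 4·10⁻⁴` (`Hf_ge`), `D² < 2·10⁻⁴`, `r2 > 1/64`: `|Ξ|² < 64 · 6·10⁻⁴ < 1/16`.
-/

set_option autoImplicit false

open scoped ContDiff

noncomputable section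

namespace H99.EQ

variable {q : Ph 3}

theorem WC_open : IsOpen WC := by
  rw [isOpen_iff_mem_nhds]
  rintro q ⟨h1, h2, h3, h4⟩
  have hO : q ∈ OffO := by
    change 0 < r2 q
    linarith
  have hr : ContinuousAt r2 q := r2_cd.continuous.continuousAt
  have hD : ContinuousAt (fun q => 10 ^ 4 * Df q ^ 2) q :=
    continuousAt_const.mul (Df_cd.continuous.continuousAt.pow 2)
  have hH : ContinuousAt (fun q => 10 ^ 6 * Hf q) q :=
    continuousAt_const.mul (Hf_cd hO).continuousAt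
  filter_upwards [continuousAt_const.eventually_lt hr h1, hr.eventually_lt continuousAt_const h2,
    hD.eventually_lt continuousAt_const h3, hH.eventually_lt continuousAt_const h4]
    with p e1 e2 e3 e4
  exact ⟨e1, e2, e3, e4⟩

theorem C8_lagrange (q : Ph 3) : r2 q * (q.2 0 ^ 2 + q.2 1 ^ 2 + q.2 2 ^ 2) =
    Lsq q + Df q ^ 2 := by
  have h0 : Lf 0 q = cx q 1 * q.2 2 - cx q 2 * q.2 1 := rfl
  have h1 : Lf 1 q = cx q 2 * q.2 0 - cx q 0 * q.2 2 := rfl
  have h2 : Lf 2 q = cx q 0 * q.2 1 - cx q 1 * q.2 0 := rfl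
  unfold r2 Lsq Df
  rw [h0, h1, h2]
  ring

theorem WC_box (h : q ∈ WC) : (∀ k, q.1 k ∈ Set.Icc (1 / 8 : ℝ) (7 / 8)) ∧
    ∀ k, q.2 k ∈ Set.Icc (-(1 / 4) : ℝ) (1 / 4) := by
  obtain ⟨h1, h2, h3, h4⟩ := h
  have hO : q ∈ OffO := by
    change 0 < r2 q
    linarith
  have hL := Hf_ge hO
  have hlag := C8_lagrange q
  constructor
  · intro k
    have h5 : (q.1 k - 1 / 2) ^ 2 ≤ r2 q := by
      unfold r2 cx
      fin_cases k
      · simp only [Fin.zero_eta, Fin.isValue]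
        nlinarith [sq_nonneg (q.1 1 - 1 / 2), sq_nonneg (q.1 2 - 1 / 2)]
      · simp only [Fin.mk_one, Fin.isValue]
        nlinarith [sq_nonneg (q.1 0 - 1 / 2), sq_nonneg (q.1 2 - 1 / 2)]
      · simp only [Fin.reduceFinMk, Fin.isValue]
        nlinarith [sq_nonneg (q.1 0 - 1 / 2), sq_nonneg (q.1 1 - 1 / 2)]
    have h6 : |q.1 k - 1 / 2| ≤ 3 / 8 := by
      apply abs_le_of_sq_le_sq _ (by norm_num)
      nlinarith
    have h7 := abs_le.1 h6
    exact ⟨by linarith [h7.1], by linarith [h7.2]⟩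
  · intro k
    have h5 : q.2 0 ^ 2 + q.2 1 ^ 2 + q.2 2 ^ 2 ≤ 1 / 16 := by
      have h8 : Lsq q ≤ 4 / 10 ^ 4 := by linarith
      have h9 : Df q ^ 2 ≤ 2 / 10 ^ 4 := by linarith
      by_contra hcon
      push Not at hcon
      have h10 : 1 / 64 * (1 / 16) ≤ r2 q * (q.2 0 ^ 2 + q.2 1 ^ 2 + q.2 2 ^ 2) :=
        mul_le_mul h1.le hcon.le (by norm_num) (by linarith)
      rw [hlag] at h10
      linarith
    have h6 : |q.2 k| ≤ 1 / 4 := by
      apply abs_le_of_sq_le_sq _ (by norm_num)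
      fin_cases k
      · simp only [Fin.zero_eta, Fin.isValue]
        nlinarith [sq_nonneg (q.2 1), sq_nonneg (q.2 2)]
      · simp only [Fin.mk_one, Fin.isValue]
        nlinarith [sq_nonneg (q.2 0), sq_nonneg (q.2 2)]
      · simp only [Fin.reduceFinMk, Fin.isValue]
        nlinarith [sq_nonneg (q.2 0), sq_nonneg (q.2 1)]
    exact abs_le.1 h6

theorem WC_sub : WC ⊆ box 3 := by
  intro q h
  obtain ⟨h1, h2⟩ := WC_box h
  exact ⟨fun j => ⟨by linarith [(h1 j).1], by linarith [(h1 j).2]⟩,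
    fun j => ⟨by linarith [(h2 j).1], by linarith [(h2 j).2]⟩⟩

/-- a smooth function vanishing outside `WC` is supported in a compact subset of the box -/
theorem CS_of {f : Ph 3 → ℝ} (hf : ContDiff ℝ ∞ f) (h : ∀ q, q ∉ WC → f q = 0) : CS f := by
  refine ⟨hf, (Set.univ.pi fun _ => Set.Icc (1 / 8 : ℝ) (7 / 8)) ×ˢ
    (Set.univ.pi fun _ => Set.Icc (-(1 / 4) : ℝ) (1 / 4)),
    (isCompact_univ_pi fun _ => isCompact_Icc).prod (isCompact_univ_pi fun _ => isCompact_Icc),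
    ?_, ?_⟩
  · rintro q ⟨h1, h2⟩
    exact ⟨fun j => ⟨by linarith [(h1 j trivial).1], by linarith [(h1 j trivial).2]⟩,
      fun j => ⟨by linarith [(h2 j trivial).1], by linarith [(h2 j trivial).2]⟩⟩
  · intro q hq
    apply h
    intro hW
    obtain ⟨h1, h2⟩ := WC_box hW
    exact hq ⟨fun j _ => h1 j, fun j _ => h2 j⟩

end H99.EQ
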