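import Pool.Agent.H99.EQ.C10
import Pool.Agent.H99.EQ.C8

/-!
# EQ-C11: the frontier of `WC` is null

Job EQ-C11. If `q ∈ closure WC`, then `r2 q ∈ [1/64, 9/64]` (so `q ∈ OffO`, where `Hf` is
continuous), `10⁴ D² ≤ 2`, `10⁶ H ≤ 2`; so `frontier WC = closure WC \ WC` (`WC_open`) is contained
in the union of the four null sets `r2 = 1/64`, `r2 = 9/64`, `10⁴ D² = 2`, `10⁶ H = 2` (C10).
-/

set_option autoImplicit false

open MeasureTheory
open scoped ContDiff

noncomputable section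

namespace H99.EQ

theorem WC_frontier : volume (frontier WC) = 0 := by
  rw [measure_eq_zero_iff_ae_notMem]
  filter_upwards [ae_r (1 / 64), ae_r (9 / 64), ae_D 2, ae_H 2] with q h1 h2 h3 h4 hq
  have hcl : q ∈ closure WC := hq.1
  have hni : q ∉ WC := by
    have := hq.2
    rwa [WC_open.interior_eq] at this
  have hr2 : Continuous r2 := r2_cd.continuous
  have hD : Continuous Df := Df_cd.continuous
  have k1 : 1 / 64 ≤ r2 q :=
    closure_minimal (t := {q : Ph 3 | 1 / 64 ≤ r2 q}) (fun p hp => le_of_lt hp.1)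
      (isClosed_le continuous_const hr2) hcl
  have k2 : r2 q ≤ 9 / 64 :=
    closure_minimal (t := {q : Ph 3 | r2 q ≤ 9 / 64}) (fun p hp => le_of_lt hp.2.1)
      (isClosed_le hr2 continuous_const) hcl
  have k3 : 10 ^ 4 * Df q ^ 2 ≤ 2 :=
    closure_minimal (t := {q : Ph 3 | 10 ^ 4 * Df q ^ 2 ≤ 2}) (fun p hp => le_of_lt hp.2.2.1)
      (isClosed_le (continuous_const.mul (hD.pow 2)) continuous_const) hcl
  have hO : q ∈ OffO := by
    change 0 < r2 q
    linarith
  have k4 : 10 ^ 6 * Hf q ≤ 2 := by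
    by_contra hc
    push Not at hc
    have hH : ContinuousAt (fun q => 10 ^ 6 * Hf q) q :=
      continuousAt_const.mul (Hf_cd hO).continuousAt
    have h5 : ∀ᶠ p in nhds q, 2 < 10 ^ 6 * Hf p := hH.eventually (lt_mem_nhds hc)
    have h6 : ∃ᶠ p in nhds q, p ∈ WC := mem_closure_iff_frequently.1 hcl
    obtain ⟨p, hp1, hp2⟩ := (h6.and_eventually h5).exists
    have := hp1.2.2.2
    linarith
  exact hni ⟨lt_of_le_of_ne k1 (Ne.symm h1), lt_of_le_of_ne k2 h2, lt_of_le_of_ne k3 h3,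
    lt_of_le_of_ne k4 h4⟩

end H99.EQ
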