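import Pool.Agent.H99.EQ.C3

/-!
# EQ-C12: the form near the zero section

Job EQ-C12. `q = (Phi3 c, s • t)`, `c = ((σ, τ), y)`: `cx q = Rr σ * om τ y`, `r2 q = Rr σ ^ 2`
(`om` is a unit vector: `u1² = 1 + τ²`), `nX q = Rr σ`, `wf i q = om τ y i`, `wf 2 q = tt τ`,
`ze (wf 2 q) = zz τ`, `E1 q = cos y`, `E2 q = sin y` (`rho2 q = Rr σ / u1 τ`), `q ∈ OffA`.
`Lf i q = s * (...)`, `Lf 2 q = s * Py c t`, `pxf q = s * Px c t`
(`Zf q = R Ξ_3 - D T`, `phi (tt τ) (1 - tt²) = (8/3) rfac (zz τ)`, `1 - tt² = 1/u1²`),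
`Df q = s * (...)`. By `Hf_off`, `Sf_off`: `Hf q = s² Hxy τ (Px c t) (Py c t)`,
`Sf q = s³ Sxy τ y (Px c t) (Py c t)`. For `s` near `0`: `10⁴ D² ≤ 1`, `10⁶ H ≤ 1`, so the
`smoothTransition` factors are `1`, `sC q = ga (Rr σ ^ 2) = sg σ`.
-/

set_option autoImplicit false

open scoped ContDiff

noncomputable section

namespace H99.EQ

theorem C12_u1_pos (τ : ℝ) : 0 < u1 τ := Real.sqrt_pos.2 (by positivity)

theorem C12_u1_sq (τ : ℝ) : u1 τ ^ 2 = 1 + τ ^ 2 := Real.sq_sqrt (by positivity)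

theorem C12_tt_sq (τ : ℝ) : 1 - tt τ ^ 2 = 1 / u1 τ ^ 2 := by
  have h := C12_u1_pos τ
  have h2 := C12_u1_sq τ
  rw [tt, div_pow, h2]
  have : (1 + τ ^ 2 : ℝ) ≠ 0 := by positivity
  field_simp
  ring

theorem C12_tt_mem (τ : ℝ) : tt τ ∈ Set.Ioo (-1 : ℝ) 1 := by
  have h := C12_tt_sq τ
  have h2 : 0 < 1 / u1 τ ^ 2 := by have := C12_u1_pos τ; positivity
  rw [← h] at h2
  have h3 : tt τ ^ 2 < 1 ^ 2 := by linarith
  have h4 := abs_lt_of_sq_lt_sq h3 (by norm_num)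
  exact abs_lt.1 h4

theorem C12_Rr_pos (σ : ℝ) : 0 < Rr σ := by
  have h := (C12_tt_mem σ).1
  rw [Rr]
  linarith

/-- the point `(Phi3 c, s • t)` -/
def C12q (c : (ℝ × ℝ) × ℝ) (t : V 3) (s : ℝ) : Ph 3 := (Phi3 c, s • t)

variable (c : (ℝ × ℝ) × ℝ) (t : V 3) (s : ℝ)

theorem C12_cx (k : Fin 3) : cx (C12q c t s) k = Rr c.1.1 * om c.1.2 c.2 k := by
  simp [cx, C12q, Phi3]

theorem C12_om0 (τ y : ℝ) : om τ y 0 = Real.cos y / u1 τ := rfl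
theorem C12_om1 (τ y : ℝ) : om τ y 1 = Real.sin y / u1 τ := rfl
theorem C12_om2 (τ y : ℝ) : om τ y 2 = tt τ := rfl

theorem C12_om01 (τ y : ℝ) : om τ y 0 ^ 2 + om τ y 1 ^ 2 = 1 / u1 τ ^ 2 := by
  rw [C12_om0, C12_om1, div_pow, div_pow, ← add_div, Real.cos_sq_add_sin_sq]

theorem C12_r2 : r2 (C12q c t s) = Rr c.1.1 ^ 2 := by
  rw [r2, C12_cx, C12_cx, C12_cx]
  have h := C12_om01 c.1.2 c.2
  rw [← C12_tt_sq] at h
  rw [C12_om2]
  linear_combination Rr c.1.1 ^ 2 * h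

theorem C12_nX : nX (C12q c t s) = Rr c.1.1 := by
  rw [nX, C12_r2, Real.sqrt_sq (C12_Rr_pos _).le]

theorem C12_wf (k : Fin 3) : wf k (C12q c t s) = om c.1.2 c.2 k := by
  rw [wf, C12_nX, C12_cx, mul_div_cancel_left₀ _ (C12_Rr_pos _).ne']

theorem C12_rho2 : rho2 (C12q c t s) = Rr c.1.1 / u1 c.1.2 := by
  rw [rho2, C12_cx, C12_cx]
  have h : (Rr c.1.1 * om c.1.2 c.2 0) ^ 2 + (Rr c.1.1 * om c.1.2 c.2 1) ^ 2 =
      (Rr c.1.1 / u1 c.1.2) ^ 2 := by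
    rw [div_pow, ← mul_one_div, ← C12_om01 c.1.2 c.2]
    ring
  rw [h, Real.sqrt_sq]
  exact (div_pos (C12_Rr_pos _) (C12_u1_pos _)).le

theorem C12_E1 : E1 (C12q c t s) = Real.cos c.2 := by
  rw [E1, C12_rho2, C12_cx, C12_om0]
  have h1 := (C12_Rr_pos c.1.1).ne'
  have h2 := (C12_u1_pos c.1.2).ne'
  field_simp

theorem C12_E2 : E2 (C12q c t s) = Real.sin c.2 := by
  rw [E2, C12_rho2, C12_cx, C12_om1]
  have h1 := (C12_Rr_pos c.1.1).ne'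
  have h2 := (C12_u1_pos c.1.2).ne'
  field_simp

theorem C12_OffA : C12q c t s ∈ OffA := by
  rintro ⟨h0, h1⟩
  rw [C12_cx, C12_om0] at h0
  rw [C12_cx, C12_om1] at h1
  have h2 := (C12_Rr_pos c.1.1).ne'
  have h3 := (C12_u1_pos c.1.2).ne'
  have h4 : Real.cos c.2 = 0 := by
    rcases mul_eq_zero.1 h0 with h | h
    · exact absurd h h2
    · rcases div_eq_zero_iff.1 h with h | h
      · exact h
      · exact absurd h h3
  have h5 : Real.sin c.2 = 0 := by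
    rcases mul_eq_zero.1 h1 with h | h
    · exact absurd h h2
    · rcases div_eq_zero_iff.1 h with h | h
      · exact h
      · exact absurd h h3
  have := Real.cos_sq_add_sin_sq c.2
  rw [h4, h5] at this
  norm_num at this

theorem C12_mom (k : Fin 3) : (C12q c t s).2 k = s * t k := rfl

theorem C12_Lf2 : Lf 2 (C12q c t s) = s * Py c t := by
  change cx (C12q c t s) 0 * (C12q c t s).2 1 - cx (C12q c t s) 1 * (C12q c t s).2 0 = _
  rw [C12_cx, C12_cx, C12_mom, C12_mom, C12_om0, C12_om1, Py]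
  ring

theorem C12_Zf : Zf (C12q c t s) = s * (Rr c.1.1 * (1 / u1 c.1.2 ^ 2) *
    (-(c.1.2 * Real.cos c.2) * t 0 - c.1.2 * Real.sin c.2 * t 1 + t 2)) := by
  rw [Zf, C12_wf, C12_wf]
  change (cx (C12q c t s) 1 * (C12q c t s).2 2 - cx (C12q c t s) 2 * (C12q c t s).2 1) *
    om c.1.2 c.2 1 -
    (cx (C12q c t s) 2 * (C12q c t s).2 0 - cx (C12q c t s) 0 * (C12q c t s).2 2) *
    om c.1.2 c.2 0 = _
  rw [C12_cx, C12_cx, C12_cx, C12_mom, C12_mom, C12_mom]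
  have h := C12_om01 c.1.2 c.2
  have h1 : om c.1.2 c.2 2 * om c.1.2 c.2 1 = c.1.2 * Real.sin c.2 * (1 / u1 c.1.2 ^ 2) := by
    rw [C12_om1, C12_om2, tt]; ring
  have h0 : om c.1.2 c.2 2 * om c.1.2 c.2 0 = c.1.2 * Real.cos c.2 * (1 / u1 c.1.2 ^ 2) := by
    rw [C12_om0, C12_om2, tt]; ring
  linear_combination s * Rr c.1.1 * (t 2 * h - t 1 * h1 - t 0 * h0)

theorem C12_pxf : pxf (C12q c t s) = s * Px c t := by
  rw [pxf, C12_Zf, C12_wf, C12_om2, Px]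
  have h := phi_F (C12_tt_mem c.1.2)
  rw [C12_tt_sq] at h
  have h2 : rfac (ze (tt c.1.2)) = rfac (zz c.1.2) := rfl
  rw [h2] at h
  linear_combination (s * (Rr c.1.1 *
    (-(c.1.2 * Real.cos c.2) * t 0 - c.1.2 * Real.sin c.2 * t 1 + t 2))) * h

theorem C12_Df : Df (C12q c t s) = s * (Rr c.1.1 * (om c.1.2 c.2 0 * t 0 +
    om c.1.2 c.2 1 * t 1 + om c.1.2 c.2 2 * t 2)) := by
  rw [Df, C12_cx, C12_cx, C12_cx, C12_mom, C12_mom, C12_mom]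
  ring

theorem C12_Hf : Hf (C12q c t s) = s ^ 2 * Hxy c.1.2 (Px c t) (Py c t) := by
  rw [Hf_off (C12_OffA c t s), C12_pxf, C12_Lf2, C12_wf, C12_om2, Hh, Hxy]
  have h2 : rla (ze (tt c.1.2)) = rla (zz c.1.2) := rfl
  rw [h2]
  ring

theorem C12_Sf : Sf (C12q c t s) = s ^ 3 * Sxy c.1.2 c.2 (Px c t) (Py c t) := by
  rw [Sf_off (C12_OffA c t s), C12_pxf, C12_Lf2, C12_wf, C12_om2, B1h, B2h, Hh, Sxy, C12_E1,
    C12_E2]
  have h1 : ze (tt c.1.2) = zz c.1.2 := rfl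
  rw [h1]
  ring

theorem near_pC : NearForm pC := by
  intro c t
  have hD : ∀ᶠ s : ℝ in nhds 0, 10 ^ 4 * (s * (Rr c.1.1 * (om c.1.2 c.2 0 * t 0 +
      om c.1.2 c.2 1 * t 1 + om c.1.2 c.2 2 * t 2))) ^ 2 < 1 := by
    refine (isOpen_lt (by fun_prop) continuous_const).mem_nhds ?_
    simp
  have hH : ∀ᶠ s : ℝ in nhds 0, 10 ^ 6 * (s ^ 2 * Hxy c.1.2 (Px c t) (Py c t)) < 1 := by
    refine (isOpen_lt (by fun_prop) continuous_const).mem_nhds ?_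
    simp
  filter_upwards [hD, hH] with s h1 h2
  have hs : sC (C12q c t s) = sg c.1.1 := by
    rw [sC, C12_r2, C12_Df, Real.smoothTransition.one_of_one_le (by linarith), mul_one]
    rfl
  have hG : Gf3 (C12q c t s) = sg c.1.1 := by
    rw [Gf3, hs, C12_Hf, Real.smoothTransition.one_of_one_le (by linarith), mul_one]
  refine ⟨?_, ?_, ?_⟩
  · change Gf3 (C12q c t s) * Hf (C12q c t s) = _
    rw [hG, C12_Hf]
  · exact hG
  · change Gf3 (C12q c t s) * Jf (C12q c t s) = _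
    rw [hG, Jf, hs, C12_Lf2, C12_Sf]

end H99.EQ
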