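import Pool.Agent.H99.EQ.CDefs
import Pool.Agent.H99.EQ.C1

/-!
# EQ-C2: off-axis formulas for `H` and `S`

Job EQ-C2. For `q ∈ OffO`: `ω` is a unit vector, `ω · L = 0`, `wf 2 q ∈ [-1,1]`; off the axis
`wf 2 q ∈ (-1,1)`, `1 - t² = ω_0² + ω_1²`, `ω_0 = E1 √(1-t²)`, `ω_1 = E2 √(1-t²)`.
`|L|² (1 - t²) = Z² + L_3²` (`Z = Zf`; Lagrange identity for `L × ω` with `L·ω = 0`), so
`H = c2 (|L|² + (φ²-1)/(1-t²) Z²) = c2/(1-t²) (φ² Z² + L_3²)`.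
`ξ'_1 = -(L_3 ω_1 + Z t ω_0)/(1-t²)` (from `L_0 = (-L_3 t ω_0 + Z ω_1)/(1-t²)`,
`L_1 = (-L_3 t ω_1 - Z ω_0)/(1-t²)`). Hence with `a₁ = Z (φ₁ (H+ζL²) + H - 3/8 L²)`,
`a₂ = ν₀ L H`, `a₃ = t H - ζ L²` (`L = L_3`, `ζ = ze t`):
`S = c3 (ω_0 (a₁ + a₃ Z t/(1-t²)) + ω_1 (-a₂ + a₃ L/(1-t²)))`, and
`c3 √(1-t²) (a₁ + a₃ Z t/(1-t²)) = B2 = ḣ φ Z (H + ζ L²)`,
`c3 √(1-t²) (-a₂ + a₃ L/(1-t²)) = B1 = ḣ L (ĥ H - ζ L²)` with `ḣ = c3/√(1-t²)`; these follow from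
`φ - 1 = φ₁ (1-t²)`, `ζ = 3(t-1)/8`, `ĥ = t - ν₀ (1-t²)` (check: `rhh (ze t) = t - nu0 t (1-t²)`).
-/

set_option autoImplicit false

open scoped ContDiff

noncomputable section

namespace H99.EQ

variable {q : Ph 3}

theorem OffA_open : IsOpen OffA := by
  have h1 : IsClosed {q : Ph 3 | cx q 0 = 0 ∧ cx q 1 = 0} := by
    have h2 : IsClosed {q : Ph 3 | cx q 0 = 0} :=
      isClosed_eq (by unfold cx; fun_prop) continuous_const
    have h3 : IsClosed {q : Ph 3 | cx q 1 = 0} :=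
      isClosed_eq (by unfold cx; fun_prop) continuous_const
    exact h2.inter h3
  exact h1.isOpen_compl

theorem OffO_open : IsOpen OffO := by
  have h1 : Continuous r2 := by
    unfold r2 cx
    fun_prop
  exact isOpen_lt continuous_const h1

theorem OffA_sub : OffA ⊆ OffO := by
  intro q hq
  have hq' : ¬ (cx q 0 = 0 ∧ cx q 1 = 0) := hq
  show 0 < r2 q
  unfold r2
  by_contra h1
  apply hq'
  constructor <;> nlinarith [sq_nonneg (cx q 0), sq_nonneg (cx q 1), sq_nonneg (cx q 2)]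

theorem c2x_nX (h : q ∈ OffO) : 0 < nX q := Real.sqrt_pos.mpr h

theorem c2x_nXsq (h : q ∈ OffO) : nX q ^ 2 = r2 q := Real.sq_sqrt (le_of_lt h)

theorem wf_unit (h : q ∈ OffO) : wf 0 q ^ 2 + wf 1 q ^ 2 + wf 2 q ^ 2 = 1 := by
  have h1 : 0 < r2 q := h
  have h2 := c2x_nX h
  have h3 := c2x_nXsq h
  unfold wf
  rw [div_pow, div_pow, div_pow, ← add_div, ← add_div, h3]
  exact div_self h1.ne'

theorem wf_L (q : Ph 3) : wf 0 q * Lf 0 q + wf 1 q * Lf 1 q + wf 2 q * Lf 2 q = 0 := by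
  unfold wf Lf
  simp only [Matrix.cons_val]
  ring

theorem wf_Icc (h : q ∈ OffO) : wf 2 q ∈ Set.Icc (-1 : ℝ) 1 := by
  have h1 := wf_unit h
  have h2 : wf 2 q ^ 2 ≤ 1 := by nlinarith [sq_nonneg (wf 0 q), sq_nonneg (wf 1 q)]
  exact abs_le.mp ((sq_le_one_iff_abs_le_one _).mp h2)

theorem c2x_rho (h : q ∈ OffA) : 0 < cx q 0 ^ 2 + cx q 1 ^ 2 := by
  have hq' : ¬ (cx q 0 = 0 ∧ cx q 1 = 0) := h
  by_contra h1
  apply hq'
  constructor <;> nlinarith [sq_nonneg (cx q 0), sq_nonneg (cx q 1)]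

theorem c2x_pos (h : q ∈ OffA) : 0 < wf 0 q ^ 2 + wf 1 q ^ 2 := by
  have h2 := c2x_nX (OffA_sub h)
  have h3 := c2x_rho h
  unfold wf
  rw [div_pow, div_pow, ← add_div]
  positivity

theorem wf_Ioo (h : q ∈ OffA) : wf 2 q ∈ Set.Ioo (-1 : ℝ) 1 := by
  have h1 := wf_unit (OffA_sub h)
  have h2 := c2x_pos h
  have h3 : wf 2 q ^ 2 < 1 := by linarith
  exact abs_lt.mp ((sq_lt_one_iff_abs_lt_one _).mp h3)

theorem c2x_rp (h : q ∈ OffA) : 0 < rho2 q := Real.sqrt_pos.mpr (c2x_rho h)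

theorem c2x_rsq (h : q ∈ OffA) : rho2 q ^ 2 = cx q 0 ^ 2 + cx q 1 ^ 2 :=
  Real.sq_sqrt (c2x_rho h).le

theorem c2x_sqrt (h : q ∈ OffA) : Real.sqrt (1 - wf 2 q ^ 2) = rho2 q / nX q := by
  have h1 := c2x_rp h
  have h2 := c2x_nX (OffA_sub h)
  have h3 : 1 - wf 2 q ^ 2 = (rho2 q / nX q) ^ 2 := by
    have h4 := wf_unit (OffA_sub h)
    have h5 : (rho2 q / nX q) ^ 2 = wf 0 q ^ 2 + wf 1 q ^ 2 := by
      unfold wf
      rw [div_pow, div_pow, div_pow, ← add_div, c2x_rsq h]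
    rw [h5]
    linarith
  rw [h3, Real.sqrt_sq (by positivity)]

theorem E_unit (h : q ∈ OffA) : E1 q ^ 2 + E2 q ^ 2 = 1 := by
  have h1 := c2x_rho h
  unfold E1 E2
  rw [div_pow, div_pow, ← add_div, c2x_rsq h]
  exact div_self h1.ne'

theorem wf0_E1 (h : q ∈ OffA) : wf 0 q = E1 q * Real.sqrt (1 - wf 2 q ^ 2) := by
  have h1 := c2x_rp h
  have h2 := c2x_nX (OffA_sub h)
  rw [c2x_sqrt h]
  unfold E1 wf
  field_simp

theorem wf1_E2 (h : q ∈ OffA) : wf 1 q = E2 q * Real.sqrt (1 - wf 2 q ^ 2) := by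
  have h1 := c2x_rp h
  have h2 := c2x_nX (OffA_sub h)
  rw [c2x_sqrt h]
  unfold E2 wf
  field_simp

theorem Lsq_id (h : q ∈ OffO) : Lsq q * (1 - wf 2 q ^ 2) = Zf q ^ 2 + Lf 2 q ^ 2 := by
  have h1 := wf_unit h
  have h2 := wf_L q
  unfold Lsq Zf
  generalize wf 0 q = w0 at *
  generalize wf 1 q = w1 at *
  generalize wf 2 q = w2 at *
  generalize Lf 0 q = l0 at *
  generalize Lf 1 q = l1 at *
  generalize Lf 2 q = l2 at *
  linear_combination (-(l0 ^ 2 + l1 ^ 2)) * h1 + (w0 * l0 + w1 * l1 - w2 * l2) * h2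

theorem rhh_ze {t : ℝ} (h : t ∈ Set.Ioo (-1 : ℝ) 1) :
    rhh (ze t) = t - nu0 t * (1 - t ^ 2) := by
  have h1 := pA_pos (Set.Ioo_subset_Icc_self h)
  have h2 : pA t ≠ 0 := by linarith
  have h3 := rW_ze t
  unfold rhh nu0
  rw [h3]
  field_simp
  unfold rN1 ze pA
  ring

theorem c2x_one (h : q ∈ OffA) : 0 < 1 - wf 2 q ^ 2 := by
  have h1 := wf_unit (OffA_sub h)
  have h2 := c2x_pos h
  linarith

theorem Hf_off (h : q ∈ OffA) : Hf q = Hh (wf 2 q) (pxf q) (Lf 2 q) := by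
  have hI := wf_Ioo h
  have hO := OffA_sub h
  have h1 := Lsq_id hO
  have h2 := phi1_phi (Set.Ioo_subset_Icc_self hI)
  have h3 := rla_ze hI
  have h4 := c2x_one h
  have h5 : Lsq q = (Zf q ^ 2 + Lf 2 q ^ 2) / (1 - wf 2 q ^ 2) := by
    rw [eq_div_iff h4.ne']
    exact h1
  have h6 : phi1 (wf 2 q) = (phi (wf 2 q) - 1) / (1 - wf 2 q ^ 2) := by
    rw [eq_div_iff h4.ne']
    exact h2
  unfold Hf Hh pxf
  rw [h3, h5, h6]
  field_simp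
  ring

theorem Sf_off (h : q ∈ OffA) :
    Sf q = E1 q * B2h (wf 2 q) (pxf q) (Lf 2 q) + E2 q * B1h (wf 2 q) (pxf q) (Lf 2 q) := by
  have hI := wf_Ioo h
  have hO := OffA_sub h
  have h0 := wf_unit hO
  have hL := wf_L q
  have h2 := phi1_phi (Set.Ioo_subset_Icc_self hI)
  have h3 := rhd_ze hI
  have h4 := c2x_one h
  have h5 : Lf 0 q * (1 - wf 2 q ^ 2) = -(Lf 2 q * wf 2 q * wf 0 q) + Zf q * wf 1 q := by
    unfold Zf
    linear_combination (-(Lf 0 q)) * h0 + wf 0 q * hL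
  have h6 : Lf 1 q * (1 - wf 2 q ^ 2) = -(Lf 2 q * wf 2 q * wf 1 q) - Zf q * wf 0 q := by
    unfold Zf
    linear_combination (-(Lf 1 q)) * h0 + wf 1 q * hL
  have h7 : x1f q = -(Lf 2 q * wf 1 q + Zf q * wf 2 q * wf 0 q) / (1 - wf 2 q ^ 2) := by
    rw [eq_div_iff h4.ne']
    unfold x1f
    linear_combination wf 2 q * h6
  have h8 := rhh_ze hI
  have hs : 0 < Real.sqrt (1 - wf 2 q ^ 2) := Real.sqrt_pos.mpr h4
  have hs2 : Real.sqrt (1 - wf 2 q ^ 2) ^ 2 = 1 - wf 2 q ^ 2 := Real.sq_sqrt h4.le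
  have h9 : phi1 (wf 2 q) = (phi (wf 2 q) - 1) / (1 - wf 2 q ^ 2) := by
    rw [eq_div_iff h4.ne']
    exact h2
  unfold Sf B2h B1h
  rw [← Hf_off h, h3, h8, h7, wf0_E1 h, wf1_E2 h, h9]
  unfold pxf ze
  generalize Real.sqrt (1 - wf 2 q ^ 2) = s at *
  generalize wf 2 q = t at *
  generalize E1 q = e1 at *
  generalize E2 q = e2 at *
  generalize c3 t = cc at *
  generalize nu0 t = nn at *
  generalize phi t = ph at *
  generalize Zf q = z at *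
  generalize Hf q = hh at *
  generalize Lf 2 q = l at *
  rw [← hs2]
  field_simp
  linear_combination (cc * e1 * z * (8 * hh - 3 * l ^ 2)) * hs2

/-- lower bound -/
theorem Hf_ge (h : q ∈ OffO) : 1 / 200 * Lsq q ≤ Hf q := by
  have hI := wf_Icc h
  have h1 := Lsq_id h
  have h2 := phi1_phi hI
  have h3 := phi_ge hI
  have h4 := c2_ge hI
  have hL : 0 ≤ Lsq q := by
    unfold Lsq
    positivity
  have h5 : 1 / 4 * Lsq q ≤ Lsq q + phi1 (wf 2 q) * (phi (wf 2 q) + 1) * Zf q ^ 2 := by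
    have h6 : 0 ≤ 1 - wf 2 q ^ 2 := by
      have := wf_unit h
      nlinarith [sq_nonneg (wf 0 q), sq_nonneg (wf 1 q)]
    rcases h6.eq_or_lt with h7 | h7
    · rw [← h7, mul_zero] at h1
      have h8 : Zf q ^ 2 = 0 := by nlinarith [sq_nonneg (Zf q), sq_nonneg (Lf 2 q)]
      rw [h8]
      linarith
    · have h8 : 0 ≤ (Lsq q + phi1 (wf 2 q) * (phi (wf 2 q) + 1) * Zf q ^ 2 - 1 / 4 * Lsq q) *
          (1 - wf 2 q ^ 2) := by
        have h9 : (Lsq q + phi1 (wf 2 q) * (phi (wf 2 q) + 1) * Zf q ^ 2 - 1 / 4 * Lsq q) *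
            (1 - wf 2 q ^ 2) = (phi (wf 2 q) ^ 2 - 1 / 4) * Zf q ^ 2 + 3 / 4 * Lf 2 q ^ 2 := by
          linear_combination (3 / 4) * h1 + (phi (wf 2 q) + 1) * Zf q ^ 2 * h2
        rw [h9]
        have h10 : 0 ≤ phi (wf 2 q) ^ 2 - 1 / 4 := by nlinarith
        positivity
      have h11 := nonneg_of_mul_nonneg_left h8 h7
      linarith
  have h6 : 0 ≤ Lsq q + phi1 (wf 2 q) * (phi (wf 2 q) + 1) * Zf q ^ 2 := by linarith
  calc 1 / 200 * Lsq q = 1 / 50 * (1 / 4 * Lsq q) := by ring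
    _ ≤ 1 / 50 * (Lsq q + phi1 (wf 2 q) * (phi (wf 2 q) + 1) * Zf q ^ 2) := by linarith
    _ ≤ c2 (wf 2 q) * (Lsq q + phi1 (wf 2 q) * (phi (wf 2 q) + 1) * Zf q ^ 2) :=
        mul_le_mul_of_nonneg_right h4 h6
    _ = Hf q := rfl

end H99.EQ
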