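import Pool.Agent.H99.EQ.CDefs
import Pool.Agent.H99.EQ.C1
import Pool.Agent.H99.EQ.C2

/-!
# EQ-C3: smoothness of the basic functions on `X ≠ 0`

Job EQ-C3. `r2` is polynomial and positive on `OffO`, so `nX` and `wf i` are smooth there; the
coefficient functions are smooth near `wf 2 q ∈ [-1,1]` (`c2_cdAt`, ...).
-/

set_option autoImplicit false

open scoped ContDiff

noncomputable section

namespace H99.EQ

variable {q : Ph 3}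

theorem cx_cd (i : Fin 3) : ContDiff ℝ ∞ fun q => cx q i := by
  unfold cx
  exact ((contDiff_apply ℝ ℝ i).comp contDiff_fst).sub contDiff_const

/-- the momentum coordinates are smooth -/
theorem C3_xi_cd (i : Fin 3) : ContDiff ℝ ∞ fun q : Ph 3 => q.2 i :=
  (contDiff_apply ℝ ℝ i).comp contDiff_snd

theorem r2_cd : ContDiff ℝ ∞ r2 := by
  have h0 := cx_cd 0
  have h1 := cx_cd 1
  have h2 := cx_cd 2
  exact ((h0.pow 2).add (h1.pow 2)).add (h2.pow 2)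

theorem Df_cd : ContDiff ℝ ∞ Df := by
  have h0 := cx_cd 0
  have h1 := cx_cd 1
  have h2 := cx_cd 2
  exact ((h0.mul (C3_xi_cd 0)).add (h1.mul (C3_xi_cd 1))).add (h2.mul (C3_xi_cd 2))

theorem Lf_cd (i : Fin 3) : ContDiff ℝ ∞ (Lf i) := by
  have h0 := cx_cd 0
  have h1 := cx_cd 1
  have h2 := cx_cd 2
  fin_cases i
  · exact (h1.mul (C3_xi_cd 2)).sub (h2.mul (C3_xi_cd 1))
  · exact (h2.mul (C3_xi_cd 0)).sub (h0.mul (C3_xi_cd 2))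
  · exact (h0.mul (C3_xi_cd 1)).sub (h1.mul (C3_xi_cd 0))

theorem nX_cd (h : q ∈ OffO) : ContDiffAt ℝ ∞ nX q :=
  r2_cd.contDiffAt.sqrt (ne_of_gt h)

theorem C3_nX_ne (h : q ∈ OffO) : nX q ≠ 0 := (Real.sqrt_pos.2 h).ne'

theorem wf_cd (i : Fin 3) (h : q ∈ OffO) : ContDiffAt ℝ ∞ (wf i) q :=
  (cx_cd i).contDiffAt.div (nX_cd h) (C3_nX_ne h)

theorem Zf_cd (h : q ∈ OffO) : ContDiffAt ℝ ∞ Zf q :=
  ((Lf_cd 0).contDiffAt.mul (wf_cd 1 h)).sub ((Lf_cd 1).contDiffAt.mul (wf_cd 0 h))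

theorem C3_x1f_cd (h : q ∈ OffO) : ContDiffAt ℝ ∞ x1f q :=
  ((Lf_cd 1).contDiffAt.mul (wf_cd 2 h)).sub ((Lf_cd 2).contDiffAt.mul (wf_cd 1 h))

theorem C3_Lsq_cd : ContDiff ℝ ∞ Lsq :=
  (((Lf_cd 0).pow 2).add ((Lf_cd 1).pow 2)).add ((Lf_cd 2).pow 2)

theorem C3_comp {f : ℝ → ℝ} (h : q ∈ OffO) (hf : ContDiffAt ℝ ∞ f (wf 2 q)) :
    ContDiffAt ℝ ∞ (fun q => f (wf 2 q)) q :=
  ContDiffAt.comp q hf (wf_cd 2 h)

theorem C3_ze_cd : ContDiff ℝ ∞ ze := by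
  unfold ze
  fun_prop

theorem Hf_cd (h : q ∈ OffO) : ContDiffAt ℝ ∞ Hf q := by
  have ht := wf_Icc h
  have h1 := C3_comp h (c2_cdAt ht)
  have h2 := C3_comp h (phi_cdAt ht)
  have h3 := C3_comp h (phi1_cdAt ht)
  exact h1.mul ((C3_Lsq_cd.contDiffAt).add ((h3.mul (h2.add contDiffAt_const)).mul
    ((Zf_cd h).pow 2)))

theorem Sf_cd (h : q ∈ OffO) : ContDiffAt ℝ ∞ Sf q := by
  have ht := wf_Icc h
  have hc3 := C3_comp h (c3_cdAt ht)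
  have h3 := C3_comp h (phi1_cdAt ht)
  have hn := C3_comp h (nu0_cdAt ht)
  have hz := C3_comp h (C3_ze_cd.contDiffAt (x := wf 2 q))
  have hH := Hf_cd h
  have hL := (Lf_cd 2).contDiffAt (x := q)
  have hZ := Zf_cd h
  have hx := C3_x1f_cd h
  have w0 := wf_cd 0 h
  have w1 := wf_cd 1 h
  have w2 := wf_cd 2 h
  exact hc3.mul ((((hZ.mul (((h3.mul (hH.add (hz.mul (hL.pow 2)))).add hH).sub
    (contDiffAt_const.mul (hL.pow 2)))).mul w0).sub (((hn.mul hL).mul hH).mul w1)).sub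
    (((w2.mul hH).sub (hz.mul (hL.pow 2))).mul hx))

theorem pxf_cd (h : q ∈ OffO) : ContDiffAt ℝ ∞ pxf q :=
  (C3_comp h (phi_cdAt (wf_Icc h))).mul (Zf_cd h)

theorem C3_pos (h : q ∈ OffA) : 0 < cx q 0 ^ 2 + cx q 1 ^ 2 := by
  rcases eq_or_ne (cx q 0) 0 with h0 | h0
  · have h1 : cx q 1 ≠ 0 := fun h1 => h ⟨h0, h1⟩
    positivity
  · positivity

theorem C3_rho_cd (h : q ∈ OffA) : ContDiffAt ℝ ∞ rho2 q :=
  (((cx_cd 0).pow 2).add ((cx_cd 1).pow 2)).contDiffAt.sqrt (C3_pos h).ne'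

theorem E1_cd (h : q ∈ OffA) : ContDiffAt ℝ ∞ E1 q :=
  (cx_cd 0).contDiffAt.div (C3_rho_cd h) (Real.sqrt_pos.2 (C3_pos h)).ne'

theorem E2_cd (h : q ∈ OffA) : ContDiffAt ℝ ∞ E2 q :=
  (cx_cd 1).contDiffAt.div (C3_rho_cd h) (Real.sqrt_pos.2 (C3_pos h)).ne'

theorem sC_cd : ContDiff ℝ ∞ sC := by
  have h1 : ContDiff ℝ ∞ fun q => ga (r2 q) := ga_cd.comp r2_cd
  have h2 : ContDiff ℝ ∞ fun q => (2 : ℝ) - 10 ^ 4 * Df q ^ 2 :=
    contDiff_const.sub (contDiff_const.mul (Df_cd.pow 2))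
  exact h1.mul (Real.smoothTransition.contDiff.comp h2)

end H99.EQ
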