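import Pool.Agent.H99.EQ.C3

/-!
# EQ-C4: brackets of `ω` and `L`

Job EQ-C4. `pb f g q = pbL (fderiv f q) (fderiv g q)` by definition. For the coordinate functions:
`pb (Lf a) (cx · d) = ∂_{ξ_d} L_a = -ε_{adb} X_b`; `nX` is a function of `r2` and
`pb (Lf a) r2 = 0`, so `pb (Lf a) (wf d) = -ε_{adb} ω_b`; `pb (wf a) (wf b) = 0` (functions of `x`
only); `pb (Lf a) (Lf b) = -ε_{abc} L_c`. Only the following are needed. `Zf = L_0 ω_1 - L_1 ω_0`: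
`pb Z T = 1 - T²` (`T = wf 2`), `pb (Lf 2) Z = 0`, and `pb Z (ω_0, ω_1) = -ω_2 (ω_0, ω_1)`, so
`pb Z E1 = pb Z E2 = 0` (`E1 = ω_0/√(ω_0²+ω_1²)`). `pxf = phi(T) Z`.
-/

set_option autoImplicit false

open scoped ContDiff

noncomputable section

namespace H99.EQ

variable {q : Ph 3}

/-- derivative of a function at a point, as a function of the direction -/
def c4HD (f : Ph 3 → ℝ) (q : Ph 3) (D : Ph 3 → ℝ) : Prop :=
  ∃ f' : Ph 3 →L[ℝ] ℝ, HasFDerivAt f f' q ∧ ∀ v, f' v = D v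

theorem c4HD.fderiv {f : Ph 3 → ℝ} {D : Ph 3 → ℝ} (h : c4HD f q D) (v : Ph 3) :
    fderiv ℝ f q v = D v := by
  obtain ⟨f', h1, h2⟩ := h
  rw [h1.fderiv]
  exact h2 v

theorem c4HD.congr {f : Ph 3 → ℝ} {D E : Ph 3 → ℝ} (h : c4HD f q D) (h' : ∀ v, D v = E v) :
    c4HD f q E := by
  obtain ⟨f', h1, h2⟩ := h
  exact ⟨f', h1, fun v => (h2 v).trans (h' v)⟩

theorem c4HD.mul {f g : Ph 3 → ℝ} {D E : Ph 3 → ℝ} (hf : c4HD f q D) (hg : c4HD g q E) :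
    c4HD (fun x => f x * g x) q (fun v => D v * g q + f q * E v) := by
  obtain ⟨f', h1, h2⟩ := hf
  obtain ⟨g', h3, h4⟩ := hg
  refine ⟨_, h1.mul h3, fun v => ?_⟩
  simp only [add_apply, smul_apply, smul_eq_mul, h2, h4]
  ring

theorem c4HD.sub {f g : Ph 3 → ℝ} {D E : Ph 3 → ℝ} (hf : c4HD f q D) (hg : c4HD g q E) :
    c4HD (fun x => f x - g x) q (fun v => D v - E v) := by
  obtain ⟨f', h1, h2⟩ := hf
  obtain ⟨g', h3, h4⟩ := hg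
  refine ⟨_, h1.sub h3, fun v => ?_⟩
  simp only [sub_apply, h2, h4]

theorem c4HD.add {f g : Ph 3 → ℝ} {D E : Ph 3 → ℝ} (hf : c4HD f q D) (hg : c4HD g q E) :
    c4HD (fun x => f x + g x) q (fun v => D v + E v) := by
  obtain ⟨f', h1, h2⟩ := hf
  obtain ⟨g', h3, h4⟩ := hg
  refine ⟨_, h1.add h3, fun v => ?_⟩
  simp only [add_apply, h2, h4]

theorem c4HD.comp {f : Ph 3 → ℝ} {D : Ph 3 → ℝ} {F : ℝ → ℝ} {F' : ℝ} (hf : c4HD f q D)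
    (hF : HasDerivAt F F' (f q)) : c4HD (fun x => F (f x)) q (fun v => F' * D v) := by
  obtain ⟨f', h1, h2⟩ := hf
  refine ⟨_, hF.comp_hasFDerivAt q h1, fun v => ?_⟩
  simp only [smul_apply, smul_eq_mul, h2]

theorem c4HD_cx (i : Fin 3) (q : Ph 3) : c4HD (fun q => cx q i) q (fun v => v.1 i) := by
  refine ⟨(ContinuousLinearMap.proj i).comp (ContinuousLinearMap.fst ℝ (V 3) (V 3)), ?_,
    fun _ => rfl⟩
  exact ((ContinuousLinearMap.proj i).comp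
    (ContinuousLinearMap.fst ℝ (V 3) (V 3))).hasFDerivAt.sub_const _

theorem c4HD_xi (i : Fin 3) (q : Ph 3) : c4HD (fun q => q.2 i) q (fun v => v.2 i) :=
  ⟨(ContinuousLinearMap.proj i).comp (ContinuousLinearMap.snd ℝ (V 3) (V 3)),
    ((ContinuousLinearMap.proj i).comp (ContinuousLinearMap.snd ℝ (V 3) (V 3))).hasFDerivAt,
    fun _ => rfl⟩

theorem c4HD_inv_sqrt {f : Ph 3 → ℝ} {D : Ph 3 → ℝ} (hf : c4HD f q D) (h0 : 0 < f q) :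
    c4HD (fun x => (Real.sqrt (f x))⁻¹) q (fun v => -(D v) / (2 * Real.sqrt (f q) ^ 3)) := by
  have hs : Real.sqrt (f q) ≠ 0 := (Real.sqrt_pos.2 h0).ne'
  have h1 : HasDerivAt (fun x => (Real.sqrt x)⁻¹)
      (-(1 / (2 * Real.sqrt (f q))) / (Real.sqrt (f q)) ^ 2) (f q) :=
    (Real.hasDerivAt_sqrt h0.ne').inv hs
  refine (hf.comp h1).congr fun v => ?_
  field_simp

theorem c4HD_r2 (q : Ph 3) : c4HD r2 q
    (fun v => 2 * (cx q 0 * v.1 0 + cx q 1 * v.1 1 + cx q 2 * v.1 2)) := by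
  have h := (((c4HD_cx 0 q).mul (c4HD_cx 0 q)).add ((c4HD_cx 1 q).mul (c4HD_cx 1 q))).add
    ((c4HD_cx 2 q).mul (c4HD_cx 2 q))
  have e : r2 = fun x => cx x 0 * cx x 0 + cx x 1 * cx x 1 + cx x 2 * cx x 2 := by
    funext x
    unfold r2
    ring
  rw [e]
  exact h.congr fun v => by ring

theorem c4_nX_pos (h : q ∈ OffO) : 0 < nX q := Real.sqrt_pos.2 h

theorem c4_nX_sq (h : q ∈ OffO) : nX q ^ 2 = cx q 0 ^ 2 + cx q 1 ^ 2 + cx q 2 ^ 2 :=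
  Real.sq_sqrt (le_of_lt h)

theorem c4HD_wf (h : q ∈ OffO) (i : Fin 3) : c4HD (wf i) q
    (fun v => (v.1 i - wf i q * (wf 0 q * v.1 0 + wf 1 q * v.1 1 + wf 2 q * v.1 2)) / nX q) := by
  have h1 := (c4HD_cx i q).mul (c4HD_inv_sqrt (c4HD_r2 q) h)
  have hn := c4_nX_pos h
  refine h1.congr fun v => ?_
  unfold wf
  change v.1 i * (nX q)⁻¹ + cx q i * (-(2 * (cx q 0 * v.1 0 + cx q 1 * v.1 1 + cx q 2 * v.1 2)) /
    (2 * nX q ^ 3)) = _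
  field_simp
  ring

theorem c4HD_Lf0 (q : Ph 3) : c4HD (Lf 0) q
    (fun v => v.1 1 * q.2 2 + cx q 1 * v.2 2 - (v.1 2 * q.2 1 + cx q 2 * v.2 1)) :=
  ((c4HD_cx 1 q).mul (c4HD_xi 2 q)).sub ((c4HD_cx 2 q).mul (c4HD_xi 1 q))

theorem c4HD_Lf1 (q : Ph 3) : c4HD (Lf 1) q
    (fun v => v.1 2 * q.2 0 + cx q 2 * v.2 0 - (v.1 0 * q.2 2 + cx q 0 * v.2 2)) :=
  ((c4HD_cx 2 q).mul (c4HD_xi 0 q)).sub ((c4HD_cx 0 q).mul (c4HD_xi 2 q))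

theorem c4HD_Lf2 (q : Ph 3) : c4HD (Lf 2) q
    (fun v => v.1 0 * q.2 1 + cx q 0 * v.2 1 - (v.1 1 * q.2 0 + cx q 1 * v.2 0)) :=
  ((c4HD_cx 0 q).mul (c4HD_xi 1 q)).sub ((c4HD_cx 1 q).mul (c4HD_xi 0 q))

theorem c4HD_Zf (h : q ∈ OffO) : c4HD Zf q (fun v =>
    ((v.1 1 * q.2 2 + cx q 1 * v.2 2 - (v.1 2 * q.2 1 + cx q 2 * v.2 1)) * wf 1 q + Lf 0 q *
      ((v.1 1 - wf 1 q * (wf 0 q * v.1 0 + wf 1 q * v.1 1 + wf 2 q * v.1 2)) / nX q)) -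
    ((v.1 2 * q.2 0 + cx q 2 * v.2 0 - (v.1 0 * q.2 2 + cx q 0 * v.2 2)) * wf 0 q + Lf 1 q *
      ((v.1 0 - wf 0 q * (wf 0 q * v.1 0 + wf 1 q * v.1 1 + wf 2 q * v.1 2)) / nX q))) :=
  ((c4HD_Lf0 q).mul (c4HD_wf h 1)).sub ((c4HD_Lf1 q).mul (c4HD_wf h 0))

theorem c4_wf_Icc (h : q ∈ OffO) : wf 2 q ∈ Set.Icc (-1 : ℝ) 1 := wf_Icc h

theorem c4HD_pxf (h : q ∈ OffO) : ∃ c : ℝ, c4HD pxf q (fun v =>
    (c * ((v.1 2 - wf 2 q * (wf 0 q * v.1 0 + wf 1 q * v.1 1 + wf 2 q * v.1 2)) / nX q)) * Zf q +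
    phi (wf 2 q) *
    (((v.1 1 * q.2 2 + cx q 1 * v.2 2 - (v.1 2 * q.2 1 + cx q 2 * v.2 1)) * wf 1 q + Lf 0 q *
      ((v.1 1 - wf 1 q * (wf 0 q * v.1 0 + wf 1 q * v.1 1 + wf 2 q * v.1 2)) / nX q)) -
    ((v.1 2 * q.2 0 + cx q 2 * v.2 0 - (v.1 0 * q.2 2 + cx q 0 * v.2 2)) * wf 0 q + Lf 1 q *
      ((v.1 0 - wf 0 q * (wf 0 q * v.1 0 + wf 1 q * v.1 1 + wf 2 q * v.1 2)) / nX q)))) := by
  have h1 : HasDerivAt phi (deriv phi (wf 2 q)) (wf 2 q) :=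
    ((phi_cdAt (wf_Icc h)).differentiableAt (by simp)).hasDerivAt
  exact ⟨_, ((c4HD_wf h 2).comp h1).mul (c4HD_Zf h)⟩

theorem c4_rho_pos (h : q ∈ OffA) : 0 < cx q 0 ^ 2 + cx q 1 ^ 2 := by
  by_contra hn
  push Not at hn
  refine h ⟨?_, ?_⟩ <;> nlinarith [sq_nonneg (cx q 0), sq_nonneg (cx q 1)]

theorem c4_OffA_sub (h : q ∈ OffA) : q ∈ OffO := OffA_sub h

theorem c4HD_rr (q : Ph 3) : c4HD (fun q => cx q 0 ^ 2 + cx q 1 ^ 2) q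
    (fun v => 2 * (cx q 0 * v.1 0 + cx q 1 * v.1 1)) := by
  have h := ((c4HD_cx 0 q).mul (c4HD_cx 0 q)).add ((c4HD_cx 1 q).mul (c4HD_cx 1 q))
  have e : (fun q : Ph 3 => cx q 0 ^ 2 + cx q 1 ^ 2) =
      fun x => cx x 0 * cx x 0 + cx x 1 * cx x 1 := by
    funext x
    ring
  rw [e]
  exact h.congr fun v => by ring

theorem c4HD_E (h : q ∈ OffA) (i : Fin 3) :
    c4HD (fun q => cx q i / rho2 q) q (fun v =>
      (v.1 i - cx q i / rho2 q * (E1 q * v.1 0 + E2 q * v.1 1)) / rho2 q) := by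
  have h1 := (c4HD_cx i q).mul (c4HD_inv_sqrt (c4HD_rr q) (c4_rho_pos h))
  have hn : 0 < rho2 q := Real.sqrt_pos.2 (c4_rho_pos h)
  refine h1.congr fun v => ?_
  unfold E1 E2
  change v.1 i * (rho2 q)⁻¹ + cx q i * (-(2 * (cx q 0 * v.1 0 + cx q 1 * v.1 1)) /
    (2 * rho2 q ^ 3)) = _
  field_simp
  ring

theorem c4HD_E1 (h : q ∈ OffA) : c4HD E1 q (fun v =>
    (v.1 0 - E1 q * (E1 q * v.1 0 + E2 q * v.1 1)) / rho2 q) := c4HD_E h 0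

theorem c4HD_E2 (h : q ∈ OffA) : c4HD E2 q (fun v =>
    (v.1 1 - E2 q * (E1 q * v.1 0 + E2 q * v.1 1)) / rho2 q) := c4HD_E h 1

theorem c4_pb {f g : Ph 3 → ℝ} {D E : Ph 3 → ℝ} (hf : c4HD f q D) (hg : c4HD g q E) :
    pb f g q = ∑ j, (D (0, Pi.single j 1) * E (Pi.single j 1, 0) -
      D (Pi.single j 1, 0) * E (0, Pi.single j 1)) := by
  unfold pb
  simp only [hf.fderiv, hg.fderiv]

theorem c4_cx (h : q ∈ OffO) (i : Fin 3) : cx q i = nX q * wf i q := by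
  have := (c4_nX_pos h).ne'
  unfold wf
  field_simp

theorem c4_Lf0 (h : q ∈ OffO) : Lf 0 q = nX q * wf 1 q * q.2 2 - nX q * wf 2 q * q.2 1 := by
  rw [← c4_cx h, ← c4_cx h]; rfl

theorem c4_Lf1 (h : q ∈ OffO) : Lf 1 q = nX q * wf 2 q * q.2 0 - nX q * wf 0 q * q.2 2 := by
  rw [← c4_cx h, ← c4_cx h]; rfl

theorem c4_E (h : q ∈ OffA) : E2 q * cx q 0 = E1 q * cx q 1 := by
  have hn : 0 < rho2 q := Real.sqrt_pos.2 (c4_rho_pos h)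
  unfold E1 E2
  field_simp

theorem c4_E1 (h : q ∈ OffA) : cx q 0 = rho2 q * E1 q := by
  have hn : 0 < rho2 q := Real.sqrt_pos.2 (c4_rho_pos h)
  unfold E1
  field_simp

theorem c4_E2 (h : q ∈ OffA) : cx q 1 = rho2 q * E2 q := by
  have hn : 0 < rho2 q := Real.sqrt_pos.2 (c4_rho_pos h)
  unfold E2
  field_simp

theorem pb_px_T (h : q ∈ OffA) :
    pb pxf (wf 2) q = phi (wf 2 q) * (1 - wf 2 q ^ 2) := by
  obtain ⟨c, hc⟩ := c4HD_pxf (c4_OffA_sub h)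
  rw [c4_pb hc (c4HD_wf (c4_OffA_sub h) 2)]
  have h1 := wf_unit (c4_OffA_sub h)
  have h2 := c4_nX_pos (c4_OffA_sub h)
  simp [Fin.sum_univ_three]
  simp only [c4_cx (c4_OffA_sub h)]
  field_simp
  linear_combination phi (wf 2 q) * h1

theorem pb_L_T (h : q ∈ OffO) : pb (Lf 2) (wf 2) q = 0 := by
  rw [c4_pb (c4HD_Lf2 q) (c4HD_wf h 2)]
  have h2 := c4_nX_pos h
  simp [Fin.sum_univ_three]
  simp only [c4_cx h]
  field_simp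
  ring

theorem pb_L_px (h : q ∈ OffA) : pb (Lf 2) pxf q = 0 := by
  have ho := c4_OffA_sub h
  obtain ⟨c, hc⟩ := c4HD_pxf ho
  rw [c4_pb (c4HD_Lf2 q) hc]
  have h2 := c4_nX_pos ho
  simp [Fin.sum_univ_three]
  simp only [c4_cx ho, c4_Lf0 ho, c4_Lf1 ho]
  field_simp
  ring

theorem pb_L_E1 (h : q ∈ OffA) : pb (Lf 2) E1 q = -E2 q := by
  rw [c4_pb (c4HD_Lf2 q) (c4HD_E1 h)]
  have hn : 0 < rho2 q := Real.sqrt_pos.2 (c4_rho_pos h)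
  have h1 := E_unit h
  simp [Fin.sum_univ_three]
  simp only [c4_E1 h, c4_E2 h]
  field_simp
  ring

theorem pb_L_E2 (h : q ∈ OffA) : pb (Lf 2) E2 q = E1 q := by
  rw [c4_pb (c4HD_Lf2 q) (c4HD_E2 h)]
  have hn : 0 < rho2 q := Real.sqrt_pos.2 (c4_rho_pos h)
  have h1 := E_unit h
  simp [Fin.sum_univ_three]
  simp only [c4_E1 h, c4_E2 h]
  field_simp
  ring

theorem pb_T_E1 (h : q ∈ OffA) : pb (wf 2) E1 q = 0 := by
  rw [c4_pb (c4HD_wf (c4_OffA_sub h) 2) (c4HD_E1 h)]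
  simp

theorem pb_T_E2 (h : q ∈ OffA) : pb (wf 2) E2 q = 0 := by
  rw [c4_pb (c4HD_wf (c4_OffA_sub h) 2) (c4HD_E2 h)]
  simp

theorem pb_px_E1 (h : q ∈ OffA) : pb pxf E1 q = 0 := by
  have ho := c4_OffA_sub h
  obtain ⟨c, hc⟩ := c4HD_pxf ho
  rw [c4_pb hc (c4HD_E1 h)]
  have h2 := c4_nX_pos ho
  have hn : 0 < rho2 q := Real.sqrt_pos.2 (c4_rho_pos h)
  have h1 := E_unit h
  simp [Fin.sum_univ_three]
  unfold wf
  simp only [c4_E1 h, c4_E2 h]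
  field_simp
  linear_combination (cx q 2 * phi (cx q 2 / nX q) * E1 q) * h1

theorem pb_px_E2 (h : q ∈ OffA) : pb pxf E2 q = 0 := by
  have ho := c4_OffA_sub h
  obtain ⟨c, hc⟩ := c4HD_pxf ho
  rw [c4_pb hc (c4HD_E2 h)]
  have h2 := c4_nX_pos ho
  have hn : 0 < rho2 q := Real.sqrt_pos.2 (c4_rho_pos h)
  have h1 := E_unit h
  simp [Fin.sum_univ_three]
  unfold wf
  simp only [c4_E1 h, c4_E2 h]
  field_simp
  linear_combination (cx q 2 * phi (cx q 2 / nX q) * E2 q) * h1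

end H99.EQ
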