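import Pool.Agent.H99.EQ.C4

/-!
# EQ-C5: `{H, S} = 0`

Job EQ-C5. Off the axis (open set): near `q`, `H = Hh (T, px, L)`, `S = E1 B2h + E2 B1h`
(C2). `pb` is bilinear and antisymmetric in the differentials, so with `T = wf 2`, `px = pxf`,
`L = Lf 2`, `F(t) = phi t (1 - t²) = (8/3) rfac (ze t)` (`phi_F`), and derivatives with respect to
`t`: `F (rla ∘ ze)' = 2 ρ λ`, `F (rhd ∘ ze)' = ρ ḣ`, `F (ze)' = rfac (ze t) =: fac`,
`F (rhh ∘ ze)' = 1 - ρ ĥ` (`ze' = 3/8`, R1: `rhd_deriv`, `rhh_deriv`, `rhd_sq`):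
`{H, T} = 2 λ px F`, `{H, px} = -2ρ H`, `{H, L} = 0`, `{H, E1} = -2 λ L E2`, `{H, E2} = 2 λ L E1`;
`{H, B2} = -2 λ L B1`, `{H, B1} = 2 λ L B2`:
`{H, B2} = 2λρ ḣ px² (H+ζL²) - 2ρ H ḣ (H + ζL²) + 2 λ px² ḣ L² fac`
`= -2ρ ḣ λ L² (H+ζL²) + 2λ px² ḣ L² fac`; with `fac = -ζ(1+ρ)` and
`λ ĥ = ζ + ρ(λ+ζ)` this is `-2λ L² ḣ (ĥ H - ζL²)`.
`{H, B1} = L·2λ px ḣ H + L³·2λ px ḣ ζ` by `F (ḣĥ)' = ḣ`, `F (ḣζ)' = -ḣζ`.
So `{H, S} = -2λL E2 B2 - 2λL E1 B1 + 2λL E1 B1 + 2λL E2 B2 = 0`.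
On the axis (`X ≠ 0`): `pb Hf Sf` is continuous on `OffO` (smooth functions), zero on `OffA`, and
`q` is in the closure of `OffA` (move `X_0`).
`pb_L_S`: `{L, S} = -E2 B2 + E1 B1` off the axis.
-/

set_option autoImplicit false

open scoped ContDiff

noncomputable section

namespace H99.EQ

variable {q : Ph 3}

/-- the structure relation in the variable `z` -/
theorem rla_rhh {z : ℝ} (h : z ∈ Set.Ioo (-(3 / 4) : ℝ) 0) :
    rla z * rhh z = z + rrho z * (rla z + z) := by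
  have hN := (rN_pos h).ne'
  have hW := (rW_pos h).ne'
  have hQ := (rQ_neg h).ne
  have hz : z ≠ 0 := ne_of_lt h.2
  have e1 : rQ z = -(rW z ^ 2) - 4 * z * rN z := by linarith [rW_id z]
  have e2 : z * rN1 z = z * rW z + 2 * rN z := by
    unfold rN1 rW rN
    ring
  have e3 : rfac z * rQ z = -2 * rN z * rW z := by
    unfold rfac
    field_simp
  have e4 : rrho z * z = -z - rfac z := by
    unfold rrho
    field_simp
  have e5 : rla z * (4 * rN z) = rW z ^ 2 := by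
    unfold rla
    field_simp
  have e6 : rhh z * rW z = -rN1 z := by
    unfold rhh
    field_simp
  have key : (rla z * rhh z - (z + rrho z * (rla z + z))) * (4 * rN z * rW z * z) = 0 := by
    have e7 : (rla z + z) * (4 * rN z) = -rQ z := by
      rw [e1]
      linear_combination e5
    have a1 : rla z * rhh z * (4 * rN z * rW z * z) = rW z ^ 2 * (-rN1 z) * z := by
      linear_combination (rhh z * rW z * z) * e5 + rW z ^ 2 * z * e6
    have a2 : rrho z * (rla z + z) * (4 * rN z * rW z * z) =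
        (z * rQ z - 2 * rN z * rW z) * rW z := by
      linear_combination (rrho z * rW z * z) * e7 - rQ z * rW z * e4 + rW z * e3
    linear_combination a1 - a2 - rW z ^ 2 * e2 - z * rW z * e1
  have hne : 4 * rN z * rW z * z ≠ 0 := by positivity
  have := (mul_eq_zero.1 key).resolve_right hne
  linarith

theorem C5_rla_deriv {z : ℝ} (h : z ∈ Set.Ioo (-(3 / 4) : ℝ) 0) :
    rfac z * deriv rla z = 2 * rrho z * rla z := by
  have hd : DifferentiableAt ℝ rhd z :=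
    ((rhd_cd.contDiffAt (Ioo_mem_nhds h.1 h.2)).differentiableAt (by simp))
  have e : rla =ᶠ[nhds z] fun z => rhd z * rhd z := by
    filter_upwards [Ioo_mem_nhds h.1 h.2] with w hw
    exact (rhd_sq hw).symm
  have h1 : deriv rla z = deriv rhd z * rhd z + rhd z * deriv rhd z := by
    rw [e.deriv_eq]
    exact (hd.hasDerivAt.mul hd.hasDerivAt).deriv
  rw [h1]
  have h2 := rhd_deriv h
  have h3 := rhd_sq h
  linear_combination 2 * rhd z * h2 + 2 * rrho z * h3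

theorem C5_fac {z : ℝ} (h : z ∈ Set.Ioo (-(3 / 4) : ℝ) 0) :
    rfac z = -z * (1 + rrho z) := by
  have hz : z ≠ 0 := ne_of_lt h.2
  unfold rrho
  field_simp
  ring

/-! ### bilinearity -/

theorem C5_add_left (α α' β : Ph 3 →L[ℝ] ℝ) : pbL (α + α') β = pbL α β + pbL α' β := by
  simp only [pbL, ← Finset.sum_add_distrib]
  refine Finset.sum_congr rfl fun j _ => ?_
  simp only [add_apply]
  ring

theorem C5_smul_left (c : ℝ) (α β : Ph 3 →L[ℝ] ℝ) : pbL (c • α) β = c * pbL α β := by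
  simp only [pbL, Finset.mul_sum]
  refine Finset.sum_congr rfl fun j _ => ?_
  simp only [smul_apply, smul_eq_mul]
  ring

theorem C5_anti (α β : Ph 3 →L[ℝ] ℝ) : pbL α β = -pbL β α := by
  simp only [pbL, ← Finset.sum_neg_distrib]
  refine Finset.sum_congr rfl fun j _ => ?_
  ring

theorem C5_self (α : Ph 3 →L[ℝ] ℝ) : pbL α α = 0 := by
  have := C5_anti α α
  linarith

theorem C5_add_right (α β β' : Ph 3 →L[ℝ] ℝ) : pbL α (β + β') = pbL α β + pbL α β' := by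
  rw [C5_anti α (β + β'), C5_add_left, C5_anti α β, C5_anti α β']
  ring

theorem C5_smul_right (c : ℝ) (α β : Ph 3 →L[ℝ] ℝ) : pbL α (c • β) = c * pbL α β := by
  rw [C5_anti α (c • β), C5_smul_left, C5_anti α β]
  ring

theorem C5_pb (f g : Ph 3 → ℝ) (q : Ph 3) : pb f g q = pbL (fderiv ℝ f q) (fderiv ℝ g q) := rfl

/-! ### the differentials -/

theorem C5_ze_hd (t : ℝ) : HasDerivAt ze (3 / 8) t := by
  have h := ((hasDerivAt_id t).sub_const 1).const_mul (3 / 8 : ℝ)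
  exact HasDerivAt.congr_deriv (f := ze) h (by ring)

theorem C5_comp {f : ℝ → ℝ} (h : q ∈ OffA) (hf : DifferentiableAt ℝ f (ze (wf 2 q))) :
    HasFDerivAt (fun q => f (ze (wf 2 q)))
      ((deriv f (ze (wf 2 q)) * (3 / 8)) • fderiv ℝ (wf 2) q) q := by
  have h1 : HasFDerivAt (wf 2) (fderiv ℝ (wf 2) q) q :=
    ((wf_cd 2 (OffA_sub h)).differentiableAt (by simp)).hasFDerivAt
  have h2 : HasDerivAt (fun t => f (ze t)) (deriv f (ze (wf 2 q)) * (3 / 8)) (wf 2 q) :=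
    hf.hasDerivAt.comp (wf 2 q) (C5_ze_hd (wf 2 q))
  exact h2.comp_hasFDerivAt q h1

theorem C5_dH (h : q ∈ OffA) :
    fderiv ℝ Hf q =
      (deriv rla (ze (wf 2 q)) * (3 / 8) * (pxf q ^ 2 + Lf 2 q ^ 2)) • fderiv ℝ (wf 2) q +
      (2 * rla (ze (wf 2 q)) * pxf q) • fderiv ℝ pxf q +
      (2 * rla (ze (wf 2 q)) * Lf 2 q) • fderiv ℝ (Lf 2) q := by
  have hz := ze_mem (wf_Ioo h)
  have dla : DifferentiableAt ℝ rla (ze (wf 2 q)) :=
    ((rla_cd.contDiffAt (Ioo_mem_nhds hz.1 hz.2)).differentiableAt (by simp))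
  have hp : HasFDerivAt pxf (fderiv ℝ pxf q) q :=
    ((pxf_cd (OffA_sub h)).differentiableAt (by simp)).hasFDerivAt
  have hL : HasFDerivAt (Lf 2) (fderiv ℝ (Lf 2) q) q :=
    ((Lf_cd 2).contDiffAt.differentiableAt (by simp)).hasFDerivAt
  have h1 := C5_comp h dla
  have h2 := h1.mul ((hp.mul hp).add (hL.mul hL))
  have e : Hf =ᶠ[nhds q] fun q => rla (ze (wf 2 q)) * (pxf q * pxf q + Lf 2 q * Lf 2 q) := by
    filter_upwards [OffA_open.mem_nhds h] with w hw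
    rw [Hf_off hw, Hh]
    ring
  have h3 := (HasFDerivAt.congr_of_eventuallyEq (f := fun q => rla (ze (wf 2 q)) *
    (pxf q * pxf q + Lf 2 q * Lf 2 q)) h2 e).fderiv
  rw [h3]
  ext v
  · simp
    ring
  · simp
    ring

theorem C5_dB1 (h : q ∈ OffA) :
    HasFDerivAt (fun q => B1h (wf 2 q) (pxf q) (Lf 2 q))
      ((deriv rhd (ze (wf 2 q)) * (3 / 8) * Lf 2 q *
          (rhh (ze (wf 2 q)) * Hh (wf 2 q) (pxf q) (Lf 2 q) - ze (wf 2 q) * Lf 2 q ^ 2) +
        rhd (ze (wf 2 q)) * Lf 2 q *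
          (deriv rhh (ze (wf 2 q)) * (3 / 8) * Hh (wf 2 q) (pxf q) (Lf 2 q) +
            rhh (ze (wf 2 q)) * (deriv rla (ze (wf 2 q)) * (3 / 8) *
              (pxf q ^ 2 + Lf 2 q ^ 2)) - 3 / 8 * Lf 2 q ^ 2)) • fderiv ℝ (wf 2) q +
      (rhd (ze (wf 2 q)) * Lf 2 q * (rhh (ze (wf 2 q)) * (2 * rla (ze (wf 2 q)) * pxf q))) •
        fderiv ℝ pxf q +
      (rhd (ze (wf 2 q)) * (rhh (ze (wf 2 q)) * Hh (wf 2 q) (pxf q) (Lf 2 q) -
          ze (wf 2 q) * Lf 2 q ^ 2) +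
        rhd (ze (wf 2 q)) * Lf 2 q * (rhh (ze (wf 2 q)) * (2 * rla (ze (wf 2 q)) * Lf 2 q) -
          ze (wf 2 q) * (2 * Lf 2 q))) • fderiv ℝ (Lf 2) q) q := by
  have hz := ze_mem (wf_Ioo h)
  have dla : DifferentiableAt ℝ rla (ze (wf 2 q)) :=
    ((rla_cd.contDiffAt (Ioo_mem_nhds hz.1 hz.2)).differentiableAt (by simp))
  have dhd : DifferentiableAt ℝ rhd (ze (wf 2 q)) :=
    ((rhd_cd.contDiffAt (Ioo_mem_nhds hz.1 hz.2)).differentiableAt (by simp))
  have dhh : DifferentiableAt ℝ rhh (ze (wf 2 q)) :=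
    ((rhh_cd.contDiffAt (Ioo_mem_nhds hz.1 hz.2)).differentiableAt (by simp))
  have hp : HasFDerivAt pxf (fderiv ℝ pxf q) q :=
    ((pxf_cd (OffA_sub h)).differentiableAt (by simp)).hasFDerivAt
  have hL : HasFDerivAt (Lf 2) (fderiv ℝ (Lf 2) q) q :=
    ((Lf_cd 2).contDiffAt.differentiableAt (by simp)).hasFDerivAt
  have hT : HasFDerivAt (wf 2) (fderiv ℝ (wf 2) q) q :=
    ((wf_cd 2 (OffA_sub h)).differentiableAt (by simp)).hasFDerivAt
  have hze : HasFDerivAt (fun q => ze (wf 2 q)) ((3 / 8 : ℝ) • fderiv ℝ (wf 2) q) q :=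
    (C5_ze_hd (wf 2 q)).comp_hasFDerivAt q hT
  have h1 := C5_comp h dla
  have hH := h1.mul ((hp.mul hp).add (hL.mul hL))
  have hd := C5_comp h dhd
  have hh := C5_comp h dhh
  have h2 := (hd.mul hL).mul ((hh.mul hH).sub (hze.mul (hL.mul hL)))
  have e : (fun q => B1h (wf 2 q) (pxf q) (Lf 2 q)) = fun q => rhd (ze (wf 2 q)) * Lf 2 q *
      (rhh (ze (wf 2 q)) * (rla (ze (wf 2 q)) * (pxf q * pxf q + Lf 2 q * Lf 2 q)) -
        ze (wf 2 q) * (Lf 2 q * Lf 2 q)) := by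
    funext w
    rw [B1h, Hh]
    ring
  rw [e]
  refine HasFDerivAt.congr_fderiv h2 ?_
  ext v
  · simp [Hh]
    ring
  · simp [Hh]
    ring

theorem C5_dB2 (h : q ∈ OffA) :
    HasFDerivAt (fun q => B2h (wf 2 q) (pxf q) (Lf 2 q))
      ((deriv rhd (ze (wf 2 q)) * (3 / 8) * pxf q *
          (Hh (wf 2 q) (pxf q) (Lf 2 q) + ze (wf 2 q) * Lf 2 q ^ 2) +
        rhd (ze (wf 2 q)) * pxf q *
          (deriv rla (ze (wf 2 q)) * (3 / 8) * (pxf q ^ 2 + Lf 2 q ^ 2) +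
            3 / 8 * Lf 2 q ^ 2)) • fderiv ℝ (wf 2) q +
      (rhd (ze (wf 2 q)) * (Hh (wf 2 q) (pxf q) (Lf 2 q) + ze (wf 2 q) * Lf 2 q ^ 2) +
        rhd (ze (wf 2 q)) * pxf q * (2 * rla (ze (wf 2 q)) * pxf q)) •
        fderiv ℝ pxf q +
      (rhd (ze (wf 2 q)) * pxf q * (2 * rla (ze (wf 2 q)) * Lf 2 q +
          ze (wf 2 q) * (2 * Lf 2 q))) • fderiv ℝ (Lf 2) q) q := by
  have hz := ze_mem (wf_Ioo h)
  have dla : DifferentiableAt ℝ rla (ze (wf 2 q)) :=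
    ((rla_cd.contDiffAt (Ioo_mem_nhds hz.1 hz.2)).differentiableAt (by simp))
  have dhd : DifferentiableAt ℝ rhd (ze (wf 2 q)) :=
    ((rhd_cd.contDiffAt (Ioo_mem_nhds hz.1 hz.2)).differentiableAt (by simp))
  have hp : HasFDerivAt pxf (fderiv ℝ pxf q) q :=
    ((pxf_cd (OffA_sub h)).differentiableAt (by simp)).hasFDerivAt
  have hL : HasFDerivAt (Lf 2) (fderiv ℝ (Lf 2) q) q :=
    ((Lf_cd 2).contDiffAt.differentiableAt (by simp)).hasFDerivAt
  have hT : HasFDerivAt (wf 2) (fderiv ℝ (wf 2) q) q :=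
    ((wf_cd 2 (OffA_sub h)).differentiableAt (by simp)).hasFDerivAt
  have hze : HasFDerivAt (fun q => ze (wf 2 q)) ((3 / 8 : ℝ) • fderiv ℝ (wf 2) q) q :=
    (C5_ze_hd (wf 2 q)).comp_hasFDerivAt q hT
  have h1 := C5_comp h dla
  have hH := h1.mul ((hp.mul hp).add (hL.mul hL))
  have hd := C5_comp h dhd
  have h2 := (hd.mul hp).mul (hH.add (hze.mul (hL.mul hL)))
  have e : (fun q => B2h (wf 2 q) (pxf q) (Lf 2 q)) = fun q => rhd (ze (wf 2 q)) * pxf q *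
      (rla (ze (wf 2 q)) * (pxf q * pxf q + Lf 2 q * Lf 2 q) +
        ze (wf 2 q) * (Lf 2 q * Lf 2 q)) := by
    funext w
    rw [B2h, Hh]
    ring
  rw [e]
  refine HasFDerivAt.congr_fderiv h2 ?_
  ext v
  · simp [Hh]
    ring
  · simp [Hh]
    ring

/-- the differential of `S` in terms of the differentials of `B1`, `B2` -/
theorem C5_dS (h : q ∈ OffA) {b1 b2 : Ph 3 →L[ℝ] ℝ}
    (h1 : HasFDerivAt (fun q => B1h (wf 2 q) (pxf q) (Lf 2 q)) b1 q)
    (h2 : HasFDerivAt (fun q => B2h (wf 2 q) (pxf q) (Lf 2 q)) b2 q) :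
    fderiv ℝ Sf q = E1 q • b2 + E2 q • b1 +
      B2h (wf 2 q) (pxf q) (Lf 2 q) • fderiv ℝ E1 q +
      B1h (wf 2 q) (pxf q) (Lf 2 q) • fderiv ℝ E2 q := by
  have e1 : HasFDerivAt E1 (fderiv ℝ E1 q) q :=
    ((E1_cd h).differentiableAt (by simp)).hasFDerivAt
  have e2 : HasFDerivAt E2 (fderiv ℝ E2 q) q :=
    ((E2_cd h).differentiableAt (by simp)).hasFDerivAt
  have h3 := (e1.mul h2).add (e2.mul h1)
  have e : Sf =ᶠ[nhds q] fun q => E1 q * B2h (wf 2 q) (pxf q) (Lf 2 q) +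
      E2 q * B1h (wf 2 q) (pxf q) (Lf 2 q) := by
    filter_upwards [OffA_open.mem_nhds h] with w hw
    exact Sf_off hw
  have h4 := (HasFDerivAt.congr_of_eventuallyEq (f := fun q => E1 q *
    B2h (wf 2 q) (pxf q) (Lf 2 q) + E2 q * B1h (wf 2 q) (pxf q) (Lf 2 q)) h3 e).fderiv
  rw [h4]
  abel

theorem pb_H_S_off (h : q ∈ OffA) : pb Hf Sf q = 0 := by
  have hO := OffA_sub h
  have hI := wf_Ioo h
  have hz := ze_mem hI
  have k1 := pb_px_T h
  have k2 := pb_L_T hO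
  have k3 := pb_L_px h
  have k4 := pb_L_E1 h
  have k5 := pb_L_E2 h
  have k6 := pb_T_E1 h
  have k7 := pb_T_E2 h
  have k8 := pb_px_E1 h
  have k9 := pb_px_E2 h
  rw [phi_F hI] at k1
  rw [C5_pb] at k1 k2 k3 k4 k5 k6 k7 k8 k9 ⊢
  rw [C5_dH h, C5_dS h (C5_dB1 h) (C5_dB2 h)]
  have k1' := C5_anti (fderiv ℝ (wf 2) q) (fderiv ℝ pxf q)
  have k2' := C5_anti (fderiv ℝ (wf 2) q) (fderiv ℝ (Lf 2) q)
  have k3' := C5_anti (fderiv ℝ pxf q) (fderiv ℝ (Lf 2) q)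
  rw [k1] at k1'
  rw [k2] at k2'
  rw [k3] at k3'
  simp only [C5_add_left, C5_add_right, C5_smul_left, C5_smul_right, C5_self, k1, k2, k3, k4, k5,
    k6, k7, k8, k9, k1', k2', k3']
  have d1 := C5_rla_deriv hz
  have d2 := rhd_deriv hz
  have d3 := rhh_deriv hz
  have d4 := C5_fac hz
  have d5 := rla_rhh hz
  unfold B1h B2h Hh
  generalize deriv rla (ze (wf 2 q)) = A at *
  generalize deriv rhd (ze (wf 2 q)) = B at *
  generalize deriv rhh (ze (wf 2 q)) = C at *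
  generalize rla (ze (wf 2 q)) = la at *
  generalize rhd (ze (wf 2 q)) = hd at *
  generalize rhh (ze (wf 2 q)) = hh at *
  generalize rrho (ze (wf 2 q)) = ro at *
  generalize rfac (ze (wf 2 q)) = fa at *
  generalize ze (wf 2 q) = z at *
  generalize pxf q = p at *
  generalize Lf 2 q = l at *
  generalize E1 q = x at *
  generalize E2 q = y at *
  linear_combination
    (2 * la * p * (x * p * (la * (p ^ 2 + l ^ 2) + z * l ^ 2) +
      y * l * (hh * (la * (p ^ 2 + l ^ 2)) - z * l ^ 2))) * d2 +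
    (2 * la * p * (x * hd * p * (p ^ 2 + l ^ 2) + y * hd * l * hh * (p ^ 2 + l ^ 2)) -
      (p ^ 2 + l ^ 2) * (x * (hd * (la * (p ^ 2 + l ^ 2) + z * l ^ 2) + hd * p * (2 * la * p)) +
        y * hd * l * hh * 2 * la * p)) * d1 +
    (2 * la * p * y * hd * l * (la * (p ^ 2 + l ^ 2))) * d3 +
    (2 * la * p * (x * hd * p * l ^ 2 - y * hd * l * l ^ 2)) * d4 +
    (x * 2 * hd * la * l ^ 2 * (p ^ 2 + l ^ 2)) * d5

theorem C5_closure (q : Ph 3) : q ∈ closure OffA := by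
  by_cases h : q ∈ OffA
  · exact subset_closure h
  · have h0 : cx q 0 = 0 := by
      by_contra h0
      exact h fun h1 => h0 h1.1
    have hc : Continuous fun e : ℝ => ((q.1 + e • Pi.single 0 1, q.2) : Ph 3) := by
      fun_prop
    have ht : Filter.Tendsto (fun e : ℝ => ((q.1 + e • Pi.single 0 1, q.2) : Ph 3))
        (nhdsWithin 0 {0}ᶜ) (nhds q) := by
      have := (hc.tendsto 0).mono_left (nhdsWithin_le_nhds (s := {0}ᶜ))
      simpa using this
    refine mem_closure_of_tendsto ht ?_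
    filter_upwards [self_mem_nhdsWithin] with e he
    intro h1
    have h2 := h1.1
    have h3 : cx (q.1 + e • Pi.single 0 1, q.2) 0 = cx q 0 + e := by
      simp [cx]
      ring
    rw [h3, h0, zero_add] at h2
    exact he h2

theorem C5_cont {f g : Ph 3 → ℝ} (hf : ContDiffAt ℝ ∞ f q) (hg : ContDiffAt ℝ ∞ g q) :
    ContinuousAt (pb f g) q := by
  have h1 : ContinuousAt (fderiv ℝ f) q := (hf.fderiv_right (m := 0) (by simp)).continuousAt
  have h2 : ContinuousAt (fderiv ℝ g) q := (hg.fderiv_right (m := 0) (by simp)).continuousAt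
  unfold pb
  refine tendsto_finsetSum _ fun j _ => ?_
  exact ((h1.clm_apply continuousAt_const).mul (h2.clm_apply continuousAt_const)).sub
    ((h1.clm_apply continuousAt_const).mul (h2.clm_apply continuousAt_const))

theorem pb_H_S (h : q ∈ OffO) : pb Hf Sf q = 0 := by
  have h1 : Filter.Tendsto (pb Hf Sf) (nhdsWithin q OffA) (nhds (pb Hf Sf q)) :=
    (C5_cont (Hf_cd h) (Sf_cd h)).tendsto.mono_left nhdsWithin_le_nhds
  have h2 : Filter.Tendsto (pb Hf Sf) (nhdsWithin q OffA) (nhds 0) := by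
    refine Filter.Tendsto.congr' (f₁ := fun _ => 0) ?_ tendsto_const_nhds
    filter_upwards [self_mem_nhdsWithin] with w hw
    exact (pb_H_S_off hw).symm
  have : (nhdsWithin q OffA).NeBot := mem_closure_iff_nhdsWithin_neBot.1 (C5_closure q)
  exact tendsto_nhds_unique h1 h2

theorem pb_L_S (h : q ∈ OffA) :
    pb (Lf 2) Sf q =
      E1 q * B1h (wf 2 q) (pxf q) (Lf 2 q) - E2 q * B2h (wf 2 q) (pxf q) (Lf 2 q) := by
  have hO := OffA_sub h
  have k2 := pb_L_T hO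
  have k3 := pb_L_px h
  have k4 := pb_L_E1 h
  have k5 := pb_L_E2 h
  rw [C5_pb] at k2 k3 k4 k5 ⊢
  rw [C5_dS h (C5_dB1 h) (C5_dB2 h)]
  simp only [C5_add_right, C5_smul_right, C5_self, k2, k3, k4, k5]
  ring

end H99.EQ
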