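import Pool.Agent.H99.EQ.C3

/-!
# EQ-C6: invariances of `H` and `S`

Job EQ-C6. `Hf`, `Sf` are functions of `(ω, L)`. With `(x, ξ) ↦ (x, ξ + c X)`: `ω`, `L`
unchanged; so `fderiv f q (0, X) = 0`, and `pb f r2 q = 2 fderiv f q (0, X)`.
With `X ↦ e^{-u} X`, `Ξ ↦ e^u Ξ`: `ω`, `L` unchanged; `fderiv f q (-X, Ξ) = 0` and
`pb f Df q = fderiv f q (-X, Ξ)`. `sC` is a function of `r2` and `Df`.
Rotation about the third axis, `v = (-X_1, X_0, 0; -Ξ_1, Ξ_0, 0)`: `Hf` invariant,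
`pb f (Lf 2) q = - fderiv f q v`.
Dilation `Ξ ↦ Ξ + u (Ξ - (D/r²) X)`: `L ↦ (1+u) L`, so `H ↦ (1+u)² H`: derivative `2 H`, `Df`, `r2`
unchanged.
-/

set_option autoImplicit false

open scoped ContDiff

noncomputable section

namespace H99.EQ

variable {q : Ph 3}

/-- generator of `X ↦ e^u X`, `Ξ ↦ e^{-u} Ξ` -/
def vR (q : Ph 3) : Ph 3 := (cx q, -q.2)

/-- generator of the rotation about the third axis -/
def vL (q : Ph 3) : Ph 3 := (![-cx q 1, cx q 0, 0], ![-q.2 1, q.2 0, 0])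

/-- generator of the dilation of `L` -/
def vD (q : Ph 3) : Ph 3 := (0, fun k => q.2 k - Df q / r2 q * cx q k)

private theorem C6_curve {f : Ph 3 → ℝ} {γ : ℝ → Ph 3} {v : Ph 3} {d : ℝ}
    (hf : DifferentiableAt ℝ f q) (h0 : γ 0 = q) (hγ : HasDerivAt γ v 0)
    (hd : HasDerivAt (fun s => f (γ s)) d 0) : fderiv ℝ f q v = d := by
  have h1 : HasFDerivAt f (fderiv ℝ f q) (γ 0) := by rw [h0]; exact hf.hasFDerivAt
  exact (h1.comp_hasDerivAt (0 : ℝ) hγ).unique hd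

private theorem C6_Hf_congr {q q' : Ph 3} (hw : ∀ i, wf i q' = wf i q)
    (hL : ∀ i, Lf i q' = Lf i q) : Hf q' = Hf q := by
  simp only [Hf, Lsq, Zf, hw, hL]

private theorem C6_Sf_congr {q q' : Ph 3} (hw : ∀ i, wf i q' = wf i q)
    (hL : ∀ i, Lf i q' = Lf i q) : Sf q' = Sf q := by
  simp only [Sf, C6_Hf_congr hw hL, Zf, x1f, hw, hL]

private theorem C6_dec (α : Ph 3 →L[ℝ] ℝ) (a b : V 3) :
    α (a, b) = (a 0 * α (Pi.single 0 1, 0) + a 1 * α (Pi.single 1 1, 0) +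
      a 2 * α (Pi.single 2 1, 0)) + (b 0 * α (0, Pi.single 0 1) + b 1 * α (0, Pi.single 1 1) +
      b 2 * α (0, Pi.single 2 1)) := by
  have e : ((a, b) : Ph 3) = (a 0 • ((Pi.single 0 1, 0) : Ph 3) + a 1 • ((Pi.single 1 1, 0) : Ph 3)
      + a 2 • ((Pi.single 2 1, 0) : Ph 3)) + (b 0 • ((0, Pi.single 0 1) : Ph 3) +
      b 1 • ((0, Pi.single 1 1) : Ph 3) + b 2 • ((0, Pi.single 2 1) : Ph 3)) := by
    refine Prod.ext ?_ ?_
    · funext k
      fin_cases k <;> simp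
    · funext k
      fin_cases k <;> simp
  rw [e]
  simp only [map_add, map_smul, smul_eq_mul]

/-- the flow of `vR` -/
private def C6_gR (q : Ph 3) (s : ℝ) : Ph 3 :=
  (fun k => 1 / 2 + Real.exp s * cx q k, fun k => Real.exp (-s) * q.2 k)

private theorem C6_gR0 (q : Ph 3) : C6_gR q 0 = q := by
  refine Prod.ext ?_ ?_
  · funext k
    simp [C6_gR, cx]
  · funext k
    simp [C6_gR]

private theorem C6_gRd (q : Ph 3) : HasDerivAt (C6_gR q) (vR q) 0 := by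
  refine HasDerivAt.prodMk ?_ ?_
  · refine hasDerivAt_pi.2 fun k => ?_
    have h := ((Real.hasDerivAt_exp (0 : ℝ)).mul_const (cx q k)).const_add (1 / 2)
    simpa using h
  · refine hasDerivAt_pi.2 fun k => ?_
    have h1 : HasDerivAt (fun s : ℝ => Real.exp (-s)) (Real.exp (-0) * (-1)) 0 :=
      (hasDerivAt_neg (0 : ℝ)).exp
    have h := h1.mul_const (q.2 k)
    simpa using h

private theorem C6_gR_cx (q : Ph 3) (s : ℝ) (k : Fin 3) :
    cx (C6_gR q s) k = Real.exp s * cx q k := by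
  simp [C6_gR, cx]

private theorem C6_gR_Lf (q : Ph 3) (s : ℝ) (i : Fin 3) : Lf i (C6_gR q s) = Lf i q := by
  have e : Real.exp s * Real.exp (-s) = 1 := by rw [← Real.exp_add]; simp
  have h2 : ∀ k, (C6_gR q s).2 k = Real.exp (-s) * q.2 k := fun k => rfl
  fin_cases i
  · simp only [Lf, C6_gR_cx, h2, Fin.zero_eta, Matrix.cons_val_zero]
    linear_combination (cx q 1 * q.2 2 - cx q 2 * q.2 1) * e
  · simp only [Lf, C6_gR_cx, h2, Fin.mk_one, Matrix.cons_val_one, Matrix.cons_val_zero]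
    linear_combination (cx q 2 * q.2 0 - cx q 0 * q.2 2) * e
  · simp only [Lf, C6_gR_cx, h2, Fin.reduceFinMk, Matrix.cons_val]
    linear_combination (cx q 0 * q.2 1 - cx q 1 * q.2 0) * e

private theorem C6_gR_r2 (q : Ph 3) (s : ℝ) : r2 (C6_gR q s) = Real.exp s ^ 2 * r2 q := by
  simp only [r2, C6_gR_cx]; ring

private theorem C6_gR_nX (q : Ph 3) (s : ℝ) : nX (C6_gR q s) = Real.exp s * nX q := by
  unfold nX
  rw [C6_gR_r2, Real.sqrt_mul (by positivity), Real.sqrt_sq (Real.exp_pos s).le]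

private theorem C6_gR_wf (q : Ph 3) (s : ℝ) (i : Fin 3) : wf i (C6_gR q s) = wf i q := by
  unfold wf
  rw [C6_gR_nX, C6_gR_cx, mul_div_mul_left _ _ (Real.exp_pos s).ne']

private theorem C6_gR_Df (q : Ph 3) (s : ℝ) : Df (C6_gR q s) = Df q := by
  have e : Real.exp s * Real.exp (-s) = 1 := by rw [← Real.exp_add]; simp
  have h2 : ∀ k, (C6_gR q s).2 k = Real.exp (-s) * q.2 k := fun k => rfl
  simp only [Df, C6_gR_cx, h2]
  linear_combination (cx q 0 * q.2 0 + cx q 1 * q.2 1 + cx q 2 * q.2 2) * e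

/-- the flow of `vL` -/
private def C6_gL (q : Ph 3) (s : ℝ) : Ph 3 :=
  (![1 / 2 + (Real.cos s * cx q 0 - Real.sin s * cx q 1),
      1 / 2 + (Real.sin s * cx q 0 + Real.cos s * cx q 1), 1 / 2 + cx q 2],
    ![Real.cos s * q.2 0 - Real.sin s * q.2 1, Real.sin s * q.2 0 + Real.cos s * q.2 1, q.2 2])

private theorem C6_gL0 (q : Ph 3) : C6_gL q 0 = q := by
  refine Prod.ext ?_ ?_
  · funext k
    fin_cases k <;> simp [C6_gL, cx]
  · funext k
    fin_cases k <;> simp [C6_gL]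

private theorem C6_gLd (q : Ph 3) : HasDerivAt (C6_gL q) (vL q) 0 := by
  have hc : HasDerivAt Real.cos 0 0 := by simpa using Real.hasDerivAt_cos 0
  have hs : HasDerivAt Real.sin 1 0 := by simpa using Real.hasDerivAt_sin 0
  refine HasDerivAt.prodMk ?_ ?_
  · refine hasDerivAt_pi.2 fun k => ?_
    fin_cases k
    · have h := ((hc.mul_const (cx q 0)).sub (hs.mul_const (cx q 1))).const_add (1 / 2)
      simpa [C6_gL, vL] using h
    · have h := ((hs.mul_const (cx q 0)).add (hc.mul_const (cx q 1))).const_add (1 / 2)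
      simpa [C6_gL, vL] using h
    · simpa [C6_gL, vL] using hasDerivAt_const (0 : ℝ) (1 / 2 + cx q 2)
  · refine hasDerivAt_pi.2 fun k => ?_
    fin_cases k
    · have h : HasDerivAt (fun s => Real.cos s * q.2 0 - Real.sin s * q.2 1) _ 0 :=
        (hc.mul_const (q.2 0)).sub (hs.mul_const (q.2 1))
      simpa [C6_gL, vL] using h
    · have h : HasDerivAt (fun s => Real.sin s * q.2 0 + Real.cos s * q.2 1) _ 0 :=
        (hs.mul_const (q.2 0)).add (hc.mul_const (q.2 1))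
      simpa [C6_gL, vL] using h
    · simpa [C6_gL, vL] using hasDerivAt_const (0 : ℝ) (q.2 2)

private theorem C6_gL_c0 (q : Ph 3) (s : ℝ) :
    cx (C6_gL q s) 0 = Real.cos s * cx q 0 - Real.sin s * cx q 1 := by
  simp [C6_gL, cx]

private theorem C6_gL_c1 (q : Ph 3) (s : ℝ) :
    cx (C6_gL q s) 1 = Real.sin s * cx q 0 + Real.cos s * cx q 1 := by
  simp [C6_gL, cx]

private theorem C6_gL_c2 (q : Ph 3) (s : ℝ) : cx (C6_gL q s) 2 = cx q 2 := by
  simp [C6_gL, cx]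

private theorem C6_gL_x0 (q : Ph 3) (s : ℝ) :
    (C6_gL q s).2 0 = Real.cos s * q.2 0 - Real.sin s * q.2 1 := rfl

private theorem C6_gL_x1 (q : Ph 3) (s : ℝ) :
    (C6_gL q s).2 1 = Real.sin s * q.2 0 + Real.cos s * q.2 1 := rfl

private theorem C6_gL_x2 (q : Ph 3) (s : ℝ) : (C6_gL q s).2 2 = q.2 2 := rfl

private theorem C6_gL_r2 (q : Ph 3) (s : ℝ) : r2 (C6_gL q s) = r2 q := by
  simp only [r2, C6_gL_c0, C6_gL_c1, C6_gL_c2]
  linear_combination (cx q 0 ^ 2 + cx q 1 ^ 2) * Real.sin_sq_add_cos_sq s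

private theorem C6_gL_Df (q : Ph 3) (s : ℝ) : Df (C6_gL q s) = Df q := by
  simp only [Df, C6_gL_c0, C6_gL_c1, C6_gL_c2, C6_gL_x0, C6_gL_x1, C6_gL_x2]
  linear_combination (cx q 0 * q.2 0 + cx q 1 * q.2 1) * Real.sin_sq_add_cos_sq s

private theorem C6_L0 (q : Ph 3) : Lf 0 q = cx q 1 * q.2 2 - cx q 2 * q.2 1 := rfl

private theorem C6_L1 (q : Ph 3) : Lf 1 q = cx q 2 * q.2 0 - cx q 0 * q.2 2 := rfl

private theorem C6_L2 (q : Ph 3) : Lf 2 q = cx q 0 * q.2 1 - cx q 1 * q.2 0 := rfl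

private theorem C6_gL_L0 (q : Ph 3) (s : ℝ) :
    Lf 0 (C6_gL q s) = Real.cos s * Lf 0 q - Real.sin s * Lf 1 q := by
  simp only [C6_L0, C6_L1, C6_gL_c0, C6_gL_c1, C6_gL_c2, C6_gL_x0, C6_gL_x1, C6_gL_x2]
  ring

private theorem C6_gL_L1 (q : Ph 3) (s : ℝ) :
    Lf 1 (C6_gL q s) = Real.sin s * Lf 0 q + Real.cos s * Lf 1 q := by
  simp only [C6_L0, C6_L1, C6_gL_c0, C6_gL_c1, C6_gL_c2, C6_gL_x0, C6_gL_x1, C6_gL_x2]
  ring

private theorem C6_gL_L2 (q : Ph 3) (s : ℝ) : Lf 2 (C6_gL q s) = Lf 2 q := by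
  simp only [C6_L2, C6_gL_c0, C6_gL_c1, C6_gL_x0, C6_gL_x1]
  linear_combination (cx q 0 * q.2 1 - cx q 1 * q.2 0) * Real.sin_sq_add_cos_sq s

private theorem C6_gL_nX (q : Ph 3) (s : ℝ) : nX (C6_gL q s) = nX q := by
  unfold nX
  rw [C6_gL_r2]

private theorem C6_gL_Hf (q : Ph 3) (s : ℝ) : Hf (C6_gL q s) = Hf q := by
  have hw : wf 2 (C6_gL q s) = wf 2 q := by
    unfold wf
    rw [C6_gL_nX, C6_gL_c2]
  have hLs : Lsq (C6_gL q s) = Lsq q := by
    simp only [Lsq, C6_gL_L0, C6_gL_L1, C6_gL_L2]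
    linear_combination (Lf 0 q ^ 2 + Lf 1 q ^ 2) * Real.sin_sq_add_cos_sq s
  have hZ : Zf (C6_gL q s) = Zf q := by
    simp only [Zf, wf, C6_gL_L0, C6_gL_L1, C6_gL_nX, C6_gL_c0, C6_gL_c1]
    linear_combination ((Lf 0 q * cx q 1 - Lf 1 q * cx q 0) / nX q) * Real.sin_sq_add_cos_sq s
  simp only [Hf, hw, hLs, hZ]

private theorem C6_dH (h : q ∈ OffO) : DifferentiableAt ℝ Hf q :=
  (Hf_cd h).differentiableAt (by simp)

private theorem C6_dS (h : q ∈ OffO) : DifferentiableAt ℝ Sf q :=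
  (Sf_cd h).differentiableAt (by simp)

private theorem C6_dL (i : Fin 3) (q : Ph 3) : DifferentiableAt ℝ (Lf i) q :=
  (Lf_cd i).contDiffAt.differentiableAt (by simp)

private theorem C6_dr (q : Ph 3) : DifferentiableAt ℝ r2 q :=
  r2_cd.contDiffAt.differentiableAt (by simp)

private theorem C6_dD (q : Ph 3) : DifferentiableAt ℝ Df q :=
  Df_cd.contDiffAt.differentiableAt (by simp)

private theorem C6_cst {f : Ph 3 → ℝ} {γ : ℝ → Ph 3} {v : Ph 3}
    (hf : DifferentiableAt ℝ f q) (h0 : γ 0 = q) (hγ : HasDerivAt γ v 0)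
    (hd : ∀ s, f (γ s) = f q) : fderiv ℝ f q v = 0 := by
  refine C6_curve hf h0 hγ ?_
  rw [funext hd]
  exact hasDerivAt_const _ _

theorem dH_vR (h : q ∈ OffO) : fderiv ℝ Hf q (vR q) = 0 :=
  C6_cst (C6_dH h) (C6_gR0 q) (C6_gRd q) fun s => C6_Hf_congr (C6_gR_wf q s) (C6_gR_Lf q s)

theorem dS_vR (h : q ∈ OffO) : fderiv ℝ Sf q (vR q) = 0 :=
  C6_cst (C6_dS h) (C6_gR0 q) (C6_gRd q) fun s => C6_Sf_congr (C6_gR_wf q s) (C6_gR_Lf q s)

theorem dL_vR (q : Ph 3) : fderiv ℝ (Lf 2) q (vR q) = 0 :=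
  C6_cst (C6_dL 2 q) (C6_gR0 q) (C6_gRd q) fun s => C6_gR_Lf q s 2

theorem dr_vR (q : Ph 3) : fderiv ℝ r2 q (vR q) = 2 * r2 q := by
  refine C6_curve (C6_dr q) (C6_gR0 q) (C6_gRd q) ?_
  rw [funext (C6_gR_r2 q)]
  have h := ((Real.hasDerivAt_exp (0 : ℝ)).pow 2).mul_const (r2 q)
  simpa using h

theorem dD_vR (q : Ph 3) : fderiv ℝ Df q (vR q) = 0 :=
  C6_cst (C6_dD q) (C6_gR0 q) (C6_gRd q) (C6_gR_Df q)

theorem dH_vL (h : q ∈ OffO) : fderiv ℝ Hf q (vL q) = 0 :=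
  C6_cst (C6_dH h) (C6_gL0 q) (C6_gLd q) (C6_gL_Hf q)

theorem dL_vL (q : Ph 3) : fderiv ℝ (Lf 2) q (vL q) = 0 :=
  C6_cst (C6_dL 2 q) (C6_gL0 q) (C6_gLd q) (C6_gL_L2 q)

theorem dr_vL (q : Ph 3) : fderiv ℝ r2 q (vL q) = 0 :=
  C6_cst (C6_dr q) (C6_gL0 q) (C6_gLd q) (C6_gL_r2 q)

theorem dD_vL (q : Ph 3) : fderiv ℝ Df q (vL q) = 0 :=
  C6_cst (C6_dD q) (C6_gL0 q) (C6_gLd q) (C6_gL_Df q)

/-- straight lines -/
private theorem C6_line (q v : Ph 3) : HasDerivAt (fun s : ℝ => q + s • v) v 0 := by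
  have h := ((hasDerivAt_id (0 : ℝ)).smul_const v).const_add q
  simpa using h

private theorem C6_line_cx (q : Ph 3) (b : V 3) (s : ℝ) : cx (q + s • ((0, b) : Ph 3)) = cx q := by
  funext k
  simp [cx]

private theorem C6_line_r2 (q : Ph 3) (b : V 3) (s : ℝ) : r2 (q + s • ((0, b) : Ph 3)) = r2 q := by
  simp only [r2, C6_line_cx]

private theorem C6_line_wf (q : Ph 3) (b : V 3) (s : ℝ) (i : Fin 3) :
    wf i (q + s • ((0, b) : Ph 3)) = wf i q := by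
  simp only [wf, nX, C6_line_r2, C6_line_cx]

private theorem C6_line_x (q : Ph 3) (b : V 3) (s : ℝ) (k : Fin 3) :
    (q + s • ((0, b) : Ph 3)).2 k = q.2 k + s * b k := by
  simp

private theorem C6_X_Lf (q : Ph 3) (s : ℝ) (i : Fin 3) :
    Lf i (q + s • ((0, cx q) : Ph 3)) = Lf i q := by
  fin_cases i
  · simp only [Fin.zero_eta, C6_L0, C6_line_cx, C6_line_x]; ring
  · simp only [Fin.mk_one, C6_L1, C6_line_cx, C6_line_x]; ring
  · simp only [Fin.reduceFinMk, C6_L2, C6_line_cx, C6_line_x]; ring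

private theorem C6_dH_X (h : q ∈ OffO) : fderiv ℝ Hf q (0, cx q) = 0 :=
  C6_cst (C6_dH h) (by simp) (C6_line q _) fun s =>
    C6_Hf_congr (C6_line_wf q _ s) (C6_X_Lf q s)

private theorem C6_dS_X (h : q ∈ OffO) : fderiv ℝ Sf q (0, cx q) = 0 :=
  C6_cst (C6_dS h) (by simp) (C6_line q _) fun s =>
    C6_Sf_congr (C6_line_wf q _ s) (C6_X_Lf q s)

private theorem C6_vD_Lf (q : Ph 3) (s : ℝ) (i : Fin 3) :
    Lf i (q + s • (vD q)) = (1 + s) * Lf i q := by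
  unfold vD
  fin_cases i
  · simp only [Fin.zero_eta, C6_L0, C6_line_cx, C6_line_x]; ring
  · simp only [Fin.mk_one, C6_L1, C6_line_cx, C6_line_x]; ring
  · simp only [Fin.reduceFinMk, C6_L2, C6_line_cx, C6_line_x]; ring

private theorem C6_vD_Hf (q : Ph 3) (s : ℝ) : Hf (q + s • (vD q)) = (1 + s) ^ 2 * Hf q := by
  have hw : ∀ i, wf i (q + s • (vD q)) = wf i q := fun i => C6_line_wf q _ s i
  simp only [Hf, Lsq, Zf, hw, C6_vD_Lf]
  ring

theorem dH_vD (h : q ∈ OffO) : fderiv ℝ Hf q (vD q) = 2 * Hf q := by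
  refine C6_curve (γ := fun s => q + s • vD q) (C6_dH h) (by simp) (C6_line q _) ?_
  rw [funext (C6_vD_Hf q)]
  have h := (((hasDerivAt_id (0 : ℝ)).const_add 1).pow 2).mul_const (Hf q)
  simpa using h

theorem dr_vD (q : Ph 3) : fderiv ℝ r2 q (vD q) = 0 :=
  C6_cst (γ := fun s => q + s • vD q) (C6_dr q) (by simp) (C6_line q _)
    fun s => C6_line_r2 q _ s

theorem dD_vD (h : q ∈ OffO) : fderiv ℝ Df q (vD q) = 0 := by
  refine C6_cst (γ := fun s => q + s • vD q) (C6_dD q) (by simp) (C6_line q _) fun s => ?_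
  have hr : r2 q ≠ 0 := ne_of_gt h
  have hr' : cx q 0 ^ 2 + cx q 1 ^ 2 + cx q 2 ^ 2 = r2 q := rfl
  have hD : cx q 0 * q.2 0 + cx q 1 * q.2 1 + cx q 2 * q.2 2 = Df q := rfl
  have e : Df q / r2 q * r2 q = Df q := div_mul_cancel₀ _ hr
  have e1 : Df (q + s • vD q) = Df q + s * ((cx q 0 * q.2 0 + cx q 1 * q.2 1 + cx q 2 * q.2 2) -
      Df q / r2 q * (cx q 0 ^ 2 + cx q 1 ^ 2 + cx q 2 ^ 2)) := by
    unfold vD
    generalize Df q / r2 q = c
    simp only [Df, C6_line_cx, C6_line_x]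
    ring
  rw [e1, hr', hD, e]
  ring

/-- partial derivatives of `L_3` -/
private theorem C6_fL (q : Ph 3) (a b : V 3) :
    fderiv ℝ (Lf 2) q (a, b) = a 0 * q.2 1 + cx q 0 * b 1 - a 1 * q.2 0 - cx q 1 * b 0 := by
  refine C6_curve (γ := fun s => q + s • ((a, b) : Ph 3)) (C6_dL 2 q) (by simp) (C6_line q _) ?_
  have e : (fun s : ℝ => Lf 2 (q + s • ((a, b) : Ph 3))) = fun s =>
      (cx q 0 + s * a 0) * (q.2 1 + s * b 1) - (cx q 1 + s * a 1) * (q.2 0 + s * b 0) := by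
    funext s
    simp only [C6_L2, cx, Prod.fst_add, Prod.snd_add, Prod.smul_fst, Prod.smul_snd, Pi.add_apply,
      Pi.smul_apply, smul_eq_mul]
    ring
  rw [e]
  have l : ∀ c d : ℝ, HasDerivAt (fun s : ℝ => c + s * d) d 0 := fun c d => by
    have h := ((hasDerivAt_id (0 : ℝ)).mul_const d).const_add c
    simpa using h
  have h := ((l (cx q 0) (a 0)).mul (l (q.2 1) (b 1))).sub ((l (cx q 1) (a 1)).mul
    (l (q.2 0) (b 0)))
  refine h.congr_deriv ?_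
  simp
  ring

private theorem C6_fr (q : Ph 3) (a b : V 3) :
    fderiv ℝ r2 q (a, b) = 2 * (cx q 0 * a 0 + cx q 1 * a 1 + cx q 2 * a 2) := by
  refine C6_curve (γ := fun s => q + s • ((a, b) : Ph 3)) (C6_dr q) (by simp) (C6_line q _) ?_
  have e : (fun s : ℝ => r2 (q + s • ((a, b) : Ph 3))) = fun s =>
      (cx q 0 + s * a 0) ^ 2 + (cx q 1 + s * a 1) ^ 2 + (cx q 2 + s * a 2) ^ 2 := by
    funext s
    simp only [r2, cx, Prod.fst_add, Prod.smul_fst, Pi.add_apply, Pi.smul_apply, smul_eq_mul]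
    ring
  rw [e]
  have l : ∀ c d : ℝ, HasDerivAt (fun s : ℝ => c + s * d) d 0 := fun c d => by
    have h := ((hasDerivAt_id (0 : ℝ)).mul_const d).const_add c
    simpa using h
  have h := (((l (cx q 0) (a 0)).pow 2).add ((l (cx q 1) (a 1)).pow 2)).add
    ((l (cx q 2) (a 2)).pow 2)
  refine h.congr_deriv ?_
  simp
  ring

private theorem C6_fD (q : Ph 3) (a b : V 3) :
    fderiv ℝ Df q (a, b) = (a 0 * q.2 0 + a 1 * q.2 1 + a 2 * q.2 2) +
      (cx q 0 * b 0 + cx q 1 * b 1 + cx q 2 * b 2) := by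
  refine C6_curve (γ := fun s => q + s • ((a, b) : Ph 3)) (C6_dD q) (by simp) (C6_line q _) ?_
  have e : (fun s : ℝ => Df (q + s • ((a, b) : Ph 3))) = fun s =>
      (cx q 0 + s * a 0) * (q.2 0 + s * b 0) + (cx q 1 + s * a 1) * (q.2 1 + s * b 1) +
      (cx q 2 + s * a 2) * (q.2 2 + s * b 2) := by
    funext s
    simp only [Df, cx, Prod.fst_add, Prod.snd_add, Prod.smul_fst, Prod.smul_snd, Pi.add_apply,
      Pi.smul_apply, smul_eq_mul]
    ring
  rw [e]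
  have l : ∀ c d : ℝ, HasDerivAt (fun s : ℝ => c + s * d) d 0 := fun c d => by
    have h := ((hasDerivAt_id (0 : ℝ)).mul_const d).const_add c
    simpa using h
  have h := (((l (cx q 0) (a 0)).mul (l (q.2 0) (b 0))).add ((l (cx q 1) (a 1)).mul
    (l (q.2 1) (b 1)))).add ((l (cx q 2) (a 2)).mul (l (q.2 2) (b 2)))
  refine h.congr_deriv ?_
  simp
  ring

/-- for every function: the bracket with `L_3` is the rotation derivative -/
theorem pb_L (f : Ph 3 → ℝ) (q : Ph 3) : pb (Lf 2) f q = fderiv ℝ f q (vL q) := by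
  unfold pb vL
  rw [C6_dec (fderiv ℝ f q)]
  simp only [Fin.sum_univ_three, C6_fL]
  simp
  ring

private theorem C6_pb_r (f : Ph 3 → ℝ) (q : Ph 3) : pb f r2 q = 2 * fderiv ℝ f q (0, cx q) := by
  unfold pb
  rw [C6_dec (fderiv ℝ f q)]
  simp only [Fin.sum_univ_three, C6_fr]
  simp
  ring

private theorem C6_pb_D (f : Ph 3 → ℝ) (q : Ph 3) : pb f Df q = -fderiv ℝ f q (vR q) := by
  unfold pb vR
  rw [C6_dec (fderiv ℝ f q)]
  simp only [Fin.sum_univ_three, C6_fD]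
  simp
  ring

theorem pb_H_r (h : q ∈ OffO) : pb Hf r2 q = 0 := by
  rw [C6_pb_r, C6_dH_X h, mul_zero]

theorem pb_S_r (h : q ∈ OffO) : pb Sf r2 q = 0 := by
  rw [C6_pb_r, C6_dS_X h, mul_zero]

theorem pb_H_D (h : q ∈ OffO) : pb Hf Df q = 0 := by
  rw [C6_pb_D, dH_vR h, neg_zero]

theorem pb_S_D (h : q ∈ OffO) : pb Sf Df q = 0 := by
  rw [C6_pb_D, dS_vR h, neg_zero]

private theorem C6_ga_d (u : ℝ) : DifferentiableAt ℝ ga u := by
  have h : ContDiff ℝ ∞ ga := by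
    unfold ga
    exact (expNegInvGlue.contDiff.comp (contDiff_id.sub contDiff_const)).mul
      (expNegInvGlue.contDiff.comp (contDiff_const.sub contDiff_id))
  exact h.differentiable (by simp) u

private theorem C6_st_d (u : ℝ) : DifferentiableAt ℝ Real.smoothTransition u :=
  (Real.smoothTransition.contDiff (n := 1)).differentiable (by simp) u

/-- chain rule for `sC` -/
theorem dsC (q v : Ph 3) : fderiv ℝ sC q v =
    deriv ga (r2 q) * Real.smoothTransition (2 - 10 ^ 4 * Df q ^ 2) * fderiv ℝ r2 q v +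
    ga (r2 q) * (deriv Real.smoothTransition (2 - 10 ^ 4 * Df q ^ 2) *
      (-(2 * 10 ^ 4 * Df q)) * fderiv ℝ Df q v) := by
  have hr : HasDerivAt (fun s : ℝ => r2 (q + s • v)) (fderiv ℝ r2 q v) 0 := by
    have h1 : HasFDerivAt r2 (fderiv ℝ r2 q) (q + (0 : ℝ) • v) := by
      simpa using (C6_dr q).hasFDerivAt
    exact h1.comp_hasDerivAt (0 : ℝ) (C6_line q v)
  have hD : HasDerivAt (fun s : ℝ => Df (q + s • v)) (fderiv ℝ Df q v) 0 := by
    have h1 : HasFDerivAt Df (fderiv ℝ Df q) (q + (0 : ℝ) • v) := by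
      simpa using (C6_dD q).hasFDerivAt
    exact h1.comp_hasDerivAt (0 : ℝ) (C6_line q v)
  have e0 : q + (0 : ℝ) • v = q := by simp
  refine C6_curve (γ := fun s => q + s • v) (sC_cd.contDiffAt.differentiableAt (by simp)) e0
    (C6_line q v) ?_
  have h1 : HasDerivAt (fun s : ℝ => ga (r2 (q + s • v))) (deriv ga (r2 q) * fderiv ℝ r2 q v) 0 := by
    have h2 : HasDerivAt ga (deriv ga (r2 q)) (r2 (q + (0 : ℝ) • v)) := by
      rw [e0]; exact (C6_ga_d _).hasDerivAt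
    exact h2.comp (0 : ℝ) hr
  have h3 : HasDerivAt (fun s : ℝ => 2 - 10 ^ 4 * Df (q + s • v) ^ 2)
      (-(2 * 10 ^ 4 * Df q) * fderiv ℝ Df q v) 0 := by
    have h := ((hD.pow 2).const_mul (10 ^ 4)).const_sub 2
    refine h.congr_deriv ?_
    rw [e0]
    simp
    ring
  have h4 : HasDerivAt (fun s : ℝ => Real.smoothTransition (2 - 10 ^ 4 * Df (q + s • v) ^ 2))
      (deriv Real.smoothTransition (2 - 10 ^ 4 * Df q ^ 2) *
        (-(2 * 10 ^ 4 * Df q) * fderiv ℝ Df q v)) 0 := by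
    have h2 : HasDerivAt Real.smoothTransition
        (deriv Real.smoothTransition (2 - 10 ^ 4 * Df q ^ 2))
        (2 - 10 ^ 4 * Df (q + (0 : ℝ) • v) ^ 2) := by
      rw [e0]; exact (C6_st_d _).hasDerivAt
    exact h2.comp (0 : ℝ) h3
  refine (h1.mul h4).congr_deriv ?_
  rw [e0]
  ring

private theorem C6_pb_s {f : Ph 3 → ℝ} (hr : pb f r2 q = 0) (hD : pb f Df q = 0) :
    pb f sC q = 0 := by
  have e : pb f sC q = deriv ga (r2 q) * Real.smoothTransition (2 - 10 ^ 4 * Df q ^ 2) * pb f r2 q +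
    ga (r2 q) * (deriv Real.smoothTransition (2 - 10 ^ 4 * Df q ^ 2) *
      (-(2 * 10 ^ 4 * Df q)) * pb f Df q) := by
    unfold pb
    simp only [Fin.sum_univ_three, dsC]
    ring
  rw [e, hr, hD]
  ring

theorem pb_H_s (h : q ∈ OffO) : pb Hf sC q = 0 := C6_pb_s (pb_H_r h) (pb_H_D h)

theorem pb_S_s (h : q ∈ OffO) : pb Sf sC q = 0 := C6_pb_s (pb_S_r h) (pb_S_D h)

theorem pb_L_s (q : Ph 3) : pb (Lf 2) sC q = 0 := by
  rw [pb_L, dsC, dr_vL, dD_vL]
  ring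

theorem pb_H_L (h : q ∈ OffO) : pb Hf (Lf 2) q = 0 := by
  have e : pb Hf (Lf 2) q = -pb (Lf 2) Hf q := by
    unfold pb
    simp only [Fin.sum_univ_three]
    ring
  rw [e, pb_L, dH_vL h, neg_zero]

end H99.EQ
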