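import Pool.Agent.H99.EQ.C5
import Pool.Agent.H99.EQ.C6

/-!
# EQ-C7: the core functions are smooth and Poisson-commute

Job EQ-C7. `pC 0 = G H`, `pC 1 = G`, `pC 2 = G J`, `G = sC * st (2 - 10⁶ H)`
(`st = Real.smoothTransition`, smooth: `Real.smoothTransition.contDiff`; zero for arguments `≤ 0`,
positive for arguments `> 0`).
At `q ∈ OffO` everything is smooth (C3). If `r2 q = 0` (or just `r2 q < 1/64`), then `ga (r2 ·) = 0`
near `q` (`ga_zero`), so all `pC j` vanish near `q`.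
`pb_pC`: if `q ∉ OffO` all `fderiv (pC j) q = 0`. If `q ∈ OffO`: product and chain rules:
`pb G H = η pb s H + s η' pb H H = 0`, `pb H J = (s - s₁) pb H L + L pb H s + pb H S = 0`,
`pb s J = (s-s₁) pb s L + L pb s s + pb s S = 0`, `pb G J = 0`, so all
`pb (pC i) (pC j) = 0` (`pb` is a bilinear antisymmetric form in the differentials).
-/

set_option autoImplicit false

open scoped ContDiff

noncomputable section

namespace H99.EQ

variable {q : Ph 3}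

/-- the second factors -/
def c7K (j : Fin 3) (q : Ph 3) : ℝ := ![Hf q, 1, Jf q] j

theorem c7_pC (j : Fin 3) : pC j = fun q => Gf3 q * c7K j q := by
  funext q
  fin_cases j <;> simp [pC, c7K]

theorem c7_st_cd : ContDiff ℝ ∞ Real.smoothTransition :=
  Real.smoothTransition.contDiff (n := ⊤)

theorem c7_sC_zero (h : r2 q < 1 / 64) : sC q = 0 := by
  unfold sC
  rw [ga_zero (fun h1 => not_lt.2 h.le h1.1), zero_mul]

theorem c7_Gf3_zero (h : r2 q < 1 / 64) : Gf3 q = 0 := by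
  unfold Gf3
  rw [c7_sC_zero h, zero_mul]

theorem c7_near (h : q ∉ OffO) : ∀ᶠ p in nhds q, r2 p < 1 / 64 := by
  have h1 : r2 q < 1 / 64 := by
    have h2 : ¬ 0 < r2 q := h
    linarith
  exact r2_cd.continuous.continuousAt.eventually (eventually_lt_nhds h1)

theorem c7_eta_cd (h : q ∈ OffO) :
    ContDiffAt ℝ ∞ (fun q => Real.smoothTransition (2 - 10 ^ 6 * Hf q)) q := by
  have h1 : ContDiffAt ℝ ∞ (fun q => 2 - 10 ^ 6 * Hf q) q :=
    contDiffAt_const.sub (contDiffAt_const.mul (Hf_cd h))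
  exact c7_st_cd.contDiffAt.comp q h1

theorem c7_Gf3_cdAt (h : q ∈ OffO) : ContDiffAt ℝ ∞ Gf3 q :=
  sC_cd.contDiffAt.mul (c7_eta_cd h)

theorem c7_Jf_cdAt (h : q ∈ OffO) : ContDiffAt ℝ ∞ Jf q :=
  ((sC_cd.contDiffAt.sub contDiffAt_const).mul (Lf_cd 2).contDiffAt).add (Sf_cd h)

theorem c7_K_cdAt (j : Fin 3) (h : q ∈ OffO) : ContDiffAt ℝ ∞ (c7K j) q := by
  fin_cases j
  · exact Hf_cd h
  · exact contDiffAt_const
  · exact c7_Jf_cdAt h

theorem Gf3_cd : ContDiff ℝ ∞ Gf3 := by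
  rw [contDiff_iff_contDiffAt]
  intro q
  by_cases h : q ∈ OffO
  · exact c7_Gf3_cdAt h
  · have h1 : Gf3 =ᶠ[nhds q] fun _ => 0 := by
      filter_upwards [c7_near h] with p hp
      exact c7_Gf3_zero hp
    exact contDiffAt_const.congr_of_eventuallyEq h1

theorem c7_pC_near (j : Fin 3) (h : q ∉ OffO) : pC j =ᶠ[nhds q] fun _ => 0 := by
  filter_upwards [c7_near h] with p hp
  rw [c7_pC]
  simp only
  rw [c7_Gf3_zero hp, zero_mul]

theorem pC_cd (j : Fin 3) : ContDiff ℝ ∞ (pC j) := by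
  rw [contDiff_iff_contDiffAt]
  intro q
  by_cases h : q ∈ OffO
  · rw [c7_pC]
    exact (c7_Gf3_cdAt h).mul (c7_K_cdAt j h)
  · exact contDiffAt_const.congr_of_eventuallyEq (c7_pC_near j h)

theorem c7_Gf3_out (h : q ∉ WC) : Gf3 q = 0 := by
  unfold Gf3 sC
  by_cases h1 : r2 q ∈ Set.Ioo (1 / 64 : ℝ) (9 / 64)
  · by_cases h2 : 10 ^ 4 * Df q ^ 2 < 2
    · by_cases h3 : 10 ^ 6 * Hf q < 2
      · exact absurd ⟨h1.1, h1.2, h2, h3⟩ h
      · rw [Real.smoothTransition.zero_of_nonpos (x := 2 - 10 ^ 6 * Hf q) (by linarith), mul_zero]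
    · rw [Real.smoothTransition.zero_of_nonpos (x := 2 - 10 ^ 4 * Df q ^ 2) (by linarith),
        mul_zero, zero_mul]
  · rw [ga_zero h1, zero_mul, zero_mul]

theorem pC_out (j : Fin 3) (h : q ∉ WC) : pC j q = 0 := by
  rw [c7_pC]
  simp only
  rw [c7_Gf3_out h, zero_mul]

theorem Gf3_pos (h : q ∈ WC) : 0 < Gf3 q := by
  obtain ⟨h1, h2, h3, h4⟩ := h
  unfold Gf3 sC
  exact mul_pos (mul_pos (ga_pos ⟨h1, h2⟩) (Real.smoothTransition.pos_of_pos (by linarith)))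
    (Real.smoothTransition.pos_of_pos (by linarith))

/-! ### the bilinear form -/

theorem c7_anti (α β : Ph 3 →L[ℝ] ℝ) : pbL α β = -pbL β α := by
  unfold pbL
  rw [← Finset.sum_neg_distrib]
  refine Finset.sum_congr rfl fun j _ => ?_
  ring

theorem c7_self (α : Ph 3 →L[ℝ] ℝ) : pbL α α = 0 := by
  have := c7_anti α α
  linarith

theorem c7_add (α α' β : Ph 3 →L[ℝ] ℝ) : pbL (α + α') β = pbL α β + pbL α' β := by
  unfold pbL
  rw [← Finset.sum_add_distrib]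
  refine Finset.sum_congr rfl fun j _ => ?_
  simp only [add_apply]
  ring

theorem c7_smul (c : ℝ) (α β : Ph 3 →L[ℝ] ℝ) : pbL (c • α) β = c * pbL α β := by
  unfold pbL
  rw [Finset.mul_sum]
  refine Finset.sum_congr rfl fun j _ => ?_
  simp only [smul_apply, smul_eq_mul]
  ring

theorem c7_addR (α β β' : Ph 3 →L[ℝ] ℝ) : pbL α (β + β') = pbL α β + pbL α β' := by
  rw [c7_anti, c7_add, c7_anti β, c7_anti β']
  ring

theorem c7_smulR (c : ℝ) (α β : Ph 3 →L[ℝ] ℝ) : pbL α (c • β) = c * pbL α β := by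
  rw [c7_anti, c7_smul, c7_anti β]
  ring

theorem c7_pb (f g : Ph 3 → ℝ) (q : Ph 3) :
    pb f g q = pbL (fderiv ℝ f q) (fderiv ℝ g q) := rfl

theorem c7_dJ (h : q ∈ OffO) : fderiv ℝ Jf q =
    (sC q - sg 0) • fderiv ℝ (Lf 2) q + Lf 2 q • fderiv ℝ sC q + fderiv ℝ Sf q := by
  have hs : HasFDerivAt sC (fderiv ℝ sC q) q :=
    ((sC_cd.differentiable (by simp)) q).hasFDerivAt
  have hL : HasFDerivAt (Lf 2) (fderiv ℝ (Lf 2) q) q :=
    (((Lf_cd 2).differentiable (by simp)) q).hasFDerivAt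
  have hS : HasFDerivAt Sf (fderiv ℝ Sf q) q :=
    ((Sf_cd h).differentiableAt (by simp)).hasFDerivAt
  have h1 : HasFDerivAt Jf
      ((sC q - sg 0) • fderiv ℝ (Lf 2) q + Lf 2 q • fderiv ℝ sC q + fderiv ℝ Sf q) q :=
    ((hs.sub_const (sg 0)).mul hL).add hS
  exact h1.fderiv

theorem c7_dG (h : q ∈ OffO) : ∃ a b : ℝ, fderiv ℝ Gf3 q =
    a • fderiv ℝ sC q + b • fderiv ℝ Hf q := by
  have hs : HasFDerivAt sC (fderiv ℝ sC q) q :=
    ((sC_cd.differentiable (by simp)) q).hasFDerivAt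
  have hH : HasFDerivAt Hf (fderiv ℝ Hf q) q :=
    ((Hf_cd h).differentiableAt (by simp)).hasFDerivAt
  have h2 : HasFDerivAt (fun q => 2 - 10 ^ 6 * Hf q) (-((10 ^ 6 : ℝ) • fderiv ℝ Hf q)) q :=
    (hH.const_mul (10 ^ 6 : ℝ)).const_sub 2
  have hst : HasDerivAt Real.smoothTransition
      (deriv Real.smoothTransition (2 - 10 ^ 6 * Hf q)) (2 - 10 ^ 6 * Hf q) :=
    ((c7_st_cd.differentiable (by simp)) _).hasDerivAt
  have h3 := hst.comp_hasFDerivAt q h2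
  have h4 := hs.mul h3
  refine ⟨Real.smoothTransition (2 - 10 ^ 6 * Hf q),
    -(sC q * deriv Real.smoothTransition (2 - 10 ^ 6 * Hf q) * 10 ^ 6), ?_⟩
  have h5 : HasFDerivAt Gf3 (sC q • deriv Real.smoothTransition (2 - 10 ^ 6 * Hf q) •
      -((10 ^ 6 : ℝ) • fderiv ℝ Hf q) +
        Real.smoothTransition (2 - 10 ^ 6 * Hf q) • fderiv ℝ sC q) q := h4
  rw [h5.fderiv, add_comm]
  congr 1
  refine ContinuousLinearMap.ext fun v => ?_
  simp only [smul_apply, neg_apply, smul_eq_mul]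
  ring

/-- the differentials of `G`, `H`, `J` commute -/
theorem c7_comm (h : q ∈ OffO) :
    pbL (fderiv ℝ Hf q) (fderiv ℝ Jf q) = 0 ∧ pbL (fderiv ℝ Gf3 q) (fderiv ℝ Hf q) = 0 ∧
      pbL (fderiv ℝ Gf3 q) (fderiv ℝ Jf q) = 0 := by
  have e1 : pbL (fderiv ℝ Hf q) (fderiv ℝ sC q) = 0 := pb_H_s h
  have e2 : pbL (fderiv ℝ Sf q) (fderiv ℝ sC q) = 0 := pb_S_s h
  have e3 : pbL (fderiv ℝ (Lf 2) q) (fderiv ℝ sC q) = 0 := pb_L_s q
  have e4 : pbL (fderiv ℝ Hf q) (fderiv ℝ (Lf 2) q) = 0 := pb_H_L h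
  have e5 : pbL (fderiv ℝ Hf q) (fderiv ℝ Sf q) = 0 := pb_H_S h
  have e1' : pbL (fderiv ℝ sC q) (fderiv ℝ Hf q) = 0 := by rw [c7_anti, e1, neg_zero]
  have e2' : pbL (fderiv ℝ sC q) (fderiv ℝ Sf q) = 0 := by rw [c7_anti, e2, neg_zero]
  have e3' : pbL (fderiv ℝ sC q) (fderiv ℝ (Lf 2) q) = 0 := by rw [c7_anti, e3, neg_zero]
  obtain ⟨a, b, hG⟩ := c7_dG h
  rw [hG, c7_dJ h]
  refine ⟨?_, ?_, ?_⟩
  · rw [c7_addR, c7_addR, c7_smulR, c7_smulR, e4, e1, e5]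
    ring
  · rw [c7_add, c7_smul, c7_smul, e1', c7_self]
    ring
  · rw [c7_add, c7_smul, c7_smul, c7_addR, c7_addR, c7_addR, c7_addR, c7_smulR, c7_smulR,
      c7_smulR, c7_smulR, e4, e1, e5, e2', e3', c7_self]
    ring

theorem c7_K (i j : Fin 3) (h : q ∈ OffO) :
    pbL (fderiv ℝ (c7K i) q) (fderiv ℝ (c7K j) q) = 0 ∧
      pbL (fderiv ℝ Gf3 q) (fderiv ℝ (c7K j) q) = 0 := by
  obtain ⟨h1, h2, h3⟩ := c7_comm h
  have h1' : pbL (fderiv ℝ Jf q) (fderiv ℝ Hf q) = 0 := by rw [c7_anti, h1, neg_zero]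
  have k0 : c7K 0 = Hf := rfl
  have k1 : c7K 1 = fun _ => 1 := rfl
  have k2 : c7K 2 = Jf := rfl
  have d1 : fderiv ℝ (c7K 1) q = 0 := by
    rw [k1]
    exact fderiv_const_apply _
  have z1 : ∀ α : Ph 3 →L[ℝ] ℝ, pbL α 0 = 0 := by
    intro α
    have := c7_smulR 0 α 0
    rw [zero_smul, zero_mul] at this
    exact this
  have z2 : ∀ α : Ph 3 →L[ℝ] ℝ, pbL 0 α = 0 := by
    intro α
    rw [c7_anti, z1, neg_zero]
  constructor
  · fin_cases i <;> fin_cases j <;> simp only [Fin.zero_eta, Fin.mk_one, Fin.reduceFinMk] <;>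
      first
      | rw [d1, z1]
      | rw [d1, z2]
      | exact c7_self _
      | exact h1
      | exact h1'
  · fin_cases j <;> simp only [Fin.zero_eta, Fin.mk_one, Fin.reduceFinMk]
    · exact h2
    · rw [d1, z1]
    · exact h3

theorem pb_pC (i j : Fin 3) (q : Ph 3) : pb (pC i) (pC j) q = 0 := by
  rw [c7_pb]
  by_cases h : q ∈ OffO
  · have hd : ∀ j, fderiv ℝ (pC j) q =
        Gf3 q • fderiv ℝ (c7K j) q + c7K j q • fderiv ℝ Gf3 q := by
      intro j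
      have hG : HasFDerivAt Gf3 (fderiv ℝ Gf3 q) q :=
        ((c7_Gf3_cdAt h).differentiableAt (by simp)).hasFDerivAt
      have hK : HasFDerivAt (c7K j) (fderiv ℝ (c7K j) q) q :=
        ((c7_K_cdAt j h).differentiableAt (by simp)).hasFDerivAt
      rw [c7_pC]
      exact (hG.mul hK).fderiv
    rw [hd i, hd j, c7_add, c7_smul, c7_smul, c7_addR, c7_addR, c7_smulR, c7_smulR, c7_smulR,
      c7_smulR, (c7_K i j h).1, (c7_K i j h).2, c7_self, c7_anti (fderiv ℝ (c7K i) q),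
      (c7_K j i h).2]
    ring
  · have h1 : fderiv ℝ (pC i) q = 0 := by
      rw [(c7_pC_near i h).fderiv_eq]
      exact fderiv_const_apply _
    rw [h1]
    unfold pbL
    simp

end H99.EQ
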