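import Pool.Agent.H99.EQ.C7

/-!
# EQ-C9: independence of the differentials of the core system

Job EQ-C9. `q ∈ WC`. With `G ≠ 0`, `s ≠ 0`, `η ≠ 0`: `dp₀ = H dG + G dH`, `dp₁ = dG`,
`dp₂ = J dG + G dJ`, `dG = η ds - 10⁶ s η' dH`, `dJ = (s - s₁) dL + L ds + dS`. Suppose
`a₀ dp₀ + a₁ dp₁ + a₂ dp₂ = 0`. On `vL`: `ds = dH = dL = 0`, `dS (vL) = pb (Lf 2) Sf ≠ 0`
(`pb_L`): `a₂ = 0`. On `vR`: `dH = 0`, `ds = 2 r2 ga'(r2) χ ≠ 0` (`dsC`, `ga_deriv_ne`,
`dr_vR`, `dD_vR`; `χ > 0`): `a₀ H + a₁ = 0`. On `vD`: `ds = 0`, `dH = 2H`: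
`2 a₀ G H - 2·10⁶ (a₀ H + a₁) s η' H = 0`, so `a₀ = 0`, `a₁ = 0`.
-/

set_option autoImplicit false

open scoped ContDiff

noncomputable section

namespace H99.EQ

variable {q : Ph 3}

theorem C9_dG (h : q ∈ OffO) : ∃ κ : ℝ, HasFDerivAt Gf3
    (Real.smoothTransition (2 - 10 ^ 6 * Hf q) • fderiv ℝ sC q + κ • fderiv ℝ Hf q) q := by
  have hs : HasFDerivAt sC (fderiv ℝ sC q) q :=
    ((sC_cd.differentiable (by simp)).differentiableAt).hasFDerivAt
  have hH : HasFDerivAt Hf (fderiv ℝ Hf q) q :=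
    ((Hf_cd h).differentiableAt (by simp)).hasFDerivAt
  have h1 : HasFDerivAt (fun q' => 2 - 10 ^ 6 * Hf q') (-((10 : ℝ) ^ 6 • fderiv ℝ Hf q)) q :=
    (hH.const_mul (10 ^ 6)).const_sub 2
  have hst : HasDerivAt Real.smoothTransition
      (deriv Real.smoothTransition (2 - 10 ^ 6 * Hf q)) (2 - 10 ^ 6 * Hf q) :=
    ((Real.smoothTransition.contDiff (n := 1)).differentiable (by simp)).differentiableAt.hasDerivAt
  have h2 := hst.comp_hasFDerivAt q h1
  have h3 := hs.mul h2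
  refine ⟨sC q * (deriv Real.smoothTransition (2 - 10 ^ 6 * Hf q) * (-(10 ^ 6))), ?_⟩
  refine h3.congr_fderiv (ContinuousLinearMap.ext fun v => ?_)
  simp only [ContinuousLinearMap.add_apply, ContinuousLinearMap.smul_apply, smul_eq_mul,
    ContinuousLinearMap.neg_apply, Function.comp_apply]
  ring

theorem C9_dJ (h : q ∈ OffO) : HasFDerivAt Jf
    ((sC q - sg 0) • fderiv ℝ (Lf 2) q + Lf 2 q • fderiv ℝ sC q + fderiv ℝ Sf q) q := by
  have hs : HasFDerivAt sC (fderiv ℝ sC q) q :=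
    ((sC_cd.differentiable (by simp)).differentiableAt).hasFDerivAt
  have hL : HasFDerivAt (Lf 2) (fderiv ℝ (Lf 2) q) q :=
    (((Lf_cd 2).differentiable (by simp)).differentiableAt).hasFDerivAt
  have hS : HasFDerivAt Sf (fderiv ℝ Sf q) q :=
    ((Sf_cd h).differentiableAt (by simp)).hasFDerivAt
  exact ((hs.sub_const (sg 0)).mul hL).add hS

theorem pC_indep (h : q ∈ WC) (h1 : r2 q ≠ 5 / 64) (h2 : Hf q ≠ 0)
    (h3 : pb (Lf 2) Sf q ≠ 0) : LinearIndependent ℝ fun j => fderiv ℝ (pC j) q := by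
  obtain ⟨hr1, hr2, hD, hH⟩ := h
  have hO : q ∈ OffO := by
    show 0 < r2 q
    linarith
  have hη : 0 < Real.smoothTransition (2 - 10 ^ 6 * Hf q) :=
    Real.smoothTransition.pos_of_pos (by linarith)
  have hχ : 0 < Real.smoothTransition (2 - 10 ^ 4 * Df q ^ 2) :=
    Real.smoothTransition.pos_of_pos (by linarith)
  have hG : Gf3 q ≠ 0 := (Gf3_pos ⟨hr1, hr2, hD, hH⟩).ne'
  obtain ⟨κ, dG⟩ := C9_dG hO
  have dJ := C9_dJ hO
  have dH : HasFDerivAt Hf (fderiv ℝ Hf q) q :=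
    ((Hf_cd hO).differentiableAt (by simp)).hasFDerivAt
  set G' := Real.smoothTransition (2 - 10 ^ 6 * Hf q) • fderiv ℝ sC q + κ • fderiv ℝ Hf q with hG'
  set J' := (sC q - sg 0) • fderiv ℝ (Lf 2) q + Lf 2 q • fderiv ℝ sC q + fderiv ℝ Sf q with hJ'
  have e0 : fderiv ℝ (pC 0) q = Gf3 q • fderiv ℝ Hf q + Hf q • G' := (dG.mul dH).fderiv
  have e1 : fderiv ℝ (pC 1) q = G' := dG.fderiv
  have e2 : fderiv ℝ (pC 2) q = Gf3 q • J' + Jf q • G' := (dG.mul dJ).fderiv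
  rw [Fintype.linearIndependent_iff]
  intro a ha
  rw [Fin.sum_univ_three, e0, e1, e2] at ha
  have key : ∀ v, a 0 * (Gf3 q * fderiv ℝ Hf q v + Hf q * G' v) + a 1 * G' v +
      a 2 * (Gf3 q * J' v + Jf q * G' v) = 0 := fun v => by
    have := congrArg (fun A : Ph 3 →L[ℝ] ℝ => A v) ha
    simpa only [ContinuousLinearMap.add_apply, ContinuousLinearMap.smul_apply, smul_eq_mul,
      ContinuousLinearMap.zero_apply] using this
  have gv : ∀ v, G' v = Real.smoothTransition (2 - 10 ^ 6 * Hf q) * fderiv ℝ sC q v +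
      κ * fderiv ℝ Hf q v := fun v => by
    rw [hG']
    simp only [ContinuousLinearMap.add_apply, ContinuousLinearMap.smul_apply, smul_eq_mul]
  have jv : ∀ v, J' v = (sC q - sg 0) * fderiv ℝ (Lf 2) q v + Lf 2 q * fderiv ℝ sC q v +
      fderiv ℝ Sf q v := fun v => by
    rw [hJ']
    simp only [ContinuousLinearMap.add_apply, ContinuousLinearMap.smul_apply, smul_eq_mul]
  -- the rotation
  have kL := key (vL q)
  have sL : fderiv ℝ sC q (vL q) = 0 := by
    rw [dsC, dr_vL, dD_vL, mul_zero, mul_zero, mul_zero, add_zero]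
  rw [jv, gv, sL, dH_vL hO, dL_vL, ← pb_L] at kL
  have ha2 : a 2 = 0 := by
    have : a 2 * (Gf3 q * pb (Lf 2) Sf q) = 0 := by linear_combination kL
    exact (mul_eq_zero.1 this).resolve_right (mul_ne_zero hG h3)
  -- the radial direction
  have kR := key (vR q)
  have sR : fderiv ℝ sC q (vR q) ≠ 0 := by
    rw [dsC, dr_vR, dD_vR, mul_zero, mul_zero, add_zero]
    refine mul_ne_zero (mul_ne_zero (ga_deriv_ne ⟨hr1, hr2⟩ h1) hχ.ne') ?_
    have : 0 < r2 q := hO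
    positivity
  rw [gv, dH_vR hO, ha2] at kR
  have hsum : a 0 * Hf q + a 1 = 0 := by
    have : (a 0 * Hf q + a 1) *
        (Real.smoothTransition (2 - 10 ^ 6 * Hf q) * fderiv ℝ sC q (vR q)) = 0 := by
      linear_combination kR
    exact (mul_eq_zero.1 this).resolve_right (mul_ne_zero hη.ne' sR)
  -- the dilation
  have kD := key (vD q)
  have sD : fderiv ℝ sC q (vD q) = 0 := by
    rw [dsC, dr_vD, dD_vD hO, mul_zero, mul_zero, mul_zero, add_zero]
  rw [gv, sD, dH_vD hO, ha2] at kD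
  have ha0 : a 0 = 0 := by
    have : a 0 * (Gf3 q * (2 * Hf q)) = 0 := by
      linear_combination kD - κ * (2 * Hf q) * hsum
    exact (mul_eq_zero.1 this).resolve_right
      (mul_ne_zero hG (mul_ne_zero two_ne_zero h2))
  have ha1 : a 1 = 0 := by
    rw [ha0, zero_mul, zero_add] at hsum
    exact hsum
  intro i
  match i with
  | 0 => exact ha0
  | 1 => exact ha1
  | 2 => exact ha2

end H99.EQ
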