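import Pool.Agent.H99.EQ.KDefs

/-!
# The core of the classical system: definitions
`q = (x, ξ)`, `X = x - (1/2,1/2,1/2)`, `Ξ = ξ`. `t = ω_3 = X_2/|X|`.
-/

set_option autoImplicit false

open MeasureTheory
open scoped ContDiff

noncomputable section

namespace H99.EQ

def pA (t : ℝ) : ℝ := 101 + 54 * t - 27 * t ^ 2
def pB (t : ℝ) : ℝ := (3 * t + 5) * (729 * t ^ 3 + 117 * t ^ 2 - 1653 * t - 1241)
def c2 (t : ℝ) : ℝ := pA t ^ 2 / (288 * (27 * t + 37))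
def phi (t : ℝ) : ℝ := -2 * (27 * t + 37) * pA t / pB t
def phi1 (t : ℝ) : ℝ := 27 * (81 * t ^ 2 + 94 * t - 47) / pB t
def nu0 (t : ℝ) : ℝ := 27 * (1 + t) / pA t
def c3 (t : ℝ) : ℝ := Real.sqrt 2 / 24 * pA t / Real.sqrt (27 * t + 37)
def ze (t : ℝ) : ℝ := 3 / 8 * (t - 1)

/-- `X` -/
def cx (q : Ph 3) : V 3 := fun k => q.1 k - 1 / 2

/-- `|X|²` -/
def r2 (q : Ph 3) : ℝ := cx q 0 ^ 2 + cx q 1 ^ 2 + cx q 2 ^ 2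

def nX (q : Ph 3) : ℝ := Real.sqrt (r2 q)

/-- `ω` -/
def wf (i : Fin 3) (q : Ph 3) : ℝ := cx q i / nX q

/-- `L = X × Ξ` -/
def Lf (i : Fin 3) (q : Ph 3) : ℝ :=
  ![cx q 1 * q.2 2 - cx q 2 * q.2 1, cx q 2 * q.2 0 - cx q 0 * q.2 2,
    cx q 0 * q.2 1 - cx q 1 * q.2 0] i

/-- `D = X · Ξ` -/
def Df (q : Ph 3) : ℝ := cx q 0 * q.2 0 + cx q 1 * q.2 1 + cx q 2 * q.2 2

/-- `ξ'_3 = (L × ω)_3` -/
def Zf (q : Ph 3) : ℝ := Lf 0 q * wf 1 q - Lf 1 q * wf 0 q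

/-- `ξ'_1 = (L × ω)_1` -/
def x1f (q : Ph 3) : ℝ := Lf 1 q * wf 2 q - Lf 2 q * wf 1 q

/-- `|L|²` -/
def Lsq (q : Ph 3) : ℝ := Lf 0 q ^ 2 + Lf 1 q ^ 2 + Lf 2 q ^ 2

/-- `H` -/
def Hf (q : Ph 3) : ℝ :=
  c2 (wf 2 q) * (Lsq q + phi1 (wf 2 q) * (phi (wf 2 q) + 1) * Zf q ^ 2)

/-- `S` -/
def Sf (q : Ph 3) : ℝ :=
  c3 (wf 2 q) *
    (Zf q * (phi1 (wf 2 q) * (Hf q + ze (wf 2 q) * Lf 2 q ^ 2) + Hf q - 3 / 8 * Lf 2 q ^ 2) *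
        wf 0 q -
      nu0 (wf 2 q) * Lf 2 q * Hf q * wf 1 q -
      (wf 2 q * Hf q - ze (wf 2 q) * Lf 2 q ^ 2) * x1f q)

/-- the cut-off function of `r²` and `D` -/
def sC (q : Ph 3) : ℝ := ga (r2 q) * Real.smoothTransition (2 - 10 ^ 4 * Df q ^ 2)

/-- `G = s η(H)` -/
def Gf3 (q : Ph 3) : ℝ := sC q * Real.smoothTransition (2 - 10 ^ 6 * Hf q)

/-- `J = (s - s₁) L_3 + S` -/
def Jf (q : Ph 3) : ℝ := (sC q - sg 0) * Lf 2 q + Sf q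

/-- the core system -/
def pC (j : Fin 3) (q : Ph 3) : ℝ := ![Gf3 q * Hf q, Gf3 q, Gf3 q * Jf q] j

/-- the open set where the core system lives -/
def WC : Set (Ph 3) :=
  {q | 1 / 64 < r2 q ∧ r2 q < 9 / 64 ∧ 10 ^ 4 * Df q ^ 2 < 2 ∧ 10 ^ 6 * Hf q < 2}

/-! ### off the axis `X_0 = X_1 = 0` -/

def rho2 (q : Ph 3) : ℝ := Real.sqrt (cx q 0 ^ 2 + cx q 1 ^ 2)

/-- `cos y` -/
def E1 (q : Ph 3) : ℝ := cx q 0 / rho2 q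

/-- `sin y` -/
def E2 (q : Ph 3) : ℝ := cx q 1 / rho2 q

/-- `p_x = φ(t) ξ'_3` -/
def pxf (q : Ph 3) : ℝ := phi (wf 2 q) * Zf q

/-- `H` as a function of `(t, p_x, L_3)` -/
def Hh (t px l : ℝ) : ℝ := rla (ze t) * (px ^ 2 + l ^ 2)

def B1h (t px l : ℝ) : ℝ := rhd (ze t) * l * (rhh (ze t) * Hh t px l - ze t * l ^ 2)

def B2h (t px l : ℝ) : ℝ := rhd (ze t) * px * (Hh t px l + ze t * l ^ 2)

/-- the open set off the axis -/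
def OffA : Set (Ph 3) := {q | ¬ (cx q 0 = 0 ∧ cx q 1 = 0)}

/-- the open set `X ≠ 0` -/
def OffO : Set (Ph 3) := {q | 0 < r2 q}

/-- the bilinear form of the Poisson bracket -/
def pbL (α β : Ph 3 →L[ℝ] ℝ) : ℝ :=
  ∑ j, (α (0, Pi.single j 1) * β (Pi.single j 1, 0) - α (Pi.single j 1, 0) * β (0, Pi.single j 1))

end H99.EQ
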