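import Pool.Agent.H99.EQ.R5

/-!
# EQ-CL0: extraction of top order coefficients on `C2`

Job EQ-CL0.
* `OL2_form`, `OL3_form`: from `OL_succ` (O1) and `OL_mo_of_one`, `Fin 2` sums
  (`fr2 = ![X2, Y2]`).
* `top1_zero`: commute with a function `f`: `[h₁ X + h₂ Y, f] = h₁ Xf + h₂ Yf`, and it is `0`
  because `OL fr2 1` operators are functions. Take `f = x` (`test_x`: `X2 x` unit, `Y2 x = 0`) and
  `f = eY 1` (`X2 = 0`, `Y2 (eY 1) = I • eY 1`, `eY 1 * eY (-1) = 1`).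
* `top2_zero`: double commutators: for `OL fr2 2` operators `[[P, f], g] = 0` (`OL_comm_mo` twice),
  `[[X², f], g] = 2 Xf Xg`, `[[XY, f], g] = Xf Yg + Yf Xg`, `[[Y², f], g] = 2 Yf Yg`
  with `(f, g) = (x, x), (x, e), (e, e)`, `e = eY 1`. (Leibniz rule `dv_mo`.)
-/

set_option autoImplicit false

open Complex
open scoped ContDiff

noncomputable section

namespace H99.EQ

theorem cl0_eY_unit : IsUnit (Y2 (eY 1)) := by
  have h1 : IsUnit (eY 1) := by
    refine IsUnit.of_mul_eq_one (eY (-1)) ?_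
    rw [eY_mul, show (1 : ℤ) + -1 = 0 by norm_num, eY_zero]
  have h2 : Y2 (eY 1) = algebraMap ℂ C2 I * eY 1 := by
    rw [Y2_eY, Algebra.smul_def]
    simp
  rw [h2]
  exact ((isUnit_iff_ne_zero.2 I_ne_zero).map (algebraMap ℂ C2)).mul h1

theorem cl0_X2_eY : X2 (eY 1) = 0 := X2_eY 1

theorem cl0_two {a : C2} (h : 2 * a = 0) : a = 0 := by
  have h1 : a = (1 / 2 : ℂ) • (2 * a) := by
    rw [two_mul, ← two_smul ℂ a, smul_smul]
    norm_num
  rw [h1, h, smul_zero]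

theorem OL2_form {K : Module.End ℂ C2} (hK : OL fr2 2 K) :
    ∃ vx vy v0 : C2, K = mo vx * dv X2 + mo vy * dv Y2 + mo v0 := by
  obtain ⟨f, Q, hQ, h⟩ := OL_succ (m := 0) hK
  refine ⟨Q 0 1, Q 1 1, f, ?_⟩
  rw [h, Fin.sum_univ_two, ← OL_mo_of_one (hQ 0), ← OL_mo_of_one (hQ 1)]
  change mo f + (Q 0 * dv X2 + Q 1 * dv Y2) = _
  abel

theorem OL3_form {K : Module.End ℂ C2} (hK : OL fr2 3 K) :
    ∃ cxx cxy cyy cx cy c0 : C2, K = mo cxx * (dv X2 * dv X2) + mo cxy * (dv X2 * dv Y2) +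
      mo cyy * (dv Y2 * dv Y2) + mo cx * dv X2 + mo cy * dv Y2 + mo c0 := by
  obtain ⟨f, Q, hQ, h⟩ := OL_succ (m := 1) hK
  obtain ⟨a, b, c, h0⟩ := OL2_form (hQ 0)
  obtain ⟨a', b', c', h1⟩ := OL2_form (hQ 1)
  refine ⟨a, b + a', b', c, c', f, ?_⟩
  rw [h, Fin.sum_univ_two, h0, h1]
  change mo f + ((mo a * dv X2 + mo b * dv Y2 + mo c) * dv X2 +
    (mo a' * dv X2 + mo b' * dv Y2 + mo c') * dv Y2) = _
  rw [mo_add]
  simp only [add_mul, mul_assoc]
  rw [← XY_comm]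
  abel

theorem top1_zero {h1 h2 : C2} (h : OL fr2 1 (mo h1 * dv X2 + mo h2 * dv Y2)) :
    h1 = 0 ∧ h2 = 0 := by
  have h3 := OL_mo_of_one h
  have h4 : (mo h1 * dv X2 + mo h2 * dv Y2 : Module.End ℂ C2) 1 = 0 := by
    simp
  rw [h4, mo_zero] at h3
  have h5 : ∀ f : C2, h1 * X2 f + h2 * Y2 f = 0 := fun f => by
    have := congrArg (fun P : Module.End ℂ C2 => P f) h3
    simpa using this
  obtain ⟨x, hx, hx'⟩ := test_x
  refine ⟨?_, ?_⟩
  · have h6 := h5 x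
    rw [hx', mul_zero, add_zero] at h6
    exact hx.mul_left_eq_zero.1 h6
  · have h6 := h5 (eY 1)
    rw [cl0_X2_eY, mul_zero, zero_add] at h6
    exact cl0_eY_unit.mul_left_eq_zero.1 h6

theorem top2_zero {h1 h2 h3 : C2} (h : OL fr2 2 (mo h1 * (dv X2 * dv X2) +
    mo h2 * (dv X2 * dv Y2) + mo h3 * (dv Y2 * dv Y2))) : h1 = 0 ∧ h2 = 0 ∧ h3 = 0 := by
  obtain ⟨vx, vy, v0, h4⟩ := OL2_form h
  have h5 : ∀ f : C2, h1 * X2 (X2 f) + h2 * X2 (Y2 f) + h3 * Y2 (Y2 f) =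
      vx * X2 f + vy * Y2 f + v0 * f := fun f => by
    have := congrArg (fun P : Module.End ℂ C2 => P f) h4
    simpa using this
  have h6 : v0 = 0 := by
    have := h5 1
    simpa using this.symm
  have key : ∀ f g : C2, 2 * (h1 * (X2 f * X2 g)) + h2 * (X2 f * Y2 g + Y2 f * X2 g) +
      2 * (h3 * (Y2 f * Y2 g)) = 0 := by
    intro f g
    have e1 := h5 (f * g)
    have e2 := h5 f
    have e3 := h5 g
    simp only [Derivation.leibniz, smul_eq_mul, map_add] at e1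
    rw [h6] at e1 e2 e3
    linear_combination e1 - g * e2 - f * e3
  obtain ⟨x, hx, hx'⟩ := test_x
  refine ⟨?_, ?_, ?_⟩
  · have h7 := key x x
    rw [hx'] at h7
    simp only [mul_zero, zero_mul, add_zero] at h7
    exact (hx.mul hx).mul_left_eq_zero.1 (cl0_two h7)
  · have h7 := key x (eY 1)
    rw [hx', cl0_X2_eY] at h7
    simp only [mul_zero, zero_mul, add_zero, zero_add] at h7
    exact (hx.mul cl0_eY_unit).mul_left_eq_zero.1 h7
  · have h7 := key (eY 1) (eY 1)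
    rw [cl0_X2_eY] at h7
    simp only [mul_zero, zero_mul, add_zero, zero_add] at h7
    exact (cl0_eY_unit.mul cl0_eY_unit).mul_left_eq_zero.1 (cl0_two h7)

end H99.EQ
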