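import Pool.Agent.H99.EQ.CL0
import Pool.Agent.H99.EQ.CL1

/-!
# EQ-CL3: the equation (E3)

Job EQ-CL3. `[a, K]` is a function (`OL_comm_mo`), `[D - Dpr2, c]` is a function, so by `topDc`
`mo (2ν²λ Xc) X + mo (2ν²λ Yc) Y` is `OL fr2 1`; `top1_zero`, `laS_unit`, `ν ≠ 0`, `C2_const`.
-/

set_option autoImplicit false

open Complex
open scoped ContDiff

noncomputable section

namespace H99.EQ

section GeneralRing

variable {R : Type*} [Ring R]

theorem cl3_ring (a c D D0 K E : R) (h : (a * K - K * a) + (D * c - c * D) = 0) :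
    E = (K * a - a * K) - ((D - D0) * c - c * (D - D0)) - (D0 * c - c * D0 - E) := by
  have h2 : D * c - c * D = -(a * K - K * a) := eq_neg_of_add_eq_zero_right h
  have h3 : (D - D0) * c - c * (D - D0) = (D * c - c * D) - (D0 * c - c * D0) := by
    noncomm_ring
  rw [h3, h2]
  abel

end GeneralRing

theorem cl3_nu : nu ≠ 0 := by
  unfold nu
  exact div_ne_zero I_ne_zero
    (mul_ne_zero two_ne_zero (by exact_mod_cast Real.pi_ne_zero))

theorem clA {a c : C2} {K D : Module.End ℂ C2} (hD : OL fr2 2 (D - Dpr2)) (hK : OL fr2 2 K)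
    (h : (mo a * K - K * mo a) + (D * mo c - mo c * D) = 0) : ∃ c0 : ℂ, c = cC c0 := by
  have e := cl3_ring (mo a) (mo c) D Dpr2 K (mo (cC (2 * nu ^ 2) * io laS * X2 c) * dv X2 +
      mo (cC (2 * nu ^ 2) * io laS * Y2 c) * dv Y2) h
  have h1 : OL fr2 1 (K * mo a - mo a * K) := OL_comm_mo (m := 1) a hK
  have h2 : OL fr2 1 ((D - Dpr2) * mo c - mo c * (D - Dpr2)) := OL_comm_mo (m := 1) c hD
  have h3 := topDc c
  have h4 : OL fr2 1 (mo (cC (2 * nu ^ 2) * io laS * X2 c) * dv X2 +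
      mo (cC (2 * nu ^ 2) * io laS * Y2 c) * dv Y2) := by
    rw [e]
    exact OL_sub (OL_sub h1 h2) h3
  obtain ⟨hx, hy⟩ := top1_zero h4
  have hu : IsUnit (cC (2 * nu ^ 2) * io laS) := by
    refine IsUnit.mul ?_ (laS_unit.map io)
    have h5 : (2 * nu ^ 2 : ℂ) ≠ 0 := mul_ne_zero two_ne_zero (pow_ne_zero _ cl3_nu)
    exact (isUnit_iff_ne_zero.mpr h5).map (algebraMap ℂ C2)
  exact C2_const (hu.mul_right_eq_zero.mp hx) (hu.mul_right_eq_zero.mp hy)

end H99.EQ
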