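import Mathlib

/-!
# Berezin-Toeplitz quantisation of the torus `M = ℝ^{2n}/ℤ^{2n}` (definitions)

`M` is the principally polarised abelian variety `ℂⁿ/(ℤⁿ + iℤⁿ)`, `z_j = x_j + i ξ_j`,
`ω = 2π ∑ dx_j ∧ dξ_j`. Functions on `M` are `ℤ^{2n}`-periodic functions of `(x, ξ) ∈ ℝⁿ × ℝⁿ`.
The prequantum line bundle `L` has the sections `s(x, ξ)` with
`s(x+m, ξ) = e^{2πi m·ξ} s(x, ξ)`, `s(x, ξ+m) = s(x, ξ)` (`m ∈ ℤⁿ`), the connection
`d - 2πi ∑ x_j dξ_j` and the pointwise norm `|s|`.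
-/

set_option autoImplicit false

open MeasureTheory Complex
open scoped ContDiff

noncomputable section

namespace H99.EQ

/-- `ℝⁿ` -/
abbrev V (n : ℕ) : Type := Fin n → ℝ

/-- the covering space `ℝⁿ × ℝⁿ ∋ (x, ξ)` of the torus `M` -/
abbrev Ph (n : ℕ) : Type := V n × V n

/-- an integer vector as an element of `ℝⁿ` -/
def ivec {n : ℕ} (a : Fin n → ℤ) : V n := fun j => (a j : ℝ)

/-- `ℤ^{2n}`-periodic functions of `(x, ξ)`: functions on the torus `M` -/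
def IsPer {n : ℕ} {α : Type*} (f : Ph n → α) : Prop :=
  ∀ (a b : Fin n → ℤ) (q : Ph n), f (q.1 + ivec a, q.2 + ivec b) = f q

/-- smooth (complex) functions on the torus `M` -/
structure IsSm {n : ℕ} (f : Ph n → ℂ) : Prop where
  smooth : ContDiff ℝ ∞ f
  per : IsPer f

theorem Hol_add {n k : ℕ} {s t : Ph n → ℂ}
    (h : ContDiff ℝ ∞ s ∧
      (∀ (a : Fin n → ℤ) (x ξ : V n),
        s (x + ivec a, ξ) = exp (2 * Real.pi * I * k * ∑ j, (a j : ℂ) * (ξ j : ℂ)) * s (x, ξ)) ∧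
      (∀ (a : Fin n → ℤ) (x ξ : V n), s (x, ξ + ivec a) = s (x, ξ)) ∧
      (∀ (j : Fin n) (q : Ph n), fderiv ℝ s q (Pi.single j 1, 0) +
        I * fderiv ℝ s q (0, Pi.single j 1) + 2 * Real.pi * k * (q.1 j : ℂ) * s q = 0))
    (h' : ContDiff ℝ ∞ t ∧
      (∀ (a : Fin n → ℤ) (x ξ : V n),
        t (x + ivec a, ξ) = exp (2 * Real.pi * I * k * ∑ j, (a j : ℂ) * (ξ j : ℂ)) * t (x, ξ)) ∧
      (∀ (a : Fin n → ℤ) (x ξ : V n), t (x, ξ + ivec a) = t (x, ξ)) ∧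
      (∀ (j : Fin n) (q : Ph n), fderiv ℝ t q (Pi.single j 1, 0) +
        I * fderiv ℝ t q (0, Pi.single j 1) + 2 * Real.pi * k * (q.1 j : ℂ) * t q = 0)) :
    ContDiff ℝ ∞ (s + t) ∧
      (∀ (a : Fin n → ℤ) (x ξ : V n), (s + t) (x + ivec a, ξ) =
        exp (2 * Real.pi * I * k * ∑ j, (a j : ℂ) * (ξ j : ℂ)) * (s + t) (x, ξ)) ∧
      (∀ (a : Fin n → ℤ) (x ξ : V n), (s + t) (x, ξ + ivec a) = (s + t) (x, ξ)) ∧
      (∀ (j : Fin n) (q : Ph n), fderiv ℝ (s + t) q (Pi.single j 1, 0) +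
        I * fderiv ℝ (s + t) q (0, Pi.single j 1) + 2 * Real.pi * k * (q.1 j : ℂ) * (s + t) q =
          0) := by
  obtain ⟨h1, h2, h3, h4⟩ := h
  obtain ⟨h1', h2', h3', h4'⟩ := h'
  refine ⟨h1.add h1', fun a x ξ => ?_, fun a x ξ => ?_, fun j q => ?_⟩
  · simp only [Pi.add_apply, h2, h2']; ring
  · simp only [Pi.add_apply, h3, h3']
  · have e : fderiv ℝ (s + t) q = fderiv ℝ s q + fderiv ℝ t q :=
      fderiv_add (h1.differentiable (by simp) q) (h1'.differentiable (by simp) q)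
    rw [e]
    simp only [ContinuousLinearMap.add_apply, Pi.add_apply]
    linear_combination h4 j q + h4' j q

theorem Hol_zero {n k : ℕ} :
    ContDiff ℝ ∞ (0 : Ph n → ℂ) ∧
      (∀ (a : Fin n → ℤ) (x ξ : V n), (0 : Ph n → ℂ) (x + ivec a, ξ) =
        exp (2 * Real.pi * I * k * ∑ j, (a j : ℂ) * (ξ j : ℂ)) * (0 : Ph n → ℂ) (x, ξ)) ∧
      (∀ (a : Fin n → ℤ) (x ξ : V n), (0 : Ph n → ℂ) (x, ξ + ivec a) = (0 : Ph n → ℂ) (x, ξ)) ∧
      (∀ (j : Fin n) (q : Ph n), fderiv ℝ (0 : Ph n → ℂ) q (Pi.single j 1, 0) +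
        I * fderiv ℝ (0 : Ph n → ℂ) q (0, Pi.single j 1) +
          2 * Real.pi * k * (q.1 j : ℂ) * (0 : Ph n → ℂ) q = 0) := by
  refine ⟨contDiff_const, fun a x ξ => by simp, fun a x ξ => by simp, fun j q => ?_⟩
  have e : fderiv ℝ (0 : Ph n → ℂ) q = 0 := fderiv_const_apply (0 : ℂ)
  rw [e]; simp

theorem Hol_smul {n k : ℕ} (c : ℂ) {s : Ph n → ℂ}
    (h : ContDiff ℝ ∞ s ∧
      (∀ (a : Fin n → ℤ) (x ξ : V n),
        s (x + ivec a, ξ) = exp (2 * Real.pi * I * k * ∑ j, (a j : ℂ) * (ξ j : ℂ)) * s (x, ξ)) ∧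
      (∀ (a : Fin n → ℤ) (x ξ : V n), s (x, ξ + ivec a) = s (x, ξ)) ∧
      (∀ (j : Fin n) (q : Ph n), fderiv ℝ s q (Pi.single j 1, 0) +
        I * fderiv ℝ s q (0, Pi.single j 1) + 2 * Real.pi * k * (q.1 j : ℂ) * s q = 0)) :
    ContDiff ℝ ∞ (c • s) ∧
      (∀ (a : Fin n → ℤ) (x ξ : V n), (c • s) (x + ivec a, ξ) =
        exp (2 * Real.pi * I * k * ∑ j, (a j : ℂ) * (ξ j : ℂ)) * (c • s) (x, ξ)) ∧
      (∀ (a : Fin n → ℤ) (x ξ : V n), (c • s) (x, ξ + ivec a) = (c • s) (x, ξ)) ∧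
      (∀ (j : Fin n) (q : Ph n), fderiv ℝ (c • s) q (Pi.single j 1, 0) +
        I * fderiv ℝ (c • s) q (0, Pi.single j 1) + 2 * Real.pi * k * (q.1 j : ℂ) * (c • s) q =
          0) := by
  obtain ⟨h1, h2, h3, h4⟩ := h
  refine ⟨contDiff_const.smul h1, fun a x ξ => ?_, fun a x ξ => ?_, fun j q => ?_⟩
  · simp only [Pi.smul_apply, h2, smul_eq_mul]; ring
  · simp only [Pi.smul_apply, h3]
  · have e : fderiv ℝ (c • s) q = c • fderiv ℝ s q :=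
      fderiv_const_smul (h1.differentiable (by simp) q) c
    rw [e]
    simp only [ContinuousLinearMap.smul_apply, Pi.smul_apply, smul_eq_mul]
    linear_combination c * h4 j q

/-- `H⁰(M, L^k)`: the holomorphic sections of `L^k`, i.e. smooth functions `s(x, ξ)` with
`s(x+m, ξ) = e^{2πik m·ξ} s(x, ξ)`, `s(x, ξ+m) = s(x, ξ)` and
`(∂_{x_j} + i ∂_{ξ_j} + 2πk x_j) s = 0`. -/
def Hol (n k : ℕ) : Submodule ℂ (Ph n → ℂ) where
  carrier := {s | ContDiff ℝ ∞ s ∧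
    (∀ (a : Fin n → ℤ) (x ξ : V n),
      s (x + ivec a, ξ) = exp (2 * Real.pi * I * k * ∑ j, (a j : ℂ) * (ξ j : ℂ)) * s (x, ξ)) ∧
    (∀ (a : Fin n → ℤ) (x ξ : V n), s (x, ξ + ivec a) = s (x, ξ)) ∧
    (∀ (j : Fin n) (q : Ph n), fderiv ℝ s q (Pi.single j 1, 0) +
      I * fderiv ℝ s q (0, Pi.single j 1) + 2 * Real.pi * k * (q.1 j : ℂ) * s q = 0)}
  add_mem' := Hol_add
  zero_mem' := Hol_zero
  smul_mem' := fun c _ h => Hol_smul c h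

/-- the fundamental domain `[0,1]^{2n}` -/
def cube (n : ℕ) : Set (Ph n) := Set.Icc 0 1

/-- the inner product `∫_M s t̄` of sections of `L^k` -/
def ip {n : ℕ} (s t : Ph n → ℂ) : ℂ := ∫ q in cube n, s q * (starRingEnd ℂ) (t q)

/-- the norm of a section of `L^k` -/
def nrm {n : ℕ} (s : Ph n → ℂ) : ℝ := Real.sqrt (ip s s).re

/-- Berezin-Toeplitz operators with principal symbol `p`: sequences
`P_k = Π_k F_k Π_k + O(k^{-∞})` (operator norm) of operators on `H⁰(M, L^k)` (`k ≥ 1`), where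
`F_k ∼ ∑ k^{-j} f_j` in `C^∞(M)` and `f_0 = p`. The operator `Π_k F_k Π_k` on `H⁰(M, L^k)` is
given by its matrix elements `⟨F_k s, t⟩`. -/
def IsBT {n : ℕ} (P : ∀ k : ℕ, Hol n k →ₗ[ℂ] Hol n k) (p : Ph n → ℝ) : Prop :=
  ∃ (F f : ℕ → Ph n → ℂ), (∀ k, IsSm (F k)) ∧ (∀ j, IsSm (f j)) ∧ (∀ q, f 0 q = (p q : ℂ)) ∧
    (∀ N r : ℕ, ∃ C : ℝ, ∀ k : ℕ, 1 ≤ k → ∀ q : Ph n,
      ‖iteratedFDeriv ℝ r (fun q' => F k q' - ∑ j ∈ Finset.range N, ((k : ℂ) ^ j)⁻¹ * f j q') q‖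
        ≤ C / (k : ℝ) ^ N) ∧
    (∀ N : ℕ, ∃ C : ℝ, ∀ k : ℕ, 1 ≤ k → ∀ s t : Hol n k,
      ‖ip (P k s : Ph n → ℂ) t - ip (fun q => F k q * (s : Ph n → ℂ) q) t‖
        ≤ C / (k : ℝ) ^ N * (nrm (s : Ph n → ℂ) * nrm (t : Ph n → ℂ)))

/-- `(p_1, …, p_n)` has an exact Berezin-Toeplitz quantisation: self-adjoint Berezin-Toeplitz
operators `P_1, …, P_n` with principal symbols `p_1, …, p_n`, which commute for every `k ≥ 1`. -/
def IsQuantised {n : ℕ} (p : Fin n → Ph n → ℝ) : Prop :=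
  ∃ P : Fin n → ∀ k : ℕ, Hol n k →ₗ[ℂ] Hol n k,
    (∀ j, IsBT (P j) (p j)) ∧
    (∀ j, ∀ k : ℕ, 1 ≤ k → ∀ s t : Hol n k,
      ip (P j k s : Ph n → ℂ) t = ip (s : Ph n → ℂ) (P j k t : Ph n → ℂ)) ∧
    (∀ i j, ∀ k : ℕ, 1 ≤ k → ∀ s : Hol n k, P i k (P j k s) = P j k (P i k s))

/-- the Poisson bracket `∑_j (∂_{ξ_j} f ∂_{x_j} g - ∂_{x_j} f ∂_{ξ_j} g)` (a constant multiple of
the Poisson bracket of `ω`) -/
def pb {n : ℕ} (f g : Ph n → ℝ) (q : Ph n) : ℝ :=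
  ∑ j, (fderiv ℝ f q (0, Pi.single j 1) * fderiv ℝ g q (Pi.single j 1, 0) -
    fderiv ℝ f q (Pi.single j 1, 0) * fderiv ℝ g q (0, Pi.single j 1))

/-- classical integrable systems on `M`: smooth real functions `p_1, …, p_n` on `M` which
Poisson-commute and have linearly independent differentials almost everywhere -/
structure IsClassical {n : ℕ} (p : Fin n → Ph n → ℝ) : Prop where
  smooth : ∀ j, ContDiff ℝ ∞ (p j)
  per : ∀ j, IsPer (p j)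
  comm : ∀ i j q, pb (p i) (p j) q = 0
  indep : ∀ᵐ q : Ph n, LinearIndependent ℝ fun j => fderiv ℝ (p j) q

end H99.EQ
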