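import Pool.Agent.H99.EQ.SS3

/-!
# The explicit solutions: definitions
All functions are functions `ℝ → ℂ` of `z = ζ`, with parameters. `t = z + 1`.
-/

set_option autoImplicit false

open Complex
open scoped ContDiff

noncomputable section

namespace H99.EQ

/-- the parameters -/
structure Par where
  c0 : ℂ
  c21 : ℂ
  mu : ℂ
  c5 : ℂ
  c20 : ℂ
  c04 : ℂ
  c12 : ℂ

variable (P : Par)

def cz (z : ℝ) : ℂ := (z : ℂ)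
def cN (z : ℝ) : ℂ := -cz z * (cz z + 3 / 4) * (cz z + 8 / 9)
def cN1 (z : ℝ) : ℂ := -3 * cz z ^ 2 - 59 / 18 * cz z - 2 / 3
def cW (z : ℝ) : ℂ := 2 / 3 - cz z ^ 2
def cq (z : ℝ) : ℂ := (27 * cz z ^ 3 + 32 * cz z ^ 2 + 4 * cz z - 4) / 9

/-- `G` -/
def Gf (z : ℝ) : ℂ :=
  P.c0 - P.c21 * cz z / 2 + P.mu * cz z ^ 2 / 2 + P.c5 * (cz z + 59 / 72) / cW z

/-- `dG/dz` -/
def G1f (z : ℝ) : ℂ :=
  -P.c21 / 2 + P.mu * cz z + P.c5 * ((cz z + 3 / 4) * (cz z + 8 / 9)) / cW z ^ 2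

/-- `φ = t * rfac` -/
def ph (z : ℝ) : ℂ := -2 * cN z * cW z / cq z

/-- `t α` -/
def alT (z : ℝ) : ℂ := (2 * Gf P z * cN1 z - 4 * cN z * G1f P z) / cq z

def b3f (z : ℝ) : ℂ := P.mu * cz z - P.c5 * ((cz z + 3 / 4) * (cz z + 8 / 9)) / cW z ^ 2

/-- `t a` -/
def aT (z : ℝ) : ℂ :=
  alT P z * cz z +
    (cz z + 1) * (-b3f P z - 2 * P.c5 * ((cz z + 3 / 4) * (cz z + 8 / 9)) / cW z ^ 2)

def gf (z : ℝ) : ℂ := 2 * Gf P z / cW z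

def cU (z : ℝ) : ℂ := 4 * cN z / cW z ^ 2
def chh (z : ℝ) : ℂ := -cN1 z / cW z

/-- `t ρ` -/
def rhT (z : ℝ) : ℂ := -(cz z + 1) - ph z / cz z

/-- `t^(n+2) D (f/t^n)`, `D = rfac d/dz` -/
def Dt (n : ℕ) (f : ℝ → ℂ) (z : ℝ) : ℂ := ph z * ((cz z + 1) * deriv f z - n * f z)

/-- `t^(n+2) D1 (f/t^n)`, `D1 = D + ρ` -/
def D1t (n : ℕ) (f : ℝ → ℂ) (z : ℝ) : ℂ := Dt n f z + (cz z + 1) * (rhT z * f z)

/-- `t³ ρ₂`, `ρ₂ = D1 ρ` -/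
def rho2T : ℝ → ℂ := D1t 1 rhT

/-- `t³ R₁` -/
def R1T (z : ℝ) : ℂ :=
  P.c20 * cU z * (cz z + 1) ^ 3 + rho2T z / 2 - rhT z ^ 2 * (cz z + 1) / 4 +
    gf P z ^ 2 * (cz z + 1) ^ 3 - alT P z ^ 2 * (cz z + 1)

/-- `t² R₂` -/
def R2T (z : ℝ) : ℂ :=
  (P.c04 * cU z * (cz z + 1) ^ 2 - (aT P z ^ 2 - 4 * alT P z * cz z * aT P z +
    alT P z ^ 2 * cz z ^ 2 - b3f P z ^ 2 * (cz z + 1) ^ 2) +
    cz z ^ 2 * (cz z + 1) ^ 2 / 4) / cz z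

/-- `t³ R₃` -/
def R3T (z : ℝ) : ℂ :=
  P.c12 * cU z * (cz z + 1) ^ 3 +
    (cz z + 1) * (4 * alT P z * aT P z - 2 * alT P z ^ 2 * cz z + cU z * aT P z ^ 2) -
    2 * gf P z * b3f P z * (cz z + 1) ^ 3 + cz z * ((cz z + 1) ^ 3 + rho2T z) / 2 +
    rhT z * cz z * (cz z + 1) ^ 2 / 2

/-- `t⁴ k` -/
def kT (z : ℝ) : ℂ :=
  -cW z ^ 3 * (R3T P z + chh z * R2T P z * (cz z + 1) - cz z * (2 + chh z) * R1T P z) /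
    (4 * ((cz z + 3 / 4) * (cz z + 8 / 9)) * cq z)

/-- `t⁴ X` -/
def XT (z : ℝ) : ℂ := R1T P z * (cz z + 1) + 2 * cU z * kT P z

/-- `t⁴ b₄` -/
def b4T (z : ℝ) : ℂ := (R2T P z * (cz z + 1) ^ 2 - XT P z * cz z - 2 * kT P z) / 2

/-- `t⁴ (α² + X)` -/
def VT (z : ℝ) : ℂ := alT P z ^ 2 * (cz z + 1) ^ 2 + XT P z

/-- `t⁷ b₅` -/
def b5T (z : ℝ) : ℂ :=
  (-4 * alT P z * D1t 4 (kT P) z + 2 * VT P z * D1t 1 (aT P) z -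
    2 * kT P z * Dt 1 (alT P) z + Dt 4 (VT P) z * aT P z -
    D1t 5 (D1t 3 (D1t 1 (aT P))) z / 2 + 2 * (cz z + 1) ^ 2 * alT P z * b4T P z) / 2

/-- `t¹⁰` times (S9) -/
def S9T (z : ℝ) : ℂ :=
  2 * VT P z * D1t 4 (kT P) z + Dt 4 (VT P) z * kT P z -
    D1t 8 (D1t 6 (D1t 4 (kT P))) z / 2 + 2 * (cz z + 1) ^ 2 * alT P z * b5T P z

/-- the common denominator -/
def De (z : ℝ) : ℂ := cz z * (cz z + 3 / 4) * (cz z + 8 / 9) * cW z * cq z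

/-- rational functions with denominator a power of `De` -/
def Rf (f : ℝ → ℂ) : Prop :=
  ∃ (p : Polynomial ℂ) (n : ℕ), ∀ z : ℝ, De z ≠ 0 → f z = p.eval (cz z) / De z ^ n

end H99.EQ
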