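import Pool.Agent.H99.EQ.R4

/-!
# EQ-R5: constants, primitives, uniqueness of coefficients

Job EQ-R5.
* `Sm_const`: `gx ≠ 0`, so the derivative vanishes (`is_const_of_fderiv_eq_zero`).
* `Sm_prim`: `g τ = ∫ x in 0..τ, f x / gx x`; smooth because `deriv g = f/gx`
  (`contDiff_infty_iff_deriv`-type lemma / `contDiff_succ_iff_deriv`).
* `C2_const`, `C2_io`: the derivative in the direction of `y` is zero.
* `Sm_uniq`: operators `∑_{j<5} mo (c j) * dv X1 ^ j = 0` have `c j = 0`: apply to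
  `f = (τ - τ₀)^j`; `(X1^[i] f)(τ₀) = 0` for `i < j` and `= j! gx(τ₀)^j` for `i = j`; or by
  commutators with `τ`: `[∑ c_j X^j, τ] = ∑ j c_j gx X^{j-1} + lower`, downward induction.
* `C2_fun`: evaluation.
-/

set_option autoImplicit false

open Complex
open scoped ContDiff

noncomputable section

namespace H99.EQ

theorem r5_gx_ne (τ : ℝ) : (gx τ : ℂ) ≠ 0 := by
  exact_mod_cast (gx_pos τ).ne'

theorem r5_gx_cd : ContDiff ℝ ∞ (fun τ : ℝ => ((gx τ : ℝ) : ℂ)) :=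
  Complex.ofRealCLM.contDiff.comp gx_cd

theorem r5_gxS (τ : ℝ) : ((gxS : Sm) : ℝ → ℂ) τ = (gx τ : ℂ) := by
  unfold gxS
  rw [mkSm_coe r5_gx_cd]

theorem r5_Sm_ext {f g : Sm} (h : ∀ τ, (f : ℝ → ℂ) τ = (g : ℝ → ℂ) τ) : f = g :=
  Subtype.ext (funext h)

theorem Sm_const {f : Sm} (h : X1 f = 0) : ∃ c : ℂ, f = cS c := by
  refine ⟨(f : ℝ → ℂ) 0, r5_Sm_ext (fun τ => ?_)⟩
  have hd : ∀ τ, fderiv ℝ (f : ℝ → ℂ) τ = 0 := by
    intro τ
    have h1 : (X1 f : ℝ → ℂ) τ = 0 := by rw [h]; rfl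
    rw [X1_apply] at h1
    have h2 : fderiv ℝ (f : ℝ → ℂ) τ 1 = 0 := by
      rcases mul_eq_zero.mp h1 with h3 | h3
      · exact absurd h3 (r5_gx_ne τ)
      · exact h3
    ext
    simpa using h2
  exact is_const_of_fderiv_eq_zero ((Sm_cd f).differentiable (by simp)) hd τ 0

theorem Sm_prim (f : Sm) : ∃ g : Sm, X1 g = f := by
  set F : ℝ → ℂ := fun x => (f : ℝ → ℂ) x / (gx x : ℂ) with hF
  have hFc : ContDiff ℝ ∞ F := by
    have h1 := (Sm_cd f).mul (r5_gx_cd.inv (fun x => r5_gx_ne x))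
    have h2 : F = fun x => (f : ℝ → ℂ) x * (fun τ : ℝ => ((gx τ : ℝ) : ℂ))⁻¹ x := by
      funext x
      rw [hF]
      simp [div_eq_mul_inv]
    rw [h2]
    exact h1
  set G : ℝ → ℂ := fun τ => ∫ x in (0 : ℝ)..τ, F x with hG
  have hGd : ∀ τ, HasDerivAt G (F τ) τ := fun τ =>
    (hFc.continuous.integral_hasStrictDerivAt 0 τ).hasDerivAt
  have hGderiv : deriv G = F := funext (fun τ => (hGd τ).deriv)
  have hGc : ContDiff ℝ ∞ G := by
    rw [contDiff_infty_iff_deriv, hGderiv]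
    exact ⟨fun τ => (hGd τ).differentiableAt, hFc⟩
  refine ⟨⟨G, hGc⟩, r5_Sm_ext (fun τ => ?_)⟩
  rw [X1_apply]
  change (gx τ : ℂ) * fderiv ℝ G τ 1 = (f : ℝ → ℂ) τ
  rw [fderiv_apply_one_eq_deriv, hGderiv, hF]
  field_simp [r5_gx_ne τ]

theorem C2_io {f : C2} (h : Y2 f = 0) : ∃ g : Sm, f = io g := by
  have hcd : ContDiff ℝ ∞ (fun τ : ℝ => (f : ℝ × ℝ → ℂ) (τ, 0)) :=
    f.2.1.comp (contDiff_id.prodMk contDiff_const)
  refine ⟨⟨fun τ : ℝ => (f : ℝ × ℝ → ℂ) (τ, 0), hcd⟩, Subtype.ext (funext fun p => ?_)⟩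
  obtain ⟨τ, y⟩ := p
  change (f : ℝ × ℝ → ℂ) (τ, y) = (f : ℝ × ℝ → ℂ) (τ, 0)
  have hd : ∀ y, HasDerivAt (fun y : ℝ => (f : ℝ × ℝ → ℂ) (τ, y)) 0 y := by
    intro y
    have h1 : HasFDerivAt (f : ℝ × ℝ → ℂ) (fderiv ℝ (f : ℝ × ℝ → ℂ) (τ, y)) (τ, y) :=
      (f.2.1.differentiable (by simp) _).hasFDerivAt
    have h2 : HasDerivAt (fun y : ℝ => ((τ, y) : ℝ × ℝ)) (0, 1) y :=
      (hasDerivAt_const y τ).prodMk (hasDerivAt_id y)
    have h3 := h1.comp_hasDerivAt y h2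
    have h4 : fderiv ℝ (f : ℝ × ℝ → ℂ) (τ, y) (0, 1) = 0 := by
      rw [← Y2_apply, h]; rfl
    rw [h4] at h3
    exact h3
  exact is_const_of_deriv_eq_zero (fun y => (hd y).differentiableAt) (fun y => (hd y).deriv) y 0

theorem io_inj {f g : Sm} (h : io f = io g) : f = g := by
  refine r5_Sm_ext (fun τ => ?_)
  have h1 : (io f : ℝ × ℝ → ℂ) (τ, 0) = (io g : ℝ × ℝ → ℂ) (τ, 0) := by rw [h]
  exact h1

theorem C2_const {f : C2} (h : X2 f = 0) (h' : Y2 f = 0) : ∃ c : ℂ, f = cC c := by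
  obtain ⟨g, rfl⟩ := C2_io h'
  rw [X2_io] at h
  have h1 : X1 g = 0 := io_inj (by rw [h, map_zero])
  obtain ⟨c, rfl⟩ := Sm_const h1
  exact ⟨c, io.commutes c⟩

/-- the coordinate `τ` -/
def r5_t : Sm :=
  ⟨fun τ => (τ : ℂ), (Complex.ofRealCLM.contDiff : ContDiff ℝ ∞ (fun τ : ℝ => (τ : ℂ)))⟩

theorem r5_X1_t : X1 r5_t = gxS := by
  refine r5_Sm_ext (fun τ => ?_)
  rw [X1_apply]
  have h1 : fderiv ℝ (r5_t : ℝ → ℂ) τ 1 = 1 := by
    have : HasFDerivAt (fun τ : ℝ => (τ : ℂ)) Complex.ofRealCLM τ := Complex.ofRealCLM.hasFDerivAt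
    change fderiv ℝ (fun τ : ℝ => (τ : ℂ)) τ 1 = 1
    rw [this.fderiv]
    simp
  rw [h1, mul_one, r5_gxS]

/-- a test function with `X2 x` invertible and `Y2 x = 0` -/
theorem test_x : ∃ x : C2, IsUnit (X2 x) ∧ Y2 x = 0 := by
  refine ⟨io r5_t, ?_, Y2_io _⟩
  rw [X2_io, r5_X1_t]
  exact gxS_unit.map io

theorem r5_pow (a : ℝ) (m j : ℕ) (hj : j ≤ m) : ∃ h : Sm,
    (dv X1 ^ j) ((r5_t - cS (a : ℂ)) ^ m) = (r5_t - cS (a : ℂ)) ^ (m - j) * h ∧
      (h : ℝ → ℂ) a = (m.descFactorial j : ℂ) * (gx a : ℂ) ^ j := by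
  induction j with
  | zero => exact ⟨1, by simp, by
      change (1 : ℂ) = _
      simp⟩
  | succ j ih =>
    obtain ⟨h, h1, h2⟩ := ih (by omega)
    set s : Sm := r5_t - cS (a : ℂ) with hs
    have hXs : X1 s = gxS := by
      rw [hs, map_sub, r5_X1_t, Derivation.map_algebraMap, sub_zero]
    have hsa : (s : ℝ → ℂ) a = 0 := by
      change (a : ℂ) - (a : ℂ) = 0
      ring
    refine ⟨((m - j : ℕ) : Sm) * gxS * h + s * X1 h, ?_, ?_⟩
    · rw [pow_succ', Module.End.mul_apply, h1, dv_apply, Derivation.leibniz,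
        Derivation.leibniz_pow, hXs]
      have e1 : m - j = (m - (j + 1)) + 1 := by omega
      simp only [smul_eq_mul, nsmul_eq_mul]
      have e2 : m - j - 1 = m - (j + 1) := by omega
      rw [e2]
      have e3 : s ^ (m - j) = s ^ (m - (j + 1)) * s := by rw [e1, pow_succ]
      rw [e3]
      ring
    · have e0 : ((gxS : Sm) : ℝ → ℂ) a = (gx a : ℂ) := r5_gxS a
      have ec : ((((m - j : ℕ) : Sm)) : ℝ → ℂ) a = ((m - j : ℕ) : ℂ) := by
        have : (((m - j : ℕ) : Sm) : ℝ → ℂ) = ((m - j : ℕ) : ℝ → ℂ) := by push_cast; rfl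
        rw [this]; rfl
      change ((((m - j : ℕ) : Sm)) : ℝ → ℂ) a * ((gxS : Sm) : ℝ → ℂ) a * (h : ℝ → ℂ) a +
        (s : ℝ → ℂ) a * (X1 h : ℝ → ℂ) a = _
      rw [ec, e0, h2, hsa, Nat.descFactorial_succ]
      push_cast
      ring

theorem Sm_uniq (c : ℕ → Sm) (N : ℕ)
    (h : ∑ j ∈ Finset.range N, mo (c j) * dv X1 ^ j = 0) : ∀ j < N, c j = 0 := by
  induction N with
  | zero => intro j hj; exact absurd hj (Nat.not_lt_zero j)
  | succ N ih =>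
    have hN : c N = 0 := by
      refine r5_Sm_ext (fun a => ?_)
      have h1 : (∑ j ∈ Finset.range (N + 1), mo (c j) * dv X1 ^ j)
          ((r5_t - cS (a : ℂ)) ^ N) = 0 := by rw [h]; rfl
      rw [LinearMap.sum_apply] at h1
      have h2 : (((∑ j ∈ Finset.range (N + 1), (mo (c j) * dv X1 ^ j)
          ((r5_t - cS (a : ℂ)) ^ N)) : Sm) : ℝ → ℂ) a = 0 := by rw [h1]; rfl
      have hev : ∀ (T : Finset ℕ) (g : ℕ → Sm), (((∑ j ∈ T, g j) : Sm) : ℝ → ℂ) a =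
          ∑ j ∈ T, (g j : ℝ → ℂ) a := by
        intro T g
        rw [AddSubmonoidClass.coe_finsetSum, Finset.sum_apply]
      rw [hev, Finset.sum_range_succ] at h2
      have hsa : ((r5_t - cS (a : ℂ) : Sm) : ℝ → ℂ) a = 0 := by
        change (a : ℂ) - (a : ℂ) = 0
        ring
      have hz : ∀ j ∈ Finset.range N, (((mo (c j) * dv X1 ^ j)
          ((r5_t - cS (a : ℂ)) ^ N) : Sm) : ℝ → ℂ) a = 0 := by
        intro j hj
        have hj' := Finset.mem_range.mp hj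
        obtain ⟨g, hg1, _⟩ := r5_pow a N j hj'.le
        rw [Module.End.mul_apply, hg1, mo_apply]
        change (c j : ℝ → ℂ) a * ((((r5_t - cS (a : ℂ) : Sm) : ℝ → ℂ) a) ^ (N - j) *
          (g : ℝ → ℂ) a) = 0
        rw [hsa, zero_pow (by omega)]
        ring
      rw [Finset.sum_eq_zero hz, zero_add] at h2
      obtain ⟨g, hg1, hg2⟩ := r5_pow a N N le_rfl
      rw [Module.End.mul_apply, hg1, mo_apply, Nat.sub_self, pow_zero, one_mul] at h2
      change (c N : ℝ → ℂ) a * (g : ℝ → ℂ) a = 0 at h2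
      rw [hg2, Nat.descFactorial_self] at h2
      rcases mul_eq_zero.mp h2 with h3 | h3
      · exact h3
      · exfalso
        have : (N.factorial : ℂ) ≠ 0 := by exact_mod_cast Nat.factorial_ne_zero N
        exact mul_ne_zero this (pow_ne_zero _ (r5_gx_ne a)) h3
    have h' : ∑ j ∈ Finset.range N, mo (c j) * dv X1 ^ j = 0 := by
      rw [Finset.sum_range_succ, hN, mo_zero, zero_mul, add_zero] at h
      exact h
    intro j hj
    rcases Nat.lt_succ_iff_lt_or_eq.mp hj with h1 | h1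
    · exact ih h' j h1
    · rw [h1, hN]

end H99.EQ
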