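import Pool.Agent.H99.EQ.SS3
import Pool.Agent.H99.EQ.R5

/-!
# EQ-E1: level 1: the functions `b3, a, g, α`

Job EQ-E1 (`lev1_c5`, `lev1_mu`, `lev1_c21`), all of the form: `X1 F = 0` by (S1), (S2), (S4), (S5)
and the structure identities of R3 (`X1_zS : X1 zS = facS`, `facS_eq : facS = -(zS (1 + rhoS))`,
so `D1 zS = -zS`; `X1_laS = 2 ρ λ`, `X1_UuS = - 2 ρ U`, `laS_U`, `X1_hhS`, `rel_lhh`), then
`Sm_const`. `X1 (f) = D1 f - rhoS * f`.
* `F5 = λ 2ζ (a - αζ + b3)`: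
  `X1 F5 = 2λζ [(ρ + (-1-ρ)...)]`: with `D1 ζ = -ζ`, `(λ ζ f)' = λ (D1 ζ f + ζ D1 f)` for a hatted `f`
  (`λ' = 2ρλ`), `D1 (a - αζ + b3) = D1 a - α'ζ + αζ + D1 b3 = (b3 + α'ζ·1 - αζ ...)`, use (S5), (S2).
* `μ`: with `zi zS = 1`: `F = zi (b3 - (c5/4) U zi)`, where `c5 U = 2ζ (a - αζ + b3)`.
* `c21`: `F = λ(-2α + 2ĥ g) - 2a`.
-/

set_option autoImplicit false

open Complex
open scoped ContDiff

noncomputable section

namespace H99.EQ

variable {al X g a k b3 b4 b5 : Sm}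

theorem D1_zS : D1 zS = -zS := ss3_D1_z

theorem e1_X1_two : X1 (2 : Sm) = 0 := by
  have h : (2 : Sm) = cS 2 := (map_ofNat (algebraMap ℂ Sm) 2).symm
  rw [h, ss3_X1_cS]

theorem e1_X1_four : X1 (4 : Sm) = 0 := by
  have h : (4 : Sm) = cS 4 := (map_ofNat (algebraMap ℂ Sm) 4).symm
  rw [h, ss3_X1_cS]

theorem e1_X1 (f : Sm) : X1 f = D1 f - rhoS * f := by
  unfold D1
  ring

theorem e1_X1_z : X1 zS = -zS - rhoS * zS := by
  rw [e1_X1, D1_zS]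

theorem e1_X1_g (h : SSys al X g a k b3 b4 b5) : X1 g = al - rhoS * g := by
  rw [e1_X1, h.s1]

theorem e1_X1_b3 (h : SSys al X g a k b3 b4 b5) : X1 b3 = a - al * zS - rhoS * b3 := by
  rw [e1_X1, h.s2]

theorem e1_X1_a (h : SSys al X g a k b3 b4 b5) :
    X1 a = b3 - al * zS + zS * X1 al - rhoS * a := by
  rw [e1_X1 a]
  linear_combination h.s5

theorem lev1_c5 (h : SSys al X g a k b3 b4 b5) :
    ∃ c5 : ℂ, laS * (2 * zS * (a - al * zS + b3)) = cS c5 := by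
  apply Sm_const
  have ha := e1_X1_a h
  have hb := e1_X1_b3 h
  rw [ss3_X1_mul, ss3_X1_mul, ss3_X1_mul, map_add, map_sub, ss3_X1_mul, e1_X1_two, X1_laS,
    e1_X1_z, ha, hb]
  ring

theorem lev1_mu (h : SSys al X g a k b3 b4 b5) {c5 : ℂ}
    (h5 : laS * (2 * zS * (a - al * zS + b3)) = cS c5) :
    ∃ mu : ℂ, 4 * zS * b3 = cS c5 * UuS + 4 * cS mu * zS ^ 2 := by
  obtain ⟨zi, hzi⟩ := zS_unit.exists_right_inv
  have hb := e1_X1_b3 h
  have hXzi : X1 zi = zi * (1 + rhoS) := by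
    have h1 : X1 (zS * zi) = 0 := by rw [hzi]; exact X1.map_one_eq_zero
    rw [ss3_X1_mul, e1_X1_z] at h1
    linear_combination zi * h1 - (X1 zi - zi * (1 + rhoS)) * hzi
  have hU : cS c5 * UuS = 2 * zS * (a - al * zS + b3) := by
    rw [← h5]
    linear_combination (2 * zS * (a - al * zS + b3)) * laS_U
  obtain ⟨c, hc⟩ := Sm_const (f := zi * zi * (4 * zS * b3 - cS c5 * UuS)) (by
    rw [ss3_X1_mul, ss3_X1_mul, map_sub, ss3_X1_mul, ss3_X1_mul, ss3_X1_cS_mul, X1_UuS,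
      e1_X1_four, e1_X1_z, hXzi, hb]
    linear_combination (-2 : Sm) * zi * zi * hU)
  refine ⟨c / 4, ?_⟩
  have h4 : 4 * cS (c / 4) = cS c := by
    have h : (4 : Sm) = cS 4 := (map_ofNat (algebraMap ℂ Sm) 4).symm
    rw [h, ← map_mul]
    congr 1
    ring
  rw [h4, ← hc]
  linear_combination (-(zS * zi + 1) * (4 * zS * b3 - cS c5 * UuS)) * hzi

theorem lev1_c21 (h : SSys al X g a k b3 b4 b5) :
    ∃ c21 : ℂ, laS * (-2 * al + 2 * hhS * g) - 2 * a = cS c21 := by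
  apply Sm_const
  have hg := e1_X1_g h
  have h4 := h.s4
  have hm2 : X1 (-2 : Sm) = 0 := by
    rw [map_neg, e1_X1_two, neg_zero]
  rw [map_sub, ss3_X1_mul, map_add, ss3_X1_mul, ss3_X1_mul, ss3_X1_mul, ss3_X1_mul, hm2,
    e1_X1_two, X1_laS, X1_hhS, hg]
  linear_combination (-2 * laS) * h4 + (2 * X1 a) * laS_U

end H99.EQ
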