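import Pool.Agent.H99.EQ.SS3
import Pool.Agent.H99.EQ.R5

/-!
# EQ-E2: level 2: three more first integrals

Job EQ-E2. For each of the three expressions `F` (below without the factor `λ`: `F = λ f`),
`X1 F = 0`, then `Sm_const`. Write `V = α² + X`, `ρ₂ = D1 ρ`, `'` = `X1`. Certificates
(unhatted functions `ḣ f` would have no `ρ`; in hats use `X1 (λ f₁ f₂) = λ (D1 f₁ f₂ + f₁ D1 f₂)`,
`X1 (λ u f₁ f₂) = λ (u' f₁ f₂ + u D1 f₁ f₂ + u f₁ D1 f₂)`, with `f = 1` hatted `D1 1 = ρ`):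
1. `F₁ = λ V - 2 k - λ ρ₂/2 + λ ρ²/4 - λ g²`:
   `X1 F₁ = λ [2 V ρ + V' - 2 U k' - D1 ρ₂/2 - 2 α g]` which is (S6) (use (S1)).
2. `F₂ = λ (a² + 2ζk - 4αζa + ζ² V - ζ²/4 - b3² + 2ζ b4)`:
   `X1 F₂ = λ [ζ·(S7) + a·2(S5) - 2 (-ζ (S3) + b3 (S2))]`, where (Sj) stands for LHS - RHS in the form
   (S7): `2 D1 k - 4αD1 a - 2Vζ - 2aα' + V'ζ + ζ/2 - 2b4 + 2αb3`, (S5): `D1 a + αζ - ζα' - b3`,
   (S3): `D1 b4 - (k - αa)`, (S2): `D1 b3 - (a - αζ)`.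
3. `F₃ = λ (2k - 4αa + 2Vζ - U a² - 2Uζk - ζ/2 - ζρ₂/2 - ρζ/2 - 2ĥb4 + 2g b3)`:
   `X1 F₃ = λ [(S7) + ζ·(S6) + a·E₁ - 2 (ĥ (S3) - g (S2)) + 2 b3 (S1)]`, with
   (S6): `2Vρ - 2Uk' + V' - D1 ρ₂/2 - 2αg`, (S1): `D1 g - α`,
   `E₁ = -2 (α' + 2ρα + U a' - αĥ - g)`.
-/

set_option autoImplicit false

open Complex
open scoped ContDiff

noncomputable section

namespace H99.EQ

variable {al X g a k b3 b4 b5 : Sm}

theorem e2_two : X1 (2 : Sm) = 0 := by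
  have h1 : (2 : Sm) = cS 2 := (map_ofNat (algebraMap ℂ Sm) 2).symm
  rw [h1, ss3_X1_cS]

theorem e2_four : X1 (4 : Sm) = 0 := by
  have h1 : (4 : Sm) = cS 4 := (map_ofNat (algebraMap ℂ Sm) 4).symm
  rw [h1, ss3_X1_cS]

theorem e2_sq (f : Sm) : X1 (f ^ 2) = 2 * f * X1 f := by
  rw [pow_two, ss3_X1_mul]
  ring

theorem e2_half : cS (1 / 2) = 2 * cS (1 / 4) := by
  have h1 : (2 : Sm) = cS 2 := (map_ofNat (algebraMap ℂ Sm) 2).symm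
  rw [h1, ← map_mul]
  norm_num

theorem lev2_1 (h : SSys al X g a k b3 b4 b5) :
    ∃ c20 : ℂ, laS * (al ^ 2 + X) - 2 * k - cS (1 / 2) * laS * D1 rhoS +
      cS (1 / 4) * laS * rhoS ^ 2 - laS * g ^ 2 = cS c20 := by
  refine Sm_const ?_
  have s1 := h.s1
  have s6 := h.s6
  unfold D1 at s1 s6 ⊢
  simp only [e2_sq, e2_half, map_add, map_sub, ss3_X1_mul, ss3_X1_cS, e2_two, X1_laS] at s1 s6 ⊢
  linear_combination laS * s6 - 2 * laS * g * s1 + 2 * X1 k * laS_U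

theorem lev2_2 (h : SSys al X g a k b3 b4 b5) :
    ∃ c04 : ℂ, laS * (a ^ 2 + 2 * zS * k - 4 * al * zS * a + zS ^ 2 * (al ^ 2 + X) -
      cS (1 / 4) * zS ^ 2 - b3 ^ 2 + 2 * zS * b4) = cS c04 := by
  refine Sm_const ?_
  have s2 := h.s2
  have s3 := h.s3
  have s5 := h.s5
  have s7 := h.s7
  unfold D1 at s2 s3 s5 s7
  simp only [e2_sq, e2_half, map_add, map_sub, ss3_X1_mul, ss3_X1_cS, e2_two, e2_four, X1_laS, X1_zS,
    facS_eq] at s2 s3 s5 s7 ⊢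
  linear_combination laS * (zS * s7 + 2 * a * s5 + 2 * zS * s3 - 2 * b3 * s2)

theorem lev2_3 (h : SSys al X g a k b3 b4 b5) :
    ∃ c12 : ℂ, laS * (2 * k - 4 * al * a + 2 * (al ^ 2 + X) * zS - UuS * a ^ 2 -
      2 * UuS * zS * k - cS (1 / 2) * zS - cS (1 / 2) * zS * D1 rhoS - cS (1 / 2) * rhoS * zS -
      2 * hhS * b4 + 2 * g * b3) = cS c12 := by
  refine Sm_const ?_
  have s1 := h.s1
  have s2 := h.s2
  have s3 := h.s3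
  have s4 := h.s4
  have s6 := h.s6
  have s7 := h.s7
  unfold D1 at s1 s2 s3 s6 s7 ⊢
  simp only [e2_sq, e2_half, map_add, map_sub, ss3_X1_mul, ss3_X1_cS, e2_two, e2_four, X1_laS, X1_zS,
    facS_eq, X1_UuS, X1_hhS] at s1 s2 s3 s4 s6 s7 ⊢
  linear_combination laS * (s7 + zS * s6 - 2 * a * s4 - 2 * hhS * s3 + 2 * g * s2 + 2 * b3 * s1) -
    2 * k * rel_lhh + 2 * k * zS * (1 + rhoS) * laS_U

end H99.EQ
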