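import Pool.Agent.H99.EQ.E0
import Pool.Agent.H99.EQ.E1

/-!
# EQ-E3: level 1 explicit

Job EQ-E3. Evaluate everything at `τ`, `z = zz τ` (`ofZ_apply`, R3; R1: `rN ≠ 0` etc.); complex
numbers `W = cW z = rW z`, `N = cN z`, ... (casts). From `h5`: `c5 = λ 2z (a - α z + b3)`, so
`a = α z - b3 + c5 U/(2z)`; `hmu`: `b3 = c5 U/(4z) + μ z` (`U/(4z) = - (z+3/4)(z+8/9)/W²`);
`h21`: `λ(-2α + 2ĥ g) - 2a = c21`. With `G = W g/2`, `λ + z = -Q/(4N)`, `λ ĥ = - W N₁/(4N)` this is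
`α = (2 G N₁ - 4 N G₁)/Q`, `G₁ = -c21/2 + μ z - c5 U/(4z) = G1f`.
`c0`: the function `(1/2) W g - (-c21 z/2 + μ z²/2 + c5 (z+59/72)/W)` of `τ` has derivative zero
(`X1`): `(W g/2)' = - z fac g + W (α - ρ g)/2` by (S1) `g' = α - ρ g`, and this is `fac * G1f`
(`fac = -2NW/Q`, `ρ = -1 - fac/z`), while `d/dz [(z+59/72)/W] = (z+3/4)(z+8/9)/W²`.
So it is a constant `c0` (`Sm_const`), i.e. `W g/2 = Gf`.
-/

set_option autoImplicit false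

open Complex
open scoped ContDiff

noncomputable section

namespace H99.EQ

/-- pointwise algebra, first part -/
theorem e3_pt {x W s q g al a b3 c5 mu c21 : ℂ} (hx : x ≠ 0) (hW : W ≠ 0) (hs : s ≠ 0)
    (r1 : W ^ 2 - 4 * x ^ 2 * s + (x + 1) * q = 0)
    (h5 : W ^ 2 / (4 * (-x * s)) * (2 * x * (a - al * x + b3)) = c5)
    (hmu : 4 * x * b3 = c5 * (4 * (-x * s) / W ^ 2) + 4 * mu * x ^ 2)
    (h21 : W ^ 2 / (4 * (-x * s)) * (-2 * al + 2 * (-(W - 2 * s) / W) * g) - 2 * a = c21) :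
    b3 = mu * x - c5 * s / W ^ 2 ∧ a = al * x - b3 - 2 * c5 * s / W ^ 2 ∧
      al * ((x + 1) * q) = W * (W - 2 * s) * g +
        4 * x * s * (-c21 / 2 + mu * x + c5 * s / W ^ 2) := by
  have hb : b3 = mu * x - c5 * s / W ^ 2 := by
    have h4x : (4 * x : ℂ) ≠ 0 := by simp [hx]
    apply mul_left_cancel₀ h4x
    linear_combination hmu
  have hT : a - al * x + b3 = -(2 * c5 * s / W ^ 2) := by
    have e1 : W ^ 2 / (4 * (-x * s)) * (2 * x * (a - al * x + b3)) =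
        -(W ^ 2 * (a - al * x + b3)) / (2 * s) := by
      field_simp
      ring
    rw [e1, div_eq_iff (by simp [hs])] at h5
    field_simp
    linear_combination -h5
  have ha : a = al * x - b3 - 2 * c5 * s / W ^ 2 := by linear_combination hT
  refine ⟨hb, ha, ?_⟩
  have e2 : W ^ 2 / (4 * (-x * s)) * (-2 * al + 2 * (-(W - 2 * s) / W) * g) =
      (2 * W ^ 2 * al + 2 * W * (W - 2 * s) * g) / (4 * x * s) := by
    field_simp
    ring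
  rw [e2] at h21
  have h4 : (4 * x * s : ℂ) ≠ 0 := by simp [hx, hs]
  have e3 : 2 * W ^ 2 * al + 2 * W * (W - 2 * s) * g = (c21 + 2 * a) * (4 * x * s) := by
    rw [← div_eq_iff h4]
    linear_combination h21
  rw [ha, hb] at e3
  linear_combination (1 / 2 : ℂ) * e3 * (-1) + al * r1 * 1

/-- pointwise algebra, second part -/
theorem e3_pt2 {x W s q g al c5 mu c21 fac rho : ℂ} (hx : x ≠ 0) (hD : (x + 1) * q ≠ 0)
    (r1 : W ^ 2 - 4 * x ^ 2 * s + (x + 1) * q = 0)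
    (hfac : fac = -2 * (-x * s) * W / ((x + 1) * q)) (hrho : rho = -1 - fac / x)
    (hal : al * ((x + 1) * q) = W * (W - 2 * s) * g +
        4 * x * s * (-c21 / 2 + mu * x + c5 * s / W ^ 2)) :
    1 / 2 * (W * (al - rho * g) + g * (fac * (-2 * x))) -
      (-c21 / 2 * fac + mu / 2 * (x * fac + x * fac) + c5 * (fac * (s / W ^ 2))) = 0 := by
  have f1 : fac * ((x + 1) * q) = 2 * x * s * W := by
    rw [hfac, div_mul_cancel₀ _ hD]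
    ring
  have f2 : rho * ((x + 1) * q) = -((x + 1) * q) - 2 * s * W := by
    rw [hrho, sub_mul, div_mul_eq_mul_div, f1]
    field_simp
  apply mul_right_cancel₀ hD
  rw [zero_mul]
  linear_combination (1 / 2 : ℂ) * W * hal - (1 / 2 : ℂ) * W * g * f2 +
    (-x * g - (-c21 / 2 + mu * x + c5 * s / W ^ 2)) * f1 + (1 / 2 : ℂ) * W * g * r1

/-- the function `(z + 59/72)/w` -/
def e3V (z : ℝ) : ℝ := (z + 59 / 72) / rW z

theorem e3V_cd : ContDiffOn ℝ ∞ e3V (Set.Ioo (-(3 / 4)) 0) := by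
  unfold e3V
  exact (contDiffOn_id.add contDiffOn_const).div rW_cd (fun z hz => (rW_pos hz).ne')

theorem e3V_deriv {z : ℝ} (h : z ∈ Set.Ioo (-(3 / 4) : ℝ) 0) :
    deriv e3V z = (z + 3 / 4) * (z + 8 / 9) / rW z ^ 2 := by
  have hW := (rW_pos h).ne'
  have h1 : HasDerivAt (fun z : ℝ => z + 59 / 72) 1 z := (hasDerivAt_id z).add_const _
  have h2 := h1.div (R1_rW_hd z) hW
  have h3 : deriv e3V z = _ := HasDerivAt.deriv (f := e3V) h2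
  rw [h3]
  unfold rW
  ring

theorem e3_ev_ofZ {f : ℝ → ℝ} (hf : ContDiffOn ℝ ∞ f (Set.Ioo (-(3 / 4)) 0)) (τ : ℝ) :
    ss3_ev τ (ofZ f) = ((f (zz τ) : ℝ) : ℂ) := ofZ_apply hf τ

theorem e3_ev_X1 {f : ℝ → ℝ} (hf : ContDiffOn ℝ ∞ f (Set.Ioo (-(3 / 4)) 0)) (τ : ℝ) :
    ss3_ev τ (X1 (ofZ f)) = ((rfac (zz τ) * deriv f (zz τ) : ℝ) : ℂ) := X1_ofZ hf τ

theorem e3_ev_cS (τ : ℝ) (c : ℂ) : ss3_ev τ (cS c) = c := rfl

/-- `s = (z + 3/4)(z + 8/9)` -/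
def e3s (z : ℝ) : ℂ := (cz z + 3 / 4) * (cz z + 8 / 9)

theorem e3_cN (z : ℝ) : cN z = -cz z * e3s z := by
  unfold cN e3s; ring

theorem e3_cN1 (z : ℝ) : cN1 z = cW z - 2 * e3s z := by
  unfold cN1 cW e3s; ring

theorem e3_rel (z : ℝ) : cW z ^ 2 - 4 * cz z ^ 2 * e3s z + (cz z + 1) * cq z = 0 := by
  unfold cW e3s cq; ring

theorem e3_rN (z : ℝ) : ((rN z : ℝ) : ℂ) = -cz z * e3s z := by
  unfold rN e3s cz; push_cast; ring

theorem e3_rW (z : ℝ) : ((rW z : ℝ) : ℂ) = cW z := by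
  unfold rW cW cz; push_cast; ring

theorem e3_rq (z : ℝ) : ((rq z : ℝ) : ℂ) = cq z := by
  unfold rq cq cz; push_cast; ring

theorem e3_rN1 (z : ℝ) : ((rN1 z : ℝ) : ℂ) = cW z - 2 * e3s z := by
  rw [← e3_cN1]; unfold rN1 cN1 cz; push_cast; ring

theorem e3_rla (z : ℝ) : ((rla z : ℝ) : ℂ) = cW z ^ 2 / (4 * (-cz z * e3s z)) := by
  unfold rla; push_cast; rw [e3_rW, e3_rN]

theorem e3_rU (z : ℝ) : ((rU z : ℝ) : ℂ) = 4 * (-cz z * e3s z) / cW z ^ 2 := by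
  unfold rU; push_cast; rw [e3_rW, e3_rN]

theorem e3_rhh (z : ℝ) : ((rhh z : ℝ) : ℂ) = -(cW z - 2 * e3s z) / cW z := by
  unfold rhh; push_cast; rw [e3_rW, e3_rN1]

theorem e3_rfac (z : ℝ) : ((rfac z : ℝ) : ℂ) =
    -2 * (-cz z * e3s z) * cW z / ((cz z + 1) * cq z) := by
  unfold rfac rQ; push_cast; rw [e3_rW, e3_rN, e3_rq]; rfl

theorem e3_rrho (z : ℝ) : ((rrho z : ℝ) : ℂ) = -1 - ((rfac z : ℝ) : ℂ) / cz z := by
  unfold rrho cz; push_cast; ring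

theorem e3_ne {z : ℝ} (h : z ∈ Set.Ioo (-(3 / 4) : ℝ) 0) :
    cz z ≠ 0 ∧ cW z ≠ 0 ∧ e3s z ≠ 0 ∧ cz z + 1 ≠ 0 ∧ cq z ≠ 0 := by
  refine ⟨?_, ?_, ?_, ?_, ?_⟩
  · exact Complex.ofReal_ne_zero.2 h.2.ne
  · rw [← e3_rW]
    exact Complex.ofReal_ne_zero.2 (rW_pos h).ne'
  · intro h1
    have h2 := e3_rN z
    rw [h1, mul_zero] at h2
    exact (rN_pos h).ne' (Complex.ofReal_eq_zero.1 h2)
  · have h1 : (z + 1 : ℝ) ≠ 0 := by linarith [h.1]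
    have h2 : cz z + 1 = ((z + 1 : ℝ) : ℂ) := by unfold cz; push_cast; rfl
    rw [h2]
    exact Complex.ofReal_ne_zero.2 h1
  · rw [← e3_rq]
    exact Complex.ofReal_ne_zero.2 (rq_neg h).ne

variable {al X g a k b3 b4 b5 : Sm}

theorem expl1 (h : SSys al X g a k b3 b4 b5) {c5 mu c21 : ℂ}
    (h5 : laS * (2 * zS * (a - al * zS + b3)) = cS c5)
    (hmu : 4 * zS * b3 = cS c5 * UuS + 4 * cS mu * zS ^ 2)
    (h21 : laS * (-2 * al + 2 * hhS * g) - 2 * a = cS c21) :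
    ∃ c0 : ℂ, ∀ P : Par, P.c0 = c0 → P.c5 = c5 → P.mu = mu → P.c21 = c21 → ∀ τ : ℝ,
      (al : ℝ → ℂ) τ = alT P (zz τ) / (cz (zz τ) + 1) ∧
      (g : ℝ → ℂ) τ = gf P (zz τ) ∧ (b3 : ℝ → ℂ) τ = b3f P (zz τ) ∧
      (a : ℝ → ℂ) τ = aT P (zz τ) / (cz (zz τ) + 1) := by
  have hz : ∀ τ, ss3_ev τ zS = cz (zz τ) := fun τ => by
    rw [zS, e3_ev_ofZ R3_id_cd]; rfl
  have hla : ∀ τ, ss3_ev τ laS = cW (zz τ) ^ 2 / (4 * (-cz (zz τ) * e3s (zz τ))) := fun τ => by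
    rw [laS, e3_ev_ofZ rla_cd, e3_rla]
  have hU : ∀ τ, ss3_ev τ UuS = 4 * (-cz (zz τ) * e3s (zz τ)) / cW (zz τ) ^ 2 := fun τ => by
    rw [UuS, e3_ev_ofZ rU_cd, e3_rU]
  have hhh : ∀ τ, ss3_ev τ hhS = -(cW (zz τ) - 2 * e3s (zz τ)) / cW (zz τ) := fun τ => by
    rw [hhS, e3_ev_ofZ rhh_cd, e3_rhh]
  have key : ∀ τ, ss3_ev τ b3 = mu * cz (zz τ) - c5 * e3s (zz τ) / cW (zz τ) ^ 2 ∧
      ss3_ev τ a = ss3_ev τ al * cz (zz τ) - ss3_ev τ b3 - 2 * c5 * e3s (zz τ) / cW (zz τ) ^ 2 ∧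
      ss3_ev τ al * ((cz (zz τ) + 1) * cq (zz τ)) =
        cW (zz τ) * (cW (zz τ) - 2 * e3s (zz τ)) * ss3_ev τ g +
        4 * cz (zz τ) * e3s (zz τ) * (-c21 / 2 + mu * cz (zz τ) +
          c5 * e3s (zz τ) / cW (zz τ) ^ 2) := by
    intro τ
    obtain ⟨n1, n2, n3, n4, n5⟩ := e3_ne (zz_mem τ)
    have g5 := congrArg (ss3_ev τ) h5
    have gmu := congrArg (ss3_ev τ) hmu
    have g21 := congrArg (ss3_ev τ) h21
    simp only [map_mul, map_add, map_sub, map_neg, map_ofNat, map_pow, hz, hla, hU, hhh,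
      e3_ev_cS] at g5 gmu g21
    exact e3_pt n1 n2 n3 (e3_rel (zz τ)) g5 gmu g21
  have hX1g : X1 g = al - rhoS * g := by
    have h1 := h.s1
    unfold D1 at h1
    rw [← h1]
    ring
  obtain ⟨c0, hc0⟩ := Sm_const (f := cS (1 / 2) * (ofZ rW * g) - (cS (-c21 / 2) * zS +
      cS (mu / 2) * (zS * zS) + cS c5 * ofZ e3V)) (by
    refine Subtype.ext (funext fun τ => ?_)
    change ss3_ev τ (X1 (cS (1 / 2) * (ofZ rW * g) - (cS (-c21 / 2) * zS +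
      cS (mu / 2) * (zS * zS) + cS c5 * ofZ e3V))) = 0
    obtain ⟨n1, n2, n3, n4, n5⟩ := e3_ne (zz_mem τ)
    rw [map_sub, map_add, map_add, ss3_X1_cS_mul, ss3_X1_cS_mul, ss3_X1_cS_mul, ss3_X1_cS_mul,
      ss3_X1_mul, ss3_X1_mul, hX1g]
    have hdW : deriv rW (zz τ) = -2 * zz τ := (R1_rW_hd (zz τ)).deriv
    have hzz : ss3_ev τ (X1 zS) = ((rfac (zz τ) : ℝ) : ℂ) := by
      rw [X1_zS, facS, e3_ev_ofZ rfac_cd]
    have hWW : ss3_ev τ (X1 (ofZ rW)) = ((rfac (zz τ) : ℝ) : ℂ) * (-2 * cz (zz τ)) := by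
      rw [e3_ev_X1 rW_cd, hdW]
      unfold cz
      push_cast
      ring
    have hVV : ss3_ev τ (X1 (ofZ e3V)) =
        ((rfac (zz τ) : ℝ) : ℂ) * (e3s (zz τ) / cW (zz τ) ^ 2) := by
      rw [e3_ev_X1 e3V_cd, e3V_deriv (zz_mem τ), ← e3_rW]
      unfold e3s cz
      push_cast
      ring
    have hrh : ss3_ev τ rhoS = ((rrho (zz τ) : ℝ) : ℂ) := by
      rw [rhoS, e3_ev_ofZ rrho_cd]
    have hWv : ss3_ev τ (ofZ rW) = cW (zz τ) := by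
      rw [e3_ev_ofZ rW_cd, e3_rW]
    simp only [map_mul, map_add, map_sub, map_neg, hz, e3_ev_cS, hzz, hWW, hVV, hrh, hWv]
    exact e3_pt2 n1 (mul_ne_zero n4 n5) (e3_rel (zz τ)) (e3_rfac _) (e3_rrho _) (key τ).2.2)
  refine ⟨c0, ?_⟩
  rintro P rfl rfl rfl rfl τ
  obtain ⟨n1, n2, n3, n4, n5⟩ := e3_ne (zz_mem τ)
  obtain ⟨k1, k2, k3⟩ := key τ
  have hV : ss3_ev τ (ofZ e3V) = (cz (zz τ) + 59 / 72) / cW (zz τ) := by
    rw [e3_ev_ofZ e3V_cd, ← e3_rW]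
    unfold e3V cz
    push_cast
    rfl
  have hWv : ss3_ev τ (ofZ rW) = cW (zz τ) := by
    rw [e3_ev_ofZ rW_cd, e3_rW]
  have hG := congrArg (ss3_ev τ) hc0
  simp only [map_mul, map_add, map_sub, hz, e3_ev_cS, hV, hWv] at hG
  have hG2 : 1 / 2 * (cW (zz τ) * ss3_ev τ g) = Gf P (zz τ) := by
    unfold Gf
    linear_combination hG
  have hg : ss3_ev τ g = gf P (zz τ) := by
    unfold gf
    rw [eq_div_iff n2]
    linear_combination 2 * hG2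
  have hG1 : G1f P (zz τ) = -P.c21 / 2 + P.mu * cz (zz τ) +
      P.c5 * e3s (zz τ) / cW (zz τ) ^ 2 := rfl
  have hal : ss3_ev τ al = alT P (zz τ) / (cz (zz τ) + 1) := by
    rw [eq_div_iff n4]
    unfold alT
    rw [eq_div_iff n5, e3_cN, e3_cN1, hG1, ← hG2]
    linear_combination k3
  have hb : ss3_ev τ b3 = b3f P (zz τ) := k1
  refine ⟨hal, hg, hb, ?_⟩
  change ss3_ev τ a = _
  rw [k2, hb, hal, eq_div_iff n4]
  unfold aT
  have : ((cz (zz τ) + 3 / 4) * (cz (zz τ) + 8 / 9)) = e3s (zz τ) := rfl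
  rw [this]
  field_simp
  ring

end H99.EQ
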