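import Pool.Agent.H99.EQ.Q2

/-!
# EQ-Q4: derivations on rational functions of `ζ(τ)`

Job EQ-Q4. `f τ = F (zz τ)/(zz τ + 1)^n`, `F` differentiable on `(-3/4, 0)` (`Rf_diff`, `De_ne`):
chain rule, `X1 f (τ) = gx τ * f'(τ)` (`X1_apply`), `gx = rfac (8/3) u1³`, `zz' = (3/8)/u1³`,
`rfac z = ph z/(z+1)`: `X1 f = rfac * (F'/t^n - n F/t^(n+1)) = ph (t F' - n F)/t^(n+2)`.
`rhoS τ = rhT (zz τ)/(zz τ + 1)`. `D1 f = X1 f + rhoS f`.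
-/

set_option autoImplicit false

open Complex
open scoped ContDiff

noncomputable section

namespace H99.EQ

theorem t_ne (τ : ℝ) : cz (zz τ) + 1 ≠ 0 := by
  have h := (zz_mem τ).1
  have h1 : cz (zz τ) + 1 = ((zz τ + 1 : ℝ) : ℂ) := by
    unfold cz
    push_cast
    ring
  rw [h1, Complex.ofReal_ne_zero]
  intro hc
  linarith

theorem Q4_rfac (z : ℝ) : ((rfac z : ℝ) : ℂ) = ph z / (cz z + 1) := by
  unfold rfac ph rQ rN rW rq cN cW cq cz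
  push_cast
  rw [div_div]
  ring

theorem Q4_gx (τ : ℝ) : (gx τ : ℂ) * ((3 / 8 * (1 / u1 τ ^ 3) : ℝ) : ℂ) = (rfac (zz τ) : ℂ) := by
  rw [← Complex.ofReal_mul]
  congr 1
  unfold gx
  have h := (u1_pos τ).ne'
  field_simp

theorem Q4_deriv {f : ℝ → ℂ} {F : ℝ → ℂ} (hF : Rf F) (n : ℕ)
    (h : ∀ τ, f τ = F (zz τ) / (cz (zz τ) + 1) ^ n) (τ : ℝ) :
    HasDerivAt f ((((3 / 8 * (1 / u1 τ ^ 3) : ℝ) : ℂ) * deriv F (zz τ) * (cz (zz τ) + 1) ^ n -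
      F (zz τ) * ((n : ℂ) * (cz (zz τ) + 1) ^ (n - 1) * ((3 / 8 * (1 / u1 τ ^ 3) : ℝ) : ℂ))) /
      ((cz (zz τ) + 1) ^ n) ^ 2) τ := by
  have h1 : HasDerivAt F (deriv F (zz τ)) (zz τ) := (Rf_diff hF (De_ne (zz_mem τ))).hasDerivAt
  have h2 := h1.scomp τ (zz_deriv τ)
  have h3 : HasDerivAt (fun τ => cz (zz τ) + 1) ((3 / 8 * (1 / u1 τ ^ 3) : ℝ) : ℂ) τ :=
    ((zz_deriv τ).ofReal_comp).add_const 1
  have h4 := h3.pow n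
  have h5 := h2.div h4 (pow_ne_zero n (t_ne τ))
  have h6 : f = (F ∘ zz) / (fun τ => cz (zz τ) + 1) ^ n := by
    funext x
    rw [h x]
    rfl
  rw [h6]
  exact h5

theorem X1_rat {f : Sm} {F : ℝ → ℂ} (hF : Rf F) (n : ℕ)
    (h : ∀ τ, (f : ℝ → ℂ) τ = F (zz τ) / (cz (zz τ) + 1) ^ n) (τ : ℝ) :
    (X1 f : ℝ → ℂ) τ = Dt n F (zz τ) / (cz (zz τ) + 1) ^ (n + 2) := by
  rw [X1_apply, fderiv_apply_one_eq_deriv, (Q4_deriv hF n h τ).deriv]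
  have h1 := Q4_gx τ
  rw [Q4_rfac] at h1
  have ht := t_ne τ
  unfold Dt
  set t := cz (zz τ) + 1
  set d : ℂ := ((3 / 8 * (1 / u1 τ ^ 3) : ℝ) : ℂ)
  set F' := deriv F (zz τ)
  have h2 : (gx τ : ℂ) * d * t = ph (zz τ) := by
    rw [h1, div_mul_cancel₀ _ ht]
  rw [← h2]
  rcases n with _ | n
  · simp
    field_simp
  · rw [Nat.add_sub_cancel]
    push_cast
    field_simp
    ring

theorem rhoS_rat (τ : ℝ) : (rhoS : ℝ → ℂ) τ = rhT (zz τ) / (cz (zz τ) + 1) := by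
  have h1 : (rhoS : ℝ → ℂ) τ = ((rrho (zz τ) : ℝ) : ℂ) := congrFun (R3_ofZ_coe rrho_cd) τ
  rw [h1]
  unfold rrho rhT
  push_cast
  rw [Q4_rfac]
  have ht := t_ne τ
  have hz : cz (zz τ) ≠ 0 := by
    have := (zz_mem τ).2
    unfold cz
    rw [Complex.ofReal_ne_zero]
    exact ne_of_lt this
  change -1 - ph (zz τ) / (cz (zz τ) + 1) / cz (zz τ) = _
  field_simp

theorem D1_rat {f : Sm} {F : ℝ → ℂ} (hF : Rf F) (n : ℕ)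
    (h : ∀ τ, (f : ℝ → ℂ) τ = F (zz τ) / (cz (zz τ) + 1) ^ n) (τ : ℝ) :
    (D1 f : ℝ → ℂ) τ = D1t n F (zz τ) / (cz (zz τ) + 1) ^ (n + 2) := by
  have h1 : (D1 f : ℝ → ℂ) τ = (X1 f : ℝ → ℂ) τ + (rhoS : ℝ → ℂ) τ * (f : ℝ → ℂ) τ := rfl
  rw [h1, X1_rat hF n h τ, rhoS_rat, h τ]
  unfold D1t
  have ht := t_ne τ
  field_simp
  ring

end H99.EQ
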