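import Pool.Agent.H99.EQ.E2
import Pool.Agent.H99.EQ.E3
import Pool.Agent.H99.EQ.Q4

/-!
# EQ-E4: level 2 explicit

Job EQ-E4. At `τ` (`z = zz τ`, `t = z + 1`, complex numbers): `D1 rhoS = rho2T/t³` (`D1_rat` with
`rhoS_rat`, n = 1), `rhoS = rhT/t`. Divide the three first integrals by `λ = 1/U`:
`X - 2 U k = R₁`, `z X + 2k + 2 b4 = R₂`, `2 z X + (2 - 2 U z) k - 2 ĥ b4 = R₃` with
`R₁ = R1T/t³`, `R₂ = R2T/t²`, `R₃ = R3T/t³`. Eliminate: `X = R₁ + 2Uk`,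
`2 b4 = R₂ - zX - 2k`, `2 (1+ĥ)(1+Uz) k = R₃ + ĥ R₂ - z (2+ĥ) R₁`, `1 + U z = - Q/W²`,
`1 + ĥ = 2 (z+3/4)(z+8/9)/W`, `Q = t cq`: `k = kT/t⁴`.
-/

set_option autoImplicit false

open Complex
open scoped ContDiff

noncomputable section

namespace H99.EQ

variable {al X g a k b3 b4 b5 : Sm}

/-- the elimination, as an identity of complex numbers -/
theorem e4_elim {z t W N B q U hh k X b R1 R2 R3 : ℂ} (ht : t ≠ 0) (hB : B ≠ 0)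
    (hq : q ≠ 0) (hU : U * W ^ 2 = 4 * N) (hid : W ^ 2 + 4 * z * N + t * q = 0)
    (hhh : (1 + hh) * W = 2 * B)
    (h1 : (X - 2 * U * k) * t ^ 3 = R1)
    (h2 : (z * X + 2 * k + 2 * b) * t ^ 2 = R2)
    (h3 : (2 * z * X + (2 - 2 * U * z) * k - 2 * hh * b) * t ^ 3 = R3) :
    k = (-W ^ 3 * (R3 + hh * R2 * t - z * (2 + hh) * R1) / (4 * B * q)) / t ^ 4 := by
  have hA : R3 + hh * R2 * t - z * (2 + hh) * R1 = 2 * k * (1 + hh) * (1 + U * z) * t ^ 3 := by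
    rw [← h1, ← h2, ← h3]
    ring
  have hB' : W ^ 3 * (R3 + hh * R2 * t - z * (2 + hh) * R1) = -(k * t ^ 4 * (4 * B * q)) := by
    rw [hA]
    have e1 : W ^ 2 * (1 + U * z) = -(t * q) := by linear_combination z * hU + hid
    linear_combination (2 * k * t ^ 3 * (W ^ 2 * (1 + U * z))) * hhh + (4 * B * k * t ^ 3) * e1
  have h4 : 4 * B * q ≠ 0 := mul_ne_zero (mul_ne_zero (by norm_num) hB) hq
  rw [eq_div_iff (pow_ne_zero 4 ht), eq_div_iff h4]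
  linear_combination hB'

theorem e4_pure {z t U hh la k X b al a g b3 rho rho2 c20 c04 c12 : ℂ}
    {AL A RH RH2 : ℂ} (ht : t ≠ 0) (hz : z ≠ 0) (hla : la * U = 1)
    (hal : al = AL / t) (ha : a = A / t) (hrho : rho = RH / t) (hrho2 : rho2 = RH2 / t ^ 3)
    (e1 : la * (al ^ 2 + X) - 2 * k - (1 / 2) * la * rho2 + (1 / 4) * la * rho ^ 2 -
      la * g ^ 2 = c20)
    (e2 : la * (a ^ 2 + 2 * z * k - 4 * al * z * a + z ^ 2 * (al ^ 2 + X) -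
      (1 / 4) * z ^ 2 - b3 ^ 2 + 2 * z * b) = c04)
    (e3 : la * (2 * k - 4 * al * a + 2 * (al ^ 2 + X) * z - U * a ^ 2 -
      2 * U * z * k - (1 / 2) * z - (1 / 2) * z * rho2 - (1 / 2) * rho * z -
      2 * hh * b + 2 * g * b3) = c12) :
    (X - 2 * U * k) * t ^ 3 = c20 * U * t ^ 3 + RH2 / 2 - RH ^ 2 * t / 4 + g ^ 2 * t ^ 3 -
        AL ^ 2 * t ∧
      (z * X + 2 * k + 2 * b) * t ^ 2 = (c04 * U * t ^ 2 - (A ^ 2 - 4 * AL * z * A +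
        AL ^ 2 * z ^ 2 - b3 ^ 2 * t ^ 2) + z ^ 2 * t ^ 2 / 4) / z ∧
      (2 * z * X + (2 - 2 * U * z) * k - 2 * hh * b) * t ^ 3 = c12 * U * t ^ 3 +
        t * (4 * AL * A - 2 * AL ^ 2 * z + U * A ^ 2) - 2 * g * b3 * t ^ 3 +
        z * (t ^ 3 + RH2) / 2 + RH * z * t ^ 2 / 2 := by
  have f1 : al ^ 2 + X - 2 * U * k - rho2 / 2 + rho ^ 2 / 4 - g ^ 2 = c20 * U := by
    linear_combination U * e1 - (al ^ 2 + X - rho2 / 2 + rho ^ 2 / 4 - g ^ 2) * hla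
  have f2 : a ^ 2 + 2 * z * k - 4 * al * z * a + z ^ 2 * (al ^ 2 + X) -
      (1 / 4) * z ^ 2 - b3 ^ 2 + 2 * z * b = c04 * U := by
    linear_combination U * e2 - (a ^ 2 + 2 * z * k - 4 * al * z * a + z ^ 2 * (al ^ 2 + X) -
      (1 / 4) * z ^ 2 - b3 ^ 2 + 2 * z * b) * hla
  have f3 : 2 * k - 4 * al * a + 2 * (al ^ 2 + X) * z - U * a ^ 2 -
      2 * U * z * k - (1 / 2) * z - (1 / 2) * z * rho2 - (1 / 2) * rho * z -
      2 * hh * b + 2 * g * b3 = c12 * U := by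
    linear_combination U * e3 - (2 * k - 4 * al * a + 2 * (al ^ 2 + X) * z - U * a ^ 2 -
      2 * U * z * k - (1 / 2) * z - (1 / 2) * z * rho2 - (1 / 2) * rho * z -
      2 * hh * b + 2 * g * b3) * hla
  have hal' : AL = al * t := by rw [hal, div_mul_cancel₀ _ ht]
  have ha' : A = a * t := by rw [ha, div_mul_cancel₀ _ ht]
  have hrho' : RH = rho * t := by rw [hrho, div_mul_cancel₀ _ ht]
  have hrho2' : RH2 = rho2 * t ^ 3 := by rw [hrho2, div_mul_cancel₀ _ (pow_ne_zero 3 ht)]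
  rw [hal', ha', hrho', hrho2']
  refine ⟨?_, ?_, ?_⟩
  · linear_combination t ^ 3 * f1
  · rw [eq_div_iff hz]
    linear_combination t ^ 2 * f2
  · linear_combination t ^ 3 * f3

theorem expl2 {P : Par}
    (h1 : ∀ τ : ℝ, (al : ℝ → ℂ) τ = alT P (zz τ) / (cz (zz τ) + 1) ∧
      (g : ℝ → ℂ) τ = gf P (zz τ) ∧ (b3 : ℝ → ℂ) τ = b3f P (zz τ) ∧
      (a : ℝ → ℂ) τ = aT P (zz τ) / (cz (zz τ) + 1))
    (e1 : laS * (al ^ 2 + X) - 2 * k - cS (1 / 2) * laS * D1 rhoS +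
      cS (1 / 4) * laS * rhoS ^ 2 - laS * g ^ 2 = cS P.c20)
    (e2 : laS * (a ^ 2 + 2 * zS * k - 4 * al * zS * a + zS ^ 2 * (al ^ 2 + X) -
      cS (1 / 4) * zS ^ 2 - b3 ^ 2 + 2 * zS * b4) = cS P.c04)
    (e3 : laS * (2 * k - 4 * al * a + 2 * (al ^ 2 + X) * zS - UuS * a ^ 2 -
      2 * UuS * zS * k - cS (1 / 2) * zS - cS (1 / 2) * zS * D1 rhoS - cS (1 / 2) * rhoS * zS -
      2 * hhS * b4 + 2 * g * b3) = cS P.c12) (τ : ℝ) :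
    (k : ℝ → ℂ) τ = kT P (zz τ) / (cz (zz τ) + 1) ^ 4 ∧
      (X : ℝ → ℂ) τ = XT P (zz τ) / (cz (zz τ) + 1) ^ 4 ∧
      (b4 : ℝ → ℂ) τ = b4T P (zz τ) / (cz (zz τ) + 1) ^ 4 := by
  obtain ⟨hal, hg, hb3, ha⟩ := h1 τ
  have hz : zz τ ∈ Set.Ioo (-(3 / 4) : ℝ) 0 := zz_mem τ
  have ht := t_ne τ
  have hz0 : cz (zz τ) ≠ 0 := Complex.ofReal_ne_zero.2 hz.2.ne
  have cW_eq : cW (zz τ) = ((rW (zz τ) : ℝ) : ℂ) := by
    unfold cW rW cz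
    push_cast
    ring
  have cN_eq : cN (zz τ) = ((rN (zz τ) : ℝ) : ℂ) := by
    unfold cN rN cz
    push_cast
    ring
  have cN1_eq : cN1 (zz τ) = ((rN1 (zz τ) : ℝ) : ℂ) := by
    unfold cN1 rN1 cz
    push_cast
    ring
  have cq_eq : cq (zz τ) = ((rq (zz τ) : ℝ) : ℂ) := by
    unfold cq rq cz
    push_cast
    ring
  have hW : cW (zz τ) ≠ 0 := by
    rw [cW_eq]
    exact Complex.ofReal_ne_zero.2 (rW_pos hz).ne'
  have hq : cq (zz τ) ≠ 0 := by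
    rw [cq_eq]
    exact Complex.ofReal_ne_zero.2 (rq_neg hz).ne
  have hB : (cz (zz τ) + 3 / 4) * (cz (zz τ) + 8 / 9) ≠ 0 := by
    have h2 : (zz τ + 3 / 4) * (zz τ + 8 / 9) ≠ 0 := by
      have h3 := hz.1
      exact mul_ne_zero (by linarith) (by linarith)
    have h4 : (cz (zz τ) + 3 / 4) * (cz (zz τ) + 8 / 9) =
        (((zz τ + 3 / 4) * (zz τ + 8 / 9) : ℝ) : ℂ) := by
      unfold cz
      push_cast
      ring
    rw [h4]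
    exact Complex.ofReal_ne_zero.2 h2
  have hU : cU (zz τ) * cW (zz τ) ^ 2 = 4 * cN (zz τ) := by
    unfold cU
    rw [div_mul_cancel₀ _ (pow_ne_zero 2 hW)]
  have hid : cW (zz τ) ^ 2 + 4 * cz (zz τ) * cN (zz τ) + (cz (zz τ) + 1) * cq (zz τ) = 0 := by
    unfold cW cN cq
    ring
  have hhh : (1 + chh (zz τ)) * cW (zz τ) = 2 * ((cz (zz τ) + 3 / 4) * (cz (zz τ) + 8 / 9)) := by
    unfold chh
    rw [add_mul, div_mul_cancel₀ _ hW]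
    unfold cW cN1
    ring
  have vz : (zS : ℝ → ℂ) τ = cz (zz τ) := ofZ_apply R3_id_cd τ
  have vU : (UuS : ℝ → ℂ) τ = cU (zz τ) := by
    rw [UuS, ofZ_apply rU_cd]
    unfold cU
    rw [cN_eq, cW_eq]
    unfold rU
    push_cast
    ring
  have vh : (hhS : ℝ → ℂ) τ = chh (zz τ) := by
    rw [hhS, ofZ_apply rhh_cd]
    unfold chh
    rw [cN1_eq, cW_eq]
    unfold rhh
    push_cast
    ring
  have vr : (rhoS : ℝ → ℂ) τ = rhT (zz τ) / (cz (zz τ) + 1) := rhoS_rat τ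
  have vr2 : (D1 rhoS : ℝ → ℂ) τ = rho2T (zz τ) / (cz (zz τ) + 1) ^ 3 :=
    D1_rat Rf_rhT 1 (fun τ => by rw [pow_one]; exact rhoS_rat τ) τ
  have hla : (laS : ℝ → ℂ) τ * cU (zz τ) = 1 := by
    have h := congrArg (ss3_ev τ) laS_U
    rw [map_mul, map_one] at h
    rw [← vU]
    exact h
  have E1 := congrArg (ss3_ev τ) e1
  have E2 := congrArg (ss3_ev τ) e2
  have E3 := congrArg (ss3_ev τ) e3
  have two : ss3_ev τ 2 = 2 := map_ofNat _ 2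
  have four : ss3_ev τ 4 = 4 := map_ofNat _ 4
  have vc : ∀ c : ℂ, ss3_ev τ (cS c) = c := fun c => rfl
  simp only [map_add, map_sub, map_mul, map_pow, two, four, vc] at E1 E2 E3
  have w1 : ss3_ev τ zS = cz (zz τ) := vz
  have w2 : ss3_ev τ UuS = cU (zz τ) := vU
  have w3 : ss3_ev τ hhS = chh (zz τ) := vh
  have w4 : ss3_ev τ g = gf P (zz τ) := hg
  have w5 : ss3_ev τ b3 = b3f P (zz τ) := hb3
  rw [w4] at E1
  rw [w1, w5] at E2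
  rw [w1, w2, w3, w4, w5] at E3
  obtain ⟨r1, r2, r3⟩ := e4_pure ht hz0 hla hal ha vr vr2 E1 E2 E3
  have hk := e4_elim (k := (k : ℝ → ℂ) τ) (X := (X : ℝ → ℂ) τ) (b := (b4 : ℝ → ℂ) τ) ht hB hq hU
    hid hhh r1 r2 r3
  have hk' : (k : ℝ → ℂ) τ = kT P (zz τ) / (cz (zz τ) + 1) ^ 4 := hk
  have hk'' : kT P (zz τ) = (k : ℝ → ℂ) τ * (cz (zz τ) + 1) ^ 4 := by
    rw [hk', div_mul_cancel₀ _ (pow_ne_zero 4 ht)]
  have r1' : ((X : ℝ → ℂ) τ - 2 * cU (zz τ) * (k : ℝ → ℂ) τ) * (cz (zz τ) + 1) ^ 3 =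
    R1T P (zz τ) := r1
  have r2' : (cz (zz τ) * (X : ℝ → ℂ) τ + 2 * (k : ℝ → ℂ) τ + 2 * (b4 : ℝ → ℂ) τ) *
    (cz (zz τ) + 1) ^ 2 = R2T P (zz τ) := r2
  have hX : XT P (zz τ) = (X : ℝ → ℂ) τ * (cz (zz τ) + 1) ^ 4 := by
    unfold XT
    rw [hk'', ← r1']
    ring
  refine ⟨hk', ?_, ?_⟩
  · rw [hX, mul_div_cancel_right₀ _ (pow_ne_zero 4 ht)]
  · unfold b4T
    rw [hX, hk'', ← r2', eq_div_iff (pow_ne_zero 4 ht)]
    ring

end H99.EQ
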