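import Pool.Agent.H99.EQ.R4

/-!
# EQ-R6: parameter integrals and the Hadamard lemma

Job EQ-R6.
* `contDiff_param`: differentiation under the integral sign, for all orders: by induction on `n`
  for `ContDiff ℝ n` with the generality all normed spaces `E` (finite dimensional, or with the
  space `E` such that closed balls are compact), all complete target spaces `F`:
  `fderiv` of `e ↦ ∫ t in a..b, f (e, t)` at `e` is `∫ t in a..b, (fderiv f (e, t)).comp inl`
  (`hasFDerivAt_integral_of_dominated_of_fderiv_le` /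
  `intervalIntegral.hasFDerivAt_integral_of_dominated_of_fderiv_le`, the bound on
  a compact neighbourhood).
* `hadamard`: `g - io3 (res g) = σ * h`, `h ((σ,τ),y) = ∫_0^1 (∂_σ g) ((uσ, τ), y) du` (smooth,
  periodic). The same for `s3 - sg 0 = σ * k` with `k ≠ 0` everywhere (`sg` is strictly
  monotone, `deriv sg > 0`), so `g = (s3 - sg 0) * (h/k)` if `res g = 0`.
-/

set_option autoImplicit false

open MeasureTheory Complex
open scoped ContDiff

noncomputable section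

namespace H99.EQ

universe u

/-- the partial derivative with respect to the parameter -/
def R6pd {E W : Type*} [NormedAddCommGroup E] [NormedSpace ℝ E] [NormedAddCommGroup W]
    [NormedSpace ℝ W] (F : E × ℝ → W) (p : E × ℝ) : E →L[ℝ] W :=
  (fderiv ℝ F p).comp (ContinuousLinearMap.inl ℝ E ℝ)

theorem R6pd_cd {E W : Type*} [NormedAddCommGroup E] [NormedSpace ℝ E] [NormedAddCommGroup W]
    [NormedSpace ℝ W] {F : E × ℝ → W} {n m : WithTop ℕ∞} (hF : ContDiff ℝ n F)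
    (hmn : m + 1 ≤ n) : ContDiff ℝ m (R6pd F) :=
  (hF.fderiv_right hmn).clm_comp contDiff_const

theorem R6pd_has {E W : Type*} [NormedAddCommGroup E] [NormedSpace ℝ E] [NormedAddCommGroup W]
    [NormedSpace ℝ W] {F : E × ℝ → W} (hF : Differentiable ℝ F) (x : E) (q : ℝ) :
    HasFDerivAt (fun x => F (x, q)) (R6pd F (x, q)) x := by
  have h1 : HasFDerivAt (fun x : E => (x, q)) (ContinuousLinearMap.inl ℝ E ℝ) x :=
    hasFDerivAt_prodMk_left x q
  exact (hF (x, q)).hasFDerivAt.comp x h1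

theorem R6_hasFDerivAt {E W : Type*} [NormedAddCommGroup E] [NormedSpace ℝ E]
    [FiniteDimensional ℝ E] [NormedAddCommGroup W] [NormedSpace ℝ W] {F : E × ℝ → W}
    (hF : ContDiff ℝ 1 F) (a b : ℝ) (x : E) :
    HasFDerivAt (fun x => ∫ t in a..b, F (x, t)) (∫ t in a..b, R6pd F (x, t)) x := by
  have hpd : Continuous (R6pd F) := (R6pd_cd hF (m := 0) (by simp)).continuous
  obtain ⟨C, hC⟩ := ((isCompact_closedBall x 1).prod
    (isCompact_uIcc (a := a) (b := b))).bddAbove_image hpd.norm.continuousOn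
  refine intervalIntegral.hasFDerivAt_integral_of_dominated_of_fderiv_le (𝕜 := ℝ)
    (F := fun x q => F (x, q)) (F' := fun x q => R6pd F (x, q)) (x₀ := x) (bound := fun _ => C)
    (s := Metric.closedBall x 1) (Metric.closedBall_mem_nhds x one_pos) ?_ ?_ ?_ ?_ ?_ ?_
  · refine Filter.Eventually.of_forall fun y => ?_
    exact (hF.continuous.comp (Continuous.prodMk_right y)).aestronglyMeasurable
  · exact (hF.continuous.comp (Continuous.prodMk_right x)).intervalIntegrable a b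
  · exact (hpd.comp (Continuous.prodMk_right x)).aestronglyMeasurable
  · refine Filter.Eventually.of_forall fun t ht y hy => ?_
    exact hC (Set.mem_image_of_mem _ (Set.mk_mem_prod hy (Set.uIoc_subset_uIcc ht)))
  · exact intervalIntegrable_const
  · exact Filter.Eventually.of_forall fun q _ y _ => R6pd_has (hF.differentiable one_ne_zero) y q

theorem R6_cd {E : Type u} [NormedAddCommGroup E] [NormedSpace ℝ E] [FiniteDimensional ℝ E]
    (n : ℕ) : ∀ {W : Type u} [NormedAddCommGroup W] [NormedSpace ℝ W] {F : E × ℝ → W},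
      ContDiff ℝ ∞ F → ∀ a b : ℝ, ContDiff ℝ n (fun x => ∫ t in a..b, F (x, t)) := by
  induction n with
  | zero =>
    intro W _ _ F hF a b
    have h1 := fun x => R6_hasFDerivAt (hF.of_le (by simp)) a b x
    exact contDiff_zero.2 (continuous_iff_continuousAt.mpr fun x => (h1 x).continuousAt)
  | succ n ih =>
    intro W _ _ F hF a b
    have h1 := fun x => R6_hasFDerivAt (hF.of_le (by simp)) a b x
    have h2 := ih (R6pd_cd hF (m := ∞) (by simp)) a b
    have e : fderiv ℝ (fun x => ∫ t in a..b, F (x, t)) = fun x => ∫ t in a..b, R6pd F (x, t) :=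
      funext fun x => (h1 x).fderiv
    rw [Nat.cast_add, Nat.cast_one, contDiff_succ_iff_fderiv]
    refine ⟨fun x => (h1 x).differentiableAt, by simp, ?_⟩
    rw [e]
    exact h2

theorem contDiff_param {E : Type*} [NormedAddCommGroup E] [NormedSpace ℝ E]
    [FiniteDimensional ℝ E] {f : E × ℝ → ℂ} (hf : ContDiff ℝ ∞ f) (a b : ℝ) :
    ContDiff ℝ ∞ fun e : E => ∫ t in a..b, f (e, t) := by
  have h1 := fun x => R6_hasFDerivAt (hf.of_le (by simp)) a b x
  have e : fderiv ℝ (fun x => ∫ t in a..b, f (x, t)) = fun x => ∫ t in a..b, R6pd f (x, t) :=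
    funext fun x => (h1 x).fderiv
  rw [contDiff_infty_iff_fderiv]
  refine ⟨fun x => (h1 x).differentiableAt, ?_⟩
  rw [e, contDiff_infty]
  intro n
  exact R6_cd n (R6pd_cd hf (m := ∞) (by simp)) a b

theorem fderiv_param {E : Type*} [NormedAddCommGroup E] [NormedSpace ℝ E]
    [FiniteDimensional ℝ E] {f : E × ℝ → ℂ} (hf : ContDiff ℝ ∞ f) (a b : ℝ) (e v : E) :
    fderiv ℝ (fun e : E => ∫ t in a..b, f (e, t)) e v =
      ∫ t in a..b, fderiv ℝ f (e, t) (v, 0) := by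
  rw [(R6_hasFDerivAt (hf.of_le (by simp)) a b e).fderiv]
  have hc : Continuous fun t => R6pd f (e, t) :=
    ((R6pd_cd hf (m := 0) (by simp)).continuous).comp (Continuous.prodMk_right e)
  rw [ContinuousLinearMap.intervalIntegral_apply (hc.intervalIntegrable a b)]
  rfl

/-- the derivative in `σ` at `((u σ, τ), y)` -/
def R6in (g : C3) (q : ((ℝ × ℝ) × ℝ) × ℝ) : ℂ :=
  (dE (((1, 0), 0) : (ℝ × ℝ) × ℝ) g : (ℝ × ℝ) × ℝ → ℂ) ((q.2 * q.1.1.1, q.1.1.2), q.1.2)

theorem R6in_cd (g : C3) : ContDiff ℝ ∞ (R6in g) := by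
  have h := (dE (((1, 0), 0) : (ℝ × ℝ) × ℝ) g).2.1
  refine h.comp (f := fun q : ((ℝ × ℝ) × ℝ) × ℝ =>
    (((q.2 * q.1.1.1, q.1.1.2), q.1.2) : (ℝ × ℝ) × ℝ)) ?_
  fun_prop

/-- the Hadamard quotient -/
def R6H (g : C3) : C3 :=
  ⟨fun p => ∫ t in (0 : ℝ)..1, R6in g (p, t), contDiff_param (R6in_cd g) 0 1, fun e y => by
    refine intervalIntegral.integral_congr fun t _ => ?_
    exact (dE (((1, 0), 0) : (ℝ × ℝ) × ℝ) g).2.2 (t * e.1, e.2) y⟩

theorem R6H_apply (g : C3) (p : (ℝ × ℝ) × ℝ) :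
    (R6H g : (ℝ × ℝ) × ℝ → ℂ) p = ∫ t in (0 : ℝ)..1, R6in g (p, t) := rfl

theorem R6H_spec (g : C3) (p : (ℝ × ℝ) × ℝ) :
    (g : (ℝ × ℝ) × ℝ → ℂ) p - (g : (ℝ × ℝ) × ℝ → ℂ) ((0, p.1.2), p.2) =
      (p.1.1 : ℂ) * (R6H g : (ℝ × ℝ) × ℝ → ℂ) p := by
  have hd : ∀ t : ℝ, HasDerivAt
      (fun t : ℝ => (g : (ℝ × ℝ) × ℝ → ℂ) ((t * p.1.1, p.1.2), p.2))
      ((p.1.1 : ℂ) * R6in g (p, t)) t := by
    intro t
    have h1 : HasDerivAt (fun t : ℝ => (((t * p.1.1, p.1.2), p.2) : (ℝ × ℝ) × ℝ))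
        ((p.1.1, 0), 0) t := by
      have h2 : HasDerivAt (fun t : ℝ => t * p.1.1) p.1.1 t := by
        simpa using (hasDerivAt_id t).mul_const p.1.1
      exact (h2.prodMk (hasDerivAt_const t p.1.2)).prodMk (hasDerivAt_const t p.2)
    have h3 := ((g.2.1.differentiable (by simp))
      ((t * p.1.1, p.1.2), p.2)).hasFDerivAt.comp_hasDerivAt t h1
    have e : (((p.1.1, 0), 0) : (ℝ × ℝ) × ℝ) = p.1.1 • (((1, 0), 0) : (ℝ × ℝ) × ℝ) := by
      simp
    rw [e, map_smul] at h3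
    exact h3
  have hc : Continuous fun t => (p.1.1 : ℂ) * R6in g (p, t) :=
    continuous_const.mul ((R6in_cd g).continuous.comp (Continuous.prodMk_right p))
  have h := intervalIntegral.integral_eq_sub_of_hasDerivAt (a := 0) (b := 1)
    (fun t _ => hd t) (hc.intervalIntegrable 0 1)
  rw [intervalIntegral.integral_const_mul] at h
  rw [R6H_apply, h]
  simp

theorem R6H_s3 (p : (ℝ × ℝ) × ℝ) : (R6H s3 : (ℝ × ℝ) × ℝ → ℂ) p ≠ 0 := by
  have hin : ∀ t : ℝ, R6in s3 (p, t) = ((deriv sg (t * p.1.1) : ℝ) : ℂ) := by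
    intro t
    have e : (s3 : (ℝ × ℝ) × ℝ → ℂ) = fun p => ((sg p.1.1 : ℝ) : ℂ) := funext fun p => s3_apply p
    change fderiv ℝ (s3 : (ℝ × ℝ) × ℝ → ℂ) ((t * p.1.1, p.1.2), p.2) ((1, 0), 0) = _
    rw [e]
    have h1 : HasFDerivAt (fun p : (ℝ × ℝ) × ℝ => p.1.1)
        ((ContinuousLinearMap.fst ℝ ℝ ℝ).comp (ContinuousLinearMap.fst ℝ (ℝ × ℝ) ℝ))
        ((t * p.1.1, p.1.2), p.2) :=
      ((ContinuousLinearMap.fst ℝ ℝ ℝ).comp
        (ContinuousLinearMap.fst ℝ (ℝ × ℝ) ℝ)).hasFDerivAt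
    have h2 : HasDerivAt sg (deriv sg (t * p.1.1)) (t * p.1.1) :=
      ((sg_cd.differentiable (by simp)) _).hasDerivAt
    have h3 := h2.ofReal_comp
    have h4 := h3.hasFDerivAt.comp (((t * p.1.1, p.1.2), p.2) : (ℝ × ℝ) × ℝ) h1
    have h5 := h4.fderiv
    have h6 := congrArg (fun L => L (((1, 0), 0) : (ℝ × ℝ) × ℝ)) h5
    simp only [Function.comp_def] at h6
    rw [h6]
    simp
  rw [R6H_apply]
  simp_rw [hin]
  rw [intervalIntegral.integral_ofReal]
  have hc : Continuous fun t => deriv sg (t * p.1.1) :=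
    (sg_cd.continuous_deriv (by simp)).comp (by fun_prop)
  have hpos : 0 < ∫ t in (0 : ℝ)..1, deriv sg (t * p.1.1) :=
    intervalIntegral.intervalIntegral_pos_of_pos (hc.intervalIntegrable 0 1)
      (fun t => sg_deriv_pos _) one_pos
  exact_mod_cast hpos.ne'

theorem hadamard {g : C3} (h : res g = 0) :
    ∃ k : C3, g = (s3 - algebraMap ℂ C3 ((sg 0 : ℝ) : ℂ)) * k := by
  refine ⟨⟨fun p => (R6H g : (ℝ × ℝ) × ℝ → ℂ) p / (R6H s3 : (ℝ × ℝ) × ℝ → ℂ) p,
    by simp only [div_eq_mul_inv]; exact (R6H g).2.1.mul ((R6H s3).2.1.inv R6H_s3),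
    fun e y => ?_⟩, ?_⟩
  · change (R6H g : (ℝ × ℝ) × ℝ → ℂ) (e, y + 2 * Real.pi) /
      (R6H s3 : (ℝ × ℝ) × ℝ → ℂ) (e, y + 2 * Real.pi) = _
    rw [(R6H g).2.2, (R6H s3).2.2]
  · apply Subtype.ext
    funext p
    have h1 := R6H_spec g p
    have h2 := R6H_spec s3 p
    rw [s3_apply, s3_apply] at h2
    have h3 : (g : (ℝ × ℝ) × ℝ → ℂ) ((0, p.1.2), p.2) = 0 :=
      congrFun (congrArg Subtype.val h) (p.1.2, p.2)
    rw [h3, sub_zero] at h1
    change (g : (ℝ × ℝ) × ℝ → ℂ) p = ((s3 : (ℝ × ℝ) × ℝ → ℂ) p - ((sg 0 : ℝ) : ℂ)) *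
      ((R6H g : (ℝ × ℝ) × ℝ → ℂ) p / (R6H s3 : (ℝ × ℝ) × ℝ → ℂ) p)
    rw [s3_apply, h2, h1]
    field_simp [R6H_s3 p]

end H99.EQ
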