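import Pool.Agent.H99.EQ.R5
import Pool.Agent.H99.EQ.R6

/-!
# EQ-R8: the mean over `y`

Job EQ-R8. `(mean g)(τ) = (1/2π) ∫_0^{2π} g (τ, y) dy` (smooth by `contDiff_param`). Periodicity
gives `mean (Y2 g) = 0`; `mean (X2 g) = X1 (mean g)` is `fderiv_param`. If `mean g = 0` then
`θ (τ, y) = ∫_0^y g (τ, y') dy'` is smooth and `2π`-periodic in `y` (write it as
`y ∫_0^1 g (τ, u y) du` for the smoothness) and `Y2 θ = g`.
-/

set_option autoImplicit false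

open MeasureTheory Complex
open scoped ContDiff

noncomputable section

namespace H99.EQ

theorem r8_cont (g : C2) (τ : ℝ) : Continuous fun y : ℝ => (g : ℝ × ℝ → ℂ) (τ, y) :=
  g.2.1.continuous.comp (by fun_prop)

theorem r8_int (g : C2) (τ a b : ℝ) :
    IntervalIntegrable (fun y : ℝ => (g : ℝ × ℝ → ℂ) (τ, y)) volume a b :=
  (r8_cont g τ).intervalIntegrable a b

/-- the mean over `y` -/
def mean : C2 →ₗ[ℂ] Sm where
  toFun g := ⟨fun τ => (1 / (2 * Real.pi) : ℂ) * ∫ y in (0 : ℝ)..2 * Real.pi,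
    (g : ℝ × ℝ → ℂ) (τ, y), contDiff_const.mul (contDiff_param g.2.1 0 (2 * Real.pi))⟩
  map_add' g h := by
    refine Subtype.ext (funext fun τ => ?_)
    change (1 / (2 * Real.pi) : ℂ) * ∫ y in (0 : ℝ)..2 * Real.pi,
      ((g : ℝ × ℝ → ℂ) (τ, y) + (h : ℝ × ℝ → ℂ) (τ, y)) =
      (1 / (2 * Real.pi) : ℂ) * (∫ y in (0 : ℝ)..2 * Real.pi, (g : ℝ × ℝ → ℂ) (τ, y)) +
      (1 / (2 * Real.pi) : ℂ) * ∫ y in (0 : ℝ)..2 * Real.pi, (h : ℝ × ℝ → ℂ) (τ, y)
    rw [intervalIntegral.integral_add (r8_int g τ _ _) (r8_int h τ _ _), mul_add]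
  map_smul' c g := by
    refine Subtype.ext (funext fun τ => ?_)
    change (1 / (2 * Real.pi) : ℂ) * ∫ y in (0 : ℝ)..2 * Real.pi,
      (c * (g : ℝ × ℝ → ℂ) (τ, y)) =
      c * ((1 / (2 * Real.pi) : ℂ) * (∫ y in (0 : ℝ)..2 * Real.pi, (g : ℝ × ℝ → ℂ) (τ, y)))
    rw [intervalIntegral.integral_const_mul]
    ring

theorem mean_apply (g : C2) (τ : ℝ) : (mean g : ℝ → ℂ) τ =
    (1 / (2 * Real.pi) : ℂ) * ∫ y in (0 : ℝ)..2 * Real.pi, (g : ℝ × ℝ → ℂ) (τ, y) := rfl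

theorem r8_pi : (2 * Real.pi : ℂ) ≠ 0 := by
  have h := Real.pi_ne_zero
  simp [h]

theorem mean_io_mul (f : Sm) (g : C2) : mean (io f * g) = f * mean g := by
  refine Subtype.ext (funext fun τ => ?_)
  change (1 / (2 * Real.pi) : ℂ) * ∫ y in (0 : ℝ)..2 * Real.pi,
      ((f : ℝ → ℂ) τ * (g : ℝ × ℝ → ℂ) (τ, y)) =
      (f : ℝ → ℂ) τ * ((1 / (2 * Real.pi) : ℂ) *
        (∫ y in (0 : ℝ)..2 * Real.pi, (g : ℝ × ℝ → ℂ) (τ, y)))
  rw [intervalIntegral.integral_const_mul]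
  ring

theorem mean_one : mean 1 = 1 := by
  refine Subtype.ext (funext fun τ => ?_)
  change (1 / (2 * Real.pi) : ℂ) * ∫ y in (0 : ℝ)..2 * Real.pi, (1 : ℂ) = 1
  rw [intervalIntegral.integral_const, sub_zero, Complex.real_smul]
  push_cast
  rw [mul_one, one_div, inv_mul_cancel₀ r8_pi]

theorem mean_X2 (g : C2) : mean (X2 g) = X1 (mean g) := by
  refine Subtype.ext (funext fun τ => ?_)
  rw [X1_apply, mean_apply]
  have h1 : (fun y : ℝ => (X2 g : ℝ × ℝ → ℂ) (τ, y)) =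
      fun y => (gx τ : ℂ) * fderiv ℝ (g : ℝ × ℝ → ℂ) (τ, y) (1, 0) := by
    funext y
    exact X2_apply g (τ, y)
  rw [h1, intervalIntegral.integral_const_mul]
  have h2 : (mean g : ℝ → ℂ) = fun τ => (1 / (2 * Real.pi) : ℂ) *
      ∫ y in (0 : ℝ)..2 * Real.pi, (g : ℝ × ℝ → ℂ) (τ, y) := rfl
  have h3 : DifferentiableAt ℝ
      (fun τ => ∫ y in (0 : ℝ)..2 * Real.pi, (g : ℝ × ℝ → ℂ) (τ, y)) τ :=
    (contDiff_param g.2.1 0 (2 * Real.pi)).differentiable (by simp) τ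
  rw [h2, fderiv_const_mul h3]
  have h4 := fderiv_param g.2.1 0 (2 * Real.pi) τ 1
  change _ = (gx τ : ℂ) * ((1 / (2 * Real.pi) : ℂ) *
    fderiv ℝ (fun τ => ∫ y in (0 : ℝ)..2 * Real.pi, (g : ℝ × ℝ → ℂ) (τ, y)) τ 1)
  rw [h4]
  ring

theorem r8_hasDeriv {f : ℝ × ℝ → ℂ} (hf : ContDiff ℝ ∞ f) (τ y : ℝ) :
    HasDerivAt (fun y => f (τ, y)) (fderiv ℝ f (τ, y) (0, 1)) y := by
  have h1 : HasFDerivAt f (fderiv ℝ f (τ, y)) (τ, y) :=
    (hf.differentiable (by simp) (τ, y)).hasFDerivAt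
  have h2 : HasDerivAt (fun y : ℝ => ((τ, y) : ℝ × ℝ)) (0, 1) y :=
    (hasDerivAt_const y τ).prodMk (hasDerivAt_id y)
  exact h1.comp_hasDerivAt y h2

theorem mean_Y2 (g : C2) : mean (Y2 g) = 0 := by
  refine Subtype.ext (funext fun τ => ?_)
  rw [mean_apply]
  have h1 : (fun y : ℝ => (Y2 g : ℝ × ℝ → ℂ) (τ, y)) =
      fun y => fderiv ℝ (g : ℝ × ℝ → ℂ) (τ, y) (0, 1) := by
    funext y
    exact Y2_apply g (τ, y)
  have h2 : ∫ y in (0 : ℝ)..2 * Real.pi, (Y2 g : ℝ × ℝ → ℂ) (τ, y) =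
      (g : ℝ × ℝ → ℂ) (τ, 2 * Real.pi) - (g : ℝ × ℝ → ℂ) (τ, 0) := by
    refine intervalIntegral.integral_eq_sub_of_hasDerivAt
      (f := fun y => (g : ℝ × ℝ → ℂ) (τ, y)) (fun y _ => ?_) (r8_int (Y2 g) τ _ _)
    have h3 := r8_hasDeriv g.2.1 τ y
    rw [← Y2_apply g (τ, y)] at h3
    exact h3
  have h4 := g.2.2 τ 0
  rw [zero_add] at h4
  rw [h2, h4, sub_self, mul_zero]
  rfl

theorem mean_prim {g : C2} (h : mean g = 0) : ∃ θ : C2, Y2 θ = g := by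
  -- the primitive
  let θf : ℝ × ℝ → ℂ := fun p => ∫ u in (0 : ℝ)..1, (p.2 : ℂ) * (g : ℝ × ℝ → ℂ) (p.1, u * p.2)
  have hcd : ContDiff ℝ ∞ θf := by
    have h1 : ContDiff ℝ ∞ fun q : (ℝ × ℝ) × ℝ =>
        (q.1.2 : ℂ) * (g : ℝ × ℝ → ℂ) (q.1.1, q.2 * q.1.2) := by
      refine ContDiff.mul ?_ ?_
      · exact Complex.ofRealCLM.contDiff.comp (contDiff_snd.comp contDiff_fst)
      · exact g.2.1.comp ((contDiff_fst.comp contDiff_fst).prodMk
          (contDiff_snd.mul (contDiff_snd.comp contDiff_fst)))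
    exact contDiff_param h1 0 1
  have hθ : ∀ τ y : ℝ, θf (τ, y) = ∫ s in (0 : ℝ)..y, (g : ℝ × ℝ → ℂ) (τ, s) := by
    intro τ y
    have h1 := intervalIntegral.smul_integral_comp_mul_right
      (f := fun s => (g : ℝ × ℝ → ℂ) (τ, s)) (a := 0) (b := 1) y
    rw [zero_mul, one_mul] at h1
    rw [← h1, Complex.real_smul, ← intervalIntegral.integral_const_mul]
  have hzero : ∀ τ : ℝ, ∫ s in (0 : ℝ)..2 * Real.pi, (g : ℝ × ℝ → ℂ) (τ, s) = 0 := by
    intro τ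
    have h1 : (mean g : ℝ → ℂ) τ = 0 := by
      rw [h]
      rfl
    rw [mean_apply] at h1
    rcases mul_eq_zero.1 h1 with h2 | h2
    · exact absurd h2 (one_div_ne_zero r8_pi)
    · exact h2
  have hper : ∀ (τ y : ℝ), θf (τ, y + 2 * Real.pi) = θf (τ, y) := by
    intro τ y
    rw [hθ, hθ, ← intervalIntegral.integral_add_adjacent_intervals (r8_int g τ 0 y)
      (r8_int g τ y (y + 2 * Real.pi))]
    have h1 : Function.Periodic (fun s => (g : ℝ × ℝ → ℂ) (τ, s)) (2 * Real.pi) :=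
      fun s => g.2.2 τ s
    have h2 := h1.intervalIntegral_add_eq y 0
    rw [zero_add, hzero τ] at h2
    rw [h2, add_zero]
  refine ⟨⟨θf, hcd, hper⟩, ?_⟩
  refine Subtype.ext (funext fun p => ?_)
  obtain ⟨τ, y⟩ := p
  rw [Y2_apply]
  have h1 := r8_hasDeriv hcd τ y
  have h2 : HasDerivAt (fun y => θf (τ, y)) ((g : ℝ × ℝ → ℂ) (τ, y)) y := by
    have h3 : (fun y => θf (τ, y)) = fun y => ∫ s in (0 : ℝ)..y, (g : ℝ × ℝ → ℂ) (τ, s) := by
      funext y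
      exact hθ τ y
    rw [h3]
    exact intervalIntegral.integral_hasDerivAt_right (r8_int g τ 0 y)
      ((r8_cont g τ).stronglyMeasurableAtFilter _ _) (r8_cont g τ).continuousAt
  exact h1.unique h2

theorem r8_exp (y : ℝ) : HasDerivAt (fun y : ℝ => exp (-(2 * I * (y : ℂ))))
    (-(2 * I) * exp (-(2 * I * (y : ℂ)))) y := by
  have h1 : HasDerivAt (fun y : ℝ => -(2 * I * (y : ℂ))) (-(2 * I * 1)) y :=
    ((Complex.ofRealCLM.hasDerivAt (x := y)).const_mul (2 * I)).neg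
  have h2 := h1.cexp
  convert h2 using 1
  ring

theorem r8_exp_int : ∫ y in (0 : ℝ)..2 * Real.pi, exp (-(2 * I * (y : ℂ))) = 0 := by
  have h1 : ∀ y : ℝ, HasDerivAt (fun y : ℝ => (-(2 * I))⁻¹ * exp (-(2 * I * (y : ℂ))))
      (exp (-(2 * I * (y : ℂ)))) y := by
    intro y
    have h2 := (r8_exp y).const_mul (-(2 * I))⁻¹
    rw [← mul_assoc, inv_mul_cancel₀ (by simp), one_mul] at h2
    exact h2
  rw [intervalIntegral.integral_eq_sub_of_hasDerivAt (fun y _ => h1 y)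
    (Continuous.intervalIntegrable (by fun_prop) _ _)]
  have h3 : exp (-(2 * I * ((2 * Real.pi : ℝ) : ℂ))) = 1 := by
    have h4 : -(2 * I * ((2 * Real.pi : ℝ) : ℂ)) = ((-2 : ℤ) : ℂ) * (2 * Real.pi * I) := by
      push_cast
      ring
    rw [h4, Complex.exp_int_mul_two_pi_mul_I]
  rw [h3]
  simp

/-- the Fourier modes of `cos`, `sin` -/
theorem mean_cos : mean (eY (-1) * cosY) = cS (1 / 2) := by
  refine Subtype.ext (funext fun τ => ?_)
  rw [mean_apply]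
  have h1 : (fun y : ℝ => ((eY (-1) * cosY : C2) : ℝ × ℝ → ℂ) (τ, y)) =
      fun y : ℝ => (1 / 2 : ℂ) + (1 / 2 : ℂ) * exp (-(2 * I * (y : ℂ))) := by
    funext y
    change (eY (-1) : ℝ × ℝ → ℂ) (τ, y) * (cosY : ℝ × ℝ → ℂ) (τ, y) = _
    rw [eY_apply, cosY_apply, Complex.ofReal_cos, Complex.cos]
    have e1 : exp (I * ((-1 : ℤ) : ℂ) * (y : ℂ)) * exp ((y : ℂ) * I) = 1 := by
      rw [← exp_add, ← exp_zero]
      congr 1
      push_cast
      ring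
    have e2 : exp (I * ((-1 : ℤ) : ℂ) * (y : ℂ)) * exp (-(y : ℂ) * I) =
        exp (-(2 * I * (y : ℂ))) := by
      rw [← exp_add]
      congr 1
      push_cast
      ring
    change exp (I * ((-1 : ℤ) : ℂ) * (y : ℂ)) * ((exp ((y : ℂ) * I) + exp (-(y : ℂ) * I)) / 2) = _
    linear_combination (1 / 2 : ℂ) * e1 + (1 / 2 : ℂ) * e2
  rw [h1, intervalIntegral.integral_add (continuous_const.intervalIntegrable _ _)
    (Continuous.intervalIntegrable (by fun_prop) _ _), intervalIntegral.integral_const_mul,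
    r8_exp_int, intervalIntegral.integral_const, mul_zero, add_zero, sub_zero, Complex.real_smul]
  have h5 := r8_pi
  change (1 / (2 * Real.pi) : ℂ) * (((2 * Real.pi : ℝ) : ℂ) * (1 / 2)) = (1 / 2 : ℂ)
  push_cast
  field_simp

theorem mean_sin : mean (eY (-1) * sinY) = cS (1 / (2 * I)) := by
  refine Subtype.ext (funext fun τ => ?_)
  rw [mean_apply]
  have h1 : (fun y : ℝ => ((eY (-1) * sinY : C2) : ℝ × ℝ → ℂ) (τ, y)) =
      fun y : ℝ => (1 / (2 * I) : ℂ) + (-(1 / (2 * I)) : ℂ) * exp (-(2 * I * (y : ℂ))) := by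
    funext y
    change (eY (-1) : ℝ × ℝ → ℂ) (τ, y) * (sinY : ℝ × ℝ → ℂ) (τ, y) = _
    rw [eY_apply, sinY_apply, Complex.ofReal_sin, Complex.sin]
    have e1 : exp (I * ((-1 : ℤ) : ℂ) * (y : ℂ)) * exp ((y : ℂ) * I) = 1 := by
      rw [← exp_add, ← exp_zero]
      congr 1
      push_cast
      ring
    have e2 : exp (I * ((-1 : ℤ) : ℂ) * (y : ℂ)) * exp (-(y : ℂ) * I) =
        exp (-(2 * I * (y : ℂ))) := by
      rw [← exp_add]
      congr 1
      push_cast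
      ring
    have e3 : (1 / (2 * I) : ℂ) = -(I / 2) := by
      rw [one_div, mul_inv, Complex.inv_I]
      ring
    change exp (I * ((-1 : ℤ) : ℂ) * (y : ℂ)) *
      ((exp (-(y : ℂ) * I) - exp ((y : ℂ) * I)) * I / 2) = _
    rw [e3]
    linear_combination (-(I / 2) : ℂ) * e1 + (I / 2 : ℂ) * e2
  rw [h1, intervalIntegral.integral_add (continuous_const.intervalIntegrable _ _)
    (Continuous.intervalIntegrable (by fun_prop) _ _), intervalIntegral.integral_const_mul,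
    r8_exp_int, intervalIntegral.integral_const, mul_zero, add_zero, sub_zero, Complex.real_smul]
  have h5 := r8_pi
  change (1 / (2 * Real.pi) : ℂ) * (((2 * Real.pi : ℝ) : ℂ) * (1 / (2 * I))) = (1 / (2 * I) : ℂ)
  push_cast
  rw [← mul_assoc, one_div_mul_cancel h5, one_mul]

end H99.EQ
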