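import Pool.Agent.H99.EQ.CL0
import Pool.Agent.H99.EQ.R8

/-!
# EQ-F1: Fourier modes of the operators

Job EQ-F1. Leibniz with `X2_io`, `Y2_io`, `X2_eY`, `Y2_eY`, and the rules of `mean` (R8).
* `Dm_mode`: `X2 (io f * eY m) = io (X1 f) * eY m`, `Y2 (io f * eY m) = (I m) • (io f * eY m)`.
* `mean_D`: for every `g`: `mean (eY (-k) * X2 (X2 g)) = X1 (X1 (mean (eY (-k) * g)))`
  (`eY (-k) * X2 g = X2 (eY (-k) * g)`), `mean (eY (-k) * Y2 g) = (I k) • mean (eY (-k) * g)`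
  (from `mean (Y2 (eY (-k) * g)) = 0`).
* `mean_S`: `Spr2 (io f * eY m)` is
  `ν³ ḣ [cosY (λ X³f - m² (λ+ζ) Xf) + sinY (I m ĥλ X²f - I m³ (ĥλ-ζ) f)] eY m`
  (`(I m)³ = - I m³`), `eY (-(m+1)) * eY m = eY (-1)`, `mean_cos`, `mean_sin`.
-/

set_option autoImplicit false

open Complex
open scoped ContDiff

noncomputable section

namespace H99.EQ

/-- the mode `m` of `Dpr2 + μ Y + μ0` -/
def Dmode (μ μ0 : Sm) (m : ℤ) : Module.End ℂ Sm :=
  mo (cS (nu ^ 2) * laS) * (dv X1 * dv X1 - ((m : ℂ) ^ 2) • 1) +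
    mo (cS (I * m) * μ) + mo μ0

theorem f1_smul (c : ℂ) (f : Sm) : c • f = cS c * f := Algebra.smul_def c f

theorem f1_smul2 (c : ℂ) (g : C2) : c • g = cC c * g := Algebra.smul_def c g

theorem f1_io (c : ℂ) : io (cS c) = cC c := io.commutes c

theorem f1_X1c (c : ℂ) (f : Sm) : X1 (cS c * f) = cS c * X1 f := by
  rw [← f1_smul, Derivation.map_smul, f1_smul]

theorem f1_X2c (c : ℂ) (g : C2) : X2 (cC c * g) = cC c * X2 g := by
  rw [← f1_smul2, Derivation.map_smul, f1_smul2]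

theorem f1_Y2c (c : ℂ) (g : C2) : Y2 (cC c * g) = cC c * Y2 g := by
  rw [← f1_smul2, Derivation.map_smul, f1_smul2]

theorem f1_X (f : Sm) (m : ℤ) : X2 (io f * eY m) = io (X1 f) * eY m := by
  rw [Derivation.leibniz, X2_eY, smul_zero, zero_add, X2_io, smul_eq_mul, mul_comm]

theorem f1_Y (f : Sm) (m : ℤ) : Y2 (io f * eY m) = io (cS (I * m) * f) * eY m := by
  rw [Derivation.leibniz, Y2_io, smul_zero, add_zero, Y2_eY, smul_eq_mul, map_mul, f1_io,
    f1_smul2]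
  ring

theorem f1_ii : cS I * cS I = (-1 : Sm) := by
  rw [← map_mul, I_mul_I, map_neg, map_one]

theorem f1_im (m : ℤ) : cS (I * m) * cS (I * m) = -cS ((m : ℂ) ^ 2) := by
  rw [← map_mul, ← map_neg]
  congr 1
  linear_combination (m : ℂ) ^ 2 * I_sq

theorem f1_meanc (c : ℂ) (g : C2) : mean (cC c * g) = cS c * mean g := by
  rw [← f1_smul2, map_smul, f1_smul]

theorem f1_red (m : ℤ) (c : C2) (g : Sm) :
    mean (eY (-(m + 1)) * (c * (io g * eY m))) = mean (eY (-1) * c) * g := by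
  have h : eY (-(m + 1)) * (c * (io g * eY m)) = io g * (eY (-1) * c) := by
    have h1 : eY (-(m + 1)) * eY m = eY (-1) := by
      rw [eY_mul]
      congr 1
      ring
    rw [← h1]
    ring
  rw [h, mean_io_mul, mul_comm]

theorem f1_meanX (k : ℤ) (g : C2) : mean (eY (-k) * X2 g) = X1 (mean (eY (-k) * g)) := by
  rw [← mean_X2, Derivation.leibniz, X2_eY, smul_zero, add_zero, smul_eq_mul]

theorem f1_meanY (k : ℤ) (g : C2) :
    mean (eY (-k) * Y2 g) = cS (I * k) * mean (eY (-k) * g) := by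
  have h := mean_Y2 (eY (-k) * g)
  rw [Derivation.leibniz, Y2_eY, map_add, smul_eq_mul, smul_eq_mul] at h
  have h0 : I * ((-k : ℤ) : ℂ) = -(I * k) := by
    push_cast
    ring
  have h2 : g * (I * ((-k : ℤ) : ℂ)) • eY (-k) = cC (-(I * k)) * (eY (-k) * g) := by
    rw [f1_smul2, h0]
    ring
  have h3 : cS (-(I * (k : ℂ))) = -cS (I * k) := map_neg _ _
  rw [h2, f1_meanc, h3] at h
  linear_combination h

theorem Dm_mode {D : Module.End ℂ C2} {μ μ0 : Sm}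
    (hD : D = Dpr2 + mo (io μ) * dv Y2 + mo (io μ0)) (m : ℤ) (f : Sm) :
    D (io f * eY m) = io (Dmode μ μ0 m f) * eY m := by
  have h1 : D (io f * eY m) = cC (nu ^ 2) * io laS * (X2 (X2 (io f * eY m)) +
      Y2 (Y2 (io f * eY m))) + io μ * Y2 (io f * eY m) + io μ0 * (io f * eY m) := by
    rw [hD]; rfl
  have h2 : Dmode μ μ0 m f = cS (nu ^ 2) * laS * (X1 (X1 f) - ((m : ℂ) ^ 2) • f) +
      cS (I * m) * μ * f + μ0 * f := rfl
  have h3 : Dmode μ μ0 m f = cS (nu ^ 2) * laS * (X1 (X1 f) + cS (I * m) * (cS (I * m) * f)) +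
      μ * (cS (I * m) * f) + μ0 * f := by
    rw [h2, f1_smul]
    linear_combination (-(cS (nu ^ 2) * laS * f)) * f1_im m
  rw [h1, h3, f1_X, f1_X, f1_Y, f1_Y]
  simp only [map_add, map_mul, ← f1_io]
  ring

theorem mean_D {D : Module.End ℂ C2} {μ μ0 : Sm}
    (hD : D = Dpr2 + mo (io μ) * dv Y2 + mo (io μ0)) (k : ℤ) (g : C2) :
    mean (eY (-k) * D g) = Dmode μ μ0 k (mean (eY (-k) * g)) := by
  have h1 : D g = cC (nu ^ 2) * io laS * (X2 (X2 g) + Y2 (Y2 g)) + io μ * Y2 g + io μ0 * g := by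
    rw [hD]; rfl
  have h2 : ∀ f : Sm, Dmode μ μ0 k f = cS (nu ^ 2) * laS * (X1 (X1 f) - ((k : ℂ) ^ 2) • f) +
      cS (I * k) * μ * f + μ0 * f := fun f => rfl
  have h3 : eY (-k) * D g = io (cS (nu ^ 2) * laS) * (eY (-k) * X2 (X2 g)) +
      io (cS (nu ^ 2) * laS) * (eY (-k) * Y2 (Y2 g)) + io μ * (eY (-k) * Y2 g) +
      io μ0 * (eY (-k) * g) := by
    rw [h1, map_mul, f1_io]
    ring
  rw [h3, map_add, map_add, map_add, mean_io_mul, mean_io_mul, mean_io_mul, mean_io_mul, f1_meanX,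
    f1_meanX, f1_meanY, f1_meanY, h2, f1_smul]
  linear_combination (cS (nu ^ 2) * laS * mean (eY (-k) * g)) * f1_im k

theorem mean_S (m : ℤ) (f : Sm) :
    mean (eY (-(m + 1)) * Spr2 (io f * eY m)) =
      cS (nu ^ 3 / 2) * hdS * (laS * X1 (X1 (X1 f)) + cS m * (hhS * laS) * X1 (X1 f) -
        cS (m ^ 2) * (laS + zS) * X1 f - cS (m ^ 3) * (hhS * laS - zS) * f) := by
  have h1 : Spr2 (io f * eY m) = cC (nu ^ 3) * (io hdS * cosY) *
      (io laS * X2 (X2 (X2 (io f * eY m))) + io (laS + zS) * X2 (Y2 (Y2 (io f * eY m)))) +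
      cC (nu ^ 3) * (io hdS * sinY) *
      (io (hhS * laS) * X2 (X2 (Y2 (io f * eY m))) +
        io (hhS * laS - zS) * Y2 (Y2 (Y2 (io f * eY m)))) := rfl
  rw [f1_X, f1_X, f1_X, f1_Y, f1_Y, f1_Y, f1_X, f1_X, f1_X] at h1
  have h2 : Spr2 (io f * eY m) =
      cosY * (io (cS (nu ^ 3) * hdS * (laS * X1 (X1 (X1 f)) +
        (laS + zS) * X1 (cS (I * m) * (cS (I * m) * f)))) * eY m) +
      sinY * (io (cS (nu ^ 3) * hdS * (hhS * laS * X1 (X1 (cS (I * m) * f)) +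
        (hhS * laS - zS) * (cS (I * m) * (cS (I * m) * (cS (I * m) * f))))) * eY m) := by
    rw [h1]
    simp only [map_add, map_sub, map_mul, ← f1_io]
    ring
  have h3 : cS (1 / (2 * I)) = -(cS (1 / 2) * cS I) := by
    rw [← map_mul, ← map_neg]
    congr 1
    have : (I : ℂ) ≠ 0 := I_ne_zero
    field_simp
    linear_combination I_sq
  have h4 : cS (nu ^ 3 / 2) = cS (nu ^ 3) * cS (1 / 2) := by
    rw [← map_mul]
    congr 1
    ring
  have h5 : cS (I * (m : ℂ)) = cS I * cS (m : ℂ) := map_mul _ _ _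
  have h6 : ∀ r : ℕ, cS ((m : ℂ) ^ r) = cS (m : ℂ) ^ r := fun r => map_pow _ _ _
  rw [h2, mul_add, map_add, f1_red, f1_red, mean_cos, mean_sin, h3, h4]
  simp only [f1_X1c]
  simp only [h5, h6]
  have h7 := f1_ii
  generalize cS I = i at *
  generalize cS (m : ℂ) = mm at *
  generalize X1 (X1 (X1 f)) = a3 at *
  generalize X1 (X1 f) = a2 at *
  generalize X1 f = a1 at *
  linear_combination (cS (nu ^ 3) * cS (1 / 2) * hdS * ((laS + zS) * mm ^ 2 * a1 -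
    hhS * laS * mm * a2 - (hhS * laS - zS) * mm ^ 3 * f * (i * i - 1))) * h7

/-- the lower order terms -/
theorem mean_low (cxx cxy cyy cx cy c0 : C2) (m : ℤ) (f : Sm) :
    mean (eY (-(m + 1)) * ((mo cxx * (dv X2 * dv X2) + mo cxy * (dv X2 * dv Y2) +
      mo cyy * (dv Y2 * dv Y2) + mo cx * dv X2 + mo cy * dv Y2 + mo c0) (io f * eY m))) =
    mean (eY (-1) * cxx) * X1 (X1 f) + cS (I * m) * mean (eY (-1) * cxy) * X1 f -
      cS (m ^ 2) * mean (eY (-1) * cyy) * f + mean (eY (-1) * cx) * X1 f +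
      cS (I * m) * mean (eY (-1) * cy) * f + mean (eY (-1) * c0) * f := by
  have h1 : (mo cxx * (dv X2 * dv X2) + mo cxy * (dv X2 * dv Y2) +
      mo cyy * (dv Y2 * dv Y2) + mo cx * dv X2 + mo cy * dv Y2 + mo c0) (io f * eY m) =
      cxx * X2 (X2 (io f * eY m)) + cxy * X2 (Y2 (io f * eY m)) + cyy * Y2 (Y2 (io f * eY m)) +
      cx * X2 (io f * eY m) + cy * Y2 (io f * eY m) + c0 * (io f * eY m) := rfl
  rw [h1, f1_X, f1_X, f1_Y, f1_Y, f1_X]
  simp only [mul_add, map_add]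
  rw [f1_red, f1_red, f1_red, f1_red, f1_red, f1_red, f1_X1c]
  linear_combination (mean (eY (-1) * cyy) * f) * f1_im m

end H99.EQ
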