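import Pool.Agent.H99.EQ.F1

/-!
# EQ-F2: the intertwining relation of the Fourier modes

Job EQ-F2. `T = Spr2 + L`, `L` as in `OL3_form`. `TT m f := mean (eY (-(m+1)) * T (io f * eY m))`.
`mean (eY (-(m+1)) * D (T g)) = Dmode (m+1) (mean (eY (-(m+1)) * T g))` (`mean_D`) and
`T (D (io f * eY m)) = T (io (Dmode m f) * eY m)`, so `Dmode (m+1) (TT m f) = TT m (Dmode m f)`.
With `α = I μ / (2ν²λ)`, `wt = - μ0/(ν²λ) - α²` (inverse of `laS`): `Dmode m = - ν² • DDo α wt m`.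
With `dij = - (2/ν³) *` (the means of `mean_low`, with factors `I`, and sign `+` for `d02`):
`TT m = - (ν³/2) • TTo d m`. Cancel the constants.
-/

set_option autoImplicit false

open Complex
open scoped ContDiff

noncomputable section

namespace H99.EQ

/-- `-λ (X² - (m-α)² - wt)` -/
def DDo (α wt : Sm) (m : ℤ) : Module.End ℂ Sm :=
  -(mo laS * (dv X1 * dv X1 - mo ((cS m - α) ^ 2 + wt)))

/-- the third order operators between the modes `m` and `m + 1` -/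
def TTo (d20 d11 d10 d02 d01 d00 : Sm) (m : ℤ) : Module.End ℂ Sm :=
  -(mo (hdS * laS) * (dv X1 * dv X1 * dv X1)) +
    mo (d20 - cS m * (hdS * hhS * laS)) * (dv X1 * dv X1) +
    mo (cS (m ^ 2) * (hdS * (laS + zS)) + cS m * d11 + d10) * dv X1 +
    mo (cS (m ^ 3) * (hdS * (hhS * laS - zS)) + cS (m ^ 2) * d02 + cS m * d01 + d00)

theorem F2_nu : nu ≠ 0 := by
  unfold nu
  have h := Real.pi_ne_zero
  simp [h]

theorem F2_cS_mul (x y : ℂ) : cS (x * y) = cS x * cS y := map_mul (algebraMap ℂ Sm) x y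

theorem F2_cS_pow (x : ℂ) (n : ℕ) : cS (x ^ n) = cS x ^ n := map_pow (algebraMap ℂ Sm) x n

theorem F2_cS_neg (x : ℂ) : cS (-x) = -cS x := map_neg (algebraMap ℂ Sm) x

theorem F2_smul (x : ℂ) (f : Sm) : x • f = cS x * f := Algebra.smul_def x f

theorem F2_DDo_apply (α wt : Sm) (m : ℤ) (f : Sm) :
    DDo α wt m f = -(laS * (X1 (X1 f) - ((cS m - α) ^ 2 + wt) * f)) := rfl

theorem F2_TTo_apply (d20 d11 d10 d02 d01 d00 : Sm) (m : ℤ) (f : Sm) :
    TTo d20 d11 d10 d02 d01 d00 m f = -((hdS * laS) * X1 (X1 (X1 f))) +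
    (d20 - cS m * (hdS * hhS * laS)) * X1 (X1 f) +
    (cS (m ^ 2) * (hdS * (laS + zS)) + cS m * d11 + d10) * X1 f +
    (cS (m ^ 3) * (hdS * (hhS * laS - zS)) + cS (m ^ 2) * d02 + cS m * d01 + d00) * f := rfl

theorem F2_Dmode_apply (μ μ0 : Sm) (m : ℤ) (f : Sm) :
    Dmode μ μ0 m f = cS (nu ^ 2) * laS * (X1 (X1 f) - ((m : ℂ) ^ 2) • f) +
      cS (I * m) * μ * f + μ0 * f := rfl

theorem modes {D T : Module.End ℂ C2} {μ μ0 : Sm}
    (hD : D = Dpr2 + mo (io μ) * dv Y2 + mo (io μ0))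
    (hT : OL fr2 3 (T - Spr2)) (hDT : D * T = T * D) :
    ∃ α wt d20 d11 d10 d02 d01 d00 : Sm, ∀ m : ℤ,
      DDo α wt (m + 1) * TTo d20 d11 d10 d02 d01 d00 m =
        TTo d20 d11 d10 d02 d01 d00 m * DDo α wt m := by
  obtain ⟨cxx, cxy, cyy, cx, cy, c0, hL⟩ := OL3_form hT
  have hT' : T = Spr2 + (mo cxx * (dv X2 * dv X2) + mo cxy * (dv X2 * dv Y2) +
      mo cyy * (dv Y2 * dv Y2) + mo cx * dv X2 + mo cy * dv Y2 + mo c0) := by
    rw [← hL]; abel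
  have hnu := F2_nu
  obtain ⟨b, hb⟩ : ∃ b : Sm, b = cS (-(2 / nu ^ 3)) := ⟨_, rfl⟩
  obtain ⟨a, ha⟩ : ∃ a : Sm, a = cS (-(nu ^ 3 / 2)) := ⟨_, rfl⟩
  obtain ⟨p, hp⟩ : ∃ p : Sm, p = cS (-(nu ^ 2)) := ⟨_, rfl⟩
  obtain ⟨q, hq⟩ : ∃ q : Sm, q = cS (-(1 / nu ^ 2)) := ⟨_, rfl⟩
  obtain ⟨J, hJ⟩ : ∃ J : Sm, J = cS I := ⟨_, rfl⟩
  obtain ⟨t, ht⟩ : ∃ t : Sm, t = cS (1 / 2) := ⟨_, rfl⟩
  have hab : a * b = 1 := by
    rw [ha, hb, ← map_mul, ← map_one (algebraMap ℂ Sm)]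
    congr 1
    field_simp
  have hpq : p * q = 1 := by
    rw [hp, hq, ← map_mul, ← map_one (algebraMap ℂ Sm)]
    congr 1
    field_simp
  have h2t : 2 * t = 1 := by
    rw [ht, ← map_one (algebraMap ℂ Sm), ← map_ofNat (algebraMap ℂ Sm) 2, ← map_mul]
    congr 1
    norm_num
  have hU := laS_U
  -- the coefficients
  refine ⟨-(J * t * q * μ * UuS), (q * μ0 * UuS) - (J * t * q * μ * UuS) ^ 2,
    b * mean (eY (-1) * cxx), J * b * mean (eY (-1) * cxy), b * mean (eY (-1) * cx),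
    -(b * mean (eY (-1) * cyy)), J * b * mean (eY (-1) * cy), b * mean (eY (-1) * c0),
    fun m => ?_⟩
  have hDm : ∀ (m : ℤ) (f : Sm), Dmode μ μ0 m f =
      (-(nu ^ 2)) • DDo (-(J * t * q * μ * UuS)) ((q * μ0 * UuS) - (J * t * q * μ * UuS) ^ 2)
        m f := by
    intro m f
    have e1 : cS (-(nu ^ 2)) = p := hp.symm
    have e2 : cS (nu ^ 2) = -p := by rw [← e1, F2_cS_neg, neg_neg]
    have e3 : cS I = J := hJ.symm
    rw [F2_Dmode_apply, F2_DDo_apply, F2_smul, F2_smul, F2_cS_pow (m : ℂ), F2_cS_mul, e1, e2, e3]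
    linear_combination (-(2 * t * J * cS (m : ℂ) * μ * f) - μ0 * f) *
      (p * q * hU + hpq) - J * cS (m : ℂ) * μ * f * h2t
  have hTm : ∀ (m : ℤ) (f : Sm), mean (eY (-(m + 1)) * T (io f * eY m)) =
      (-(nu ^ 3 / 2)) • TTo (b * mean (eY (-1) * cxx)) (J * b * mean (eY (-1) * cxy))
        (b * mean (eY (-1) * cx)) (-(b * mean (eY (-1) * cyy))) (J * b * mean (eY (-1) * cy))
        (b * mean (eY (-1) * c0)) m f := by
    intro m f
    have e1 : cS (-(nu ^ 3 / 2)) = a := ha.symm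
    have e2 : cS (nu ^ 3 / 2) = -a := by rw [← e1, F2_cS_neg, neg_neg]
    have e3 : cS I = J := hJ.symm
    rw [hT', LinearMap.add_apply, mul_add, map_add, mean_S, mean_low, F2_TTo_apply,
      F2_smul, F2_cS_pow, F2_cS_pow, F2_cS_mul, e1, e2, e3]
    linear_combination (-(mean (eY (-1) * cxx) * X1 (X1 f) +
      J * cS (m : ℂ) * mean (eY (-1) * cxy) * X1 f -
      cS (m : ℂ) ^ 2 * mean (eY (-1) * cyy) * f + mean (eY (-1) * cx) * X1 f +
      J * cS (m : ℂ) * mean (eY (-1) * cy) * f + mean (eY (-1) * c0) * f)) * hab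
  have key : ∀ f : Sm, (DDo (-(J * t * q * μ * UuS))
      ((q * μ0 * UuS) - (J * t * q * μ * UuS) ^ 2) (m + 1))
      (TTo (b * mean (eY (-1) * cxx)) (J * b * mean (eY (-1) * cxy))
        (b * mean (eY (-1) * cx)) (-(b * mean (eY (-1) * cyy))) (J * b * mean (eY (-1) * cy))
        (b * mean (eY (-1) * c0)) m f) =
      (TTo (b * mean (eY (-1) * cxx)) (J * b * mean (eY (-1) * cxy))
        (b * mean (eY (-1) * cx)) (-(b * mean (eY (-1) * cyy))) (J * b * mean (eY (-1) * cy))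
        (b * mean (eY (-1) * c0)) m)
      (DDo (-(J * t * q * μ * UuS))
      ((q * μ0 * UuS) - (J * t * q * μ * UuS) ^ 2) m f) := by
    intro f
    have h1 := mean_D hD (m + 1) (T (io f * eY m))
    have h2 : D (T (io f * eY m)) = T (D (io f * eY m)) :=
      congrArg (fun P : Module.End ℂ C2 => P (io f * eY m)) hDT
    rw [h2, Dm_mode hD, hTm, hTm, hDm, hDm, map_smul, map_smul, smul_smul, smul_smul] at h1
    have h3 : (-(nu ^ 3 / 2) * -(nu ^ 2) : ℂ) ≠ 0 := by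
      refine mul_ne_zero ?_ ?_
      · exact neg_ne_zero.2 (div_ne_zero (pow_ne_zero _ hnu) two_ne_zero)
      · exact neg_ne_zero.2 (pow_ne_zero _ hnu)
    have h4 : (-(nu ^ 2) * -(nu ^ 3 / 2) : ℂ) = -(nu ^ 3 / 2) * -(nu ^ 2) := mul_comm _ _
    rw [h4] at h1
    exact (smul_right_injective Sm h3 h1).symm
  ext f
  exact congrArg (fun g : Sm => (g : ℝ → ℂ) _) (key f)

end H99.EQ
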