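import Pool.Agent.H99.EQ.K5
import Pool.Agent.H99.EQ.R2

/-!
# EQ-K6: the classical integrable system on the torus

Job EQ-K6. `O = box 3 \ closure W`, `q` from `filling`, `P j = per (p j) + q j`.
* `pb (P i) (P j) x = 0`: if `red x ∈ O` then `per (p j)` vanishes near `x` (`per_local`, `p j = 0`
  outside `W`, `O` open and disjoint from `W`), so `fderiv (P j) x = fderiv (q j) x`; otherwise
  `fderiv (q j) x = 0` and `fderiv (P j) x = fderiv (p j) (red x)` if `red x ∈ box`, `= 0` if not.
* independence: by `ae_per` (`fderiv_shift`) for a.e. `x ∈ box`; `x ∈ W`, or `x ∈ O`, or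
  `x ∈ frontier W` (null).
* `NearForm P`: `(Phi3 c, 0) ∈ box 3` (R2: `Rr_mem`, `|ω_k| ≤ 1`), and `p 1 (Phi3 c, 0) = sg > 0`
  (`NearForm p` at `s = 0`, `sg_pos`), so `(Phi3 c, 0) ∈ W` (open), hence `q j = 0` and
  `per (p j) = p j` near it.
-/

set_option autoImplicit false

open MeasureTheory
open scoped ContDiff

noncomputable section

namespace H99.EQ

private theorem pb_congr {f g f' g' : Ph 3 → ℝ} {x y : Ph 3}
    (hf : fderiv ℝ f x = fderiv ℝ f' y) (hg : fderiv ℝ g x = fderiv ℝ g' y) :
    pb f g x = pb f' g' y := by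
  unfold pb
  rw [hf, hg]

private theorem fderiv_per {f : Ph 3 → ℝ} (hf : CS f) (x : Ph 3) :
    fderiv ℝ (per f) x = fderiv ℝ f (red x) := by
  rw [(per_local hf x).fderiv_eq]
  have h := fderiv_comp_sub (𝕜 := ℝ) (f := f) (x := x) (x - red x)
  rw [h, sub_sub_cancel]

theorem classical_of_core {p : Fin 3 → Ph 3 → ℝ} {W : Set (Ph 3)} (h : CoreData p W) :
    ∃ P : Fin 3 → Ph 3 → ℝ, IsClassical P ∧ NearForm P := by
  obtain ⟨hWo, hWb, hWf, hCS, hp0, hpb, hind, hNF⟩ := h
  have hO : IsOpen (box 3 \ closure W) := box_open.sdiff isClosed_closure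
  obtain ⟨q, hq1, hq2, hq3, hq4, hq5⟩ := filling hO Set.sdiff_subset
  have hfd : ∀ j x, fderiv ℝ (fun y => per (p j) y + q j y) x =
      fderiv ℝ (per (p j)) x + fderiv ℝ (q j) x := fun j x =>
    fderiv_fun_add ((per_smooth (hCS j)).differentiable (by simp) x)
      ((hq1 j).differentiable (by simp) x)
  -- outside `O`
  have hout : ∀ j x, red x ∉ box 3 \ closure W →
      fderiv ℝ (fun y => per (p j) y + q j y) x = fderiv ℝ (p j) (red x) := by
    intro j x hx
    rw [hfd, (hq4 j x hx).2, add_zero, fderiv_per (hCS j)]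
  -- inside `O`
  have hin : ∀ j x, red x ∈ box 3 \ closure W →
      fderiv ℝ (fun y => per (p j) y + q j y) x = fderiv ℝ (q j) x := by
    intro j x hx
    have h1 : p j =ᶠ[nhds (red x)] 0 := by
      filter_upwards [hO.mem_nhds hx] with y hy
      exact hp0 j y fun hyW => hy.2 (subset_closure hyW)
    have h2 : fderiv ℝ (p j) (red x) = 0 := by
      rw [h1.fderiv_eq]
      exact fderiv_const_apply (0 : ℝ)
    rw [hfd, fderiv_per (hCS j), h2, zero_add]
  refine ⟨fun j x => per (p j) x + q j x, ⟨?_, ?_, ?_, ?_⟩, ?_⟩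
  · intro j
    exact (per_smooth (hCS j)).add (hq1 j)
  · intro j a b x
    have h1 := per_per (p j) a b x
    have h2 := hq2 j a b x
    change per (p j) _ + q j _ = _
    rw [h1, h2]
  · intro i j x
    by_cases hx : red x ∈ box 3 \ closure W
    · rw [pb_congr (hin i x hx) (hin j x hx)]
      exact hq3 i j x
    · rw [pb_congr (hout i x hx) (hout j x hx)]
      exact hpb i j (red x)
  · refine ae_per (P := fun x => LinearIndependent ℝ fun j =>
      fderiv ℝ (fun y => per (p j) y + q j y) x) ?_ ?_
    · intro a b x hx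
      have h1 : ∀ j, fderiv ℝ (fun y => per (p j) y + q j y) (x.1 + ivec a, x.2 + ivec b) =
          fderiv ℝ (fun y => per (p j) y + q j y) x := by
        intro j
        refine fderiv_shift (f := fun y => per (p j) y + q j y) ?_ a b x
        intro a b x
        have h1 := per_per (p j) a b x
        have h2 := hq2 j a b x
        change per (p j) _ + q j _ = _
        rw [h1, h2]
      simp only [h1]
      exact hx
    · have hfr : ∀ᵐ x : Ph 3, x ∉ frontier W := measure_eq_zero_iff_ae_notMem.1 hWf
      filter_upwards [hfr, hind, hq5] with x hx1 hx2 hx3 hxb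
      by_cases hxW : x ∈ W
      · have hxO : red x ∉ box 3 \ closure W := by
          rw [red_box hxb]
          exact fun h => h.2 (subset_closure hxW)
        have h1 : ∀ j, fderiv ℝ (fun y => per (p j) y + q j y) x = fderiv ℝ (p j) x := by
          intro j
          rw [hout j x hxO, red_box hxb]
        simp only [h1]
        exact hx2 hxW
      · have hxc : x ∉ closure W := by
          intro hc
          apply hx1
          rw [hWo.frontier_eq]
          exact ⟨hc, hxW⟩
        have hxO : red x ∈ box 3 \ closure W := by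
          rw [red_box hxb]
          exact ⟨hxb, hxc⟩
        simp only [hin _ x hxO]
        exact hx3 ⟨hxb, hxc⟩
  · intro c t
    have h0 := hNF c t
    have h1 : (Phi3 c, (0 : ℝ) • t) ∈ W := by
      by_contra hn
      have h2 := (h0.self_of_nhds).2.1
      rw [hp0 1 _ hn] at h2
      exact absurd h2 (sg_pos c.1.1).ne
    have hcont : Continuous fun s : ℝ => ((Phi3 c, s • t) : Ph 3) :=
      continuous_const.prodMk (continuous_id.smul continuous_const)
    have h2 : ∀ᶠ s : ℝ in nhds 0, ((Phi3 c, s • t) : Ph 3) ∈ W :=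
      hcont.continuousAt.eventually_mem (hWo.mem_nhds h1)
    filter_upwards [h0, h2] with s hs1 hs2
    have hb := hWb hs2
    have hr : red ((Phi3 c, s • t) : Ph 3) = (Phi3 c, s • t) := red_box hb
    have hnO : red ((Phi3 c, s • t) : Ph 3) ∉ box 3 \ closure W := by
      rw [hr]
      exact fun h => h.2 (subset_closure hs2)
    have hP : ∀ j, per (p j) (Phi3 c, s • t) + q j (Phi3 c, s • t) = p j (Phi3 c, s • t) := by
      intro j
      rw [(hq4 j _ hnO).1, add_zero]
      unfold per
      rw [hr]
    simp only [hP]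
    exact hs1

end H99.EQ
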