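import Pool.Agent.H99.EQ.Defs

/-!
# Berezin-Toeplitz quantisation of the torus: the definitions in the statement

`M = ℝ^{2n}/ℤ^{2n}` is the principally polarised abelian variety `ℂⁿ/(ℤⁿ + iℤⁿ)`,
`z_j = x_j + i ξ_j`, `ω = 2π ∑ dx_j ∧ dξ_j`. Functions on `M` are `ℤ^{2n}`-periodic functions of
`(x, ξ) ∈ Ph n = ℝⁿ × ℝⁿ`. The prequantum line bundle `L` has the sections `s(x, ξ)` with
`s(x+m, ξ) = e^{2πi m·ξ} s(x, ξ)`, `s(x, ξ+m) = s(x, ξ)` (`m ∈ ℤⁿ`), the connection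
`d - 2πi ∑ x_j dξ_j` (curvature `-iω`) and the pointwise norm `|s|`.

`V`, `Ph`, `ivec`, `IsPer`, `IsSm`, `cube`, `ip`, `nrm` are defined in `Defs.lean`. The definitions
here are the ones of `Defs.lean` cut into short pieces (they agree by unfolding).
-/

set_option autoImplicit false

open MeasureTheory Complex
open scoped ContDiff

noncomputable section

namespace H99.BTQ

open H99.EQ (V Ph ivec IsPer IsSm ip nrm)

/-- `∂f/∂x_j` -/
def dx {n : ℕ} {F : Type*} [NormedAddCommGroup F] [NormedSpace ℝ F] (j : Fin n) (f : Ph n → F)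
    (q : Ph n) : F :=
  fderiv ℝ f q (Pi.single j 1, 0)

/-- `∂f/∂ξ_j` -/
def dxi {n : ℕ} {F : Type*} [NormedAddCommGroup F] [NormedSpace ℝ F] (j : Fin n) (f : Ph n → F)
    (q : Ph n) : F :=
  fderiv ℝ f q (0, Pi.single j 1)

/-- `s(x+m, ξ) = e^{2πik m·ξ} s(x, ξ)` for `m ∈ ℤⁿ` -/
def IsQPer {n : ℕ} (k : ℕ) (s : Ph n → ℂ) : Prop :=
  ∀ (a : Fin n → ℤ) (x ξ : V n),
    s (x + ivec a, ξ) = exp (2 * Real.pi * I * k * ∑ j, (a j : ℂ) * (ξ j : ℂ)) * s (x, ξ)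

/-- `s(x, ξ+m) = s(x, ξ)` for `m ∈ ℤⁿ` -/
def IsXiPer {n : ℕ} (s : Ph n → ℂ) : Prop :=
  ∀ (a : Fin n → ℤ) (x ξ : V n), s (x, ξ + ivec a) = s (x, ξ)

/-- `(∂_{x_j} + i ∂_{ξ_j} + 2πk x_j) s = 0`: the Cauchy-Riemann equations for sections of `L^k` -/
def IsHolo {n : ℕ} (k : ℕ) (s : Ph n → ℂ) : Prop :=
  ∀ (j : Fin n) (q : Ph n), dx j s q + I * dxi j s q + 2 * Real.pi * k * (q.1 j : ℂ) * s q = 0

/-- `s` is a holomorphic section of `L^k` -/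
def IsHolSec {n : ℕ} (k : ℕ) (s : Ph n → ℂ) : Prop :=
  ContDiff ℝ ∞ s ∧ IsQPer k s ∧ IsXiPer s ∧ IsHolo k s

theorem isHolSec_add {n k : ℕ} {s t : Ph n → ℂ} (h : IsHolSec k s) (h' : IsHolSec k t) :
    IsHolSec k (s + t) := H99.EQ.Hol_add h h'

theorem isHolSec_zero {n k : ℕ} : IsHolSec k (0 : Ph n → ℂ) := H99.EQ.Hol_zero

theorem isHolSec_smul {n k : ℕ} (c : ℂ) {s : Ph n → ℂ} (h : IsHolSec k s) :
    IsHolSec k (c • s) := H99.EQ.Hol_smul c h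

/-- `H⁰(M, L^k)` -/
def Hol (n k : ℕ) : Submodule ℂ (Ph n → ℂ) where
  carrier := {s | IsHolSec k s}
  add_mem' := isHolSec_add
  zero_mem' := isHolSec_zero
  smul_mem' := fun c _ h => isHolSec_smul c h

/-- elements of `H⁰(M, L^k)` -/
abbrev Sec (n k : ℕ) : Type := Hol n k

/-- linear operators on `H⁰(M, L^k)` -/
abbrev Opr (n k : ℕ) : Type := Hol n k →ₗ[ℂ] Hol n k

/-- the section (function on `ℝ^{2n}`) underlying an element of `H⁰(M, L^k)` -/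
def sec {n k : ℕ} (s : Sec n k) : Ph n → ℂ := s

/-- `P s` -/
def ap {n k : ℕ} (P : Opr n k) (s : Sec n k) : Sec n k := P s

/-- `F_k ∼ ∑ k^{-j} f_j` in `C^∞(M)` -/
def Expands {n : ℕ} (F f : ℕ → Ph n → ℂ) : Prop :=
  ∀ N r : ℕ, ∃ C : ℝ, ∀ k : ℕ, 1 ≤ k → ∀ q : Ph n,
    ‖iteratedFDeriv ℝ r (fun q' => F k q' - ∑ j ∈ Finset.range N, ((k : ℂ) ^ j)⁻¹ * f j q') q‖
      ≤ C / (k : ℝ) ^ N

/-- `P_k = Π_k F_k Π_k + O(k^{-∞})` in operator norm on `H⁰(M, L^k)`; the operator `Π_k F_k Π_k` on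
`H⁰(M, L^k)` has the matrix elements `⟨F_k s, t⟩` -/
def IsToeplitz {n : ℕ} (P : ∀ k : ℕ, Opr n k) (F : ℕ → Ph n → ℂ) : Prop :=
  ∀ N : ℕ, ∃ C : ℝ, ∀ k : ℕ, 1 ≤ k → ∀ s t : Sec n k,
    ‖ip (sec (ap (P k) s)) (sec t) - ip (fun q => F k q * sec s q) (sec t)‖
      ≤ C / (k : ℝ) ^ N * (nrm (sec s) * nrm (sec t))

/-- Berezin-Toeplitz operators with principal symbol `p` -/
def IsBT {n : ℕ} (P : ∀ k : ℕ, Opr n k) (p : Ph n → ℝ) : Prop :=
  ∃ (F f : ℕ → Ph n → ℂ), (∀ k, IsSm (F k)) ∧ (∀ j, IsSm (f j)) ∧ (∀ q, f 0 q = (p q : ℂ)) ∧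
    Expands F f ∧ IsToeplitz P F

/-- an operator on `H⁰(M, L^k)` is self-adjoint -/
def IsSA {n k : ℕ} (P : Opr n k) : Prop :=
  ∀ s t : Sec n k, ip (sec (ap P s)) (sec t) = ip (sec s) (sec (ap P t))

/-- two operators commute -/
def Commutes {n k : ℕ} (P Q : Opr n k) : Prop :=
  ∀ s : Sec n k, ap P (ap Q s) = ap Q (ap P s)

/-- `(p_1, …, p_n)` has an exact Berezin-Toeplitz quantisation: self-adjoint Berezin-Toeplitz
operators `P_1, …, P_n` with principal symbols `p_1, …, p_n`, which commute for every `k ≥ 1`. -/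
def IsQuantised {n : ℕ} (p : Fin n → Ph n → ℝ) : Prop :=
  ∃ P : Fin n → ∀ k : ℕ, Opr n k,
    (∀ j, IsBT (P j) (p j)) ∧ (∀ j, ∀ k : ℕ, 1 ≤ k → IsSA (P j k)) ∧
    (∀ i j, ∀ k : ℕ, 1 ≤ k → Commutes (P i k) (P j k))

/-- the Poisson bracket `∑_j (∂_{ξ_j} f ∂_{x_j} g - ∂_{x_j} f ∂_{ξ_j} g)` (a constant multiple of
the Poisson bracket of `ω`) -/
def pb {n : ℕ} (f g : Ph n → ℝ) (q : Ph n) : ℝ :=
  ∑ j, (dxi j f q * dx j g q - dx j f q * dxi j g q)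

/-- the differentials of `p_1, …, p_n` at `q` are linearly independent -/
def IndepAt {n : ℕ} (p : Fin n → Ph n → ℝ) (q : Ph n) : Prop :=
  LinearIndependent ℝ fun j => fderiv ℝ (p j) q

/-- classical integrable systems on `M`: smooth real functions `p_1, …, p_n` on `M` which
Poisson-commute and have linearly independent differentials almost everywhere -/
structure IsClassical {n : ℕ} (p : Fin n → Ph n → ℝ) : Prop where
  smooth : ∀ j, ContDiff ℝ ∞ (p j)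
  per : ∀ j, IsPer (p j)
  comm : ∀ i j q, pb (p i) (p j) q = 0
  indep : ∀ᵐ q : Ph n, IndepAt p q

theorem classical_of {n : ℕ} {p : Fin n → Ph n → ℝ} (h : H99.EQ.IsClassical p) :
    IsClassical p :=
  ⟨h.smooth, h.per, h.comm, h.indep⟩

theorem quantised_of {n : ℕ} {p : Fin n → Ph n → ℝ} (h : IsQuantised p) :
    H99.EQ.IsQuantised p := h

end H99.BTQ
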