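import Pool.Agent.H99.EQ.Main
import Pool.Agent.H99.EQ.K6
import Pool.Agent.H99.EQ.C9
import Pool.Agent.H99.EQ.C11
import Pool.Agent.H99.EQ.C12
import Pool.Agent.H99.EQ.Stmt

/-!
# A classical integrable system on the torus `T⁶` without exact quantisation
-/

set_option autoImplicit false

open MeasureTheory
open scoped ContDiff

noncomputable section

namespace H99.EQ

theorem coreData : CoreData pC WC := by
  refine ⟨WC_open, WC_sub, WC_frontier, fun j => CS_of (pC_cd j) fun q hq => pC_out j hq,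
    fun j q hq => pC_out j hq, pb_pC, ?_, near_pC⟩
  filter_upwards [ae_r (5 / 64), ae_H 0, ae_S] with q h1 h2 h3 hq
  refine pC_indep hq h1 (fun h => h2 (by rw [h, mul_zero])) h3

theorem main : ∃ p : Fin 3 → Ph 3 → ℝ, IsClassical p ∧ ¬ IsQuantised p := by
  obtain ⟨P, h1, h2⟩ := classical_of_core coreData
  exact ⟨P, h1, noQuant h2⟩

/-- the same theorem for the definitions of `Stmt.lean` -/
theorem main_stmt : ∃ p : Fin 3 → Ph 3 → ℝ, H99.BTQ.IsClassical p ∧ ¬ H99.BTQ.IsQuantised p := by
  obtain ⟨p, h1, h2⟩ := main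
  exact ⟨p, H99.BTQ.classical_of h1, fun h => h2 (H99.BTQ.quantised_of h)⟩

end H99.EQ
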