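import Pool.Agent.H99.EQ.CL0
import Pool.Agent.H99.EQ.R8

/-!
# EQ-G1: gauge transformation making `e` independent of `y`

Job EQ-G1. `θ` with `Y2 θ = ν⁻¹ (e - io (mean e))` (`mean_prim`; `mean (e - io (mean e)) = 0` by
`mean_io_mul`, `mean_one`). `u, v` = `C2_exp θ` (`v = u⁻¹`). `D' = mo u * D * mo v`,
`T' = mo u * T * mo v`. `mo u * dv Y2 * mo v = dv Y2 + mo (u * Y2 v) = dv Y2 - mo (Y2 θ)`
(`0 = Y2 (u v)`), so `mo u (ν Y + e) mo v = ν Y + io (mean e)`. Principal parts: `OL_conj` (O2) with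
`D` of order `≤ 2` (`Dpr2` is `OL fr2 3`), `T` of order `≤ 3` (`Spr2` is `OL fr2 4`).
-/

set_option autoImplicit false

open Complex
open scoped ContDiff

noncomputable section

namespace H99.EQ

section GeneralRing

variable {R : Type*} [Ring R]

theorem g1_ring_mul {u v : R} (h : v * u = 1) (A B : R) :
    (u * A * v) * (u * B * v) = u * (A * B) * v := by
  calc (u * A * v) * (u * B * v) = u * A * (v * u) * B * v := by noncomm_ring
    _ = u * (A * B) * v := by rw [h]; noncomm_ring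

theorem g1_ring_comm {u v A B : R} (h : v * u = 1) (hAB : A * B = B * A) :
    (u * A * v) * (u * B * v) = (u * B * v) * (u * A * v) := by
  rw [g1_ring_mul h, g1_ring_mul h, hAB]

theorem g1_ring_sub (u v P P0 : R) :
    u * P * v - P0 = u * (P - P0) * v + (u * P0 * v - P0) := by
  noncomm_ring

end GeneralRing

section General

variable {C : Type*} [CommRing C] [Algebra ℂ C] {ι : Type*} {d : ι → Derivation ℂ C C}

theorem g1_mo_comm {u v : C} (huv : u * v = 1) {A B : Module.End ℂ C} (hAB : A * B = B * A) :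
    (mo u * A * mo v) * (mo u * B * mo v) = (mo u * B * mo v) * (mo u * A * mo v) := by
  have h : mo v * mo u = 1 := by rw [← mo_mul, mul_comm, huv, mo_one]
  exact g1_ring_comm h hAB

theorem g1_OL {m : ℕ} {u v : C} (huv : u * v = 1) {P P0 : Module.End ℂ C}
    (h0 : OL d (m + 1) P0) (hP : OL d m (P - P0)) : OL d m (mo u * P * mo v - P0) := by
  have e := g1_ring_sub (mo u) (mo v) P P0
  rw [e]
  exact (OL_rmo v (OL_lmo u hP)).add (OL_conj huv h0)

theorem g1_der {u v θ : C} (Y : Derivation ℂ C C) (huv : u * v = 1) (hu : Y u = Y θ * u) :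
    Y v = -(Y θ * v) := by
  have h1 : Y (u * v) = 0 := by rw [huv, Derivation.map_one_eq_zero]
  rw [Derivation.leibniz, smul_eq_mul, smul_eq_mul, hu] at h1
  have h2 : v * (u * Y v + v * (Y θ * u)) = v * 0 := by rw [h1]
  have h3 : v * (u * Y v + v * (Y θ * u)) = (u * v) * Y v + (u * v) * (Y θ * v) := by ring
  rw [h3, huv, mul_zero, one_mul, one_mul] at h2
  exact eq_neg_of_add_eq_zero_left h2

theorem g1_conj {u v θ e ε : C} {n : ℂ} (Y : Derivation ℂ C C) (huv : u * v = 1)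
    (hu : Y u = Y θ * u) (hθ : n • Y θ = e - ε) :
    mo u * (n • dv Y + mo e) * mo v = n • dv Y + mo ε := by
  have hv := g1_der Y huv hu
  apply LinearMap.ext
  intro g
  simp only [LinearMap.add_apply, Module.End.mul_apply, mo_apply, dv_apply, LinearMap.smul_apply,
    Derivation.leibniz, smul_eq_mul, hv]
  rw [Algebra.smul_def] at hθ
  rw [Algebra.smul_def, Algebra.smul_def]
  linear_combination (algebraMap ℂ C n * Y g - algebraMap ℂ C n * Y θ * g + e * g) * huv -
    g * hθ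

end General

theorem OL_Dpr2 : OL fr2 3 Dpr2 := by
  unfold Dpr2
  refine OL_lmo _ (OL.add ?_ ?_)
  · exact OL.comp (d := fr2) 0 (OL_dv 0)
  · exact OL.comp (d := fr2) 1 (OL_dv 1)

theorem OL_Spr2 : OL fr2 4 Spr2 := by
  unfold Spr2
  refine OL.add (OL_lmo _ (OL.add (OL_lmo _ ?_) (OL_lmo _ ?_)))
    (OL_lmo _ (OL.add (OL_lmo _ ?_) (OL_lmo _ ?_)))
  · exact OL.comp (d := fr2) 0 (OL.comp (d := fr2) 0 (OL_dv 0))
  · exact OL.comp (d := fr2) 1 (OL.comp (d := fr2) 1 (OL_dv 0))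
  · exact OL.comp (d := fr2) 1 (OL.comp (d := fr2) 0 (OL_dv 0))
  · exact OL.comp (d := fr2) 1 (OL.comp (d := fr2) 1 (OL_dv 1))

theorem g1_mean_io (f : Sm) : mean (io f) = f := by
  have h := mean_io_mul f 1
  rwa [mul_one, mean_one, mul_one] at h

theorem g1_nu : nu ≠ 0 := by
  unfold nu
  exact div_ne_zero I_ne_zero
    (mul_ne_zero two_ne_zero (by exact_mod_cast Real.pi_ne_zero))

theorem gauge1 {D T : Module.End ℂ C2} {e : C2} (hD : OL fr2 2 (D - Dpr2))
    (hT : OL fr2 3 (T - Spr2)) (hDT : D * T = T * D)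
    (hL : D * (nu • dv Y2 + mo e) = (nu • dv Y2 + mo e) * D) :
    ∃ (D' T' : Module.End ℂ C2) (e' : Sm), OL fr2 2 (D' - Dpr2) ∧ OL fr2 3 (T' - Spr2) ∧
      D' * T' = T' * D' ∧
      D' * (nu • dv Y2 + mo (io e')) = (nu • dv Y2 + mo (io e')) * D' := by
  have h0 : mean (nu⁻¹ • (e - io (mean e))) = 0 := by
    rw [map_smul, map_sub, g1_mean_io, sub_self, smul_zero]
  obtain ⟨θ, hθ⟩ := mean_prim h0
  obtain ⟨u, v, huv, -, -, hu⟩ := C2_exp θ
  have hθ' : nu • Y2 θ = e - io (mean e) := by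
    rw [hθ, smul_smul, mul_inv_cancel₀ g1_nu, one_smul]
  have hc := g1_conj Y2 huv hu hθ'
  refine ⟨mo u * D * mo v, mo u * T * mo v, mean e, g1_OL huv OL_Dpr2 hD, g1_OL huv OL_Spr2 hT,
    g1_mo_comm huv hDT, ?_⟩
  rw [← hc]
  exact g1_mo_comm huv hL

end H99.EQ
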