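import Pool.Agent.H99.EQ.CL0
import Pool.Agent.H99.EQ.CL1
import Pool.Agent.H99.EQ.R8

/-!
# EQ-G2: `D` is independent of `y`

Job EQ-G2. `D = Dpr2 + a X + b Y + c` (`OL2_form`). With `ε = io e'`, `Y2 ε = 0`:
`[Dpr2, ε] = mo (2ν²λ Xε) X + mo (ν² λ X²ε)` exactly, `[a X, ε] = mo (a Xε)`, `[b Y, ε] = 0`,
`[Dpr2, Y] = 0`, `[a X + b Y + c, ν Y] = - ν ((Ya) X + (Yb) Y + Yc)`. So `hL` says
`(2ν²λ Xε - ν Ya) X - ν (Yb) Y + (ν²λ X²ε + a Xε - ν Yc) = 0`: `top1_zero` gives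
`ν Ya = 2ν²λ Xε`, `Yb = 0`; the mean (`mean_Y2`, `mean_io_mul`) gives `λ X1 e' = 0`, so `Xε = 0`,
`Ya = 0`, then `Yc = 0`. `C2_io`.
-/

set_option autoImplicit false

open Complex
open scoped ContDiff

noncomputable section

namespace H99.EQ

section General

variable {C : Type*} [CommRing C] [Algebra ℂ C]

theorem g2_gen (X Y : Derivation ℂ C C) (hXY : ∀ g, Y (X g) = X (Y g)) (L a b c ε : C) (n : ℂ)
    (hL : Y L = 0) (hε : Y ε = 0) :
    (mo L * (dv X * dv X + dv Y * dv Y) + (mo a * dv X + mo b * dv Y + mo c)) *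
        (n • dv Y + mo ε) -
      (n • dv Y + mo ε) *
        (mo L * (dv X * dv X + dv Y * dv Y) + (mo a * dv X + mo b * dv Y + mo c)) =
    mo (2 * L * X ε - n • Y a) * dv X + mo (-(n • Y b)) * dv Y +
      mo (L * X (X ε) + a * X ε - n • Y c) := by
  apply LinearMap.ext
  intro g
  simp only [LinearMap.sub_apply, LinearMap.add_apply, Module.End.mul_apply, mo_apply, dv_apply,
    LinearMap.smul_apply, Derivation.leibniz, map_add, smul_eq_mul, map_smul, hL, hε, hXY,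
    mul_zero, add_zero]
  simp only [Algebra.smul_def]
  ring

theorem g2_top {h1 h2 h3 : C} {X Y : Derivation ℂ C C}
    (h : mo h1 * dv X + mo h2 * dv Y + mo h3 = 0) :
    mo h1 * dv X + mo h2 * dv Y = mo (-h3) := by
  rw [mo_neg]
  exact eq_neg_of_add_eq_zero_left h

theorem g2_sub {A B : Module.End ℂ C} (h : A = B) : A - B = 0 := by
  rw [h, sub_self]

theorem g2_add {D D0 E : Module.End ℂ C} (h : D - D0 = E) : D = D0 + E := by
  rw [← h]; abel

end General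

theorem g2_mean_io (f : Sm) : mean (io f) = f := by
  have h := mean_io_mul f 1
  rwa [mul_one, mean_one, mul_one] at h

theorem g2_nu : nu ≠ 0 := by
  unfold nu
  exact div_ne_zero I_ne_zero
    (mul_ne_zero two_ne_zero (by exact_mod_cast Real.pi_ne_zero))

theorem gauge2 {D : Module.End ℂ C2} {e' : Sm} (hD : OL fr2 2 (D - Dpr2))
    (hL : D * (nu • dv Y2 + mo (io e')) = (nu • dv Y2 + mo (io e')) * D) :
    ∃ μx μy μ0 : Sm, D = Dpr2 + mo (io μx) * dv X2 + mo (io μy) * dv Y2 + mo (io μ0) := by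
  obtain ⟨a, b, c, hK⟩ := OL2_form hD
  have hD2 : D = Dpr2 + (mo a * dv X2 + mo b * dv Y2 + mo c) := g2_add hK
  have hXY : ∀ g, Y2 (X2 g) = X2 (Y2 g) := by
    intro g
    have := congrArg (fun P : Module.End ℂ C2 => P g) XY_comm
    exact this.symm
  have h := g2_gen X2 Y2 hXY (cC (nu ^ 2) * io laS) a b c (io e') nu cl1_Y (Y2_io e')
  have h0 : mo (2 * (cC (nu ^ 2) * io laS) * X2 (io e') - nu • Y2 a) * dv X2 +
      mo (-(nu • Y2 b)) * dv Y2 +
      mo (cC (nu ^ 2) * io laS * X2 (X2 (io e')) + a * X2 (io e') - nu • Y2 c) = 0 := by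
    rw [← h]
    rw [hD2] at hL
    exact g2_sub hL
  have h4 := g2_top h0
  have h5 : OL fr2 1 (mo (2 * (cC (nu ^ 2) * io laS) * X2 (io e') - nu • Y2 a) * dv X2 +
      mo (-(nu • Y2 b)) * dv Y2) := by
    rw [h4]
    exact OL.mo _
  obtain ⟨ha, hb⟩ := top1_zero h5
  rw [ha, hb, mo_zero, zero_mul, zero_mul, zero_add, zero_add] at h0
  have hc : cC (nu ^ 2) * io laS * X2 (X2 (io e')) + a * X2 (io e') - nu • Y2 c = 0 := by
    apply mo_inj
    rw [h0, mo_zero]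
  have hb' : Y2 b = 0 := by
    rcases smul_eq_zero.mp (neg_eq_zero.mp hb) with h6 | h6
    · exact absurd h6 g2_nu
    · exact h6
  -- the mean
  have hm : X1 e' = 0 := by
    have e1 : 2 * (cC (nu ^ 2) * io laS) * X2 (io e') = io (2 * (cS (nu ^ 2) * laS) * X1 e') := by
      rw [X2_io, map_mul, map_mul, map_mul, map_ofNat]
      rfl
    have h7 : mean (2 * (cC (nu ^ 2) * io laS) * X2 (io e') - nu • Y2 a) = 0 := by
      rw [ha, map_zero]
    rw [map_sub, map_smul, mean_Y2, smul_zero, sub_zero, e1, g2_mean_io] at h7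
    have hu : IsUnit (2 * (cS (nu ^ 2) * laS) : Sm) := by
      have e2 : (2 * (cS (nu ^ 2) * laS) : Sm) = algebraMap ℂ Sm (2 * nu ^ 2) * laS := by
        rw [map_mul, map_ofNat, mul_assoc]
      rw [e2]
      refine IsUnit.mul ?_ laS_unit
      have h5 : (2 * nu ^ 2 : ℂ) ≠ 0 := mul_ne_zero two_ne_zero (pow_ne_zero _ g2_nu)
      exact (isUnit_iff_ne_zero.mpr h5).map (algebraMap ℂ Sm)
    exact hu.mul_right_eq_zero.mp h7
  have hX : X2 (io e') = 0 := by rw [X2_io, hm, map_zero]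
  rw [hX, mul_zero, zero_sub] at ha
  rw [hX, mul_zero, map_zero, mul_zero, zero_add, zero_sub] at hc
  have ha' : Y2 a = 0 := by
    rcases smul_eq_zero.mp (neg_eq_zero.mp ha) with h6 | h6
    · exact absurd h6 g2_nu
    · exact h6
  have hc' : Y2 c = 0 := by
    rcases smul_eq_zero.mp (neg_eq_zero.mp hc) with h6 | h6
    · exact absurd h6 g2_nu
    · exact h6
  obtain ⟨μx, rfl⟩ := C2_io ha'
  obtain ⟨μy, rfl⟩ := C2_io hb'
  obtain ⟨μ0, rfl⟩ := C2_io hc'
  refine ⟨μx, μy, μ0, ?_⟩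
  rw [hD2, ← add_assoc, ← add_assoc]

end H99.EQ
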