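import Pool.Agent.H99.EQ.G1

/-!
# EQ-G3: removing the first order `X`-term

Job EQ-G3. `θ : Sm` with `X1 θ = μx / (2 ν² λ)` (`Sm_prim`, `laS_unit`); `u, v` = `C2_exp (io θ)`.
`mo u * dv X2 * mo v = dv X2 - mo (X2 (io θ))`, `mo u` commutes with `dv Y2` (`Y2 (io θ) = 0`).
So with `θ' = X1 θ`: `mo u * (X²) * mo v = X² - 2 θ' X - θ'' + θ'²`, and
`mo u * D * mo v = Dpr2 + (μx - 2ν²λθ') X + μy Y + (μ0 - μx θ' + ν²λ(θ'² - θ''))`.
`T' = mo u * T * mo v`, `OL_conj`, `OL_Spr2`.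
-/

set_option autoImplicit false

open Complex
open scoped ContDiff

noncomputable section

namespace H99.EQ

section General

variable {C : Type*} [CommRing C] [Algebra ℂ C]

theorem g3_gen (X Y : Derivation ℂ C C) {L F b c u v : C} (huv : u * v = 1)
    (hX : X v = -(F * v)) (hY : Y v = 0) :
    mo u * (mo L * (dv X * dv X + dv Y * dv Y) + mo (2 * L * F) * dv X + mo b * dv Y + mo c) *
        mo v =
      mo L * (dv X * dv X + dv Y * dv Y) + mo b * dv Y +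
        mo (c - 2 * L * F * F + L * (F * F - X F)) := by
  apply LinearMap.ext
  intro g
  simp only [LinearMap.add_apply, Module.End.mul_apply, mo_apply, dv_apply,
    Derivation.leibniz, map_add, smul_eq_mul, hX, hY, map_neg, mul_zero, add_zero]
  linear_combination (L * (X (X g) - 2 * F * X g + (F * F - X F) * g + Y (Y g)) +
    2 * L * F * (X g - F * g) + b * Y g + c * g) * huv

end General

theorem gauge3 {D T : Module.End ℂ C2} {μx μy μ0 : Sm}
    (hD : D = Dpr2 + mo (io μx) * dv X2 + mo (io μy) * dv Y2 + mo (io μ0))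
    (hT : OL fr2 3 (T - Spr2)) (hDT : D * T = T * D) :
    ∃ (D' T' : Module.End ℂ C2) (μ μ0' : Sm), D' = Dpr2 + mo (io μ) * dv Y2 + mo (io μ0') ∧
      OL fr2 3 (T' - Spr2) ∧ D' * T' = T' * D' := by
  obtain ⟨w, hw⟩ := isUnit_iff_exists_inv.mp laS_unit
  have h2 : (2 * nu ^ 2 : ℂ) ≠ 0 := mul_ne_zero two_ne_zero (pow_ne_zero _ g1_nu)
  obtain ⟨θ, hθ⟩ := Sm_prim (cS ((2 * nu ^ 2)⁻¹) * w * μx)
  obtain ⟨u, v, huv, -, hux, huy⟩ := C2_exp (io θ)
  have hvx : X2 v = -(io (X1 θ) * v) := by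
    rw [← X2_io]
    exact g1_der X2 huv hux
  have hvy : Y2 v = 0 := by
    have := g1_der Y2 huv huy
    rw [Y2_io, zero_mul, neg_zero] at this
    exact this
  have hm : 2 * (cC (nu ^ 2) * io laS) * io (X1 θ) = io μx := by
    have e1 : 2 * (cC (nu ^ 2) * io laS) * io (X1 θ) = io (2 * (cS (nu ^ 2) * laS) * X1 θ) := by
      rw [map_mul, map_mul, map_mul, map_ofNat]
      rfl
    rw [e1, hθ]
    congr 1
    have e2 : (algebraMap ℂ Sm (2 * nu ^ 2)) * algebraMap ℂ Sm ((2 * nu ^ 2)⁻¹) = 1 := by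
      rw [← map_mul, mul_inv_cancel₀ h2, map_one]
    have e3 : algebraMap ℂ Sm (2 * nu ^ 2) = 2 * algebraMap ℂ Sm (nu ^ 2) := by
      rw [map_mul, map_ofNat]
    rw [e3] at e2
    change 2 * (algebraMap ℂ Sm (nu ^ 2) * laS) *
      (algebraMap ℂ Sm ((2 * nu ^ 2)⁻¹) * w * μx) = μx
    linear_combination (laS * w * μx) * e2 + μx * hw
  have h := g3_gen X2 Y2 (L := cC (nu ^ 2) * io laS) (b := io μy) (c := io μ0) huv hvx hvy
  rw [hm] at h
  refine ⟨mo u * D * mo v, mo u * T * mo v, μy,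
    μ0 - μx * X1 θ + cS (nu ^ 2) * laS * (X1 θ * X1 θ - X1 (X1 θ)), ?_, g1_OL huv OL_Spr2 hT,
    g1_mo_comm huv hDT⟩
  rw [hD]
  unfold Dpr2
  rw [h]
  congr 2
  rw [X2_io, map_add, map_sub, map_mul, map_mul, map_mul, map_sub, map_mul]
  rfl

end H99.EQ
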