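import Pool.Agent.H99.EQ.KDefs

/-!
# EQ-K1: periodisation

Job EQ-K1. `red (q + lattice vector) = red q` (`Int.fract_add_intCast`). `per_local`: with the
lattice vector `v = q - red q`: if `red q ∈ box`, then for `x` near `q`, `x - v ∈ box` so
`red x = x - v`. If `red q ∉ box` then `red q` has a coordinate `0` (resp. `-1/2`); `f` vanishes in a
neighbourhood of the boundary of the box (`K` compact in the open box: `δ > 0` with
`δ ≤ x_j ≤ 1 - δ`, `-1/2+δ ≤ ξ_j ≤ 1/2-δ` on `K`), and for `x` near `q` both `f (red x) = 0` and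
`f (x - v) = 0`. So in all cases `per f` is locally a translate of `f`: smoothness and bounds of
all derivatives (`iteratedFDeriv_comp_sub`, `Filter.EventuallyEq.iteratedFDeriv_eq`).
`ae_per`: countable union of translates of the null set, the complement of the union of the
translates of the open box is a countable union of hyperplanes `x_j = m`, `ξ_j = m + 1/2`.
-/

set_option autoImplicit false

open MeasureTheory
open scoped ContDiff

noncomputable section

namespace H99.EQ

variable {n : ℕ} {f : Ph n → ℝ}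

theorem box_open : IsOpen (box n) := by
  have h1 : box n = (Set.univ.pi fun _ : Fin n => Set.Ioo (0 : ℝ) 1) ×ˢ
      (Set.univ.pi fun _ : Fin n => Set.Ioo (-(1 / 2) : ℝ) (1 / 2)) := by
    ext q
    simp [box, Set.mem_pi]
  rw [h1]
  exact (isOpen_set_pi Set.finite_univ fun _ _ => isOpen_Ioo).prod
    (isOpen_set_pi Set.finite_univ fun _ _ => isOpen_Ioo)

theorem red_shift (a b : Fin n → ℤ) (q : Ph n) :
    red (q.1 + ivec a, q.2 + ivec b) = red q := by
  unfold red ivec
  ext j
  · simp only [Pi.add_apply]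
    exact Int.fract_add_intCast _ _
  · simp only [Pi.add_apply]
    have h1 : q.2 j + (b j : ℝ) + 1 / 2 = (q.2 j + 1 / 2) + (b j : ℝ) := by ring
    rw [h1, Int.fract_add_intCast]

theorem red_eq (q : Ph n) : ∃ a b : Fin n → ℤ, q = ((red q).1 + ivec a, (red q).2 + ivec b) := by
  refine ⟨fun j => ⌊q.1 j⌋, fun j => ⌊q.2 j + 1 / 2⌋, ?_⟩
  ext j
  · simp only [red, ivec, Pi.add_apply]
    exact (Int.fract_add_floor _).symm
  · simp only [red, ivec, Pi.add_apply]
    have h1 := Int.fract_add_floor (q.2 j + 1 / 2)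
    linarith

theorem red_box {q : Ph n} (h : q ∈ box n) : red q = q := by
  unfold red
  ext j
  · simp only
    exact Int.fract_eq_self.2 ⟨(h.1 j).1.le, (h.1 j).2⟩
  · simp only
    have h1 := h.2 j
    have h2 : Int.fract (q.2 j + 1 / 2) = q.2 j + 1 / 2 :=
      Int.fract_eq_self.2 ⟨by linarith [h1.1], by linarith [h1.2]⟩
    rw [h2]
    ring

theorem per_per (f : Ph n → ℝ) : IsPer (per f) := by
  intro a b q
  unfold per
  rw [red_shift]

theorem k1_red_red (q : Ph n) : red (red q) = red q := by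
  obtain ⟨a, b, h⟩ := red_eq q
  conv_rhs => rw [h]
  rw [red_shift]

theorem k1_cos (t : ℝ) : Real.cos (2 * Real.pi * Int.fract t) = Real.cos (2 * Real.pi * t) := by
  rw [← Real.cos_sub_int_mul_two_pi (2 * Real.pi * t) ⌊t⌋]
  congr 1
  unfold Int.fract
  ring

theorem k1_cos_ne {t : ℝ} (h0 : 0 < t) (h1 : t < 1) : Real.cos (2 * Real.pi * t) ≠ 1 := by
  intro h
  obtain ⟨m, hm⟩ := (Real.cos_eq_one_iff _).1 h
  have hpi := Real.pi_pos
  have h2 : (m : ℝ) = t := by
    have h3 : (2 * Real.pi) * m = (2 * Real.pi) * t := by linarith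
    exact mul_left_cancel₀ (by positivity) h3
  rw [← h2] at h0 h1
  have h4 : (0 : ℤ) < m := by exact_mod_cast h0
  have h5 : m < (1 : ℤ) := by exact_mod_cast h1
  omega

theorem k1_gen {K : Set (Ph n)} (hK : IsCompact K) (φ : Ph n → ℝ) (hc : Continuous φ)
    (hp : ∀ y, φ (red y) = φ y) (q0 : Ph n) (h : φ q0 ∉ φ '' K) :
    ∀ᶠ y in nhds q0, red y ∉ K := by
  have h1 : IsClosed (φ '' K) := (hK.image hc).isClosed
  have h2 : ∀ᶠ y in nhds q0, φ y ∈ (φ '' K)ᶜ :=
    hc.continuousAt.eventually (h1.isOpen_compl.mem_nhds h)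
  filter_upwards [h2] with y hy hyK
  exact hy ⟨red y, hyK, hp y⟩

theorem k1_notK {K : Set (Ph n)} (hK : IsCompact K) (hKb : K ⊆ box n) {q0 : Ph n}
    (h : red q0 ∉ box n) : ∀ᶠ y in nhds q0, red y ∉ K := by
  by_cases h1 : ∀ j, (red q0).1 j ∈ Set.Ioo (0 : ℝ) 1
  · have h2 : ¬ ∀ j, (red q0).2 j ∈ Set.Ioo (-(1 / 2) : ℝ) (1 / 2) := fun h2 => h ⟨h1, h2⟩
    push Not at h2
    obtain ⟨j, hj⟩ := h2
    have h3 : Int.fract (q0.2 j + 1 / 2) = 0 := by
      by_contra h4
      apply hj
      have h5 := Int.fract_nonneg (q0.2 j + 1 / 2)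
      have h6 := Int.fract_lt_one (q0.2 j + 1 / 2)
      have h7 : 0 < Int.fract (q0.2 j + 1 / 2) := lt_of_le_of_ne h5 (Ne.symm h4)
      simp only [red, Set.mem_Ioo]
      constructor <;> linarith
    refine k1_gen hK (fun y => Real.cos (2 * Real.pi * (y.2 j + 1 / 2))) (by fun_prop) ?_ q0 ?_
    · intro y
      simp only [red, sub_add_cancel]
      exact k1_cos _
    · rintro ⟨y, hyK, hy⟩
      simp only at hy
      have h4 : Real.cos (2 * Real.pi * (q0.2 j + 1 / 2)) = 1 := by
        rw [← k1_cos, h3]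
        simp
      rw [h4] at hy
      have h5 := (hKb hyK).2 j
      exact k1_cos_ne (by linarith [h5.1]) (by linarith [h5.2]) hy
  · push Not at h1
    obtain ⟨j, hj⟩ := h1
    have h3 : Int.fract (q0.1 j) = 0 := by
      by_contra h4
      apply hj
      have h5 := Int.fract_nonneg (q0.1 j)
      have h6 := Int.fract_lt_one (q0.1 j)
      exact ⟨lt_of_le_of_ne h5 (Ne.symm h4), h6⟩
    refine k1_gen hK (fun y => Real.cos (2 * Real.pi * y.1 j)) (by fun_prop) ?_ q0 ?_
    · intro y
      simp only [red]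
      exact k1_cos _
    · rintro ⟨y, hyK, hy⟩
      simp only at hy
      have h4 : Real.cos (2 * Real.pi * q0.1 j) = 1 := by
        rw [← k1_cos, h3]
        simp
      rw [h4] at hy
      have h5 := (hKb hyK).1 j
      exact k1_cos_ne h5.1 h5.2 hy

theorem k1_core (hf : CS f) {q0 : Ph n} (h : red q0 = q0) :
    ∀ᶠ y in nhds q0, f (red y) = f y := by
  obtain ⟨K, hK, hKb, hK0⟩ := hf.supp
  by_cases hb : q0 ∈ box n
  · filter_upwards [box_open.mem_nhds hb] with y hy
    rw [red_box hy]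
  · have h1 : red q0 ∉ box n := by rwa [h]
    have h2 := k1_notK hK hKb h1
    have h3 : ∀ᶠ y in nhds q0, y ∈ Kᶜ :=
      hK.isClosed.isOpen_compl.mem_nhds (fun hq => hb (hKb hq))
    filter_upwards [h2, h3] with y hy1 hy2
    rw [hK0 _ hy1, hK0 _ hy2]

theorem per_local (hf : CS f) (q : Ph n) : per f =ᶠ[nhds q] fun x => f (x - (q - red q)) := by
  obtain ⟨a, b, hab⟩ := red_eq q
  have hv : q - red q = (ivec a, ivec b) := by
    conv_lhs => lhs; rw [hab]
    ext j <;> simp
  rw [hv]
  have hq0 : q - (ivec a, ivec b) = red q := by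
    rw [← hv]
    abel
  have h1 := k1_core hf (k1_red_red q)
  have hc : ContinuousAt (fun x : Ph n => x - (ivec a, ivec b)) q := by fun_prop
  have h2 : ∀ᶠ x in nhds q, f (red (x - (ivec a, ivec b))) = f (x - (ivec a, ivec b)) := by
    have h3 : ∀ᶠ y in nhds (q - (ivec a, ivec b)), f (red y) = f y := by rw [hq0]; exact h1
    exact hc.eventually h3
  filter_upwards [h2] with x hx
  rw [← hx]
  unfold per
  congr 1
  have h4 : x = ((x - (ivec a, ivec b)).1 + ivec a, (x - (ivec a, ivec b)).2 + ivec b) := by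
    ext j <;> simp
  conv_lhs => rw [h4]
  rw [red_shift]

theorem per_smooth (hf : CS f) : ContDiff ℝ ∞ (per f) := by
  rw [contDiff_iff_contDiffAt]
  intro q
  have h1 : ContDiff ℝ ∞ fun x => f (x - (q - red q)) :=
    hf.smooth.comp (contDiff_id.sub contDiff_const)
  exact h1.contDiffAt.congr_of_eventuallyEq (per_local hf q)

theorem per_eq (hf : CS f) {q : Ph n} (h : q ∈ box n) : per f =ᶠ[nhds q] f := by
  filter_upwards [box_open.mem_nhds h] with y hy
  unfold per
  rw [red_box hy]

theorem per_zero (hf : CS f) {q : Ph n} (h : red q ∉ box n) : per f =ᶠ[nhds q] 0 := by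
  obtain ⟨K, hK, hKb, hK0⟩ := hf.supp
  filter_upwards [k1_notK hK hKb h] with y hy
  exact hK0 _ hy

/-- the derivatives of compactly supported smooth functions are bounded -/
theorem CS_bound (hf : CS f) (k : ℕ) : ∃ B : ℝ, ∀ x, ‖iteratedFDeriv ℝ k f x‖ ≤ B := by
  obtain ⟨K, hK, _, hK0⟩ := hf.supp
  have h1 : HasCompactSupport f := HasCompactSupport.intro hK hK0
  exact (h1.iteratedFDeriv k).exists_bound_of_continuous
    (hf.smooth.continuous_iteratedFDeriv (by exact_mod_cast le_top))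

theorem per_bound (hf : CS f) (k : ℕ) : ∃ B : ℝ, ∀ x, ‖iteratedFDeriv ℝ k (per f) x‖ ≤ B := by
  obtain ⟨B, hB⟩ := CS_bound hf k
  refine ⟨B, fun x => ?_⟩
  rw [(Filter.EventuallyEq.iteratedFDeriv ℝ (per_local hf x) k).eq_of_nhds,
    iteratedFDeriv_comp_sub]
  exact hB _

theorem fderiv_shift (h : IsPer f) (a b : Fin n → ℤ) (q : Ph n) :
    fderiv ℝ f (q.1 + ivec a, q.2 + ivec b) = fderiv ℝ f q := by
  have h1 : (q.1 + ivec a, q.2 + ivec b) = q + (ivec a, ivec b) := rfl
  have h2 : (fun x : Ph n => f (x + (ivec a, ivec b))) = f := by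
    funext x
    exact h a b x
  rw [h1, ← fderiv_comp_add_right, h2]

theorem ae_per {P : Ph n → Prop} (hP : ∀ (a b : Fin n → ℤ) (q : Ph n),
    P q → P (q.1 + ivec a, q.2 + ivec b)) (h : ∀ᵐ q : Ph n, q ∈ box n → P q) :
    ∀ᵐ q : Ph n, P q := by
  have h1 : ∀ᵐ q : Ph n, ∀ c : (Fin n → ℤ) × (Fin n → ℤ),
      q - (ivec c.1, ivec c.2) ∈ box n → P (q - (ivec c.1, ivec c.2)) := by
    rw [ae_all_iff]
    intro c
    haveI : ((volume : Measure (V n)).prod (volume : Measure (V n))).IsAddRightInvariant :=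
      inferInstance
    exact (measurePreserving_sub_right ((volume : Measure (V n)).prod (volume : Measure (V n)))
      (ivec c.1, ivec c.2)).quasiMeasurePreserving.ae h
  have hZ : ∀ᵐ t : ℝ, t ∉ Set.range (fun m : ℤ => (m : ℝ)) :=
    (Set.countable_range _).ae_notMem volume
  have hZ2 : ∀ᵐ t : ℝ, t ∉ Set.range (fun m : ℤ => (m : ℝ) - 1 / 2) :=
    (Set.countable_range _).ae_notMem volume
  have h2 : ∀ᵐ q : Ph n, ∀ j, q.1 j ∉ Set.range (fun m : ℤ => (m : ℝ)) := by
    rw [ae_all_iff]
    intro j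
    exact ((Measure.quasiMeasurePreserving_eval (fun _ : Fin n => (volume : Measure ℝ)) j).comp
      (Measure.quasiMeasurePreserving_fst (μ := (volume : Measure (V n)))
        (ν := (volume : Measure (V n))))).ae hZ
  have h3 : ∀ᵐ q : Ph n, ∀ j, q.2 j ∉ Set.range (fun m : ℤ => (m : ℝ) - 1 / 2) := by
    rw [ae_all_iff]
    intro j
    exact ((Measure.quasiMeasurePreserving_eval (fun _ : Fin n => (volume : Measure ℝ)) j).comp
      (Measure.quasiMeasurePreserving_snd (μ := (volume : Measure (V n)))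
        (ν := (volume : Measure (V n))))).ae hZ2
  filter_upwards [h1, h2, h3] with q hq1 hq2 hq3
  obtain ⟨a, b, hab⟩ := red_eq q
  have hq0 : q - (ivec a, ivec b) = red q := by
    conv_lhs => lhs; rw [hab]
    ext j <;> simp
  have hbox : red q ∈ box n := by
    constructor
    · intro j
      refine ⟨lt_of_le_of_ne (Int.fract_nonneg _) ?_, Int.fract_lt_one _⟩
      intro h4
      apply hq2 j
      refine ⟨⌊q.1 j⌋, ?_⟩
      have h5 := Int.fract_add_floor (q.1 j)
      have h4' : Int.fract (q.1 j) = 0 := h4.symm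
      rw [h4', zero_add] at h5
      exact h5
    · intro j
      have h5 := Int.fract_nonneg (q.2 j + 1 / 2)
      have h6 := Int.fract_lt_one (q.2 j + 1 / 2)
      have h7 : Int.fract (q.2 j + 1 / 2) ≠ 0 := by
        intro h4
        apply hq3 j
        refine ⟨⌊q.2 j + 1 / 2⌋, ?_⟩
        have h8 := Int.fract_add_floor (q.2 j + 1 / 2)
        rw [h4, zero_add] at h8
        simp only
        linarith
      have h9 : 0 < Int.fract (q.2 j + 1 / 2) := lt_of_le_of_ne h5 (Ne.symm h7)
      simp only [red, Set.mem_Ioo]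
      constructor <;> linarith
  have h4 := hq1 (a, b)
  simp only at h4
  rw [hq0] at h4
  have h5 := hP a b _ (h4 hbox)
  rw [← hab] at h5
  exact h5

end H99.EQ
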