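import Pool.Agent.H99.EQ.KDefs

/-!
# EQ-K2: smooth sums with small coefficients

Job EQ-K2. `B i k ≥ 0` bounds of the `k`-th derivative of `F i`,
`c i = 2^(-encode i) / (1 + ∑_{k ≤ encode i} B i k)`. For fixed `k`, `c i * B i k ≤ 2^(-encode i)`
for all `i` with `encode i ≥ k`, i.e. for all but finitely many `i`: summable. `contDiff_tsum`
(all orders) and `fderiv_tsum` (or `hasFDerivAt_tsum`).
-/

set_option autoImplicit false

open MeasureTheory
open scoped ContDiff

noncomputable section

namespace H99.EQ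

theorem smooth_sum {E : Type*} [NormedAddCommGroup E] [NormedSpace ℝ E] {ι : Type*} [Encodable ι]
    {F : ι → E → ℝ} (hF : ∀ i, ContDiff ℝ ∞ (F i))
    (hb : ∀ (i : ι) (k : ℕ), ∃ B : ℝ, ∀ x, ‖iteratedFDeriv ℝ k (F i) x‖ ≤ B) :
    ∃ c : ι → ℝ, (∀ i, 0 < c i) ∧ ContDiff ℝ ∞ (fun x => ∑' i, c i * F i x) ∧
      ∀ x, fderiv ℝ (fun x => ∑' i, c i * F i x) x = ∑' i, c i • fderiv ℝ (F i) x := by
  choose B hB using hb
  have hB0 : ∀ i k, 0 ≤ B i k := fun i k => (norm_nonneg _).trans (hB i k 0)
  obtain ⟨S, hS⟩ : ∃ S : ι → ℝ, ∀ i, S i =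
      ∑ k ∈ Finset.range (Encodable.encode i + 1), B i k := ⟨_, fun _ => rfl⟩
  have hS0 : ∀ i, 0 ≤ S i := fun i => by
    rw [hS]
    exact Finset.sum_nonneg fun k _ => hB0 i k
  obtain ⟨c, hcdef⟩ : ∃ c : ι → ℝ, ∀ i, c i =
      (1 / 2 : ℝ) ^ (Encodable.encode i) / (1 + S i) := ⟨_, fun _ => rfl⟩
  have hc : ∀ i, 0 < c i := fun i => by
    rw [hcdef]
    have := hS0 i
    positivity
  have hgeo : Summable fun i : ι => ((1 / 2 : ℝ) ^ (Encodable.encode i)) :=
    summable_geometric_two.comp_injective Encodable.encode_injective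
  have hsum : ∀ k : ℕ, Summable fun i => c i * B i k := by
    intro k
    refine Summable.of_norm_bounded_eventually hgeo ?_
    have hfin : {i : ι | Encodable.encode i < k}.Finite :=
      (Set.finite_Iio k).preimage Encodable.encode_injective.injOn
    rw [Filter.eventually_cofinite]
    refine hfin.subset ?_
    intro i hi
    by_contra hik
    apply hi
    have hki : k ≤ Encodable.encode i := not_lt.1 hik
    have hBS : B i k ≤ S i := by
      rw [hS]
      exact Finset.single_le_sum (f := fun k => B i k) (fun k _ => hB0 i k)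
        (Finset.mem_range.2 (Nat.lt_succ_of_le hki))
    have h1 : 0 ≤ c i * B i k := mul_nonneg (hc i).le (hB0 i k)
    rw [Real.norm_of_nonneg h1, hcdef, div_mul_eq_mul_div, div_le_iff₀ (by linarith [hS0 i])]
    have h2 : (0 : ℝ) ≤ (1 / 2 : ℝ) ^ (Encodable.encode i) := by positivity
    nlinarith
  have hcd : ∀ i, ContDiff ℝ ∞ fun x => c i * F i x := fun i => contDiff_const.mul (hF i)
  have hbd : ∀ (k : ℕ) (i : ι) (x : E),
      ‖iteratedFDeriv ℝ k (fun x => c i * F i x) x‖ ≤ c i * B i k := by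
    intro k i x
    have e : (fun x => c i * F i x) = c i • F i := rfl
    have hk : ContDiffAt ℝ k (F i) x := ((hF i).of_le (by exact_mod_cast le_top)).contDiffAt
    rw [e, iteratedFDeriv_const_smul_apply hk, norm_smul, Real.norm_of_nonneg (hc i).le]
    exact mul_le_mul_of_nonneg_left (hB i k x) (hc i).le
  refine ⟨c, hc, ?_, ?_⟩
  · exact contDiff_tsum (N := ⊤) (v := fun k i => c i * B i k) hcd (fun k _ => hsum k)
      (fun k i x _ => hbd k i x)
  · intro x
    have h0 : Summable fun i => c i * F i x := by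
      refine Summable.of_norm_bounded (hsum 0) fun i => ?_
      have := hbd 0 i x
      rwa [norm_iteratedFDeriv_zero] at this
    have hd : ∀ i, Differentiable ℝ (F i) := fun i => (hF i).differentiable (by simp)
    have hfd : ∀ i y, fderiv ℝ (fun x => c i * F i x) y = c i • fderiv ℝ (F i) y := fun i y =>
      fderiv_const_mul (hd i y) (c i)
    have h1 : ∀ i y, ‖fderiv ℝ (fun x => c i * F i x) y‖ ≤ c i * B i 1 := by
      intro i y
      have := hbd 1 i y
      rwa [norm_iteratedFDeriv_one] at this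
    rw [fderiv_tsum_apply (hsum 1) (fun i => (hcd i).differentiable (by simp)) h1 h0 x]
    exact tsum_congr fun i => hfd i x

end H99.EQ
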