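import Pool.Agent.H99.EQ.KDefs

/-!
# EQ-K3: an integrable system supported in a cube

Job EQ-K3. One variable: `b c r x = expNegInvGlue (x - c + r) * expNegInvGlue (c + r - x)`: smooth,
zero for `|x - c| ≥ r`, positive inside, derivative
`b * (1/(x-c+r)² - 1/(c+r-x)²)`, zero inside only at `x = c`.
`g k q = b (c.1 k) r (q.1 k) * b (c.2 k) r (q.2 k)`, `Π = ∏_k g k`, `f j = g j * Π`.
(The norm of `Ph 3 = V 3 × V 3` is the sup norm, so `closedBall c r` is a cube.)
* `pb (g i) (g j) = 0` (different pairs of variables; `i = j`: antisymmetry), and `pb` is a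
  bilinear antisymmetric form in the differentials; `d (f j) = Π d(g j) + g j ∑_k (∏_{l≠k} g l) d(g k)`
  is a combination of the `d (g k)`, so `pb (f i) (f j) = 0`.
* independence at `q` in the open cube with `q.1 k ≠ c.1 k` for all `k`: the covectors
  `e k = d(g k)/g k` are independent (`e k (Pi.single k 1, 0) = b'/b ≠ 0`,
  `e k (Pi.single l 1, 0) = 0` for `l ≠ k`), `d (f j) = g j Π (e j + ∑_k e k)`, and the matrix
  `1 + J` (`J` all ones) is invertible: evaluate a linear relation on `(Pi.single l 1, 0)`.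
* the exceptional set (boundary of the cube and hyperplanes `q.1 k = c.1 k`) is null:
  `Convex.addHaar_frontier`, `Measure.addHaar_affineSubspace` or `measure_prod_null`/`volume_pi`.
-/

set_option autoImplicit false

open MeasureTheory
open scoped ContDiff

noncomputable section

namespace H99.EQ

/-- the bump of one variable -/
def kcb (c r x : ℝ) : ℝ := expNegInvGlue (r ^ 2 - (x - c) ^ 2)

theorem kcb_smooth (c r : ℝ) : ContDiff ℝ ∞ (kcb c r) := by
  unfold kcb
  exact expNegInvGlue.contDiff.comp (contDiff_const.sub ((contDiff_id.sub contDiff_const).pow 2))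

theorem kcb_pos {c r x : ℝ} (h : |x - c| < r) : 0 < kcb c r x := by
  unfold kcb
  apply expNegInvGlue.pos_of_pos
  have := abs_nonneg (x - c)
  have h2 : (x - c) ^ 2 = |x - c| ^ 2 := (sq_abs _).symm
  rw [h2]
  nlinarith

theorem kcb_zero {c r x : ℝ} (hr : 0 < r) (h : r ≤ |x - c|) : kcb c r x = 0 := by
  unfold kcb
  apply expNegInvGlue.zero_of_nonpos
  have h2 : (x - c) ^ 2 = |x - c| ^ 2 := (sq_abs _).symm
  rw [h2]
  nlinarith

theorem kglue_deriv {y : ℝ} (hy : 0 < y) :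
    HasDerivAt expNegInvGlue (Real.exp (-y⁻¹) * (y ^ 2)⁻¹) y := by
  have h1 : HasDerivAt (fun x : ℝ => Real.exp (-x⁻¹)) (Real.exp (-y⁻¹) * (y ^ 2)⁻¹) y := by
    have h2 := ((hasDerivAt_inv hy.ne').neg).exp
    simpa using h2
  refine h1.congr_of_eventuallyEq ?_
  filter_upwards [lt_mem_nhds hy] with x hx
  unfold expNegInvGlue
  rw [if_neg (not_le.2 hx)]

theorem kcb_deriv {c r x : ℝ} (h : |x - c| < r) (hx : x ≠ c) : deriv (kcb c r) x ≠ 0 := by
  have hy : 0 < r ^ 2 - (x - c) ^ 2 := by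
    have := abs_nonneg (x - c)
    have h2 : (x - c) ^ 2 = |x - c| ^ 2 := (sq_abs _).symm
    rw [h2]
    nlinarith
  have h1 : HasDerivAt (fun x : ℝ => r ^ 2 - (x - c) ^ 2) (-(2 * (x - c))) x := by
    have := (((hasDerivAt_id x).sub_const c).pow 2).const_sub (r ^ 2)
    simpa using this
  have h2 : HasDerivAt (kcb c r) _ x := (kglue_deriv hy).comp x h1
  rw [h2.deriv]
  have h3 : x - c ≠ 0 := sub_ne_zero.2 hx
  have h4 := (Real.exp_pos (-(r ^ 2 - (x - c) ^ 2)⁻¹)).ne'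
  have h5 : ((r ^ 2 - (x - c) ^ 2) ^ 2)⁻¹ ≠ 0 := inv_ne_zero (pow_ne_zero 2 hy.ne')
  exact mul_ne_zero (mul_ne_zero h4 h5) (neg_ne_zero.2 (mul_ne_zero two_ne_zero h3))

/-- the bump of one pair of variables -/
def kcg (c : Ph 3) (r : ℝ) (k : Fin 3) (q : Ph 3) : ℝ :=
  kcb (c.1 k) r (q.1 k) * kcb (c.2 k) r (q.2 k)

/-- the functions `f j` -/
def kcf (c : Ph 3) (r : ℝ) (j : Fin 3) (q : Ph 3) : ℝ :=
  kcg c r j q * (kcg c r 0 q * kcg c r 1 q * kcg c r 2 q)

theorem kcg_smooth (c : Ph 3) (r : ℝ) (k : Fin 3) : ContDiff ℝ ∞ (kcg c r k) := by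
  have h1 : ContDiff ℝ ∞ (fun q : Ph 3 => q.1 k) := (contDiff_apply ℝ ℝ k).comp contDiff_fst
  have h2 : ContDiff ℝ ∞ (fun q : Ph 3 => q.2 k) := (contDiff_apply ℝ ℝ k).comp contDiff_snd
  exact ((kcb_smooth _ r).comp h1).mul ((kcb_smooth _ r).comp h2)

theorem kcg_fderiv (c : Ph 3) (r : ℝ) (k : Fin 3) (q v : Ph 3) :
    fderiv ℝ (kcg c r k) q v = deriv (kcb (c.1 k) r) (q.1 k) * kcb (c.2 k) r (q.2 k) * v.1 k +
      kcb (c.1 k) r (q.1 k) * deriv (kcb (c.2 k) r) (q.2 k) * v.2 k := by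
  have e1 : HasFDerivAt (fun q : Ph 3 => q.1 k)
      ((ContinuousLinearMap.proj (R := ℝ) (φ := fun _ : Fin 3 => ℝ) k).comp
        (ContinuousLinearMap.fst ℝ (V 3) (V 3))) q :=
    ((ContinuousLinearMap.proj (R := ℝ) (φ := fun _ : Fin 3 => ℝ) k).comp
        (ContinuousLinearMap.fst ℝ (V 3) (V 3))).hasFDerivAt
  have e2 : HasFDerivAt (fun q : Ph 3 => q.2 k)
      ((ContinuousLinearMap.proj (R := ℝ) (φ := fun _ : Fin 3 => ℝ) k).comp
        (ContinuousLinearMap.snd ℝ (V 3) (V 3))) q :=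
    ((ContinuousLinearMap.proj (R := ℝ) (φ := fun _ : Fin 3 => ℝ) k).comp
        (ContinuousLinearMap.snd ℝ (V 3) (V 3))).hasFDerivAt
  have d1 : HasDerivAt (kcb (c.1 k) r) (deriv (kcb (c.1 k) r) (q.1 k)) (q.1 k) :=
    ((kcb_smooth _ r).differentiable (by simp) _).hasDerivAt
  have d2 : HasDerivAt (kcb (c.2 k) r) (deriv (kcb (c.2 k) r) (q.2 k)) (q.2 k) :=
    ((kcb_smooth _ r).differentiable (by simp) _).hasDerivAt
  have h1 := d1.comp_hasFDerivAt q e1
  have h2 := d2.comp_hasFDerivAt q e2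
  have h3 : HasFDerivAt (kcg c r k) _ q := h1.mul h2
  rw [h3.fderiv]
  simp
  ring

theorem kcf_smooth (c : Ph 3) (r : ℝ) (j : Fin 3) : ContDiff ℝ ∞ (kcf c r j) :=
  (kcg_smooth c r j).mul (((kcg_smooth c r 0).mul (kcg_smooth c r 1)).mul (kcg_smooth c r 2))

theorem kcf_fderiv (c : Ph 3) (r : ℝ) (j : Fin 3) (q v : Ph 3) :
    fderiv ℝ (kcf c r j) q v = fderiv ℝ (kcg c r j) q v * (kcg c r 0 q * kcg c r 1 q * kcg c r 2 q) +
      kcg c r j q * ((fderiv ℝ (kcg c r 0) q v * kcg c r 1 q + kcg c r 0 q * fderiv ℝ (kcg c r 1) q v) *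
        kcg c r 2 q + kcg c r 0 q * kcg c r 1 q * fderiv ℝ (kcg c r 2) q v) := by
  have hg : ∀ k, HasFDerivAt (kcg c r k) (fderiv ℝ (kcg c r k) q) q := fun k =>
    ((kcg_smooth c r k).differentiable (by simp) q).hasFDerivAt
  have h : HasFDerivAt (kcf c r j) _ q := (hg j).mul (((hg 0).mul (hg 1)).mul (hg 2))
  rw [h.fderiv]
  simp
  ring

theorem kae_one (k : Fin 3) (a : ℝ) : ∀ᵐ q : Ph 3, q.1 k ≠ a := by
  have h1 : Measure.QuasiMeasurePreserving (fun q : Ph 3 => q.1 k) volume volume :=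
    (Measure.quasiMeasurePreserving_eval (fun _ : Fin 3 => (volume : Measure ℝ)) k).comp
      Measure.quasiMeasurePreserving_fst
  exact h1.ae (compl_mem_ae_iff.2 (measure_singleton a))

theorem kae_two (k : Fin 3) (a : ℝ) : ∀ᵐ q : Ph 3, q.2 k ≠ a := by
  have h1 : Measure.QuasiMeasurePreserving (fun q : Ph 3 => q.2 k) volume volume :=
    (Measure.quasiMeasurePreserving_eval (fun _ : Fin 3 => (volume : Measure ℝ)) k).comp
      Measure.quasiMeasurePreserving_snd
  exact h1.ae (compl_mem_ae_iff.2 (measure_singleton a))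

theorem cube_fun (c : Ph 3) {r : ℝ} (hr : 0 < r) :
    ∃ f : Fin 3 → Ph 3 → ℝ, (∀ j, ContDiff ℝ ∞ (f j)) ∧
      (∀ j q, q ∉ Metric.closedBall c r → f j q = 0) ∧
      (∀ (i j : Fin 3) (q : Ph 3), pb (f i) (f j) q = 0) ∧
      (∀ᵐ q : Ph 3, q ∈ Metric.closedBall c r →
        LinearIndependent ℝ fun j => fderiv ℝ (f j) q) := by
  refine ⟨kcf c r, kcf_smooth c r, fun j q hq => ?_, fun i j q => ?_, ?_⟩
  · by_contra hne
    apply hq
    unfold kcf at hne
    have h1 := right_ne_zero_of_mul hne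
    have hk : ∀ k, kcg c r k q ≠ 0 := by
      intro k
      fin_cases k
      · exact left_ne_zero_of_mul (left_ne_zero_of_mul h1)
      · exact right_ne_zero_of_mul (left_ne_zero_of_mul h1)
      · exact right_ne_zero_of_mul h1
    rw [Metric.mem_closedBall, Prod.dist_eq]
    refine max_le ((dist_pi_le_iff hr.le).2 fun k => ?_) ((dist_pi_le_iff hr.le).2 fun k => ?_)
    · rw [Real.dist_eq]
      by_contra hlt
      exact left_ne_zero_of_mul (hk k) (kcb_zero hr (not_le.1 hlt).le)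
    · rw [Real.dist_eq]
      by_contra hlt
      exact right_ne_zero_of_mul (hk k) (kcb_zero hr (not_le.1 hlt).le)
  · unfold pb
    simp only [kcf_fderiv, kcg_fderiv, Fin.sum_univ_three]
    fin_cases i <;> fin_cases j <;> simp <;> ring
  · have a1 : ∀ᵐ q : Ph 3, ∀ k, q.1 k ≠ c.1 k := ae_all_iff.2 fun k => kae_one k _
    have a2 : ∀ᵐ q : Ph 3, ∀ k, q.1 k ≠ c.1 k + r := ae_all_iff.2 fun k => kae_one k _
    have a3 : ∀ᵐ q : Ph 3, ∀ k, q.1 k ≠ c.1 k - r := ae_all_iff.2 fun k => kae_one k _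
    have a4 : ∀ᵐ q : Ph 3, ∀ k, q.2 k ≠ c.2 k + r := ae_all_iff.2 fun k => kae_two k _
    have a5 : ∀ᵐ q : Ph 3, ∀ k, q.2 k ≠ c.2 k - r := ae_all_iff.2 fun k => kae_two k _
    filter_upwards [a1, a2, a3, a4, a5] with q h1 h2 h3 h4 h5 hq
    rw [Metric.mem_closedBall, Prod.dist_eq, max_le_iff, dist_pi_le_iff hr.le,
      dist_pi_le_iff hr.le] at hq
    have i1 : ∀ k, |q.1 k - c.1 k| < r := by
      intro k
      have h := hq.1 k
      rw [Real.dist_eq] at h
      refine lt_of_le_of_ne h fun he => ?_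
      rcases abs_choice (q.1 k - c.1 k) with h' | h'
      · exact h2 k (by linarith)
      · exact h3 k (by linarith)
    have i2 : ∀ k, |q.2 k - c.2 k| < r := by
      intro k
      have h := hq.2 k
      rw [Real.dist_eq] at h
      refine lt_of_le_of_ne h fun he => ?_
      rcases abs_choice (q.2 k - c.2 k) with h' | h'
      · exact h4 k (by linarith)
      · exact h5 k (by linarith)
    have gpos : ∀ k, 0 < kcg c r k q := fun k => mul_pos (kcb_pos (i1 k)) (kcb_pos (i2 k))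
    have hU : ∀ k, deriv (kcb (c.1 k) r) (q.1 k) * kcb (c.2 k) r (q.2 k) ≠ 0 := fun k =>
      mul_ne_zero (kcb_deriv (i1 k) (h1 k)) (kcb_pos (i2 k)).ne'
    rw [Fintype.linearIndependent_iff]
    intro w hw
    have key : ∀ v : Ph 3, ∑ j, w j * fderiv ℝ (kcf c r j) q v = 0 := by
      intro v
      have := congrArg (fun L : Ph 3 →L[ℝ] ℝ => L v) hw
      simpa using this
    simp only [kcf_fderiv, kcg_fderiv, Fin.sum_univ_three] at key
    have k0 := key (Pi.single 0 1, 0)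
    have k1 := key (Pi.single 1 1, 0)
    have k2 := key (Pi.single 2 1, 0)
    have p0 := gpos 0
    have p1 := gpos 1
    have p2 := gpos 2
    have u0 := hU 0
    have u1 := hU 1
    have u2 := hU 2
    generalize kcg c r 0 q = g0 at *
    generalize kcg c r 1 q = g1 at *
    generalize kcg c r 2 q = g2 at *
    generalize deriv (kcb (c.1 0) r) (q.1 0) * kcb (c.2 0) r (q.2 0) = U0 at *
    generalize deriv (kcb (c.1 1) r) (q.1 1) * kcb (c.2 1) r (q.2 1) = U1 at *
    generalize deriv (kcb (c.1 2) r) (q.1 2) * kcb (c.2 2) r (q.2 2) = U2 at *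
    simp at k0 k1 k2
    have e0 : w 0 * g0 + (w 0 * g0 + w 1 * g1 + w 2 * g2) = 0 := by
      have : (U0 * g1 * g2) * (w 0 * g0 + (w 0 * g0 + w 1 * g1 + w 2 * g2)) = 0 := by
        linear_combination k0
      exact (mul_eq_zero.1 this).resolve_left (mul_ne_zero (mul_ne_zero u0 p1.ne') p2.ne')
    have e1 : w 1 * g1 + (w 0 * g0 + w 1 * g1 + w 2 * g2) = 0 := by
      have : (U1 * g0 * g2) * (w 1 * g1 + (w 0 * g0 + w 1 * g1 + w 2 * g2)) = 0 := by
        linear_combination k1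
      exact (mul_eq_zero.1 this).resolve_left (mul_ne_zero (mul_ne_zero u1 p0.ne') p2.ne')
    have e2 : w 2 * g2 + (w 0 * g0 + w 1 * g1 + w 2 * g2) = 0 := by
      have : (U2 * g0 * g1) * (w 2 * g2 + (w 0 * g0 + w 1 * g1 + w 2 * g2)) = 0 := by
        linear_combination k2
      exact (mul_eq_zero.1 this).resolve_left (mul_ne_zero (mul_ne_zero u2 p0.ne') p1.ne')
    have s0 : w 0 * g0 = 0 := by linarith
    have s1 : w 1 * g1 = 0 := by linarith
    have s2 : w 2 * g2 = 0 := by linarith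
    intro i
    fin_cases i
    · exact (mul_eq_zero.1 s0).resolve_right p0.ne'
    · exact (mul_eq_zero.1 s1).resolve_right p1.ne'
    · exact (mul_eq_zero.1 s2).resolve_right p2.ne'

end H99.EQ
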