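import Pool.Agent.H99.EQ.KDefs

/-!
# EQ-K4: filling an open set with disjoint cubes

Job EQ-K4. `Besicovitch.exists_disjoint_closedBall_covering_ae` with `f x` = the set of radii `r`
with `closedBall x r ⊆ O` (frequently small radii because `O` is open), `s = O`, `R = 1`; the
instance `HasBesicovitchCovering (Ph 3)` holds for finite dimensional normed spaces.
-/

set_option autoImplicit false

open MeasureTheory
open scoped ContDiff

noncomputable section

namespace H99.EQ

theorem cover {O : Set (Ph 3)} (hO : IsOpen O) :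
    ∃ (t : Set (Ph 3)) (r : Ph 3 → ℝ), t.Countable ∧
      (∀ x ∈ t, 0 < r x ∧ Metric.closedBall x (r x) ⊆ O) ∧
      t.PairwiseDisjoint (fun x => Metric.closedBall x (r x)) ∧
      volume (O \ ⋃ x ∈ t, Metric.closedBall x (r x)) = 0 := by
  obtain ⟨t, r, h1, -, h3, h4, h5⟩ := Besicovitch.exists_disjoint_closedBall_covering_ae
    (volume : Measure (Ph 3)) (fun x => {r : ℝ | Metric.closedBall x r ⊆ O}) O (by
      intro x hx δ hδ
      obtain ⟨ε, hε, hsub⟩ := Metric.isOpen_iff.1 hO x hx
      refine ⟨min (ε / 2) (δ / 2), ?_, ?_, ?_⟩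
      · refine (Metric.closedBall_subset_ball ?_).trans hsub
        exact (min_le_left _ _).trans_lt (by linarith)
      · exact lt_min (by linarith) (by linarith)
      · exact (min_le_right _ _).trans_lt (by linarith)) (fun _ => 1) (fun _ _ => one_pos)
  exact ⟨t, r, h1, fun x hx => ⟨(h3 x hx).2.1, (h3 x hx).1⟩, h5, h4⟩

end H99.EQ
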