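import Pool.Agent.H99.EQ.K1
import Pool.Agent.H99.EQ.K2
import Pool.Agent.H99.EQ.K3
import Pool.Agent.H99.EQ.K4

/-!
# EQ-K5: filling an open subset of the box with an integrable system

Job EQ-K5. `cover`: index type `ι = t` (countable, `Encodable`), cubes `B_i`; `cube_fun` gives
`f i j` with support in `B_i ⊆ O ⊆ box` (`CS`, `B_i` compact); `F i j = per (f i j)`; for each `j`
`smooth_sum` (`per_smooth`, `per_bound`) gives `c i j > 0`; `q j = ∑' i, c i j * F i j`.
At a point `x` let `y = red x`. If `y ∉ box`, or `y` is in no cube, then all `fderiv (F i j) x = 0`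
(`per_zero`; `per_local` and `B_i` closed: `f i j` vanishes near `y`), so `fderiv (q j) x = 0`. If
`y ∈ B_i` (a unique `i`, `y ∈ box`), then `fderiv (q j) x = c i j • fderiv (f i j) y`
(`tsum_eq_single`, `per_local`), so `pb (q j) (q l) x = c c' pb (f i j) (f i l) y = 0` and
independence at a.e. `x ∈ O` follows from `cube_fun` (countable union of null sets, and
`O \ ⋃ B_i` is null; for `x ∈ O ⊆ box`, `red x = x`).
-/

set_option autoImplicit false

open MeasureTheory
open scoped ContDiff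

noncomputable section

namespace H99.EQ

/-- a periodised function with support in a closed subset vanishes near `x` if `red x` is not in
the subset -/
theorem K5_zero {f : Ph 3 → ℝ} (hf : CS f) {B : Set (Ph 3)} (hB : IsClosed B)
    (h0 : ∀ q, q ∉ B → f q = 0) {x : Ph 3} (hx : red x ∉ B) : per f =ᶠ[nhds x] 0 := by
  have h1 := per_local hf x
  have h2 : ∀ᶠ z in nhds x, z - (x - red x) ∉ B := by
    have hc : ContinuousAt (fun z : Ph 3 => z - (x - red x)) x := by fun_prop
    have e : x - (x - red x) = red x := by abel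
    have hm : Bᶜ ∈ nhds ((fun z : Ph 3 => z - (x - red x)) x) := by
      change Bᶜ ∈ nhds (x - (x - red x))
      rw [e]
      exact hB.isOpen_compl.mem_nhds hx
    exact hc hm
  filter_upwards [h1, h2] with z hz1 hz2
  rw [hz1, h0 _ hz2]
  rfl

theorem K5_fderiv {f : Ph 3 → ℝ} (hf : CS f) (x : Ph 3) :
    fderiv ℝ (per f) x = fderiv ℝ f (red x) := by
  rw [(per_local hf x).fderiv_eq, fderiv_comp_sub]
  congr 1
  abel

theorem K5_pb {f g f' g' : Ph 3 → ℝ} {x y : Ph 3} {a b : ℝ}
    (hf : fderiv ℝ f x = a • fderiv ℝ f' y) (hg : fderiv ℝ g x = b • fderiv ℝ g' y) :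
    pb f g x = a * b * pb f' g' y := by
  unfold pb
  rw [hf, hg, Finset.mul_sum]
  refine Finset.sum_congr rfl fun j _ => ?_
  simp only [smul_apply, smul_eq_mul]
  ring

theorem filling {O : Set (Ph 3)} (hO : IsOpen O) (hb : O ⊆ box 3) :
    ∃ q : Fin 3 → Ph 3 → ℝ, (∀ j, ContDiff ℝ ∞ (q j)) ∧ (∀ j, IsPer (q j)) ∧
      (∀ (i j : Fin 3) (x : Ph 3), pb (q i) (q j) x = 0) ∧
      (∀ (j : Fin 3) (x : Ph 3), red x ∉ O → q j x = 0 ∧ fderiv ℝ (q j) x = 0) ∧
      (∀ᵐ x : Ph 3, x ∈ O → LinearIndependent ℝ fun j => fderiv ℝ (q j) x) := by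
  obtain ⟨t, r, ht, hr, hd, hnull⟩ := cover hO
  have : Encodable t := ht.toEncodable
  have hcf := fun i : t => cube_fun (i : Ph 3) (hr i i.2).1
  choose f hf1 hf2 hf3 hf4 using hcf
  have hCS : ∀ (i : t) (j : Fin 3), CS (f i j) := fun i j =>
    ⟨hf1 i j, Metric.closedBall (i : Ph 3) (r i), isCompact_closedBall _ _,
      (hr i i.2).2.trans hb, hf2 i j⟩
  have hs := fun j : Fin 3 => smooth_sum (F := fun i : t => per (f i j))
    (fun i => per_smooth (hCS i j)) (fun i k => per_bound (hCS i j) k)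
  choose c hc1 hc2 hc3 using hs
  have hzero : ∀ (i : t) (j : Fin 3) (x : Ph 3), red x ∉ Metric.closedBall (i : Ph 3) (r i) →
      per (f i j) =ᶠ[nhds x] 0 := fun i j x hx =>
    K5_zero (hCS i j) Metric.isClosed_closedBall (hf2 i j) hx
  have hzero' : ∀ (i : t) (j : Fin 3) (x : Ph 3), red x ∉ Metric.closedBall (i : Ph 3) (r i) →
      fderiv ℝ (per (f i j)) x = 0 := by
    intro i j x hx
    rw [(hzero i j x hx).fderiv_eq]
    exact fderiv_const_apply (0 : ℝ)
  have hout : ∀ (j : Fin 3) (x : Ph 3), (∀ i : t, red x ∉ Metric.closedBall (i : Ph 3) (r i)) →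
      (∑' i, c j i * per (f i j) x) = 0 ∧
        fderiv ℝ (fun x => ∑' i, c j i * per (f i j) x) x = 0 := by
    intro j x hx
    constructor
    · have : ∀ i : t, c j i * per (f i j) x = 0 := fun i => by
        rw [(hzero i j x (hx i)).eq_of_nhds]
        simp
      simp [this]
    · rw [hc3 j x]
      have : ∀ i : t, c j i • fderiv ℝ (per (f i j)) x = 0 := fun i => by
        rw [hzero' i j x (hx i), smul_zero]
      simp [this]
  have hin : ∀ (j : Fin 3) (x : Ph 3) (i : t), red x ∈ Metric.closedBall (i : Ph 3) (r i) →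
      fderiv ℝ (fun x => ∑' i, c j i * per (f i j) x) x = c j i • fderiv ℝ (f i j) (red x) := by
    intro j x i hx
    rw [hc3 j x, tsum_eq_single i, K5_fderiv (hCS i j)]
    intro i' hi'
    rw [hzero' i' j x, smul_zero]
    intro hx'
    have hne : (i' : Ph 3) ≠ i := fun h => hi' (Subtype.ext h)
    exact Set.disjoint_left.1 (hd i'.2 i.2 hne) hx' hx
  refine ⟨fun j x => ∑' i, c j i * per (f i j) x, hc2, ?_, ?_, ?_, ?_⟩
  · intro j a b x
    refine tsum_congr fun i => ?_
    rw [per_per (f i j) a b x]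
  · intro j l x
    by_cases hx : ∃ i : t, red x ∈ Metric.closedBall (i : Ph 3) (r i)
    · obtain ⟨i, hi⟩ := hx
      rw [K5_pb (hin j x i hi) (hin l x i hi), hf3 i j l, mul_zero]
    · push Not at hx
      have h1 := (hout j x hx).2
      unfold pb
      simp only [h1]
      simp
  · intro j x hx
    exact hout j x fun i hi => hx ((hr i i.2).2 hi)
  · have h1 : ∀ᵐ x : Ph 3, ∀ i : t, x ∈ Metric.closedBall (i : Ph 3) (r i) →
        LinearIndependent ℝ fun j => fderiv ℝ (f i j) x := by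
      rw [ae_all_iff]
      exact hf4
    have h2 : ∀ᵐ x : Ph 3, x ∉ O \ ⋃ y ∈ t, Metric.closedBall y (r y) := by
      exact measure_eq_zero_iff_ae_notMem.1 hnull
    filter_upwards [h1, h2] with x hx1 hx2 hxO
    have hred : red x = x := red_box (hb hxO)
    have hx3 : x ∈ ⋃ y ∈ t, Metric.closedBall y (r y) := by
      by_contra h
      exact hx2 ⟨hxO, h⟩
    simp only [Set.mem_iUnion] at hx3
    obtain ⟨y, hy, hxy⟩ := hx3
    have h4 := hx1 ⟨y, hy⟩ hxy
    have h5 : (fun j => fderiv ℝ (fun x => ∑' i, c j i * per (f i j) x) x) =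
        fun j => (Units.mk0 (c j ⟨y, hy⟩) (hc1 j ⟨y, hy⟩).ne') • fderiv ℝ (f ⟨y, hy⟩ j) x := by
      funext j
      rw [hin j x ⟨y, hy⟩ (by rw [hred]; exact hxy), hred]
      rfl
    rw [h5]
    exact h4.units_smul (fun j => Units.mk0 (c j ⟨y, hy⟩) (hc1 j ⟨y, hy⟩).ne')

end H99.EQ
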