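import Pool.Agent.H99.EQ.Struct

/-!
# Periodisation: definitions
-/

set_option autoImplicit false

open MeasureTheory
open scoped ContDiff

noncomputable section

namespace H99.EQ

/-- the open fundamental box `(0,1)^n × (-1/2,1/2)^n` -/
def box (n : ℕ) : Set (Ph n) :=
  {q | (∀ j, q.1 j ∈ Set.Ioo (0 : ℝ) 1) ∧ ∀ j, q.2 j ∈ Set.Ioo (-(1 / 2) : ℝ) (1 / 2)}

/-- reduction to the half-open box -/
def red {n : ℕ} (q : Ph n) : Ph n :=
  (fun j => Int.fract (q.1 j), fun j => Int.fract (q.2 j + 1 / 2) - 1 / 2)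

/-- periodisation of a function supported in the box -/
def per {n : ℕ} (f : Ph n → ℝ) (q : Ph n) : ℝ := f (red q)

/-- smooth, with support in a compact subset of the box -/
structure CS {n : ℕ} (f : Ph n → ℝ) : Prop where
  smooth : ContDiff ℝ ∞ f
  supp : ∃ K : Set (Ph n), IsCompact K ∧ K ⊆ box n ∧ ∀ q, q ∉ K → f q = 0

/-- TARGET of the core block (helper72) -/
def CoreData (p : Fin 3 → Ph 3 → ℝ) (W : Set (Ph 3)) : Prop :=
  IsOpen W ∧ W ⊆ box 3 ∧ volume (frontier W) = 0 ∧ (∀ j, CS (p j)) ∧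
  (∀ j q, q ∉ W → p j q = 0) ∧ (∀ i j q, pb (p i) (p j) q = 0) ∧
  (∀ᵐ q : Ph 3, q ∈ W → LinearIndependent ℝ fun j => fderiv ℝ (p j) q) ∧ NearForm p

end H99.EQ
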