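import Pool.Agent.H99.EQ.E0

/-!
# EQ-Q3: the values at `z = -1`

Job EQ-Q3. `t = z + 1 = 0`, so `Dt n f (-1) = D1t n f (-1) = - n ph(-1) f(-1)` (no derivative
survives), `cN (-1) = 1/36`, `cW (-1) = -1/3`, `cq (-1) = -1/3`, `ph (-1) = -1/18`,
`rhT (-1) = ph (-1) = -1/18`, `rho2T (-1) = -(-1/18)(-1/18)·1 = -1/324`, `R1T = -1/648`,
`R3T (-1) = - rho2T/2 = 1/648`, `chh (-1) = -cN1(-1)/cW(-1)`, `cN1 (-1) = -3 + 59/18 - 2/3 = -7/18`,
`kT (-1) = -1/3888`, `cU (-1) = 1`, `XT (-1) = -1/1944 = VT (-1)`,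
`S9T (-1) = 2 VT (-4 ph kT) + (-4 ph VT) kT - (-8 ph)(-6 ph)(-4 ph) kT / 2 = 49/11337408`
(`alT`, `aT`, `R2T`, `b4T`, `b5T` and all the parameters drop out: they are multiplied by `0`).
-/

set_option autoImplicit false

open Complex
open scoped ContDiff

noncomputable section

namespace H99.EQ

variable (P : Par)

private theorem Q3_cz : cz (-1) = -1 := by
  simp [cz]

private theorem Q3_cN : cN (-1) = 1 / 36 := by
  simp only [cN, Q3_cz]; norm_num

private theorem Q3_cN1 : cN1 (-1) = -7 / 18 := by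
  simp only [cN1, Q3_cz]; norm_num

private theorem Q3_cW : cW (-1) = -1 / 3 := by
  simp only [cW, Q3_cz]; norm_num

private theorem Q3_cq : cq (-1) = -1 / 3 := by
  simp only [cq, Q3_cz]; norm_num

private theorem Q3_ph : ph (-1) = -1 / 18 := by
  simp only [ph, Q3_cN, Q3_cW, Q3_cq]; norm_num

theorem Dt_neg_one (n : ℕ) (f : ℝ → ℂ) : Dt n f (-1) = n * f (-1) / 18 := by
  simp only [Dt, Q3_cz, Q3_ph]; ring

theorem D1t_neg_one (n : ℕ) (f : ℝ → ℂ) : D1t n f (-1) = n * f (-1) / 18 := by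
  simp only [D1t, Q3_cz, Dt_neg_one]; ring

private theorem Q3_rhT : rhT (-1) = -1 / 18 := by
  simp only [rhT, Q3_cz, Q3_ph]; norm_num

private theorem Q3_rho2T : rho2T (-1) = -1 / 324 := by
  unfold rho2T
  rw [D1t_neg_one, Q3_rhT]; norm_num

private theorem Q3_R1T : R1T P (-1) = -1 / 648 := by
  simp only [R1T, Q3_cz, Q3_rho2T]; norm_num

private theorem Q3_R3T : R3T P (-1) = 1 / 648 := by
  simp only [R3T, Q3_cz, Q3_rho2T]; norm_num

private theorem Q3_chh : chh (-1) = -7 / 6 := by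
  simp only [chh, Q3_cN1, Q3_cW]; norm_num

private theorem Q3_cU : cU (-1) = 1 := by
  simp only [cU, Q3_cN, Q3_cW]; norm_num

theorem kT_neg_one : kT P (-1) = -1 / 3888 := by
  simp only [kT, Q3_cz, Q3_R1T, Q3_R3T, Q3_chh, Q3_cW, Q3_cq]; norm_num

theorem XT_neg_one : XT P (-1) = -1 / 1944 := by
  simp only [XT, Q3_cz, Q3_R1T, Q3_cU, kT_neg_one]; norm_num

private theorem Q3_VT : VT P (-1) = -1 / 1944 := by
  simp only [VT, Q3_cz, XT_neg_one]; norm_num

theorem S9T_neg_one : S9T P (-1) ≠ 0 := by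
  simp only [S9T, Q3_cz, D1t_neg_one, Dt_neg_one, kT_neg_one, Q3_VT]; norm_num

end H99.EQ
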