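import Pool.Agent.H99.EQ.E4
import Pool.Agent.H99.EQ.Q3

/-!
# EQ-Q5: the system (S1)-(S9) has no solution

Job EQ-Q5. Take `P` with the seven constants of `lev1_c5, lev1_mu, lev1_c21, expl1, lev2_1, lev2_2,
lev2_3`; `expl2`. Then by `X1_rat`, `D1_rat` (Q2: all functions are `Rf`; iterate:
`D1 k` is `D1t 4 (kT P)/t⁶` etc.) (S8) gives `b5 τ = b5T P (zz τ)/t⁷` and (S9) gives
`S9T P (zz τ) = 0` for all `τ`; by `zz_surj` for all `z ∈ (-3/4, 0)`; `Rf_zero` at `z = -1`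
(`De_ne'`) contradicts `S9T_neg_one`.
-/

set_option autoImplicit false

open Complex
open scoped ContDiff

noncomputable section

namespace H99.EQ

theorem Q5_add (f g : Sm) (τ : ℝ) : ((f + g : Sm) : ℝ → ℂ) τ = (f : ℝ → ℂ) τ + (g : ℝ → ℂ) τ := rfl

theorem Q5_sub (f g : Sm) (τ : ℝ) : ((f - g : Sm) : ℝ → ℂ) τ = (f : ℝ → ℂ) τ - (g : ℝ → ℂ) τ := rfl

theorem Q5_mul (f g : Sm) (τ : ℝ) : ((f * g : Sm) : ℝ → ℂ) τ = (f : ℝ → ℂ) τ * (g : ℝ → ℂ) τ := rfl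

theorem Q5_neg (f : Sm) (τ : ℝ) : ((-f : Sm) : ℝ → ℂ) τ = -(f : ℝ → ℂ) τ := rfl

theorem Q5_sq (f : Sm) (τ : ℝ) : ((f ^ 2 : Sm) : ℝ → ℂ) τ = (f : ℝ → ℂ) τ ^ 2 := rfl

theorem Q5_c (c : ℂ) (τ : ℝ) : ((cS c : Sm) : ℝ → ℂ) τ = c := rfl

theorem Q5_two (τ : ℝ) : ((2 : Sm) : ℝ → ℂ) τ = 2 := rfl

theorem Q5_four (τ : ℝ) : ((4 : Sm) : ℝ → ℂ) τ = 4 := rfl

theorem Q5_alg9 {t V K1 V1 K K3 A B5 : ℂ} (ht : t ≠ 0)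
    (s9 : 2 * (V / t ^ 4) * (K1 / t ^ 6) + V1 / t ^ 6 * (K / t ^ 4) - 1 / 2 * (K3 / t ^ 10) =
      -2 * (A / t ^ 1) * (B5 / t ^ 7)) :
    2 * V * K1 + V1 * K - K3 / 2 + 2 * t ^ 2 * A * B5 = 0 := by
  have e : 2 * V * K1 + V1 * K - K3 / 2 + 2 * t ^ 2 * A * B5 =
      t ^ 10 * (2 * (V / t ^ 4) * (K1 / t ^ 6) + V1 / t ^ 6 * (K / t ^ 4) -
        1 / 2 * (K3 / t ^ 10) - (-2 * (A / t ^ 1) * (B5 / t ^ 7))) := by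
    field_simp
    ring
  rw [e, s9, sub_self, mul_zero]

theorem Q5_alg8 {t V K1 K A A1 V1 a1 a0 a3 B4 B5 : ℂ} (ht : t ≠ 0)
    (s8 : 2 * B5 = -4 * (A / t ^ 1) * (K1 / t ^ 6) + 2 * (V / t ^ 4) * (a1 / t ^ 3) -
      2 * (K / t ^ 4) * (A1 / t ^ 3) + V1 / t ^ 6 * (a0 / t ^ 1) - 1 / 2 * (a3 / t ^ 7) +
      2 * (A / t ^ 1) * (B4 / t ^ 4)) :
    B5 = (-4 * A * K1 + 2 * V * a1 - 2 * K * A1 + V1 * a0 - a3 / 2 + 2 * t ^ 2 * A * B4) / 2 /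
      t ^ 7 := by
  have e : B5 = 2 * B5 / 2 := by ring
  rw [e, s8]
  field_simp

theorem noSys {al X g a k b3 b4 b5 : Sm} (h : SSys al X g a k b3 b4 b5) : False := by
  obtain ⟨c5, h5⟩ := lev1_c5 h
  obtain ⟨mu, hmu⟩ := lev1_mu h h5
  obtain ⟨c21, h21⟩ := lev1_c21 h
  obtain ⟨c0, hP⟩ := expl1 h h5 hmu h21
  obtain ⟨c20, e1⟩ := lev2_1 h
  obtain ⟨c04, e2⟩ := lev2_2 h
  obtain ⟨c12, e3⟩ := lev2_3 h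
  let P : Par := ⟨c0, c21, mu, c5, c20, c04, c12⟩
  have h1 := hP P rfl rfl rfl rfl
  have h2 := fun τ => expl2 (P := P) h1 e1 e2 e3 τ
  have hal : ∀ τ, (al : ℝ → ℂ) τ = alT P (zz τ) / (cz (zz τ) + 1) ^ 1 := fun τ => by
    rw [pow_one]; exact (h1 τ).1
  have ha : ∀ τ, (a : ℝ → ℂ) τ = aT P (zz τ) / (cz (zz τ) + 1) ^ 1 := fun τ => by
    rw [pow_one]; exact (h1 τ).2.2.2
  have hk : ∀ τ, (k : ℝ → ℂ) τ = kT P (zz τ) / (cz (zz τ) + 1) ^ 4 := fun τ => (h2 τ).1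
  have hX : ∀ τ, (X : ℝ → ℂ) τ = XT P (zz τ) / (cz (zz τ) + 1) ^ 4 := fun τ => (h2 τ).2.1
  have hb4 : ∀ τ, (b4 : ℝ → ℂ) τ = b4T P (zz τ) / (cz (zz τ) + 1) ^ 4 := fun τ => (h2 τ).2.2
  have hV : ∀ τ, ((al ^ 2 + X : Sm) : ℝ → ℂ) τ = VT P (zz τ) / (cz (zz τ) + 1) ^ 4 := fun τ => by
    have ht := t_ne τ
    rw [Q5_add, Q5_sq, hal, hX]
    unfold VT
    field_simp
  have hk1 := fun τ => D1_rat (Rf_kT P) 4 hk τ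
  have hk2 := fun τ => D1_rat (Rf_D1t (Rf_kT P) 4) 6 hk1 τ
  have hk3 := fun τ => D1_rat (Rf_D1t (Rf_D1t (Rf_kT P) 4) 6) 8 hk2 τ
  have ha1 := fun τ => D1_rat (Rf_aT P) 1 ha τ
  have ha2 := fun τ => D1_rat (Rf_D1t (Rf_aT P) 1) 3 ha1 τ
  have ha3 := fun τ => D1_rat (Rf_D1t (Rf_D1t (Rf_aT P) 1) 3) 5 ha2 τ
  have hal1 := fun τ => X1_rat (Rf_alT P) 1 hal τ
  have hV1 := fun τ => X1_rat (Rf_VT P) 4 hV τ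
  have hb5 : ∀ τ, (b5 : ℝ → ℂ) τ = b5T P (zz τ) / (cz (zz τ) + 1) ^ 7 := fun τ => by
    have ht := t_ne τ
    have s8 := congrArg (fun f : Sm => (f : ℝ → ℂ) τ) h.s8
    simp only [Q5_add, Q5_sub, Q5_mul, Q5_neg, Q5_c, Q5_two, Q5_four] at s8
    rw [← Q5_add, hV, hV1, hk1, ha1, ha3, hal1, hal, ha, hk, hb4] at s8
    exact Q5_alg8 ht s8
  have hS9 : ∀ τ, S9T P (zz τ) = 0 := fun τ => by
    have ht := t_ne τ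
    have s9 := congrArg (fun f : Sm => (f : ℝ → ℂ) τ) h.s9
    simp only [Q5_add, Q5_sub, Q5_mul, Q5_neg, Q5_c, Q5_two] at s9
    rw [← Q5_add, hV, hV1, hk1, hk3, hk, hal, hb5] at s9
    exact Q5_alg9 ht s9
  refine S9T_neg_one P (Rf_zero (Rf_S9T P) (fun z hz => ?_) De_ne')
  obtain ⟨τ, rfl⟩ := zz_surj hz
  exact hS9 τ

end H99.EQ
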