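import Pool.Agent.H99.EQ.B6
import Pool.Agent.H99.EQ.G2
import Pool.Agent.H99.EQ.G3
import Pool.Agent.H99.EQ.Q5

/-!
# A system with the form `NearForm` near the zero section has no exact quantisation
-/

set_option autoImplicit false

open Complex
open scoped ContDiff

noncomputable section

namespace H99.EQ

theorem noQuant {p : Fin 3 → Ph 3 → ℝ} (hN : NearForm p) : ¬ IsQuantised p := by
  intro h
  obtain ⟨σ, hσ⟩ := exists_symbols h
  obtain ⟨A, K, hd⟩ := ndata hσ hN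
  obtain ⟨D, T, e, hD, hT, hDT, hL⟩ := closure hd
  obtain ⟨D', T', e', hD', hT', hDT', hL'⟩ := gauge1 hD hT hDT hL
  obtain ⟨μx, μy, μ0, hD2⟩ := gauge2 hD' hL'
  obtain ⟨D'', T'', μ, μ0', hD3, hT3, hDT3⟩ := gauge3 hD2 hT' hDT'
  obtain ⟨α, wt, d20, d11, d10, d02, d01, d00, hm⟩ := modes hD3 hT3 hDT3
  obtain ⟨X, g, a, k, b3, b4, b5, hp⟩ := psys hm
  exact noSys (ssys hp)

end H99.EQ
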