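import Pool.Agent.H99.EQ.Op

/-!
# EQ-O1: basic facts on differential operators `OL d m P` (order `< m`)

Job EQ-O1. All by induction on `OL` (the file `Op.lean` has `mo_mul`, `mo_comm`, `dv_mo`, …).
* `OL_zero_eq`: only the constructors `zero`, `add` produce `OL d 0`: induction with the
  generalised statement `OL d m P → m = 0 → P = 0`.
* `OL_mo_of_one`: `OL d m P → m ≤ 1 → P = mo (P 1)`: same induction (`up` with `m = 0` uses
  `OL_zero_eq`, `comp` is impossible).
* `OL_lmo`: `mo f * (P * dv (d i)) = (mo f * P) * dv (d i)`.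
* `OL_ldv`: by induction on `OL d m P` prove `OL d (m+1) (dv (d i) * P)`; for `P = mo f` use
  `dv_mo` (`dv D * mo f = mo f * dv D + mo (D f)`), where `mo f * dv D = OL.comp i (OL.mo f)`.
* `OL_rmo`: induction; `P * dv (d i) * mo f = P * mo f * dv (d i) + P * mo (d i f)`.
* `OL_mul`: induction on `Q` : `OL d (m' + 1) Q`; better: prove for all `k`, `OL d k Q →
  ∀ P m, OL d m P → OL d (m + k - 1) (P * Q)` with `k = 0` giving `Q = 0`; for `comp`:
  `P * (Q * dv (d i)) = (P * Q) * dv (d i)`.
* `OL_succ`: induction on `OL`.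
-/

set_option autoImplicit false

noncomputable section

namespace H99.EQ

variable {C : Type*} [CommRing C] [Algebra ℂ C] {ι : Type*} {d : ι → Derivation ℂ C C}

theorem OL_mono {m m' : ℕ} (h : m ≤ m') {P : Module.End ℂ C} (hP : OL d m P) : OL d m' P := by
  induction h with
  | refl => exact hP
  | step _ ih => exact OL.up ih

theorem OL_zero_eq_aux {m : ℕ} {P : Module.End ℂ C} (hP : OL d m P) : m = 0 → P = 0 := by
  induction hP with
  | zero m => exact fun _ => rfl
  | mo f => exact fun h => absurd h (by omega)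
  | add _ _ ih1 ih2 => exact fun h => by rw [ih1 h, ih2 h, add_zero]
  | up _ _ => exact fun h => absurd h (by omega)
  | comp i _ _ => exact fun h => absurd h (by omega)

theorem OL_zero_eq {P : Module.End ℂ C} (hP : OL d 0 P) : P = 0 :=
  OL_zero_eq_aux hP rfl

theorem OL_mo_of_one_aux {m : ℕ} {P : Module.End ℂ C} (hP : OL d m P) : m ≤ 1 → P = mo (P 1) := by
  induction hP with
  | zero m => exact fun _ => by rw [LinearMap.zero_apply, mo_zero]
  | mo f => exact fun _ => by rw [mo_apply, mul_one]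
  | @add m P Q _ _ ih1 ih2 =>
    intro h
    rw [LinearMap.add_apply, mo_add, ← ih1 h, ← ih2 h]
  | @up m P hP _ =>
    intro h
    have h0 : m = 0 := by omega
    subst h0
    rw [OL_zero_eq hP, LinearMap.zero_apply, mo_zero]
  | comp i _ _ => exact fun h => absurd h (by omega)

theorem OL_mo_of_one {P : Module.End ℂ C} (hP : OL d 1 P) : P = mo (P 1) :=
  OL_mo_of_one_aux hP le_rfl

theorem OL_lmo {m : ℕ} (f : C) {P : Module.End ℂ C} (hP : OL d m P) : OL d m (mo f * P) := by
  induction hP with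
  | zero m => rw [mul_zero]; exact OL.zero m
  | mo g => rw [← mo_mul]; exact OL.mo _
  | add _ _ ih1 ih2 => rw [mul_add]; exact OL.add ih1 ih2
  | up _ ih => exact OL.up ih
  | comp i _ ih => rw [← mul_assoc]; exact OL.comp i ih

theorem OL_neg {m : ℕ} {P : Module.End ℂ C} (hP : OL d m P) : OL d m (-P) := by
  have h : -P = mo (-1 : C) * P := by ext x; simp
  rw [h]
  exact OL_lmo _ hP

theorem OL_smul {m : ℕ} (c : ℂ) {P : Module.End ℂ C} (hP : OL d m P) : OL d m (c • P) := by
  have h : c • P = mo (c • 1 : C) * P := by rw [mo_smul, mo_one, smul_mul_assoc, one_mul]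
  rw [h]
  exact OL_lmo _ hP

theorem OL_sub {m : ℕ} {P Q : Module.End ℂ C} (hP : OL d m P) (hQ : OL d m Q) :
    OL d m (P - Q) := by
  rw [sub_eq_add_neg]
  exact OL.add hP (OL_neg hQ)

theorem OL_sum {m : ℕ} {κ : Type*} (s : Finset κ) {P : κ → Module.End ℂ C}
    (hP : ∀ i ∈ s, OL d m (P i)) : OL d m (∑ i ∈ s, P i) := by
  classical
  induction s using Finset.induction_on with
  | empty => rw [Finset.sum_empty]; exact OL.zero m
  | insert a s ha ih =>
    rw [Finset.sum_insert ha]
    exact OL.add (hP a (Finset.mem_insert_self _ _)) (ih fun i hi => hP i (Finset.mem_insert_of_mem hi))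

theorem OL_dv (i : ι) : OL d 2 (dv (d i)) := by
  have h : dv (d i) = mo (1 : C) * dv (d i) := by rw [mo_one, one_mul]
  rw [h]
  exact OL.comp i (OL.mo 1)

theorem OL_ldv {m : ℕ} (i : ι) {P : Module.End ℂ C} (hP : OL d m P) :
    OL d (m + 1) (dv (d i) * P) := by
  induction hP with
  | zero m => rw [mul_zero]; exact OL.zero _
  | mo f =>
    rw [dv_mo]
    exact OL.add (OL.comp i (OL.mo f)) (OL.up (OL.mo _))
  | add _ _ ih1 ih2 => rw [mul_add]; exact OL.add ih1 ih2
  | up _ ih => exact OL.up ih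
  | comp j _ ih => rw [← mul_assoc]; exact OL.comp j ih

theorem OL_rdv {m : ℕ} (i : ι) {P : Module.End ℂ C} (hP : OL d m P) :
    OL d (m + 1) (P * dv (d i)) := by
  cases m with
  | zero => rw [OL_zero_eq hP, zero_mul]; exact OL.zero _
  | succ m => exact OL.comp i hP

theorem OL_rmo_aux {m : ℕ} {P : Module.End ℂ C} (hP : OL d m P) : ∀ f : C, OL d m (P * mo f) := by
  induction hP with
  | zero m => intro f; rw [zero_mul]; exact OL.zero m
  | mo g => intro f; rw [← mo_mul]; exact OL.mo _
  | add _ _ ih1 ih2 => intro f; rw [add_mul]; exact OL.add (ih1 f) (ih2 f)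
  | up _ ih => intro f; exact OL.up (ih f)
  | comp i _ ih =>
    intro f
    rw [mul_assoc, dv_mo, mul_add, ← mul_assoc]
    exact OL.add (OL.comp i (ih f)) (OL.up (ih _))

theorem OL_rmo {m : ℕ} (f : C) {P : Module.End ℂ C} (hP : OL d m P) : OL d m (P * mo f) :=
  OL_rmo_aux hP f

theorem OL_mul_aux {k : ℕ} {Q : Module.End ℂ C} (hQ : OL d k Q) :
    ∀ (m : ℕ) (P : Module.End ℂ C), OL d m P → OL d (m + k - 1) (P * Q) := by
  induction hQ with
  | zero k => intro m P _; rw [mul_zero]; exact OL.zero _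
  | mo f => intro m P hP; exact OL_rmo f hP
  | add _ _ ih1 ih2 => intro m P hP; rw [mul_add]; exact OL.add (ih1 m P hP) (ih2 m P hP)
  | up _ ih => intro m P hP; exact OL_mono (by omega) (ih m P hP)
  | @comp k Q i _ ih =>
    intro m P hP
    rw [← mul_assoc]
    have h := OL_rdv i (ih m P hP)
    exact OL_mono (by omega) h

/-- order `< m` times order `≤ k` is of order `< m + k` -/
theorem OL_mul {m k : ℕ} {P Q : Module.End ℂ C} (hP : OL d m P) (hQ : OL d (k + 1) Q) :
    OL d (m + k) (P * Q) :=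
  OL_mono (by omega) (OL_mul_aux hQ m P hP)

/-- order `≤ m` times order `< k` is of order `< m + k` -/
theorem OL_mul' {m k : ℕ} {P Q : Module.End ℂ C} (hP : OL d (m + 1) P) (hQ : OL d k Q) :
    OL d (m + k) (P * Q) :=
  OL_mono (by omega) (OL_mul_aux hQ (m + 1) P hP)

theorem OL_succ_aux [Fintype ι] {n : ℕ} {P : Module.End ℂ C} (hP : OL d n P) :
    ∀ m, n ≤ m + 2 → ∃ (f : C) (Q : ι → Module.End ℂ C), (∀ i, OL d (m + 1) (Q i)) ∧
      P = mo f + ∑ i, Q i * dv (d i) := by
  classical
  induction hP with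
  | zero n =>
    intro m _
    exact ⟨0, fun _ => 0, fun _ => OL.zero _, by simp [mo_zero]⟩
  | mo f =>
    intro m _
    exact ⟨f, fun _ => 0, fun _ => OL.zero _, by simp⟩
  | add _ _ ih1 ih2 =>
    intro m hm
    obtain ⟨f, Q, hQ, h1⟩ := ih1 m hm
    obtain ⟨g, R, hR, h2⟩ := ih2 m hm
    refine ⟨f + g, fun i => Q i + R i, fun i => OL.add (hQ i) (hR i), ?_⟩
    rw [h1, h2, mo_add]
    simp only [add_mul, Finset.sum_add_distrib]
    abel
  | up _ ih =>
    intro m hm
    exact ih m (by omega)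
  | @comp n P i hP _ =>
    intro m hm
    refine ⟨0, fun j => if j = i then P else 0, fun j => ?_, ?_⟩
    · by_cases h : j = i
      · simp only [h, if_true]
        exact OL_mono (by omega) hP
      · simp only [h, if_false]
        exact OL.zero _
    · simp [mo_zero, ite_mul]

/-- decomposition of an operator of order `≤ m + 1` -/
theorem OL_succ [Fintype ι] {m : ℕ} {P : Module.End ℂ C} (hP : OL d (m + 2) P) :
    ∃ (f : C) (Q : ι → Module.End ℂ C), (∀ i, OL d (m + 1) (Q i)) ∧
      P = mo f + ∑ i, Q i * dv (d i) :=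
  OL_succ_aux hP m le_rfl

end H99.EQ
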