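import Pool.Agent.H99.EQ.O2

/-!
# EQ-O3: solving `[s, V] = W`

Job EQ-O3. `d i₀ s = 1`, `d i s = 0` for `i ≠ i₀`, the `d i` commute. Put
`δ P = mo s * P - P * mo s`; by `OL_comm_mo` it maps `OL d (k+1)` to `OL d k`, so `δ^[m] W = 0`
for `OL d m W`. With `S = dv (d i₀)`: `δ (P * S) = δ P * S - P` (because
`S * mo s = mo s * S + 1`). Hence
`V = - ∑_{j<m} (1/(j+1)!) • (δ^[j] W * S^(j+1))` satisfies `δ V = W` (telescoping:
`δ (Q * S^(j+1)) = δ Q * S^(j+1) - (j+1) • Q * S^j`). Orders: `OL d (m-j) (δ^[j] W)`, times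
`S^(j+1)` is `OL d (m+1)` (use `OL_rdv`).
-/

set_option autoImplicit false

noncomputable section

namespace H99.EQ

variable {C : Type*} [CommRing C] [Algebra ℂ C] {ι : Type*} {d : ι → Derivation ℂ C C}

theorem OL_solve_pow {s : C} {i₀ : ι} (hs : d i₀ s = 1) (j : ℕ) :
    dv (d i₀) ^ (j + 1) * mo s = mo s * dv (d i₀) ^ (j + 1) + ((j : ℂ) + 1) • dv (d i₀) ^ j := by
  have h1 : dv (d i₀) * mo s = mo s * dv (d i₀) + 1 := by
    rw [dv_mo, hs, mo_one]
  induction j with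
  | zero => simp [h1]
  | succ j ih =>
    rw [pow_succ (dv (d i₀)) (j + 1), mul_assoc, h1, mul_add, ← mul_assoc, ih, add_mul, mul_one,
      mul_assoc, smul_mul_assoc, ← pow_succ, ← pow_succ, add_assoc]
    have h2 : ((j : ℂ) + 1) • dv (d i₀) ^ (j + 1) + dv (d i₀) ^ (j + 1) =
        ((j : ℂ) + 1 + 1) • dv (d i₀) ^ (j + 1) := by
      rw [add_smul ((j : ℂ) + 1) 1, one_smul]
    rw [h2]
    push_cast
    rfl

theorem OL_solve_rpow (i₀ : ι) {m : ℕ} {W : Module.End ℂ C} (hW : OL d m W) (k : ℕ) :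
    OL d (m + k) (W * dv (d i₀) ^ k) := by
  induction k with
  | zero => simpa using hW
  | succ k ih =>
    rw [pow_succ, ← mul_assoc]
    exact OL_rdv i₀ ih

theorem OL_solve_aux {s : C} {i₀ : ι} (hs : d i₀ s = 1) : ∀ (m : ℕ) (W : Module.End ℂ C),
    OL d m W → ∀ j : ℕ, ∃ V : Module.End ℂ C, OL d (m + j + 1) V ∧
      mo s * V - V * mo s = W * dv (d i₀) ^ j := by
  intro m
  induction m with
  | zero =>
    intro W hW j
    refine ⟨0, OL.zero _, ?_⟩
    rw [OL_zero_eq hW]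
    simp
  | succ m ih =>
    intro W hW j
    have hδ : OL d m (mo s * W - W * mo s) := by
      have := OL_neg (OL_comm_mo s hW)
      rwa [neg_sub] at this
    obtain ⟨V, hV, hV'⟩ := ih (mo s * W - W * mo s) hδ (j + 1)
    have hj : ((j : ℂ) + 1) ≠ 0 := by exact_mod_cast Nat.succ_ne_zero j
    refine ⟨((j : ℂ) + 1)⁻¹ • (V - W * dv (d i₀) ^ (j + 1)), ?_, ?_⟩
    · have e1 : m + 1 + j + 1 = m + (j + 1) + 1 := by ring
      have e2 : m + 1 + j + 1 = m + 1 + (j + 1) := by ring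
      refine OL_smul _ (OL_sub ?_ ?_)
      · rw [e1]; exact hV
      · rw [e2]; exact OL_solve_rpow i₀ hW (j + 1)
    · have h2 : mo s * (V - W * dv (d i₀) ^ (j + 1)) - (V - W * dv (d i₀) ^ (j + 1)) * mo s =
          ((j : ℂ) + 1) • (W * dv (d i₀) ^ j) := by
        have h3 : W * dv (d i₀) ^ (j + 1) * mo s =
            W * mo s * dv (d i₀) ^ (j + 1) + ((j : ℂ) + 1) • (W * dv (d i₀) ^ j) := by
          rw [mul_assoc, OL_solve_pow hs, mul_add, mul_smul_comm, mul_assoc]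
        rw [mul_sub, sub_mul, h3]
        have h4 : mo s * V - V * mo s = (mo s * W - W * mo s) * dv (d i₀) ^ (j + 1) := hV'
        rw [sub_mul] at h4
        have h5 : mo s * V - mo s * (W * dv (d i₀) ^ (j + 1)) -
            (V * mo s - (W * mo s * dv (d i₀) ^ (j + 1) + ((j : ℂ) + 1) • (W * dv (d i₀) ^ j))) =
            (mo s * V - V * mo s) - (mo s * W * dv (d i₀) ^ (j + 1) -
              W * mo s * dv (d i₀) ^ (j + 1)) + ((j : ℂ) + 1) • (W * dv (d i₀) ^ j) := by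
          rw [mul_assoc (mo s) W]
          abel
        rw [h5, h4, sub_self, zero_add]
      rw [mul_smul_comm, smul_mul_assoc]
      refine (smul_sub ((j : ℂ) + 1)⁻¹ _ _).symm.trans ?_
      rw [h2, smul_smul, inv_mul_cancel₀ hj, one_smul]

theorem OL_solve {s : C} {i₀ : ι} (hs : d i₀ s = 1) {m : ℕ} {W : Module.End ℂ C}
    (hW : OL d m W) :
    ∃ V : Module.End ℂ C, OL d (m + 1) V ∧ mo s * V - V * mo s = W := by
  obtain ⟨V, hV, h⟩ := OL_solve_aux hs m W hW 0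
  exact ⟨V, hV, by rw [h, pow_zero, mul_one]⟩

end H99.EQ
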