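import Pool.Agent.H99.EQ.O3

/-!
# EQ-O4: normalising the operator with symbol `s`

Job EQ-O4 (`exists_V`) and EQ-O5 (`exists_normal`, next file).
`B_0 = s`, `B_w` (`w ≥ 1`) of order `< w`. There are `V_0 = 1`, `V_w` of order `≤ w` with
`∑_{i+j=w} V_i B_j = s V_w`. Recursion: `s V_w - V_w s = ∑_{i<w} V_i B_{w-i}`, where the right
side is `OL d w` (`OL_mul`: `V_i` is `OL d (i+1)`, `B_{w-i}` is `OL d (w-i)`, `OL_mul'` gives
`OL d w`), so `OL_solve` applies. To build the sequence: first a function
`sol : ℕ → End → End` with `OL d m W → OL d (m+1) (sol m W) ∧ mo s * sol m W - sol m W * mo s = W`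
(by `Classical.choice`), then define `V` by strong recursion
(`V (n+1) = sol (n+1) (∑ i : Fin (n+1), V i * B (n+1-i))`), or prove by induction on `n` the
existence of a list of the first `n` operators which extends the previous one.
-/

set_option autoImplicit false

noncomputable section

namespace H99.EQ

variable {C : Type*} [CommRing C] [Algebra ℂ C] {ι : Type*} {d : ι → Derivation ℂ C C}

/-- the sequence of the recursion -/
def o4V (sol : ℕ → Module.End ℂ C → Module.End ℂ C) (B : ℕ → Module.End ℂ C) :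
    ℕ → Module.End ℂ C
  | 0 => 1
  | n + 1 => sol (n + 1) (∑ i : Fin (n + 1), o4V sol B i.1 * B (n + 1 - i.1))
termination_by n => n
decreasing_by exact i.2

theorem exists_V {s : C} {i₀ : ι} (hs : d i₀ s = 1) {B : ℕ → Module.End ℂ C}
    (hB0 : B 0 = mo s) (hB : ∀ w, 1 ≤ w → OL d w (B w)) :
    ∃ V : ℕ → Module.End ℂ C, V 0 = 1 ∧ (∀ w, OL d (w + 1) (V w)) ∧
      ∀ w, ∑ ij ∈ Finset.HasAntidiagonal.antidiagonal w, V ij.1 * B ij.2 = mo s * V w := by
  classical
  have hsol : ∀ (m : ℕ) (W : Module.End ℂ C), ∃ V : Module.End ℂ C,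
      OL d m W → OL d (m + 1) V ∧ mo s * V - V * mo s = W := by
    intro m W
    by_cases h : OL d m W
    · obtain ⟨V, h1, h2⟩ := OL_solve hs h
      exact ⟨V, fun _ => ⟨h1, h2⟩⟩
    · exact ⟨0, fun h' => absurd h' h⟩
  choose sol hsol using hsol
  set V := o4V sol B with hV
  have hV0 : V 0 = 1 := by
    rw [hV, o4V]
  have hVs : ∀ n, V (n + 1) = sol (n + 1) (∑ i : Fin (n + 1), V i.1 * B (n + 1 - i.1)) := by
    intro n
    rw [hV, o4V]
  have hord : ∀ w, OL d (w + 1) (V w) := by
    intro w
    induction w using Nat.strong_induction_on with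
    | _ w ih =>
      rcases w with _ | n
      · rw [hV0, ← mo_one]
        exact OL.mo 1
      · rw [hVs]
        refine (hsol _ _ ?_).1
        refine OL_sum _ fun i _ => ?_
        have h1 := OL_mul' (ih i.1 i.2) (hB (n + 1 - i.1) (by omega))
        have h2 : i.1 + (n + 1 - i.1) = n + 1 := by omega
        rwa [h2] at h1
  refine ⟨V, hV0, hord, ?_⟩
  intro w
  rcases w with _ | n
  · rw [Finset.Nat.antidiagonal_zero, Finset.sum_singleton]
    change V 0 * B 0 = mo s * V 0
    rw [hV0, hB0, one_mul, mul_one]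
  · have h1 : OL d (n + 1) (∑ i : Fin (n + 1), V i.1 * B (n + 1 - i.1)) := by
      refine OL_sum _ fun i _ => ?_
      have h1 := OL_mul' (hord i.1) (hB (n + 1 - i.1) (by omega))
      have h2 : i.1 + (n + 1 - i.1) = n + 1 := by omega
      rwa [h2] at h1
    have h2 := (hsol _ _ h1).2
    rw [← hVs] at h2
    rw [Finset.Nat.sum_antidiagonal_eq_sum_range_succ_mk, Finset.sum_range_succ, Nat.sub_self, hB0,
      Finset.sum_range, ← h2]
    abel

end H99.EQ
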