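import Pool.Agent.H99.EQ.E0

/-!
# EQ-Q1: the algebra of rational functions with denominators `De ^ n`

Job EQ-Q1. `De z` is (the value of) a polynomial `pD : Polynomial ℂ`,
`De z = pD.eval (cz z)`, `pD ≠ 0`. Common denominators for sums. `Rf_deriv`: on the open set
`De ≠ 0` (continuity) `f` coincides near `z` with `p(z)/pD(z)^n`, whose derivative is
`(p' pD - n p pD')/pD^(n+1)` (chain rule for `z ↦ p.eval (z : ℂ)`, `Polynomial.hasDerivAt`,
`HasDerivAt.comp_ofReal`). `Rf_zero`: infinitely many zeros of `p`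
(`Polynomial.eq_zero_of_infinite_isRoot`), `De ≠ 0` on `(-3/4, 0)` (R1: `rq_neg`, `rW_pos`).
-/

set_option autoImplicit false

open Complex
open scoped ContDiff

noncomputable section

namespace H99.EQ

/-- `De` as a polynomial -/
def Q1_pD : Polynomial ℂ :=
  Polynomial.X * (Polynomial.X + Polynomial.C (3 / 4)) * (Polynomial.X + Polynomial.C (8 / 9)) *
    (Polynomial.C (2 / 3) - Polynomial.X ^ 2) *
    (Polynomial.C 3 * Polynomial.X ^ 3 + Polynomial.C (32 / 9) * Polynomial.X ^ 2 +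
      Polynomial.C (4 / 9) * Polynomial.X - Polynomial.C (4 / 9))

theorem Q1_De (z : ℝ) : De z = Q1_pD.eval (cz z) := by
  unfold De Q1_pD cW cq
  simp only [Polynomial.eval_mul, Polynomial.eval_add, Polynomial.eval_sub, Polynomial.eval_pow,
    Polynomial.eval_X, Polynomial.eval_C]
  ring

theorem De_ne {z : ℝ} (h : z ∈ Set.Ioo (-(3 / 4) : ℝ) 0) : De z ≠ 0 := by
  have h1 : De z = ((z * (z + 3 / 4) * (z + 8 / 9) * rW z * rq z : ℝ) : ℂ) := by
    unfold De cW cq cz rW rq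
    push_cast
    ring
  rw [h1, Complex.ofReal_ne_zero]
  have hz1 : z ≠ 0 := ne_of_lt h.2
  have hz2 : z + 3 / 4 ≠ 0 := by
    have := h.1
    intro hc
    linarith
  have hz3 : z + 8 / 9 ≠ 0 := by
    have := h.1
    intro hc
    linarith
  exact mul_ne_zero (mul_ne_zero (mul_ne_zero (mul_ne_zero hz1 hz2) hz3) (rW_pos h).ne')
    (rq_neg h).ne

theorem De_ne' : De (-1) ≠ 0 := by
  unfold De cW cq cz
  norm_num

theorem Rf_poly (p : Polynomial ℂ) : Rf fun z => p.eval (cz z) :=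
  ⟨p, 0, fun z _ => by simp⟩

theorem Q1_congr {f g : ℝ → ℂ} (hf : Rf f) (h : ∀ z, g z = f z) : Rf g := by
  have : g = f := funext h
  rw [this]
  exact hf

theorem Rf_const (c : ℂ) : Rf fun _ => c :=
  Q1_congr (Rf_poly (Polynomial.C c)) (fun z => by simp)

theorem Rf_cz : Rf cz :=
  Q1_congr (Rf_poly Polynomial.X) (fun z => by simp)

theorem Rf_add {f g : ℝ → ℂ} (hf : Rf f) (hg : Rf g) : Rf fun z => f z + g z := by
  obtain ⟨p, n, hp⟩ := hf
  obtain ⟨q, m, hq⟩ := hg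
  refine ⟨p * Q1_pD ^ m + q * Q1_pD ^ n, n + m, fun z hz => ?_⟩
  beta_reduce
  rw [hp z hz, hq z hz]
  simp only [Polynomial.eval_mul, Polynomial.eval_add, Polynomial.eval_pow]
  rw [← Q1_De, pow_add]
  have h1 : De z ^ n ≠ 0 := pow_ne_zero _ hz
  have h2 : De z ^ m ≠ 0 := pow_ne_zero _ hz
  field_simp

theorem Rf_mul {f g : ℝ → ℂ} (hf : Rf f) (hg : Rf g) : Rf fun z => f z * g z := by
  obtain ⟨p, n, hp⟩ := hf
  obtain ⟨q, m, hq⟩ := hg
  refine ⟨p * q, n + m, fun z hz => ?_⟩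
  beta_reduce
  rw [hp z hz, hq z hz, Polynomial.eval_mul, pow_add, div_mul_div_comm]

theorem Rf_neg {f : ℝ → ℂ} (hf : Rf f) : Rf fun z => -f z := by
  obtain ⟨p, n, hp⟩ := hf
  refine ⟨-p, n, fun z hz => ?_⟩
  beta_reduce
  rw [hp z hz, Polynomial.eval_neg, neg_div]

theorem Rf_sub {f g : ℝ → ℂ} (hf : Rf f) (hg : Rf g) : Rf fun z => f z - g z :=
  Q1_congr (Rf_add hf (Rf_neg hg)) (fun z => by ring)

theorem Rf_pow {f : ℝ → ℂ} (hf : Rf f) (n : ℕ) : Rf fun z => f z ^ n := by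
  induction n with
  | zero => exact Q1_congr (Rf_const 1) (fun z => by simp)
  | succ n ih => exact Q1_congr (Rf_mul ih hf) (fun z => by rw [pow_succ])

/-- division by a factor of `De` -/
theorem Rf_div {f g : ℝ → ℂ} (hf : Rf f) {u : ℝ → ℂ} (hu : Rf u)
    (hg : ∀ z, De z = g z * u z) : Rf fun z => f z / g z := by
  obtain ⟨p, n, hp⟩ := Rf_mul hf hu
  refine ⟨p, n + 1, fun z hz => ?_⟩
  have h1 := hp z hz
  have h2 : g z ≠ 0 := by
    intro h0
    apply hz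
    rw [hg, h0, zero_mul]
  have h3 : u z ≠ 0 := by
    intro h0
    apply hz
    rw [hg, h0, mul_zero]
  have h4 : f z / g z = f z * u z / De z := by
    rw [hg z]
    field_simp
  beta_reduce
  rw [h4]
  beta_reduce at h1
  rw [h1, pow_succ, div_div]

theorem Q1_cW : Rf cW :=
  Q1_congr (Rf_sub (Rf_const (2 / 3)) (Rf_pow Rf_cz 2)) (fun _ => rfl)

theorem Q1_cq : Rf cq := by
  refine Q1_congr (Rf_poly (Polynomial.C 3 * Polynomial.X ^ 3 +
    Polynomial.C (32 / 9) * Polynomial.X ^ 2 +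
      Polynomial.C (4 / 9) * Polynomial.X - Polynomial.C (4 / 9))) (fun z => ?_)
  unfold cq
  simp only [Polynomial.eval_mul, Polynomial.eval_add, Polynomial.eval_sub, Polynomial.eval_pow,
    Polynomial.eval_X, Polynomial.eval_C]
  ring

theorem Q1_lin (c : ℂ) : Rf fun z => cz z + c := Rf_add Rf_cz (Rf_const c)

theorem Rf_div_z {f : ℝ → ℂ} (hf : Rf f) : Rf fun z => f z / cz z :=
  Rf_div hf (u := fun z => (cz z + 3 / 4) * (cz z + 8 / 9) * cW z * cq z)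
    (Rf_mul (Rf_mul (Rf_mul (Q1_lin _) (Q1_lin _)) Q1_cW) Q1_cq)
    (fun z => by unfold De; ring)

theorem Rf_div_W {f : ℝ → ℂ} (hf : Rf f) : Rf fun z => f z / cW z :=
  Rf_div hf (u := fun z => cz z * (cz z + 3 / 4) * (cz z + 8 / 9) * cq z)
    (Rf_mul (Rf_mul (Rf_mul Rf_cz (Q1_lin _)) (Q1_lin _)) Q1_cq)
    (fun z => by unfold De; ring)

theorem Rf_div_W2 {f : ℝ → ℂ} (hf : Rf f) : Rf fun z => f z / cW z ^ 2 :=
  Q1_congr (Rf_div_W (Rf_div_W hf)) (fun z => by rw [div_div, pow_two])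

theorem Rf_div_q {f : ℝ → ℂ} (hf : Rf f) : Rf fun z => f z / cq z :=
  Rf_div hf (u := fun z => cz z * (cz z + 3 / 4) * (cz z + 8 / 9) * cW z)
    (Rf_mul (Rf_mul (Rf_mul Rf_cz (Q1_lin _)) (Q1_lin _)) Q1_cW)
    (fun z => by unfold De; ring)

theorem Rf_div_k {f : ℝ → ℂ} (hf : Rf f) :
    Rf fun z => f z / (4 * ((cz z + 3 / 4) * (cz z + 8 / 9)) * cq z) :=
  Rf_div hf (u := fun z => (1 / 4) * (cz z * cW z))
    (Rf_mul (Rf_const _) (Rf_mul Rf_cz Q1_cW))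
    (fun z => by unfold De; ring)

theorem Q1_hasDeriv_poly (p : Polynomial ℂ) (z : ℝ) :
    HasDerivAt (fun z : ℝ => p.eval (cz z)) ((Polynomial.derivative p).eval (cz z)) z := by
  have h := (Polynomial.hasDerivAt p (z : ℂ)).comp_ofReal
  exact h

theorem Q1_open : IsOpen {z : ℝ | De z ≠ 0} := by
  have h : Continuous De := by
    have h1 : De = fun z => Q1_pD.eval (cz z) := funext Q1_De
    rw [h1]
    exact continuous_iff_continuousAt.2 (fun z => (Q1_hasDeriv_poly Q1_pD z).continuousAt)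
  exact isOpen_ne_fun h continuous_const

theorem Q1_hasDeriv {f : ℝ → ℂ} {p : Polynomial ℂ} {n : ℕ}
    (hp : ∀ z : ℝ, De z ≠ 0 → f z = p.eval (cz z) / De z ^ n) {z : ℝ} (hz : De z ≠ 0) :
    HasDerivAt f ((Polynomial.derivative p * Q1_pD ^ n -
      p * (Polynomial.C (n : ℂ) * Q1_pD ^ (n - 1) * Polynomial.derivative Q1_pD)).eval (cz z) /
        De z ^ (n * 2)) z := by
  have h1 := Q1_hasDeriv_poly p z
  have h2 := (Q1_hasDeriv_poly Q1_pD z).pow n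
  have h4 : (fun z : ℝ => Q1_pD.eval (cz z)) ^ n = fun z : ℝ => De z ^ n := by
    funext w
    rw [Pi.pow_apply, Q1_De]
  rw [h4] at h2
  have h3 := h1.div h2 (pow_ne_zero n hz)
  have h5 : f =ᶠ[nhds z] ((fun z : ℝ => p.eval (cz z)) / fun z : ℝ => De z ^ n) := by
    filter_upwards [Q1_open.mem_nhds hz] with w hw
    exact hp w hw
  have h6 := h3.congr_of_eventuallyEq h5
  refine HasDerivAt.congr_deriv h6 ?_
  rw [Polynomial.eval_sub, Polynomial.eval_mul, Polynomial.eval_mul, Polynomial.eval_mul,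
    Polynomial.eval_mul, Polynomial.eval_pow, Polynomial.eval_pow, Polynomial.eval_C, ← Q1_De,
    pow_mul]

theorem Rf_deriv {f : ℝ → ℂ} (hf : Rf f) : Rf fun z => deriv f z := by
  obtain ⟨p, n, hp⟩ := hf
  exact ⟨_, n * 2, fun z hz => (Q1_hasDeriv hp hz).deriv⟩

theorem Rf_diff {f : ℝ → ℂ} (hf : Rf f) {z : ℝ} (hz : De z ≠ 0) : DifferentiableAt ℝ f z := by
  obtain ⟨p, n, hp⟩ := hf
  exact (Q1_hasDeriv hp hz).differentiableAt

theorem Q1_cN : Rf cN :=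
  Q1_congr (Rf_mul (Rf_mul (Rf_neg Rf_cz) (Q1_lin (3 / 4))) (Q1_lin (8 / 9))) (fun _ => rfl)

theorem Q1_ph : Rf ph :=
  Q1_congr (Rf_div_q (Rf_mul (Rf_mul (Rf_const (-2)) Q1_cN) Q1_cW)) (fun _ => rfl)

theorem Q1_rhT : Rf rhT :=
  Q1_congr (Rf_sub (Rf_neg (Q1_lin 1)) (Rf_div_z Q1_ph)) (fun _ => rfl)

theorem Rf_Dt {f : ℝ → ℂ} (hf : Rf f) (n : ℕ) : Rf (Dt n f) :=
  Q1_congr (Rf_mul Q1_ph (Rf_sub (Rf_mul (Q1_lin 1) (Rf_deriv hf)) (Rf_mul (Rf_const (n : ℂ)) hf)))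
    (fun _ => rfl)

theorem Rf_D1t {f : ℝ → ℂ} (hf : Rf f) (n : ℕ) : Rf (D1t n f) :=
  Q1_congr (Rf_add (Rf_Dt hf n) (Rf_mul (Q1_lin 1) (Rf_mul Q1_rhT hf))) (fun _ => rfl)

theorem Rf_zero {f : ℝ → ℂ} (hf : Rf f) (h : ∀ z ∈ Set.Ioo (-(3 / 4) : ℝ) 0, f z = 0) {z : ℝ}
    (hz : De z ≠ 0) : f z = 0 := by
  obtain ⟨p, n, hp⟩ := hf
  have h1 : ∀ w ∈ Set.Ioo (-(3 / 4) : ℝ) 0, p.IsRoot (w : ℂ) := by
    intro w hw
    have h2 := hp w (De_ne hw)
    rw [h w hw, eq_comm, div_eq_zero_iff] at h2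
    rcases h2 with h2 | h2
    · exact h2
    · exact absurd h2 (pow_ne_zero n (De_ne hw))
  have h3 : p = 0 := by
    apply Polynomial.eq_zero_of_infinite_isRoot
    have h4 : (Set.Ioo (-(3 / 4) : ℝ) 0).Infinite := Set.Ioo_infinite (by norm_num)
    have h5 := h4.image (f := fun w : ℝ => (w : ℂ)) (Complex.ofReal_injective.injOn)
    refine h5.mono ?_
    rintro _ ⟨w, hw, rfl⟩
    exact h1 w hw
  rw [hp z hz, h3, Polynomial.eval_zero, zero_div]

end H99.EQ
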