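import Pool.Agent.H99.EQ.Q1

/-!
# EQ-Q2: the explicit functions are rational with denominators `De ^ n`

Job EQ-Q2. Unfold the definitions of E0 and use the closure properties of Q1.
-/

set_option autoImplicit false
set_option linter.unreachableTactic false
set_option linter.unusedTactic false

open Complex
open scoped ContDiff

noncomputable section

namespace H99.EQ

variable (P : Par)

private theorem Rf_div_const {f : ℝ → ℂ} (hf : Rf f) (c : ℂ) : Rf fun z => f z / c := by
  have h := Rf_mul hf (Rf_const c⁻¹)
  simpa only [div_eq_mul_inv] using h

theorem Rf_cN : Rf cN := by
  unfold cN
  repeat' first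
    | exact Rf_const _
    | exact Rf_cz
    | assumption
    | with_reducible apply Rf_div_k
    | with_reducible apply Rf_div_W2
    | with_reducible apply Rf_div_W
    | with_reducible apply Rf_div_q
    | with_reducible apply Rf_div_z
    | with_reducible apply Rf_add
    | with_reducible apply Rf_sub
    | with_reducible apply Rf_mul
    | with_reducible apply Rf_neg
    | with_reducible apply Rf_pow
    | with_reducible apply Rf_Dt
    | with_reducible apply Rf_D1t
    | with_reducible apply Rf_div_const

theorem Rf_cN1 : Rf cN1 := by
  unfold cN1
  repeat' first
    | exact Rf_const _
    | exact Rf_cz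
    | assumption
    | with_reducible apply Rf_div_k
    | with_reducible apply Rf_div_W2
    | with_reducible apply Rf_div_W
    | with_reducible apply Rf_div_q
    | with_reducible apply Rf_div_z
    | with_reducible apply Rf_add
    | with_reducible apply Rf_sub
    | with_reducible apply Rf_mul
    | with_reducible apply Rf_neg
    | with_reducible apply Rf_pow
    | with_reducible apply Rf_Dt
    | with_reducible apply Rf_D1t
    | with_reducible apply Rf_div_const

theorem Rf_cW : Rf cW := by
  unfold cW
  repeat' first
    | exact Rf_const _
    | exact Rf_cz
    | assumption
    | with_reducible apply Rf_div_k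
    | with_reducible apply Rf_div_W2
    | with_reducible apply Rf_div_W
    | with_reducible apply Rf_div_q
    | with_reducible apply Rf_div_z
    | with_reducible apply Rf_add
    | with_reducible apply Rf_sub
    | with_reducible apply Rf_mul
    | with_reducible apply Rf_neg
    | with_reducible apply Rf_pow
    | with_reducible apply Rf_Dt
    | with_reducible apply Rf_D1t
    | with_reducible apply Rf_div_const

theorem Rf_ph : Rf ph := by
  have h0 := Rf_cN
  have h1 := Rf_cW
  unfold ph
  repeat' first
    | exact Rf_const _
    | exact Rf_cz
    | assumption
    | with_reducible apply Rf_div_k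
    | with_reducible apply Rf_div_W2
    | with_reducible apply Rf_div_W
    | with_reducible apply Rf_div_q
    | with_reducible apply Rf_div_z
    | with_reducible apply Rf_add
    | with_reducible apply Rf_sub
    | with_reducible apply Rf_mul
    | with_reducible apply Rf_neg
    | with_reducible apply Rf_pow
    | with_reducible apply Rf_Dt
    | with_reducible apply Rf_D1t
    | with_reducible apply Rf_div_const

theorem Rf_Gf : Rf (Gf P) := by
  unfold Gf
  repeat' first
    | exact Rf_const _
    | exact Rf_cz
    | assumption
    | with_reducible apply Rf_div_k
    | with_reducible apply Rf_div_W2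
    | with_reducible apply Rf_div_W
    | with_reducible apply Rf_div_q
    | with_reducible apply Rf_div_z
    | with_reducible apply Rf_add
    | with_reducible apply Rf_sub
    | with_reducible apply Rf_mul
    | with_reducible apply Rf_neg
    | with_reducible apply Rf_pow
    | with_reducible apply Rf_Dt
    | with_reducible apply Rf_D1t
    | with_reducible apply Rf_div_const

theorem Rf_G1f : Rf (G1f P) := by
  unfold G1f
  repeat' first
    | exact Rf_const _
    | exact Rf_cz
    | assumption
    | with_reducible apply Rf_div_k
    | with_reducible apply Rf_div_W2
    | with_reducible apply Rf_div_W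
    | with_reducible apply Rf_div_q
    | with_reducible apply Rf_div_z
    | with_reducible apply Rf_add
    | with_reducible apply Rf_sub
    | with_reducible apply Rf_mul
    | with_reducible apply Rf_neg
    | with_reducible apply Rf_pow
    | with_reducible apply Rf_Dt
    | with_reducible apply Rf_D1t
    | with_reducible apply Rf_div_const

theorem Rf_alT : Rf (alT P) := by
  have h0 := Rf_Gf P
  have h1 := Rf_cN1
  have h2 := Rf_cN
  have h3 := Rf_G1f P
  unfold alT
  repeat' first
    | exact Rf_const _
    | exact Rf_cz
    | assumption
    | with_reducible apply Rf_div_k
    | with_reducible apply Rf_div_W2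
    | with_reducible apply Rf_div_W
    | with_reducible apply Rf_div_q
    | with_reducible apply Rf_div_z
    | with_reducible apply Rf_add
    | with_reducible apply Rf_sub
    | with_reducible apply Rf_mul
    | with_reducible apply Rf_neg
    | with_reducible apply Rf_pow
    | with_reducible apply Rf_Dt
    | with_reducible apply Rf_D1t
    | with_reducible apply Rf_div_const

theorem Rf_b3f : Rf (b3f P) := by
  unfold b3f
  repeat' first
    | exact Rf_const _
    | exact Rf_cz
    | assumption
    | with_reducible apply Rf_div_k
    | with_reducible apply Rf_div_W2
    | with_reducible apply Rf_div_W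
    | with_reducible apply Rf_div_q
    | with_reducible apply Rf_div_z
    | with_reducible apply Rf_add
    | with_reducible apply Rf_sub
    | with_reducible apply Rf_mul
    | with_reducible apply Rf_neg
    | with_reducible apply Rf_pow
    | with_reducible apply Rf_Dt
    | with_reducible apply Rf_D1t
    | with_reducible apply Rf_div_const

theorem Rf_aT : Rf (aT P) := by
  have h0 := Rf_alT P
  have h1 := Rf_b3f P
  unfold aT
  repeat' first
    | exact Rf_const _
    | exact Rf_cz
    | assumption
    | with_reducible apply Rf_div_k
    | with_reducible apply Rf_div_W2
    | with_reducible apply Rf_div_W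
    | with_reducible apply Rf_div_q
    | with_reducible apply Rf_div_z
    | with_reducible apply Rf_add
    | with_reducible apply Rf_sub
    | with_reducible apply Rf_mul
    | with_reducible apply Rf_neg
    | with_reducible apply Rf_pow
    | with_reducible apply Rf_Dt
    | with_reducible apply Rf_D1t
    | with_reducible apply Rf_div_const

theorem Rf_gf : Rf (gf P) := by
  have h0 := Rf_Gf P
  unfold gf
  repeat' first
    | exact Rf_const _
    | exact Rf_cz
    | assumption
    | with_reducible apply Rf_div_k
    | with_reducible apply Rf_div_W2
    | with_reducible apply Rf_div_W
    | with_reducible apply Rf_div_q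
    | with_reducible apply Rf_div_z
    | with_reducible apply Rf_add
    | with_reducible apply Rf_sub
    | with_reducible apply Rf_mul
    | with_reducible apply Rf_neg
    | with_reducible apply Rf_pow
    | with_reducible apply Rf_Dt
    | with_reducible apply Rf_D1t
    | with_reducible apply Rf_div_const

theorem Rf_cU : Rf cU := by
  have h0 := Rf_cN
  unfold cU
  repeat' first
    | exact Rf_const _
    | exact Rf_cz
    | assumption
    | with_reducible apply Rf_div_k
    | with_reducible apply Rf_div_W2
    | with_reducible apply Rf_div_W
    | with_reducible apply Rf_div_q
    | with_reducible apply Rf_div_z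
    | with_reducible apply Rf_add
    | with_reducible apply Rf_sub
    | with_reducible apply Rf_mul
    | with_reducible apply Rf_neg
    | with_reducible apply Rf_pow
    | with_reducible apply Rf_Dt
    | with_reducible apply Rf_D1t
    | with_reducible apply Rf_div_const

theorem Rf_chh : Rf chh := by
  have h0 := Rf_cN1
  unfold chh
  repeat' first
    | exact Rf_const _
    | exact Rf_cz
    | assumption
    | with_reducible apply Rf_div_k
    | with_reducible apply Rf_div_W2
    | with_reducible apply Rf_div_W
    | with_reducible apply Rf_div_q
    | with_reducible apply Rf_div_z
    | with_reducible apply Rf_add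
    | with_reducible apply Rf_sub
    | with_reducible apply Rf_mul
    | with_reducible apply Rf_neg
    | with_reducible apply Rf_pow
    | with_reducible apply Rf_Dt
    | with_reducible apply Rf_D1t
    | with_reducible apply Rf_div_const

theorem Rf_rhT : Rf rhT := by
  have h0 := Rf_ph
  unfold rhT
  repeat' first
    | exact Rf_const _
    | exact Rf_cz
    | assumption
    | with_reducible apply Rf_div_k
    | with_reducible apply Rf_div_W2
    | with_reducible apply Rf_div_W
    | with_reducible apply Rf_div_q
    | with_reducible apply Rf_div_z
    | with_reducible apply Rf_add
    | with_reducible apply Rf_sub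
    | with_reducible apply Rf_mul
    | with_reducible apply Rf_neg
    | with_reducible apply Rf_pow
    | with_reducible apply Rf_Dt
    | with_reducible apply Rf_D1t
    | with_reducible apply Rf_div_const

theorem Rf_rho2T : Rf rho2T := by
  have h0 := Rf_rhT
  unfold rho2T
  repeat' first
    | exact Rf_const _
    | exact Rf_cz
    | assumption
    | with_reducible apply Rf_div_k
    | with_reducible apply Rf_div_W2
    | with_reducible apply Rf_div_W
    | with_reducible apply Rf_div_q
    | with_reducible apply Rf_div_z
    | with_reducible apply Rf_add
    | with_reducible apply Rf_sub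
    | with_reducible apply Rf_mul
    | with_reducible apply Rf_neg
    | with_reducible apply Rf_pow
    | with_reducible apply Rf_Dt
    | with_reducible apply Rf_D1t
    | with_reducible apply Rf_div_const

theorem Rf_R1T : Rf (R1T P) := by
  have h0 := Rf_cU
  have h1 := Rf_rho2T
  have h2 := Rf_rhT
  have h3 := Rf_gf P
  have h4 := Rf_alT P
  unfold R1T
  repeat' first
    | exact Rf_const _
    | exact Rf_cz
    | assumption
    | with_reducible apply Rf_div_k
    | with_reducible apply Rf_div_W2
    | with_reducible apply Rf_div_W
    | with_reducible apply Rf_div_q
    | with_reducible apply Rf_div_z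
    | with_reducible apply Rf_add
    | with_reducible apply Rf_sub
    | with_reducible apply Rf_mul
    | with_reducible apply Rf_neg
    | with_reducible apply Rf_pow
    | with_reducible apply Rf_Dt
    | with_reducible apply Rf_D1t
    | with_reducible apply Rf_div_const

theorem Rf_R2T : Rf (R2T P) := by
  have h0 := Rf_cU
  have h1 := Rf_aT P
  have h2 := Rf_alT P
  have h3 := Rf_b3f P
  unfold R2T
  repeat' first
    | exact Rf_const _
    | exact Rf_cz
    | assumption
    | with_reducible apply Rf_div_k
    | with_reducible apply Rf_div_W2
    | with_reducible apply Rf_div_W
    | with_reducible apply Rf_div_q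
    | with_reducible apply Rf_div_z
    | with_reducible apply Rf_add
    | with_reducible apply Rf_sub
    | with_reducible apply Rf_mul
    | with_reducible apply Rf_neg
    | with_reducible apply Rf_pow
    | with_reducible apply Rf_Dt
    | with_reducible apply Rf_D1t
    | with_reducible apply Rf_div_const

theorem Rf_R3T : Rf (R3T P) := by
  have h0 := Rf_cU
  have h1 := Rf_aT P
  have h2 := Rf_alT P
  have h3 := Rf_b3f P
  have h4 := Rf_gf P
  have h5 := Rf_rho2T
  have h6 := Rf_rhT
  unfold R3T
  repeat' first
    | exact Rf_const _
    | exact Rf_cz
    | assumption
    | with_reducible apply Rf_div_k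
    | with_reducible apply Rf_div_W2
    | with_reducible apply Rf_div_W
    | with_reducible apply Rf_div_q
    | with_reducible apply Rf_div_z
    | with_reducible apply Rf_add
    | with_reducible apply Rf_sub
    | with_reducible apply Rf_mul
    | with_reducible apply Rf_neg
    | with_reducible apply Rf_pow
    | with_reducible apply Rf_Dt
    | with_reducible apply Rf_D1t
    | with_reducible apply Rf_div_const

theorem Rf_kT : Rf (kT P) := by
  have h0 := Rf_cW
  have h1 := Rf_R3T P
  have h2 := Rf_chh
  have h3 := Rf_R2T P
  have h4 := Rf_R1T P
  unfold kT
  repeat' first
    | exact Rf_const _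
    | exact Rf_cz
    | assumption
    | with_reducible apply Rf_div_k
    | with_reducible apply Rf_div_W2
    | with_reducible apply Rf_div_W
    | with_reducible apply Rf_div_q
    | with_reducible apply Rf_div_z
    | with_reducible apply Rf_add
    | with_reducible apply Rf_sub
    | with_reducible apply Rf_mul
    | with_reducible apply Rf_neg
    | with_reducible apply Rf_pow
    | with_reducible apply Rf_Dt
    | with_reducible apply Rf_D1t
    | with_reducible apply Rf_div_const

theorem Rf_XT : Rf (XT P) := by
  have h0 := Rf_R1T P
  have h1 := Rf_cU
  have h2 := Rf_kT P
  unfold XT
  repeat' first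
    | exact Rf_const _
    | exact Rf_cz
    | assumption
    | with_reducible apply Rf_div_k
    | with_reducible apply Rf_div_W2
    | with_reducible apply Rf_div_W
    | with_reducible apply Rf_div_q
    | with_reducible apply Rf_div_z
    | with_reducible apply Rf_add
    | with_reducible apply Rf_sub
    | with_reducible apply Rf_mul
    | with_reducible apply Rf_neg
    | with_reducible apply Rf_pow
    | with_reducible apply Rf_Dt
    | with_reducible apply Rf_D1t
    | with_reducible apply Rf_div_const

theorem Rf_b4T : Rf (b4T P) := by
  have h0 := Rf_R2T P
  have h1 := Rf_XT P
  have h2 := Rf_kT P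
  unfold b4T
  repeat' first
    | exact Rf_const _
    | exact Rf_cz
    | assumption
    | with_reducible apply Rf_div_k
    | with_reducible apply Rf_div_W2
    | with_reducible apply Rf_div_W
    | with_reducible apply Rf_div_q
    | with_reducible apply Rf_div_z
    | with_reducible apply Rf_add
    | with_reducible apply Rf_sub
    | with_reducible apply Rf_mul
    | with_reducible apply Rf_neg
    | with_reducible apply Rf_pow
    | with_reducible apply Rf_Dt
    | with_reducible apply Rf_D1t
    | with_reducible apply Rf_div_const

theorem Rf_VT : Rf (VT P) := by
  have h0 := Rf_alT P
  have h1 := Rf_XT P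
  unfold VT
  repeat' first
    | exact Rf_const _
    | exact Rf_cz
    | assumption
    | with_reducible apply Rf_div_k
    | with_reducible apply Rf_div_W2
    | with_reducible apply Rf_div_W
    | with_reducible apply Rf_div_q
    | with_reducible apply Rf_div_z
    | with_reducible apply Rf_add
    | with_reducible apply Rf_sub
    | with_reducible apply Rf_mul
    | with_reducible apply Rf_neg
    | with_reducible apply Rf_pow
    | with_reducible apply Rf_Dt
    | with_reducible apply Rf_D1t
    | with_reducible apply Rf_div_const

theorem Rf_b5T : Rf (b5T P) := by
  have h0 := Rf_alT P
  have h1 := Rf_kT P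
  have h2 := Rf_VT P
  have h3 := Rf_aT P
  have h4 := Rf_b4T P
  unfold b5T
  repeat' first
    | exact Rf_const _
    | exact Rf_cz
    | assumption
    | with_reducible apply Rf_div_k
    | with_reducible apply Rf_div_W2
    | with_reducible apply Rf_div_W
    | with_reducible apply Rf_div_q
    | with_reducible apply Rf_div_z
    | with_reducible apply Rf_add
    | with_reducible apply Rf_sub
    | with_reducible apply Rf_mul
    | with_reducible apply Rf_neg
    | with_reducible apply Rf_pow
    | with_reducible apply Rf_Dt
    | with_reducible apply Rf_D1t
    | with_reducible apply Rf_div_const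

theorem Rf_S9T : Rf (S9T P) := by
  have h0 := Rf_alT P
  have h1 := Rf_kT P
  have h2 := Rf_VT P
  have h3 := Rf_b5T P
  unfold S9T
  repeat' first
    | exact Rf_const _
    | exact Rf_cz
    | assumption
    | with_reducible apply Rf_div_k
    | with_reducible apply Rf_div_W2
    | with_reducible apply Rf_div_W
    | with_reducible apply Rf_div_q
    | with_reducible apply Rf_div_z
    | with_reducible apply Rf_add
    | with_reducible apply Rf_sub
    | with_reducible apply Rf_mul
    | with_reducible apply Rf_neg
    | with_reducible apply Rf_pow
    | with_reducible apply Rf_Dt
    | with_reducible apply Rf_D1t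
    | with_reducible apply Rf_div_const

end H99.EQ
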