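import Pool.Agent.H99.EQ.R1
import Pool.Agent.H99.EQ.R2

/-!
# EQ-R3: the elements of `Sm` and of `C2`

Job EQ-R3. `ofZ f = f ∘ zz` (complex valued); with `f` smooth on `(-3/4, 0)` and
`zz_mem` the composition is smooth (`ContDiffOn.comp_contDiff`), so `mkSm_coe` applies, and
`X1 (ofZ f) = gx * (f ∘ zz)' = rfac * (8/3) * u1³ * f' * (3/8)/u1³ = (rfac f') ∘ zz`
(`X1 = gxS • dS`, `dS` is `fderiv ℝ _ x 1`).
Then the identities of `R1.lean`.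
-/

set_option autoImplicit false

open Complex
open scoped ContDiff

noncomputable section

namespace H99.EQ

theorem gx_cd : ContDiff ℝ ∞ gx := by
  have h1 : ContDiff ℝ ∞ fun τ => rfac (zz τ) := rfac_cd.comp_contDiff zz_cd zz_mem
  exact (h1.mul contDiff_const).mul (u1_cd.pow 3)

theorem gx_pos (τ : ℝ) : 0 < gx τ := by
  have h1 := rfac_pos (zz_mem τ)
  have h2 := u1_pos τ
  unfold gx
  positivity

theorem R3_gxS_coe : (gxS : ℝ → ℂ) = fun τ => ((gx τ : ℝ) : ℂ) :=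
  mkSm_coe (Complex.ofRealCLM.contDiff.comp gx_cd)

theorem X1_apply (f : Sm) (τ : ℝ) : (X1 f : ℝ → ℂ) τ = (gx τ : ℂ) * fderiv ℝ (f : ℝ → ℂ) τ 1 := by
  change (gxS : ℝ → ℂ) τ * fderiv ℝ (f : ℝ → ℂ) τ 1 = _
  rw [R3_gxS_coe]

theorem R3_ofZ_coe {f : ℝ → ℝ} (hf : ContDiffOn ℝ ∞ f (Set.Ioo (-(3 / 4)) 0)) :
    (ofZ f : ℝ → ℂ) = fun τ => ((f (zz τ) : ℝ) : ℂ) :=
  mkSm_coe (Complex.ofRealCLM.contDiff.comp (hf.comp_contDiff zz_cd zz_mem))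

theorem ofZ_apply {f : ℝ → ℝ} (hf : ContDiffOn ℝ ∞ f (Set.Ioo (-(3 / 4)) 0)) (τ : ℝ) :
    (ofZ f : ℝ → ℂ) τ = ((f (zz τ) : ℝ) : ℂ) := by
  rw [R3_ofZ_coe hf]

theorem X1_ofZ {f : ℝ → ℝ} (hf : ContDiffOn ℝ ∞ f (Set.Ioo (-(3 / 4)) 0)) (τ : ℝ) :
    (X1 (ofZ f) : ℝ → ℂ) τ = ((rfac (zz τ) * deriv f (zz τ) : ℝ) : ℂ) := by
  rw [X1_apply, R3_ofZ_coe hf]
  have h1 : HasDerivAt f (deriv f (zz τ)) (zz τ) := by
    have h := (hf.contDiffAt (isOpen_Ioo.mem_nhds (zz_mem τ))).differentiableAt (by simp)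
    exact h.hasDerivAt
  have h2 : HasDerivAt (fun τ => f (zz τ)) (deriv f (zz τ) * (3 / 8 * (1 / u1 τ ^ 3))) τ :=
    h1.comp τ (zz_deriv τ)
  have h3 := h2.ofReal_comp
  have h4 : fderiv ℝ (fun τ => ((f (zz τ) : ℝ) : ℂ)) τ 1 =
      ((deriv f (zz τ) * (3 / 8 * (1 / u1 τ ^ 3)) : ℝ) : ℂ) := by
    rw [fderiv_apply_one_eq_deriv]
    exact h3.deriv
  rw [h4, ← Complex.ofReal_mul]
  congr 1
  have h5 := (u1_pos τ).ne'
  unfold gx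
  field_simp

/-- inverse of a nowhere vanishing function -/
theorem Sm_isUnit {f : Sm} (h : ∀ τ, (f : ℝ → ℂ) τ ≠ 0) : IsUnit f := by
  refine IsUnit.of_mul_eq_one (⟨fun τ => ((f : ℝ → ℂ) τ)⁻¹, (Sm_cd f).inv h⟩ : Sm) ?_
  apply Subtype.ext
  funext τ
  exact mul_inv_cancel₀ (h τ)

theorem R3_id_cd : ContDiffOn ℝ ∞ (id : ℝ → ℝ) (Set.Ioo (-(3 / 4)) 0) := contDiffOn_id

theorem X1_zS : X1 zS = facS := by
  apply Subtype.ext
  funext τ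
  rw [zS, X1_ofZ R3_id_cd, facS, ofZ_apply rfac_cd]
  simp

theorem X1_hdS : X1 hdS = rhoS * hdS := by
  apply Subtype.ext
  funext τ
  change (X1 hdS : ℝ → ℂ) τ = (rhoS : ℝ → ℂ) τ * (hdS : ℝ → ℂ) τ
  rw [hdS, X1_ofZ rhd_cd, rhoS, ofZ_apply rrho_cd, ofZ_apply rhd_cd, rhd_deriv (zz_mem τ)]
  push_cast
  ring

theorem hdS_sq : hdS * hdS = laS := by
  apply Subtype.ext
  funext τ
  change (hdS : ℝ → ℂ) τ * (hdS : ℝ → ℂ) τ = (laS : ℝ → ℂ) τ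
  rw [hdS, ofZ_apply rhd_cd, laS, ofZ_apply rla_cd, ← Complex.ofReal_mul, rhd_sq (zz_mem τ)]

theorem laS_U : laS * UuS = 1 := by
  apply Subtype.ext
  funext τ
  change (laS : ℝ → ℂ) τ * (UuS : ℝ → ℂ) τ = 1
  rw [UuS, ofZ_apply rU_cd, laS, ofZ_apply rla_cd, ← Complex.ofReal_mul, rla_rU (zz_mem τ)]
  simp

theorem X1_laS : X1 laS = 2 * rhoS * laS := by
  rw [← hdS_sq, Derivation.leibniz, X1_hdS, smul_eq_mul]
  ring

theorem X1_UuS : X1 UuS = -(2 * rhoS * UuS) := by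
  have h1 : X1 (laS * UuS) = 0 := by rw [laS_U]; exact X1.map_one_eq_zero
  rw [Derivation.leibniz, X1_laS, smul_eq_mul, smul_eq_mul] at h1
  have h2 := laS_U
  linear_combination UuS * h1 - (X1 UuS + 2 * rhoS * UuS) * h2

theorem X1_hhS : X1 hhS = 1 - rhoS * hhS := by
  apply Subtype.ext
  funext τ
  change (X1 hhS : ℝ → ℂ) τ = 1 - (rhoS : ℝ → ℂ) τ * (hhS : ℝ → ℂ) τ
  rw [hhS, X1_ofZ rhh_cd, rhoS, ofZ_apply rrho_cd, ofZ_apply rhh_cd, rhh_deriv (zz_mem τ)]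
  push_cast
  ring

/-- `facS = - ζ (1 + ρ)` -/
theorem facS_eq : facS = -(zS * (1 + rhoS)) := by
  apply Subtype.ext
  funext τ
  change (facS : ℝ → ℂ) τ = -((zS : ℝ → ℂ) τ * (1 + (rhoS : ℝ → ℂ) τ))
  rw [facS, ofZ_apply rfac_cd, zS, ofZ_apply R3_id_cd, rhoS, ofZ_apply rrho_cd]
  have h : zz τ ≠ 0 := (zz_mem τ).2.ne
  have h1 : rfac (zz τ) = -(id (zz τ) * (1 + rrho (zz τ))) := by
    unfold rrho
    simp only [id]
    field_simp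
    ring
  rw [h1]
  push_cast
  rfl

theorem R3_ofZ_unit {f : ℝ → ℝ} (hf : ContDiffOn ℝ ∞ f (Set.Ioo (-(3 / 4)) 0))
    (h : ∀ z ∈ Set.Ioo (-(3 / 4) : ℝ) 0, f z ≠ 0) : IsUnit (ofZ f) := by
  apply Sm_isUnit
  intro τ
  rw [ofZ_apply hf]
  exact Complex.ofReal_ne_zero.2 (h _ (zz_mem τ))

theorem zS_unit : IsUnit zS := R3_ofZ_unit R3_id_cd fun _ hz => hz.2.ne

theorem hdS_unit : IsUnit hdS := R3_ofZ_unit rhd_cd fun _ hz => (rhd_pos hz).ne'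

theorem laS_unit : IsUnit laS := R3_ofZ_unit rla_cd fun _ hz => (rla_pos hz).ne'

theorem facS_unit : IsUnit facS := R3_ofZ_unit rfac_cd fun _ hz => (rfac_pos hz).ne'

theorem gxS_unit : IsUnit gxS := by
  apply Sm_isUnit
  intro τ
  rw [R3_gxS_coe]
  exact Complex.ofReal_ne_zero.2 (gx_pos τ).ne'

theorem R3_rel {z : ℝ} (h : z ∈ Set.Ioo (-(3 / 4) : ℝ) 0) :
    rla z * rhh z = z + rrho z * (rla z + z) := by
  have hN := (rN_pos h).ne'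
  have hW := (rW_pos h).ne'
  have hQ := (rQ_neg h).ne
  have hz : z ≠ 0 := h.2.ne
  have e1 : rla z + z = -rQ z / (4 * rN z) := by
    have := rW_id z
    unfold rla
    field_simp
    linear_combination this
  have e2 : rN1 z * z = rW z * z + 2 * rN z := by
    unfold rN1 rW rN
    ring
  have e3 : rN1 z = rW z + 2 * rN z / z := by
    field_simp
    linear_combination e2
  have e4 := rW_id z
  rw [e1]
  unfold rla rhh rrho rfac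
  rw [e3]
  have e5 : rQ z = -(rW z ^ 2 + 4 * z * rN z) := by linear_combination e4
  field_simp
  rw [e5]
  ring

/-- `h' = ḣ`: `λ ρ + ... `, the relation `λ ĥ = ζ + ρ (λ + ζ)` of the metric -/
theorem rel_lhh : laS * hhS = zS + rhoS * (laS + zS) := by
  apply Subtype.ext
  funext τ
  change (laS : ℝ → ℂ) τ * (hhS : ℝ → ℂ) τ =
    (zS : ℝ → ℂ) τ + (rhoS : ℝ → ℂ) τ * ((laS : ℝ → ℂ) τ + (zS : ℝ → ℂ) τ)
  rw [laS, ofZ_apply rla_cd, hhS, ofZ_apply rhh_cd, zS, ofZ_apply R3_id_cd, rhoS,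
    ofZ_apply rrho_cd, ← Complex.ofReal_mul, R3_rel (zz_mem τ)]
  push_cast
  rfl

end H99.EQ
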