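import Pool.Agent.H99.EQ.R3

/-!
# EQ-R4: frames on `C2` and `C3`

Job EQ-R4. Everything is evaluation at points (`Subtype.ext`, `funext`), chain rule for
compositions with linear projections, and symmetry of second derivatives
(`dE v (dE w f) = dE w (dE v f)`: `ContDiffAt.isSymmSndFDerivAt` or
`second_derivative_symmetric`, see the commuting lemma `dE_comm`).
`X2 = io gxS • dE (1,0)` and `gxS` does not depend on `y`, so `X2`, `Y2` commute; similarly for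
`S3, X3, Y3` (`fr3 = ![S3, X3, Y3]`, the coefficients depend on `σ` only, on `τ` only, and are
constant). Smoothness of `1/deriv sg`: `sg_cd`, `sg_deriv_pos`.
-/

set_option autoImplicit false

open Complex
open scoped ContDiff

noncomputable section

namespace H99.EQ

theorem R4_dE_apply {E : Type*} [NormedAddCommGroup E] [NormedSpace ℝ E] (v : E × ℝ) (f : Cy E)
    (p : E × ℝ) : (dE v f : E × ℝ → ℂ) p = fderiv ℝ (f : E × ℝ → ℂ) p v := rfl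

theorem R4_mul_apply {E : Type*} [NormedAddCommGroup E] [NormedSpace ℝ E] (f g : Cy E)
    (p : E × ℝ) : ((f * g : Cy E) : E × ℝ → ℂ) p = (f : E × ℝ → ℂ) p * (g : E × ℝ → ℂ) p := rfl

theorem R4_ext {E : Type*} [NormedAddCommGroup E] [NormedSpace ℝ E] {f g : Cy E}
    (h : ∀ p, (f : E × ℝ → ℂ) p = (g : E × ℝ → ℂ) p) : f = g := Subtype.ext (funext h)

theorem R4_snd {E : Type*} [NormedAddCommGroup E] [NormedSpace ℝ E] {f : E → ℂ}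
    (hf : ContDiff ℝ ∞ f) (p v w : E) :
    fderiv ℝ (fun x => fderiv ℝ f x w) p v = fderiv ℝ (fderiv ℝ f) p v w := by
  have h1 : Differentiable ℝ (fderiv ℝ f) :=
    (hf.fderiv_right (m := ∞) (by simp)).differentiable (by simp)
  have h2 := fderiv_clm_apply (𝕜 := ℝ) (c := fderiv ℝ f) (u := fun _ : E => w) (x := p)
    (h1 p) (differentiableAt_const w)
  rw [h2]
  simp

theorem dE_comm {E : Type*} [NormedAddCommGroup E] [NormedSpace ℝ E] (v w : E × ℝ) (f : Cy E) :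
    dE v (dE w f) = dE w (dE v f) := by
  apply R4_ext
  intro p
  have h1 : (dE v (dE w f) : E × ℝ → ℂ) p =
      fderiv ℝ (fun x => fderiv ℝ (f : E × ℝ → ℂ) x w) p v := rfl
  have h2 : (dE w (dE v f) : E × ℝ → ℂ) p =
      fderiv ℝ (fun x => fderiv ℝ (f : E × ℝ → ℂ) x v) p w := rfl
  rw [h1, h2, R4_snd f.2.1, R4_snd f.2.1]
  have hs : IsSymmSndFDerivAt ℝ (f : E × ℝ → ℂ) p := by
    apply ContDiffAt.isSymmSndFDerivAt (n := ∞) f.2.1.contDiffAt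
    rw [minSmoothness_of_isRCLikeNormedField]
    exact WithTop.coe_le_coe.2 le_top
  exact hs v w

/-- commuting first order operators -/
theorem R4_comm {E : Type*} [NormedAddCommGroup E] [NormedSpace ℝ E] (a b : Cy E)
    (v w : E × ℝ) (h1 : dE v b = 0) (h2 : dE w a = 0) :
    dv (a • dE v) * dv (b • dE w) = dv (b • dE w) * dv (a • dE v) := by
  ext1 f
  have e1 : dv (a • dE v) (dv (b • dE w) f) = a * (dE v (b * dE w f)) := rfl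
  have e2 : dv (b • dE w) (dv (a • dE v) f) = b * (dE w (a * dE v f)) := rfl
  change dv (a • dE v) (dv (b • dE w) f) = dv (b • dE w) (dv (a • dE v) f)
  rw [e1, e2, Derivation.leibniz, Derivation.leibniz, h1, h2, smul_zero, smul_zero, add_zero,
    add_zero, smul_eq_mul, smul_eq_mul, dE_comm v w f]
  ring

theorem R4_Y2 : Y2 = (1 : C2) • dE (0, 1) := by
  rw [one_smul]; rfl

theorem R4_Y3 : Y3 = (1 : C3) • dE (((0, 0), 1) : (ℝ × ℝ) × ℝ) := by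
  rw [one_smul]; rfl

theorem R4_gx_cd : ContDiff ℝ ∞ (fun τ => ((gx τ : ℝ) : ℂ)) :=
  Complex.ofRealCLM.contDiff.comp gx_cd

theorem R4_gxS (τ : ℝ) : (gxS : ℝ → ℂ) τ = ((gx τ : ℝ) : ℂ) := by
  unfold gxS
  rw [mkSm_coe R4_gx_cd]

theorem X2_apply (f : C2) (p : ℝ × ℝ) :
    (X2 f : ℝ × ℝ → ℂ) p = (gx p.1 : ℂ) * fderiv ℝ (f : ℝ × ℝ → ℂ) p (1, 0) := by
  have h : (X2 f : ℝ × ℝ → ℂ) p = (gxS : ℝ → ℂ) p.1 * fderiv ℝ (f : ℝ × ℝ → ℂ) p (1, 0) := rfl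
  rw [h, R4_gxS]

theorem Y2_apply (f : C2) (p : ℝ × ℝ) :
    (Y2 f : ℝ × ℝ → ℂ) p = fderiv ℝ (f : ℝ × ℝ → ℂ) p (0, 1) := rfl

/-- derivative of a function of the first variable -/
theorem R4_fst {E F : Type*} [NormedAddCommGroup E] [NormedSpace ℝ E] [NormedAddCommGroup F]
    [NormedSpace ℝ F] {g : E → ℂ} (p : E × F) (hg : DifferentiableAt ℝ g p.1) (v : E × F) :
    fderiv ℝ (fun q : E × F => g q.1) p v = fderiv ℝ g p.1 v.1 := by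
  have h := (hg.hasFDerivAt).comp p (hasFDerivAt_fst (𝕜 := ℝ) (p := p))
  have h2 : fderiv ℝ (fun q : E × F => g q.1) p =
      (fderiv ℝ g p.1).comp (ContinuousLinearMap.fst ℝ E F) := h.fderiv
  rw [h2]
  rfl

theorem R4_snd' {E F : Type*} [NormedAddCommGroup E] [NormedSpace ℝ E] [NormedAddCommGroup F]
    [NormedSpace ℝ F] {g : F → ℂ} (p : E × F) (hg : DifferentiableAt ℝ g p.2) (v : E × F) :
    fderiv ℝ (fun q : E × F => g q.2) p v = fderiv ℝ g p.2 v.2 := by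
  have h := (hg.hasFDerivAt).comp p (hasFDerivAt_snd (𝕜 := ℝ) (p := p))
  have h2 : fderiv ℝ (fun q : E × F => g q.2) p =
      (fderiv ℝ g p.2).comp (ContinuousLinearMap.snd ℝ E F) := h.fderiv
  rw [h2]
  rfl

/-- chain rule with a continuous linear map -/
theorem R4_lin {E F : Type*} [NormedAddCommGroup E] [NormedSpace ℝ E] [NormedAddCommGroup F]
    [NormedSpace ℝ F] {g : F → ℂ} (L : E →L[ℝ] F) (p : E) (hg : DifferentiableAt ℝ g (L p))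
    (v : E) :
    fderiv ℝ (fun q : E => g (L q)) p v = fderiv ℝ g (L p) (L v) := by
  have h := (hg.hasFDerivAt).comp p L.hasFDerivAt
  have h2 : fderiv ℝ (fun q : E => g (L q)) p = (fderiv ℝ g (L p)).comp L := h.fderiv
  rw [h2]
  rfl

theorem R4_io (f : Sm) (p v : ℝ × ℝ) :
    fderiv ℝ (io f : ℝ × ℝ → ℂ) p v = fderiv ℝ (f : ℝ → ℂ) p.1 v.1 := by
  have h : (io f : ℝ × ℝ → ℂ) = fun q : ℝ × ℝ => (f : ℝ → ℂ) q.1 := rfl
  rw [h]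
  exact R4_fst p ((Sm_cd f).differentiable (by simp) p.1) v

theorem X2_io (f : Sm) : X2 (io f) = io (X1 f) := by
  apply R4_ext
  intro p
  rw [X2_apply, R4_io]
  have h : (io (X1 f) : ℝ × ℝ → ℂ) p = (X1 f : ℝ → ℂ) p.1 := rfl
  rw [h, X1_apply]

theorem Y2_io (f : Sm) : Y2 (io f) = 0 := by
  apply R4_ext
  intro p
  rw [Y2_apply, R4_io]
  simp

theorem R4_cos_cd : ContDiff ℝ ∞ (fun y : ℝ => ((Real.cos y : ℝ) : ℂ)) :=
  Complex.ofRealCLM.contDiff.comp Real.contDiff_cos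

theorem R4_sin_cd : ContDiff ℝ ∞ (fun y : ℝ => ((Real.sin y : ℝ) : ℂ)) :=
  Complex.ofRealCLM.contDiff.comp Real.contDiff_sin

theorem R4_e_cd (k : ℤ) : ContDiff ℝ ∞ (fun y : ℝ => exp (I * k * (y : ℂ))) :=
  ((contDiff_const (c := I * (k : ℂ))).mul Complex.ofRealCLM.contDiff).cexp

theorem R4_cosY : (cosY : ℝ × ℝ → ℂ) = fun p => ((Real.cos p.2 : ℝ) : ℂ) := by
  unfold cosY
  apply mkCy_coe
  · exact R4_cos_cd.comp contDiff_snd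
  · intro e y
    simp only [Real.cos_add_two_pi]

theorem R4_sinY : (sinY : ℝ × ℝ → ℂ) = fun p => ((Real.sin p.2 : ℝ) : ℂ) := by
  unfold sinY
  apply mkCy_coe
  · exact R4_sin_cd.comp contDiff_snd
  · intro e y
    simp only [Real.sin_add_two_pi]

theorem R4_eY (k : ℤ) : (eY k : ℝ × ℝ → ℂ) = fun p => exp (I * k * (p.2 : ℂ)) := by
  unfold eY
  apply mkCy_coe
  · exact (R4_e_cd k).comp contDiff_snd
  · intro e y
    have h : I * (k : ℂ) * (((y + 2 * Real.pi : ℝ)) : ℂ) =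
        I * k * (y : ℂ) + k * (2 * Real.pi * I) := by
      push_cast; ring
    simp only [h, Complex.exp_add, Complex.exp_int_mul_two_pi_mul_I, mul_one]

theorem cosY_apply (p : ℝ × ℝ) : (cosY : ℝ × ℝ → ℂ) p = ((Real.cos p.2 : ℝ) : ℂ) := by
  rw [R4_cosY]

theorem sinY_apply (p : ℝ × ℝ) : (sinY : ℝ × ℝ → ℂ) p = ((Real.sin p.2 : ℝ) : ℂ) := by
  rw [R4_sinY]

theorem eY_apply (k : ℤ) (p : ℝ × ℝ) : (eY k : ℝ × ℝ → ℂ) p = exp (I * k * (p.2 : ℂ)) := by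
  rw [R4_eY]

theorem eY_mul (k l : ℤ) : eY k * eY l = eY (k + l) := by
  apply R4_ext
  intro p
  rw [R4_mul_apply, eY_apply, eY_apply, eY_apply, ← Complex.exp_add]
  congr 1
  push_cast
  ring

theorem eY_zero : eY 0 = 1 := by
  apply R4_ext
  intro p
  rw [eY_apply]
  simp

theorem X2_eY (k : ℤ) : X2 (eY k) = 0 := by
  apply R4_ext
  intro p
  rw [X2_apply, R4_eY]
  have h := R4_snd' (g := fun y : ℝ => exp (I * k * (y : ℂ))) p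
    ((R4_e_cd k).differentiable (by simp) p.2) ((1, 0) : ℝ × ℝ)
  rw [h]
  simp

theorem R4_deriv {g : ℝ → ℂ} {g' : ℂ} {y : ℝ} (h : HasDerivAt g g' y) : fderiv ℝ g y 1 = g' := by
  rw [h.hasFDerivAt.fderiv]
  simp

theorem Y2_eY (k : ℤ) : Y2 (eY k) = (I * (k : ℂ)) • eY k := by
  apply R4_ext
  intro p
  rw [Y2_apply, R4_eY]
  have h := R4_snd' (g := fun y : ℝ => exp (I * k * (y : ℂ))) p
    ((R4_e_cd k).differentiable (by simp) p.2) ((0, 1) : ℝ × ℝ)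
  rw [h]
  have h2 : HasDerivAt (fun y : ℝ => exp (I * k * (y : ℂ)))
      (exp (I * k * (p.2 : ℂ)) * (I * k * 1)) p.2 := by
    have h3 : HasDerivAt (fun y : ℝ => I * k * (y : ℂ)) (I * k * 1) p.2 :=
      (Complex.ofRealCLM.hasDerivAt (x := p.2)).const_mul (I * (k : ℂ))
    exact h3.cexp
  have h4 := R4_deriv h2
  have h5 : (((I * (k : ℂ)) • eY k : C2) : ℝ × ℝ → ℂ) p = (I * k) * (eY k : ℝ × ℝ → ℂ) p := rfl
  rw [h5, eY_apply]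
  rw [show (((0, 1) : ℝ × ℝ)).2 = (1 : ℝ) from rfl, h4]
  ring

theorem X2_cosY : X2 cosY = 0 := by
  apply R4_ext
  intro p
  rw [X2_apply, R4_cosY]
  have h := R4_snd' (g := fun y : ℝ => ((Real.cos y : ℝ) : ℂ)) p
    (R4_cos_cd.differentiable (by simp) p.2) ((1, 0) : ℝ × ℝ)
  rw [h]
  simp

theorem X2_sinY : X2 sinY = 0 := by
  apply R4_ext
  intro p
  rw [X2_apply, R4_sinY]
  have h := R4_snd' (g := fun y : ℝ => ((Real.sin y : ℝ) : ℂ)) p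
    (R4_sin_cd.differentiable (by simp) p.2) ((1, 0) : ℝ × ℝ)
  rw [h]
  simp

theorem Y2_cosY : Y2 cosY = -sinY := by
  apply R4_ext
  intro p
  rw [Y2_apply, R4_cosY]
  have h := R4_snd' (g := fun y : ℝ => ((Real.cos y : ℝ) : ℂ)) p
    (R4_cos_cd.differentiable (by simp) p.2) ((0, 1) : ℝ × ℝ)
  rw [h]
  have h2 : HasDerivAt (fun y : ℝ => ((Real.cos y : ℝ) : ℂ)) ((-Real.sin p.2 : ℝ) : ℂ) p.2 :=
    (Real.hasDerivAt_cos p.2).ofReal_comp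
  have h5 : ((-sinY : C2) : ℝ × ℝ → ℂ) p = -((sinY : ℝ × ℝ → ℂ) p) := rfl
  rw [h5, sinY_apply, show (((0, 1) : ℝ × ℝ)).2 = (1 : ℝ) from rfl, R4_deriv h2]
  push_cast
  rfl

theorem Y2_sinY : Y2 sinY = cosY := by
  apply R4_ext
  intro p
  rw [Y2_apply, R4_sinY]
  have h := R4_snd' (g := fun y : ℝ => ((Real.sin y : ℝ) : ℂ)) p
    (R4_sin_cd.differentiable (by simp) p.2) ((0, 1) : ℝ × ℝ)
  rw [h]
  have h2 : HasDerivAt (fun y : ℝ => ((Real.sin y : ℝ) : ℂ)) ((Real.cos p.2 : ℝ) : ℂ) p.2 :=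
    (Real.hasDerivAt_sin p.2).ofReal_comp
  rw [cosY_apply, show (((0, 1) : ℝ × ℝ)).2 = (1 : ℝ) from rfl, R4_deriv h2]

theorem XY_comm : dv X2 * dv Y2 = dv Y2 * dv X2 := by
  rw [R4_Y2]
  exact R4_comm (io gxS) 1 (1, 0) (0, 1) (dE (1, 0)).map_one_eq_zero (Y2_io gxS)

theorem fr2_comm (i j : Fin 2) : dv (fr2 i) * dv (fr2 j) = dv (fr2 j) * dv (fr2 i) := by
  fin_cases i <;> fin_cases j
  · rfl
  · exact XY_comm
  · exact XY_comm.symm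
  · rfl

theorem R4_isUnit {E : Type*} [NormedAddCommGroup E] [NormedSpace ℝ E] {f : Cy E}
    (h : ∀ p, (f : E × ℝ → ℂ) p ≠ 0) : IsUnit f := by
  let g : Cy E := ⟨fun p => ((f : E × ℝ → ℂ) p)⁻¹, f.2.1.inv h, fun e y => by
    change ((f : E × ℝ → ℂ) (e, y + 2 * Real.pi))⁻¹ = ((f : E × ℝ → ℂ) (e, y))⁻¹
    rw [f.2.2]⟩
  have hg : f * g = 1 := by
    apply R4_ext
    intro p
    rw [R4_mul_apply]
    exact mul_inv_cancel₀ (h p)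
  exact IsUnit.of_mul_eq_one g hg

theorem C2_isUnit {f : C2} (h : ∀ p, (f : ℝ × ℝ → ℂ) p ≠ 0) : IsUnit f := R4_isUnit h

theorem R4_fderiv_exp (θ : C2) (p v : ℝ × ℝ) :
    fderiv ℝ (fun q => exp ((θ : ℝ × ℝ → ℂ) q)) p v =
      fderiv ℝ (θ : ℝ × ℝ → ℂ) p v * exp ((θ : ℝ × ℝ → ℂ) p) := by
  have h : HasFDerivAt (θ : ℝ × ℝ → ℂ) (fderiv ℝ (θ : ℝ × ℝ → ℂ) p) p :=
    (θ.2.1.differentiable (by simp) p).hasFDerivAt
  have h2 := h.cexp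
  rw [h2.fderiv]
  simp [mul_comm]

/-- the exponential of an element of `C2`, with inverse and derivatives -/
theorem C2_exp (θ : C2) : ∃ u v : C2, u * v = 1 ∧ (∀ p, (u : ℝ × ℝ → ℂ) p = exp ((θ : ℝ × ℝ → ℂ) p)) ∧
    X2 u = X2 θ * u ∧ Y2 u = Y2 θ * u := by
  let u : C2 := ⟨fun p => exp ((θ : ℝ × ℝ → ℂ) p), θ.2.1.cexp, fun e y => by
    change exp ((θ : ℝ × ℝ → ℂ) (e, y + 2 * Real.pi)) = exp ((θ : ℝ × ℝ → ℂ) (e, y))
    rw [θ.2.2]⟩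
  let v : C2 := ⟨fun p => exp (-(θ : ℝ × ℝ → ℂ) p), θ.2.1.neg.cexp, fun e y => by
    change exp (-(θ : ℝ × ℝ → ℂ) (e, y + 2 * Real.pi)) = exp (-(θ : ℝ × ℝ → ℂ) (e, y))
    rw [θ.2.2]⟩
  have hu : (u : ℝ × ℝ → ℂ) = fun p => exp ((θ : ℝ × ℝ → ℂ) p) := rfl
  refine ⟨u, v, ?_, fun p => rfl, ?_, ?_⟩
  · apply R4_ext
    intro p
    rw [R4_mul_apply]
    change exp ((θ : ℝ × ℝ → ℂ) p) * exp (-(θ : ℝ × ℝ → ℂ) p) = 1
    rw [← Complex.exp_add]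
    simp
  · apply R4_ext
    intro p
    rw [R4_mul_apply, X2_apply, X2_apply, hu, R4_fderiv_exp]
    ring
  · apply R4_ext
    intro p
    rw [R4_mul_apply, Y2_apply, Y2_apply, hu, R4_fderiv_exp]

theorem R4_sgc_cd : ContDiff ℝ ∞ (fun σ : ℝ => ((sg σ : ℝ) : ℂ)) :=
  Complex.ofRealCLM.contDiff.comp sg_cd

theorem R4_s3 : (s3 : (ℝ × ℝ) × ℝ → ℂ) = fun p => ((sg p.1.1 : ℝ) : ℂ) := by
  unfold s3
  apply mkCy_coe
  · exact R4_sgc_cd.comp (contDiff_fst.comp contDiff_fst)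
  · intro e y
    rfl

theorem s3_apply (p : (ℝ × ℝ) × ℝ) : (s3 : (ℝ × ℝ) × ℝ → ℂ) p = ((sg p.1.1 : ℝ) : ℂ) := by
  rw [R4_s3]

theorem s3_unit : IsUnit s3 := by
  apply R4_isUnit
  intro p
  rw [s3_apply]
  exact_mod_cast (sg_pos p.1.1).ne'

/-- a function of `σ` -/
theorem R4_sig {g : ℝ → ℂ} (p : (ℝ × ℝ) × ℝ) (hg : DifferentiableAt ℝ g p.1.1)
    (v : (ℝ × ℝ) × ℝ) :
    fderiv ℝ (fun q : (ℝ × ℝ) × ℝ => g q.1.1) p v = fderiv ℝ g p.1.1 v.1.1 :=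
  R4_lin ((ContinuousLinearMap.fst ℝ ℝ ℝ).comp (ContinuousLinearMap.fst ℝ (ℝ × ℝ) ℝ)) p hg v

theorem R4_s3_fderiv (p v : (ℝ × ℝ) × ℝ) :
    fderiv ℝ (s3 : (ℝ × ℝ) × ℝ → ℂ) p v = fderiv ℝ (fun σ : ℝ => ((sg σ : ℝ) : ℂ)) p.1.1 v.1.1 := by
  rw [R4_s3]
  exact R4_sig (g := fun σ : ℝ => ((sg σ : ℝ) : ℂ)) p (R4_sgc_cd.differentiable (by simp) _) v

/-- the coefficient of `S3` -/
def R4c : C3 := mkCy fun p => ((1 / deriv sg p.1.1 : ℝ) : ℂ)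

theorem R4_ds_cd : ContDiff ℝ ∞ (fun σ : ℝ => ((1 / deriv sg σ : ℝ) : ℂ)) := by
  have h : ContDiff ℝ ∞ (deriv sg) := (contDiff_infty_iff_deriv.1 sg_cd).2
  exact Complex.ofRealCLM.contDiff.comp (contDiff_const.div h fun σ => (sg_deriv_pos σ).ne')

theorem R4c_coe : (R4c : (ℝ × ℝ) × ℝ → ℂ) = fun p => ((1 / deriv sg p.1.1 : ℝ) : ℂ) := by
  unfold R4c
  apply mkCy_coe
  · exact R4_ds_cd.comp (contDiff_fst.comp contDiff_fst)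
  · intro e y
    rfl

theorem R4_S3 : S3 = R4c • dE (((1, 0), 0) : (ℝ × ℝ) × ℝ) := rfl

theorem R4_S3_apply (f : C3) (p : (ℝ × ℝ) × ℝ) : (S3 f : (ℝ × ℝ) × ℝ → ℂ) p =
    ((1 / deriv sg p.1.1 : ℝ) : ℂ) * fderiv ℝ (f : (ℝ × ℝ) × ℝ → ℂ) p ((1, 0), 0) := by
  have h : (S3 f : (ℝ × ℝ) × ℝ → ℂ) p =
      (R4c : (ℝ × ℝ) × ℝ → ℂ) p * fderiv ℝ (f : (ℝ × ℝ) × ℝ → ℂ) p ((1, 0), 0) := rfl
  rw [h, R4c_coe]

theorem R4_X3_apply (f : C3) (p : (ℝ × ℝ) × ℝ) : (X3 f : (ℝ × ℝ) × ℝ → ℂ) p =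
    (gx p.1.2 : ℂ) * fderiv ℝ (f : (ℝ × ℝ) × ℝ → ℂ) p ((0, 1), 0) := by
  have h : (X3 f : (ℝ × ℝ) × ℝ → ℂ) p =
      (gxS : ℝ → ℂ) p.1.2 * fderiv ℝ (f : (ℝ × ℝ) × ℝ → ℂ) p ((0, 1), 0) := rfl
  rw [h, R4_gxS]

theorem R4_Y3_apply (f : C3) (p : (ℝ × ℝ) × ℝ) : (Y3 f : (ℝ × ℝ) × ℝ → ℂ) p =
    fderiv ℝ (f : (ℝ × ℝ) × ℝ → ℂ) p ((0, 0), 1) := rfl

theorem S3_s3 : S3 s3 = 1 := by
  apply R4_ext
  intro p
  rw [R4_S3_apply, R4_s3_fderiv]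
  have h2 : HasDerivAt (fun σ : ℝ => ((sg σ : ℝ) : ℂ)) ((deriv sg p.1.1 : ℝ) : ℂ) p.1.1 :=
    ((sg_cd.differentiable (by simp) p.1.1).hasDerivAt).ofReal_comp
  rw [show ((((1, 0), 0) : (ℝ × ℝ) × ℝ)).1.1 = (1 : ℝ) from rfl, R4_deriv h2]
  rw [← Complex.ofReal_mul, one_div, inv_mul_cancel₀ (sg_deriv_pos p.1.1).ne']
  simp

theorem X3_s3 : X3 s3 = 0 := by
  apply R4_ext
  intro p
  rw [R4_X3_apply, R4_s3_fderiv]
  simp

theorem Y3_s3 : Y3 s3 = 0 := by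
  apply R4_ext
  intro p
  rw [R4_Y3_apply, R4_s3_fderiv]
  simp

/-- the projection to `(τ, y)` -/
def R4L : ((ℝ × ℝ) × ℝ) →L[ℝ] (ℝ × ℝ) :=
  ((ContinuousLinearMap.snd ℝ ℝ ℝ).comp (ContinuousLinearMap.fst ℝ (ℝ × ℝ) ℝ)).prod
    (ContinuousLinearMap.snd ℝ (ℝ × ℝ) ℝ)

theorem R4_io3 (f : C2) (p v : (ℝ × ℝ) × ℝ) :
    fderiv ℝ (io3 f : (ℝ × ℝ) × ℝ → ℂ) p v =
      fderiv ℝ (f : ℝ × ℝ → ℂ) (p.1.2, p.2) (v.1.2, v.2) :=
  R4_lin R4L p (f.2.1.differentiable (by simp) _) v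

theorem S3_io3 (f : C2) : S3 (io3 f) = 0 := by
  apply R4_ext
  intro p
  rw [R4_S3_apply, R4_io3]
  have h : (((((1, 0), 0) : (ℝ × ℝ) × ℝ)).1.2, ((((1, 0), 0) : (ℝ × ℝ) × ℝ)).2) = (0 : ℝ × ℝ) := rfl
  rw [h, map_zero, mul_zero]
  rfl

theorem X3_io3 (f : C2) : X3 (io3 f) = io3 (X2 f) := by
  apply R4_ext
  intro p
  rw [R4_X3_apply, R4_io3]
  have h : (io3 (X2 f) : (ℝ × ℝ) × ℝ → ℂ) p = (X2 f : ℝ × ℝ → ℂ) (p.1.2, p.2) := rfl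
  rw [h, X2_apply]

theorem Y3_io3 (f : C2) : Y3 (io3 f) = io3 (Y2 f) := by
  apply R4_ext
  intro p
  rw [R4_Y3_apply, R4_io3]
  rfl

/-- the inclusion of `σ = 0`, linear part -/
def R4J : (ℝ × ℝ) →L[ℝ] ((ℝ × ℝ) × ℝ) :=
  ((0 : (ℝ × ℝ) →L[ℝ] ℝ).prod (ContinuousLinearMap.fst ℝ ℝ ℝ)).prod
    (ContinuousLinearMap.snd ℝ ℝ ℝ)

theorem R4_res (g : C3) (p v : ℝ × ℝ) :
    fderiv ℝ (res g : ℝ × ℝ → ℂ) p v =
      fderiv ℝ (g : (ℝ × ℝ) × ℝ → ℂ) ((0, p.1), p.2) ((0, v.1), v.2) :=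
  R4_lin R4J p (g.2.1.differentiable (by simp) _) v

theorem res_X3 (g : C3) : res (X3 g) = X2 (res g) := by
  apply R4_ext
  intro p
  have h : (res (X3 g) : ℝ × ℝ → ℂ) p = (X3 g : (ℝ × ℝ) × ℝ → ℂ) ((0, p.1), p.2) := rfl
  rw [h, R4_X3_apply, X2_apply, R4_res]

theorem res_Y3 (g : C3) : res (Y3 g) = Y2 (res g) := by
  apply R4_ext
  intro p
  have h : (res (Y3 g) : ℝ × ℝ → ℂ) p = (Y3 g : (ℝ × ℝ) × ℝ → ℂ) ((0, p.1), p.2) := rfl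
  rw [h, R4_Y3_apply, Y2_apply, R4_res]

theorem res_s3 : res s3 = algebraMap ℂ C2 ((sg 0 : ℝ) : ℂ) := by
  apply R4_ext
  intro p
  have h : (res s3 : ℝ × ℝ → ℂ) p = (s3 : (ℝ × ℝ) × ℝ → ℂ) ((0, p.1), p.2) := rfl
  rw [h, s3_apply]
  rfl

theorem R4c_dE (v : (ℝ × ℝ) × ℝ) (hv : v.1.1 = 0) : dE v R4c = 0 := by
  apply R4_ext
  intro p
  rw [R4_dE_apply, R4c_coe]
  have h := R4_sig (g := fun σ : ℝ => ((1 / deriv sg σ : ℝ) : ℂ)) p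
    (R4_ds_cd.differentiable (by simp) _) v
  rw [h, hv, map_zero]
  rfl

theorem R4_dE_io (v : (ℝ × ℝ) × ℝ) (hv : v.1.2 = 0) : dE v (io3 (io gxS)) = 0 := by
  apply R4_ext
  intro p
  rw [R4_dE_apply, R4_io3, R4_io]
  change fderiv ℝ (gxS : ℝ → ℂ) p.1.2 v.1.2 = 0
  rw [hv, map_zero]

theorem R4_SX : dv S3 * dv X3 = dv X3 * dv S3 :=
  R4_comm R4c (io3 (io gxS)) ((1, 0), 0) ((0, 1), 0) (R4_dE_io _ rfl) (R4c_dE _ rfl)

theorem R4_SY : dv S3 * dv Y3 = dv Y3 * dv S3 := by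
  rw [R4_Y3]
  exact R4_comm R4c 1 ((1, 0), 0) ((0, 0), 1)
    (dE (((1, 0), 0) : (ℝ × ℝ) × ℝ)).map_one_eq_zero (R4c_dE _ rfl)

theorem R4_XY : dv X3 * dv Y3 = dv Y3 * dv X3 := by
  rw [R4_Y3]
  exact R4_comm (io3 (io gxS)) 1 ((0, 1), 0) ((0, 0), 1)
    (dE (((0, 1), 0) : (ℝ × ℝ) × ℝ)).map_one_eq_zero (R4_dE_io _ rfl)

theorem fr3_comm (i j : Fin 3) : dv (fr3 i) * dv (fr3 j) = dv (fr3 j) * dv (fr3 i) := by
  fin_cases i <;> fin_cases j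
  · rfl
  · exact R4_SX
  · exact R4_SY
  · exact R4_SX.symm
  · rfl
  · exact R4_XY
  · exact R4_SY.symm
  · exact R4_XY.symm
  · rfl

end H99.EQ
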