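import Pool.Agent.H99.EQ.ADefs

/-!
# The rings of the local computation

`Sm`: smooth functions `ℝ → ℂ` of `τ`. `Cy E`: smooth functions on `E × ℝ` which are
`2π`-periodic in the last variable `y`; `C2 = Cy ℝ` (variables `τ, y`), `C3 = Cy (ℝ × ℝ)`
(variables `(σ, τ), y`). Everything in this file is proved.
-/

set_option autoImplicit false

open MeasureTheory Complex
open scoped ContDiff

noncomputable section

namespace H99.EQ

/-- smooth functions `ℝ → ℂ` -/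
def Sm : Subalgebra ℂ (ℝ → ℂ) where
  carrier := {u | ContDiff ℝ ∞ u}
  mul_mem' := by
    intro u v h1 h2
    exact (show ContDiff ℝ ∞ u from h1).mul (show ContDiff ℝ ∞ v from h2)
  add_mem' := by
    intro u v h1 h2
    exact (show ContDiff ℝ ∞ u from h1).add (show ContDiff ℝ ∞ v from h2)
  algebraMap_mem' := fun c => (contDiff_const : ContDiff ℝ ∞ fun _ : ℝ => c)

theorem Sm_cd (u : Sm) : ContDiff ℝ ∞ (u : ℝ → ℂ) := u.2

/-- the derivative on `Sm` -/
def dS : Derivation ℂ Sm Sm where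
  toFun u := ⟨fun x => fderiv ℝ (u : ℝ → ℂ) x 1, contDiff_fderiv_apply (Sm_cd u) 1⟩
  map_add' u v := by
    ext x
    have : fderiv ℝ (fun y => (u : ℝ → ℂ) y + (v : ℝ → ℂ) y) x =
        fderiv ℝ (u : ℝ → ℂ) x + fderiv ℝ (v : ℝ → ℂ) x :=
      fderiv_fun_add ((Sm_cd u).differentiable (by simp) x)
        ((Sm_cd v).differentiable (by simp) x)
    change fderiv ℝ (fun y => (u : ℝ → ℂ) y + (v : ℝ → ℂ) y) x 1 = _
    rw [this]; rfl
  map_smul' c u := by
    ext x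
    change fderiv ℝ (fun y => c * (u : ℝ → ℂ) y) x 1 = c * fderiv ℝ (u : ℝ → ℂ) x 1
    rw [fderiv_const_mul ((Sm_cd u).differentiable (by simp) x)]; rfl
  map_one_eq_zero' := by
    ext x
    change fderiv ℝ (fun _ => (1 : ℂ)) x 1 = 0
    simp
  leibniz' u v := by
    ext x
    change fderiv ℝ (fun y => (u : ℝ → ℂ) y * (v : ℝ → ℂ) y) x 1 =
      (u : ℝ → ℂ) x * fderiv ℝ (v : ℝ → ℂ) x 1 + (v : ℝ → ℂ) x * fderiv ℝ (u : ℝ → ℂ) x 1
    rw [fderiv_fun_mul ((Sm_cd u).differentiable (by simp) x)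
      ((Sm_cd v).differentiable (by simp) x)]
    rfl

/-- smooth functions on `E × ℝ`, `2π`-periodic in the last variable -/
def Cy (E : Type*) [NormedAddCommGroup E] [NormedSpace ℝ E] : Subalgebra ℂ (E × ℝ → ℂ) where
  carrier := {u | ContDiff ℝ ∞ u ∧ ∀ (e : E) (y : ℝ), u (e, y + 2 * Real.pi) = u (e, y)}
  mul_mem' := by
    rintro u v ⟨h1, h2⟩ ⟨h3, h4⟩
    exact ⟨h1.mul h3, fun a x => by simp [h2, h4]⟩
  add_mem' := by
    rintro u v ⟨h1, h2⟩ ⟨h3, h4⟩
    exact ⟨h1.add h3, fun a x => by simp [h2, h4]⟩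
  algebraMap_mem' := fun c => ⟨contDiff_const, fun a x => rfl⟩

section Cy

variable {E : Type*} [NormedAddCommGroup E] [NormedSpace ℝ E]

/-- directional derivatives on `Cy E` -/
def dE (v : E × ℝ) : Derivation ℂ (Cy E) (Cy E) where
  toFun u := ⟨fun x => fderiv ℝ (u : E × ℝ → ℂ) x v, by
    refine ⟨contDiff_fderiv_apply u.2.1 v, fun a x => ?_⟩
    have h : (fun z => (u : E × ℝ → ℂ) (z + (0, 2 * Real.pi))) = (u : E × ℝ → ℂ) := by
      funext z
      obtain ⟨e, y⟩ := z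
      have := u.2.2 e y
      simpa using this
    have h2 : fderiv ℝ (fun z => (u : E × ℝ → ℂ) (z + (0, 2 * Real.pi))) (a, x) =
        fderiv ℝ (u : E × ℝ → ℂ) ((a, x) + (0, 2 * Real.pi)) :=
      fderiv_comp_add_right ((0, 2 * Real.pi) : E × ℝ)
    have h3 : ((a, x + 2 * Real.pi) : E × ℝ) = (a, x) + (0, 2 * Real.pi) := by simp
    change fderiv ℝ (u : E × ℝ → ℂ) (a, x + 2 * Real.pi) v = fderiv ℝ (u : E × ℝ → ℂ) (a, x) v
    rw [h3, ← h2, h]⟩
  map_add' u w := by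
    ext x
    have : fderiv ℝ (fun y => (u : E × ℝ → ℂ) y + (w : E × ℝ → ℂ) y) x =
        fderiv ℝ (u : E × ℝ → ℂ) x + fderiv ℝ (w : E × ℝ → ℂ) x :=
      fderiv_fun_add (u.2.1.differentiable (by simp) x) (w.2.1.differentiable (by simp) x)
    change fderiv ℝ (fun y => (u : E × ℝ → ℂ) y + (w : E × ℝ → ℂ) y) x v = _
    rw [this]; rfl
  map_smul' c u := by
    ext x
    change fderiv ℝ (fun y => c * (u : E × ℝ → ℂ) y) x v = c * fderiv ℝ (u : E × ℝ → ℂ) x v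
    rw [fderiv_const_mul (u.2.1.differentiable (by simp) x)]; rfl
  map_one_eq_zero' := by
    ext x
    change fderiv ℝ (fun _ => (1 : ℂ)) x v = 0
    simp
  leibniz' u w := by
    ext x
    change fderiv ℝ (fun y => (u : E × ℝ → ℂ) y * (w : E × ℝ → ℂ) y) x v =
      (u : E × ℝ → ℂ) x * fderiv ℝ (w : E × ℝ → ℂ) x v +
      (w : E × ℝ → ℂ) x * fderiv ℝ (u : E × ℝ → ℂ) x v
    rw [fderiv_fun_mul (u.2.1.differentiable (by simp) x) (w.2.1.differentiable (by simp) x)]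
    rfl

open Classical in
/-- the element of `Cy E` with underlying function `f` (junk value `0`) -/
def mkCy (f : E × ℝ → ℂ) : Cy E :=
  if h : ContDiff ℝ ∞ f ∧ ∀ (e : E) (y : ℝ), f (e, y + 2 * Real.pi) = f (e, y) then ⟨f, h⟩ else 0

theorem mkCy_coe {f : E × ℝ → ℂ} (h1 : ContDiff ℝ ∞ f)
    (h2 : ∀ (e : E) (y : ℝ), f (e, y + 2 * Real.pi) = f (e, y)) :
    (mkCy f : E × ℝ → ℂ) = f := by
  unfold mkCy
  rw [dif_pos ⟨h1, h2⟩]

end Cy

open Classical in
/-- the element of `Sm` with underlying function `f` (junk value `0`) -/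
def mkSm (f : ℝ → ℂ) : Sm := if h : ContDiff ℝ ∞ f then ⟨f, h⟩ else 0

theorem mkSm_coe {f : ℝ → ℂ} (h : ContDiff ℝ ∞ f) : (mkSm f : ℝ → ℂ) = f := by
  unfold mkSm
  rw [dif_pos h]

/-- the variables `τ, y` -/
abbrev C2 := Cy ℝ

/-- the variables `(σ, τ), y` -/
abbrev C3 := Cy (ℝ × ℝ)

/-- functions of `τ` as functions of `(τ, y)` -/
def io : Sm →ₐ[ℂ] C2 where
  toFun f := ⟨fun p => (f : ℝ → ℂ) p.1, (Sm_cd f).comp contDiff_fst, fun _ _ => rfl⟩
  map_one' := rfl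
  map_mul' _ _ := rfl
  map_zero' := rfl
  map_add' _ _ := rfl
  commutes' _ := rfl

/-- functions of `(τ, y)` as functions of `((σ, τ), y)` -/
def io3 : C2 →ₐ[ℂ] C3 where
  toFun f := ⟨fun p => (f : ℝ × ℝ → ℂ) (p.1.2, p.2),
    f.2.1.comp ((contDiff_snd.comp contDiff_fst).prodMk contDiff_snd), fun _ _ => f.2.2 _ _⟩
  map_one' := rfl
  map_mul' _ _ := rfl
  map_zero' := rfl
  map_add' _ _ := rfl
  commutes' _ := rfl

/-- restriction to `σ = 0` -/
def res : C3 →ₐ[ℂ] C2 where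
  toFun f := ⟨fun p => (f : (ℝ × ℝ) × ℝ → ℂ) ((0, p.1), p.2),
    f.2.1.comp ((contDiff_const.prodMk contDiff_fst).prodMk contDiff_snd), fun _ _ => f.2.2 _ _⟩
  map_one' := rfl
  map_mul' _ _ := rfl
  map_zero' := rfl
  map_add' _ _ := rfl
  commutes' _ := rfl

theorem res_io3 (f : C2) : res (io3 f) = f := rfl

/-- restriction of operators to `σ = 0`: `Rs P f = (P (io3 f))|_{σ = 0}` -/
def Rs : Module.End ℂ C3 →ₗ[ℂ] Module.End ℂ C2 where
  toFun P := res.toLinearMap ∘ₗ P ∘ₗ io3.toLinearMap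
  map_add' P Q := by ext x; simp
  map_smul' c P := by ext x; simp

theorem Rs_apply (P : Module.End ℂ C3) (f : C2) : Rs P f = res (P (io3 f)) := rfl

end H99.EQ
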