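import Pool.Agent.H99.EQ.R5

/-!
# EQ-SS1: intertwining of two Schroedinger operators

Job EQ-SS1. `X = dv X1`, `L q = -λ (X² - q)`. Write `A = ḣ A`, ... with hats, i.e. the operator
`T = mo ḣ * ((X' + κ) L q + A X' + B)`; all unknown functions are divided by `ḣ`.
For functions `a, b : Sm` one has (Leibniz)
`L qp (a X + b) - (a X + b) L q = λ {(2 U a' + U' a) L q + [(qp-q) a - a'' - 2 b'] X`
`  + [(qp-q) b - b'' - 2 a' q - a q']}`   (`'` is `X1`, `U λ = 1`, `X² = q - U L q`).
Use it with `(a, b) = (ḣ, ḣ κ)` (times `L q` on the right) and `(a, b) = (ḣ A, ḣ B)`;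
`ḣ' = ρ ḣ` (`X1_hdS`), `U' = -2 ρ U` (`X1_UuS`), `(ḣ f)' = ḣ D1 f`: so `2 U ḣ' + U' ḣ = 0`,
`2 U (ḣA)' + U' ḣ A = 2 U ḣ X1 A`. The identity `L qp T = T L q` becomes
`λ ḣ { [(qp-q) - D1 ρ - 2 D1 κ] X L q + [(qp-q) κ - D1 (D1 κ) - 2 ρ q - q' + 2 U A'] L q`
`  + [(qp-q) A - D1 (D1 A) - 2 D1 B] X + [(qp-q) B - D1 (D1 B) - 2 (D1 A) q - A q'] } = 0`;
expanding `L q = -λ X² + λ q` and `Sm_uniq` (N = 4) gives the four equations (top down).
-/

set_option autoImplicit false

open Complex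
open scoped ContDiff

noncomputable section

namespace H99.EQ

/-- `-λ (X² - q)` -/
def Lq (q : Sm) : Module.End ℂ Sm := -(mo laS * (dv X1 * dv X1 - mo q))

section SS1_core

variable {R : Type*} [CommRing R] [Algebra ℂ R] (X : Derivation ℂ R R)

theorem SS1_core (hd la U rho q qp κ A B f : R) (h1 : X hd = rho * hd)
    (h2 : X la = 2 * rho * la) (h3 : la * U = 1)
    (h : -(la * (X (X (hd * X (-(la * (X (X f) - q * f))) +
        hd * κ * (-(la * (X (X f) - q * f))) + hd * A * X f + hd * B * f)) -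
        qp * (hd * X (-(la * (X (X f) - q * f))) +
        hd * κ * (-(la * (X (X f) - q * f))) + hd * A * X f + hd * B * f))) =
      hd * X (-(la * (X (X (-(la * (X (X f) - q * f)))) - q * (-(la * (X (X f) - q * f))))))
        + hd * κ * (-(la * (X (X (-(la * (X (X f) - q * f)))) - q * (-(la * (X (X f) - q * f)))))) +
        hd * A * X (-(la * (X (X f) - q * f))) + hd * B * (-(la * (X (X f) - q * f)))) :
    (la * hd * ((X la * q + la * X q) * ((qp - q) - (X rho + rho * rho) - 2 * (X κ + rho * κ)) +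
      la * q * ((qp - q) * κ - (X (X κ + rho * κ) + rho * (X κ + rho * κ)) - 2 * rho * q -
        X q + 2 * U * X A) +
      ((qp - q) * B - (X (X B + rho * B) + rho * (X B + rho * B)) - 2 * (X A + rho * A) * q -
        A * X q))) * f +
    (la * hd * (la * q * ((qp - q) - (X rho + rho * rho) - 2 * (X κ + rho * κ)) +
      ((qp - q) * A - (X (X A + rho * A) + rho * (X A + rho * A)) - 2 * (X B + rho * B)))) * X f +
    (-(la * hd * (X la * ((qp - q) - (X rho + rho * rho) - 2 * (X κ + rho * κ)) +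
      la * ((qp - q) * κ - (X (X κ + rho * κ) + rho * (X κ + rho * κ)) - 2 * rho * q -
        X q + 2 * U * X A)))) * X (X f) +
    (-(la * la * hd * ((qp - q) - (X rho + rho * rho) - 2 * (X κ + rho * κ)))) * X (X (X f)) =
      0 := by
  have h4 : X (2 : R) = 0 := by exact_mod_cast X.map_natCast 2
  simp only [Derivation.leibniz, map_add, map_sub, map_neg, smul_eq_mul, h1, h2, h4] at h ⊢
  linear_combination h + (2 * la * hd * X A * (q * f - X (X f))) * h3

end SS1_core

theorem intertwine {q qp κ A B : Sm}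
    (h : Lq qp * ((mo hdS * dv X1 + mo (hdS * κ)) * Lq q + mo (hdS * A) * dv X1 + mo (hdS * B)) =
      ((mo hdS * dv X1 + mo (hdS * κ)) * Lq q + mo (hdS * A) * dv X1 + mo (hdS * B)) * Lq q) :
    (qp - q) - D1 rhoS - 2 * D1 κ = 0 ∧
    (qp - q) * κ - D1 (D1 κ) - 2 * rhoS * q - X1 q + 2 * UuS * X1 A = 0 ∧
    (qp - q) * A - D1 (D1 A) - 2 * D1 B = 0 ∧
    (qp - q) * B - D1 (D1 B) - 2 * D1 A * q - A * X1 q = 0 := by
  have hop : ∀ f : Sm, _ := fun f => by
    have h0 := congrArg (fun T : Module.End ℂ Sm => T f) h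
    simp only [Lq, LinearMap.neg_apply, Module.End.mul_apply, LinearMap.sub_apply,
      LinearMap.add_apply, mo_apply, dv_apply] at h0
    exact SS1_core X1 hdS laS UuS rhoS q qp κ A B f X1_hdS X1_laS laS_U h0
  simp only [D1]
  set E3 := (qp - q) - (X1 rhoS + rhoS * rhoS) - 2 * (X1 κ + rhoS * κ) with hE3
  set E2 := (qp - q) * κ - (X1 (X1 κ + rhoS * κ) + rhoS * (X1 κ + rhoS * κ)) - 2 * rhoS * q -
        X1 q + 2 * UuS * X1 A with hE2
  set E1 := (qp - q) * A - (X1 (X1 A + rhoS * A) + rhoS * (X1 A + rhoS * A)) -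
    2 * (X1 B + rhoS * B) with hE1
  set E0 := (qp - q) * B - (X1 (X1 B + rhoS * B) + rhoS * (X1 B + rhoS * B)) -
    2 * (X1 A + rhoS * A) * q - A * X1 q with hE0
  have hu := Sm_uniq (fun j => match j with
    | 0 => laS * hdS * ((X1 laS * q + laS * X1 q) * E3 + laS * q * E2 + E0)
    | 1 => laS * hdS * (laS * q * E3 + E1)
    | 2 => -(laS * hdS * (X1 laS * E3 + laS * E2))
    | _ => -(laS * laS * hdS * E3)) 4 (by
      apply LinearMap.ext
      intro f
      simp only [Finset.sum_range_succ, Finset.sum_range_zero, zero_add, pow_zero, mul_one,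
        pow_one, LinearMap.add_apply, Module.End.mul_apply, mo_apply, dv_apply, pow_succ,
        one_mul, LinearMap.zero_apply]
      exact hop f)
  have u1 := laS_unit
  have u2 := hdS_unit
  have e3 : E3 = 0 := by
    have h3 : -(laS * laS * hdS * E3) = 0 := hu 3 (by norm_num)
    rw [neg_eq_zero] at h3
    exact ((u1.mul u1).mul u2).mul_right_eq_zero.1 h3
  have e2 : E2 = 0 := by
    have h2 : -(laS * hdS * (X1 laS * E3 + laS * E2)) = 0 := hu 2 (by norm_num)
    rw [neg_eq_zero, e3, mul_zero, zero_add, ← mul_assoc] at h2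
    exact ((u1.mul u2).mul u1).mul_right_eq_zero.1 h2
  have e1 : E1 = 0 := by
    have h1 : laS * hdS * (laS * q * E3 + E1) = 0 := hu 1 (by norm_num)
    rw [e3, mul_zero, zero_add] at h1
    exact (u1.mul u2).mul_right_eq_zero.1 h1
  have e0 : E0 = 0 := by
    have h0 : laS * hdS * ((X1 laS * q + laS * X1 q) * E3 + laS * q * E2 + E0) = 0 :=
      hu 0 (by norm_num)
    rw [e3, e2, mul_zero, mul_zero, zero_add, zero_add] at h0
    exact (u1.mul u2).mul_right_eq_zero.1 h0
  exact ⟨e3, e2, e1, e0⟩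

end H99.EQ
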