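import Pool.Agent.H99.EQ.F2
import Pool.Agent.H99.EQ.SS1

/-!
# EQ-SS2: the system for all half integers `M = m + 1/2`

Job EQ-SS2. `DDo α wt m = Lq ((m-α)²+wt)`. Write `TTo ... m` in the form of `SS1.intertwine`:
comparing coefficients (`q = (m-α)²+wt`, `'` is `X1`, `λ' = 2 ρ λ`)
`κ = m ĥ - 2 ρ - d20/(ḣλ)`, `A = m² (λ+ζ) - λ q + (m d11 + d10)/ḣ`,
`B = m³ (ĥλ-ζ) + (m² d02 + m d01 + d00)/ḣ - (λ q)' - κ λ q`
(use the inverses of `hdS`, `laS`). Then put `M = m + 1/2`, `X = wt + 1/4`,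
`κ̂ = κ + ρ/2 = M ĥ - g`, `g = ĥ/2 + (3/2) ρ + d20/(ḣλ)`;
`A = M² ζ + M a + k`, `a = 2αλ + d11/ḣ - ζ`, `k = ζ/4 - (2αλ + d11/ḣ)/2 + d10/ḣ - λ(α²+wt)`;
`B̂ = B + (D1 A)/2 = - M³ ζ + M² b3 + M b4 + b5` (`B` is a cubic polynomial in `m` with top
coefficient `-ζ`: in `κ λ q` the coefficient of `m³` is `ĥ λ`). `q = (M-α)² + X - (M-α)`.
The four equations of `intertwine` become (P1)-(P4):
(P1) `2 D1 κ̂ = 2 (M-α)`: `D1 κ = ((qp-q) - D1 ρ)/2`, `qp - q = 2 (M - α)`; (P3) `D1 B̂ = (M-α) A`;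
(P2), (P4) by substituting `κ = κ̂ - ρ/2`, `B = B̂ - (D1 A)/2` and (P1), (P3)
(`D1 (M-α) = - X1 α + ρ (M-α)`).
-/

set_option autoImplicit false
set_option linter.unusedSimpArgs false

open Complex
open scoped ContDiff

noncomputable section

namespace H99.EQ

/-- the system for the half integer `M = m + 1/2` -/
structure PSys (al X g a k b3 b4 b5 : Sm) (M : ℂ) : Prop where
  p1 : D1 (cS M * hhS - g) = cS M - al
  p2 : 2 * ((cS M - al) ^ 2 + X) * rhoS + X1 ((cS M - al) ^ 2 + X) - cS (1 / 2) * D1 (D1 rhoS) -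
      2 * UuS * X1 (cS (M ^ 2) * zS + cS M * a + k) = 2 * (cS M - al) * (cS M * hhS - g)
  p3 : D1 (-(cS (M ^ 3) * zS) + cS (M ^ 2) * b3 + cS M * b4 + b5) =
      (cS M - al) * (cS (M ^ 2) * zS + cS M * a + k)
  p4 : 2 * ((cS M - al) ^ 2 + X) * D1 (cS (M ^ 2) * zS + cS M * a + k) +
      X1 ((cS M - al) ^ 2 + X) * (cS (M ^ 2) * zS + cS M * a + k) -
      cS (1 / 2) * D1 (D1 (D1 (cS (M ^ 2) * zS + cS M * a + k))) =
      2 * (cS M - al) * (-(cS (M ^ 3) * zS) + cS (M ^ 2) * b3 + cS M * b4 + b5)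

theorem SS2_D1_add (f g : Sm) : D1 (f + g) = D1 f + D1 g := by
  unfold D1
  rw [map_add]
  ring

theorem SS2_D1_sub (f g : Sm) : D1 (f - g) = D1 f - D1 g := by
  unfold D1
  rw [map_sub]
  ring

theorem SS2_D1_neg (f : Sm) : D1 (-f) = -D1 f := by
  unfold D1
  rw [map_neg]
  ring

theorem SS2_X1_cS (c : ℂ) : X1 (cS c) = 0 := X1.map_algebraMap c

theorem SS2_X1_c_mul (c : ℂ) (f : Sm) : X1 (cS c * f) = cS c * X1 f := by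
  rw [Derivation.leibniz, SS2_X1_cS]
  simp

theorem SS2_D1_c_mul (c : ℂ) (f : Sm) : D1 (cS c * f) = cS c * D1 f := by
  unfold D1
  rw [SS2_X1_c_mul]
  ring

theorem SS2_D1_mul (f g : Sm) : D1 (f * g) = f * D1 g + X1 f * g := by
  unfold D1
  rw [Derivation.leibniz]
  simp only [smul_eq_mul]
  ring

theorem SS2_mul (f g : Sm) (τ : ℝ) : ((f * g : Sm) : ℝ → ℂ) τ = (f : ℝ → ℂ) τ * (g : ℝ → ℂ) τ :=
  rfl

theorem SS2_add (f g : Sm) (τ : ℝ) : ((f + g : Sm) : ℝ → ℂ) τ = (f : ℝ → ℂ) τ + (g : ℝ → ℂ) τ :=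
  rfl

theorem SS2_sub (f g : Sm) (τ : ℝ) : ((f - g : Sm) : ℝ → ℂ) τ = (f : ℝ → ℂ) τ - (g : ℝ → ℂ) τ :=
  rfl

theorem SS2_neg (f : Sm) (τ : ℝ) : ((-f : Sm) : ℝ → ℂ) τ = -(f : ℝ → ℂ) τ := rfl

theorem SS2_pow (f : Sm) (n : ℕ) (τ : ℝ) : ((f ^ n : Sm) : ℝ → ℂ) τ = ((f : ℝ → ℂ) τ) ^ n := rfl

theorem SS2_cS (c : ℂ) (τ : ℝ) : ((cS c : Sm) : ℝ → ℂ) τ = c := rfl

theorem SS2_two (τ : ℝ) : ((2 : Sm) : ℝ → ℂ) τ = 2 := rfl

theorem SS2_four (τ : ℝ) : ((4 : Sm) : ℝ → ℂ) τ = 4 := rfl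


/-- `T` in the form used by `intertwine` -/
theorem SS2_form {hi d20 d11 d10 d02 d01 d00 : Sm} (h1 : hdS * hi = 1) (q : Sm) (m : ℤ) :
    TTo d20 d11 d10 d02 d01 d00 m =
      (mo hdS * dv X1 + mo (hdS * (cS m * hhS - 2 * rhoS - d20 * (hi * UuS)))) * Lq q +
        mo (hdS * (cS (m ^ 2) * (laS + zS) - laS * q + (cS m * d11 + d10) * hi)) * dv X1 +
        mo (hdS * (cS (m ^ 3) * (hhS * laS - zS) + (cS (m ^ 2) * d02 + cS m * d01 + d00) * hi -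
          X1 (laS * q) - (cS m * hhS - 2 * rhoS - d20 * (hi * UuS)) * laS * q)) := by
  have h2 := laS_U
  apply LinearMap.ext
  intro f
  simp only [TTo, Lq, Module.End.mul_apply, LinearMap.add_apply, LinearMap.neg_apply,
    LinearMap.sub_apply, mo_apply, dv_apply, map_neg, Derivation.leibniz, map_sub, smul_eq_mul,
    X1_laS]
  linear_combination (-(d20 * X1 (X1 f)) * (laS * UuS) - (cS m * d11 + d10) * X1 f -
    (cS (m ^ 2) * d02 + cS m * d01 + d00) * f) * h1 - d20 * X1 (X1 f) * h2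

theorem psys {al wt d20 d11 d10 d02 d01 d00 : Sm}
    (h : ∀ m : ℤ, DDo al wt (m + 1) * TTo d20 d11 d10 d02 d01 d00 m =
      TTo d20 d11 d10 d02 d01 d00 m * DDo al wt m) :
    ∃ X g a k b3 b4 b5 : Sm, ∀ m : ℤ, PSys al X g a k b3 b4 b5 ((m : ℂ) + 1 / 2) := by
  obtain ⟨hi, h1⟩ := hdS_unit.exists_right_inv
  -- the coefficients of `B` as a polynomial in `m`
  obtain ⟨c, hc⟩ : ∃ c : Sm, c = 2 * rhoS + d20 * (hi * UuS) := ⟨_, rfl⟩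
  obtain ⟨β2, hβ2⟩ : ∃ β2 : Sm, β2 = d02 * hi - 2 * rhoS * laS + 2 * al * hhS * laS + c * laS :=
    ⟨_, rfl⟩
  obtain ⟨β1, hβ1⟩ : ∃ β1 : Sm, β1 = d01 * hi + 4 * rhoS * laS * al + 2 * laS * X1 al -
    hhS * laS * (al ^ 2 + wt) - 2 * c * al * laS := ⟨_, rfl⟩
  obtain ⟨β0, hβ0⟩ : ∃ β0 : Sm, β0 = d00 * hi - 2 * rhoS * laS * (al ^ 2 + wt) -
    2 * laS * al * X1 al - laS * X1 wt + c * laS * (al ^ 2 + wt) := ⟨_, rfl⟩
  obtain ⟨a, ha⟩ : ∃ a : Sm, a = 2 * al * laS + d11 * hi - zS := ⟨_, rfl⟩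
  obtain ⟨k, hk⟩ : ∃ k : Sm, k = cS (1 / 4) * zS - cS (1 / 2) * (2 * al * laS + d11 * hi) +
    d10 * hi - laS * (al ^ 2 + wt) := ⟨_, rfl⟩
  refine ⟨wt + cS (1 / 4), cS (1 / 2) * hhS + cS (3 / 2) * rhoS + d20 * (hi * UuS), a, k,
    cS (3 / 2) * zS + β2 + cS (1 / 2) * D1 zS,
    -(cS (3 / 4) * zS) - β2 + β1 + cS (1 / 2) * D1 a,
    cS (1 / 8) * zS + cS (1 / 4) * β2 - cS (1 / 2) * β1 + β0 + cS (1 / 2) * D1 k, fun m => ?_⟩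
  have hm := h m
  rw [SS2_form h1 ((cS m - al) ^ 2 + wt) m] at hm
  obtain ⟨e1, e2, e3, e4⟩ := intertwine (q := (cS m - al) ^ 2 + wt)
    (qp := (cS ((m + 1 : ℤ) : ℂ) - al) ^ 2 + wt) hm
  clear hm h
  obtain ⟨M, hM⟩ : ∃ M : ℂ, M = (m : ℂ) + 1 / 2 := ⟨_, rfl⟩
  obtain ⟨X, hX⟩ : ∃ X : Sm, X = wt + cS (1 / 4) := ⟨_, rfl⟩
  obtain ⟨g, hg⟩ : ∃ g : Sm, g = cS (1 / 2) * hhS + cS (3 / 2) * rhoS + d20 * (hi * UuS) :=
    ⟨_, rfl⟩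
  obtain ⟨b3, hb3⟩ : ∃ b3 : Sm, b3 = cS (3 / 2) * zS + β2 + cS (1 / 2) * D1 zS := ⟨_, rfl⟩
  obtain ⟨b4, hb4⟩ : ∃ b4 : Sm, b4 = -(cS (3 / 4) * zS) - β2 + β1 + cS (1 / 2) * D1 a :=
    ⟨_, rfl⟩
  obtain ⟨b5, hb5⟩ : ∃ b5 : Sm, b5 = cS (1 / 8) * zS + cS (1 / 4) * β2 - cS (1 / 2) * β1 + β0 +
    cS (1 / 2) * D1 k := ⟨_, rfl⟩
  rw [← hX, ← hg, ← hb3, ← hb4, ← hb5, ← hM]
  have hmM : (m : ℂ) = M - 1 / 2 := by rw [hM]; ring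
  have hXal : X1 X = X1 wt := by rw [hX, map_add, SS2_X1_cS, add_zero]
  have hX1c : ∀ c : ℂ, X1 (cS c) = 0 := SS2_X1_cS
  have hqp : (cS ((m + 1 : ℤ) : ℂ) - al) ^ 2 + wt - ((cS (m : ℂ) - al) ^ 2 + wt) =
      2 * (cS M - al) := by
    refine r5_Sm_ext (fun τ => ?_)
    simp only [SS2_mul, SS2_add, SS2_sub, SS2_pow, SS2_cS, SS2_two, SS2_four, Int.cast_add, Int.cast_one,
      hmM]
    ring
  obtain ⟨q, hq⟩ : ∃ q : Sm, q = (cS (m : ℂ) - al) ^ 2 + wt := ⟨_, rfl⟩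
  have hqX : q = (cS M - al) ^ 2 + X - (cS M - al) := by
    rw [hq]
    refine r5_Sm_ext (fun τ => ?_)
    simp only [SS2_mul, SS2_add, SS2_sub, SS2_pow, SS2_cS, hmM, hX]
    ring
  obtain ⟨κ, hκ⟩ : ∃ κ : Sm, κ = cS (m : ℂ) * hhS - 2 * rhoS - d20 * (hi * UuS) := ⟨_, rfl⟩
  obtain ⟨A, hA⟩ : ∃ A : Sm, A = cS ((m : ℂ) ^ 2) * (laS + zS) - laS * q +
    (cS (m : ℂ) * d11 + d10) * hi := ⟨_, rfl⟩
  obtain ⟨B, hB⟩ : ∃ B : Sm, B = cS ((m : ℂ) ^ 3) * (hhS * laS - zS) +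
    (cS ((m : ℂ) ^ 2) * d02 + cS (m : ℂ) * d01 + d00) * hi - X1 (laS * q) - κ * laS * q :=
    ⟨_, rfl⟩
  have hqp' : (cS ((m + 1 : ℤ) : ℂ) - al) ^ 2 + wt - q = 2 * (cS M - al) := by rw [hq]; exact hqp
  rw [← hq] at e1 e2 e3 e4
  rw [← hκ] at e1 e2 e3 e4
  rw [← hA] at e2 e3 e4
  rw [← hB] at e3 e4
  rw [hqp'] at e1 e2 e3 e4
  -- the new unknowns
  obtain ⟨P, hP⟩ : ∃ P : Sm, P = cS M * hhS - g := ⟨_, rfl⟩
  obtain ⟨A', hA'⟩ : ∃ A' : Sm, A' = cS (M ^ 2) * zS + cS M * a + k := ⟨_, rfl⟩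
  obtain ⟨B', hB'⟩ : ∃ B' : Sm, B' = -(cS (M ^ 3) * zS) + cS (M ^ 2) * b3 + cS M * b4 + b5 :=
    ⟨_, rfl⟩
  have hκP : κ = P - cS (1 / 2) * rhoS := by
    rw [hκ, hP, hg]
    refine r5_Sm_ext (fun τ => ?_)
    simp only [SS2_mul, SS2_add, SS2_sub, SS2_pow, SS2_cS, SS2_two, SS2_four, hmM]
    ring
  have hAA : A = A' := by
    rw [hA, hA', hq, ha, hk]
    refine r5_Sm_ext (fun τ => ?_)
    simp only [SS2_mul, SS2_add, SS2_sub, SS2_pow, SS2_cS, SS2_two, SS2_four, hmM]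
    ring
  have hDA : D1 A' = cS (M ^ 2) * D1 zS + cS M * D1 a + D1 k := by
    rw [hA', SS2_D1_add, SS2_D1_add, SS2_D1_c_mul, SS2_D1_c_mul]
  have hXq : X1 (laS * q) = 2 * rhoS * laS * q + laS * (2 * al * X1 al - 2 * (cS (m : ℂ)) * X1 al +
      X1 wt) := by
    rw [hq]
    simp only [Derivation.leibniz, Derivation.leibniz_pow, map_add, map_sub, hX1c, X1_laS,
      smul_eq_mul, nsmul_eq_mul]
    push_cast
    ring
  have hBB : B = B' - cS (1 / 2) * D1 A' := by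
    rw [hB, hB', hDA, hXq, hκ, hb3, hb4, hb5, hβ2, hβ1, hβ0, hc, hq]
    refine r5_Sm_ext (fun τ => ?_)
    simp only [SS2_mul, SS2_add, SS2_sub, SS2_neg, SS2_pow, SS2_cS, SS2_two, SS2_four, hmM]
    ring
  have hXM : X1 (cS M - al) = -X1 al := by rw [map_sub, hX1c, zero_sub]
  have hXq1 : X1 q = X1 ((cS M - al) ^ 2 + X) + X1 al := by
    rw [hqX, map_sub, hXM]
    ring
  subst hAA
  have hDκ : D1 κ = D1 P - cS (1 / 2) * D1 rhoS := by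
    rw [hκP, SS2_D1_sub, SS2_D1_c_mul]
  have p1 : D1 P = cS M - al := by
    refine r5_Sm_ext (fun τ => ?_)
    have e1' := congrArg (fun f : Sm => (f : ℝ → ℂ) τ) e1
    rw [hDκ] at e1'
    simp only [SS2_mul, SS2_add, SS2_sub, SS2_neg, SS2_pow, SS2_cS, SS2_two, SS2_four] at e1' ⊢
    change _ = (0 : ℂ) at e1'
    linear_combination (-1 / 2) * e1'
  have hDM : D1 (cS M - al) = -X1 al + rhoS * (cS M - al) := by
    unfold D1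
    rw [hXM]
  have hDDκ : D1 (D1 κ) = -X1 al + rhoS * (cS M - al) - cS (1 / 2) * D1 (D1 rhoS) := by
    rw [hDκ, SS2_D1_sub, SS2_D1_c_mul, p1, hDM]
  have hDB : D1 B = D1 B' - cS (1 / 2) * D1 (D1 A) := by
    rw [hBB, SS2_D1_sub, SS2_D1_c_mul]
  have p3 : D1 B' = (cS M - al) * A := by
    rw [hDB] at e3
    refine r5_Sm_ext (fun τ => ?_)
    have e3' := congrArg (fun f : Sm => (f : ℝ → ℂ) τ) e3
    simp only [SS2_mul, SS2_add, SS2_sub, SS2_neg, SS2_pow, SS2_cS, SS2_two, SS2_four] at e3' ⊢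
    change _ = (0 : ℂ) at e3'
    linear_combination (-1 / 2) * e3'
  have hDDB : D1 (D1 B) = -X1 al * A + (cS M - al) * D1 A - cS (1 / 2) * D1 (D1 (D1 A)) := by
    rw [hDB, SS2_D1_sub, SS2_D1_c_mul, p3, SS2_D1_mul, hXM]
    ring
  refine ⟨?_, ?_, ?_, ?_⟩
  · rw [← hP]
    exact p1
  · rw [← hP, ← hA']
    rw [hDDκ, hκP, hXq1] at e2
    rw [hqX] at e2
    refine r5_Sm_ext (fun τ => ?_)
    have e2' := congrArg (fun f : Sm => (f : ℝ → ℂ) τ) e2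
    simp only [SS2_mul, SS2_add, SS2_sub, SS2_neg, SS2_pow, SS2_cS, SS2_two, SS2_four] at e2' ⊢
    change _ = (0 : ℂ) at e2'
    linear_combination (-1) * e2'
  · rw [← hA', ← hB']
    exact p3
  · rw [← hA', ← hB']
    rw [hDDB, hBB, hXq1] at e4
    rw [hqX] at e4
    refine r5_Sm_ext (fun τ => ?_)
    have e4' := congrArg (fun f : Sm => (f : ℝ → ℂ) τ) e4
    simp only [SS2_mul, SS2_add, SS2_sub, SS2_neg, SS2_pow, SS2_cS, SS2_two, SS2_four] at e4' ⊢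
    change _ = (0 : ℂ) at e4'
    linear_combination (-1) * e4'

end H99.EQ
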