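import Pool.Agent.H99.EQ.SS2

/-!
# EQ-SS3: the equations (S1)-(S9)

Job EQ-SS3. Each equation of `PSys` is a polynomial identity `∑_j M^j c_j = 0` in `M` of degree
`≤ 4` with coefficients in `Sm` (`X1`, `D1` are additive and `cS`-linear), valid for the infinitely
many `M = m + 1/2`; so all `c_j = 0` (evaluate at `τ`: a complex polynomial with infinitely many
roots; lemma `coeff_zero`).
(S1) = p1, M⁰ (M¹ is `X1_hhS`: `D1 hhS = 1`).
(S4) = p2, M¹, (S6) = p2, M⁰ (M²: structure identity).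
(S2) = p3, M² (M³: `D1 zS = -zS`), (S3) = p3, M¹.
(S5) = p4, M³, (S7) = p4, M², (S8) = p4, M¹, (S9) = p4, M⁰.
-/

set_option autoImplicit false

open Complex
open scoped ContDiff

noncomputable section

namespace H99.EQ

/-- the equations (S1)-(S9) of the paper proof -/
structure SSys (al X g a k b3 b4 b5 : Sm) : Prop where
  s1 : D1 g = al
  s2 : D1 b3 = a - al * zS
  s3 : D1 b4 = k - al * a
  s4 : X1 al + 2 * rhoS * al + UuS * X1 a = al * hhS + g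
  s5 : D1 a + al * zS - zS * X1 al = b3
  s6 : 2 * (al ^ 2 + X) * rhoS - 2 * UuS * X1 k + X1 (al ^ 2 + X) -
      cS (1 / 2) * D1 (D1 rhoS) = 2 * al * g
  s7 : 2 * D1 k - 4 * al * D1 a - 2 * (al ^ 2 + X) * zS - 2 * a * X1 al +
      X1 (al ^ 2 + X) * zS + cS (1 / 2) * zS = 2 * b4 - 2 * al * b3
  s8 : 2 * b5 = -4 * al * D1 k + 2 * (al ^ 2 + X) * D1 a - 2 * k * X1 al +
      X1 (al ^ 2 + X) * a - cS (1 / 2) * D1 (D1 (D1 a)) + 2 * al * b4
  s9 : 2 * (al ^ 2 + X) * D1 k + X1 (al ^ 2 + X) * k - cS (1 / 2) * D1 (D1 (D1 k)) =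
      -2 * al * b5

/-- evaluation at a point -/
def ss3_ev (τ : ℝ) : Sm →+* ℂ where
  toFun f := (f : ℝ → ℂ) τ
  map_one' := rfl
  map_mul' _ _ := rfl
  map_zero' := rfl
  map_add' _ _ := rfl

theorem ss3_inj : Function.Injective fun m : ℤ => (m : ℂ) + 1 / 2 := by
  intro a b h
  have h1 : (a : ℂ) = (b : ℂ) := add_right_cancel h
  exact_mod_cast h1

theorem coeff_zero (c : ℕ → Sm) (N : ℕ)
    (h : ∀ m : ℤ, ∑ j ∈ Finset.range N, cS (((m : ℂ) + 1 / 2) ^ j) * c j = 0) :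
    ∀ j < N, c j = 0 := by
  intro j hj
  refine Subtype.ext (funext fun τ => ?_)
  let p : Polynomial ℂ := ∑ j ∈ Finset.range N, Polynomial.C ((c j : ℝ → ℂ) τ) * Polynomial.X ^ j
  have hp : p = 0 := by
    refine Polynomial.eq_zero_of_infinite_isRoot p ?_
    refine (Set.infinite_range_of_injective ss3_inj).mono ?_
    rintro _ ⟨m, rfl⟩
    have h1 := congrArg (ss3_ev τ) (h m)
    rw [map_sum, map_zero] at h1
    show Polynomial.eval _ p = 0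
    rw [Polynomial.eval_finsetSum, ← h1]
    refine Finset.sum_congr rfl fun i _ => ?_
    rw [Polynomial.eval_mul, Polynomial.eval_C, Polynomial.eval_pow, Polynomial.eval_X, map_mul]
    exact mul_comm _ _
  have h2 : p.coeff j = (c j : ℝ → ℂ) τ := by
    rw [Polynomial.finsetSum_coeff, Finset.sum_eq_single j]
    · rw [Polynomial.coeff_C_mul, Polynomial.coeff_X_pow, if_pos rfl, mul_one]
    · intro i _ hij
      rw [Polynomial.coeff_C_mul, Polynomial.coeff_X_pow, if_neg (Ne.symm hij), mul_zero]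
    · intro h3
      exact absurd (Finset.mem_range.2 hj) h3
  rw [← h2, hp, Polynomial.coeff_zero]
  rfl

theorem ss3_five {e0 e1 e2 e3 e4 : Sm} (h : ∀ m : ℤ, e0 + cS ((m : ℂ) + 1 / 2) * e1 +
    cS ((m : ℂ) + 1 / 2) ^ 2 * e2 + cS ((m : ℂ) + 1 / 2) ^ 3 * e3 +
      cS ((m : ℂ) + 1 / 2) ^ 4 * e4 = 0) :
    e0 = 0 ∧ e1 = 0 ∧ e2 = 0 ∧ e3 = 0 ∧ e4 = 0 := by
  let c : ℕ → Sm := fun j => match j with
    | 0 => e0
    | 1 => e1
    | 2 => e2
    | 3 => e3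
    | 4 => e4
    | _ => 0
  have h1 := coeff_zero c 5 (fun m => by
    simp only [Finset.sum_range_succ, Finset.sum_range_zero, map_pow]
    show 0 + cS ((m : ℂ) + 1 / 2) ^ 0 * e0 + cS ((m : ℂ) + 1 / 2) ^ 1 * e1 +
      cS ((m : ℂ) + 1 / 2) ^ 2 * e2 + cS ((m : ℂ) + 1 / 2) ^ 3 * e3 +
      cS ((m : ℂ) + 1 / 2) ^ 4 * e4 = 0
    rw [pow_zero, pow_one, one_mul, zero_add]
    exact h m)
  exact ⟨h1 0 (by norm_num), h1 1 (by norm_num), h1 2 (by norm_num), h1 3 (by norm_num),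
    h1 4 (by norm_num)⟩

theorem ss3_X1_cS (c : ℂ) : X1 (cS c) = 0 := X1.map_algebraMap c

theorem ss3_X1_mul (f g : Sm) : X1 (f * g) = f * X1 g + g * X1 f := by
  rw [Derivation.leibniz, smul_eq_mul, smul_eq_mul]

theorem ss3_X1_cS_mul (c : ℂ) (f : Sm) : X1 (cS c * f) = cS c * X1 f := by
  rw [ss3_X1_mul, ss3_X1_cS, mul_zero, add_zero]

theorem ss3_D1_add (f g : Sm) : D1 (f + g) = D1 f + D1 g := by
  unfold D1
  rw [map_add]
  ring

theorem ss3_D1_sub (f g : Sm) : D1 (f - g) = D1 f - D1 g := by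
  unfold D1
  rw [map_sub]
  ring

theorem ss3_D1_neg (f : Sm) : D1 (-f) = -D1 f := by
  unfold D1
  rw [map_neg]
  ring

theorem ss3_D1_cS_mul (c : ℂ) (f : Sm) : D1 (cS c * f) = cS c * D1 f := by
  unfold D1
  rw [ss3_X1_cS_mul]
  ring

theorem ss3_D1_z : D1 zS = -zS := by
  unfold D1
  rw [X1_zS, facS_eq]
  ring

theorem ss3_D1_hh : D1 hhS = 1 := by
  unfold D1
  rw [X1_hhS]
  ring

theorem ss3_X1_sq (al X : Sm) (M : ℂ) :
    X1 ((cS M - al) ^ 2 + X) = X1 (al ^ 2 + X) - 2 * cS M * X1 al := by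
  rw [pow_two, pow_two, map_add, map_add, ss3_X1_mul, ss3_X1_mul, map_sub, ss3_X1_cS]
  ring

theorem ssys {al X g a k b3 b4 b5 : Sm}
    (h : ∀ m : ℤ, PSys al X g a k b3 b4 b5 ((m : ℂ) + 1 / 2)) :
    SSys al X g a k b3 b4 b5 := by
  -- p1
  have q1 := ss3_five (e0 := al - D1 g) (e1 := 0) (e2 := 0) (e3 := 0) (e4 := 0) (fun m => by
    have h1 := (h m).p1
    rw [ss3_D1_sub, ss3_D1_cS_mul, ss3_D1_hh] at h1
    linear_combination h1)
  -- p2
  have q2 := ss3_five (e0 := 2 * (al ^ 2 + X) * rhoS - 2 * UuS * X1 k + X1 (al ^ 2 + X) -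
      cS (1 / 2) * D1 (D1 rhoS) - 2 * al * g)
    (e1 := -4 * al * rhoS - 2 * X1 al - 2 * UuS * X1 a + 2 * g + 2 * al * hhS)
    (e2 := 2 * rhoS - 2 * UuS * X1 zS - 2 * hhS) (e3 := 0) (e4 := 0) (fun m => by
    have h1 := (h m).p2
    have h2 : X1 (cS (((m : ℂ) + 1 / 2) ^ 2) * zS + cS ((m : ℂ) + 1 / 2) * a + k) =
        cS (((m : ℂ) + 1 / 2) ^ 2) * X1 zS + cS ((m : ℂ) + 1 / 2) * X1 a + X1 k := by
      rw [map_add, map_add, ss3_X1_cS_mul, ss3_X1_cS_mul]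
    rw [ss3_X1_sq, h2] at h1
    simp only [map_pow] at h1
    linear_combination h1)
  -- p3
  have q3 := ss3_five (e0 := D1 b5 + al * k) (e1 := D1 b4 - (k - al * a))
    (e2 := D1 b3 - (a - al * zS)) (e3 := 0) (e4 := 0) (fun m => by
    have h1 := (h m).p3
    rw [ss3_D1_add, ss3_D1_add, ss3_D1_add, ss3_D1_neg, ss3_D1_cS_mul, ss3_D1_cS_mul,
      ss3_D1_cS_mul, ss3_D1_z] at h1
    simp only [map_pow] at h1
    linear_combination h1)
  -- p4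
  have q4 := ss3_five (e0 := 2 * (al ^ 2 + X) * D1 k + X1 (al ^ 2 + X) * k -
      cS (1 / 2) * D1 (D1 (D1 k)) + 2 * al * b5)
    (e1 := -4 * al * D1 k + 2 * (al ^ 2 + X) * D1 a - 2 * k * X1 al +
      X1 (al ^ 2 + X) * a - cS (1 / 2) * D1 (D1 (D1 a)) + 2 * al * b4 - 2 * b5)
    (e2 := 2 * D1 k - 4 * al * D1 a - 2 * (al ^ 2 + X) * zS - 2 * a * X1 al +
      X1 (al ^ 2 + X) * zS + cS (1 / 2) * zS - (2 * b4 - 2 * al * b3))
    (e3 := 2 * D1 a + 4 * al * zS - 2 * zS * X1 al - 2 * b3 - 2 * al * zS) (e4 := 0)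
    (fun m => by
    have h1 := (h m).p4
    have h2 : D1 (cS (((m : ℂ) + 1 / 2) ^ 2) * zS + cS ((m : ℂ) + 1 / 2) * a + k) =
        -(cS (((m : ℂ) + 1 / 2) ^ 2) * zS) + cS ((m : ℂ) + 1 / 2) * D1 a + D1 k := by
      rw [ss3_D1_add, ss3_D1_add, ss3_D1_cS_mul, ss3_D1_cS_mul, ss3_D1_z]
      ring
    have h3 : D1 (D1 (D1 (cS (((m : ℂ) + 1 / 2) ^ 2) * zS + cS ((m : ℂ) + 1 / 2) * a + k))) =
        -(cS (((m : ℂ) + 1 / 2) ^ 2) * zS) + cS ((m : ℂ) + 1 / 2) * D1 (D1 (D1 a)) +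
          D1 (D1 (D1 k)) := by
      rw [h2]
      simp only [ss3_D1_add, ss3_D1_neg, ss3_D1_cS_mul, ss3_D1_z, mul_neg, neg_neg]
    rw [h3, h2, ss3_X1_sq] at h1
    simp only [map_pow] at h1
    linear_combination h1)
  have hhalf : (2 : Sm) = cS 2 := (map_ofNat (algebraMap ℂ Sm) 2).symm
  have h2u : ∀ f : Sm, 2 * f = 0 → f = 0 := by
    intro f hf
    have h3 : cS (1 / 2) * (2 * f) = 0 := by rw [hf, mul_zero]
    rw [hhalf, ← mul_assoc, ← map_mul] at h3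
    norm_num at h3
    exact h3
  refine ⟨?_, ?_, ?_, ?_, ?_, ?_, ?_, ?_, ?_⟩
  · exact (sub_eq_zero.1 q1.1).symm
  · exact sub_eq_zero.1 q3.2.2.1
  · exact sub_eq_zero.1 q3.2.1
  · refine sub_eq_zero.1 (h2u _ ?_)
    linear_combination (-1 : Sm) * q2.2.1
  · refine sub_eq_zero.1 (h2u _ ?_)
    linear_combination q4.2.2.2.1
  · exact sub_eq_zero.1 q2.1
  · exact sub_eq_zero.1 q4.2.2.1
  · linear_combination (-1 : Sm) * q4.2.1
  · linear_combination q4.1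

end H99.EQ
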