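import Pool.Agent.H99.EQ.Rings
import Pool.Agent.H99.EQ.O2

/-!
# Structure functions of the Matveev-Shevchishin metric and the frames
Only definitions.
-/

set_option autoImplicit false

open MeasureTheory Complex
open scoped ContDiff

noncomputable section

namespace H99.EQ

/-! ### rational functions of `z = ζ ∈ (-3/4, 0)` -/

def rN (z : ℝ) : ℝ := -z * (z + 3 / 4) * (z + 8 / 9)

/-- the derivative of `rN` -/
def rN1 (z : ℝ) : ℝ := -3 * z ^ 2 - 59 / 18 * z - 2 / 3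

def rW (z : ℝ) : ℝ := 2 / 3 - z ^ 2

def rq (z : ℝ) : ℝ := (27 * z ^ 3 + 32 * z ^ 2 + 4 * z - 4) / 9

/-- `Q = 2 N N'' - N'^2` -/
def rQ (z : ℝ) : ℝ := (z + 1) * rq z

/-- `dζ/dx` -/
def rfac (z : ℝ) : ℝ := -2 * rN z * rW z / rQ z

/-- `λ` -/
def rla (z : ℝ) : ℝ := rW z ^ 2 / (4 * rN z)

/-- `U = 1/λ` -/
def rU (z : ℝ) : ℝ := 4 * rN z / rW z ^ 2

/-- `ĥ = h / ḣ` -/
def rhh (z : ℝ) : ℝ := -rN1 z / rW z

/-- `ρ = (dḣ/dx)/ḣ` -/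
def rrho (z : ℝ) : ℝ := -1 - rfac z / z

/-- `ḣ = √λ` -/
def rhd (z : ℝ) : ℝ := rW z / (2 * Real.sqrt (rN z))

/-! ### functions of `τ` -/

def u1 (τ : ℝ) : ℝ := Real.sqrt (1 + τ ^ 2)

/-- `t = ω_3` -/
def tt (τ : ℝ) : ℝ := τ / u1 τ

/-- `ζ = 3 (t - 1)/8` -/
def zz (τ : ℝ) : ℝ := 3 / 8 * (tt τ - 1)

/-- `d/dx = gx d/dτ` -/
def gx (τ : ℝ) : ℝ := rfac (zz τ) * (8 / 3) * u1 τ ^ 3

/-- a real function of `ζ` as an element of `Sm` -/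
def ofZ (f : ℝ → ℝ) : Sm := mkSm fun τ => ((f (zz τ) : ℝ) : ℂ)

/-- a complex constant -/
abbrev cS (c : ℂ) : Sm := algebraMap ℂ Sm c

/-- a complex constant -/
abbrev cC (c : ℂ) : C2 := algebraMap ℂ C2 c

def zS : Sm := ofZ id
def laS : Sm := ofZ rla
def UuS : Sm := ofZ rU
def hhS : Sm := ofZ rhh
def rhoS : Sm := ofZ rrho
def hdS : Sm := ofZ rhd
def facS : Sm := ofZ rfac
def gxS : Sm := mkSm fun τ => ((gx τ : ℝ) : ℂ)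

/-- the derivation `d/dx` on functions of `τ` -/
def X1 : Derivation ℂ Sm Sm := gxS • dS

/-- `D1 f = f' + ρ f = (ḣ f)'/ḣ` -/
def D1 (f : Sm) : Sm := X1 f + rhoS * f

/-! ### variables `(τ, y)` -/

def X2 : Derivation ℂ C2 C2 := io gxS • dE (1, 0)
def Y2 : Derivation ℂ C2 C2 := dE (0, 1)

/-- the frame on `C2` -/
def fr2 : Fin 2 → Derivation ℂ C2 C2 := ![X2, Y2]

def cosY : C2 := mkCy fun p => ((Real.cos p.2 : ℝ) : ℂ)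
def sinY : C2 := mkCy fun p => ((Real.sin p.2 : ℝ) : ℂ)

/-- `e^{iky}` -/
def eY (k : ℤ) : C2 := mkCy fun p => exp (I * k * (p.2 : ℂ))

/-- the principal part `ν² λ (X² + Y²)` on `C2` -/
def Dpr2 : Module.End ℂ C2 :=
  mo (cC (nu ^ 2) * io laS) * (dv X2 * dv X2 + dv Y2 * dv Y2)

/-- the cubic principal part `ν³ S(X, Y)` on `C2` -/
def Spr2 : Module.End ℂ C2 :=
  mo (cC (nu ^ 3) * (io hdS * cosY)) *
    (mo (io laS) * (dv X2 * dv X2 * dv X2) + mo (io (laS + zS)) * (dv X2 * dv Y2 * dv Y2)) +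
  mo (cC (nu ^ 3) * (io hdS * sinY)) *
    (mo (io (hhS * laS)) * (dv X2 * dv X2 * dv Y2) +
      mo (io (hhS * laS - zS)) * (dv Y2 * dv Y2 * dv Y2))

/-! ### the radial profile and the variables `((σ, τ), y)` -/

/-- radial profile, as a function of `r²` -/
def ga (u : ℝ) : ℝ := expNegInvGlue (u - 1 / 64) * expNegInvGlue (9 / 64 - u)

def Rr (σ : ℝ) : ℝ := 3 / 16 + 1 / 32 * tt σ

def sg (σ : ℝ) : ℝ := ga (Rr σ ^ 2)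

def s3 : C3 := mkCy fun p => ((sg p.1.1 : ℝ) : ℂ)

def S3 : Derivation ℂ C3 C3 :=
  (mkCy fun p => ((1 / deriv sg p.1.1 : ℝ) : ℂ) : C3) • dE (((1, 0), 0) : (ℝ × ℝ) × ℝ)
def X3 : Derivation ℂ C3 C3 := io3 (io gxS) • dE (((0, 1), 0) : (ℝ × ℝ) × ℝ)
def Y3 : Derivation ℂ C3 C3 := dE (((0, 0), 1) : (ℝ × ℝ) × ℝ)

/-- the frame on `C3` -/
def fr3 : Fin 3 → Derivation ℂ C3 C3 := ![S3, X3, Y3]

/-- `ν² λ (X² + Y²)` on `C3` -/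
def Dpr3 : Module.End ℂ C3 :=
  mo (io3 (cC (nu ^ 2) * io laS)) * (dv X3 * dv X3 + dv Y3 * dv Y3)

/-- `ν³ S(X, Y)` on `C3` -/
def Spr3 : Module.End ℂ C3 :=
  mo (io3 (cC (nu ^ 3) * (io hdS * cosY))) *
    (mo (io3 (io laS)) * (dv X3 * dv X3 * dv X3) +
      mo (io3 (io (laS + zS))) * (dv X3 * dv Y3 * dv Y3)) +
  mo (io3 (cC (nu ^ 3) * (io hdS * sinY))) *
    (mo (io3 (io (hhS * laS))) * (dv X3 * dv X3 * dv Y3) +
      mo (io3 (io (hhS * laS - zS))) * (dv Y3 * dv Y3 * dv Y3))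

/-- `(s - s₁) ν Y` on `C3` -/
def Lpr3 : Module.End ℂ C3 :=
  mo ((s3 - algebraMap ℂ C3 ((sg 0 : ℝ) : ℂ)) * algebraMap ℂ C3 nu) * dv Y3

/-! ### the map to the torus and the form of the classical system -/

/-- `ω(τ, y)` -/
def om (τ y : ℝ) : V 3 := ![Real.cos y / u1 τ, Real.sin y / u1 τ, tt τ]

/-- the point `(1/2, 1/2, 1/2) + R(σ) ω(τ, y)` -/
def Phi3 (c : (ℝ × ℝ) × ℝ) : V 3 := fun k => 1 / 2 + Rr c.1.1 * om c.1.2 c.2 k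

/-- `p_x = ∑ (X Φ_k) t_k` -/
def Px (c : (ℝ × ℝ) × ℝ) (t : V 3) : ℝ :=
  Rr c.1.1 * (rfac (zz c.1.2) * (8 / 3)) *
    (-(c.1.2 * Real.cos c.2) * t 0 - c.1.2 * Real.sin c.2 * t 1 + t 2)

/-- `p_y = ∑ (Y Φ_k) t_k` -/
def Py (c : (ℝ × ℝ) × ℝ) (t : V 3) : ℝ :=
  Rr c.1.1 * (-Real.sin c.2 * t 0 + Real.cos c.2 * t 1) / u1 c.1.2

/-- `H` in the coordinates `(τ, y, p_x, p_y)` -/
def Hxy (τ px py : ℝ) : ℝ := rla (zz τ) * (px ^ 2 + py ^ 2)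

/-- `S` in the coordinates `(τ, y, p_x, p_y)` -/
def Sxy (τ y px py : ℝ) : ℝ :=
  rhd (zz τ) * (Real.cos y *
      (rla (zz τ) * px ^ 3 + (rla (zz τ) + zz τ) * (px * py ^ 2)) +
    Real.sin y * (rhh (zz τ) * rla (zz τ) * (px ^ 2 * py) +
      (rhh (zz τ) * rla (zz τ) - zz τ) * py ^ 3))

/-- the form of the classical system near the zero section, in the shell -/
def NearForm (p : Fin 3 → Ph 3 → ℝ) : Prop :=
  ∀ (c : (ℝ × ℝ) × ℝ) (t : V 3), ∀ᶠ s : ℝ in nhds 0,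
    p 0 (Phi3 c, s • t) = sg c.1.1 * (s ^ 2 * Hxy c.1.2 (Px c t) (Py c t)) ∧
    p 1 (Phi3 c, s • t) = sg c.1.1 ∧
    p 2 (Phi3 c, s • t) = sg c.1.1 * ((sg c.1.1 - sg 0) * (s * Py c t) +
      s ^ 3 * Sxy c.1.2 c.2 (Px c t) (Py c t))

end H99.EQ
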